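import Pool.Agent.TMX.Basic

/-! # [TMX-A2] half of a difference of roots of unity of 2-power order is not integral -/

set_option autoImplicit false

open Set Filter Topology

namespace TMX

private theorem A2_quarter : ¬ IsIntegral ℤ (-(1 / 4) : ℂ) := by
  intro h
  have h1 : (algebraMap ℚ ℂ) (-(1 / 4)) = (-(1 / 4) : ℂ) := by
    simp
  rw [← h1, isIntegral_algebraMap_iff (algebraMap ℚ ℂ).injective,
    IsIntegrallyClosed.isIntegral_iff] at h
  obtain ⟨y, hy⟩ := h
  have h2 : (y : ℚ) = -(1 / 4) := hy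
  have h3 : (4 * y : ℤ) = -1 := by
    have : (4 : ℚ) * y = -1 := by rw [h2]; norm_num
    exact_mod_cast this
  omega

private theorem A2_aux (n : ℕ) : ∀ z : ℂ, z ^ 2 ^ n = 1 → IsIntegral ℤ ((1 - z) / 2) →
    z = 1 ∨ z = -1 := by
  induction n with
  | zero =>
    intro z hz _
    left
    simpa using hz
  | succ n ih =>
    intro z hz hi
    have hzi : IsIntegral ℤ z := by
      have : 0 < 2 ^ (n + 1) := by positivity
      exact IsIntegral.of_pow this (by rw [hz]; exact isIntegral_one)
    have h1 : (z ^ 2) ^ 2 ^ n = 1 := by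
      rw [← pow_mul, ← hz]
      congr 1
      rw [pow_succ]; ring
    have h2 : IsIntegral ℤ ((1 - z ^ 2) / 2) := by
      have h3 : (1 - z ^ 2) / 2 = (1 - z) / 2 * (1 + z) := by ring
      rw [h3]
      exact hi.mul (isIntegral_one.add hzi)
    rcases ih (z ^ 2) h1 h2 with h | h
    · have h7 : (z - 1) * (z + 1) = 0 := by
        have h8 : (z - 1) * (z + 1) = z ^ 2 - 1 := by ring
        rw [h8, h, sub_self]
      rcases mul_eq_zero.mp h7 with h9 | h9
      · left; exact sub_eq_zero.mp h9
      · right; exact eq_neg_of_add_eq_zero_left h9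
    · exfalso
      apply A2_quarter
      have h4 : (-(1 / 4) : ℂ) = ((1 - z) / 2) ^ 4 := by
        have h5 : ((1 - z) / 2) ^ 4 = ((1 - 2 * z + z ^ 2) / 4) ^ 2 := by ring
        rw [h5, h]
        have h6 : ((1 - 2 * z + -1) / 4) ^ 2 = z ^ 2 / 4 := by ring
        rw [h6, h]
        ring
      rw [h4]
      exact hi.pow 4

/-- [A2] -/
theorem half_unit {n : ℕ} {u v : ℂ} (hu : u ^ 2 ^ n = 1) (hv : v ^ 2 ^ n = 1)
    (h : IsIntegral ℤ ((u - v) / 2)) : u = v ∨ u = -v := by
  have hu0 : u ≠ 0 := by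
    rintro rfl
    rw [zero_pow (by positivity)] at hu
    exact zero_ne_one hu
  have hpos : 0 < 2 ^ n := by positivity
  have hui : IsIntegral ℤ u⁻¹ := by
    refine IsIntegral.of_pow hpos ?_
    rw [inv_pow, hu, inv_one]
    exact isIntegral_one
  have h1 : (v * u⁻¹) ^ 2 ^ n = 1 := by
    rw [mul_pow, hv, inv_pow, hu, inv_one, one_mul]
  have h2 : IsIntegral ℤ ((1 - v * u⁻¹) / 2) := by
    have h3 : (1 - v * u⁻¹) / 2 = (u - v) / 2 * u⁻¹ := by
      field_simp
    rw [h3]
    exact h.mul hui
  rcases A2_aux n _ h1 h2 with h | h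
  · left
    have : v = u := by
      have h4 := congrArg (fun z => z * u) h
      simp only [one_mul] at h4
      rwa [mul_assoc, inv_mul_cancel₀ hu0, mul_one] at h4
    exact this.symm
  · right
    have : v = -u := by
      have h4 := congrArg (fun z => z * u) h
      simp only [neg_mul, one_mul] at h4
      rwa [mul_assoc, inv_mul_cancel₀ hu0, mul_one] at h4
    rw [this, neg_neg]

end TMX
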