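import Pool.Agent.TMX.Basic

set_option autoImplicit false

open Set Filter Topology

namespace TMX

theorem A3a_ra (θ : ℝ) (N : ℕ) {u : ℂ} (hu : u ^ 2 ^ N = 1) : u.re ∈ KK θ ∧ u.im ∈ KK θ := by
  have h0 : (2 : ℕ) ^ N ≠ 0 := by positivity
  have hp := Complex.isPrimitiveRoot_exp (2 ^ N) h0
  obtain ⟨i, _, hi⟩ := hp.eq_pow_of_pow_eq_one hu
  rw [← Complex.exp_nat_mul] at hi
  have e : (i : ℂ) * (2 * Real.pi * Complex.I / ((2 ^ N : ℕ) : ℂ)) =
      ((Real.pi * ((2 * i : ℤ) : ℝ) / 2 ^ N : ℝ) : ℂ) * Complex.I := by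
    push_cast; ring
  rw [e] at hi
  rw [← hi, Complex.exp_ofReal_mul_I_re, Complex.exp_ofReal_mul_I_im]
  constructor
  · apply Subfield.subset_closure
    left; right
    exact ⟨((2 * i : ℤ), N), rfl⟩
  · apply Subfield.subset_closure
    right
    exact ⟨((2 * i : ℤ), N), rfl⟩

theorem A3a_cos (θ : ℝ) : Real.cos θ ∈ KK θ := by
  apply Subfield.subset_closure
  left; left; simp

theorem A3a_sin (θ : ℝ) : Real.sin θ ∈ KK θ := by
  apply Subfield.subset_closure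
  left; left; simp

theorem A3a_bb (θ : ℝ) : bb θ ∈ KK θ := by
  unfold bb
  rw [Real.tan_eq_sin_div_cos]
  exact Subfield.div_mem _ (A3a_sin θ) (A3a_cos θ)

/-- the components of the directions of `DD` -/
theorem A3a_dd {θ : ℝ} {n : ℕ} {w : ℂ} (hw : w ∈ DD θ n) : w.re ∈ KK θ ∧ w.im ∈ KK θ := by
  have hzz : zz θ * (starRingEnd ℂ) (zz θ) = 1 := by
    rw [Complex.mul_conj, Complex.normSq_eq_norm_sq, zz_norm]; norm_num
  have key : ∀ a b : ℂ, a.re ∈ KK θ → a.im ∈ KK θ → b.re ∈ KK θ → b.im ∈ KK θ →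
      (a * b).re ∈ KK θ ∧ (a * b).im ∈ KK θ := by
    intro a b h1 h2 h3 h4
    rw [Complex.mul_re, Complex.mul_im]
    exact ⟨Subfield.sub_mem _ (Subfield.mul_mem _ h1 h3) (Subfield.mul_mem _ h2 h4),
      Subfield.add_mem _ (Subfield.mul_mem _ h1 h4) (Subfield.mul_mem _ h2 h3)⟩
  have hzr : (zz θ).re ∈ KK θ := by rw [zz_re]; exact A3a_cos θ
  have hzi : (zz θ).im ∈ KK θ := by rw [zz_im]; exact A3a_sin θ
  have hcr : ((starRingEnd ℂ) (zz θ)).re ∈ KK θ := by rw [Complex.conj_re]; exact hzr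
  have hci : ((starRingEnd ℂ) (zz θ)).im ∈ KK θ := by
    rw [Complex.conj_im]; exact Subfield.neg_mem _ hzi
  rcases hw with h | h
  · obtain ⟨h1, h2⟩ := A3a_ra θ n h
    have e : w = (w * (starRingEnd ℂ) (zz θ)) * zz θ := by
      linear_combination (-w) * hzz
    have := key _ _ h1 h2 hzr hzi
    rwa [← e] at this
  · obtain ⟨h1, h2⟩ := A3a_ra θ n h
    have e : w = (w * zz θ) * (starRingEnd ℂ) (zz θ) := by
      linear_combination (-w) * hzz
    have := key _ _ h1 h2 hcr hci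
    rwa [← e] at this

theorem A3a_crs {θ : ℝ} {n N : ℕ} {w u : ℂ} (hw : w ∈ DD θ n) (hu : u ^ 2 ^ N = 1) :
    crs w u ∈ KK θ := by
  obtain ⟨h1, h2⟩ := A3a_dd hw
  obtain ⟨h3, h4⟩ := A3a_ra θ N hu
  exact Subfield.sub_mem _ (Subfield.mul_mem _ h1 h4) (Subfield.mul_mem _ h2 h3)

theorem A3a_act {N : ℕ} (hN : 1 ≤ N) (d : Sg) {v : ℂ} (hv : v ^ 2 ^ N = 1) :
    (act d v) ^ 2 ^ N = 1 := by
  have hev : Even (2 ^ N) := by
    rw [Nat.even_pow]; exact ⟨by norm_num, by omega⟩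
  have hc : ((starRingEnd ℂ) v) ^ 2 ^ N = 1 := by rw [← map_pow, hv, map_one]
  obtain ⟨h1, h2⟩ := sg_cases d
  rcases h1 with h1 | h1 <;> rcases h2 with h2 | h2
  · have : act d v = v := by apply Complex.ext <;> simp [act, h1, h2]
    rw [this, hv]
  · have : act d v = (starRingEnd ℂ) v := by apply Complex.ext <;> simp [act, h1, h2]
    rw [this, hc]
  · have : act d v = -(starRingEnd ℂ) v := by apply Complex.ext <;> simp [act, h1, h2]
    rw [this, hev.neg_pow, hc]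
  · have : act d v = -v := by apply Complex.ext <;> simp [act, h1, h2]
    rw [this, hev.neg_pow, hv]

theorem A3a_nu {θ : ℝ} {p : Par} {n : ℕ} (g : Gen θ p n) (j : Fin 4) :
    (nu p j) ^ 2 ^ (n + 1) = 1 := by
  obtain ⟨k, _, hk⟩ := g.tilt
  have h2 := g.two
  unfold nu
  rw [mul_pow]
  have e1 : Complex.exp (p.1 * Complex.I) ^ 2 ^ (n + 1) = 1 := by
    rw [← Complex.exp_nat_mul, hk]
    rw [Complex.exp_eq_one_iff]
    refine ⟨k, ?_⟩
    have : (2 : ℂ) ^ n ≠ 0 := pow_ne_zero _ two_ne_zero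
    push_cast
    field_simp
    ring
  have e2 : (Complex.I ^ (j : ℕ)) ^ 2 ^ (n + 1) = 1 := by
    rw [← pow_mul, mul_comm, pow_mul]
    have : 2 ^ (n + 1) = 4 * 2 ^ (n - 1) := by
      obtain ⟨m, rfl⟩ := Nat.exists_eq_add_of_le h2
      have : 2 + m - 1 = m + 1 := by omega
      rw [this]; ring
    rw [this, pow_mul, Complex.I_pow_four, one_pow, one_pow]
  rw [e1, e2, one_mul]

theorem A3a_refl {θ : ℝ} {p : Par} {n : ℕ} (g : Gen θ p n) (j : Fin 4) {v : ℂ}
    (hv : v ^ 2 ^ (n + 1) = 1) : (refl p j v) ^ 2 ^ (n + 1) = 1 := by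
  have hev : Even (2 ^ (n + 1)) := by
    rw [Nat.even_pow]; exact ⟨by norm_num, by omega⟩
  have hc : ((starRingEnd ℂ) v) ^ 2 ^ (n + 1) = 1 := by rw [← map_pow, hv, map_one]
  rw [refl_eq, mul_pow, hc, hev.neg_pow, ← pow_mul, mul_comm 2, pow_mul, A3a_nu g]
  norm_num

theorem A3a_aux {θ : ℝ} {p : Par} {n : ℕ} (g : Gen θ p n) (l : List Lt) :
    ∀ x w : ℂ, (∀ u : ℂ, u ^ 2 ^ (n + 1) = 1 → crs w u ∈ KK θ) → GoodL θ p l (x, w) →
    ∃ (G : ℂ → ℂ) (hits : List (Fin 4 × ℂ)) (c0 : ℂ),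
      (∀ u v, G (u + v) = G u + G v) ∧ (∀ (r : ℝ) u, G ((r : ℂ) * u) = (r : ℂ) * G u) ∧
      (∀ u v, dot (G u) (G v) = dot u v) ∧ G (run θ p l (x, w)).2 = w ∧
      (∀ v : ℂ, v ^ 2 ^ (n + 1) = 1 → (G v) ^ 2 ^ (n + 1) = 1) ∧
      (∀ m, crs w (G (lat θ m)) ∈ KK θ) ∧ crs w c0 ∈ KK θ ∧
      hits.length = l.length ∧ (∀ h ∈ hits, h.2 ^ 2 ^ (n + 1) = 1 ∧ 0 < dot w h.2) ∧
      G (run θ p l (x, w)).1 + c0 =
        x + (tim θ p l (x, w) : ℂ) * w + 2 * (hits.map fun h => (p.2 h.1 : ℂ) * h.2).sum ∧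
      (l = [] → (∀ u, G u = u) ∧ c0 = 0) := by
  have h1pow : (1 : ℂ) ^ 2 ^ (n + 1) = 1 := one_pow _
  have hIpow : (Complex.I : ℂ) ^ 2 ^ (n + 1) = 1 := by
    have : 2 ^ (n + 1) = 4 * 2 ^ (n - 1) := by
      obtain ⟨m, hm⟩ := Nat.exists_eq_add_of_le g.two
      rw [hm]
      have : 2 + m - 1 = m + 1 := by omega
      rw [this]; ring
    rw [this, pow_mul, Complex.I_pow_four, one_pow]
  have hlat : ∀ (w : ℂ) (G : ℂ → ℂ), (∀ u : ℂ, u ^ 2 ^ (n + 1) = 1 → crs w u ∈ KK θ) →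
      (∀ u v, G (u + v) = G u + G v) → (∀ (r : ℝ) u, G ((r : ℂ) * u) = (r : ℂ) * G u) →
      (∀ v : ℂ, v ^ 2 ^ (n + 1) = 1 → (G v) ^ 2 ^ (n + 1) = 1) →
      ∀ m, crs w (G (lat θ m)) ∈ KK θ := by
    intro w G hw hadd hmul hroot m
    have e : lat θ m = ((2 * (m.1 : ℝ) : ℝ) : ℂ) * 1 + ((2 * bb θ * (m.2 : ℝ) : ℝ) : ℂ) * Complex.I := by
      apply Complex.ext <;> simp [lat]
    rw [e, hadd, hmul, hmul, crs_add_right, crs_mul_right, crs_mul_right]
    have k1 : (2 * (m.1 : ℝ)) ∈ KK θ := by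
      refine Subfield.mul_mem _ ?_ ?_
      · exact ofNat_mem (KK θ) 2
      · exact intCast_mem (KK θ) _
    have k2 : (2 * bb θ * (m.2 : ℝ)) ∈ KK θ := by
      refine Subfield.mul_mem _ (Subfield.mul_mem _ ?_ (A3a_bb θ)) ?_
      · exact ofNat_mem (KK θ) 2
      · exact intCast_mem (KK θ) _
    exact Subfield.add_mem _ (Subfield.mul_mem _ k1 (hw _ (hroot _ h1pow)))
      (Subfield.mul_mem _ k2 (hw _ (hroot _ hIpow)))
  induction l with
  | nil =>
    intro x w hw _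
    refine ⟨fun u => u, [], 0, fun _ _ => rfl, fun _ _ => rfl, fun _ _ => rfl, rfl,
      fun v hv => hv, ?_, ?_, rfl, ?_, ?_, ?_⟩
    · exact hlat w (fun u => u) hw (fun _ _ => rfl) (fun _ _ => rfl) (fun v hv => hv)
    · simp only [crs]
      simp only [Complex.zero_re, Complex.zero_im, mul_zero, sub_zero]
      exact Subfield.zero_mem _
    · intro h hh
      simp at hh
    · simp [run, tim]
    · intro _
      exact ⟨fun _ => rfl, rfl⟩
  | cons a l ih =>
    intro x w hw hl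
    obtain ⟨ha, hl'⟩ := hl
    set x1 := (nx θ p a (x, w)).1 with hx1
    set w1 := (nx θ p a (x, w)).2 with hw1
    have hw1e : w1 = refl p a.2 (act a.1.1 w) := rfl
    have hneg : dot (act a.1.1 w) (nu p a.2) < 0 := ha.1
    have hland : dot x1 (nu p a.2) = p.2 a.2 := dot_land (ne_of_lt hneg)
    have hx1e : x1 = frm θ a.1 (x + fl θ p a (x, w) * w) := rfl
    -- the inverse of the first step
    let Ga : ℂ → ℂ := fun u => act a.1.1 (refl p a.2 u)
    have hGa : ∀ u, Ga u = act a.1.1 (refl p a.2 u) := fun _ => rfl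
    have hGaadd : ∀ u v, Ga (u + v) = Ga u + Ga v := by
      intro u v; simp only [hGa, refl_add, act_add]
    have hGamul : ∀ (r : ℝ) u, Ga ((r : ℂ) * u) = (r : ℂ) * Ga u := by
      intro r u; simp only [hGa, refl_mul, act_mul]
    have hGadot : ∀ u v, dot (Ga u) (Ga v) = dot u v := by
      intro u v; simp only [hGa, dot_act, dot_refl]
    have hGacrs : ∀ u v, crs (Ga u) (Ga v) = -(sdet a.1.1) * crs u v := by
      intro u v; simp only [hGa, crs_act, crs_refl]; ring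
    have hGaroot : ∀ v : ℂ, v ^ 2 ^ (n + 1) = 1 → (Ga v) ^ 2 ^ (n + 1) = 1 := by
      intro v hv
      exact A3a_act (by omega) _ (A3a_refl g _ hv)
    have hGaw : Ga w1 = w := by
      rw [hGa, hw1e, refl_refl, act_self]
    have hsd : -(sdet a.1.1) ∈ KK θ := by
      rcases sdet_cases a.1.1 with h | h <;> rw [h]
      · exact Subfield.neg_mem _ (Subfield.one_mem _)
      · rw [neg_neg]; exact Subfield.one_mem _
    have hGaK : ∀ v, crs w1 v ∈ KK θ → crs w (Ga v) ∈ KK θ := by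
      intro v hv
      rw [← hGaw, hGacrs]
      exact Subfield.mul_mem _ hsd hv
    have hw1K : ∀ u : ℂ, u ^ 2 ^ (n + 1) = 1 → crs w1 u ∈ KK θ := by
      intro u hu
      have h3 := hw _ (hGaroot u hu)
      rw [← hGaw, hGacrs] at h3
      have h4 := Subfield.mul_mem _ hsd h3
      have h5 : -(sdet a.1.1) * (-(sdet a.1.1) * crs w1 u) = crs w1 u := by
        have := sdet_sq a.1.1
        linear_combination (crs w1 u) * this
      rwa [h5] at h4
    obtain ⟨G, hits, c0, i1, i2, i3, i4, i5, i6, i7, i8, i9, i10, i11⟩ := ih x1 w1 hw1K hl'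
    have hrun : run θ p (a :: l) (x, w) = run θ p l (x1, w1) := rfl
    have htim : tim θ p (a :: l) (x, w) = fl θ p a (x, w) + tim θ p l (x1, w1) := rfl
    have hGax1 : Ga x1 = x + fl θ p a (x, w) * w - lat θ a.1.2 +
        ((2 * p.2 a.2 : ℝ) : ℂ) * Ga (nu p a.2) := by
      have e1 : refl p a.2 x1 = x1 + ((2 * p.2 a.2 : ℝ) : ℂ) * refl p a.2 (nu p a.2) := by
        rw [refl_nu]
        conv_lhs => unfold refl
        rw [hland]; ring
      rw [hGa, e1, act_add, act_mul, ← hGa]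
      congr 1
      rw [hx1e]
      unfold frm
      rw [act_self]
    refine ⟨fun u => Ga (G u), (a.2, Ga (nu p a.2)) :: hits.map (fun h => (h.1, Ga h.2)),
      Ga c0 + lat θ a.1.2, ?_, ?_, ?_, ?_, ?_, ?_, ?_, ?_, ?_, ?_, ?_⟩
    · intro u v; simp only [i1, hGaadd]
    · intro r u; simp only [i2, hGamul]
    · intro u v; simp only [hGadot, i3]
    · rw [hrun]
      simp only [i4]
      exact hGaw
    · intro v hv
      exact hGaroot _ (i5 v hv)
    · exact hlat w _ hw (fun u v => by simp only [i1, hGaadd])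
        (fun r u => by simp only [i2, hGamul]) (fun v hv => hGaroot _ (i5 v hv))
    · rw [crs_add_right]
      refine Subfield.add_mem _ (hGaK _ i7) ?_
      exact hlat w (fun u => u) hw (fun _ _ => rfl) (fun _ _ => rfl) (fun v hv => hv) _
    · simp [i8]
    · intro h hh
      rcases List.mem_cons.1 hh with rfl | hh
      · refine ⟨hGaroot _ (A3a_nu g _), ?_⟩
        show 0 < dot w (Ga (nu p a.2))
        rw [hGa, refl_nu, act_neg, dot_neg_right, ← dot_act_left]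
        linarith
      · obtain ⟨h', hh', rfl⟩ := List.mem_map.1 hh
        obtain ⟨j1, j2⟩ := i9 h' hh'
        refine ⟨hGaroot _ j1, ?_⟩
        show 0 < dot w (Ga h'.2)
        rw [← hGaw, hGadot]
        exact j2
    · rw [hrun, htim]
      have e2 : Ga (G (run θ p l (x1, w1)).1) + Ga c0 = Ga x1 + (tim θ p l (x1, w1) : ℂ) * w +
          2 * Ga ((hits.map fun h => (p.2 h.1 : ℂ) * h.2).sum) := by
        rw [← hGaadd, i10, hGaadd, hGaadd, hGamul, hGaw]
        have : (2 : ℂ) = ((2 : ℝ) : ℂ) := by norm_num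
        rw [this, hGamul]
      have e3 : ∀ L : List (Fin 4 × ℂ), Ga ((L.map fun h => (p.2 h.1 : ℂ) * h.2).sum) =
          ((L.map (fun h => (h.1, Ga h.2))).map fun h => (p.2 h.1 : ℂ) * h.2).sum := by
        intro L
        induction L with
        | nil =>
          simp only [List.map_nil, List.sum_nil]
          have := hGamul 0 0
          simpa using this
        | cons b L ihL =>
          simp only [List.map_cons, List.sum_cons]
          rw [hGaadd, hGamul, ihL]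
      rw [e3] at e2
      simp only [List.map_cons, List.sum_cons]
      rw [hGax1] at e2
      push_cast at e2 ⊢
      linear_combination e2
    · intro h
      simp at h

/-- [A3a] holonomy of a path in a direction of `DD`. -/
theorem holonomy {θ : ℝ} (hz : Transcendental ℚ (zz θ)) {p : Par}
    {n : ℕ} (g : Gen θ p n) {w x : ℂ} (hw : w ∈ DD θ n) {l : List Lt} (hl : GoodL θ p l (x, w)) :
    ∃ (G : ℂ → ℂ) (hits : List (Fin 4 × ℂ)) (c0 : ℂ),
      (∀ u v, G (u + v) = G u + G v) ∧ (∀ (r : ℝ) u, G ((r : ℂ) * u) = (r : ℂ) * G u) ∧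
      (∀ u v, dot (G u) (G v) = dot u v) ∧ G (run θ p l (x, w)).2 = w ∧
      (∀ v : ℂ, v ^ 2 ^ (n + 1) = 1 → (G v) ^ 2 ^ (n + 1) = 1) ∧
      (∀ m, crs w (G (lat θ m)) ∈ KK θ) ∧ crs w c0 ∈ KK θ ∧
      hits.length = l.length ∧ (∀ h ∈ hits, h.2 ^ 2 ^ (n + 1) = 1 ∧ 0 < dot w h.2) ∧
      G (run θ p l (x, w)).1 + c0 =
        x + (tim θ p l (x, w) : ℂ) * w + 2 * (hits.map fun h => (p.2 h.1 : ℂ) * h.2).sum ∧
      (l = [] → (∀ u, G u = u) ∧ c0 = 0) :=
  A3a_aux g l x w (fun _ hu => A3a_crs hw hu) hl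

end TMX
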