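import Pool.Agent.TMX.Basic

set_option autoImplicit false

open Set Filter Topology

namespace TMX

private theorem A4_neg {θ : ℝ} {n : ℕ} (hn : 1 ≤ n) {w : ℂ} (hw : w ∈ DD θ n) : -w ∈ DD θ n := by
  have hN : Even (2 ^ n) := (Nat.even_pow' (by omega)).2 even_two
  rcases hw with h | h
  · left
    rw [neg_mul, hN.neg_pow, h]
  · right
    rw [neg_mul, hN.neg_pow, h]

private theorem A4_conj {θ : ℝ} {n : ℕ} {w : ℂ} (hw : w ∈ DD θ n) :
    (starRingEnd ℂ) w ∈ DD θ n := by
  rcases hw with h | h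
  · right
    have := congrArg (starRingEnd ℂ) h
    rw [map_pow, map_mul, Complex.conj_conj, map_one] at this
    exact this
  · left
    have := congrArg (starRingEnd ℂ) h
    rw [map_pow, map_mul, map_one] at this
    exact this

private theorem A4_mul {θ : ℝ} {n : ℕ} {a w : ℂ} (ha : a ^ 2 ^ n = 1) (hw : w ∈ DD θ n) :
    a * w ∈ DD θ n := by
  rcases hw with h | h
  · left
    rw [mul_assoc, mul_pow, ha, h, one_mul]
  · right
    rw [mul_assoc, mul_pow, ha, h, one_mul]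

private theorem A4_I {n : ℕ} (hn : 2 ≤ n) : Complex.I ^ 2 ^ n = 1 := by
  obtain ⟨k, rfl⟩ := Nat.exists_eq_add_of_le hn
  rw [pow_add, pow_mul]
  norm_num

private theorem A4_nu {θ : ℝ} {p : Par} {n : ℕ} (g : Gen θ p n) (j : Fin 4) :
    ((nu p j) ^ 2) ^ 2 ^ n = 1 := by
  obtain ⟨k, -, hk⟩ := g.tilt
  have h1 : (Complex.I ^ (j : ℕ)) ^ 2 ^ n = 1 := by
    rw [← pow_mul, mul_comm, pow_mul, A4_I g.two, one_pow]
  have h2 : (Complex.exp (p.1 * Complex.I)) ^ (2 * 2 ^ n) = 1 := by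
    rw [← Complex.exp_nat_mul, Complex.exp_eq_one_iff]
    refine ⟨k, ?_⟩
    rw [hk]
    have h3 : (2 : ℂ) ^ n ≠ 0 := pow_ne_zero _ two_ne_zero
    push_cast
    field_simp
  unfold nu
  rw [← pow_mul, mul_pow, h2, one_mul, mul_comm 2, pow_mul, h1, one_pow]

private theorem A4_norm {θ : ℝ} {n : ℕ} {w : ℂ} (hw : w ∈ DD θ n) : ‖w‖ = 1 := by
  have h0 : ∀ a : ℂ, ‖a‖ = 1 → (w * a) ^ 2 ^ n = 1 → ‖w‖ = 1 := by
    intro a ha h
    have h1 := congrArg norm h
    rw [norm_pow, norm_mul, ha, mul_one, norm_one] at h1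
    exact (pow_eq_one_iff_of_nonneg (norm_nonneg _) (by positivity)).1 h1
  rcases hw with h | h
  · exact h0 _ (by rw [Complex.norm_conj, zz_norm]) h
  · exact h0 _ (zz_norm θ) h

/-- [A4] stability of `DD`, and no direction of `DD` is parallel to a side. -/
theorem DD_ops {θ : ℝ} (hz : Transcendental ℚ (zz θ)) {p : Par} {n : ℕ} (g : Gen θ p n) {w : ℂ}
    (hw : w ∈ DD θ n) : ‖w‖ = 1 ∧ -w ∈ DD θ n ∧ Complex.I * w ∈ DD θ n ∧
      (∀ d, act d w ∈ DD θ n) ∧ (∀ j, refl p j w ∈ DD θ n) ∧ (∀ j, dot w (nu p j) ≠ 0) := by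
  have hn1 : 1 ≤ n := le_trans (by norm_num) g.two
  have hnorm := A4_norm hw
  refine ⟨hnorm, A4_neg hn1 hw, A4_mul (A4_I g.two) hw, ?_, ?_, ?_⟩
  · intro d
    rcases sg_cases d with ⟨h1 | h1, h2 | h2⟩
    · have e : act d w = w := by
        apply Complex.ext <;> simp [act, h1, h2]
      rw [e]
      exact hw
    · have e : act d w = (starRingEnd ℂ) w := by
        apply Complex.ext <;> simp [act, h1, h2]
      rw [e]
      exact A4_conj hw
    · have e : act d w = -(starRingEnd ℂ) w := by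
        apply Complex.ext <;> simp [act, h1, h2]
      rw [e]
      exact A4_neg hn1 (A4_conj hw)
    · have e : act d w = -w := by
        apply Complex.ext <;> simp [act, h1, h2]
      rw [e]
      exact A4_neg hn1 hw
  · intro j
    rw [refl_eq, neg_mul]
    exact A4_neg hn1 (A4_mul (A4_nu g j) (A4_conj hw))
  · intro j h0
    have hN : Even (2 ^ n) := (Nat.even_pow' (by omega)).2 even_two
    have h1 : refl p j w = w := by
      unfold refl
      rw [h0]
      simp
    rw [refl_eq] at h1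
    have hww : w * (starRingEnd ℂ) w = 1 := by
      rw [Complex.mul_conj, Complex.normSq_eq_norm_sq, hnorm]
      norm_num
    have h2 : w ^ 2 = -(nu p j) ^ 2 := by
      linear_combination (-w) * h1 - (nu p j) ^ 2 * hww
    have h3 : (w ^ 2) ^ 2 ^ n = 1 := by
      rw [h2, hN.neg_pow, A4_nu g j]
    have hzz : zz θ * (starRingEnd ℂ) (zz θ) = 1 := by
      rw [Complex.mul_conj, Complex.normSq_eq_norm_sq, zz_norm]
      norm_num
    have h4 : (zz θ) ^ (2 * 2 ^ n) = 1 := by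
      rw [← pow_mul] at h3
      rcases hw with h | h
      · have h5 : (w * (starRingEnd ℂ) (zz θ)) ^ (2 * 2 ^ n) = 1 := by
          rw [mul_comm 2, pow_mul, h, one_pow]
        rw [mul_pow, h3, one_mul] at h5
        calc (zz θ) ^ (2 * 2 ^ n) = (zz θ) ^ (2 * 2 ^ n) * ((starRingEnd ℂ) (zz θ)) ^ (2 * 2 ^ n) := by
              rw [h5, mul_one]
          _ = 1 := by rw [← mul_pow, hzz, one_pow]
      · have h5 : (w * zz θ) ^ (2 * 2 ^ n) = 1 := by
          rw [mul_comm 2, pow_mul, h, one_pow]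
        rw [mul_pow, h3, one_mul] at h5
        exact h5
    apply hz
    refine ⟨Polynomial.X ^ (2 * 2 ^ n) - 1, ?_, ?_⟩
    · exact Polynomial.X_pow_sub_C_ne_zero (by positivity) (1 : ℚ)
    · simp [h4]

private theorem A4_fin (a : ℂ) (ha : a ≠ 0) (n : ℕ) : {w : ℂ | (w * a) ^ 2 ^ n = 1}.Finite := by
  have h1 : {x : ℂ | x ^ 2 ^ n = 1}.Finite := by
    refine Set.Finite.subset ((Polynomial.nthRootsFinset (2 ^ n) (1 : ℂ)).finite_toSet) ?_
    intro x hx
    exact (Polynomial.mem_nthRootsFinset (by positivity) 1).2 hx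
  refine (h1.preimage (f := fun w : ℂ => w * a) ?_)
  intro x _ y _ hxy
  exact mul_right_cancel₀ ha hxy

theorem DD_finite (θ : ℝ) (n : ℕ) : (DD θ n).Finite := by
  have hz : zz θ ≠ 0 := by
    intro h
    have := zz_norm θ
    rw [h, norm_zero] at this
    exact zero_ne_one this
  have hz' : (starRingEnd ℂ) (zz θ) ≠ 0 := by
    rwa [Ne, map_eq_zero]
  exact (A4_fin _ hz' n).union (A4_fin _ hz n)

end TMX
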