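import Pool.Agent.TMX.Defs

/-! # TMX: basic identities -/

set_option autoImplicit false

open Set Filter Topology

namespace TMX

/-! ## dot and crs -/

theorem dot_comm (x y : ℂ) : dot x y = dot y x := by unfold dot; ring
theorem crs_anti (x y : ℂ) : crs x y = -crs y x := by unfold crs; ring
theorem crs_self (x : ℂ) : crs x x = 0 := by unfold crs; ring
theorem dot_self (x : ℂ) : dot x x = ‖x‖ ^ 2 := by
  unfold dot; rw [← Complex.normSq_eq_norm_sq, Complex.normSq_apply]
theorem dot_add_left (x y z : ℂ) : dot (x + y) z = dot x z + dot y z := by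
  simp only [dot, Complex.add_re, Complex.add_im]; ring
theorem dot_sub_left (x y z : ℂ) : dot (x - y) z = dot x z - dot y z := by
  simp only [dot, Complex.sub_re, Complex.sub_im]; ring
theorem dot_neg_left (x z : ℂ) : dot (-x) z = -dot x z := by
  simp only [dot, Complex.neg_re, Complex.neg_im]; ring
theorem dot_mul_left (r : ℝ) (x z : ℂ) : dot ((r : ℂ) * x) z = r * dot x z := by
  simp only [dot, Complex.mul_re, Complex.mul_im, Complex.ofReal_re, Complex.ofReal_im]; ring
theorem dot_add_right (x y z : ℂ) : dot x (y + z) = dot x y + dot x z := by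
  simp only [dot, Complex.add_re, Complex.add_im]; ring
theorem dot_sub_right (x y z : ℂ) : dot x (y - z) = dot x y - dot x z := by
  simp only [dot, Complex.sub_re, Complex.sub_im]; ring
theorem dot_neg_right (x z : ℂ) : dot x (-z) = -dot x z := by
  simp only [dot, Complex.neg_re, Complex.neg_im]; ring
theorem dot_mul_right (r : ℝ) (x z : ℂ) : dot x ((r : ℂ) * z) = r * dot x z := by
  simp only [dot, Complex.mul_re, Complex.mul_im, Complex.ofReal_re, Complex.ofReal_im]; ring
theorem crs_add_left (x y z : ℂ) : crs (x + y) z = crs x z + crs y z := by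
  simp only [crs, Complex.add_re, Complex.add_im]; ring
theorem crs_sub_left (x y z : ℂ) : crs (x - y) z = crs x z - crs y z := by
  simp only [crs, Complex.sub_re, Complex.sub_im]; ring
theorem crs_neg_left (x z : ℂ) : crs (-x) z = -crs x z := by
  simp only [crs, Complex.neg_re, Complex.neg_im]; ring
theorem crs_mul_left (r : ℝ) (x z : ℂ) : crs ((r : ℂ) * x) z = r * crs x z := by
  simp only [crs, Complex.mul_re, Complex.mul_im, Complex.ofReal_re, Complex.ofReal_im]; ring
theorem crs_add_right (x y z : ℂ) : crs x (y + z) = crs x y + crs x z := by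
  simp only [crs, Complex.add_re, Complex.add_im]; ring
theorem crs_sub_right (x y z : ℂ) : crs x (y - z) = crs x y - crs x z := by
  simp only [crs, Complex.sub_re, Complex.sub_im]; ring
theorem crs_neg_right (x z : ℂ) : crs x (-z) = -crs x z := by
  simp only [crs, Complex.neg_re, Complex.neg_im]; ring
theorem crs_mul_right (r : ℝ) (x z : ℂ) : crs x ((r : ℂ) * z) = r * crs x z := by
  simp only [crs, Complex.mul_re, Complex.mul_im, Complex.ofReal_re, Complex.ofReal_im]; ring
theorem dot_I_mul (x y : ℂ) : dot (Complex.I * x) y = crs x y := by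
  simp only [dot, crs, Complex.mul_re, Complex.mul_im, Complex.I_re, Complex.I_im]; ring
theorem crs_I_mul (x y : ℂ) : crs (Complex.I * x) y = -dot x y := by
  simp only [dot, crs, Complex.mul_re, Complex.mul_im, Complex.I_re, Complex.I_im]; ring
theorem dot_mul_I (x y : ℂ) : dot x (Complex.I * y) = -crs x y := by
  simp only [dot, crs, Complex.mul_re, Complex.mul_im, Complex.I_re, Complex.I_im]; ring
theorem crs_mul_I (x y : ℂ) : crs x (Complex.I * y) = dot x y := by
  simp only [dot, crs, Complex.mul_re, Complex.mul_im, Complex.I_re, Complex.I_im]; ring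
/-- Decomposition along a unit vector. -/
theorem decomp {w : ℂ} (hw : ‖w‖ = 1) (x : ℂ) :
    x = ((dot w x : ℂ) + (crs w x : ℂ) * Complex.I) * w := by
  have h : w.re * w.re + w.im * w.im = 1 := by
    have := dot_self w; rw [hw] at this; simpa [dot] using this
  apply Complex.ext
  · simp only [dot, crs, Complex.mul_re, Complex.add_re, Complex.add_im, Complex.mul_im,
      Complex.ofReal_re, Complex.ofReal_im, Complex.I_re, Complex.I_im]
    linear_combination (-x.re) * h
  · simp only [dot, crs, Complex.mul_re, Complex.add_re, Complex.add_im, Complex.mul_im,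
      Complex.ofReal_re, Complex.ofReal_im, Complex.I_re, Complex.I_im]
    linear_combination (-x.im) * h
theorem dot_sq_add_crs_sq (x y : ℂ) : dot x y ^ 2 + crs x y ^ 2 = ‖x‖ ^ 2 * ‖y‖ ^ 2 := by
  rw [← dot_self, ← dot_self]; unfold dot crs; ring
theorem abs_dot_le (x y : ℂ) : |dot x y| ≤ ‖x‖ * ‖y‖ := by
  apply abs_le_of_sq_le_sq _ (by positivity)
  rw [mul_pow]; nlinarith [dot_sq_add_crs_sq x y, sq_nonneg (crs x y)]
theorem abs_crs_le (x y : ℂ) : |crs x y| ≤ ‖x‖ * ‖y‖ := by
  apply abs_le_of_sq_le_sq _ (by positivity)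
  rw [mul_pow]; nlinarith [dot_sq_add_crs_sq x y, sq_nonneg (dot x y)]
theorem continuous_dot : Continuous fun z : ℂ × ℂ => dot z.1 z.2 := by unfold dot; fun_prop
theorem continuous_crs : Continuous fun z : ℂ × ℂ => crs z.1 z.2 := by unfold crs; fun_prop

/-! ## normals -/

theorem nu_norm (p : Par) (j : Fin 4) : ‖nu p j‖ = 1 := by
  unfold nu; rw [norm_mul, Complex.norm_exp_ofReal_mul_I, norm_pow, Complex.norm_I]; simp
theorem nu_succ (p : Par) (j : Fin 4) : nu p (j + 1) = Complex.I * nu p j := by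
  have h4 : Complex.I ^ 4 = 1 := Complex.I_pow_four
  have e : ∀ i : Fin 4, i = 0 ∨ i = 1 ∨ i = 2 ∨ i = 3 := by decide
  rcases e j with rfl | rfl | rfl | rfl
  · change Complex.exp _ * Complex.I ^ 1 = Complex.I * (Complex.exp _ * Complex.I ^ 0); ring
  · change Complex.exp _ * Complex.I ^ 2 = Complex.I * (Complex.exp _ * Complex.I ^ 1); ring
  · change Complex.exp _ * Complex.I ^ 3 = Complex.I * (Complex.exp _ * Complex.I ^ 2); ring
  · change Complex.exp _ * Complex.I ^ 0 = Complex.I * (Complex.exp _ * Complex.I ^ 3)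
    linear_combination (-(Complex.exp (p.1 * Complex.I))) * h4
theorem nu_add_two (p : Par) (j : Fin 4) : nu p (j + 2) = -nu p j := by
  have : j + 2 = j + 1 + 1 := by rw [add_assoc]; rfl
  rw [this, nu_succ, nu_succ, ← mul_assoc, Complex.I_mul_I]; ring
theorem nu_add_three (p : Par) (j : Fin 4) : nu p (j + 3) = -(Complex.I * nu p j) := by
  have : j + 3 = j + 1 + 2 := by rw [add_assoc]; rfl
  rw [this, nu_add_two, nu_succ]
theorem dot_nu_self (p : Par) (j : Fin 4) : dot (nu p j) (nu p j) = 1 := by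
  rw [dot_self, nu_norm]; norm_num
theorem dot_nu_succ (p : Par) (j : Fin 4) : dot (nu p j) (nu p (j + 1)) = 0 := by
  rw [nu_succ, dot_mul_I, crs_self]; simp
theorem dot_nu_succ' (p : Par) (j : Fin 4) : dot (nu p (j + 1)) (nu p j) = 0 := by
  rw [dot_comm, dot_nu_succ]
theorem crs_nu_succ (p : Par) (w : ℂ) (j : Fin 4) : crs w (nu p (j + 1)) = dot w (nu p j) := by
  rw [nu_succ, crs_mul_I]
theorem dot_succ (p : Par) (w : ℂ) (j : Fin 4) : dot w (nu p (j + 1)) = -crs w (nu p j) := by
  rw [nu_succ, dot_mul_I]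
theorem dot_add_two (p : Par) (w : ℂ) (j : Fin 4) : dot w (nu p (j + 2)) = -dot w (nu p j) := by
  rw [nu_add_two, dot_neg_right]
theorem dot_add_three (p : Par) (w : ℂ) (j : Fin 4) :
    dot w (nu p (j + 3)) = crs w (nu p j) := by
  rw [nu_add_three, dot_neg_right, dot_mul_I]; ring
/-- The vector `w` in the basis of two adjacent normals. -/
theorem basis_nu (p : Par) (j : Fin 4) (w : ℂ) :
    w = (dot w (nu p j) : ℂ) * nu p j + (dot w (nu p (j + 1)) : ℂ) * nu p (j + 1) := by
  have h := decomp (nu_norm p j) w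
  rw [dot_succ, nu_succ, dot_comm w (nu p j), crs_anti w (nu p j)]
  rw [h]
  have e : nu p j * (1 : ℂ) = nu p j := by ring
  generalize hd : (dot (nu p j) ((dot (nu p j) w + crs (nu p j) w * Complex.I) * nu p j)) = d
  generalize hc : (crs (nu p j) ((dot (nu p j) w + crs (nu p j) w * Complex.I) * nu p j)) = c
  rw [← h] at hd hc
  rw [← hd, ← hc]; push_cast; ring
theorem dot_sq_nu (p : Par) (j : Fin 4) (w : ℂ) :
    dot w (nu p j) ^ 2 + dot w (nu p (j + 1)) ^ 2 = ‖w‖ ^ 2 := by
  rw [dot_succ, neg_sq, dot_sq_add_crs_sq, nu_norm]; ring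

/-! ## vertices -/

theorem dot_vtx_self (p : Par) (j : Fin 4) : dot (vtx p j) (nu p j) = p.2 j := by
  unfold vtx; rw [dot_add_left, dot_mul_left, dot_mul_left, dot_nu_self, dot_nu_succ']; ring
theorem dot_vtx_succ (p : Par) (j : Fin 4) : dot (vtx p j) (nu p (j + 1)) = p.2 (j + 1) := by
  unfold vtx; rw [dot_add_left, dot_mul_left, dot_mul_left, dot_nu_self, dot_nu_succ]; ring
theorem dot_vtx_two (p : Par) (j : Fin 4) : dot (vtx p j) (nu p (j + 2)) = -p.2 j := by
  rw [dot_add_two, dot_vtx_self]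
theorem dot_vtx_three (p : Par) (j : Fin 4) : dot (vtx p j) (nu p (j + 3)) = -p.2 (j + 1) := by
  have : j + 3 = j + 1 + 2 := by rw [add_assoc]; rfl
  rw [this, dot_add_two, dot_vtx_succ]
theorem crs_vtx (p : Par) (w : ℂ) (j : Fin 4) :
    crs w (vtx p j) = p.2 j * crs w (nu p j) + p.2 (j + 1) * crs w (nu p (j + 1)) := by
  unfold vtx; rw [crs_add_right, crs_mul_right, crs_mul_right]
/-- The side `j + 1` goes from `vtx j` to `vtx (j + 1)`. -/
theorem vtx_sub (p : Par) (j : Fin 4) :
    vtx p (j + 1) - vtx p j = ((p.2 j + p.2 (j + 2) : ℝ) : ℂ) * (Complex.I * nu p (j + 1)) := by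
  have e : j + 1 + 1 = j + 2 := by rw [add_assoc]; rfl
  unfold vtx
  rw [e, nu_add_two, nu_succ, ← mul_assoc Complex.I Complex.I, Complex.I_mul_I]; push_cast; ring
theorem crs_vtx_sub (p : Par) (w : ℂ) (j : Fin 4) :
    crs w (vtx p (j + 1)) - crs w (vtx p j) =
      (p.2 j + p.2 (j + 2)) * dot w (nu p (j + 1)) := by
  rw [← crs_sub_right, vtx_sub, crs_mul_right, crs_mul_I]

/-! ## reflections -/

theorem refl_add (p : Par) (j : Fin 4) (v w : ℂ) : refl p j (v + w) = refl p j v + refl p j w := by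
  unfold refl; rw [dot_add_left]; push_cast; ring
theorem refl_sub (p : Par) (j : Fin 4) (v w : ℂ) : refl p j (v - w) = refl p j v - refl p j w := by
  unfold refl; rw [dot_sub_left]; push_cast; ring
theorem refl_neg (p : Par) (j : Fin 4) (w : ℂ) : refl p j (-w) = -refl p j w := by
  unfold refl; rw [dot_neg_left]; push_cast; ring
theorem refl_mul (p : Par) (j : Fin 4) (r : ℝ) (w : ℂ) :
    refl p j ((r : ℂ) * w) = (r : ℂ) * refl p j w := by
  unfold refl; rw [dot_mul_left]; push_cast; ring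
theorem dot_refl_nu (p : Par) (j : Fin 4) (w : ℂ) :
    dot (refl p j w) (nu p j) = -dot w (nu p j) := by
  unfold refl; rw [dot_sub_left, dot_mul_left, dot_nu_self]; ring
theorem refl_refl (p : Par) (j : Fin 4) (w : ℂ) : refl p j (refl p j w) = w := by
  rw [refl, dot_refl_nu]; unfold refl; push_cast; ring
theorem dot_refl (p : Par) (j : Fin 4) (v w : ℂ) :
    dot (refl p j v) (refl p j w) = dot v w := by
  unfold refl
  simp only [dot_sub_left, dot_sub_right, dot_mul_left, dot_mul_right, dot_nu_self]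
  rw [dot_comm (nu p j) w]; ring
theorem dot_refl_left (p : Par) (j : Fin 4) (v w : ℂ) :
    dot (refl p j v) w = dot v (refl p j w) := by
  rw [← dot_refl p j (refl p j v) w, refl_refl]
theorem norm_refl (p : Par) (j : Fin 4) (w : ℂ) : ‖refl p j w‖ = ‖w‖ := by
  have h : ‖refl p j w‖ ^ 2 = ‖w‖ ^ 2 := by rw [← dot_self, ← dot_self, dot_refl]
  exact (pow_left_inj₀ (norm_nonneg _) (norm_nonneg _) two_ne_zero).mp h
theorem refl_nu (p : Par) (j : Fin 4) : refl p j (nu p j) = -nu p j := by
  unfold refl; rw [dot_nu_self]; push_cast; ring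
/-- Reflection as a formula with the complex conjugate. -/
theorem refl_eq (p : Par) (j : Fin 4) (w : ℂ) :
    refl p j w = -(nu p j) ^ 2 * (starRingEnd ℂ) w := by
  have h1 : nu p j * (starRingEnd ℂ) (nu p j) = 1 := by
    rw [Complex.mul_conj, Complex.normSq_eq_norm_sq, nu_norm]; norm_num
  have h2 : ((2 * dot w (nu p j) : ℝ) : ℂ) =
      w * (starRingEnd ℂ) (nu p j) + (starRingEnd ℂ) w * nu p j := by
    apply Complex.ext
    · simp [dot]; ring
    · simp; ring
  unfold refl; rw [h2]; linear_combination (-w) * h1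
theorem refl_succ (p : Par) (j : Fin 4) (w : ℂ) : refl p (j + 1) w = -refl p j w := by
  rw [refl_eq, refl_eq, nu_succ, mul_pow, Complex.I_sq]; ring
theorem crs_refl (p : Par) (j : Fin 4) (v w : ℂ) :
    crs (refl p j v) (refl p j w) = -crs v w := by
  unfold refl
  simp only [crs_sub_left, crs_sub_right, crs_mul_left, crs_mul_right, crs_self]
  have h : dot w (nu p j) * crs v (nu p j) - dot v (nu p j) * crs w (nu p j) = crs v w := by
    have h1 := dot_self (nu p j); rw [nu_norm] at h1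
    unfold dot crs at *; linear_combination (v.re * w.im - v.im * w.re) * h1
  rw [crs_anti (nu p j) w]; linear_combination (-2 : ℝ) * h
theorem dot_refl_succ (p : Par) (j : Fin 4) (w : ℂ) :
    dot (refl p j w) (nu p (j + 1)) = dot w (nu p (j + 1)) := by
  unfold refl; rw [dot_sub_left, dot_mul_left, dot_nu_succ]; ring
theorem dot_refl_succ' (p : Par) (j : Fin 4) (w : ℂ) :
    dot (refl p (j + 1) w) (nu p j) = dot w (nu p j) := by
  unfold refl; rw [dot_sub_left, dot_mul_left, dot_nu_succ']; ring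
theorem refl_crs_nu (p : Par) (j : Fin 4) (w : ℂ) :
    crs (refl p j w) (nu p j) = crs w (nu p j) := by
  unfold refl; rw [crs_sub_left, crs_mul_left, crs_self]; ring

/-! ## the group `Sg` and frames -/

theorem act_add (d : Sg) (x y : ℂ) : act d (x + y) = act d x + act d y := by
  apply Complex.ext <;> simp [act] <;> ring
theorem act_sub (d : Sg) (x y : ℂ) : act d (x - y) = act d x - act d y := by
  apply Complex.ext <;> simp [act] <;> ring
theorem act_neg (d : Sg) (x : ℂ) : act d (-x) = -act d x := by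
  apply Complex.ext <;> simp [act]
theorem act_mul (d : Sg) (r : ℝ) (x : ℂ) : act d ((r : ℂ) * x) = (r : ℂ) * act d x := by
  apply Complex.ext <;> simp [act] <;> ring
theorem act_one (x : ℂ) : act 1 x = x := by apply Complex.ext <;> simp [act]
theorem act_act (d e : Sg) (x : ℂ) : act d (act e x) = act (d * e) x := by
  apply Complex.ext <;> simp [act] <;> ring
theorem sg_mul_self (d : Sg) : d * d = 1 := by
  ext <;> simp
theorem act_self (d : Sg) (x : ℂ) : act d (act d x) = x := by
  rw [act_act, sg_mul_self, act_one]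
theorem sg_cases (d : Sg) : (d.1 = 1 ∨ d.1 = -1) ∧ (d.2 = 1 ∨ d.2 = -1) :=
  ⟨Int.units_eq_one_or _, Int.units_eq_one_or _⟩
theorem dot_act (d : Sg) (x y : ℂ) : dot (act d x) (act d y) = dot x y := by
  obtain ⟨h1, h2⟩ := sg_cases d
  rcases h1 with h1 | h1 <;> rcases h2 with h2 | h2 <;> simp [dot, act, h1, h2]
theorem crs_act (d : Sg) (x y : ℂ) : crs (act d x) (act d y) = sdet d * crs x y := by
  simp only [crs, act, sdet]; ring
theorem sdet_sq (d : Sg) : sdet d * sdet d = 1 := by
  obtain ⟨h1, h2⟩ := sg_cases d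
  rcases h1 with h1 | h1 <;> rcases h2 with h2 | h2 <;> simp [sdet, h1, h2]
theorem sdet_cases (d : Sg) : sdet d = 1 ∨ sdet d = -1 := by
  obtain ⟨h1, h2⟩ := sg_cases d
  rcases h1 with h1 | h1 <;> rcases h2 with h2 | h2 <;> simp [sdet, h1, h2]
theorem dot_act_left (d : Sg) (x y : ℂ) : dot (act d x) y = dot x (act d y) := by
  rw [← dot_act d (act d x) y, act_self]
theorem norm_act (d : Sg) (x : ℂ) : ‖act d x‖ = ‖x‖ := by
  have h : ‖act d x‖ ^ 2 = ‖x‖ ^ 2 := by rw [← dot_self, ← dot_self, dot_act]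
  exact (pow_left_inj₀ (norm_nonneg _) (norm_nonneg _) two_ne_zero).mp h

theorem frm_add (θ : ℝ) (c : Cp) (x v : ℂ) : frm θ c (x + v) = frm θ c x + act c.1 v := by
  unfold frm; rw [← act_add]; congr 1; ring
theorem frm_sub_frm (θ : ℝ) (c : Cp) (x y : ℂ) : frm θ c x - frm θ c y = act c.1 (x - y) := by
  unfold frm; rw [← act_sub]; congr 1; ring
theorem norm_frm_sub (θ : ℝ) (c : Cp) (x y : ℂ) : ‖frm θ c x - frm θ c y‖ = ‖x - y‖ := by
  rw [frm_sub_frm, norm_act]
theorem frm_ray (θ : ℝ) (c : Cp) (x w : ℂ) (s : ℝ) :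
    frm θ c (x + (s : ℂ) * w) = frm θ c x + (s : ℂ) * act c.1 w := by
  rw [frm_add, act_mul]
theorem continuous_act (d : Sg) : Continuous (act d) := by
  have : act d = fun x => ((((d.1 : ℤ) : ℝ) * x.re : ℝ) : ℂ) +
      ((((d.2 : ℤ) : ℝ) * x.im : ℝ) : ℂ) * Complex.I := by
    funext x; apply Complex.ext <;> simp [act]
  rw [this]; fun_prop
theorem continuous_frm (θ : ℝ) (c : Cp) : Continuous (frm θ c) := by
  unfold frm; exact (continuous_act _).comp (continuous_id.sub continuous_const)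

/-- Composition of frames: `frm (cmp c c') = frm c' ∘ frm c`. -/
def cmp (c c' : Cp) : Cp :=
  (c.1 * c'.1, (c.2.1 + (c.1.1 : ℤ) * c'.2.1, c.2.2 + (c.1.2 : ℤ) * c'.2.2))

/-- Inverse frame. -/
def inv (c : Cp) : Cp := (c.1, (-((c.1.1 : ℤ) * c.2.1), -((c.1.2 : ℤ) * c.2.2)))

theorem act_lat (θ : ℝ) (d : Sg) (m : ℤ × ℤ) :
    act d (lat θ m) = lat θ ((d.1 : ℤ) * m.1, (d.2 : ℤ) * m.2) := by
  apply Complex.ext <;> simp [act, lat] <;> ring
theorem frm_frm (θ : ℝ) (c c' : Cp) (x : ℂ) : frm θ c' (frm θ c x) = frm θ (cmp c c') x := by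
  obtain ⟨h1, h2⟩ := sg_cases c.1
  apply Complex.ext
  · rcases h1 with h1 | h1 <;> simp [frm, act, lat, cmp, h1] <;> ring
  · rcases h2 with h2 | h2 <;> simp [frm, act, lat, cmp, h2] <;> ring
theorem frm_one (θ : ℝ) (x : ℂ) : frm θ (1, (0, 0)) x = x := by
  apply Complex.ext <;> simp [frm, act, lat]
theorem frm_inv (θ : ℝ) (c : Cp) (x : ℂ) : frm θ (inv c) (frm θ c x) = x := by
  obtain ⟨h1, h2⟩ := sg_cases c.1
  apply Complex.ext
  · rcases h1 with h1 | h1 <;> simp [frm, act, lat, inv, h1]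
  · rcases h2 with h2 | h2 <;> simp [frm, act, lat, inv, h2]
theorem frm_inv' (θ : ℝ) (c : Cp) (x : ℂ) : frm θ c (frm θ (inv c) x) = x := by
  obtain ⟨h1, h2⟩ := sg_cases c.1
  apply Complex.ext
  · rcases h1 with h1 | h1 <;> simp [frm, act, lat, inv, h1]
  · rcases h2 with h2 | h2 <;> simp [frm, act, lat, inv, h2]
theorem inv_fst (c : Cp) : (inv c).1 = c.1 := rfl
theorem inv_inv (c : Cp) : inv (inv c) = c := by
  obtain ⟨h1, h2⟩ := sg_cases c.1
  rcases h1 with h1 | h1 <;> rcases h2 with h2 | h2 <;>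
    (unfold inv; ext <;> simp [h1, h2])
theorem cmp_inv (c : Cp) : cmp c (inv c) = (1, (0, 0)) := by
  obtain ⟨h1, h2⟩ := sg_cases c.1
  rcases h1 with h1 | h1 <;> rcases h2 with h2 | h2 <;>
    (unfold inv cmp; ext <;> simp [h1, h2])
theorem inv_cmp (c : Cp) : cmp (inv c) c = (1, (0, 0)) := by
  obtain ⟨h1, h2⟩ := sg_cases c.1
  rcases h1 with h1 | h1 <;> rcases h2 with h2 | h2 <;>
    (unfold inv cmp; ext <;> simp [h1, h2])
/-- `frm c x ∈ obs c' ↔ x ∈ obs (cmp c c')`. -/
theorem obs_frm (θ : ℝ) (p : Par) (c c' : Cp) (x : ℂ) :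
    frm θ c x ∈ obs θ p c' ↔ x ∈ obs θ p (cmp c c') := by
  simp only [obs, Set.mem_ofPred_eq, frm_frm]
theorem fre_frm (θ : ℝ) (p : Par) (c : Cp) (x : ℂ) : Fre θ p (frm θ c x) ↔ Fre θ p x := by
  constructor
  · intro h c' hc'
    apply h (cmp (inv c) c')
    rw [← obs_frm, frm_inv]; exact hc'
  · intro h c' hc'
    exact h _ ((obs_frm θ p c c' x).mp hc')
theorem freeSeg_frm (θ : ℝ) (p : Par) (c : Cp) (x w : ℂ) (t : ℝ) :
    FreeSeg θ p (frm θ c x) (act c.1 w) t ↔ FreeSeg θ p x w t := by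
  constructor
  · intro h s h0 h1
    have := h s h0 h1
    rw [← frm_ray] at this
    exact (fre_frm θ p c _).mp this
  · intro h s h0 h1
    rw [← frm_ray]
    exact (fre_frm θ p c _).mpr (h s h0 h1)

/-! ## legs -/

theorem dot_land {θ : ℝ} {p : Par} {a : Lt} {z : ℂ × ℂ}
    (h : dot (act a.1.1 z.2) (nu p a.2) ≠ 0) : dot (nx θ p a z).1 (nu p a.2) = p.2 a.2 := by
  simp only [nx, frm_ray, dot_add_left, dot_mul_left, fl]
  field_simp; ring
theorem Q_isClosed (p : Par) : IsClosed (Q p) := by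
  have : Q p = ⋂ j, {x | dot x (nu p j) ≤ p.2 j} := by ext x; simp [Q]
  rw [this]
  apply isClosed_iInter; intro j
  apply isClosed_le _ continuous_const
  exact continuous_dot.comp (by fun_prop : Continuous fun x : ℂ => (x, nu p j))
theorem obs_isClosed (θ : ℝ) (p : Par) (c : Cp) : IsClosed (obs θ p c) :=
  (Q_isClosed p).preimage (continuous_frm θ c)
/-- An outgoing ray does not come back to the hole. -/
theorem out_ray {p : Par} {x w : ℂ} (h : Out p x w) {s : ℝ} (hs : 0 < s) :
    x + (s : ℂ) * w ∉ Q p := by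
  obtain ⟨_, j, h1, h2⟩ := h
  intro hq
  have := hq j
  rw [dot_add_left, dot_mul_left, h1] at this
  nlinarith [mul_pos hs h2]
theorem zz_norm (θ : ℝ) : ‖zz θ‖ = 1 := by unfold zz; exact Complex.norm_exp_ofReal_mul_I θ
theorem zz_re (θ : ℝ) : (zz θ).re = Real.cos θ := by unfold zz; exact Complex.exp_ofReal_mul_I_re θ
theorem zz_im (θ : ℝ) : (zz θ).im = Real.sin θ := by unfold zz; exact Complex.exp_ofReal_mul_I_im θ
theorem nu_re_zero (p : Par) : (nu p 0).re = Real.cos p.1 := by
  simp [nu, Complex.exp_ofReal_mul_I_re]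
theorem nu_im_zero (p : Par) : (nu p 0).im = Real.sin p.1 := by
  simp [nu, Complex.exp_ofReal_mul_I_im]

theorem run_append (θ : ℝ) (p : Par) (l l' : List Lt) (z : ℂ × ℂ) :
    run θ p (l ++ l') z = run θ p l' (run θ p l z) := by
  induction l generalizing z with
  | nil => rfl
  | cons a l ih => simp only [List.cons_append, run, ih]
theorem tim_append (θ : ℝ) (p : Par) (l l' : List Lt) (z : ℂ × ℂ) :
    tim θ p (l ++ l') z = tim θ p l z + tim θ p l' (run θ p l z) := by
  induction l generalizing z with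
  | nil => simp [tim, run]
  | cons a l ih => simp only [List.cons_append, tim, run, ih]; ring
theorem goodL_append (θ : ℝ) (p : Par) (l l' : List Lt) (z : ℂ × ℂ) :
    GoodL θ p (l ++ l') z ↔ GoodL θ p l z ∧ GoodL θ p l' (run θ p l z) := by
  induction l generalizing z with
  | nil => simp [GoodL, run]
  | cons a l ih => simp only [List.cons_append, GoodL, run, ih, and_assoc]

/-- Reversal of a leg: `x` is in the open side `s0` of the hole, `w` points outwards and the
segment of length `t` is free; the reversed segment, seen in the frame of any copy `c`, is a leg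
that ends at `x`. -/
theorem rev_leg {θ : ℝ} {p : Par} {x w : ℂ} {s0 : Fin 4} (hx : dot x (nu p s0) = p.2 s0)
    (hxj : ∀ j, j ≠ s0 → dot x (nu p j) < p.2 j) (hw : 0 < dot w (nu p s0)) (c : Cp) {t : ℝ}
    (ht : 0 < t) (hf : FreeSeg θ p x w t) :
    Good θ p (inv c, s0) (frm θ c (x + (t : ℂ) * w), -act c.1 w) ∧
    fl θ p (inv c, s0) (frm θ c (x + (t : ℂ) * w), -act c.1 w) = t ∧
    nx θ p (inv c, s0) (frm θ c (x + (t : ℂ) * w), -act c.1 w) = (x, -refl p s0 w) := by
  have e1 : act (inv c).1 (-act c.1 w) = -w := by rw [inv_fst, act_neg, act_self]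
  have e2 : frm θ (inv c) (frm θ c (x + (t : ℂ) * w)) = x + (t : ℂ) * w := frm_inv θ c _
  have hfl : fl θ p (inv c, s0) (frm θ c (x + (t : ℂ) * w), -act c.1 w) = t := by
    simp only [fl, e1, e2, dot_add_left, dot_mul_left, dot_neg_left, hx]
    field_simp; ring
  have hnx1 : frm θ (inv c) (frm θ c (x + (t : ℂ) * w) + (t : ℂ) * -act c.1 w) = x := by
    rw [frm_ray, e2, e1]; ring
  have hnx : nx θ p (inv c, s0) (frm θ c (x + (t : ℂ) * w), -act c.1 w) =
      (x, -refl p s0 w) := by
    simp only [nx]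
    rw [hfl, hnx1, e1, refl_neg]
  refine ⟨⟨?_, ?_, ?_, ?_⟩, hfl, hnx⟩
  · simp only [e1, dot_neg_left]; linarith
  · rw [hfl]; exact ht
  · rw [hfl]
    intro s h0 h1 c'
    have h2 : frm θ c (x + (t : ℂ) * w) + (s : ℂ) * -act c.1 w =
        frm θ c (x + ((t - s : ℝ) : ℂ) * w) := by
      rw [frm_ray, frm_ray]; push_cast; ring
    change frm θ c (x + (t : ℂ) * w) + (s : ℂ) * -act c.1 w ∉ obs θ p c'
    rw [h2]
    exact (fre_frm θ p c _).mpr (hf (t - s) (by linarith) (by linarith)) c'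
  · intro j hj
    rw [hnx]; exact hxj j hj

end TMX
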