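import Pool.Agent.TMX.Basic

set_option autoImplicit false

open Set Filter Topology

namespace TMX

theorem a6_dist (a b : ℝ) :
    ‖Complex.exp (a * Complex.I) - Complex.exp (b * Complex.I)‖ ≤ |a - b| := by
  have h1 : Complex.exp (a * Complex.I) - Complex.exp (b * Complex.I) =
      Complex.exp (b * Complex.I) * (Complex.exp (Complex.I * ((a - b : ℝ) : ℂ)) - 1) := by
    rw [mul_sub, ← Complex.exp_add, mul_one]
    congr 2
    push_cast
    ring
  rw [h1, norm_mul, Complex.norm_exp_ofReal_mul_I, one_mul]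
  exact Real.norm_exp_I_mul_ofReal_sub_one_le

theorem DD_dense (θ : ℝ) {v : ℂ} (hv : ‖v‖ = 1) {ε : ℝ} (hε : 0 < ε) :
    ∃ n₀ : ℕ, ∀ n ≥ n₀, ∃ w ∈ DD θ n, ¬ Spc θ w ∧ ‖w - v‖ < ε := by
  classical
  obtain ⟨n₁, hn₁⟩ := pow_unbounded_of_one_lt (8 * Real.pi / ε) (one_lt_two)
  refine ⟨max n₁ 3, fun n hn => ?_⟩
  have hn1 : n₁ ≤ n := le_trans (le_max_left _ _) hn
  have hn3 : 3 ≤ n := le_trans (le_max_right _ _) hn
  have hN : 8 * Real.pi / ε < (2 : ℝ) ^ n :=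
    lt_of_lt_of_le hn₁ (pow_le_pow_right₀ one_le_two hn1)
  have hN8 : (8 : ℤ) ≤ ((2 ^ n : ℕ) : ℤ) := by
    have : (2 : ℕ) ^ 3 ≤ 2 ^ n := Nat.pow_le_pow_right (by norm_num) hn3
    exact_mod_cast this
  have hNpos : (0 : ℝ) < (2 : ℝ) ^ n := by positivity
  have hN0 : (2 ^ n : ℕ) ≠ 0 := by positivity
  have hz : zz θ * (starRingEnd ℂ) (zz θ) = 1 := by
    rw [Complex.mul_conj, Complex.normSq_eq_norm_sq, zz_norm]
    norm_num
  -- the angle
  let v₀ : ℂ := (starRingEnd ℂ) (zz θ) * v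
  have hv₀ : ‖v₀‖ = 1 := by
    show ‖(starRingEnd ℂ) (zz θ) * v‖ = 1
    rw [norm_mul, Complex.norm_conj, zz_norm, hv, one_mul]
  let α : ℝ := Complex.arg v₀
  have hα : v₀ = Complex.exp (α * Complex.I) := by
    have := Complex.norm_mul_exp_arg_mul_I v₀
    rw [hv₀, Complex.ofReal_one, one_mul] at this
    exact this.symm
  have hvz : v = zz θ * v₀ := by
    show v = zz θ * ((starRingEnd ℂ) (zz θ) * v)
    rw [← mul_assoc, hz, one_mul]
  let ζ : ℂ := Complex.exp (2 * Real.pi * Complex.I / ((2 ^ n : ℕ) : ℂ))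
  have hζ : IsPrimitiveRoot ζ (2 ^ n) := Complex.isPrimitiveRoot_exp (2 ^ n) hN0
  have hζ0 : ζ ≠ 0 := Complex.exp_ne_zero _
  let k : ℤ := ⌊α * 2 ^ n / (2 * Real.pi)⌋
  have hk1 : (k : ℝ) ≤ α * 2 ^ n / (2 * Real.pi) := Int.floor_le _
  have hk2 : α * 2 ^ n / (2 * Real.pi) < k + 1 := Int.lt_floor_add_one _
  have hpi : 0 < 2 * Real.pi := by positivity
  have hζk : ∀ m : ℤ, ζ ^ m = Complex.exp (((2 * Real.pi * m / 2 ^ n : ℝ) : ℂ) * Complex.I) := by
    intro m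
    show (Complex.exp _) ^ m = _
    rw [← Complex.exp_int_mul]
    congr 1
    push_cast
    ring
  let W : Fin 5 → ℂ := fun j => zz θ * ζ ^ (k + (j : ℕ))
  have hWinj : Function.Injective W := by
    intro i j hij
    have h1 : ζ ^ (k + (i : ℕ)) = ζ ^ (k + (j : ℕ)) := by
      refine mul_left_cancel₀ (a := zz θ) ?_ hij
      intro h0
      have := zz_norm θ
      rw [h0, norm_zero] at this
      exact zero_ne_one this
    have h2 : ζ ^ (((i : ℕ) : ℤ) - ((j : ℕ) : ℤ)) = 1 := by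
      have : (((i : ℕ) : ℤ) - ((j : ℕ) : ℤ)) = (k + (i : ℕ)) - (k + (j : ℕ)) := by ring
      rw [this, zpow_sub₀ hζ0, h1, div_self (zpow_ne_zero _ hζ0)]
    have h3 := (hζ.zpow_eq_one_iff_dvd _).1 h2
    have hi := i.2
    have hj := j.2
    have h4 : ((i : ℕ) : ℤ) - ((j : ℕ) : ℤ) = 0 := by
      refine Int.eq_zero_of_abs_lt_dvd h3 ?_
      rw [abs_lt]
      constructor <;> omega
    exact Fin.ext (by omega)
  let T : Finset ℂ := {zz θ, -zz θ, (starRingEnd ℂ) (zz θ), -(starRingEnd ℂ) (zz θ)}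
  have hT : T.card ≤ 4 := Finset.card_le_four
  have hex : ∃ j : Fin 5, W j ∉ T := by
    by_contra hcon
    push Not at hcon
    have h5 : (Finset.univ.image W).card = 5 := by
      rw [Finset.card_image_of_injective _ hWinj, Finset.card_univ, Fintype.card_fin]
    have h6 : Finset.univ.image W ⊆ T := by
      intro w hw
      obtain ⟨j, _, rfl⟩ := Finset.mem_image.1 hw
      exact hcon j
    have := Finset.card_le_card h6
    omega
  obtain ⟨j, hj⟩ := hex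
  refine ⟨W j, Or.inl ?_, ?_, ?_⟩
  · show (zz θ * ζ ^ (k + (j : ℕ)) * (starRingEnd ℂ) (zz θ)) ^ 2 ^ n = 1
    have h1 : zz θ * ζ ^ (k + (j : ℕ)) * (starRingEnd ℂ) (zz θ) = ζ ^ (k + (j : ℕ)) := by
      linear_combination (ζ ^ (k + (j : ℕ))) * hz
    rw [h1, ← zpow_natCast, ← zpow_mul, mul_comm, zpow_mul, zpow_natCast, hζ.pow_eq_one, one_zpow]
  · intro hs
    apply hj
    simp only [T, Finset.mem_insert, Finset.mem_singleton]
    exact hs
  · have h1 : W j - v = zz θ * (Complex.exp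
        (((2 * Real.pi * ((k + (j : ℕ) : ℤ) : ℝ) / 2 ^ n : ℝ) : ℂ) * Complex.I) -
        Complex.exp (α * Complex.I)) := by
      rw [← hζk, ← hα, mul_sub, ← hvz]
    rw [h1, norm_mul, zz_norm, one_mul]
    refine lt_of_le_of_lt (a6_dist _ _) ?_
    have hjn : ((j : ℕ) : ℝ) ≤ 4 := by
      have := j.2
      have h : (j : ℕ) ≤ 4 := by omega
      exact_mod_cast h
    have hj0 : (0 : ℝ) ≤ ((j : ℕ) : ℝ) := Nat.cast_nonneg _
    have h2 : 2 * Real.pi * ((k + (j : ℕ) : ℤ) : ℝ) / 2 ^ n - α =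
        2 * Real.pi / 2 ^ n * ((k : ℝ) + (j : ℕ) - α * 2 ^ n / (2 * Real.pi)) := by
      push_cast
      field_simp
    rw [h2, abs_mul, abs_of_pos (by positivity)]
    have h3 : |(k : ℝ) + (j : ℕ) - α * 2 ^ n / (2 * Real.pi)| ≤ 4 := by
      rw [abs_le]
      constructor <;> linarith
    have h4 : 2 * Real.pi / 2 ^ n * 4 < ε := by
      rw [div_lt_iff₀ hε] at hN
      rw [div_mul_eq_mul_div, div_lt_iff₀ hNpos]
      linarith
    exact lt_of_le_of_lt (mul_le_mul_of_nonneg_left h3 (by positivity)) h4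

end TMX
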