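import Pool.Agent.TMX.Basic

/-! # TMX: the separatrices are outgoing -/

set_option autoImplicit false

open Set Filter Topology

namespace TMX

theorem c1_vtx_mem {p : Par} (hp : p ∈ Pi0) (j : Fin 4) : vtx p j ∈ Q p := by
  obtain ⟨_, _, hh, _⟩ := hp
  have e : ∀ i k : Fin 4, k = i ∨ k = i + 1 ∨ k = i + 2 ∨ k = i + 3 := by decide
  intro k
  rcases e j k with rfl | rfl | rfl | rfl
  · exact (dot_vtx_self p _).le
  · exact (dot_vtx_succ p _).le
  · rw [dot_vtx_two]; have := hh j; linarith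
  · rw [dot_vtx_three]
    have := hh (j + 1)
    have e3 : j + 1 + 2 = j + 3 := by rw [add_assoc]; rfl
    rw [e3] at this
    linarith

theorem c1_zz_nu0 (θ : ℝ) (p : Par) : dot (zz θ) (nu p 0) = Real.cos (θ - p.1) := by
  unfold dot
  rw [zz_re, zz_im, nu_re_zero, nu_im_zero, Real.cos_sub]

theorem c1_zz_nu1 (θ : ℝ) (p : Par) : dot (zz θ) (nu p 1) = Real.sin (θ - p.1) := by
  have h := dot_succ p (zz θ) 0
  rw [zero_add] at h
  rw [h]
  unfold crs
  rw [zz_re, zz_im, nu_re_zero, nu_im_zero, Real.sin_sub]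
  ring

theorem c1_u_nu0 (θ : ℝ) (p : Par) : dot (act dp (zz θ)) (nu p 0) = -Real.cos (θ + p.1) := by
  have h1 : (act dp (zz θ)).re = -Real.cos θ := by simp [act, dp, zz_re]
  have h2 : (act dp (zz θ)).im = Real.sin θ := by simp [act, dp, zz_im]
  unfold dot
  rw [h1, h2, nu_re_zero, nu_im_zero, Real.cos_add]
  ring

theorem c1_u_nu1 (θ : ℝ) (p : Par) : dot (act dp (zz θ)) (nu p 1) = Real.sin (θ + p.1) := by
  have h := dot_succ p (act dp (zz θ)) 0
  rw [zero_add] at h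
  rw [h]
  have h1 : (act dp (zz θ)).re = -Real.cos θ := by simp [act, dp, zz_re]
  have h2 : (act dp (zz θ)).im = Real.sin θ := by simp [act, dp, zz_im]
  unfold crs
  rw [h1, h2, nu_re_zero, nu_im_zero, Real.sin_add]
  ring

/-- [C1] the separatrices are outgoing unit states. -/
theorem sep_out {θ : ℝ} (hθ : |θ - Real.pi / 4| < 1 / 100) {p : Par} (hp : p ∈ Pi0) :
    Out p (sepm θ p).1 (sepm θ p).2 ∧ Out p (sepp θ p).1 (sepp θ p).2 ∧
    ‖(sepm θ p).2‖ = 1 ∧ ‖(sepp θ p).2‖ = 1 ∧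
    0 < dot (sepm θ p).2 (nu p 1) ∧ 0 < dot (sepm θ p).2 (nu p 2) ∧
    0 < dot (sepp θ p).2 (nu p 2) ∧ 0 < dot (sepp θ p).2 (nu p 3) := by
  have hp' := hp
  obtain ⟨hp1, hp2, _, _⟩ := hp'
  have hθ' := abs_lt.mp hθ
  have hpi1 := Real.pi_gt_d2
  have hpi2 := Real.pi_lt_d2
  have s1 : 0 < Real.sin (θ - p.1) := by
    apply Real.sin_pos_of_pos_of_lt_pi <;> linarith
  have s2 : 0 < Real.cos (θ - p.1) := by
    apply Real.cos_pos_of_mem_Ioo; constructor <;> linarith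
  have s3 : 0 < Real.sin (θ + p.1) := by
    apply Real.sin_pos_of_pos_of_lt_pi <;> linarith
  have s4 : 0 < Real.cos (θ + p.1) := by
    apply Real.cos_pos_of_mem_Ioo; constructor <;> linarith
  have m1 : 0 < dot (sepm θ p).2 (nu p 1) := by
    show 0 < dot (-refl p 1 (zz θ)) (nu p 1)
    rw [dot_neg_left, dot_refl_nu, neg_neg, c1_zz_nu1]
    exact s1
  have m2 : 0 < dot (sepm θ p).2 (nu p 2) := by
    show 0 < dot (-refl p 1 (zz θ)) (nu p 2)
    have h := dot_refl_succ p 1 (zz θ)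
    have e : (1 : Fin 4) + 1 = 2 := rfl
    rw [e] at h
    have h2 := dot_add_two p (zz θ) 0
    rw [zero_add] at h2
    rw [dot_neg_left, h, h2, neg_neg, c1_zz_nu0]
    exact s2
  have m3 : 0 < dot (sepp θ p).2 (nu p 2) := by
    show 0 < dot (refl p 3 (act dp (zz θ))) (nu p 2)
    have h := dot_refl_succ' p 2 (act dp (zz θ))
    have e : (2 : Fin 4) + 1 = 3 := rfl
    rw [e] at h
    have h2 := dot_add_two p (act dp (zz θ)) 0
    rw [zero_add] at h2
    rw [h, h2, c1_u_nu0, neg_neg]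
    exact s4
  have m4 : 0 < dot (sepp θ p).2 (nu p 3) := by
    show 0 < dot (refl p 3 (act dp (zz θ))) (nu p 3)
    have h2 := dot_add_two p (act dp (zz θ)) 1
    have e : (1 : Fin 4) + 2 = 3 := rfl
    rw [e] at h2
    rw [dot_refl_nu, h2, neg_neg, c1_u_nu1]
    exact s3
  refine ⟨⟨c1_vtx_mem hp 1, 1, dot_vtx_self p 1, m1⟩, ⟨c1_vtx_mem hp 2, 2, dot_vtx_self p 2, m3⟩,
    ?_, ?_, m1, m2, m3, m4⟩
  · show ‖-refl p 1 (zz θ)‖ = 1
    rw [norm_neg, norm_refl, zz_norm]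
  · show ‖refl p 3 (act dp (zz θ))‖ = 1
    rw [norm_refl, norm_act, zz_norm]

end TMX
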