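import Pool.Agent.TMX.Basic

/-! # TMX, G1: the box and the distance of the copies -/

set_option autoImplicit false

open Set Filter Topology

namespace TMX

theorem G1_re_one (p : Par) : (nu p 1).re = -Real.sin p.1 := by
  have h := nu_succ p 0
  have e : (0 : Fin 4) + 1 = 1 := rfl
  rw [e] at h
  rw [h, Complex.mul_re, Complex.I_re, Complex.I_im, nu_im_zero]
  ring

theorem G1_im_one (p : Par) : (nu p 1).im = Real.cos p.1 := by
  have h := nu_succ p 0
  have e : (0 : Fin 4) + 1 = 1 := rfl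
  rw [e] at h
  rw [h, Complex.mul_im, Complex.I_re, Complex.I_im, nu_re_zero]
  ring

/-- [G1] -/
theorem box {p : Par} (hp : p ∈ Pi0) {x : ℂ} (hx : x ∈ Q p) :
    |x.re - 1 / 4| < 1 / 50 ∧ |x.im - 1 / 2| < 1 / 50 := by
  obtain ⟨hp1, hp2, -, hv⟩ := hp
  have hpi := Real.pi_gt_three
  have hs : 0 < Real.sin p.1 := Real.sin_pos_of_pos_of_lt_pi (by linarith) (by linarith)
  have hc : 0 < Real.cos p.1 := Real.cos_pos_of_mem_Ioo ⟨by linarith, by linarith⟩
  have a0 := hx 0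
  have a1 := hx 1
  have a2 := hx 2
  have a3 := hx 3
  have e2 : dot x (nu p 2) = -dot x (nu p 0) := dot_add_two p x 0
  have e3 : dot x (nu p 3) = -dot x (nu p 1) := dot_add_two p x 1
  have hb : x = (dot x (nu p 0) : ℂ) * nu p 0 + (dot x (nu p 1) : ℂ) * nu p 1 := basis_nu p 0 x
  rw [e2] at a2
  rw [e3] at a3
  set a := dot x (nu p 0) with ha
  set b := dot x (nu p 1) with hbd
  have xr : x.re = a * Real.cos p.1 - b * Real.sin p.1 := by
    rw [hb, Complex.add_re, Complex.re_ofReal_mul, Complex.re_ofReal_mul, nu_re_zero, G1_re_one]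
    ring
  have xi : x.im = a * Real.sin p.1 + b * Real.cos p.1 := by
    rw [hb, Complex.add_im, Complex.im_ofReal_mul, Complex.im_ofReal_mul, nu_im_zero, G1_im_one]
  have n2 : nu p 2 = -nu p 0 := nu_add_two p 0
  have n3 : nu p 3 = -nu p 1 := nu_add_two p 1
  have v0 : vtx p 0 = p.2 0 * nu p 0 + p.2 1 * nu p 1 := rfl
  have v1 : vtx p 1 = p.2 1 * nu p 1 + p.2 2 * nu p 2 := rfl
  have v2 : vtx p 2 = p.2 2 * nu p 2 + p.2 3 * nu p 3 := rfl
  have v3 : vtx p 3 = p.2 3 * nu p 3 + p.2 0 * nu p 0 := rfl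
  rw [n2] at v1 v2
  rw [n3] at v2 v3
  have w3 : (vtx p 3).re = p.2 0 * Real.cos p.1 + p.2 3 * Real.sin p.1 := by
    rw [v3, Complex.add_re, Complex.re_ofReal_mul, Complex.re_ofReal_mul, Complex.neg_re, nu_re_zero,
      G1_re_one]
    ring
  have w1 : (vtx p 1).re = -p.2 2 * Real.cos p.1 - p.2 1 * Real.sin p.1 := by
    rw [v1, Complex.add_re, Complex.re_ofReal_mul, Complex.re_ofReal_mul, Complex.neg_re, nu_re_zero,
      G1_re_one]
    ring
  have w0 : (vtx p 0).im = p.2 0 * Real.sin p.1 + p.2 1 * Real.cos p.1 := by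
    rw [v0, Complex.add_im, Complex.im_ofReal_mul, Complex.im_ofReal_mul, nu_im_zero, G1_im_one]
  have w2 : (vtx p 2).im = -p.2 2 * Real.sin p.1 - p.2 3 * Real.cos p.1 := by
    rw [v2, Complex.add_im, Complex.im_ofReal_mul, Complex.im_ofReal_mul, Complex.neg_im, Complex.neg_im,
      nu_im_zero, G1_im_one]
    ring
  obtain ⟨r3, r3'⟩ := abs_lt.1 (hv 3).1
  obtain ⟨r1, r1'⟩ := abs_lt.1 (hv 1).1
  obtain ⟨i0, i0'⟩ := abs_lt.1 (hv 0).2
  obtain ⟨i2, i2'⟩ := abs_lt.1 (hv 2).2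
  rw [w3] at r3 r3'
  rw [w1] at r1 r1'
  rw [w0] at i0 i0'
  rw [w2] at i2 i2'
  have m1 := mul_le_mul_of_nonneg_right a0 hc.le
  have m2 := mul_le_mul_of_nonneg_right a0 hs.le
  have m3 := mul_le_mul_of_nonneg_right a1 hc.le
  have m4 := mul_le_mul_of_nonneg_right a1 hs.le
  have m5 := mul_le_mul_of_nonneg_right a2 hc.le
  have m6 := mul_le_mul_of_nonneg_right a2 hs.le
  have m7 := mul_le_mul_of_nonneg_right a3 hc.le
  have m8 := mul_le_mul_of_nonneg_right a3 hs.le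
  rw [abs_lt, abs_lt, xr, xi]
  refine ⟨⟨?_, ?_⟩, ?_, ?_⟩ <;> linarith

/-- one coordinate: `2 β k + (d - d') γ` with `k` an integer -/
theorem G1_coord {β γ : ℝ} (h1 : 2 / 5 + 1 / 25 ≤ 2 * γ) (h2 : 2 / 5 + 1 / 25 ≤ 2 * β - 2 * γ) {d d' : ℤˣ} {m m' : ℤ}
    (hne : ¬ (d = d' ∧ m = m')) {u u' : ℝ} (hu : |((d : ℤ) : ℝ) * (u - 2 * β * m) - γ| < 1 / 50)
    (hu' : |((d' : ℤ) : ℝ) * (u' - 2 * β * m') - γ| < 1 / 50) : 2 / 5 ≤ |u - u'| := by
  obtain ⟨a1, a2⟩ := abs_lt.1 hu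
  obtain ⟨b1, b2⟩ := abs_lt.1 hu'
  have hβ : 0 < β := by linarith
  have key : ∀ k : ℤ, k ≤ -1 ∨ k = 0 ∨ 1 ≤ k := by
    intro k
    omega
  have hk : (m : ℝ) - m' = ((m - m' : ℤ) : ℝ) := by push_cast; ring
  have hcast1 : m - m' ≤ -1 → (m : ℝ) - m' ≤ -1 := by
    intro h
    rw [hk]
    exact_mod_cast h
  have hcast2 : 1 ≤ m - m' → (1 : ℝ) ≤ (m : ℝ) - m' := by
    intro h
    rw [hk]
    exact_mod_cast h
  have hcast3 : m - m' = 0 → (m : ℝ) - m' = 0 := by
    intro h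
    rw [hk, h]
    simp
  rw [le_abs]
  rcases Int.units_eq_one_or d with rfl | rfl <;> rcases Int.units_eq_one_or d' with rfl | rfl <;>
    simp only [Units.val_one, Units.val_neg, Int.cast_one, Int.cast_neg, one_mul, neg_mul] at a1 a2 b1 b2
  · rcases key (m - m') with h | h | h
    · right
      nlinarith [hcast1 h]
    · exact absurd ⟨rfl, by omega⟩ hne
    · left
      nlinarith [hcast2 h]
  · rcases key (m - m') with h | h | h
    · right
      nlinarith [hcast1 h]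
    · left
      have := hcast3 h
      have e : β * m = β * m' := by
        rw [show (m : ℝ) = m' by linarith]
      linarith
    · left
      nlinarith [hcast2 h]
  · rcases key (m - m') with h | h | h
    · right
      nlinarith [hcast1 h]
    · right
      have := hcast3 h
      have e : β * m = β * m' := by
        rw [show (m : ℝ) = m' by linarith]
      linarith
    · left
      nlinarith [hcast2 h]
  · rcases key (m - m') with h | h | h
    · right
      nlinarith [hcast1 h]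
    · exact absurd ⟨rfl, by omega⟩ hne
    · left
      nlinarith [hcast2 h]

theorem G1_tan {θ : ℝ} (hθ : |θ - Real.pi / 4| < 1 / 100) : 3 / 4 < bb θ := by
  obtain ⟨h1, h2⟩ := abs_lt.1 hθ
  have hpi := Real.pi_gt_d2
  have hpi' := Real.pi_lt_d2
  have h3 := Real.lt_tan (x := θ) (by linarith) (by linarith)
  unfold bb
  linarith

/-- [G1] different copies are at distance at least `2/5`. -/
theorem copies_dist {θ : ℝ} (hθ : |θ - Real.pi / 4| < 1 / 100) {p : Par} (hp : p ∈ Pi0)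
    {c c' : Cp} (hc : c ≠ c') {y y' : ℂ} (hy : y ∈ obs θ p c) (hy' : y' ∈ obs θ p c') :
    2 / 5 ≤ ‖y - y'‖ := by
  obtain ⟨r1, i1⟩ := box hp hy
  obtain ⟨r2, i2⟩ := box hp hy'
  have hb := G1_tan hθ
  obtain ⟨⟨d1, d2⟩, m1, m2⟩ := c
  obtain ⟨⟨d1', d2'⟩, m1', m2'⟩ := c'
  change |((d1 : ℤ) : ℝ) * (y.re - 2 * (m1 : ℝ)) - 1 / 4| < 1 / 50 at r1
  change |((d1' : ℤ) : ℝ) * (y'.re - 2 * (m1' : ℝ)) - 1 / 4| < 1 / 50 at r2
  change |((d2 : ℤ) : ℝ) * (y.im - 2 * bb θ * (m2 : ℝ)) - 1 / 2| < 1 / 50 at i1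
  change |((d2' : ℤ) : ℝ) * (y'.im - 2 * bb θ * (m2' : ℝ)) - 1 / 2| < 1 / 50 at i2
  by_cases h : d1 = d1' ∧ m1 = m1'
  · have h' : ¬ (d2 = d2' ∧ m2 = m2') := by
      rintro ⟨rfl, rfl⟩
      obtain ⟨rfl, rfl⟩ := h
      exact hc rfl
    have h3 := G1_coord (β := bb θ) (γ := 1 / 2) (by norm_num) (by linarith) h' i1 i2
    refine h3.trans ?_
    rw [← Complex.sub_im]
    exact Complex.abs_im_le_norm _
  · have h3 := G1_coord (β := 1) (γ := 1 / 4) (by norm_num) (by norm_num) h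
      (by rw [mul_one]; exact r1) (by rw [mul_one]; exact r2)
    refine h3.trans ?_
    rw [← Complex.sub_re]
    exact Complex.abs_re_le_norm _

end TMX
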