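import Pool.Agent.TMX.Basic
import Pool.Agent.TMX.G1

/-! # TMX, row C2: crossing the cylinder -/

set_option autoImplicit false

open Set Filter Topology

namespace TMX

namespace C2

theorem lim_aux {ℓ : ℝ} (hℓ : 0 < ℓ) {z : ℂ} (hz : ‖z‖ = 1) {e : ℕ → ℂ} {e' : ℂ}
    (he : Tendsto e atTop (𝓝 e')) :
    Tendsto (fun m : ℕ => ‖((m * ℓ : ℝ) : ℂ) * z + e m‖ / m) atTop (𝓝 ℓ) ∧
    Tendsto (fun m : ℕ => ((1 / ‖((m * ℓ : ℝ) : ℂ) * z + e m‖ : ℝ) : ℂ) *
      (((m * ℓ : ℝ) : ℂ) * z + e m)) atTop (𝓝 z) ∧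
    Tendsto (fun m : ℕ => ‖((m * ℓ : ℝ) : ℂ) * z + e m‖ - m * ℓ) atTop (𝓝 (dot z e')) := by
  have hinv : Tendsto (fun m : ℕ => (1 / (m : ℝ))) atTop (𝓝 0) := tendsto_one_div_atTop_nhds_zero_nat
  have hinvc : Tendsto (fun m : ℕ => ((1 / (m : ℝ) : ℝ) : ℂ)) atTop (𝓝 0) := by
    have := (Complex.continuous_ofReal.tendsto 0).comp hinv
    rw [Complex.ofReal_zero] at this
    exact this
  have h1 : Tendsto (fun m : ℕ => (ℓ : ℂ) * z + ((1 / (m : ℝ) : ℝ) : ℂ) * e m) atTop
      (𝓝 ((ℓ : ℂ) * z)) := by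
    have := (tendsto_const_nhds (x := (ℓ : ℂ) * z)).add (hinvc.mul he)
    simpa using this
  have hev : ∀ᶠ m : ℕ in atTop, (ℓ : ℂ) * z + ((1 / (m : ℝ) : ℝ) : ℂ) * e m =
      ((1 / (m : ℝ) : ℝ) : ℂ) * (((m * ℓ : ℝ) : ℂ) * z + e m) := by
    filter_upwards [eventually_gt_atTop 0] with m hm
    have hm' : (m : ℂ) ≠ 0 := by exact_mod_cast hm.ne'
    push_cast
    field_simp
  have h2 : Tendsto (fun m : ℕ => ((1 / (m : ℝ) : ℝ) : ℂ) * (((m * ℓ : ℝ) : ℂ) * z + e m)) atTop
      (𝓝 ((ℓ : ℂ) * z)) := h1.congr' hev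
  have hnn : ‖(ℓ : ℂ) * z‖ = ℓ := by
    rw [norm_mul, hz, Complex.norm_real, Real.norm_of_nonneg hℓ.le, mul_one]
  have h3 : Tendsto (fun m : ℕ => ‖((m * ℓ : ℝ) : ℂ) * z + e m‖ / m) atTop (𝓝 ℓ) := by
    have := h2.norm
    rw [hnn] at this
    refine this.congr fun m => ?_
    rw [norm_mul, Complex.norm_real, Real.norm_of_nonneg (by positivity)]
    ring
  refine ⟨h3, ?_, ?_⟩
  · have h4 : Tendsto (fun m : ℕ => ((1 / (‖((m * ℓ : ℝ) : ℂ) * z + e m‖ / m) : ℝ) : ℂ) *
        (((1 / (m : ℝ) : ℝ) : ℂ) * (((m * ℓ : ℝ) : ℂ) * z + e m))) atTop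
        (𝓝 (((1 / ℓ : ℝ) : ℂ) * ((ℓ : ℂ) * z))) := by
      refine Tendsto.mul ?_ h2
      exact (Complex.continuous_ofReal.tendsto _).comp (tendsto_const_nhds.div h3 hℓ.ne')
    have h5 : ((1 / ℓ : ℝ) : ℂ) * ((ℓ : ℂ) * z) = z := by
      have : (ℓ : ℂ) ≠ 0 := by exact_mod_cast hℓ.ne'
      push_cast; field_simp
    rw [h5] at h4
    refine h4.congr' ?_
    filter_upwards [eventually_gt_atTop 0] with m hm
    have hm' : (m : ℂ) ≠ 0 := by exact_mod_cast hm.ne'
    rw [← mul_assoc]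
    congr 1
    push_cast
    rw [one_div_div]
    field_simp
  · have h6 : Tendsto (fun m : ℕ => (2 * ℓ * dot z (e m) + ‖e m‖ ^ 2 * (1 / (m : ℝ))) /
        (‖((m * ℓ : ℝ) : ℂ) * z + e m‖ / m + ℓ)) atTop
        (𝓝 ((2 * ℓ * dot z e' + ‖e'‖ ^ 2 * 0) / (ℓ + ℓ))) := by
      refine Tendsto.div ?_ (h3.add_const ℓ) (by positivity)
      refine Tendsto.add ?_ ((he.norm.pow 2).mul hinv)
      refine Tendsto.const_mul _ ?_
      have hc : Continuous fun v : ℂ => dot z v :=
        continuous_dot.comp (by fun_prop : Continuous fun v : ℂ => (z, v))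
      exact (hc.tendsto e').comp he
    have h7 : (2 * ℓ * dot z e' + ‖e'‖ ^ 2 * 0) / (ℓ + ℓ) = dot z e' := by
      field_simp; ring
    rw [h7] at h6
    refine h6.congr' ?_
    filter_upwards [eventually_gt_atTop 0] with m hm
    have hm' : (0 : ℝ) < m := by exact_mod_cast hm
    set N := ‖((m * ℓ : ℝ) : ℂ) * z + e m‖ with hN
    have hN0 : 0 ≤ N := norm_nonneg _
    have hsq : N ^ 2 = (m * ℓ) ^ 2 + 2 * (m * ℓ) * dot z (e m) + ‖e m‖ ^ 2 := by
      rw [hN, ← dot_self, dot_add_left, dot_add_right, dot_add_right, dot_mul_left, dot_mul_left,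
        dot_mul_right, dot_mul_right, dot_self, dot_self, hz, dot_comm (e m) z]
      ring
    have hpos : 0 < N / m + ℓ := by positivity
    rw [div_eq_iff hpos.ne']
    field_simp
    nlinarith [hsq]

theorem bb_bounds {θ : ℝ} (hθ : |θ - Real.pi / 4| < 1 / 100) :
    0.775 < bb θ ∧ bb θ < 1.3 := by
  have h := abs_lt.mp hθ
  have hpi := Real.pi_gt_d2
  have hpi' := Real.pi_lt_d2
  have h1 : θ < bb θ := by
    unfold bb
    apply Real.lt_tan <;> linarith [h.1, h.2]
  have h2 : Real.pi / 2 - θ < Real.tan (Real.pi / 2 - θ) := by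
    apply Real.lt_tan <;> linarith [h.1, h.2]
  rw [Real.tan_pi_div_two_sub] at h2
  have h3 : (0.775 : ℝ) < (bb θ)⁻¹ := by
    have : bb θ = Real.tan θ := rfl
    rw [this]; linarith [h.1, h.2]
  have h4 : (0.775 : ℝ) < bb θ := by linarith [h.1]
  refine ⟨h4, ?_⟩
  by_contra hc
  push Not at hc
  have h5 : (bb θ)⁻¹ ≤ (1.3 : ℝ)⁻¹ := by
    apply inv_anti₀ (by norm_num) hc
  norm_num at h3 h5
  linarith

theorem cos_pos' {θ : ℝ} (hθ : |θ - Real.pi / 4| < 1 / 100) : 0 < Real.cos θ := by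
  have h := abs_lt.mp hθ
  have hpi := Real.pi_gt_d2
  apply Real.cos_pos_of_mem_Ioo
  constructor <;> linarith [h.1, h.2]

theorem sin_eq {θ : ℝ} (hθ : |θ - Real.pi / 4| < 1 / 100) : Real.sin θ = bb θ * Real.cos θ := by
  unfold bb
  rw [Real.tan_mul_cos (cos_pos' hθ).ne']

/-- Offsets. -/
theorem crs_z {θ : ℝ} (hθ : |θ - Real.pi / 4| < 1 / 100) (y : ℂ) :
    crs (zz θ) y = Real.cos θ * (y.im - bb θ * y.re) := by
  unfold crs
  rw [zz_re, zz_im, sin_eq hθ]; ring

theorem sgn_z {θ : ℝ} (hθ : |θ - Real.pi / 4| < 1 / 100) {p : Par} (hp : p ∈ Pi0) :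
    0 < dot (zz θ) (nu p 0) ∧ 0 < dot (zz θ) (nu p 1) ∧ 0 < dot (act dp (zz θ)) (nu p 1) ∧
      0 < dot (act dp (zz θ)) (nu p 2) ∧ dot (act dp (zz θ)) (nu p 3) < 0 := by
  have h := abs_lt.mp hθ
  have hpi := Real.pi_gt_d2
  have hpi' := Real.pi_lt_d2
  have hp1 := hp.1
  have hp2 := hp.2.1
  have e0 : dot (zz θ) (nu p 0) = Real.cos (θ - p.1) := by
    unfold dot; rw [zz_re, zz_im, nu_re_zero, nu_im_zero, Real.cos_sub]
  have e1 : dot (zz θ) (nu p 1) = Real.sin (θ - p.1) := by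
    have := dot_succ p (zz θ) 0
    rw [zero_add] at this
    rw [this]; unfold crs; rw [zz_re, zz_im, nu_re_zero, nu_im_zero, Real.sin_sub]; ring
  have ere : (act dp (zz θ)).re = -Real.cos θ := by simp [act, dp, zz_re]
  have eim : (act dp (zz θ)).im = Real.sin θ := by simp [act, dp, zz_im]
  have c0 : crs (act dp (zz θ)) (nu p 0) = -Real.sin (θ + p.1) := by
    unfold crs; rw [ere, eim, nu_re_zero, nu_im_zero, Real.sin_add]; ring
  have d0 : dot (act dp (zz θ)) (nu p 0) = -Real.cos (θ + p.1) := by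
    unfold dot; rw [ere, eim, nu_re_zero, nu_im_zero, Real.cos_add]; ring
  have e2 : dot (act dp (zz θ)) (nu p 1) = Real.sin (θ + p.1) := by
    have := dot_succ p (act dp (zz θ)) 0
    rw [zero_add] at this
    rw [this, c0]; ring
  have e3 : dot (act dp (zz θ)) (nu p 2) = Real.cos (θ + p.1) := by
    have := dot_add_two p (act dp (zz θ)) 0
    rw [zero_add] at this
    rw [this, d0]; ring
  have e4 : dot (act dp (zz θ)) (nu p 3) = -Real.sin (θ + p.1) := by
    have := dot_add_three p (act dp (zz θ)) 0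
    rw [zero_add] at this
    rw [this, c0]
  have s1 : 0 < Real.sin (θ + p.1) := by
    apply Real.sin_pos_of_pos_of_lt_pi <;> linarith [h.1, h.2]
  rw [e0, e1, e2, e3, e4]
  refine ⟨?_, ?_, s1, ?_, by linarith⟩
  · apply Real.cos_pos_of_mem_Ioo; constructor <;> linarith [h.1, h.2]
  · apply Real.sin_pos_of_pos_of_lt_pi <;> linarith [h.1, h.2]
  · apply Real.cos_pos_of_mem_Ioo; constructor <;> linarith [h.1, h.2]

/-- `crs w` on the hole is at most its value at `vtx j` if `w` points so. -/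
theorem crs_max {p : Par} {w : ℂ} {j : Fin 4} (h0 : 0 < dot w (nu p (j + 1)))
    (h1 : 0 < dot w (nu p j)) {x : ℂ} (hx : x ∈ Q p) :
    crs w x ≤ crs w (vtx p (j + 1)) := by
  have hb := basis_nu p (j + 1) x
  have e : crs w x = dot x (nu p (j + 1)) * crs w (nu p (j + 1)) +
      dot x (nu p (j + 1 + 1)) * crs w (nu p (j + 1 + 1)) := by
    conv_lhs => rw [hb]
    rw [crs_add_right, crs_mul_right, crs_mul_right]
  rw [e, crs_vtx, crs_nu_succ, crs_nu_succ]
  have a1 := mul_le_mul_of_nonneg_right (hx (j + 1)) h1.le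
  have a2 := mul_le_mul_of_nonneg_right (hx (j + 1 + 1)) h0.le
  linarith

theorem crs_act_dp (v w : ℂ) : crs v (act dp w) = -crs (act dp v) w := by
  simp [crs, act, dp]; ring

/-- The cylinder meets no copy. -/
theorem cyl {θ : ℝ} (hθ : |θ - Real.pi / 4| < 1 / 100) {p : Par} (hp : p ∈ Pi0) {c : Cp} {y : ℂ}
    (hy : y ∈ obs θ p c) :
    crs (zz θ) y ≤ crs (zz θ) (vtx p 1) ∨ crs (zz θ) (act dp (vtx p 2)) ≤ crs (zz θ) y := by
  obtain ⟨hs0, hs1, hs2, hs3, hs4⟩ := sgn_z hθ hp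
  obtain ⟨hb1, hb2⟩ := bb_bounds hθ
  have hc := cos_pos' hθ
  set q := frm θ c y with hq
  have hqQ : q ∈ Q p := hy
  have hq1 := box hp hqQ
  have hre := abs_lt.mp hq1.1
  have him := abs_lt.mp hq1.2
  have v1 := hp.2.2.2 1
  have v1r := abs_lt.mp v1.1
  have v1i := abs_lt.mp v1.2
  have v2 := hp.2.2.2 2
  have v2r := abs_lt.mp v2.1
  have v2i := abs_lt.mp v2.2
  have hm1 : crs (zz θ) q ≤ crs (zz θ) (vtx p 1) := crs_max (j := 0) hs1 hs0 hqQ
  have hm2 : crs (zz θ) (act dp (vtx p 2)) ≤ crs (zz θ) (act dp q) := by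
    rw [crs_act_dp, crs_act_dp]
    have := crs_max (j := 1) (w := act dp (zz θ)) hs3 hs2 hqQ
    exact neg_le_neg this
  have hyy : y = lat θ c.2 + act c.1 q := by
    rw [hq]; unfold frm; rw [act_self]; ring
  have e1 : (act dp (vtx p 2)).re = -(vtx p 2).re := by simp [act, dp]
  have e2 : (act dp (vtx p 2)).im = (vtx p 2).im := by simp [act, dp]
  have e3 : (act dp q).re = -q.re := by simp [act, dp]
  have e4 : (act dp q).im = q.im := by simp [act, dp]
  rw [crs_z hθ, crs_z hθ] at hm1 hm2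
  rw [crs_z hθ, crs_z hθ, crs_z hθ]
  rw [e1, e2] at hm2 ⊢
  rw [e3, e4] at hm2
  have hm1' := le_of_mul_le_mul_left hm1 hc
  have hm2' := le_of_mul_le_mul_left hm2 hc
  obtain ⟨⟨d1, d2⟩, ⟨m1, m2⟩⟩ := c
  have yre : y.re = 2 * m1 + ((d1 : ℤ) : ℝ) * q.re := by
    rw [hyy]; simp [lat, act]
  have yim : y.im = 2 * bb θ * m2 + ((d2 : ℤ) : ℝ) * q.im := by
    rw [hyy]; simp [lat, act]
  have hb0 : 0 < bb θ := by linarith
  have p1 := mul_lt_mul_of_pos_left (show (0.23 : ℝ) < q.re by linarith [hre.1]) hb0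
  have p2 := mul_lt_mul_of_pos_left (show q.re < (0.27 : ℝ) by linarith [hre.2]) hb0
  have p3 := mul_lt_mul_of_pos_left (show (0.23 : ℝ) < (vtx p 1).re by linarith [v1r.1]) hb0
  have p4 := mul_lt_mul_of_pos_left (show (vtx p 1).re < (0.27 : ℝ) by linarith [v1r.2]) hb0
  have p5 := mul_lt_mul_of_pos_left (show (0.23 : ℝ) < (vtx p 2).re by linarith [v2r.1]) hb0
  have p6 := mul_lt_mul_of_pos_left (show (vtx p 2).re < (0.27 : ℝ) by linarith [v2r.2]) hb0
  have q1 := him.1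
  have q2 := him.2
  have q3 := v1i.1
  have q4 := v1i.2
  have q5 := v2i.1
  have q6 := v2i.2
  clear hm1 hm2 hs0 hs1 hs2 hs3 hs4 hq1 hre him v1 v1r v1i v2 v2r v2i hyy e1 e2 e3 e4
  have goalred : (y.im - bb θ * y.re ≤ (vtx p 1).im - bb θ * (vtx p 1).re ∨
      (vtx p 2).im - bb θ * -(vtx p 2).re ≤ y.im - bb θ * y.re) := by
    rw [yre, yim]
    rcases le_or_gt m2 m1 with hk | hk
    · have hk1 : (m2 : ℝ) ≤ m1 := by exact_mod_cast hk
      have hk2 : bb θ * m2 ≤ bb θ * m1 := mul_le_mul_of_nonneg_left hk1 hb0.le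
      rcases Int.units_eq_one_or d1 with rfl | rfl <;> rcases Int.units_eq_one_or d2 with rfl | rfl
      · left; push_cast; linarith
      · left; push_cast; linarith
      · rcases eq_or_lt_of_le hk with h | h
        · right; subst h; push_cast; linarith
        · left
          have hk3 : (m2 : ℝ) + 1 ≤ m1 := by exact_mod_cast h
          have hk4 : bb θ * (m2 + 1) ≤ bb θ * m1 := mul_le_mul_of_nonneg_left hk3 hb0.le
          push_cast; linarith
      · left; push_cast; linarith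
    · have hk1 : (m1 : ℝ) + 1 ≤ m2 := by exact_mod_cast hk
      have hk2 : bb θ * (m1 + 1) ≤ bb θ * m2 := mul_le_mul_of_nonneg_left hk1 hb0.le
      right
      rcases Int.units_eq_one_or d1 with rfl | rfl <;> rcases Int.units_eq_one_or d2 with rfl | rfl
      · push_cast; linarith
      · push_cast; linarith
      · push_cast; linarith
      · push_cast; linarith
  rcases goalred with h | h
  · left; exact mul_le_mul_of_nonneg_left h hc.le
  · right; exact mul_le_mul_of_nonneg_left h hc.le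

/-- One leg across the cylinder. -/
theorem leg {θ : ℝ} (hθ : |θ - Real.pi / 4| < 1 / 100) {p : Par} (hp : p ∈ Pi0) {x Y w : ℂ}
    {k : ℤ × ℤ} {D : ℝ} (hD : 0 < D)
    (hw : (D : ℂ) * w = lat θ k + act dp Y - x) (hn : ‖w‖ = 1)
    (hx : dot x (nu p 1) = p.2 1) (hxj : ∀ j, j ≠ 1 → dot x (nu p j) < p.2 j)
    (hY : dot Y (nu p 3) = p.2 3) (hYj : ∀ j, j ≠ 3 → dot Y (nu p j) < p.2 j)
    (h1 : 0 < dot w (nu p 1)) (h3 : dot (act dp w) (nu p 3) < 0)
    (hmid : ∀ s : ℝ, 2 / 5 ≤ s → s ≤ D - 2 / 5 →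
      crs (zz θ) (vtx p 1) < crs (zz θ) (x + (s : ℂ) * w) ∧
        crs (zz θ) (x + (s : ℂ) * w) < crs (zz θ) (act dp (vtx p 2))) :
    Good θ p ((dp, k), 3) (x, w) ∧ fl θ p ((dp, k), 3) (x, w) = D ∧
      nx θ p ((dp, k), 3) (x, w) = (Y, refl p 3 (act dp w)) := by
  have hend : x + (D : ℂ) * w = lat θ k + act dp Y := by rw [hw]; ring
  have hfr : frm θ (dp, k) (x + (D : ℂ) * w) = Y := by
    rw [hend]; unfold frm; simp only [add_sub_cancel_left]; exact act_self dp Y
  have hfr' : frm θ (dp, k) x + (D : ℂ) * act dp w = Y := by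
    rw [← frm_ray θ (dp, k)]; exact hfr
  have hfl : fl θ p ((dp, k), 3) (x, w) = D := by
    unfold fl
    simp only
    rw [div_eq_iff h3.ne, ← hY, ← hfr', dot_add_left, dot_mul_left]; ring
  have hnx : nx θ p ((dp, k), 3) (x, w) = (Y, refl p 3 (act dp w)) := by
    unfold nx
    simp only [hfl, hfr]
  refine ⟨⟨h3, by rw [hfl]; exact hD, ?_, ?_⟩, hfl, hnx⟩
  · rw [hfl]
    intro s hs0 hs1 c' hc'
    change x + (s : ℂ) * w ∈ obs θ p c' at hc'
    have hxQ : x ∈ Q p := by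
      intro j
      by_cases hj : j = 1
      · subst hj; exact hx.le
      · exact (hxj j hj).le
    have hYQ : Y ∈ Q p := by
      intro j
      by_cases hj : j = 3
      · subst hj; exact hY.le
      · exact (hYj j hj).le
    rcases lt_or_ge s (2 / 5) with hs2 | hs2
    · by_cases hc : c' = (1, (0, 0))
      · subst hc
        have hq : x + (s : ℂ) * w ∈ Q p := by
          have : frm θ (1, (0, 0)) (x + (s : ℂ) * w) ∈ Q p := hc'
          rwa [frm_one] at this
        exact out_ray ⟨hxQ, 1, hx, h1⟩ hs0 hq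
      · have hx0 : x ∈ obs θ p (1, (0, 0)) := by
          change frm θ (1, (0, 0)) x ∈ Q p
          rw [frm_one]; exact hxQ
        have := copies_dist hθ hp hc hc' hx0
        rw [add_sub_cancel_left, norm_mul, hn, Complex.norm_real, Real.norm_of_nonneg hs0.le] at this
        linarith
    · rcases le_or_gt s (D - 2 / 5) with hs3 | hs3
      · have hm := hmid s hs2 hs3
        rcases cyl hθ hp hc' with h | h <;> linarith [hm.1, hm.2]
      · by_cases hc : c' = (dp, k)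
        · subst hc
          have hq : frm θ (dp, k) (x + (s : ℂ) * w) ∈ Q p := hc'
          have h4 : frm θ (dp, k) (x + (s : ℂ) * w) = Y + ((-(D - s) : ℝ) : ℂ) * act dp w := by
            rw [frm_ray, ← hfr']; push_cast; ring
          rw [h4] at hq
          have h5 := hq 3
          rw [dot_add_left, dot_mul_left, hY] at h5
          nlinarith
        · have hy0 : x + (D : ℂ) * w ∈ obs θ p (dp, k) := by
            change frm θ (dp, k) (x + (D : ℂ) * w) ∈ Q p
            rw [hfr]; exact hYQ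
          have := copies_dist hθ hp (Ne.symm hc) hy0 hc'
          have e : x + (D : ℂ) * w - (x + (s : ℂ) * w) = ((D - s : ℝ) : ℂ) * w := by
            push_cast; ring
          rw [e, norm_mul, hn, Complex.norm_real, Real.norm_of_nonneg (by linarith)] at this
          linarith
  · intro j hj
    rw [hnx]
    exact hYj j hj

/-- Points of the open side `j + 1`. -/
theorem open_side {p : Par} (hp : p ∈ Pi0) (j : Fin 4) {t : ℝ} (ht0 : 0 < t) (ht1 : t < 1) :
    dot (vtx p (j + 1) + (t : ℂ) * (vtx p j - vtx p (j + 1))) (nu p (j + 1)) = p.2 (j + 1) ∧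
    ∀ i, i ≠ j + 1 →
      dot (vtx p (j + 1) + (t : ℂ) * (vtx p j - vtx p (j + 1))) (nu p i) < p.2 i := by
  have e1 : j + 1 + 1 = j + 2 := by rw [add_assoc]; rfl
  have e3 : j + 1 + 3 = j := by rw [add_assoc]; exact add_zero j
  have e2 : j + 1 + 2 = j + 3 := by rw [add_assoc]; rfl
  have hs : 0 < p.2 j + p.2 (j + 2) := hp.2.2.1 j
  have hs' : 0 < p.2 (j + 1) + p.2 (j + 3) := by
    have := hp.2.2.1 (j + 1); rwa [e2] at this
  have a1 := dot_vtx_self p (j + 1)
  have a2 := dot_vtx_succ p (j + 1)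
  rw [e1] at a2
  have a3 := dot_vtx_three p (j + 1)
  rw [e3, e1] at a3
  have a4 := dot_vtx_two p (j + 1)
  rw [e2] at a4
  have b1 := dot_vtx_succ p j
  have b2 := dot_vtx_two p j
  have b3 := dot_vtx_self p j
  have b4 := dot_vtx_three p j
  refine ⟨?_, ?_⟩
  · rw [dot_add_left, dot_mul_left, dot_sub_left, a1, b1]; ring
  · intro i hi
    have hcases : ∀ j i : Fin 4, i ≠ j + 1 → i = j ∨ i = j + 2 ∨ i = j + 3 := by decide
    rcases hcases j i hi with rfl | rfl | rfl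
    · rw [dot_add_left, dot_mul_left, dot_sub_left, a3, b3]; nlinarith
    · rw [dot_add_left, dot_mul_left, dot_sub_left, a2, b2]; nlinarith
    · rw [dot_add_left, dot_mul_left, dot_sub_left, a4, b4]; linarith

end C2

open C2

/-- [C2] crossing the cylinder in `m` turns. -/
theorem crossing {θ : ℝ} (hθ : |θ - Real.pi / 4| < 1 / 100) {p : Par} (hp : p ∈ Pi0) :
    ∃ x w : ℕ → ℂ, ∃ κ : ℝ, Tendsto x atTop (𝓝 (vtx p 1)) ∧ Tendsto w atTop (𝓝 (zz θ)) ∧
      (∀ᶠ m : ℕ in atTop, ‖w m‖ = 1 ∧ dot (x m) (nu p 1) = p.2 1 ∧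
        (∀ j, j ≠ 1 → dot (x m) (nu p j) < p.2 j) ∧
        Good θ p ((dp, ((m : ℤ), (m : ℤ))), 3) (x m, w m)) ∧
      Tendsto (fun m : ℕ => fl θ p ((dp, ((m : ℤ), (m : ℤ))), 3) (x m, w m) - m * ell θ) atTop
        (𝓝 κ) ∧
      Tendsto (fun m : ℕ => nx θ p ((dp, ((m : ℤ), (m : ℤ))), 3) (x m, w m)) atTop
        (𝓝 (sepp θ p)) := by
  obtain ⟨hs0, hs1, hs2, hs3, hs4⟩ := sgn_z hθ hp
  have hcos := cos_pos' hθ
  obtain ⟨hb1, hb2⟩ := bb_bounds hθ
  have hell : 0 < ell θ := by unfold ell; positivity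
  -- the constants
  set A : ℝ := crs (zz θ) (vtx p 1) - crs (zz θ) (vtx p 0) with hA
  set B : ℝ := crs (zz θ) (act dp (vtx p 3)) - crs (zz θ) (act dp (vtx p 2)) with hB
  set G : ℝ := crs (zz θ) (act dp (vtx p 2)) - crs (zz θ) (vtx p 1) with hG
  have hA0 : 0 < A := by
    have h := crs_vtx_sub p (zz θ) 0
    rw [zero_add, zero_add] at h
    rw [hA, h]
    exact mul_pos (by have := hp.2.2.1 0; rwa [zero_add] at this) hs1
  have hB0 : 0 < B := by
    have h := crs_vtx_sub p (act dp (zz θ)) 2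
    have e : (2 : Fin 4) + 1 = 3 := rfl
    have e' : (2 : Fin 4) + 2 = 0 := rfl
    have h02 := hp.2.2.1 2
    rw [e, e'] at h
    rw [e'] at h02
    rw [hB, crs_act_dp, crs_act_dp]
    nlinarith
  have hG0 : 0 < G := by
    rw [hG, crs_z hθ, crs_z hθ]
    have e1 : (act dp (vtx p 2)).re = -(vtx p 2).re := by simp [act, dp]
    have e2 : (act dp (vtx p 2)).im = (vtx p 2).im := by simp [act, dp]
    rw [e1, e2, ← mul_sub]
    apply mul_pos hcos
    have v1 := hp.2.2.2 1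
    have v1r := abs_lt.mp v1.1
    have v1i := abs_lt.mp v1.2
    have v2 := hp.2.2.2 2
    have v2r := abs_lt.mp v2.1
    have v2i := abs_lt.mp v2.2
    have hb0 : 0 < bb θ := by linarith
    have p3 := mul_lt_mul_of_pos_left (show (0.23 : ℝ) < (vtx p 1).re by linarith [v1r.1]) hb0
    have p5 := mul_lt_mul_of_pos_left (show (0.23 : ℝ) < (vtx p 2).re by linarith [v2r.1]) hb0
    linarith [v1i.1, v1i.2, v2i.1, v2i.2]
  set ε : ℝ := min (1 / 2) (2 * G / (5 * (A + B) * (ell θ + 1))) with hε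
  have hε0 : 0 < ε := by rw [hε]; apply lt_min <;> positivity
  have hε1 : ε ≤ 1 / 2 := min_le_left _ _
  have hε2 : ε * (A + B) * (ell θ + 1) ≤ 2 / 5 * G := by
    have h : ε ≤ 2 * G / (5 * (A + B) * (ell θ + 1)) := min_le_right _ _
    rw [le_div_iff₀ (by positivity)] at h
    linarith
  -- the points
  set t : ℕ → ℝ := fun m => ε / m with ht
  set x : ℕ → ℂ := fun m => vtx p 1 + (t m : ℂ) * (vtx p 0 - vtx p 1) with hx
  set Y : ℕ → ℂ := fun m => vtx p 2 + (t m : ℂ) * (vtx p 3 - vtx p 2) with hY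
  set e : ℕ → ℂ := fun m => act dp (Y m) - x m with he
  set v : ℕ → ℂ := fun m => ((m * ell θ : ℝ) : ℂ) * zz θ + e m with hv
  set w : ℕ → ℂ := fun m => ((1 / ‖v m‖ : ℝ) : ℂ) * v m with hw
  have ht0 : Tendsto t atTop (𝓝 0) := by
    have := (tendsto_one_div_atTop_nhds_zero_nat (𝕜 := ℝ)).const_mul ε
    rw [mul_zero] at this
    refine this.congr fun m => ?_
    simp only [ht]; ring
  have htc : Tendsto (fun m => (t m : ℂ)) atTop (𝓝 0) := by
    have := (Complex.continuous_ofReal.tendsto 0).comp ht0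
    rw [Complex.ofReal_zero] at this
    exact this
  have hxl : Tendsto x atTop (𝓝 (vtx p 1)) := by
    have := (tendsto_const_nhds (x := vtx p 1)).add (htc.mul_const (vtx p 0 - vtx p 1))
    rwa [zero_mul, add_zero] at this
  have hYl : Tendsto Y atTop (𝓝 (vtx p 2)) := by
    have := (tendsto_const_nhds (x := vtx p 2)).add (htc.mul_const (vtx p 3 - vtx p 2))
    rwa [zero_mul, add_zero] at this
  have hel : Tendsto e atTop (𝓝 (act dp (vtx p 2) - vtx p 1)) :=
    (((continuous_act dp).tendsto _).comp hYl).sub hxl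
  obtain ⟨l1, l2, l3⟩ := lim_aux hell (zz_norm θ) hel
  have hwl : Tendsto w atTop (𝓝 (zz θ)) := l2
  have hlat : ∀ m : ℕ, lat θ ((m : ℤ), (m : ℤ)) = ((m * ell θ : ℝ) : ℂ) * zz θ := by
    intro m
    apply Complex.ext
    · rw [Complex.re_ofReal_mul, zz_re]; simp only [lat, ell]; push_cast; field_simp
    · rw [Complex.im_ofReal_mul, zz_im, sin_eq hθ]; simp only [lat, ell]; push_cast; field_simp
  -- the leg
  have key : ∀ᶠ m : ℕ in atTop, ‖w m‖ = 1 ∧ dot (x m) (nu p 1) = p.2 1 ∧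
      (∀ j, j ≠ 1 → dot (x m) (nu p j) < p.2 j) ∧
      Good θ p ((dp, ((m : ℤ), (m : ℤ))), 3) (x m, w m) ∧
      fl θ p ((dp, ((m : ℤ), (m : ℤ))), 3) (x m, w m) = ‖v m‖ ∧
      nx θ p ((dp, ((m : ℤ), (m : ℤ))), 3) (x m, w m) = (Y m, refl p 3 (act dp (w m))) := by
    have c1 : ∀ᶠ m : ℕ in atTop, ‖v m‖ / m < ell θ + 1 :=
      l1.eventually (gt_mem_nhds (by linarith))
    have c1' : ∀ᶠ m : ℕ in atTop, ell θ / 2 < ‖v m‖ / m :=
      l1.eventually (lt_mem_nhds (by linarith))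
    have c2 : ∀ᶠ m : ℕ in atTop, 0 < dot (w m) (nu p 1) := by
      have hc : Continuous fun u : ℂ => dot u (nu p 1) :=
        continuous_dot.comp (by fun_prop : Continuous fun u : ℂ => (u, nu p 1))
      exact ((hc.tendsto _).comp hwl).eventually (lt_mem_nhds hs1)
    have c3 : ∀ᶠ m : ℕ in atTop, dot (act dp (w m)) (nu p 3) < 0 := by
      have hc : Continuous fun u : ℂ => dot (act dp u) (nu p 3) :=
        continuous_dot.comp (((continuous_act dp).prodMk continuous_const))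
      exact ((hc.tendsto _).comp hwl).eventually (gt_mem_nhds hs4)
    have c4 : ∀ᶠ m : ℕ in atTop, t m < 1 := ht0.eventually (gt_mem_nhds (by norm_num))
    filter_upwards [c1, c1', c2, c3, c4, eventually_gt_atTop 0] with m m1 m1' m2 m3 m4 m5
    have hm : (0 : ℝ) < m := by exact_mod_cast m5
    have htm : 0 < t m := div_pos hε0 hm
    have hD : 0 < ‖v m‖ := by
      have : 0 < ‖v m‖ / m := by linarith
      by_contra hcon
      have h0 : ‖v m‖ = 0 := le_antisymm (not_lt.mp hcon) (norm_nonneg _)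
      rw [h0] at this; simp at this
    have hn : ‖w m‖ = 1 := by
      simp only [hw]
      rw [norm_mul, Complex.norm_real, Real.norm_of_nonneg (by positivity)]
      field_simp
    have hDw : (‖v m‖ : ℂ) * w m = lat θ ((m : ℤ), (m : ℤ)) + act dp (Y m) - x m := by
      have h0 : (‖v m‖ : ℂ) ≠ 0 := by exact_mod_cast hD.ne'
      have h1 : (‖v m‖ : ℂ) * w m = v m := by
        simp only [hw]; push_cast; field_simp
      rw [h1, hlat]
      simp only [hv, he]; ring
    have sx := open_side hp 0 htm m4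
    have e01 : (0 : Fin 4) + 1 = 1 := rfl
    rw [e01] at sx
    -- the other end
    have tY : Y m = vtx p 3 + ((1 - t m : ℝ) : ℂ) * (vtx p 2 - vtx p 3) := by
      simp only [hY]; push_cast; ring
    have sY := open_side hp 2 (t := 1 - t m) (by linarith) (by linarith)
    have e23 : (2 : Fin 4) + 1 = 3 := rfl
    rw [e23, ← tY] at sY
    have hcx : crs (zz θ) (x m) = crs (zz θ) (vtx p 1) - t m * A := by
      simp only [hx]; rw [crs_add_right, crs_mul_right, crs_sub_right, hA]; ring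
    have hcY : crs (zz θ) (act dp (Y m)) = crs (zz θ) (act dp (vtx p 2)) + t m * B := by
      simp only [hY]
      rw [act_add, act_mul, act_sub, crs_add_right, crs_mul_right, crs_sub_right, hB]
    have hcl : crs (zz θ) (lat θ ((m : ℤ), (m : ℤ))) = 0 := by
      rw [hlat, crs_mul_right, crs_self, mul_zero]
    have hDr : ‖v m‖ * crs (zz θ) (w m) = G + t m * (A + B) := by
      rw [← crs_mul_right, hDw, crs_sub_right, crs_add_right, hcl, hcx, hcY, hG]; ring
    have hcond : t m * (A + B) * ‖v m‖ < 2 / 5 * G := by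
      have h1 : ‖v m‖ < (ell θ + 1) * m := (div_lt_iff₀ hm).mp m1
      have h2 : t m * m = ε := by simp only [ht]; field_simp
      have h3 : t m * (A + B) * ‖v m‖ < t m * (A + B) * ((ell θ + 1) * m) :=
        mul_lt_mul_of_pos_left h1 (by positivity)
      have h4 : t m * (A + B) * ((ell θ + 1) * m) = ε * (A + B) * (ell θ + 1) := by
        rw [← h2]; ring
      linarith
    have hr0 : 0 < crs (zz θ) (w m) := by
      have h1 : 0 < ‖v m‖ * crs (zz θ) (w m) := by rw [hDr]; positivity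
      exact (pos_iff_pos_of_mul_pos h1).mp hD
    have hrG : t m * (A + B) < 2 / 5 * crs (zz θ) (w m) := by
      have h1 : G ≤ ‖v m‖ * crs (zz θ) (w m) := by
        rw [hDr]
        have := mul_pos htm (add_pos hA0 hB0)
        linarith
      have h2 : ‖v m‖ * (t m * (A + B)) < ‖v m‖ * (2 / 5 * crs (zz θ) (w m)) :=
        calc ‖v m‖ * (t m * (A + B)) = t m * (A + B) * ‖v m‖ := by ring
          _ < 2 / 5 * G := hcond
          _ ≤ 2 / 5 * (‖v m‖ * crs (zz θ) (w m)) := by linarith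
          _ = ‖v m‖ * (2 / 5 * crs (zz θ) (w m)) := by ring
      exact lt_of_mul_lt_mul_left h2 hD.le
    have hmid : ∀ s : ℝ, 2 / 5 ≤ s → s ≤ ‖v m‖ - 2 / 5 →
        crs (zz θ) (vtx p 1) < crs (zz θ) (x m + (s : ℂ) * w m) ∧
          crs (zz θ) (x m + (s : ℂ) * w m) < crs (zz θ) (act dp (vtx p 2)) := by
      intro s hsa hsb
      rw [crs_add_right, crs_mul_right, hcx]
      have k1 : 2 / 5 * crs (zz θ) (w m) ≤ s * crs (zz θ) (w m) :=
        mul_le_mul_of_nonneg_right hsa hr0.le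
      have k2 : s * crs (zz θ) (w m) ≤ (‖v m‖ - 2 / 5) * crs (zz θ) (w m) :=
        mul_le_mul_of_nonneg_right hsb hr0.le
      have k3 : t m * (A + B) = t m * A + t m * B := by ring
      have k4 : 0 < t m * A := mul_pos htm hA0
      have k5 : 0 < t m * B := mul_pos htm hB0
      constructor
      · linarith
      · have k6 : (‖v m‖ - 2 / 5) * crs (zz θ) (w m) =
            G + t m * (A + B) - 2 / 5 * crs (zz θ) (w m) := by
          rw [← hDr]; ring
        linarith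
    obtain ⟨r1, r2, r3⟩ := leg hθ hp hD hDw hn sx.1 sx.2 sY.1 sY.2 m2 m3 hmid
    exact ⟨hn, sx.1, sx.2, r1, r2, r3⟩
  refine ⟨x, w, dot (zz θ) (act dp (vtx p 2) - vtx p 1), hxl, hwl, ?_, ?_, ?_⟩
  · filter_upwards [key] with m hm
    exact ⟨hm.1, hm.2.1, hm.2.2.1, hm.2.2.2.1⟩
  · refine l3.congr' ?_
    filter_upwards [key] with m hm
    rw [hm.2.2.2.2.1]
  · have h1 : Tendsto (fun m => (Y m, refl p 3 (act dp (w m)))) atTop (𝓝 (sepp θ p)) := by
      refine hYl.prodMk_nhds ?_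
      have hc : Continuous fun u : ℂ => refl p 3 (act dp u) := by
        unfold refl
        have h2 : Continuous fun u : ℂ => dot (act dp u) (nu p 3) :=
          continuous_dot.comp (((continuous_act dp).prodMk continuous_const))
        have h3 := continuous_act dp
        fun_prop
      exact (hc.tendsto _).comp hwl
    refine h1.congr' ?_
    filter_upwards [key] with m hm
    rw [hm.2.2.2.2.2]

end TMX
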