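import Pool.Agent.TMX.Basic
import Pool.Agent.TMX.G1

/-! # TMX: row G2 -/

set_option autoImplicit false

open Set Filter Topology

namespace TMX

/-- [G2] the next state is outgoing, in the open side `a.2`. -/
theorem nx_out {θ : ℝ} {p : Par} (hp : p ∈ Pi0) {a : Lt} {z : ℂ × ℂ} (h : Good θ p a z) :
    Out p (nx θ p a z).1 (nx θ p a z).2 ∧ dot (nx θ p a z).1 (nu p a.2) = p.2 a.2 ∧
      0 < dot (nx θ p a z).2 (nu p a.2) ∧ ‖(nx θ p a z).2‖ = ‖z.2‖ := by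
  obtain ⟨h1, h2, h3, h4⟩ := h
  have e1 : dot (nx θ p a z).1 (nu p a.2) = p.2 a.2 := dot_land (ne_of_lt h1)
  have e2 : 0 < dot (nx θ p a z).2 (nu p a.2) := by
    show 0 < dot (refl p a.2 (act a.1.1 z.2)) (nu p a.2)
    rw [dot_refl_nu]
    linarith
  have e3 : (nx θ p a z).1 ∈ Q p := by
    intro j
    by_cases hj : j = a.2
    · rw [hj, e1]
    · exact (h4 j hj).le
  refine ⟨⟨e3, a.2, e1, e2⟩, e1, e2, ?_⟩
  show ‖refl p a.2 (act a.1.1 z.2)‖ = ‖z.2‖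
  rw [norm_refl, norm_act]

/-- [G2] the first touched copy is unique. -/
theorem touch_unique {θ : ℝ} (hθ : |θ - Real.pi / 4| < 1 / 100) {p : Par} (hp : p ∈ Pi0)
    {x w : ℂ} {t t' : ℝ} (ht : 0 < t) (ht' : 0 < t') (hf : FreeSeg θ p x w t)
    (hf' : FreeSeg θ p x w t') {c c' : Cp} (hc : x + t * w ∈ obs θ p c)
    (hc' : x + t' * w ∈ obs θ p c') : t = t' ∧ c = c' := by
  have htt : t = t' := by
    rcases lt_trichotomy t t' with h | h | h
    · exact absurd hc (hf' t ht h c)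
    · exact h
    · exact absurd hc' (hf t' ht' h c')
  refine ⟨htt, ?_⟩
  by_contra hcc
  subst htt
  have := copies_dist hθ hp hcc hc hc'
  rw [sub_self, norm_zero] at this
  norm_num at this

/-- the landing point is in the copy. -/
theorem G2_mem {θ : ℝ} {p : Par} {a : Lt} {z : ℂ × ℂ} (h : Good θ p a z) :
    z.1 + (fl θ p a z : ℂ) * z.2 ∈ obs θ p a.1 := by
  obtain ⟨h1, h2, h3, h4⟩ := h
  have e1 : dot (nx θ p a z).1 (nu p a.2) = p.2 a.2 := dot_land (ne_of_lt h1)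
  intro j
  by_cases hj : j = a.2
  · rw [hj]
    exact le_of_eq e1
  · exact (h4 j hj).le

/-- [G2] at most one letter is good. -/
theorem good_unique {θ : ℝ} (hθ : |θ - Real.pi / 4| < 1 / 100) {p : Par} (hp : p ∈ Pi0)
    {a a' : Lt} {z : ℂ × ℂ} (h : Good θ p a z) (h' : Good θ p a' z) : a = a' := by
  obtain ⟨ht, hc⟩ := touch_unique hθ hp h.2.1 h'.2.1 h.2.2.1 h'.2.2.1 (G2_mem h) (G2_mem h')
  refine Prod.ext hc ?_
  by_contra hne
  have e1 : dot (nx θ p a z).1 (nu p a.2) = p.2 a.2 := dot_land (ne_of_lt h.1)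
  have e2 : dot (nx θ p a' z).1 (nu p a.2) < p.2 a.2 := h'.2.2.2 a.2 hne
  have e3 : (nx θ p a z).1 = (nx θ p a' z).1 := by
    show frm θ a.1 (z.1 + (fl θ p a z : ℂ) * z.2) = frm θ a'.1 (z.1 + (fl θ p a' z : ℂ) * z.2)
    rw [ht, hc]
  rw [e3] at e1
  linarith

end TMX
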