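import Pool.Agent.TMX.Basic
import Pool.Agent.TMX.G1

/-! # TMX: row G3 -/

set_option autoImplicit false

open Set Filter Topology

namespace TMX

private theorem G3_cont_nu (j : Fin 4) : Continuous fun p : Par => nu p j := by
  unfold nu; fun_prop

private theorem G3_cont_supp (j : Fin 4) : Continuous fun p : Par => p.2 j := by
  fun_prop

private theorem G3_open : IsOpen Pi0 := by
  have hv : ∀ j : Fin 4, Continuous fun p : Par => vtx p j := by
    intro j
    unfold vtx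
    have h1 := G3_cont_nu j
    have h2 := G3_cont_nu (j + 1)
    have h3 := G3_cont_supp j
    have h4 := G3_cont_supp (j + 1)
    fun_prop
  have e : Pi0 = {p : Par | 1 / 10 < p.1} ∩ ({p : Par | p.1 < 3 / 10} ∩
      ((⋂ j, {p : Par | 0 < p.2 j + p.2 (j + 2)}) ∩
      ⋂ j, ({p : Par | |(vtx p j).re - 1 / 4| < 1 / 50} ∩
        {p : Par | |(vtx p j).im - 1 / 2| < 1 / 50}))) := by
    ext p
    simp only [Pi0, Set.mem_inter_iff, Set.mem_iInter, Set.mem_ofPred_eq]
  rw [e]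
  refine (isOpen_lt continuous_const continuous_fst).inter
    ((isOpen_lt continuous_fst continuous_const).inter
      ((isOpen_iInter_of_finite fun j => isOpen_lt continuous_const (by fun_prop)).inter
        (isOpen_iInter_of_finite fun j => ?_)))
  have h1 : Continuous fun p : Par => (vtx p j).re := Complex.continuous_re.comp (hv j)
  have h2 : Continuous fun p : Par => (vtx p j).im := Complex.continuous_im.comp (hv j)
  exact (isOpen_lt (by fun_prop) continuous_const).inter (isOpen_lt (by fun_prop) continuous_const)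

/-- membership in a copy is a closed condition -/
private theorem G3_closed (θ : ℝ) (c : Cp) : IsClosed {u : Par × ℂ | u.2 ∈ obs θ u.1 c} := by
  have e : {u : Par × ℂ | u.2 ∈ obs θ u.1 c} =
      ⋂ j, {u : Par × ℂ | dot (frm θ c u.2) (nu u.1 j) ≤ u.1.2 j} := by
    ext u
    simp only [obs, Q, Set.mem_iInter, Set.mem_ofPred_eq]
  rw [e]
  refine isClosed_iInter fun j => isClosed_le ?_ ?_
  · exact continuous_dot.comp (((continuous_frm θ c).comp continuous_snd).prodMk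
      ((G3_cont_nu j).comp continuous_fst))
  · exact (G3_cont_supp j).comp continuous_fst

/-- finitely many copies meet a ball -/
private theorem G3_finite {θ : ℝ} (hθ : |θ - Real.pi / 4| < 1 / 100) (R : ℝ) :
    {c : Cp | ∃ p ∈ Pi0, ∃ y ∈ obs θ p c, ‖y‖ ≤ R}.Finite := by
  have hb : 0 < bb θ := by
    unfold bb
    have h3 := Real.pi_gt_three
    rw [abs_lt] at hθ
    exact Real.tan_pos_of_pos_of_lt_pi_div_two (by linarith) (by linarith)
  obtain ⟨N, hN⟩ := exists_nat_ge (max (R + 1) ((R + 1) / bb θ))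
  have hN1 : R + 1 ≤ N := (le_max_left _ _).trans hN
  have hN2 : R + 1 ≤ N * bb θ := by
    have := (le_max_right _ _).trans hN
    rwa [div_le_iff₀ hb] at this
  refine ((Set.finite_univ (α := Sg)).prod ((Set.finite_Icc (-(N : ℤ)) N).prod
    (Set.finite_Icc (-(N : ℤ)) N))).subset ?_
  rintro ⟨d, m⟩ ⟨p, hp, y, hy, hyR⟩
  have hbox := box hp (show frm θ (d, m) y ∈ Q p from hy)
  have hre : (frm θ (d, m) y).re = ((d.1 : ℤ) : ℝ) * (y.re - 2 * m.1) := by
    simp [frm, act, lat]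
  have him : (frm θ (d, m) y).im = ((d.2 : ℤ) : ℝ) * (y.im - 2 * bb θ * m.2) := by
    simp [frm, act, lat]
  have hd1 : |((d.1 : ℤ) : ℝ)| = 1 := by
    rcases (sg_cases d).1 with h | h <;> simp [h]
  have hd2 : |((d.2 : ℤ) : ℝ)| = 1 := by
    rcases (sg_cases d).2 with h | h <;> simp [h]
  have h1 : |y.re - 2 * m.1| < 1 := by
    have h := hbox.1
    rw [abs_lt] at h
    have h2 : |(frm θ (d, m) y).re| < 1 := by rw [abs_lt]; constructor <;> linarith
    rwa [hre, abs_mul, hd1, one_mul] at h2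
  have h2 : |y.im - 2 * bb θ * m.2| < 1 := by
    have h := hbox.2
    rw [abs_lt] at h
    have h2 : |(frm θ (d, m) y).im| < 1 := by rw [abs_lt]; constructor <;> linarith
    rwa [him, abs_mul, hd2, one_mul] at h2
  have h3 := (Complex.abs_re_le_norm y).trans hyR
  have h4 := (Complex.abs_im_le_norm y).trans hyR
  rw [abs_lt] at h1 h2
  rw [abs_le] at h3 h4
  have hN0 : (0 : ℝ) ≤ N := Nat.cast_nonneg N
  refine ⟨Set.mem_univ _, ⟨?_, ?_⟩, ?_, ?_⟩
  · have : (-(N : ℝ)) ≤ m.1 := by linarith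
    exact_mod_cast this
  · have : (m.1 : ℝ) ≤ N := by linarith
    exact_mod_cast this
  · have : (-(N : ℝ)) ≤ m.2 := by
      by_contra hc
      push Not at hc
      have := mul_lt_mul_of_pos_right hc hb
      linarith [mul_nonneg hN0 hb.le]
    exact_mod_cast this
  · have : (m.2 : ℝ) ≤ N := by
      by_contra hc
      push Not at hc
      have := mul_lt_mul_of_pos_right hc hb
      linarith [mul_nonneg hN0 hb.le]
    exact_mod_cast this

/-- Segments which miss the copies of a set `B` are stable. -/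
private theorem G3_tube {θ : ℝ} (hθ : |θ - Real.pi / 4| < 1 / 100) {X : Type} [TopologicalSpace X]
    (π : X → Par) (x w : X → ℂ) (T : X → ℝ) {x₀ : X} (hπ : ContinuousAt π x₀)
    (hx : ContinuousAt x x₀) (hw : ContinuousAt w x₀) (hT : ContinuousAt T x₀)
    (hp : π x₀ ∈ Pi0) (B : Set Cp)
    (hB : ∀ c ∈ B, ∀ r : ℝ, 0 ≤ r → r ≤ 1 →
      x x₀ + ((r * T x₀ : ℝ) : ℂ) * w x₀ ∉ obs θ (π x₀) c) :
    ∀ᶠ u in 𝓝 x₀, ∀ c ∈ B, ∀ r : ℝ, 0 ≤ r → r ≤ 1 →
      x u + ((r * T u : ℝ) : ℂ) * w u ∉ obs θ (π u) c := by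
  have hcont : ∀ r₀ : ℝ, ContinuousAt (fun v : X × ℝ =>
      ((π v.1, x v.1 + ((v.2 * T v.1 : ℝ) : ℂ) * w v.1) : Par × ℂ)) (x₀, r₀) := by
    intro r₀
    have h1 : ContinuousAt (fun v : X × ℝ => π v.1) (x₀, r₀) := ContinuousAt.fst' hπ
    have h2 : ContinuousAt (fun v : X × ℝ => x v.1) (x₀, r₀) := ContinuousAt.fst' hx
    have h3 : ContinuousAt (fun v : X × ℝ => w v.1) (x₀, r₀) := ContinuousAt.fst' hw
    have h4 : ContinuousAt (fun v : X × ℝ => T v.1) (x₀, r₀) := ContinuousAt.fst' hT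
    have h5 : ContinuousAt (fun v : X × ℝ => ((v.2 * T v.1 : ℝ) : ℂ)) (x₀, r₀) :=
      Complex.continuous_ofReal.continuousAt.comp (continuousAt_snd.mul h4)
    exact h1.prodMk (h2.add (h5.mul h3))
  -- a bound
  have hbd : ∀ᶠ u in 𝓝 x₀, ∀ r ∈ Icc (0 : ℝ) 1, ‖x u + ((r * T u : ℝ) : ℂ) * w u‖ <
      ‖x x₀‖ + |T x₀| * ‖w x₀‖ + 1 := by
    refine isCompact_Icc.eventually_forall_of_forall_eventually fun r₀ hr₀ => ?_
    have h1 : ContinuousAt (fun v : X × ℝ => ‖x v.1 + ((v.2 * T v.1 : ℝ) : ℂ) * w v.1‖)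
        (x₀, r₀) := (continuousAt_snd.comp (hcont r₀)).norm
    refine h1.eventually_lt continuousAt_const ?_
    have h2 := norm_add_le (x x₀) (((r₀ * T x₀ : ℝ) : ℂ) * w x₀)
    have h3 : ‖((r₀ * T x₀ : ℝ) : ℂ) * w x₀‖ ≤ |T x₀| * ‖w x₀‖ := by
      rw [norm_mul, Complex.norm_real, Real.norm_eq_abs, abs_mul, abs_of_nonneg hr₀.1]
      exact mul_le_mul_of_nonneg_right
        (mul_le_of_le_one_left (abs_nonneg _) hr₀.2) (norm_nonneg _)
    show ‖x x₀ + ((r₀ * T x₀ : ℝ) : ℂ) * w x₀‖ < _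
    linarith
  have hfin := G3_finite hθ (‖x x₀‖ + |T x₀| * ‖w x₀‖ + 1)
  have hopen : ∀ᶠ u in 𝓝 x₀, π u ∈ Pi0 := hπ.eventually (G3_open.mem_nhds hp)
  have hone : ∀ c ∈ B, ∀ᶠ u in 𝓝 x₀, ∀ r ∈ Icc (0 : ℝ) 1,
      x u + ((r * T u : ℝ) : ℂ) * w u ∉ obs θ (π u) c := by
    intro c hc
    refine isCompact_Icc.eventually_forall_of_forall_eventually fun r₀ hr₀ => ?_
    have h1 := (hcont r₀).eventually ((G3_closed θ c).isOpen_compl.mem_nhds
      (show (π x₀, x x₀ + ((r₀ * T x₀ : ℝ) : ℂ) * w x₀) ∈ _ from hB c hc r₀ hr₀.1 hr₀.2))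
    exact h1
  have hall : ∀ᶠ u in 𝓝 x₀, ∀ c ∈ {c : Cp | ∃ p ∈ Pi0, ∃ y ∈ obs θ p c,
      ‖y‖ ≤ ‖x x₀‖ + |T x₀| * ‖w x₀‖ + 1}, c ∈ B → ∀ r ∈ Icc (0 : ℝ) 1,
      x u + ((r * T u : ℝ) : ℂ) * w u ∉ obs θ (π u) c := by
    rw [Filter.eventually_all_finite hfin]
    intro c _
    by_cases hc : c ∈ B
    · filter_upwards [hone c hc] with u hu _ using hu
    · exact Filter.Eventually.of_forall fun u h => absurd h hc
  filter_upwards [hbd, hopen, hall] with u h1 h2 h3 c hc r hr0 hr1 hmem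
  exact h3 c ⟨π u, h2, _, hmem, (h1 r ⟨hr0, hr1⟩).le⟩ hc r ⟨hr0, hr1⟩ hmem

/-- [G3] stability of one leg. -/
theorem good_open {θ : ℝ} (hθ : |θ - Real.pi / 4| < 1 / 100) {p : Par} (hp : p ∈ Pi0)
    {a : Lt} {z : ℂ × ℂ} (hs : Out p z.1 z.2 ∨ Fre θ p z.1) (h : Good θ p a z) :
    (∀ᶠ q : Par × (ℂ × ℂ) in 𝓝 (p, z), (Out q.1 q.2.1 q.2.2 ∨ Fre θ p z.1) → Good θ q.1 a q.2) ∧
    ContinuousAt (fun q : Par × (ℂ × ℂ) => fl θ q.1 a q.2) (p, z) ∧
    ContinuousAt (fun q : Par × (ℂ × ℂ) => nx θ q.1 a q.2) (p, z) := by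
  obtain ⟨hg1, hg2, hg3, hg4⟩ := h
  have hfst : Continuous fun q : Par × (ℂ × ℂ) => q.1 := continuous_fst
  have hx : Continuous fun q : Par × (ℂ × ℂ) => q.2.1 := continuous_fst.comp continuous_snd
  have hw : Continuous fun q : Par × (ℂ × ℂ) => q.2.2 := continuous_snd.comp continuous_snd
  have hnu : ∀ j, Continuous fun q : Par × (ℂ × ℂ) => nu q.1 j := fun j =>
    (G3_cont_nu j).comp continuous_fst
  have hsu : ∀ j, Continuous fun q : Par × (ℂ × ℂ) => q.1.2 j := fun j =>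
    (G3_cont_supp j).comp continuous_fst
  have hden : Continuous fun q : Par × (ℂ × ℂ) => dot (act a.1.1 q.2.2) (nu q.1 a.2) :=
    continuous_dot.comp (((continuous_act a.1.1).comp hw).prodMk (hnu a.2))
  have hnum : Continuous fun q : Par × (ℂ × ℂ) =>
      q.1.2 a.2 - dot (frm θ a.1 q.2.1) (nu q.1 a.2) :=
    (hsu a.2).sub (continuous_dot.comp (((continuous_frm θ a.1).comp hx).prodMk (hnu a.2)))
  have hfl : ContinuousAt (fun q : Par × (ℂ × ℂ) => fl θ q.1 a q.2) (p, z) :=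
    hnum.continuousAt.div hden.continuousAt (ne_of_lt hg1)
  have hland : ContinuousAt (fun q : Par × (ℂ × ℂ) =>
      frm θ a.1 (q.2.1 + (fl θ q.1 a q.2 : ℂ) * q.2.2)) (p, z) :=
    (continuous_frm θ a.1).continuousAt.comp
      (hx.continuousAt.add ((Complex.continuous_ofReal.continuousAt.comp hfl).mul
        hw.continuousAt))
  have hrefl : Continuous fun q : Par × (ℂ × ℂ) => refl q.1 a.2 (act a.1.1 q.2.2) := by
    unfold refl
    exact ((continuous_act a.1.1).comp hw).sub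
      ((Complex.continuous_ofReal.comp (continuous_const.mul hden)).mul (hnu a.2))
  have hnx : ContinuousAt (fun q : Par × (ℂ × ℂ) => nx θ q.1 a q.2) (p, z) :=
    hland.prodMk hrefl.continuousAt
  refine ⟨?_, hfl, hnx⟩
  -- the landing point
  have hmem : z.1 + (fl θ p a z : ℂ) * z.2 ∈ obs θ p a.1 := by
    have e1 : dot (nx θ p a z).1 (nu p a.2) = p.2 a.2 := dot_land (ne_of_lt hg1)
    intro j
    by_cases hj : j = a.2
    · rw [hj]
      exact le_of_eq e1
    · exact (hg4 j hj).le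
  have htube := G3_tube hθ (fun q : Par × (ℂ × ℂ) => q.1) (fun q => q.2.1) (fun q => q.2.2)
    (fun q => fl θ q.1 a q.2) (x₀ := (p, z)) hfst.continuousAt hx.continuousAt hw.continuousAt
    hfl hp {c | c ≠ a.1 ∧ (c ≠ (1, (0, 0)) ∨ Fre θ p z.1)} (by
      rintro c ⟨hc1, hc2⟩ r hr0 hr1 hmem'
      change z.1 + ((r * fl θ p a z : ℝ) : ℂ) * z.2 ∈ obs θ p c at hmem'
      rcases eq_or_lt_of_le hr0 with hr0 | hr0
      · rw [← hr0, zero_mul, Complex.ofReal_zero, zero_mul, add_zero] at hmem'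
        rcases hc2 with hc2 | hc2
        · rcases hs with hs | hs
          · have h1 : z.1 ∈ obs θ p (1, (0, 0)) := by
              show frm θ (1, (0, 0)) z.1 ∈ Q p
              rw [frm_one]
              exact hs.1
            have := copies_dist hθ hp hc2 hmem' h1
            rw [sub_self, norm_zero] at this
            norm_num at this
          · exact hs c hmem'
        · exact hc2 c hmem'
      · rcases eq_or_lt_of_le hr1 with hr1 | hr1
        · rw [hr1, one_mul] at hmem'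
          have := copies_dist hθ hp hc1 hmem' hmem
          rw [sub_self, norm_zero] at this
          norm_num at this
        · exact hg3 (r * fl θ p a z) (mul_pos hr0 hg2) (mul_lt_of_lt_one_left hg2 hr1) c hmem')
  have hE1 : ∀ᶠ q : Par × (ℂ × ℂ) in 𝓝 (p, z), dot (act a.1.1 q.2.2) (nu q.1 a.2) < 0 :=
    hden.continuousAt.eventually_lt continuousAt_const hg1
  have hE2 : ∀ᶠ q : Par × (ℂ × ℂ) in 𝓝 (p, z), 0 < fl θ q.1 a q.2 :=
    continuousAt_const.eventually_lt hfl hg2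
  have hE3 : ∀ᶠ q : Par × (ℂ × ℂ) in 𝓝 (p, z), ∀ j, j ≠ a.2 →
      dot (nx θ q.1 a q.2).1 (nu q.1 j) < q.1.2 j := by
    rw [Filter.eventually_all]
    intro j
    by_cases hj : j = a.2
    · exact Filter.Eventually.of_forall fun q h => absurd hj h
    · have h1 : ContinuousAt (fun q : Par × (ℂ × ℂ) => dot (nx θ q.1 a q.2).1 (nu q.1 j))
          (p, z) := continuous_dot.continuousAt.comp
            ((continuousAt_fst.comp hnx).prodMk (hnu j).continuousAt)
      filter_upwards [h1.eventually_lt (hsu j).continuousAt (hg4 j hj)] with q hq _ using hq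
  filter_upwards [htube, hE1, hE2, hE3] with q ht h1 h2 h3 hq
  refine ⟨h1, h2, ?_, h3⟩
  intro s hs0 hs1 c hc
  by_cases hca : c = a.1
  · subst hca
    have h4 := hc a.2
    rw [frm_ray, dot_add_left, dot_mul_left] at h4
    have h5 : fl θ q.1 a q.2 * dot (act a.1.1 q.2.2) (nu q.1 a.2) =
        q.1.2 a.2 - dot (frm θ a.1 q.2.1) (nu q.1 a.2) :=
      div_mul_cancel₀ _ (ne_of_lt h1)
    nlinarith
  · by_cases hc1 : c = (1, (0, 0))
    · rcases hq with hq | hq
      · rw [hc1] at hc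
        have h6 : q.2.1 + (s : ℂ) * q.2.2 ∈ Q q.1 := by
          have h7 : frm θ (1, (0, 0)) (q.2.1 + (s : ℂ) * q.2.2) ∈ Q q.1 := hc
          rwa [frm_one] at h7
        exact out_ray hq hs0 h6
      · have h8 := ht c ⟨hca, Or.inr hq⟩ (s / fl θ q.1 a q.2) (by positivity)
          ((div_le_one h2).2 hs1.le)
        rw [div_mul_cancel₀ _ (ne_of_gt h2)] at h8
        exact h8 hc
    · have h8 := ht c ⟨hca, Or.inl hc1⟩ (s / fl θ q.1 a q.2) (by positivity)
        ((div_le_one h2).2 hs1.le)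
      rw [div_mul_cancel₀ _ (ne_of_gt h2)] at h8
      exact h8 hc

end TMX
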