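import Pool.Agent.TMX.Basic
import Pool.Agent.TMX.G1
import Pool.Agent.TMX.G2
import Pool.Agent.TMX.G3

/-! # TMX: row G4 -/

set_option autoImplicit false

open Set Filter Topology

namespace TMX

private theorem G4_cont_nu (j : Fin 4) : Continuous fun p : Par => nu p j := by
  unfold nu; fun_prop

private theorem G4_cont_supp (j : Fin 4) : Continuous fun p : Par => p.2 j := by
  fun_prop

private theorem G4_open : IsOpen Pi0 := by
  have hv : ∀ j : Fin 4, Continuous fun p : Par => vtx p j := by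
    intro j
    unfold vtx
    have h1 := G4_cont_nu j
    have h2 := G4_cont_nu (j + 1)
    have h3 := G4_cont_supp j
    have h4 := G4_cont_supp (j + 1)
    fun_prop
  have e : Pi0 = {p : Par | 1 / 10 < p.1} ∩ ({p : Par | p.1 < 3 / 10} ∩
      ((⋂ j, {p : Par | 0 < p.2 j + p.2 (j + 2)}) ∩
      ⋂ j, ({p : Par | |(vtx p j).re - 1 / 4| < 1 / 50} ∩
        {p : Par | |(vtx p j).im - 1 / 2| < 1 / 50}))) := by
    ext p
    simp only [Pi0, Set.mem_inter_iff, Set.mem_iInter, Set.mem_ofPred_eq]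
  rw [e]
  refine (isOpen_lt continuous_const continuous_fst).inter
    ((isOpen_lt continuous_fst continuous_const).inter
      ((isOpen_iInter_of_finite fun j => isOpen_lt continuous_const (by fun_prop)).inter
        (isOpen_iInter_of_finite fun j => ?_)))
  have h1 : Continuous fun p : Par => (vtx p j).re := Complex.continuous_re.comp (hv j)
  have h2 : Continuous fun p : Par => (vtx p j).im := Complex.continuous_im.comp (hv j)
  exact (isOpen_lt (by fun_prop) continuous_const).inter (isOpen_lt (by fun_prop) continuous_const)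

/-- membership in a copy is a closed condition -/
private theorem G4_closed (θ : ℝ) (c : Cp) : IsClosed {u : Par × ℂ | u.2 ∈ obs θ u.1 c} := by
  have e : {u : Par × ℂ | u.2 ∈ obs θ u.1 c} =
      ⋂ j, {u : Par × ℂ | dot (frm θ c u.2) (nu u.1 j) ≤ u.1.2 j} := by
    ext u
    simp only [obs, Q, Set.mem_iInter, Set.mem_ofPred_eq]
  rw [e]
  refine isClosed_iInter fun j => isClosed_le ?_ ?_
  · exact continuous_dot.comp (((continuous_frm θ c).comp continuous_snd).prodMk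
      ((G4_cont_nu j).comp continuous_fst))
  · exact (G4_cont_supp j).comp continuous_fst

/-- finitely many copies meet a ball -/
private theorem G4_finite {θ : ℝ} (hθ : |θ - Real.pi / 4| < 1 / 100) (R : ℝ) :
    {c : Cp | ∃ p ∈ Pi0, ∃ y ∈ obs θ p c, ‖y‖ ≤ R}.Finite := by
  have hb : 0 < bb θ := by
    unfold bb
    have h3 := Real.pi_gt_three
    rw [abs_lt] at hθ
    exact Real.tan_pos_of_pos_of_lt_pi_div_two (by linarith) (by linarith)
  obtain ⟨N, hN⟩ := exists_nat_ge (max (R + 1) ((R + 1) / bb θ))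
  have hN1 : R + 1 ≤ N := (le_max_left _ _).trans hN
  have hN2 : R + 1 ≤ N * bb θ := by
    have := (le_max_right _ _).trans hN
    rwa [div_le_iff₀ hb] at this
  refine ((Set.finite_univ (α := Sg)).prod ((Set.finite_Icc (-(N : ℤ)) N).prod
    (Set.finite_Icc (-(N : ℤ)) N))).subset ?_
  rintro ⟨d, m⟩ ⟨p, hp, y, hy, hyR⟩
  have hbox := box hp (show frm θ (d, m) y ∈ Q p from hy)
  have hre : (frm θ (d, m) y).re = ((d.1 : ℤ) : ℝ) * (y.re - 2 * m.1) := by
    simp [frm, act, lat]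
  have him : (frm θ (d, m) y).im = ((d.2 : ℤ) : ℝ) * (y.im - 2 * bb θ * m.2) := by
    simp [frm, act, lat]
  have hd1 : |((d.1 : ℤ) : ℝ)| = 1 := by
    rcases (sg_cases d).1 with h | h <;> simp [h]
  have hd2 : |((d.2 : ℤ) : ℝ)| = 1 := by
    rcases (sg_cases d).2 with h | h <;> simp [h]
  have h1 : |y.re - 2 * m.1| < 1 := by
    have h := hbox.1
    rw [abs_lt] at h
    have h2 : |(frm θ (d, m) y).re| < 1 := by rw [abs_lt]; constructor <;> linarith
    rwa [hre, abs_mul, hd1, one_mul] at h2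
  have h2 : |y.im - 2 * bb θ * m.2| < 1 := by
    have h := hbox.2
    rw [abs_lt] at h
    have h2 : |(frm θ (d, m) y).im| < 1 := by rw [abs_lt]; constructor <;> linarith
    rwa [him, abs_mul, hd2, one_mul] at h2
  have h3 := (Complex.abs_re_le_norm y).trans hyR
  have h4 := (Complex.abs_im_le_norm y).trans hyR
  rw [abs_lt] at h1 h2
  rw [abs_le] at h3 h4
  have hN0 : (0 : ℝ) ≤ N := Nat.cast_nonneg N
  refine ⟨Set.mem_univ _, ⟨?_, ?_⟩, ?_, ?_⟩
  · have : (-(N : ℝ)) ≤ m.1 := by linarith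
    exact_mod_cast this
  · have : (m.1 : ℝ) ≤ N := by linarith
    exact_mod_cast this
  · have : (-(N : ℝ)) ≤ m.2 := by
      by_contra hc
      push Not at hc
      have := mul_lt_mul_of_pos_right hc hb
      linarith [mul_nonneg hN0 hb.le]
    exact_mod_cast this
  · have : (m.2 : ℝ) ≤ N := by
      by_contra hc
      push Not at hc
      have := mul_lt_mul_of_pos_right hc hb
      linarith [mul_nonneg hN0 hb.le]
    exact_mod_cast this

/-- Segments which miss the copies of a set `B` are stable. -/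
private theorem G4_tube {θ : ℝ} (hθ : |θ - Real.pi / 4| < 1 / 100) {X : Type} [TopologicalSpace X]
    (π : X → Par) (x w : X → ℂ) (T : X → ℝ) {x₀ : X} (hπ : ContinuousAt π x₀)
    (hx : ContinuousAt x x₀) (hw : ContinuousAt w x₀) (hT : ContinuousAt T x₀)
    (hp : π x₀ ∈ Pi0) (B : Set Cp)
    (hB : ∀ c ∈ B, ∀ r : ℝ, 0 ≤ r → r ≤ 1 →
      x x₀ + ((r * T x₀ : ℝ) : ℂ) * w x₀ ∉ obs θ (π x₀) c) :
    ∀ᶠ u in 𝓝 x₀, ∀ c ∈ B, ∀ r : ℝ, 0 ≤ r → r ≤ 1 →
      x u + ((r * T u : ℝ) : ℂ) * w u ∉ obs θ (π u) c := by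
  have hcont : ∀ r₀ : ℝ, ContinuousAt (fun v : X × ℝ =>
      ((π v.1, x v.1 + ((v.2 * T v.1 : ℝ) : ℂ) * w v.1) : Par × ℂ)) (x₀, r₀) := by
    intro r₀
    have h1 : ContinuousAt (fun v : X × ℝ => π v.1) (x₀, r₀) := ContinuousAt.fst' hπ
    have h2 : ContinuousAt (fun v : X × ℝ => x v.1) (x₀, r₀) := ContinuousAt.fst' hx
    have h3 : ContinuousAt (fun v : X × ℝ => w v.1) (x₀, r₀) := ContinuousAt.fst' hw
    have h4 : ContinuousAt (fun v : X × ℝ => T v.1) (x₀, r₀) := ContinuousAt.fst' hT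
    have h5 : ContinuousAt (fun v : X × ℝ => ((v.2 * T v.1 : ℝ) : ℂ)) (x₀, r₀) :=
      Complex.continuous_ofReal.continuousAt.comp (continuousAt_snd.mul h4)
    exact h1.prodMk (h2.add (h5.mul h3))
  -- a bound
  have hbd : ∀ᶠ u in 𝓝 x₀, ∀ r ∈ Icc (0 : ℝ) 1, ‖x u + ((r * T u : ℝ) : ℂ) * w u‖ <
      ‖x x₀‖ + |T x₀| * ‖w x₀‖ + 1 := by
    refine isCompact_Icc.eventually_forall_of_forall_eventually fun r₀ hr₀ => ?_
    have h1 : ContinuousAt (fun v : X × ℝ => ‖x v.1 + ((v.2 * T v.1 : ℝ) : ℂ) * w v.1‖)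
        (x₀, r₀) := (continuousAt_snd.comp (hcont r₀)).norm
    refine h1.eventually_lt continuousAt_const ?_
    have h2 := norm_add_le (x x₀) (((r₀ * T x₀ : ℝ) : ℂ) * w x₀)
    have h3 : ‖((r₀ * T x₀ : ℝ) : ℂ) * w x₀‖ ≤ |T x₀| * ‖w x₀‖ := by
      rw [norm_mul, Complex.norm_real, Real.norm_eq_abs, abs_mul, abs_of_nonneg hr₀.1]
      exact mul_le_mul_of_nonneg_right
        (mul_le_of_le_one_left (abs_nonneg _) hr₀.2) (norm_nonneg _)
    show ‖x x₀ + ((r₀ * T x₀ : ℝ) : ℂ) * w x₀‖ < _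
    linarith
  have hfin := G4_finite hθ (‖x x₀‖ + |T x₀| * ‖w x₀‖ + 1)
  have hopen : ∀ᶠ u in 𝓝 x₀, π u ∈ Pi0 := hπ.eventually (G4_open.mem_nhds hp)
  have hone : ∀ c ∈ B, ∀ᶠ u in 𝓝 x₀, ∀ r ∈ Icc (0 : ℝ) 1,
      x u + ((r * T u : ℝ) : ℂ) * w u ∉ obs θ (π u) c := by
    intro c hc
    refine isCompact_Icc.eventually_forall_of_forall_eventually fun r₀ hr₀ => ?_
    have h1 := (hcont r₀).eventually ((G4_closed θ c).isOpen_compl.mem_nhds
      (show (π x₀, x x₀ + ((r₀ * T x₀ : ℝ) : ℂ) * w x₀) ∈ _ from hB c hc r₀ hr₀.1 hr₀.2))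
    exact h1
  have hall : ∀ᶠ u in 𝓝 x₀, ∀ c ∈ {c : Cp | ∃ p ∈ Pi0, ∃ y ∈ obs θ p c,
      ‖y‖ ≤ ‖x x₀‖ + |T x₀| * ‖w x₀‖ + 1}, c ∈ B → ∀ r ∈ Icc (0 : ℝ) 1,
      x u + ((r * T u : ℝ) : ℂ) * w u ∉ obs θ (π u) c := by
    rw [Filter.eventually_all_finite hfin]
    intro c _
    by_cases hc : c ∈ B
    · filter_upwards [hone c hc] with u hu _ using hu
    · exact Filter.Eventually.of_forall fun u h => absurd h hc
  filter_upwards [hbd, hopen, hall] with u h1 h2 h3 c hc r hr0 hr1 hmem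
  exact h3 c ⟨π u, h2, _, hmem, (h1 r ⟨hr0, hr1⟩).le⟩ hc r ⟨hr0, hr1⟩ hmem

/-- a final free segment is stable -/
private theorem G4_free {θ : ℝ} (hθ : |θ - Real.pi / 4| < 1 / 100) {p : Par} (hp : p ∈ Pi0)
    {z : ℂ × ℂ} (hs : Out p z.1 z.2 ∨ Fre θ p z.1) {V : Set (ℂ × ℂ)} (hV : IsOpen V)
    {t : ℝ} (h : VisitL θ p [] z V t) :
    ∀ᶠ q : (Par × (ℂ × ℂ)) × ℝ in 𝓝 ((p, z), t),
      (Out q.1.1 q.1.2.1 q.1.2.2 ∨ Fre θ p z.1) → VisitL θ q.1.1 [] q.1.2 V q.2 := by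
  obtain ⟨-, ht, hf, c, hc⟩ := h
  simp only [tim, run, sub_zero] at ht hf hc
  have hpi : Continuous fun q : (Par × (ℂ × ℂ)) × ℝ => q.1.1 := by fun_prop
  have hx : Continuous fun q : (Par × (ℂ × ℂ)) × ℝ => q.1.2.1 := by fun_prop
  have hw : Continuous fun q : (Par × (ℂ × ℂ)) × ℝ => q.1.2.2 := by fun_prop
  have hT : Continuous fun q : (Par × (ℂ × ℂ)) × ℝ => q.2 := by fun_prop
  have htube := G4_tube hθ (fun q : (Par × (ℂ × ℂ)) × ℝ => q.1.1) (fun q => q.1.2.1)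
    (fun q => q.1.2.2) (fun q => q.2) (x₀ := ((p, z), t)) hpi.continuousAt hx.continuousAt
    hw.continuousAt hT.continuousAt hp {c | c ≠ (1, (0, 0)) ∨ Fre θ p z.1} (by
      rintro c hc2 r hr0 hr1 hmem'
      change z.1 + ((r * t : ℝ) : ℂ) * z.2 ∈ obs θ p c at hmem'
      rcases eq_or_lt_of_le hr0 with hr0 | hr0
      · rw [← hr0, zero_mul, Complex.ofReal_zero, zero_mul, add_zero] at hmem'
        rcases hc2 with hc2 | hc2
        · rcases hs with hs | hs
          · have h1 : z.1 ∈ obs θ p (1, (0, 0)) := by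
              show frm θ (1, (0, 0)) z.1 ∈ Q p
              rw [frm_one]
              exact hs.1
            have := copies_dist hθ hp hc2 hmem' h1
            rw [sub_self, norm_zero] at this
            norm_num at this
          · exact hs c hmem'
        · exact hc2 c hmem'
      · exact hf (r * t) (mul_pos hr0 ht) (mul_le_of_le_one_left ht.le hr1) c hmem')
  have hE1 : ∀ᶠ q : (Par × (ℂ × ℂ)) × ℝ in 𝓝 ((p, z), t), 0 < q.2 :=
    continuousAt_const.eventually_lt hT.continuousAt ht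
  have hE2 : ∀ᶠ q : (Par × (ℂ × ℂ)) × ℝ in 𝓝 ((p, z), t),
      (frm θ c (q.1.2.1 + (q.2 : ℂ) * q.1.2.2), act c.1 q.1.2.2) ∈ V := by
    have h1 : Continuous fun q : (Par × (ℂ × ℂ)) × ℝ =>
        (frm θ c (q.1.2.1 + (q.2 : ℂ) * q.1.2.2), act c.1 q.1.2.2) :=
      ((continuous_frm θ c).comp (hx.add ((Complex.continuous_ofReal.comp hT).mul hw))).prodMk
        ((continuous_act c.1).comp hw)
    exact h1.continuousAt.eventually (hV.mem_nhds hc)
  filter_upwards [htube, hE1, hE2] with q h1 h2 h3 hq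
  refine ⟨trivial, ?_, ?_, c, ?_⟩
  · simpa only [tim] using h2
  · intro s hs0 hs1 c' hc'
    simp only [tim, run, sub_zero] at hs1 hc'
    by_cases hc1 : c' = (1, (0, 0))
    · rcases hq with hq | hq
      · rw [hc1] at hc'
        have h6 : q.1.2.1 + (s : ℂ) * q.1.2.2 ∈ Q q.1.1 := by
          have h7 : frm θ (1, (0, 0)) (q.1.2.1 + (s : ℂ) * q.1.2.2) ∈ Q q.1.1 := hc'
          rwa [frm_one] at h7
        exact out_ray hq hs0 h6
      · have h8 := h1 c' (Or.inr hq) (s / q.2) (by positivity) ((div_le_one h2).2 hs1)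
        rw [div_mul_cancel₀ _ (ne_of_gt h2)] at h8
        exact h8 hc'
    · have h8 := h1 c' (Or.inl hc1) (s / q.2) (by positivity) ((div_le_one h2).2 hs1)
      rw [div_mul_cancel₀ _ (ne_of_gt h2)] at h8
      exact h8 hc'
  · simpa only [tim, run, sub_zero] using h3

private theorem G4_cons {θ : ℝ} {p : Par} {a : Lt} {l : List Lt} {z : ℂ × ℂ}
    {V : Set (ℂ × ℂ)} {t : ℝ} : VisitL θ p (a :: l) z V t ↔
      Good θ p a z ∧ VisitL θ p l (nx θ p a z) V (t - fl θ p a z) := by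
  have e : t - (fl θ p a z + tim θ p l (nx θ p a z)) =
      t - fl θ p a z - tim θ p l (nx θ p a z) := by ring
  simp only [VisitL, GoodL, tim, run, e]
  constructor
  · rintro ⟨⟨h1, h2⟩, h3, h4, h5⟩
    exact ⟨h1, h2, by linarith, h4, h5⟩
  · rintro ⟨h1, h2, h3, h4, h5⟩
    exact ⟨⟨h1, h2⟩, by linarith, h4, h5⟩

/-- [G4] stability of visits. -/
theorem visit_open {θ : ℝ} (hθ : |θ - Real.pi / 4| < 1 / 100) {p : Par} (hp : p ∈ Pi0)
    {l : List Lt} {z : ℂ × ℂ} (hs : Out p z.1 z.2 ∨ Fre θ p z.1) {V : Set (ℂ × ℂ)} (hV : IsOpen V)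
    {t : ℝ} (h : VisitL θ p l z V t) :
    ∀ᶠ q : (Par × (ℂ × ℂ)) × ℝ in 𝓝 ((p, z), t),
      (Out q.1.1 q.1.2.1 q.1.2.2 ∨ Fre θ p z.1) → VisitL θ q.1.1 l q.1.2 V q.2 := by
  induction l generalizing z t with
  | nil => exact G4_free hθ hp hs hV h
  | cons a l ih =>
    rw [G4_cons] at h
    obtain ⟨hg, hv⟩ := h
    obtain ⟨ho, hfl, hnx⟩ := good_open hθ hp hs hg
    have hout := (nx_out hp hg).1
    have hih := ih (Or.inl hout) hv
    have hc1 : ContinuousAt (fun q : (Par × (ℂ × ℂ)) × ℝ =>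
        (((q.1.1, nx θ q.1.1 a q.1.2), q.2 - fl θ q.1.1 a q.1.2) : (Par × (ℂ × ℂ)) × ℝ))
        ((p, z), t) := by
      have h1 : ContinuousAt (fun q : (Par × (ℂ × ℂ)) × ℝ => nx θ q.1.1 a q.1.2)
          ((p, z), t) := ContinuousAt.fst' (f := fun u : Par × (ℂ × ℂ) => nx θ u.1 a u.2) hnx
      have h2 : ContinuousAt (fun q : (Par × (ℂ × ℂ)) × ℝ => fl θ q.1.1 a q.1.2)
          ((p, z), t) := ContinuousAt.fst' (f := fun u : Par × (ℂ × ℂ) => fl θ u.1 a u.2) hfl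
      have h3 : ContinuousAt (fun q : (Par × (ℂ × ℂ)) × ℝ => q.1.1) ((p, z), t) :=
        (continuous_fst.comp continuous_fst).continuousAt
      exact (h3.prodMk h1).prodMk (continuousAt_snd.sub h2)
    have hE1 := hc1.eventually hih
    have hE2 : ∀ᶠ q : (Par × (ℂ × ℂ)) × ℝ in 𝓝 ((p, z), t),
        (Out q.1.1 q.1.2.1 q.1.2.2 ∨ Fre θ p z.1) → Good θ q.1.1 a q.1.2 :=
      (continuous_fst.continuousAt (x := ((p, z), t))).eventually ho
    have hE3 : ∀ᶠ q : (Par × (ℂ × ℂ)) × ℝ in 𝓝 ((p, z), t), q.1.1 ∈ Pi0 :=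
      ((continuous_fst.comp continuous_fst).continuousAt (x := ((p, z), t))).eventually
        (G4_open.mem_nhds hp)
    filter_upwards [hE1, hE2, hE3] with q h1 h2 h3 hq
    rw [G4_cons]
    exact ⟨h2 hq, h1 (Or.inl (nx_out h3 (h2 hq)).1)⟩

end TMX
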