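import Pool.Agent.TMX.Basic

set_option autoImplicit false

open Set Filter Topology

namespace TMX

theorem g5_norm (θ : ℝ) (p : Par) (l : List Lt) (z : ℂ × ℂ) : ‖(run θ p l z).2‖ = ‖z.2‖ := by
  induction l generalizing z with
  | nil => rfl
  | cons a l ih =>
    rw [run, ih]
    simp only [nx]
    rw [norm_refl, norm_act]

/-- reversal of a path that starts in the open side `s0` -/
theorem g5_rev {θ : ℝ} {p : Par} (l : List Lt) : ∀ {s0 : Fin 4} {x w : ℂ},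
    dot x (nu p s0) = p.2 s0 → (∀ j, j ≠ s0 → dot x (nu p j) < p.2 j) →
    0 < dot w (nu p s0) → GoodL θ p l (x, w) → ∀ (c : Cp) {t : ℝ}, 0 < t →
    FreeSeg θ p (run θ p l (x, w)).1 (run θ p l (x, w)).2 t →
    ∃ l' : List Lt,
      GoodL θ p l' (frm θ c ((run θ p l (x, w)).1 + (t : ℂ) * (run θ p l (x, w)).2),
        -act c.1 (run θ p l (x, w)).2) ∧
      run θ p l' (frm θ c ((run θ p l (x, w)).1 + (t : ℂ) * (run θ p l (x, w)).2),
        -act c.1 (run θ p l (x, w)).2) = (x, -refl p s0 w) ∧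
      tim θ p l' (frm θ c ((run θ p l (x, w)).1 + (t : ℂ) * (run θ p l (x, w)).2),
        -act c.1 (run θ p l (x, w)).2) = t + tim θ p l (x, w) := by
  induction l with
  | nil =>
    intro s0 x w hx hxj hw _ c t ht hf
    simp only [run] at hf ⊢
    obtain ⟨h1, h2, h3⟩ := rev_leg hx hxj hw c ht hf
    refine ⟨[(inv c, s0)], ⟨h1, trivial⟩, ?_, ?_⟩
    · simp only [run]; exact h3
    · simp only [tim]; rw [h2]
  | cons a l ih =>
    intro s0 x w hx hxj hw hl c t ht hf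
    obtain ⟨ha, hl⟩ := hl
    simp only [run] at hf ⊢
    have hd : dot (act a.1.1 w) (nu p a.2) < 0 := ha.1
    have h1 : dot (nx θ p a (x, w)).1 (nu p a.2) = p.2 a.2 := dot_land (ne_of_lt hd)
    have h2 : 0 < dot (nx θ p a (x, w)).2 (nu p a.2) := by
      simp only [nx]
      rw [dot_refl_nu]
      linarith
    obtain ⟨l'', g1, g2, g3⟩ := ih h1 ha.2.2.2 h2 hl c ht hf
    have e : ((nx θ p a (x, w)).1, -refl p a.2 (nx θ p a (x, w)).2) =
        (frm θ a.1 (x + (fl θ p a (x, w) : ℂ) * w), -act a.1.1 w) := by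
      simp only [nx]
      rw [refl_refl]
    obtain ⟨r1, r2, r3⟩ := rev_leg hx hxj hw a.1 ha.2.1 ha.2.2.1
    rw [e] at g2
    refine ⟨l'' ++ [(inv a.1, s0)], ?_, ?_, ?_⟩
    · rw [goodL_append]
      refine ⟨g1, ?_⟩
      rw [g2]
      exact ⟨r1, trivial⟩
    · rw [run_append]
      refine Eq.trans (congrArg (run θ p [(inv a.1, s0)]) g2) ?_
      simp only [run]
      exact r3
    · rw [tim_append]
      refine Eq.trans (congrArg₂ (· + ·) g3 (congrArg (tim θ p [(inv a.1, s0)]) g2)) ?_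
      simp only [tim]
      rw [r2]
      ring

theorem join {θ : ℝ} (hθ : |θ - Real.pi / 4| < 1 / 100) {p : Par} (hp : p ∈ Pi0)
    {s : Fin 4} {x w : ℂ} (hx : dot x (nu p s) = p.2 s) (hxj : ∀ j, j ≠ s → dot x (nu p j) < p.2 j)
    (hw : 0 < dot w (nu p s)) (hn : ‖w‖ = 1) {U V : Set (ℂ × ℂ)} {t₁ t₂ : ℝ}
    (h₁ : Visit θ p (x, -refl p s w) (rev U) t₁) (h₂ : Visit θ p (x, w) V t₂) :
    ∃ z ∈ U, ‖z.2‖ = 1 ∧ Fre θ p z.1 ∧ Visit θ p z V (t₁ + t₂) := by
  obtain ⟨l1, hg1, ht1, hf1, c1, hc1⟩ := h₁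
  obtain ⟨l2, hg2, ht2, hf2, c2, hc2⟩ := h₂
  have hw' : 0 < dot (-refl p s w) (nu p s) := by
    rw [dot_neg_left, dot_refl_nu]
    linarith
  have hpos : 0 < t₁ - tim θ p l1 (x, -refl p s w) := by linarith
  have hfs : FreeSeg θ p (run θ p l1 (x, -refl p s w)).1 (run θ p l1 (x, -refl p s w)).2
      (t₁ - tim θ p l1 (x, -refl p s w)) := fun r h0 h1 => hf1 r h0 h1.le
  obtain ⟨l', g1, g2, g3⟩ := g5_rev l1 hx hxj hw' hg1 c1 hpos hfs
  have e : -refl p s (-refl p s w) = w := by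
    rw [refl_neg, refl_refl, neg_neg]
  rw [e] at g2
  refine ⟨(frm θ c1 ((run θ p l1 (x, -refl p s w)).1 +
    ((t₁ - tim θ p l1 (x, -refl p s w) : ℝ) : ℂ) * (run θ p l1 (x, -refl p s w)).2),
    -act c1.1 (run θ p l1 (x, -refl p s w)).2), hc1, ?_, ?_, l' ++ l2, ?_, ?_, ?_, c2, ?_⟩
  · simp only []
    rw [norm_neg, norm_act, g5_norm]
    simp only []
    rw [norm_neg, norm_refl, hn]
  · exact (fre_frm θ p c1 _).2 (hf1 _ hpos le_rfl)
  · rw [goodL_append, g2]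
    exact ⟨g1, hg2⟩
  · rw [tim_append, g2, g3]
    linarith
  · rw [run_append, tim_append, g2, g3]
    intro r h0 h1
    exact hf2 r h0 (by linarith)
  · rw [run_append, tim_append, g2, g3]
    have e2 : t₁ + t₂ - (t₁ - tim θ p l1 (x, -refl p s w) + tim θ p l1 (x, -refl p s w) +
        tim θ p l2 (x, w)) = t₂ - tim θ p l2 (x, w) := by ring
    rw [e2]
    exact hc2

end TMX
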