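import Pool.Agent.TMX.Basic
import Pool.Agent.TMX.C1
import Pool.Agent.TMX.C2
import Pool.Agent.TMX.G2
import Pool.Agent.TMX.G4
import Pool.Agent.TMX.G5

/-! # TMX: the criterion -/

set_option autoImplicit false

open Set Filter Topology

namespace TMX

theorem c3_rev_open {U : Set (ℂ × ℂ)} (hU : IsOpen U) : IsOpen (rev U) := by
  have h : Continuous fun z : ℂ × ℂ => (z.1, -z.2) := by fun_prop
  exact hU.preimage h

/-- stability of visits at fixed parameters, in product form -/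
theorem c3_stab {θ : ℝ} (hθ : |θ - Real.pi / 4| < 1 / 100) {p : Par} (hp : p ∈ Pi0)
    {z : ℂ × ℂ} (hs : Out p z.1 z.2) {V : Set (ℂ × ℂ)} (hV : IsOpen V) {t : ℝ}
    (h : Visit θ p z V t) :
    ∃ r > 0, ∀ᶠ z' : ℂ × ℂ in 𝓝 z, ∀ t' : ℝ, |t' - t| < r → Out p z'.1 z'.2 →
      Visit θ p z' V t' := by
  obtain ⟨l, hl⟩ := h
  have h1 := visit_open hθ hp (Or.inl hs) hV hl
  rw [nhds_prod_eq, eventually_prod_iff] at h1
  obtain ⟨pa, hpa, pb, hpb, h2⟩ := h1
  obtain ⟨r, hr, hrb⟩ := Metric.eventually_nhds_iff.mp hpb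
  refine ⟨r, hr, ?_⟩
  have hc : Tendsto (fun z' : ℂ × ℂ => (p, z')) (𝓝 z) (𝓝 (p, z)) :=
    (Continuous.prodMk continuous_const continuous_id).tendsto z
  filter_upwards [hc.eventually hpa] with z' hz' t' ht' hout
  exact ⟨l, h2 hz' (hrb (by rw [Real.dist_eq]; exact ht')) (Or.inl hout)⟩

/-- a good letter in front of a visit -/
theorem c3_cons {θ : ℝ} {p : Par} {a : Lt} {z : ℂ × ℂ} {V : Set (ℂ × ℂ)} {t : ℝ}
    (ha : Good θ p a z) (h : Visit θ p (nx θ p a z) V t) : Visit θ p z V (fl θ p a z + t) := by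
  obtain ⟨l, h1, h2, h3, h4⟩ := h
  refine ⟨a :: l, ⟨ha, h1⟩, ?_, ?_, ?_⟩
  · show fl θ p a z + tim θ p l (nx θ p a z) < fl θ p a z + t
    linarith
  · intro s h0 hs
    refine h3 s h0 (hs.trans ?_)
    show fl θ p a z + t - (fl θ p a z + tim θ p l (nx θ p a z)) ≤ t - tim θ p l (nx θ p a z)
    linarith
  · obtain ⟨c, hc⟩ := h4
    refine ⟨c, ?_⟩
    have e : fl θ p a z + t - tim θ p (a :: l) z = t - tim θ p l (nx θ p a z) := by
      show fl θ p a z + t - (fl θ p a z + tim θ p l (nx θ p a z)) = t - tim θ p l (nx θ p a z)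
      ring
    rw [e]
    exact hc

/-- [C3] the criterion. -/
theorem criterion {θ : ℝ} (hθ : |θ - Real.pi / 4| < 1 / 100) {p : Par} (hp : p ∈ Pi0)
    {U V : Set (ℂ × ℂ)} (hUo : IsOpen U) (hVo : IsOpen V)
    (hU : ∃ t, Visit θ p (sepm θ p) (rev U) t)
    (hV : ∀ τ ε : ℝ, 0 < ε → ∃ t, ∃ k : ℤ, Visit θ p (sepp θ p) V t ∧ |t - τ - k * ell θ| < ε) :
    ∃ T : ℝ, ∀ t ≥ T, ∃ z ∈ U, ‖z.2‖ = 1 ∧ Fre θ p z.1 ∧ Visit θ p z V t := by
  obtain ⟨outm, outp, nm, np, dm1, -, -, -⟩ := sep_out hθ hp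
  -- the length of the cylinder is positive
  have hell : 0 < ell θ := by
    have hθ' := abs_lt.mp hθ
    have hpi1 := Real.pi_gt_d2
    have hpi2 := Real.pi_lt_d2
    have : 0 < Real.cos θ := by
      apply Real.cos_pos_of_mem_Ioo; constructor <;> linarith
    unfold ell
    positivity
  -- the visit of `rev U`
  obtain ⟨tU, hU⟩ := hU
  obtain ⟨r, hr, hUev⟩ := c3_stab hθ hp outm (c3_rev_open hUo) hU
  -- the visits of `V`
  set ε : ℝ := r / 4 with hε
  have hε0 : 0 < ε := by positivity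
  choose tk nk hk1 hk2 using fun k : ℕ => hV (k * ε) ε hε0
  have hVev : ∀ k : ℕ, ∀ᶠ z' : ℂ × ℂ in 𝓝 (sepp θ p), Out p z'.1 z'.2 →
      Visit θ p z' V (tk k) := by
    intro k
    obtain ⟨r', hr', h⟩ := c3_stab hθ hp outp hVo (hk1 k)
    filter_upwards [h] with z' hz' hout
    exact hz' (tk k) (by simpa using hr') hout
  -- number of residues
  set K : ℕ := ⌊ell θ / ε⌋₊ with hK
  have hVev' : ∀ᶠ z' : ℂ × ℂ in 𝓝 (sepp θ p), ∀ k ∈ Finset.range (K + 1), Out p z'.1 z'.2 →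
      Visit θ p z' V (tk k) := by
    rw [Filter.eventually_all_finset]
    intro k _
    exact hVev k
  -- crossing
  obtain ⟨x, w, κ, hx, hw, hgood, hfl, hnx⟩ := crossing hθ hp
  -- the reversed states converge to the separatrix
  have hst : Tendsto (fun m => (x m, -refl p 1 (w m))) atTop (𝓝 (sepm θ p)) := by
    have hcr : Continuous fun v : ℂ => -refl p 1 v := by
      have : (fun v : ℂ => -refl p 1 v) = fun v : ℂ => (nu p 1) ^ 2 * (starRingEnd ℂ) v := by
        funext v; rw [refl_eq]; ring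
      rw [this]
      exact continuous_const.mul Complex.continuous_conj
    exact hx.prodMk_nhds ((hcr.tendsto (zz θ)).comp hw)
  have hdotpos : ∀ᶠ m in atTop, 0 < dot (w m) (nu p 1) := by
    have hlim : Tendsto (fun m => dot (w m) (nu p 1)) atTop (𝓝 (dot (zz θ) (nu p 1))) := by
      have hc : Continuous fun v : ℂ => dot v (nu p 1) := by unfold dot; fun_prop
      exact (hc.tendsto _).comp hw
    have hpos : 0 < dot (zz θ) (nu p 1) := by
      have h := dm1
      change 0 < dot (-refl p 1 (zz θ)) (nu p 1) at h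
      rw [dot_neg_left, dot_refl_nu, neg_neg] at h
      exact h
    exact hlim.eventually (lt_mem_nhds hpos)
  have hflev : ∀ᶠ m : ℕ in atTop,
      |fl θ p ((dp, ((m : ℤ), (m : ℤ))), 3) (x m, w m) - m * ell θ - κ| < ε := by
    have := (Metric.tendsto_nhds.mp hfl) ε hε0
    filter_upwards [this] with m hm
    rw [Real.dist_eq] at hm
    exact hm
  have hall := (((((hst.eventually hUev).and (hnx.eventually hVev')).and hgood).and hdotpos).and
    hflev)
  obtain ⟨m0, hm0⟩ := eventually_atTop.mp hall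
  -- bound of the numbers of turns
  obtain ⟨M, hM⟩ : ∃ M : ℤ, ∀ k ∈ Finset.range (K + 1), nk k ≤ M := by
    obtain ⟨M, hM⟩ := ((Finset.range (K + 1)).image nk).exists_le
    exact ⟨M, fun k hk => hM _ (Finset.mem_image_of_mem nk hk)⟩
  refine ⟨tU + κ + ((m0 : ℝ) + M + 1) * ell θ, fun t ht => ?_⟩
  set s : ℝ := t - tU - κ with hs
  set N : ℤ := ⌊s / ell θ⌋ with hN
  set ρ : ℝ := s - N * ell θ with hρ
  have hρ0 : 0 ≤ ρ := by
    have := Int.floor_le (s / ell θ)
    rw [le_div_iff₀ hell] at this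
    linarith
  have hρ1 : ρ < ell θ := by
    have := Int.lt_floor_add_one (s / ell θ)
    rw [div_lt_iff₀ hell] at this
    linarith
  set k : ℕ := ⌊ρ / ε⌋₊ with hkdef
  have hkK : k ∈ Finset.range (K + 1) := by
    rw [Finset.mem_range, Nat.lt_succ_iff, hK, hkdef]
    apply Nat.floor_le_floor
    gcongr
  have hk3 : (k : ℝ) * ε ≤ ρ := by
    have := Nat.floor_le (a := ρ / ε) (by positivity)
    rwa [le_div_iff₀ hε0] at this
  have hk4 : ρ < (k : ℝ) * ε + ε := by
    have := Nat.lt_floor_add_one (ρ / ε)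
    rw [div_lt_iff₀ hε0] at this
    linarith
  have hNM : (m0 : ℤ) + M + 1 ≤ N := by
    rw [hN, Int.le_floor, le_div_iff₀ hell]
    push_cast
    linarith
  have hNk : (m0 : ℤ) ≤ N - nk k := by
    have := hM k hkK
    linarith
  obtain ⟨m, hm⟩ : ∃ m : ℕ, (m : ℤ) = N - nk k :=
    ⟨(N - nk k).toNat, Int.toNat_of_nonneg (le_trans (by positivity) hNk)⟩
  have hmm0 : m0 ≤ m := by
    have : (m0 : ℤ) ≤ m := by rw [hm]; exact hNk
    exact_mod_cast this
  obtain ⟨⟨⟨⟨hmU, hmV⟩, hmg⟩, hmd⟩, hmf⟩ := hm0 m hmm0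
  obtain ⟨hwn, hx1, hxj, hG⟩ := hmg
  -- the three times
  set F : ℝ := fl θ p ((dp, ((m : ℤ), (m : ℤ))), 3) (x m, w m) with hF
  have hnxo := nx_out hp hG
  have hvis2 : Visit θ p (x m, w m) V (F + tk k) := c3_cons hG (hmV k hkK hnxo.1)
  have hxQ : x m ∈ Q p := by
    intro j
    by_cases hj : j = 1
    · rw [hj]; exact hx1.le
    · exact (hxj j hj).le
  have hout1 : Out p (x m) (-refl p 1 (w m)) := by
    refine ⟨hxQ, 1, hx1, ?_⟩
    rw [dot_neg_left, dot_refl_nu, neg_neg]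
    exact hmd
  have hmR : (m : ℝ) = (N : ℝ) - (nk k : ℝ) := by
    have : ((m : ℤ) : ℝ) = ((N - nk k : ℤ) : ℝ) := by rw [hm]
    push_cast at this
    exact this
  have htime : |t - F - tk k - tU| < r := by
    have h1 := abs_lt.mp hmf
    have h2 := abs_lt.mp (hk2 k)
    have e1 : t = s + tU + κ := by rw [hs]; ring
    have e2 : s = ρ + N * ell θ := by rw [hρ]; ring
    have e3 : (m : ℝ) * ell θ = N * ell θ - nk k * ell θ := by rw [hmR]; ring
    have e4 : r = 4 * ε := by rw [hε]; ring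
    rw [e4, abs_lt]
    constructor
    · linarith [h1.1, h1.2, h2.1, h2.2]
    · linarith [h1.1, h1.2, h2.1, h2.2]
  have hvis1 : Visit θ p (x m, -refl p 1 (w m)) (rev U) (t - F - tk k) :=
    hmU (t - F - tk k) htime hout1
  obtain ⟨z, hzU, hz1, hz2, hz3⟩ := join hθ hp hx1 hxj hmd hwn hvis1 hvis2
  refine ⟨z, hzU, hz1, hz2, ?_⟩
  have e5 : t - F - tk k + (F + tk k) = t := by ring
  rw [e5] at hz3
  exact hz3

end TMX
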