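import Pool.Agent.TMX.Basic
import Pool.Agent.TMX.G1

/-! # TMX [F1]: the table is a polygon -/

set_option autoImplicit false

open Set Filter Topology

namespace TMX

theorem f1_bb {θ : ℝ} (hθ : |θ - Real.pi / 4| < 1 / 100) : 9 / 10 < bb θ := by
  have h2 : Real.sqrt 2 ^ 2 = 2 := Real.sq_sqrt (by norm_num)
  have h0 : 0 ≤ Real.sqrt 2 := Real.sqrt_nonneg 2
  have hlo : 1.414 < Real.sqrt 2 := by nlinarith
  have hhi : Real.sqrt 2 < 1.415 := by nlinarith
  have hs : |Real.sin θ - Real.sin (Real.pi / 4)| ≤ |θ - Real.pi / 4| :=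
    Real.abs_sin_sub_sin_le θ (Real.pi / 4)
  have hc : |Real.cos θ - Real.cos (Real.pi / 4)| ≤ |θ - Real.pi / 4| :=
    Real.abs_cos_sub_cos_le θ (Real.pi / 4)
  rw [Real.sin_pi_div_four] at hs
  rw [Real.cos_pi_div_four] at hc
  rw [abs_le] at hs hc
  unfold bb
  rw [Real.tan_eq_sin_div_cos, lt_div_iff₀ (by linarith)]
  linarith

theorem f1_Q_Ro {θ : ℝ} (hθ : |θ - Real.pi / 4| < 1 / 100) {p : Par} (hp : p ∈ Pi0) {x : ℂ}
    (hx : x ∈ Q p) : x ∈ Ro θ := by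
  obtain ⟨h1, h2⟩ := box hp hx
  have hb := f1_bb hθ
  rw [abs_lt] at h1 h2
  exact ⟨by linarith, by linarith, by linarith, by linarith⟩

theorem f1_notQ {p : Par} {x : ℂ} : x ∉ Q p ↔ ∃ j, p.2 j < dot x (nu p j) := by
  unfold Q
  simp only [Set.mem_ofPred_eq, not_forall, not_le]

theorem f1_cont_dot (v : ℂ) : Continuous fun x : ℂ => dot x v := by
  unfold dot; fun_prop

theorem f1_Ro_open (θ : ℝ) : IsOpen (Ro θ) := by
  have : Ro θ = {x : ℂ | 0 < x.re} ∩ {x : ℂ | x.re < 1} ∩ ({x : ℂ | 0 < x.im} ∩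
      {x : ℂ | x.im < bb θ}) := by
    ext x; simp only [Ro, Set.mem_ofPred_eq, Set.mem_inter_iff]; tauto
  rw [this]
  exact ((isOpen_lt continuous_const Complex.continuous_re).inter
    (isOpen_lt Complex.continuous_re continuous_const)).inter
    ((isOpen_lt continuous_const Complex.continuous_im).inter
    (isOpen_lt Complex.continuous_im continuous_const))

theorem f1_Rc_closed (θ : ℝ) : IsClosed (Rc θ) := by
  have : Rc θ = {x : ℂ | 0 ≤ x.re} ∩ {x : ℂ | x.re ≤ 1} ∩ ({x : ℂ | 0 ≤ x.im} ∩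
      {x : ℂ | x.im ≤ bb θ}) := by
    ext x; simp only [Rc, Set.mem_ofPred_eq, Set.mem_inter_iff]; tauto
  rw [this]
  exact ((isClosed_le continuous_const Complex.continuous_re).inter
    (isClosed_le Complex.continuous_re continuous_const)).inter
    ((isClosed_le continuous_const Complex.continuous_im).inter
    (isClosed_le Complex.continuous_im continuous_const))

theorem f1_G_open (θ : ℝ) (p : Par) : IsOpen {x | x ∈ Ro θ ∧ x ∉ Q p} :=
  (f1_Ro_open θ).inter (Q_isClosed p).isOpen_compl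

theorem f1_Ro_Rc {θ : ℝ} {x : ℂ} (hx : x ∈ Ro θ) : x ∈ Rc θ :=
  ⟨hx.1.le, hx.2.1.le, hx.2.2.1.le, hx.2.2.2.le⟩

theorem f1_G_Tb {θ : ℝ} {p : Par} {x : ℂ} (hx : x ∈ Rc θ) (hq : x ∉ Q p) : x ∈ Tb θ p := by
  obtain ⟨j, hj⟩ := f1_notQ.mp hq
  exact ⟨hx, j, hj.le⟩

theorem f1_Tb_closed (θ : ℝ) (p : Par) : IsClosed (Tb θ p) := by
  have : Tb θ p = Rc θ ∩ ⋃ j : Fin 4, {x | p.2 j ≤ dot x (nu p j)} := by
    ext x; simp only [Tb, Set.mem_ofPred_eq, Set.mem_inter_iff, Set.mem_iUnion]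
  rw [this]
  refine (f1_Rc_closed θ).inter (isClosed_iUnion_of_finite fun j => ?_)
  exact isClosed_le continuous_const (f1_cont_dot _)

/-- a limit along a segment -/
theorem f1_clos {S : Set ℂ} {x v : ℂ} (h : ∃ δ : ℝ, 0 < δ ∧ ∀ ε : ℝ, 0 < ε → ε < δ →
    x + (ε : ℂ) * v ∈ S) : x ∈ closure S := by
  obtain ⟨δ, hδ, h⟩ := h
  have ht : Tendsto (fun ε : ℝ => x + (ε : ℂ) * v) (𝓝[>] (0 : ℝ)) (𝓝 x) := by
    have hc : Continuous fun ε : ℝ => x + (ε : ℂ) * v := by fun_prop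
    have := hc.tendsto 0
    simp only [Complex.ofReal_zero, zero_mul, add_zero] at this
    exact this.mono_left nhdsWithin_le_nhds
  refine mem_closure_of_tendsto ht ?_
  have : Ioo (0 : ℝ) δ ∈ 𝓝[>] (0 : ℝ) := Ioo_mem_nhdsGT hδ
  filter_upwards [this] with ε hε
  exact h ε hε.1 hε.2

theorem f1_Tb_clos {θ : ℝ} (hθ : |θ - Real.pi / 4| < 1 / 100) {p : Par} (hp : p ∈ Pi0) :
    Tb θ p ⊆ closure {x | x ∈ Ro θ ∧ x ∉ Q p} := by
  rintro x ⟨hx, j, hj⟩
  have hb := f1_bb hθ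
  by_cases hR : x ∈ Ro θ
  · -- move in the direction of the normal
    have hO := (f1_Ro_open θ).mem_nhds hR
    have hc : Tendsto (fun ε : ℝ => x + (ε : ℂ) * nu p j) (𝓝 0) (𝓝 x) := by
      have hc : Continuous fun ε : ℝ => x + (ε : ℂ) * nu p j := by fun_prop
      have := hc.tendsto 0
      simpa only [Complex.ofReal_zero, zero_mul, add_zero] using this
    have h1 := hc hO
    rw [Filter.mem_map, Metric.mem_nhds_iff] at h1
    obtain ⟨δ, hδ, h1⟩ := h1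
    refine f1_clos ⟨δ, hδ, fun ε h0 hε => ⟨h1 ?_, ?_⟩⟩
    · rw [Metric.mem_ball, Real.dist_eq, sub_zero, abs_of_pos h0]; exact hε
    · rw [f1_notQ]
      refine ⟨j, ?_⟩
      rw [dot_add_left, dot_mul_left, dot_nu_self]
      linarith
  · -- move to the centre of the outer rectangle
    have hq : x ∉ Q p := fun h => hR (f1_Q_Ro hθ hp h)
    obtain ⟨i, hi⟩ := f1_notQ.mp hq
    set m : ℂ := ⟨1 / 2, bb θ / 2⟩ with hm
    have hO : {y : ℂ | p.2 i < dot y (nu p i)} ∈ 𝓝 x :=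
      (isOpen_lt continuous_const (f1_cont_dot _)).mem_nhds hi
    have hc : Tendsto (fun ε : ℝ => x + (ε : ℂ) * (m - x)) (𝓝 0) (𝓝 x) := by
      have hc : Continuous fun ε : ℝ => x + (ε : ℂ) * (m - x) := by fun_prop
      have := hc.tendsto 0
      simpa only [Complex.ofReal_zero, zero_mul, add_zero] using this
    have h1 := hc hO
    rw [Filter.mem_map, Metric.mem_nhds_iff] at h1
    obtain ⟨δ, hδ, h1⟩ := h1
    refine f1_clos (v := m - x) ⟨min δ (1 / 2), lt_min hδ (by norm_num), fun ε h0 hε => ⟨?_, ?_⟩⟩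
    · have hε1 : ε < 1 / 2 := lt_of_lt_of_le hε (min_le_right _ _)
      obtain ⟨a1, a2, a3, a4⟩ := hx
      refine ⟨?_, ?_, ?_, ?_⟩
      · simp [hm]; nlinarith
      · simp [hm]; nlinarith
      · simp [hm]; nlinarith
      · simp [hm]; nlinarith
    · rw [f1_notQ]
      refine ⟨i, ?_⟩
      have : ε ∈ Metric.ball (0 : ℝ) δ := by
        rw [Metric.mem_ball, Real.dist_eq, sub_zero, abs_of_pos h0]
        exact lt_of_lt_of_le hε (min_le_left _ _)
      exact h1 this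

/-- the centre of the hole -/
theorem f1_centre {p : Par} (hp : p ∈ Pi0) : ∃ q : ℂ, ∀ j, dot q (nu p j) < p.2 j := by
  obtain ⟨_, _, h, _⟩ := hp
  have h0 := h 0
  have h1 := h 1
  have e2 : (0 : Fin 4) + 2 = 2 := rfl
  have e3 : (1 : Fin 4) + 2 = 3 := rfl
  rw [e2] at h0
  rw [e3] at h1
  refine ⟨(((p.2 0 - p.2 2) / 2 : ℝ) : ℂ) * nu p 0 + (((p.2 1 - p.2 3) / 2 : ℝ) : ℂ) * nu p 1, ?_⟩
  have n1 : nu p 1 = Complex.I * nu p 0 := nu_succ p 0
  have n2 : nu p 2 = -nu p 0 := nu_add_two p 0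
  have n3 : nu p 3 = -nu p 1 := nu_add_two p 1
  have d00 : dot (nu p 0) (nu p 0) = 1 := dot_nu_self p 0
  have d11 : dot (nu p 1) (nu p 1) = 1 := dot_nu_self p 1
  have d01 : dot (nu p 0) (nu p 1) = 0 := dot_nu_succ p 0
  have d10 : dot (nu p 1) (nu p 0) = 0 := dot_nu_succ' p 0
  have ee : ∀ i : Fin 4, i = 0 ∨ i = 1 ∨ i = 2 ∨ i = 3 := by decide
  intro j
  rcases ee j with rfl | rfl | rfl | rfl
  · rw [dot_add_left, dot_mul_left, dot_mul_left, d00, d10]; linarith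
  · rw [dot_add_left, dot_mul_left, dot_mul_left, d01, d11]; linarith
  · rw [n2, dot_neg_right, dot_add_left, dot_mul_left, dot_mul_left, d00, d10]; linarith
  · rw [n3, dot_neg_right, dot_add_left, dot_mul_left, dot_mul_left, d01, d11]; linarith

theorem f1_int_Rc {θ : ℝ} {x : ℂ} (hx : x ∈ interior (Rc θ)) : x ∈ Ro θ := by
  have h : Rc θ = Icc (0 : ℝ) 1 ×ℂ Icc (0 : ℝ) (bb θ) := by
    ext y; simp only [Rc, Set.mem_ofPred_eq, Complex.mem_reProdIm, mem_Icc]; tauto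
  rw [h, Complex.interior_reProdIm, interior_Icc, interior_Icc, Complex.mem_reProdIm] at hx
  exact ⟨hx.1.1, hx.1.2, hx.2.1, hx.2.2⟩

theorem f1_interior {θ : ℝ} {p : Par} (hp : p ∈ Pi0) :
    interior (Tb θ p) = {x | x ∈ Ro θ ∧ x ∉ Q p} := by
  apply Set.Subset.antisymm
  · intro x hx
    have hxR : x ∈ Ro θ := f1_int_Rc (interior_mono (fun y hy => hy.1) hx)
    refine ⟨hxR, fun hq => ?_⟩
    obtain ⟨q, hqj⟩ := f1_centre hp
    have hc : Tendsto (fun ε : ℝ => x + (ε : ℂ) * (q - x)) (𝓝 0) (𝓝 x) := by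
      have hc : Continuous fun ε : ℝ => x + (ε : ℂ) * (q - x) := by fun_prop
      have := hc.tendsto 0
      simpa only [Complex.ofReal_zero, zero_mul, add_zero] using this
    have h1 := hc (isOpen_interior.mem_nhds hx)
    rw [Filter.mem_map, Metric.mem_nhds_iff] at h1
    obtain ⟨δ, hδ, h1⟩ := h1
    set ε := min (δ / 2) (1 / 2) with hε
    have hε0 : 0 < ε := lt_min (by linarith) (by norm_num)
    have hε1 : ε ≤ 1 / 2 := min_le_right _ _
    have hε2 : ε ≤ δ / 2 := min_le_left _ _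
    have : ε ∈ Metric.ball (0 : ℝ) δ := by
      rw [Metric.mem_ball, Real.dist_eq, sub_zero, abs_of_pos hε0]; linarith
    obtain ⟨_, j, hj⟩ := interior_subset (h1 this)
    change p.2 j ≤ dot (x + (ε : ℂ) * (q - x)) (nu p j) at hj
    rw [dot_add_left, dot_mul_left, dot_sub_left] at hj
    have h2 := hq j
    have h3 := hqj j
    nlinarith
  · exact interior_maximal (fun x hx => f1_G_Tb (f1_Ro_Rc hx.1) hx.2) (f1_G_open θ p)

theorem f1_int_one {m : ℤ} {x b : ℝ} (hb : 0 < b) (h0 : 0 < x) (h1 : x < b) (d : ℤˣ)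
    (h2 : 0 < ((d : ℤ) : ℝ) * (x - 2 * b * m)) (h3 : ((d : ℤ) : ℝ) * (x - 2 * b * m) < b) :
    d = 1 ∧ m = 0 := by
  rcases Int.units_eq_one_or d with hd | hd
  · subst hd
    refine ⟨rfl, ?_⟩
    simp only [Units.val_one, Int.cast_one, one_mul] at h2 h3
    have a1 : ((-1 : ℤ) : ℝ) < (m : ℝ) := by push_cast; nlinarith
    have a2 : (m : ℝ) < ((1 : ℤ) : ℝ) := by push_cast; nlinarith
    have b1 : -1 < m := by exact_mod_cast a1
    have b2 : m < 1 := by exact_mod_cast a2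
    omega
  · subst hd
    exfalso
    simp only [Units.val_neg, Units.val_one, Int.cast_neg, Int.cast_one, neg_mul, one_mul] at h2 h3
    have a1 : ((0 : ℤ) : ℝ) < (m : ℝ) := by push_cast; nlinarith
    have a2 : (m : ℝ) < ((1 : ℤ) : ℝ) := by push_cast; nlinarith
    have b1 : 0 < m := by exact_mod_cast a1
    have b2 : m < 1 := by exact_mod_cast a2
    omega

theorem f1_Ro_frm {θ : ℝ} (hb : 0 < bb θ) {x : ℂ} {c : Cp} (hx : x ∈ Ro θ)
    (hc : frm θ c x ∈ Ro θ) : c = (1, (0, 0)) := by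
  obtain ⟨a1, a2, a3, a4⟩ := hx
  obtain ⟨b1, b2, b3, b4⟩ := hc
  obtain ⟨⟨d1, d2⟩, ⟨m1, m2⟩⟩ := c
  simp only [frm, act, lat, Complex.sub_re, Complex.sub_im] at b1 b2 b3 b4
  obtain ⟨u1, u2⟩ := f1_int_one (m := m1) (x := x.re) (b := 1) one_pos a1 a2 d1
    (by rw [mul_one]; exact b1) (by rw [mul_one]; exact b2)
  obtain ⟨v1, v2⟩ := f1_int_one (m := m2) (x := x.im) (b := bb θ) hb a3 a4 d2 b3 b4
  subst u1 u2 v1 v2
  rfl

theorem table_closure {θ : ℝ} (hθ : |θ - Real.pi / 4| < 1 / 100) {p : Par} (hp : p ∈ Pi0) :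
    interior (Tb θ p) = {x | x ∈ Ro θ ∧ x ∉ Q p} ∧ Tb θ p ⊆ closure {x | x ∈ Ro θ ∧ x ∉ Q p} ∧
    ∀ x ∈ Ro θ, x ∉ Q p → Fre θ p x := by
  refine ⟨f1_interior hp, f1_Tb_clos hθ hp, fun x hx hq c hc => ?_⟩
  have hb := f1_bb hθ
  have h := f1_Ro_frm (by linarith) hx (f1_Q_Ro hθ hp hc)
  rw [h] at hc
  apply hq
  have : frm θ (1, (0, 0)) x ∈ Q p := hc
  rwa [frm_one] at this

/-! ## the sides -/

theorem f1_e13 (j : Fin 4) : j + 1 + 3 = j := by revert j; decide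

theorem f1_e12 (j : Fin 4) : j + 1 + 1 = j + 2 := by revert j; decide

theorem f1_e22 (j : Fin 4) : j + 2 + 2 = j := by revert j; decide

theorem f1_four (j i : Fin 4) : i = j ∨ i = j + 1 ∨ i = j + 2 ∨ i = j + 3 := by
  revert j i; decide

theorem f1_side {p : Par} (hp : p ∈ Pi0) (j : Fin 4) (x : ℂ) :
    x ∈ segment ℝ (vtx p j) (vtx p (j + 1)) ↔
      x ∈ Q p ∧ dot x (nu p (j + 1)) = p.2 (j + 1) := by
  obtain ⟨_, _, hh, _⟩ := hp
  have hL := hh j
  have hL1 := hh (j + 1)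
  have e3 : j + 1 + 2 = j + 3 := by rw [add_assoc]; rfl
  rw [e3] at hL1
  have dA0 := dot_vtx_self p j
  have dA1 := dot_vtx_succ p j
  have dA2 := dot_vtx_two p j
  have dA3 := dot_vtx_three p j
  have dB1 := dot_vtx_self p (j + 1)
  have dB2 := dot_vtx_succ p (j + 1)
  have dB3 := dot_vtx_two p (j + 1)
  have dB0 := dot_vtx_three p (j + 1)
  rw [f1_e12] at dB2 dB0
  rw [e3] at dB3
  rw [f1_e13] at dB0
  constructor
  · rintro ⟨a, b, ha, hb, hab, rfl⟩
    have key : ∀ i, dot (a • vtx p j + b • vtx p (j + 1)) (nu p i) =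
        a * dot (vtx p j) (nu p i) + b * dot (vtx p (j + 1)) (nu p i) := by
      intro i
      rw [Complex.real_smul, Complex.real_smul, dot_add_left, dot_mul_left, dot_mul_left]
    have ea : a = 1 - b := by linarith
    refine ⟨?_, ?_⟩
    · intro i
      rw [key i]
      rcases f1_four j i with rfl | rfl | rfl | rfl
      · rw [dA0, dB0, ea]; nlinarith
      · rw [dA1, dB1, ea]; nlinarith
      · rw [dA2, dB2, ea]; nlinarith
      · rw [dA3, dB3, ea]; nlinarith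
    · rw [key, dA1, dB1, ea]; ring
  · rintro ⟨hq, h1⟩
    have hs := basis_nu p (j + 1) x
    rw [f1_e12, h1] at hs
    set s := dot x (nu p (j + 2)) with hsd
    have hs2 : s ≤ p.2 (j + 2) := hq (j + 2)
    have hs0 : -p.2 j ≤ s := by
      have := hq j
      rw [hsd, dot_add_two]; linarith
    have hvA : vtx p j = (p.2 (j + 1) : ℂ) * nu p (j + 1) + ((-p.2 j : ℝ) : ℂ) * nu p (j + 2) := by
      unfold vtx; rw [nu_add_two]; push_cast; ring
    have hvB : vtx p (j + 1) = (p.2 (j + 1) : ℂ) * nu p (j + 1) +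
        ((p.2 (j + 2) : ℝ) : ℂ) * nu p (j + 2) := by
      unfold vtx; rw [f1_e12]
    have hne : p.2 j + p.2 (j + 2) ≠ 0 := hL.ne'
    refine ⟨(p.2 (j + 2) - s) / (p.2 j + p.2 (j + 2)), (s + p.2 j) / (p.2 j + p.2 (j + 2)),
      div_nonneg (by linarith) hL.le, div_nonneg (by linarith) hL.le, ?_, ?_⟩
    · field_simp; ring
    · rw [Complex.real_smul, Complex.real_smul, hvA, hvB]
      have hr : (p.2 (j + 2) - s) / (p.2 j + p.2 (j + 2)) * (-p.2 j) +
          (s + p.2 j) / (p.2 j + p.2 (j + 2)) * p.2 (j + 2) = s := by field_simp; ring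
      have hr1 : (p.2 (j + 2) - s) / (p.2 j + p.2 (j + 2)) +
          (s + p.2 j) / (p.2 j + p.2 (j + 2)) = 1 := by field_simp; ring
      have hrc : (((p.2 (j + 2) - s) / (p.2 j + p.2 (j + 2)) : ℝ) : ℂ) * ((-p.2 j : ℝ) : ℂ) +
          (((s + p.2 j) / (p.2 j + p.2 (j + 2)) : ℝ) : ℂ) * (p.2 (j + 2) : ℂ) = (s : ℂ) := by
        rw [← Complex.ofReal_mul, ← Complex.ofReal_mul, ← Complex.ofReal_add, hr]
      have hr1c : (((p.2 (j + 2) - s) / (p.2 j + p.2 (j + 2)) : ℝ) : ℂ) +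
          (((s + p.2 j) / (p.2 j + p.2 (j + 2)) : ℝ) : ℂ) = 1 := by
        rw [← Complex.ofReal_add, hr1, Complex.ofReal_one]
      rw [hs]
      linear_combination (nu p (j + 2)) * hrc + ((p.2 (j + 1) : ℂ) * nu p (j + 1)) * hr1c

theorem f1_cor0 (θ : ℝ) : cor θ 0 = 0 := rfl
theorem f1_cor1 (θ : ℝ) : cor θ 1 = 1 := rfl
theorem f1_cor2 (θ : ℝ) : cor θ 2 = 1 + bb θ * Complex.I := rfl
theorem f1_cor3 (θ : ℝ) : cor θ 3 = bb θ * Complex.I := rfl

theorem f1_outer {θ : ℝ} (hb : 0 < bb θ) (x : ℂ) :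
    (x ∈ Rc θ ∧ x ∉ Ro θ) ↔ (x ∈ segment ℝ (cor θ 0) (cor θ 1) ∨
      x ∈ segment ℝ (cor θ 1) (cor θ 2) ∨ x ∈ segment ℝ (cor θ 2) (cor θ 3) ∨
      x ∈ segment ℝ (cor θ 3) (cor θ 0)) := by
  rw [f1_cor0, f1_cor1, f1_cor2, f1_cor3]
  have hbne : bb θ ≠ 0 := hb.ne'
  constructor
  · rintro ⟨⟨a1, a2, a3, a4⟩, hn⟩
    have : x.im = 0 ∨ x.re = 1 ∨ x.im = bb θ ∨ x.re = 0 := by
      by_contra hcon
      push Not at hcon
      obtain ⟨c1, c2, c3, c4⟩ := hcon
      exact hn ⟨lt_of_le_of_ne a1 (Ne.symm c4), lt_of_le_of_ne a2 c2,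
        lt_of_le_of_ne a3 (Ne.symm c1), lt_of_le_of_ne a4 c3⟩
    rcases this with h | h | h | h
    · left
      refine ⟨1 - x.re, x.re, by linarith, a1, by ring, ?_⟩
      apply Complex.ext
      · simp
      · simp [h]
    · right; left
      refine ⟨1 - x.im / bb θ, x.im / bb θ, ?_, by positivity, by ring, ?_⟩
      · rw [sub_nonneg, div_le_one hb]; exact a4
      · apply Complex.ext
        · simp [h]
        · simp; field_simp
    · right; right; left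
      refine ⟨x.re, 1 - x.re, a1, by linarith, by ring, ?_⟩
      apply Complex.ext
      · simp
      · simp [h]; ring
    · right; right; right
      refine ⟨x.im / bb θ, 1 - x.im / bb θ, by positivity, ?_, by ring, ?_⟩
      · rw [sub_nonneg, div_le_one hb]; exact a4
      · apply Complex.ext
        · simp [h]
        · simp; field_simp
  · rintro (⟨a, b, ha, hb', hab, rfl⟩ | ⟨a, b, ha, hb', hab, rfl⟩ | ⟨a, b, ha, hb', hab, rfl⟩ |
      ⟨a, b, ha, hb', hab, rfl⟩)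
    · refine ⟨⟨?_, ?_, ?_, ?_⟩, fun h => ?_⟩
      · simp; exact hb'
      · simp; linarith
      · simp
      · simp; exact hb.le
      · have := h.2.2.1; simp at this
    · refine ⟨⟨?_, ?_, ?_, ?_⟩, fun h => ?_⟩
      · simp; linarith
      · simp; linarith
      · simp; positivity
      · simp; nlinarith
      · have := h.2.1; simp at this; linarith
    · refine ⟨⟨?_, ?_, ?_, ?_⟩, fun h => ?_⟩
      · simp; linarith
      · simp; linarith
      · simp; positivity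
      · simp; nlinarith
      · have := h.2.2.2; simp at this; nlinarith
    · refine ⟨⟨?_, ?_, ?_, ?_⟩, fun h => ?_⟩
      · simp
      · simp
      · simp; positivity
      · simp; nlinarith
      · have := h.1; simp at this

theorem f1_frontier {θ : ℝ} (hθ : |θ - Real.pi / 4| < 1 / 100) {p : Par} (hp : p ∈ Pi0) (x : ℂ) :
    x ∈ frontier (Tb θ p) ↔ (x ∈ Rc θ ∧ x ∉ Ro θ) ∨ (x ∈ Q p ∧ ∃ j, dot x (nu p j) = p.2 j) := by
  rw [(f1_Tb_closed θ p).frontier_eq, f1_interior hp]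
  constructor
  · rintro ⟨⟨hx, j, hj⟩, hn⟩
    by_cases hR : x ∈ Ro θ
    · right
      have hq : x ∈ Q p := by
        by_contra hq
        exact hn ⟨hR, hq⟩
      exact ⟨hq, j, le_antisymm (hq j) hj⟩
    · exact Or.inl ⟨hx, hR⟩
  · rintro (⟨hx, hR⟩ | ⟨hq, j, hj⟩)
    · exact ⟨f1_G_Tb hx (fun h => hR (f1_Q_Ro hθ hp h)), fun h => hR h.1⟩
    · exact ⟨⟨f1_Ro_Rc (f1_Q_Ro hθ hp hq), j, hj.ge⟩, fun h => h.2 hq⟩

theorem f1_eight (i : Fin 8) : i = 0 ∨ i = 1 ∨ i = 2 ∨ i = 3 ∨ i = 4 ∨ i = 5 ∨ i = 6 ∨ i = 7 := by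
  revert i; decide

theorem f1_vtx_ne {p : Par} (hp : p ∈ Pi0) (j : Fin 4) : vtx p j ≠ vtx p (j + 1) := by
  intro h
  have h1 := vtx_sub p j
  rw [← h, sub_self] at h1
  have h2 := hp.2.2.1 j
  have h3 : ‖(0 : ℂ)‖ = ‖((p.2 j + p.2 (j + 2) : ℝ) : ℂ) * (Complex.I * nu p (j + 1))‖ := by
    rw [← h1]
  rw [norm_zero, norm_mul, norm_mul, nu_norm, Complex.norm_I, Complex.norm_real,
    Real.norm_eq_abs, abs_of_pos h2] at h3
  linarith

theorem polygon {θ : ℝ} (hθ : |θ - Real.pi / 4| < 1 / 100) {p : Par} (hp : p ∈ Pi0) :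
    BIL.IsPolygon (Tb θ p) (sa θ p) (sb θ p) := by
  have hb := f1_bb hθ
  have hb0 : 0 < bb θ := by linarith
  refine ⟨?_, ?_, ?_, ?_⟩
  · refine Metric.isCompact_of_isClosed_isBounded (f1_Tb_closed θ p) ?_
    refine (Metric.isBounded_closedBall (x := (0 : ℂ)) (r := 1 + bb θ)).subset ?_
    rintro x ⟨⟨a1, a2, a3, a4⟩, _⟩
    rw [mem_closedBall_zero_iff]
    refine (Complex.norm_le_abs_re_add_abs_im x).trans ?_
    rw [abs_of_nonneg a1, abs_of_nonneg a3]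
    linarith
  · rw [f1_interior hp]
    refine ⟨⟨1 / 10, 1 / 10⟩, ⟨?_, ?_, ?_, ?_⟩, fun h => ?_⟩
    · norm_num
    · norm_num
    · norm_num
    · change (1 / 10 : ℝ) < bb θ; linarith
    · have := (box hp h).1
      norm_num [abs_lt] at this
  · intro i
    rcases f1_eight i with rfl | rfl | rfl | rfl | rfl | rfl | rfl | rfl
    · change cor θ 0 ≠ cor θ 1
      rw [f1_cor0, f1_cor1]; exact zero_ne_one
    · change cor θ 1 ≠ cor θ 2
      rw [f1_cor1, f1_cor2]; intro h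
      have := congrArg Complex.im h
      simp at this
      linarith
    · change cor θ 2 ≠ cor θ 3
      rw [f1_cor2, f1_cor3]; intro h
      have := congrArg Complex.re h
      simp at this
    · change cor θ 3 ≠ cor θ 0
      rw [f1_cor3, f1_cor0]; intro h
      have := congrArg Complex.im h
      simp at this
      linarith
    · exact f1_vtx_ne hp 3
    · exact f1_vtx_ne hp 0
    · exact f1_vtx_ne hp 1
    · exact f1_vtx_ne hp 2
  · ext x
    rw [f1_frontier hθ hp, f1_outer hb0, mem_iUnion]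
    constructor
    · rintro ((h | h | h | h) | ⟨hq, j, hj⟩)
      · exact ⟨0, h⟩
      · exact ⟨1, h⟩
      · exact ⟨2, h⟩
      · exact ⟨3, h⟩
      · have ee : ∀ i : Fin 4, i = 0 ∨ i = 1 ∨ i = 2 ∨ i = 3 := by decide
        rcases ee j with rfl | rfl | rfl | rfl
        · exact ⟨4, (f1_side hp 3 x).mpr ⟨hq, hj⟩⟩
        · exact ⟨5, (f1_side hp 0 x).mpr ⟨hq, hj⟩⟩
        · exact ⟨6, (f1_side hp 1 x).mpr ⟨hq, hj⟩⟩
        · exact ⟨7, (f1_side hp 2 x).mpr ⟨hq, hj⟩⟩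
    · rintro ⟨i, hi⟩
      rcases f1_eight i with rfl | rfl | rfl | rfl | rfl | rfl | rfl | rfl
      · exact Or.inl (Or.inl hi)
      · exact Or.inl (Or.inr (Or.inl hi))
      · exact Or.inl (Or.inr (Or.inr (Or.inl hi)))
      · exact Or.inl (Or.inr (Or.inr (Or.inr hi)))
      · obtain ⟨h1, h2⟩ := (f1_side hp 3 x).mp hi
        exact Or.inr ⟨h1, _, h2⟩
      · obtain ⟨h1, h2⟩ := (f1_side hp 0 x).mp hi
        exact Or.inr ⟨h1, _, h2⟩
      · obtain ⟨h1, h2⟩ := (f1_side hp 1 x).mp hi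
        exact Or.inr ⟨h1, _, h2⟩
      · obtain ⟨h1, h2⟩ := (f1_side hp 2 x).mp hi
        exact Or.inr ⟨h1, _, h2⟩

end TMX
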