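import Pool.Agent.TMX.Basic
import Pool.Agent.TMX.F1

/-! # TMX [F2a]: billiard orbits follow free segments -/

set_option autoImplicit false

open Set Filter Topology

namespace TMX

theorem F2a_dir (v : ℂ) (α : BIL.Ang) : BIL.dir ((2 : ℕ) • BIL.ang v - α) =
    BIL.dir (BIL.ang v) ^ 2 * (starRingEnd ℂ) (BIL.dir α) := by
  unfold BIL.dir
  rw [sub_eq_add_neg, AddCircle.toCircle_add, two_nsmul, AddCircle.toCircle_add,
    AddCircle.toCircle_neg, Circle.coe_mul, Circle.coe_mul, Circle.coe_inv_eq_conj, sq]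

theorem F2a_ang (w : ℂ) : (‖w‖ : ℂ) * BIL.dir (BIL.ang w) = w := by
  unfold BIL.dir BIL.ang
  rw [AddCircle.toCircle_apply_mk]
  have h : (2 * Real.pi / (2 * Real.pi) * Complex.arg w : ℝ) = Complex.arg w := by
    rw [div_self Real.two_pi_pos.ne', one_mul]
  rw [h, Circle.coe_exp]
  exact Complex.norm_mul_exp_arg_mul_I w

theorem F2a_re {v : ℂ} (h : v.im = 0) (h0 : v.re ≠ 0) (α : BIL.Ang) :
    BIL.dir ((2 : ℕ) • BIL.ang v - α) = (starRingEnd ℂ) (BIL.dir α) := by
  have hv : v = (v.re : ℂ) := Complex.ext rfl (by simpa using h)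
  have h1 := F2a_ang v
  have h2 : (‖v‖ : ℂ) ^ 2 = (v.re : ℂ) ^ 2 := by
    conv_lhs => rw [hv]
    rw [Complex.norm_real, Real.norm_eq_abs, ← Complex.ofReal_pow, sq_abs, Complex.ofReal_pow]
  have h3 : (v.re : ℂ) ≠ 0 := Complex.ofReal_ne_zero.2 h0
  have h4 : (v.re : ℂ) ^ 2 * BIL.dir (BIL.ang v) ^ 2 = (v.re : ℂ) ^ 2 := by
    have h7 : ((‖v‖ : ℂ) * BIL.dir (BIL.ang v)) ^ 2 = v ^ 2 := by rw [h1]
    have h8 : v ^ 2 = (v.re : ℂ) ^ 2 := congrArg (· ^ 2) hv
    rw [mul_pow, h2] at h7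
    rw [h7, h8]
  have h5 : BIL.dir (BIL.ang v) ^ 2 = 1 := by
    have h6 : (v.re : ℂ) ^ 2 ≠ 0 := pow_ne_zero 2 h3
    exact mul_left_cancel₀ h6 (h4.trans (mul_one _).symm)
  rw [F2a_dir, h5, one_mul]

theorem F2a_im {v : ℂ} (h : v.re = 0) (h0 : v.im ≠ 0) (α : BIL.Ang) :
    BIL.dir ((2 : ℕ) • BIL.ang v - α) = -(starRingEnd ℂ) (BIL.dir α) := by
  have hv : v = (v.im : ℂ) * Complex.I := by
    apply Complex.ext <;> simp [h]
  have h1 := F2a_ang v
  have h2 : (‖v‖ : ℂ) ^ 2 = (v.im : ℂ) ^ 2 := by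
    conv_lhs => rw [hv]
    rw [norm_mul, Complex.norm_I, mul_one, Complex.norm_real, Real.norm_eq_abs,
      ← Complex.ofReal_pow, sq_abs, Complex.ofReal_pow]
  have h3 : (v.im : ℂ) ≠ 0 := Complex.ofReal_ne_zero.2 h0
  have h4 : (v.im : ℂ) ^ 2 * BIL.dir (BIL.ang v) ^ 2 = (v.im : ℂ) ^ 2 * (-1) := by
    have h7 : ((‖v‖ : ℂ) * BIL.dir (BIL.ang v)) ^ 2 = v ^ 2 := by rw [h1]
    have h8 : v ^ 2 = (v.im : ℂ) ^ 2 * (-1) := by
      have := congrArg (· ^ 2) hv
      simp only [mul_pow, Complex.I_sq] at this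
      exact this
    rw [mul_pow, h2] at h7
    rw [h7, h8]
  have h5 : BIL.dir (BIL.ang v) ^ 2 = -1 := by
    have h6 : (v.im : ℂ) ^ 2 ≠ 0 := pow_ne_zero 2 h3
    exact mul_left_cancel₀ h6 h4
  rw [F2a_dir, h5, neg_one_mul]

theorem F2a_bb {θ : ℝ} (hθ : |θ - Real.pi / 4| < 1 / 100) : 0 < bb θ := by
  have h1 := abs_lt.1 hθ
  have h2 := Real.pi_gt_three
  have h3 := Real.pi_lt_d2
  exact Real.tan_pos_of_pos_of_lt_pi_div_two (by linarith) (by linarith)

theorem F2a_vtx {p : Par} (hp : p ∈ Pi0) (j : Fin 4) : vtx p j ∈ Q p := by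
  intro k
  have h := hp.2.2.1
  have e : k = j ∨ k = j + 1 ∨ k = j + 2 ∨ k = j + 3 := by
    revert j k
    decide
  rcases e with rfl | rfl | rfl | rfl
  · rw [dot_vtx_self]
  · rw [dot_vtx_succ]
  · rw [dot_vtx_two]
    have := h j
    linarith
  · rw [dot_vtx_three]
    have := h (j + 1)
    have e1 : j + 1 + 2 = j + 3 := by rw [add_assoc]; rfl
    rw [e1] at this
    linarith

theorem F2a_seg {p : Par} {x y z : ℂ} (hx : x ∈ Q p) (hy : y ∈ Q p)
    (hz : z ∈ openSegment ℝ x y) : z ∈ Q p := by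
  obtain ⟨a, b, ha, hb, hab, rfl⟩ := hz
  intro j
  have h1 := hx j
  have h2 := hy j
  rw [Complex.real_smul, Complex.real_smul, dot_add_left, dot_mul_left, dot_mul_left]
  have h3 : p.2 j = a * p.2 j + b * p.2 j := by rw [← add_mul, hab, one_mul]
  rw [h3]
  exact add_le_add (mul_le_mul_of_nonneg_left h1 ha.le) (mul_le_mul_of_nonneg_left h2 hb.le)

theorem F2a_cases : ∀ i : Fin 8, 4 ≤ i.val → i = 4 ∨ i = 5 ∨ i = 6 ∨ i = 7 := by
  decide

/-- small steps -/
theorem F2a_small {a u : ℝ} (h0 : 0 < a) {b : ℝ} (hb : a < b) :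
    ∀ᶠ r : ℝ in 𝓝[>] (0 : ℝ), 0 < a + r * u ∧ a + r * u < b := by
  have hc : ContinuousAt (fun r : ℝ => a + r * u) 0 := by fun_prop
  have h1 : Tendsto (fun r : ℝ => a + r * u) (𝓝[>] (0 : ℝ)) (𝓝 a) := by
    have := hc.tendsto
    simp only [zero_mul, add_zero] at this
    exact this.mono_left nhdsWithin_le_nhds
  exact (h1.eventually (lt_mem_nhds h0)).and (h1.eventually (gt_mem_nhds hb))

/-- arrival at the level `0` from above -/
theorem F2a_up {u : ℝ} {r₀ : ℝ} (hr : 0 < r₀) (h : ∀ r ∈ Ioo 0 r₀, 0 ≤ -(r * u)) : u ≤ 0 := by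
  have := h (r₀ / 2) ⟨by linarith, by linarith⟩
  by_contra hu
  push Not at hu
  nlinarith [mul_pos (half_pos hr) hu]

theorem F2a_side {θ : ℝ} (hb : 0 < bb θ) (p : Par) (i : Fin 8) (hi : i.val < 4) {y : ℂ}
    (hy : y ∈ openSegment ℝ (sa θ p i) (sb θ p i)) :
    ∃ e : Cp, frm θ e y = y ∧ (∀ α : BIL.Ang, BIL.dir ((2 : ℕ) • BIL.ang (sb θ p i - sa θ p i) - α) =
      act e.1 (BIL.dir α)) ∧
      ∀ u : ℂ, (∃ r₀ > 0, ∀ r ∈ Ioo (0 : ℝ) r₀, y - r * u ∈ Rc θ ∧
        y - r * u ∉ segment ℝ (sa θ p i) (sb θ p i)) →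
        ∀ᶠ r : ℝ in 𝓝[>] (0 : ℝ), y + r * act e.1 u ∈ Rc θ := by
  have hpos : ∀ᶠ r : ℝ in 𝓝[>] (0 : ℝ), 0 < r := eventually_mem_nhdsWithin
  obtain ⟨a, b, ha, hb', hab, rfl⟩ := hy
  have hi' : i = 0 ∨ i = 1 ∨ i = 2 ∨ i = 3 := by
    revert i
    decide
  rcases hi' with rfl | rfl | rfl | rfl
  · -- lower side
    have ea : sa θ p 0 = 0 := rfl
    have eb : sb θ p 0 = 1 := rfl
    rw [ea, eb]
    have hy1 : (a • (0 : ℂ) + b • (1 : ℂ)).re = b := by simp
    have hy2 : (a • (0 : ℂ) + b • (1 : ℂ)).im = 0 := by simp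
    generalize a • (0 : ℂ) + b • (1 : ℂ) = y at hy1 hy2
    refine ⟨((1, -1), (0, 0)), ?_, fun α => ?_, fun u hu => ?_⟩
    · apply Complex.ext <;> simp [frm, act, lat, hy2]
    · rw [F2a_re (by simp) (by simp)]
      apply Complex.ext <;> simp [act]
    · obtain ⟨r₀, hr₀, hu⟩ := hu
      have h1 : u.im ≤ 0 := F2a_up hr₀ fun r hr => by
        have := (hu r hr).1.2.2.1
        simpa [hy2] using this
      have h2 : u.im ≠ 0 := by
        intro h0
        have h3 := hu (r₀ / 2) ⟨by linarith, by linarith⟩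
        apply h3.2
        refine ⟨1 - (y - ((r₀ / 2 : ℝ) : ℂ) * u).re, (y - ((r₀ / 2 : ℝ) : ℂ) * u).re,
          sub_nonneg.2 h3.1.2.1, h3.1.1, by ring, ?_⟩
        apply Complex.ext
        · simp
        · simp [hy2, h0]
      have h3 : u.im < 0 := lt_of_le_of_ne h1 h2
      filter_upwards [hpos, F2a_small (u := u.re) (by rw [hy1]; exact hb' : 0 < y.re)
        (by rw [hy1]; linarith : y.re < 1), F2a_small (u := -u.im) (b := bb θ) (half_pos hb)
        (by linarith)] with r hr h4 h5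
      have h6 : (y + (r : ℂ) * act ((1, -1) : Sg) u).re = y.re + r * u.re := by simp [act]
      have h7 : (y + (r : ℂ) * act ((1, -1) : Sg) u).im = r * -u.im := by simp [act, hy2]
      have h8 : 0 < r * -u.im := mul_pos hr (by linarith)
      refine ⟨?_, ?_, ?_, ?_⟩
      · rw [h6]; exact h4.1.le
      · rw [h6]; exact h4.2.le
      · rw [h7]; exact h8.le
      · rw [h7]; linarith [h5.2]
  · -- right side
    have ea : sa θ p 1 = 1 := rfl
    have eb : sb θ p 1 = 1 + bb θ * Complex.I := rfl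
    rw [ea, eb]
    have hy1 : (a • (1 : ℂ) + b • (1 + bb θ * Complex.I : ℂ)).re = 1 := by simp [hab]
    have hy2 : (a • (1 : ℂ) + b • (1 + bb θ * Complex.I : ℂ)).im = b * bb θ := by simp
    generalize a • (1 : ℂ) + b • (1 + bb θ * Complex.I : ℂ) = y at hy1 hy2
    have hy3 : 0 < y.im := by rw [hy2]; positivity
    have hy4 : y.im < bb θ := by rw [hy2]; nlinarith
    refine ⟨((-1, 1), (1, 0)), ?_, fun α => ?_, fun u hu => ?_⟩
    · apply Complex.ext
      · simp [frm, act, lat, hy1]; norm_num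
      · simp [frm, act, lat]
    · rw [F2a_im (by simp) (by simp; exact hb.ne')]
      apply Complex.ext <;> simp [act]
    · obtain ⟨r₀, hr₀, hu⟩ := hu
      have h1 : -u.re ≤ 0 := F2a_up hr₀ fun r hr => by
        have := (hu r hr).1.2.1
        simp [hy1] at this
        simpa using this
      have h2 : u.re ≠ 0 := by
        intro h0
        have h3 := hu (r₀ / 2) ⟨by linarith, by linarith⟩
        apply h3.2
        have h4 : (y - ((r₀ / 2 : ℝ) : ℂ) * u).im / bb θ ≤ 1 := (div_le_one hb).2 h3.1.2.2.2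
        refine ⟨1 - (y - ((r₀ / 2 : ℝ) : ℂ) * u).im / bb θ, (y - ((r₀ / 2 : ℝ) : ℂ) * u).im / bb θ,
          sub_nonneg.2 h4, div_nonneg h3.1.2.2.1 hb.le, by ring, ?_⟩
        apply Complex.ext
        · simp [hy1, h0]
        · simp only [Complex.real_smul, Complex.add_im, Complex.mul_im, Complex.ofReal_re,
            Complex.ofReal_im, Complex.one_im, Complex.one_re, Complex.I_re, Complex.I_im]
          field_simp
          simp
      have h3 : 0 < u.re := lt_of_le_of_ne (by linarith) h2.symm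
      filter_upwards [hpos, F2a_small (u := u.im) hy3 hy4,
        F2a_small (u := u.re) (b := 1) (half_pos one_pos) (by norm_num)] with r hr h4 h5
      have h6 : (y + (r : ℂ) * act ((-1, 1) : Sg) u).im = y.im + r * u.im := by simp [act]
      have h7 : (y + (r : ℂ) * act ((-1, 1) : Sg) u).re = 1 - r * u.re := by
        simp [act, hy1]; ring
      have h8 : 0 < r * u.re := mul_pos hr h3
      refine ⟨?_, ?_, ?_, ?_⟩
      · rw [h7]; linarith [h5.2]
      · rw [h7]; linarith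
      · rw [h6]; exact h4.1.le
      · rw [h6]; exact h4.2.le
  · -- upper side
    have ea : sa θ p 2 = 1 + bb θ * Complex.I := rfl
    have eb : sb θ p 2 = bb θ * Complex.I := rfl
    rw [ea, eb]
    have hy1 : (a • (1 + bb θ * Complex.I : ℂ) + b • (bb θ * Complex.I : ℂ)).re = a := by simp
    have hy2 : (a • (1 + bb θ * Complex.I : ℂ) + b • (bb θ * Complex.I : ℂ)).im = bb θ := by
      simp only [Complex.real_smul, Complex.add_im, Complex.mul_im, Complex.ofReal_re,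
        Complex.ofReal_im, Complex.one_im, Complex.one_re, Complex.I_re, Complex.I_im,
        Complex.add_re, Complex.mul_re]
      linear_combination (bb θ) * hab
    generalize a • (1 + bb θ * Complex.I : ℂ) + b • (bb θ * Complex.I : ℂ) = y at hy1 hy2
    refine ⟨((1, -1), (0, 1)), ?_, fun α => ?_, fun u hu => ?_⟩
    · apply Complex.ext
      · simp [frm, act, lat]
      · simp [frm, act, lat, hy2]; ring
    · rw [F2a_re (by simp) (by simp)]
      apply Complex.ext <;> simp [act]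
    · obtain ⟨r₀, hr₀, hu⟩ := hu
      have h1 : -u.im ≤ 0 := F2a_up hr₀ fun r hr => by
        have := (hu r hr).1.2.2.2
        simp [hy2] at this
        simpa using this
      have h2 : u.im ≠ 0 := by
        intro h0
        have h3 := hu (r₀ / 2) ⟨by linarith, by linarith⟩
        apply h3.2
        refine ⟨(y - ((r₀ / 2 : ℝ) : ℂ) * u).re, 1 - (y - ((r₀ / 2 : ℝ) : ℂ) * u).re,
          h3.1.1, sub_nonneg.2 h3.1.2.1, by ring, ?_⟩
        apply Complex.ext
        · simp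
        · simp only [Complex.real_smul, Complex.add_im, Complex.mul_im, Complex.ofReal_re,
            Complex.ofReal_im, Complex.one_im, Complex.one_re, Complex.I_re, Complex.I_im,
            Complex.add_re, Complex.mul_re, Complex.sub_im, hy2, h0]
          ring
      have h3 : 0 < u.im := lt_of_le_of_ne (by linarith) h2.symm
      filter_upwards [hpos, F2a_small (u := u.re) (by rw [hy1]; exact ha : 0 < y.re)
        (by rw [hy1]; linarith : y.re < 1), F2a_small (u := u.im) (b := bb θ) (half_pos hb)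
        (by linarith)] with r hr h4 h5
      have h6 : (y + (r : ℂ) * act ((1, -1) : Sg) u).re = y.re + r * u.re := by simp [act]
      have h7 : (y + (r : ℂ) * act ((1, -1) : Sg) u).im = bb θ - r * u.im := by
        simp [act, hy2]; ring
      have h8 : 0 < r * u.im := mul_pos hr h3
      refine ⟨?_, ?_, ?_, ?_⟩
      · rw [h6]; exact h4.1.le
      · rw [h6]; exact h4.2.le
      · rw [h7]; linarith [h5.2]
      · rw [h7]; linarith
  · -- left side
    have ea : sa θ p 3 = bb θ * Complex.I := rfl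
    have eb : sb θ p 3 = 0 := rfl
    rw [ea, eb]
    have hy1 : (a • (bb θ * Complex.I : ℂ) + b • (0 : ℂ)).re = 0 := by simp
    have hy2 : (a • (bb θ * Complex.I : ℂ) + b • (0 : ℂ)).im = a * bb θ := by simp
    generalize a • (bb θ * Complex.I : ℂ) + b • (0 : ℂ) = y at hy1 hy2
    have hy3 : 0 < y.im := by rw [hy2]; positivity
    have hy4 : y.im < bb θ := by rw [hy2]; nlinarith
    refine ⟨((-1, 1), (0, 0)), ?_, fun α => ?_, fun u hu => ?_⟩
    · apply Complex.ext <;> simp [frm, act, lat, hy1]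
    · rw [F2a_im (by simp) (by simp; exact hb.ne')]
      apply Complex.ext <;> simp [act]
    · obtain ⟨r₀, hr₀, hu⟩ := hu
      have h1 : u.re ≤ 0 := F2a_up hr₀ fun r hr => by
        have := (hu r hr).1.1
        simpa [hy1] using this
      have h2 : u.re ≠ 0 := by
        intro h0
        have h3 := hu (r₀ / 2) ⟨by linarith, by linarith⟩
        apply h3.2
        have h4 : (y - ((r₀ / 2 : ℝ) : ℂ) * u).im / bb θ ≤ 1 := (div_le_one hb).2 h3.1.2.2.2
        refine ⟨(y - ((r₀ / 2 : ℝ) : ℂ) * u).im / bb θ, 1 - (y - ((r₀ / 2 : ℝ) : ℂ) * u).im / bb θ,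
          div_nonneg h3.1.2.2.1 hb.le, sub_nonneg.2 h4, by ring, ?_⟩
        apply Complex.ext
        · simp [hy1, h0]
        · simp only [Complex.real_smul, Complex.add_im, Complex.mul_im, Complex.ofReal_re,
            Complex.ofReal_im, Complex.I_re, Complex.I_im]
          field_simp
          simp
      have h3 : u.re < 0 := lt_of_le_of_ne h1 h2
      filter_upwards [hpos, F2a_small (u := u.im) hy3 hy4,
        F2a_small (u := -u.re) (b := 1) (half_pos one_pos) (by norm_num)] with r hr h4 h5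
      have h6 : (y + (r : ℂ) * act ((-1, 1) : Sg) u).im = y.im + r * u.im := by simp [act]
      have h7 : (y + (r : ℂ) * act ((-1, 1) : Sg) u).re = r * -u.re := by
        simp [act, hy1]
      have h8 : 0 < r * -u.re := mul_pos hr (by linarith)
      refine ⟨?_, ?_, ?_, ?_⟩
      · rw [h7]; linarith
      · rw [h7]; linarith [h5.2]
      · rw [h6]; exact h4.1.le
      · rw [h6]; exact h4.2.le

section

variable {θ : ℝ} {p : Par} {γ : ℝ → ℂ × BIL.Ang}
  (hγ : BIL.IsOrbit (Tb θ p) (sa θ p) (sb θ p) γ)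

include hγ

/-- the frontier times are isolated -/
theorem F2a_iso (T : ℝ) : ∃ ε > 0, ∀ τ : ℝ, |τ - T| < ε → τ ≠ T →
    (γ τ).1 ∉ frontier (Tb θ p) := by
  have hf : ({τ | τ ∈ Icc (T - 1) (T + 1) ∧ (γ τ).1 ∈ frontier (Tb θ p)} \ {T}).Finite :=
    (hγ.finite (T - 1) (T + 1)).subset fun τ hτ => hτ.1
  have h1 : ({τ | τ ∈ Icc (T - 1) (T + 1) ∧ (γ τ).1 ∈ frontier (Tb θ p)} \ {T})ᶜ ∈ 𝓝 T :=
    hf.isClosed.isOpen_compl.mem_nhds fun h => h.2 rfl
  obtain ⟨ε, hε, h2⟩ := Metric.mem_nhds_iff.1 h1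
  refine ⟨min ε 1, lt_min hε one_pos, fun τ hτ hne hfr => ?_⟩
  have h3 : τ ∈ Metric.ball T ε := by
    rw [Metric.mem_ball, Real.dist_eq]
    exact hτ.trans_le (min_le_left _ _)
  have h4 := abs_lt.1 (hτ.trans_le (min_le_right _ _))
  exact h2 h3 ⟨⟨⟨by linarith, by linarith⟩, hfr⟩, hne⟩

theorem F2a_right {x w : ℂ} {T : ℝ} (h : Rel θ (γ T) (x, w)) :
    ∃ ε > 0, ∀ r : ℝ, 0 ≤ r → r < ε → Rel θ (γ (T + r)) (x + r * w, w) := by
  obtain ⟨c, h1, h2, h3⟩ := h
  obtain ⟨ε₁, hε₁, h4⟩ := F2a_iso hγ T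
  obtain ⟨ε₂, hε₂, h5⟩ := (mem_nhdsGT_iff_exists_Ioo_subset).1 h3
  rw [mem_Ioi] at hε₂
  refine ⟨min ε₁ ε₂, lt_min hε₁ hε₂, fun r hr0 hr => ?_⟩
  have hr1 := hr.trans_le (min_le_left _ _)
  have hr2 := hr.trans_le (min_le_right _ _)
  have h6 := hγ.free T (T + r) (by linarith) fun τ hτ => h4 τ
    (abs_lt.2 ⟨by linarith [hτ.1], by linarith [hτ.2]⟩) hτ.1.ne'
  refine ⟨c, ?_, ?_, ?_⟩
  · show (γ (T + r)).1 = frm θ c (x + r * w)
    rw [h6.2, h1, h2, frm_ray]
    push_cast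
    ring
  · show BIL.dir (γ (T + r)).2 = act c.1 w
    rw [h6.1]
    exact h2
  · show ∀ᶠ s : ℝ in 𝓝[>] (0 : ℝ), frm θ c (x + r * w + s * w) ∈ Rc θ
    filter_upwards [Ioo_mem_nhdsGT (by linarith : (0 : ℝ) < ε₂ - r)] with s hs
    have h7 := h5 (show r + s ∈ Ioo 0 ε₂ from ⟨by linarith [hs.1], by linarith [hs.2]⟩)
    have h8 : x + r * w + s * w = x + ((r + s : ℝ) : ℂ) * w := by push_cast; ring
    rw [h8]
    exact h7

theorem F2a_left (hθ : |θ - Real.pi / 4| < 1 / 100) (hp : p ∈ Pi0) {x w : ℂ} {T ε : ℝ}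
    (hε : 0 < ε) (h : ∀ r : ℝ, 0 < r → r < ε → Rel θ (γ (T - r)) (x - r * w, w))
    (hx : Fre θ p x) : Rel θ (γ T) (x, w) := by
  obtain ⟨ε₁, hε₁, h4⟩ := F2a_iso hγ T
  set r₁ := min ε ε₁ / 2 with hr₁
  have hm : 0 < min ε ε₁ := lt_min hε hε₁
  have hr0 : 0 < r₁ := half_pos hm
  have hrε : r₁ < ε := by
    have := min_le_left ε ε₁
    rw [hr₁]; linarith
  have hrε₁ : r₁ < ε₁ := by
    have := min_le_right ε ε₁
    rw [hr₁]; linarith
  obtain ⟨c, h1, h2, -⟩ := h r₁ hr0 hrε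
  change (γ (T - r₁)).1 = frm θ c (x - r₁ * w) at h1
  change BIL.dir (γ (T - r₁)).2 = act c.1 w at h2
  set y := frm θ c x with hy
  set u := act c.1 w with hu
  have hfr : ∀ v : ℂ, ∀ r : ℝ, frm θ c (x + r * w) = y + r * u := fun _ r => frm_ray θ c x w r
  have h1' : (γ (T - r₁)).1 = y - r₁ * u := by
    have e : x - r₁ * w = x + ((-r₁ : ℝ) : ℂ) * w := by push_cast; ring
    rw [h1, e, frm_ray]
    push_cast
    ring
  have hnf : ∀ τ, T - r₁ < τ → τ < T → (γ τ).1 ∉ frontier (Tb θ p) := fun τ ha hb =>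
    h4 τ (abs_lt.2 ⟨by linarith, by linarith⟩) hb.ne
  have hpos : ∀ r : ℝ, 0 < r → r ≤ r₁ → (γ (T - r)).1 = y - r * u ∧
      (γ (T - r)).2 = (γ (T - r₁)).2 := by
    intro r ha hb
    have h5 := hγ.free (T - r₁) (T - r) (by linarith) fun τ hτ =>
      hnf τ hτ.1 (by linarith [hτ.2])
    refine ⟨?_, h5.1⟩
    rw [h5.2, h1', h2]
    push_cast
    ring
  have hlim : (γ T).1 = y := by
    have ht1 : Tendsto (fun r : ℝ => (γ (T - r)).1) (𝓝[>] 0) (𝓝 (γ T).1) := by
      have hc : ContinuousAt (fun r : ℝ => (γ (T - r)).1) 0 :=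
        (hγ.cont.comp (continuous_const.sub continuous_id)).continuousAt
      have := hc.tendsto
      simp only [sub_zero] at this
      exact this.mono_left nhdsWithin_le_nhds
    have ht2 : Tendsto (fun r : ℝ => y - (r : ℂ) * u) (𝓝[>] 0) (𝓝 y) := by
      have hc : ContinuousAt (fun r : ℝ => y - (r : ℂ) * u) 0 := by fun_prop
      have := hc.tendsto
      simp only [Complex.ofReal_zero, zero_mul, sub_zero] at this
      exact this.mono_left nhdsWithin_le_nhds
    refine tendsto_nhds_unique ht1 (ht2.congr' ?_)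
    filter_upwards [Ioo_mem_nhdsGT hr0] with r hr
    exact (hpos r hr.1 hr.2.le).1.symm
  have hRc : ∀ z ∈ Tb θ p, z ∈ Rc θ := fun z hz => hz.1
  by_cases hF : (γ T).1 ∈ frontier (Tb θ p)
  · obtain ⟨i, hi1, -, ε₃, hε₃, hi3⟩ := hγ.refl T hF
    rw [hlim] at hi1
    have hi4 : i.val < 4 := by
      by_contra hcon
      push Not at hcon
      apply hx c
      show y ∈ Q p
      rcases F2a_cases i hcon with rfl | rfl | rfl | rfl
      · exact F2a_seg (F2a_vtx hp 3) (F2a_vtx hp 0) hi1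
      · exact F2a_seg (F2a_vtx hp 0) (F2a_vtx hp 1) hi1
      · exact F2a_seg (F2a_vtx hp 1) (F2a_vtx hp 2) hi1
      · exact F2a_seg (F2a_vtx hp 2) (F2a_vtx hp 3) hi1
    obtain ⟨e, he1, he2, he3⟩ := F2a_side (F2a_bb hθ) p i hi4 hi1
    have he4 := he3 u ⟨r₁, hr0, fun r hr => by
      have h6 := hpos r hr.1 hr.2.le
      have h7 : (γ (T - r)).1 ∉ frontier (Tb θ p) := hnf _ (by linarith [hr.2]) (by linarith [hr.1])
      rw [h6.1] at h7
      refine ⟨?_, fun h8 => h7 ?_⟩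
      · rw [← h6.1]
        exact hRc _ (hγ.mem _)
      · rw [(polygon hθ hp).frontier_eq]
        exact mem_iUnion.2 ⟨i, h8⟩⟩
    have h8 : (γ T).2 = (2 : ℕ) • BIL.ang (sb θ p i - sa θ p i) - (γ (T - r₁)).2 := by
      set r := min r₁ (ε₃ / 2) with hr
      have hr2 : 0 < r := lt_min hr0 (half_pos hε₃)
      have hr3 : r ≤ r₁ := min_le_left _ _
      have hr4 : r ≤ ε₃ / 2 := min_le_right _ _
      have h9 := hi3 (T - r) ⟨by linarith, by linarith⟩
      rw [h9, (hpos r hr2 hr3).2]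
    refine ⟨cmp c e, ?_, ?_, ?_⟩
    · show (γ T).1 = frm θ (cmp c e) x
      rw [← frm_frm, hlim, ← hy, he1]
    · show BIL.dir (γ T).2 = act (cmp c e).1 w
      rw [h8, he2, h2, hu, act_act, mul_comm e.1 c.1]
      rfl
    · show ∀ᶠ s : ℝ in 𝓝[>] (0 : ℝ), frm θ (cmp c e) (x + s * w) ∈ Rc θ
      filter_upwards [he4] with s hs
      rw [← frm_frm, hfr 0 s, frm_ray, he1]
      exact hs
  · have h5 := hγ.free (T - r₁) T (by linarith) fun τ hτ => by
      rcases lt_or_eq_of_le hτ.2 with h6 | h6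
      · exact hnf τ hτ.1 h6
      · rw [h6]; exact hF
    refine ⟨c, ?_, ?_, ?_⟩
    · exact hlim
    · show BIL.dir (γ T).2 = act c.1 w
      rw [h5.1]
      exact h2
    · show ∀ᶠ s : ℝ in 𝓝[>] (0 : ℝ), frm θ c (x + s * w) ∈ Rc θ
      have hint : y ∈ interior (Tb θ p) := by
        rw [← hlim]
        by_contra hcon
        exact hF ⟨subset_closure (hγ.mem T), hcon⟩
      have ht : Tendsto (fun s : ℝ => y + (s : ℂ) * u) (𝓝[>] 0) (𝓝 y) := by
        have hc : ContinuousAt (fun r : ℝ => y + (r : ℂ) * u) 0 := by fun_prop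
        have := hc.tendsto
        simp only [Complex.ofReal_zero, zero_mul, add_zero] at this
        exact this.mono_left nhdsWithin_le_nhds
      filter_upwards [ht.eventually (mem_interior_iff_mem_nhds.1 hint)] with s hs
      rw [hfr 0 s]
      exact hRc _ hs

end

/-- [F2a] billiard orbits follow free segments. -/
theorem follow_free {θ : ℝ} (hθ : |θ - Real.pi / 4| < 1 / 100) {p : Par} (hp : p ∈ Pi0)
    {γ : ℝ → ℂ × BIL.Ang} (hγ : BIL.IsOrbit (Tb θ p) (sa θ p) (sb θ p) γ) {x w : ℂ}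
    (hw : ‖w‖ = 1) {t₀ t₁ : ℝ} (h0 : Rel θ (γ t₀) (x, w))
    (hf : ∀ s : ℝ, 0 < s → s ≤ t₁ → Fre θ p (x + s * w)) :
    ∀ s : ℝ, 0 ≤ s → s ≤ t₁ → Rel θ (γ (t₀ + s)) (x + s * w, w) := by
  by_cases ht : t₁ < 0
  · intro s h1 h2
    linarith
  push Not at ht
  set A : Set ℝ := {s | 0 ≤ s ∧ s ≤ t₁ ∧ ∀ s', 0 ≤ s' → s' ≤ s →
    Rel θ (γ (t₀ + s')) (x + s' * w, w)} with hA
  have hz : Rel θ (γ (t₀ + 0)) (x + ((0 : ℝ) : ℂ) * w, w) := by
    rw [add_zero, Complex.ofReal_zero, zero_mul, add_zero]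
    exact h0
  have hA0 : (0 : ℝ) ∈ A := ⟨le_rfl, ht, fun s' ha hb => by
    have : s' = 0 := le_antisymm hb ha
    rw [this]
    exact hz⟩
  have hAb : BddAbove A := ⟨t₁, fun s hs => hs.2.1⟩
  set S := sSup A with hS
  have hS0 : 0 ≤ S := le_csSup hAb hA0
  have hS1 : S ≤ t₁ := csSup_le ⟨0, hA0⟩ fun s hs => hs.2.1
  have hlt : ∀ s', 0 ≤ s' → s' < S → Rel θ (γ (t₀ + s')) (x + s' * w, w) := by
    intro s' ha hb
    obtain ⟨a, haA, hab⟩ := exists_lt_of_lt_csSup ⟨0, hA0⟩ hb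
    exact haA.2.2 s' ha hab.le
  have hRS : Rel θ (γ (t₀ + S)) (x + S * w, w) := by
    rcases hS0.eq_or_lt with h | h
    · rw [← h]
      exact hz
    · refine F2a_left hγ hθ hp h (fun r hr1 hr2 => ?_) (hf S h hS1)
      have h1 := hlt (S - r) (by linarith) (by linarith)
      have e1 : t₀ + S - r = t₀ + (S - r) := by ring
      have e2 : x + S * w - r * w = x + ((S - r : ℝ) : ℂ) * w := by push_cast; ring
      rw [e1, e2]
      exact h1
  have hSA : S ∈ A := ⟨hS0, hS1, fun s' ha hb => by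
    rcases hb.eq_or_lt with h | h
    · rw [h]; exact hRS
    · exact hlt s' ha h⟩
  have hSt : S = t₁ := by
    by_contra hne
    have hlt' : S < t₁ := lt_of_le_of_ne hS1 hne
    obtain ⟨ε, hε, h1⟩ := F2a_right hγ hRS
    set d := min (ε / 2) (t₁ - S) with hd
    have hd0 : 0 < d := lt_min (half_pos hε) (by linarith)
    have hd1 : d ≤ ε / 2 := min_le_left _ _
    have hd2 : d ≤ t₁ - S := min_le_right _ _
    have hmem : S + d ∈ A := by
      refine ⟨by linarith, by linarith, fun s' ha hb => ?_⟩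
      rcases le_or_gt s' S with h | h
      · exact hSA.2.2 s' ha h
      · have h2 := h1 (s' - S) (by linarith) (by linarith)
        have e1 : t₀ + S + (s' - S) = t₀ + s' := by ring
        have e2 : x + S * w + ((s' - S : ℝ) : ℂ) * w = x + s' * w := by push_cast; ring
        rw [e1, e2] at h2
        exact h2
    have := le_csSup hAb hmem
    linarith
  intro s h1 h2
  exact hSA.2.2 s h1 (by rw [hSt]; exact h2)

end TMX
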