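import Pool.Agent.TMX.Basic
import Pool.Agent.TMX.F1
import Pool.Agent.TMX.F2a
import Pool.Agent.TMX.G1
import Pool.Agent.TMX.G2

/-! # TMX, row F2b: billiard orbits follow legs and plane paths -/

set_option autoImplicit false

open Set Filter Topology

namespace TMX

namespace F2b

theorem bb_pos {θ : ℝ} (hθ : |θ - Real.pi / 4| < 1 / 100) : 0 < bb θ := by
  unfold bb
  have h := abs_lt.mp hθ
  have hp := Real.pi_gt_three
  apply Real.tan_pos_of_pos_of_lt_pi_div_two <;> linarith [h.1, h.2]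

theorem cell1 {L : ℝ} (hL : 0 < L) {e e' : ℤˣ} {m m' : ℤ} {y : ℝ}
    (h0 : 0 ≤ ((e : ℤ) : ℝ) * (y - 2 * L * m)) (h1 : ((e : ℤ) : ℝ) * (y - 2 * L * m) ≤ L)
    (h0' : 0 < ((e' : ℤ) : ℝ) * (y - 2 * L * m')) (h1' : ((e' : ℤ) : ℝ) * (y - 2 * L * m') < L) :
    e = e' ∧ m = m' := by
  rcases lt_trichotomy m m' with h | h | h
  · exfalso
    have hm : (m : ℝ) + 1 ≤ m' := by exact_mod_cast h
    have hm' : L * ((m : ℝ) + 1) ≤ L * m' := mul_le_mul_of_nonneg_left hm hL.le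
    rcases Int.units_eq_one_or e with rfl | rfl <;> rcases Int.units_eq_one_or e' with rfl | rfl <;>
      push_cast at h0 h1 h0' h1' <;> nlinarith
  · subst h
    refine ⟨?_, rfl⟩
    rcases Int.units_eq_one_or e with rfl | rfl <;> rcases Int.units_eq_one_or e' with rfl | rfl <;>
      push_cast at h0 h1 h0' h1' <;> first | rfl | (exfalso; linarith)
  · exfalso
    have hm : (m' : ℝ) + 1 ≤ m := by exact_mod_cast h
    have hm' : L * ((m' : ℝ) + 1) ≤ L * m := mul_le_mul_of_nonneg_left hm hL.le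
    rcases Int.units_eq_one_or e with rfl | rfl <;> rcases Int.units_eq_one_or e' with rfl | rfl <;>
      push_cast at h0 h1 h0' h1' <;> nlinarith

theorem cell_unique {θ : ℝ} (hb : 0 < bb θ) {c c' : Cp} {y : ℂ} (h : frm θ c y ∈ Rc θ)
    (h' : frm θ c' y ∈ Ro θ) : c = c' := by
  obtain ⟨⟨d1, d2⟩, ⟨m1, m2⟩⟩ := c
  obtain ⟨⟨d1', d2'⟩, ⟨m1', m2'⟩⟩ := c'
  obtain ⟨a1, a2, a3, a4⟩ := h
  obtain ⟨b1, b2, b3, b4⟩ := h'
  simp only [frm, act, lat, Complex.sub_re, Complex.sub_im] at a1 a2 a3 a4 b1 b2 b3 b4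
  have h1 := cell1 (L := 1) one_pos (e := d1) (e' := d1') (m := m1) (m' := m1') (y := y.re)
    (by simpa using a1) (by simpa using a2) (by simpa using b1) (by simpa using b2)
  have h2 := cell1 hb (e := d2) (e' := d2') (m := m2) (m' := m2') (y := y.im) a3 a4 b3 b4
  rw [h1.1, h1.2, h2.1, h2.2]

theorem Ro_subset (θ : ℝ) {y : ℂ} (h : y ∈ Ro θ) : y ∈ Rc θ :=
  ⟨h.1.le, h.2.1.le, h.2.2.1.le, h.2.2.2.le⟩

theorem Ro_isOpen (θ : ℝ) : IsOpen (Ro θ) := by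
  have : Ro θ = {x : ℂ | 0 < x.re} ∩ {x : ℂ | x.re < 1} ∩ {x : ℂ | 0 < x.im} ∩
      {x : ℂ | x.im < bb θ} := by
    ext x; constructor
    · rintro ⟨h1, h2, h3, h4⟩; exact ⟨⟨⟨h1, h2⟩, h3⟩, h4⟩
    · rintro ⟨⟨⟨h1, h2⟩, h3⟩, h4⟩; exact ⟨h1, h2, h3, h4⟩
  rw [this]
  exact (((isOpen_lt continuous_const Complex.continuous_re).inter
    (isOpen_lt Complex.continuous_re continuous_const)).inter
    (isOpen_lt continuous_const Complex.continuous_im)).inter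
    (isOpen_lt Complex.continuous_im continuous_const)

theorem Rc_isClosed (θ : ℝ) : IsClosed (Rc θ) := by
  have : Rc θ = {x : ℂ | 0 ≤ x.re} ∩ {x : ℂ | x.re ≤ 1} ∩ {x : ℂ | 0 ≤ x.im} ∩
      {x : ℂ | x.im ≤ bb θ} := by
    ext x; constructor
    · rintro ⟨h1, h2, h3, h4⟩; exact ⟨⟨⟨h1, h2⟩, h3⟩, h4⟩
    · rintro ⟨⟨⟨h1, h2⟩, h3⟩, h4⟩; exact ⟨h1, h2, h3, h4⟩
  rw [this]
  exact (((isClosed_le continuous_const Complex.continuous_re).inter
    (isClosed_le Complex.continuous_re continuous_const)).inter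
    (isClosed_le continuous_const Complex.continuous_im)).inter
    (isClosed_le Complex.continuous_im continuous_const)

theorem cont_ray (θ : ℝ) (c : Cp) (x w : ℂ) :
    Continuous fun s : ℝ => frm θ c (x + (s : ℂ) * w) :=
  (continuous_frm θ c).comp (by fun_prop)

/-- The base point of a related state is in the closed cell. -/
theorem rel_cell {θ : ℝ} {c : Cp} {x w : ℂ}
    (h : ∀ᶠ s : ℝ in 𝓝[>] (0 : ℝ), frm θ c (x + s * w) ∈ Rc θ) : frm θ c x ∈ Rc θ := by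
  have h1 : Tendsto (fun s : ℝ => frm θ c (x + (s : ℂ) * w)) (𝓝[>] (0 : ℝ))
      (𝓝 (frm θ c (x + ((0 : ℝ) : ℂ) * w))) :=
    ((cont_ray θ c x w).tendsto 0).mono_left nhdsWithin_le_nhds
  have h2 := (Rc_isClosed θ).mem_of_tendsto h1 h
  simpa using h2

/-- Points of the hole are in the open rectangle. -/
theorem Q_sub_Ro {θ : ℝ} (hθ : |θ - Real.pi / 4| < 1 / 100) {p : Par} (hp : p ∈ Pi0) {y : ℂ}
    (hy : y ∈ Q p) : y ∈ Ro θ := by
  have hb := box hp hy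
  have h1 := abs_lt.mp hb.1
  have h2 := abs_lt.mp hb.2
  have hbb : (3 : ℝ) / 4 < bb θ := by
    have h := abs_lt.mp hθ
    have hpi := Real.pi_gt_d2
    have hpi' := Real.pi_lt_d2
    have h3 : θ < bb θ := by
      unfold bb
      apply Real.lt_tan <;> linarith [h.1, h.2]
    linarith [h.1]
  exact ⟨by linarith [h1.1], by linarith [h1.2], by linarith [h2.1], by linarith [h2.2]⟩

theorem side_idx (θ : ℝ) (p : Par) (j : Fin 4) :
    ∃ i : Fin 8, sa θ p i = vtx p j ∧ sb θ p i = vtx p (j + 1) := by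
  have e : ∀ i : Fin 4, i = 0 ∨ i = 1 ∨ i = 2 ∨ i = 3 := by decide
  rcases e j with rfl | rfl | rfl | rfl
  · exact ⟨5, rfl, rfl⟩
  · exact ⟨6, rfl, rfl⟩
  · exact ⟨7, rfl, rfl⟩
  · exact ⟨4, rfl, rfl⟩

/-- Points of the open side. -/
theorem side_mem {p : Par} (hp : p ∈ Pi0) {j : Fin 4} {y : ℂ}
    (h1 : dot y (nu p (j + 1)) = p.2 (j + 1))
    (h2 : ∀ i, i ≠ j + 1 → dot y (nu p i) < p.2 i) :
    y ∈ openSegment ℝ (vtx p j) (vtx p (j + 1)) := by
  have hs : 0 < p.2 j + p.2 (j + 2) := hp.2.2.1 j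
  have n1' : ∀ j : Fin 4, j ≠ j + 1 := by decide
  have n2' : ∀ j : Fin 4, j + 2 ≠ j + 1 := by decide
  have n1 := n1' j
  have n2 := n2' j
  have e1 : j + 1 + 1 = j + 2 := by rw [add_assoc]; rfl
  have h3 := h2 j n1
  have h4 := h2 (j + 2) n2
  rw [dot_add_two] at h4
  set t := dot y (nu p j) with ht
  have hy : y = ((t : ℝ) : ℂ) * nu p j + ((p.2 (j + 1) : ℝ) : ℂ) * nu p (j + 1) := by
    have := basis_nu p j y
    rw [h1] at this; exact this
  refine ⟨(t + p.2 (j + 2)) / (p.2 j + p.2 (j + 2)), (p.2 j - t) / (p.2 j + p.2 (j + 2)),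
    div_pos (by linarith) hs, div_pos (by linarith) hs, ?_, ?_⟩
  · rw [← add_div]; rw [div_eq_one_iff_eq hs.ne']; ring
  · have hsc : ((p.2 j : ℂ) + (p.2 (j + 2) : ℂ)) ≠ 0 := by exact_mod_cast hs.ne'
    rw [hy]
    unfold vtx
    rw [e1, nu_add_two]
    simp only [Complex.real_smul]
    push_cast
    field_simp
    ring

theorem dir_add (α β : BIL.Ang) : BIL.dir (α + β) = BIL.dir α * BIL.dir β := by
  unfold BIL.dir
  rw [AddCircle.toCircle_add]; simp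

theorem dir_neg (α : BIL.Ang) : BIL.dir (-α) = (starRingEnd ℂ) (BIL.dir α) := by
  unfold BIL.dir
  rw [AddCircle.toCircle_neg, Circle.coe_inv_eq_conj]

theorem dir_norm (α : BIL.Ang) : ‖BIL.dir α‖ = 1 := by
  unfold BIL.dir; exact Circle.norm_coe _

theorem dir_ang (w : ℂ) : (‖w‖ : ℂ) * BIL.dir (BIL.ang w) = w := by
  have h : BIL.dir (BIL.ang w) = Complex.exp (Complex.arg w * Complex.I) := by
    unfold BIL.dir BIL.ang
    rw [AddCircle.toCircle_apply_mk, Circle.coe_exp]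
    have hpi : (2 * Real.pi) ≠ 0 := (Real.two_pi_pos).ne'
    rw [div_self hpi, one_mul]
  rw [h, Complex.norm_mul_exp_arg_mul_I]

theorem dir_ang_side {p : Par} (hp : p ∈ Pi0) (j : Fin 4) :
    BIL.dir (BIL.ang (vtx p (j + 1) - vtx p j)) = Complex.I * nu p (j + 1) := by
  have hs : 0 < p.2 j + p.2 (j + 2) := hp.2.2.1 j
  have hn : ‖vtx p (j + 1) - vtx p j‖ = p.2 j + p.2 (j + 2) := by
    rw [vtx_sub, norm_mul, norm_mul, nu_norm, Complex.norm_I, Complex.norm_real,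
      Real.norm_of_nonneg hs.le]
    ring
  have h := dir_ang (vtx p (j + 1) - vtx p j)
  rw [hn] at h
  have h2 := vtx_sub p j
  have h3 : ((p.2 j + p.2 (j + 2) : ℝ) : ℂ) ≠ 0 := by exact_mod_cast hs.ne'
  exact mul_left_cancel₀ h3 (h.trans h2)

end F2b

open F2b

/-- [F2b] billiard orbits follow legs. -/
theorem follow_leg {θ : ℝ} (hθ : |θ - Real.pi / 4| < 1 / 100) {p : Par} (hp : p ∈ Pi0)
    {γ : ℝ → ℂ × BIL.Ang} (hγ : BIL.IsOrbit (Tb θ p) (sa θ p) (sb θ p) γ) {x w : ℂ}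
    (hw : ‖w‖ = 1) {t₀ : ℝ} (h0 : Rel θ (γ t₀) (x, w)) {a : Lt} (ha : Good θ p a (x, w)) :
    Rel θ (γ (t₀ + fl θ p a (x, w))) (nx θ p a (x, w)) := by
  obtain ⟨c, k⟩ := a
  obtain ⟨j, rfl⟩ : ∃ j : Fin 4, k = j + 1 := by
    have : ∀ k : Fin 4, ∃ j : Fin 4, k = j + 1 := by decide
    exact this k
  obtain ⟨g1, g2, g3, g4⟩ := ha
  have hland : dot (nx θ p (c, j + 1) (x, w)).1 (nu p (j + 1)) = p.2 (j + 1) :=
    dot_land (a := (c, j + 1)) g1.ne
  set τ := fl θ p (c, j + 1) (x, w) with hτ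
  set y := (nx θ p (c, j + 1) (x, w)).1 with hy
  have hyQ : y ∈ Q p := by
    intro i
    by_cases hi : i = j + 1
    · subst hi; exact hland.le
    · exact (g4 i hi).le
  have hyR : y ∈ Ro θ := Q_sub_Ro hθ hp hyQ
  have hyf : frm θ c (x + (τ : ℂ) * w) = y := rfl
  have hfol : ∀ s : ℝ, 0 ≤ s → s < τ → Rel θ (γ (t₀ + s)) (x + (s : ℂ) * w, w) := by
    intro s hs0 hs1
    exact follow_free hθ hp hγ hw h0 (t₁ := s)
      (fun u hu0 hu1 => g3 u hu0 (by linarith)) s hs0 le_rfl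
  have hcont : Tendsto (fun s : ℝ => frm θ c (x + (s : ℂ) * w)) (𝓝 τ) (𝓝 y) :=
    (cont_ray θ c x w).tendsto τ
  have hev : ∀ᶠ s : ℝ in 𝓝 τ, frm θ c (x + (s : ℂ) * w) ∈ Ro θ :=
    hcont.eventually ((Ro_isOpen θ).mem_nhds hyR)
  obtain ⟨ε, hε, hev'⟩ := Metric.eventually_nhds_iff.mp hev
  have hcell : ∀ s : ℝ, 0 ≤ s → s < τ → τ - ε < s →
      (γ (t₀ + s)).1 = frm θ c (x + (s : ℂ) * w) ∧ BIL.dir (γ (t₀ + s)).2 = act c.1 w := by
    intro s hs0 hs1 hs2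
    obtain ⟨c', e1, e2, e3⟩ := hfol s hs0 hs1
    have hin : frm θ c (x + (s : ℂ) * w) ∈ Ro θ :=
      hev' (by rw [Real.dist_eq, abs_lt]; constructor <;> linarith)
    have hcc : c' = c := cell_unique (bb_pos hθ) (rel_cell e3) hin
    subst hcc
    exact ⟨e1, e2⟩
  have hmax : max 0 (τ - ε) < τ := max_lt g2 (by linarith)
  have hpos : (γ (t₀ + τ)).1 = y := by
    have l1 : Tendsto (fun s : ℝ => (γ (t₀ + s)).1) (𝓝[<] τ) (𝓝 (γ (t₀ + τ)).1) :=
      ((hγ.cont.comp (continuous_const.add continuous_id)).tendsto τ).mono_left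
        nhdsWithin_le_nhds
    have l2 : Tendsto (fun s : ℝ => frm θ c (x + (s : ℂ) * w)) (𝓝[<] τ) (𝓝 y) :=
      hcont.mono_left nhdsWithin_le_nhds
    have l3 : (fun s : ℝ => (γ (t₀ + s)).1) =ᶠ[𝓝[<] τ]
        fun s : ℝ => frm θ c (x + (s : ℂ) * w) := by
      filter_upwards [Ioo_mem_nhdsLT hmax] with s hs
      exact (hcell s (le_of_lt (lt_of_le_of_lt (le_max_left _ _) hs.1)) hs.2
        (lt_of_le_of_lt (le_max_right _ _) hs.1)).1
    exact tendsto_nhds_unique (l1.congr' l3) l2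
  have hT := table_closure hθ hp
  have hfr : (γ (t₀ + τ)).1 ∈ frontier (Tb θ p) := by
    rw [hpos]
    refine ⟨subset_closure ⟨Ro_subset θ hyR, j + 1, hland.ge⟩, ?_⟩
    rw [hT.1]
    rintro ⟨_, h⟩
    exact h hyQ
  obtain ⟨i, _, h2, ε', hε', h3⟩ := hγ.refl (t₀ + τ) hfr
  obtain ⟨i', ha', hb'⟩ := side_idx θ p j
  have hmem := side_mem hp hland g4
  have hii : i' = i := by
    by_contra hne
    apply h2 i' hne
    rw [hpos, ha', hb']
    exact openSegment_subset_segment _ _ _ hmem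
  subst hii
  obtain ⟨s, hs1, hs2⟩ := exists_between (show max (max 0 (τ - ε)) (τ - ε') < τ from
    max_lt hmax (by linarith))
  have hs3 : max 0 (τ - ε) < s := lt_of_le_of_lt (le_max_left _ _) hs1
  have hs4 : τ - ε' < s := lt_of_le_of_lt (le_max_right _ _) hs1
  have hs5 := (hcell s (le_of_lt (lt_of_le_of_lt (le_max_left _ _) hs3)) hs2
    (lt_of_le_of_lt (le_max_right _ _) hs3)).2
  have h4 := h3 (t₀ + s) ⟨by linarith, by linarith⟩
  have hdir : BIL.dir (γ (t₀ + τ)).2 = refl p (j + 1) (act c.1 w) := by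
    rw [h4, ha', hb', sub_eq_add_neg, dir_add, dir_neg, two_nsmul, dir_add, dir_ang_side hp,
      hs5, refl_eq]
    linear_combination (nu p (j + 1)) ^ 2 * (starRingEnd ℂ) (act c.1 w) * Complex.I_mul_I
  refine ⟨(1, (0, 0)), ?_, ?_, ?_⟩
  · rw [frm_one]; exact hpos
  · change _ = act 1 (refl p (j + 1) (act c.1 w))
    rw [act_one]; exact hdir
  · have l : Tendsto (fun s : ℝ => frm θ (1, (0, 0)) (y + (s : ℂ) * (nx θ p (c, j + 1) (x, w)).2))
        (𝓝[>] (0 : ℝ)) (𝓝 (frm θ (1, (0, 0)) (y + ((0 : ℝ) : ℂ) * (nx θ p (c, j + 1) (x, w)).2))) :=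
      ((cont_ray θ _ _ _).tendsto 0).mono_left nhdsWithin_le_nhds
    have h5 : frm θ (1, (0, 0)) (y + ((0 : ℝ) : ℂ) * (nx θ p (c, j + 1) (x, w)).2) ∈ Ro θ := by
      rw [frm_one]; simpa using hyR
    filter_upwards [l.eventually ((Ro_isOpen θ).mem_nhds h5)] with s hs
    exact Ro_subset θ hs

/-- [F2] billiard orbits follow plane paths. -/
theorem follow {θ : ℝ} (hθ : |θ - Real.pi / 4| < 1 / 100) {p : Par} (hp : p ∈ Pi0)
    {γ : ℝ → ℂ × BIL.Ang} (hγ : BIL.IsOrbit (Tb θ p) (sa θ p) (sb θ p) γ) {z : ℂ × ℂ}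
    (h0 : (γ 0).1 = z.1) (h1 : BIL.dir (γ 0).2 = z.2) (hz : z.1 ∈ Ro θ) (hf : Fre θ p z.1)
    {V : Set (ℂ × ℂ)} (hV : ∀ y ∈ V, y.1 ∈ Ro θ) {t : ℝ} (h : Visit θ p z V t) :
    ((γ t).1, BIL.dir (γ t).2) ∈ V := by
  obtain ⟨l, hl1, hl2, hl3, c, hc⟩ := h
  have hrel : Rel θ (γ 0) z := by
    refine ⟨(1, (0, 0)), ?_, ?_, ?_⟩
    · rw [frm_one]; exact h0
    · change _ = act 1 z.2
      rw [act_one]; exact h1
    · have l : Tendsto (fun s : ℝ => frm θ (1, (0, 0)) (z.1 + (s : ℂ) * z.2))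
          (𝓝[>] (0 : ℝ)) (𝓝 (frm θ (1, (0, 0)) (z.1 + ((0 : ℝ) : ℂ) * z.2))) :=
        ((cont_ray θ _ _ _).tendsto 0).mono_left nhdsWithin_le_nhds
      have h5 : frm θ (1, (0, 0)) (z.1 + ((0 : ℝ) : ℂ) * z.2) ∈ Ro θ := by
        rw [frm_one]; simpa using hz
      filter_upwards [l.eventually ((Ro_isOpen θ).mem_nhds h5)] with s hs
      exact Ro_subset θ hs
  have hn : ‖z.2‖ = 1 := by rw [← h1]; exact dir_norm _
  have key : ∀ (l : List Lt) (z : ℂ × ℂ) (t₀ : ℝ), ‖z.2‖ = 1 → Rel θ (γ t₀) z →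
      GoodL θ p l z → Rel θ (γ (t₀ + tim θ p l z)) (run θ p l z) ∧ ‖(run θ p l z).2‖ = 1 := by
    intro l
    induction l with
    | nil => intro z t₀ hn hr _; simp only [tim, run, add_zero]; exact ⟨hr, hn⟩
    | cons a l ih =>
      intro z t₀ hn hr hg
      obtain ⟨hg1, hg2⟩ := hg
      have hr' := follow_leg hθ hp hγ (x := z.1) (w := z.2) hn hr hg1
      have hn' : ‖(nx θ p a z).2‖ = 1 := by
        rw [(nx_out hp hg1).2.2.2]; exact hn
      have := ih (nx θ p a z) (t₀ + fl θ p a z) hn' hr' hg2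
      simp only [tim, run]
      rw [← add_assoc]
      exact this
  obtain ⟨hr, hn'⟩ := key l z 0 hn hrel hl1
  rw [zero_add] at hr
  have hfin := follow_free hθ hp hγ (x := (run θ p l z).1) (w := (run θ p l z).2) hn' hr
    (t₁ := t - tim θ p l z) hl3 (t - tim θ p l z) (by linarith) le_rfl
  rw [add_sub_cancel] at hfin
  obtain ⟨c', e1, e2, e3⟩ := hfin
  have hcc : c' = c := cell_unique (bb_pos hθ) (rel_cell e3) (hV _ hc)
  subst hcc
  rw [e1, e2]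
  exact hc

end TMX
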