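import Pool.Agent.TMX.Basic

/-! # TMX, row I3: the system preserves length -/

set_option autoImplicit false

open Set Filter Topology MeasureTheory

namespace TMX

private lemma I3_fin {W : Type} {A : Set (W × ℝ)} (hA : A.Finite) (w : W) :
    {o : ℝ | (w, o) ∈ A}.Finite := by
  refine (hA.image Prod.snd).subset ?_
  intro o ho
  exact ⟨(w, o), ho, rfl⟩

/-- the part of the component `w` that is mapped into the component `w'`. -/
private def I3_s {W : Type} (Y : Sys W) (w w' : W) : Set ℝ :=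
  {o | (w, o) ∈ Y.S \ Y.A ∧ (Y.T (w, o)).1 = w'}

private lemma I3_open {W : Type} (Y : Sys W) (ok : Y.Ok) (w w' : W) : IsOpen (I3_s Y w w') := by
  rw [isOpen_iff_mem_nhds]
  rintro o ⟨ho, h1⟩
  obtain ⟨e, he, hev⟩ := ok.loc (w, o) ho
  have h2 : Tendsto (fun o' : ℝ => o' - o) (𝓝 o) (𝓝 0) := by
    have := (continuous_sub_right o).tendsto o
    simpa using this
  have h3 := h2.eventually hev
  filter_upwards [h3] with o' ho'
  have h4 : ((w, o).1, (w, o).2 + (o' - o)) = (w, o') := by simp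
  rw [h4] at ho'
  refine ⟨ho'.1, ?_⟩
  rw [ho'.2, ← h1]

private lemma I3_deriv {W : Type} (Y : Sys W) (ok : Y.Ok) (w : W) (o : ℝ)
    (ho : (w, o) ∈ Y.S \ Y.A) : ∃ e : ℝ, |e| = 1 ∧ HasDerivAt (fun t => (Y.T (w, t)).2) e o := by
  obtain ⟨e, he, hev⟩ := ok.loc (w, o) ho
  refine ⟨e, ?_, ?_⟩
  · rcases he with rfl | rfl <;> simp
  have h2 : Tendsto (fun o' : ℝ => o' - o) (𝓝 o) (𝓝 0) := by
    have := (continuous_sub_right o).tendsto o
    simpa using this
  have h3 := h2.eventually hev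
  have h5 : HasDerivAt (fun t : ℝ => (Y.T (w, o)).2 + e * (t - o)) e o := by
    have := (((hasDerivAt_id o).sub_const o).const_mul e).const_add ((Y.T (w, o)).2)
    simpa using this
  refine h5.congr_of_eventuallyEq ?_
  filter_upwards [h3] with o' ho'
  have h4 : ((w, o).1, (w, o).2 + (o' - o)) = (w, o') := by simp
  rw [h4] at ho'
  rw [ho'.2]

private lemma I3_S {W : Type} (Y : Sys W) {w : W} (hw : w ∈ Y.C) :
    {o : ℝ | (w, o) ∈ Y.S} = Ioo (Y.a w) (Y.b w) := by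
  ext o
  simp only [Sys.S, mem_setOf_eq, mem_Ioo]
  exact ⟨fun h => h.2, fun h => ⟨hw, h⟩⟩

private lemma I3_drop {W : Type} (Y : Sys W) (ok : Y.Ok) {w : W} (hw : w ∈ Y.C)
    {A : Set (W × ℝ)} (hA : A.Finite) (F : ℝ → ℝ) :
    ∫ o in (Y.a w)..(Y.b w), F o = ∫ o in {o : ℝ | (w, o) ∈ Y.S \ A}, F o := by
  rw [intervalIntegral.integral_of_le (ok.hab w hw).le, integral_Ioc_eq_integral_Ioo]
  refine setIntegral_congr_set ?_
  have h1 : {o : ℝ | (w, o) ∈ Y.S \ A} = Ioo (Y.a w) (Y.b w) \ {o : ℝ | (w, o) ∈ A} := by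
    rw [← I3_S Y hw]; rfl
  rw [h1]
  have h2 : volume {o : ℝ | (w, o) ∈ A} = 0 := (I3_fin hA w).measure_zero volume
  exact (diff_null_ae_eq_self h2).symm

/-- [I3] the system preserves length. -/
theorem pres {W : Type} (Y : Sys W) (ok : Y.Ok) (g : W × ℝ → ℝ)
    (hm : ∀ w ∈ Y.C, Measurable fun o => g (w, o)) (K : ℝ) (hK : ∀ x ∈ Y.S, |g x| ≤ K) :
    ∑ w ∈ Y.C, ∫ o in (Y.a w)..(Y.b w), g (Y.T (w, o)) =
      ∑ w ∈ Y.C, ∫ o in (Y.a w)..(Y.b w), g (w, o) := by
  classical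
  -- the derivative
  choose! e he hd using fun (x : W × ℝ) (hx : x ∈ Y.S \ Y.A) => I3_deriv Y ok x.1 x.2 hx
  have hTS : ∀ x ∈ Y.S \ Y.A, Y.T x ∈ Y.S \ Y.B := fun x hx => ok.bij.mapsTo hx
  have hsub : ∀ w w' : W, ∀ o ∈ I3_s Y w w', (w, o) ∈ Y.S \ Y.A := fun w w' o ho => ho.1
  have hmeas : ∀ w w' : W, MeasurableSet (I3_s Y w w') := fun w w' => (I3_open Y ok w w').measurableSet
  have hder : ∀ w w' : W, ∀ o ∈ I3_s Y w w',
      HasDerivWithinAt (fun t => (Y.T (w, t)).2) (e (w, o)) (I3_s Y w w') o :=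
    fun w w' o ho => (hd (w, o) ho.1).hasDerivWithinAt
  have hinj : ∀ w w' : W, InjOn (fun t => (Y.T (w, t)).2) (I3_s Y w w') := by
    intro w w' o ho o' ho' h
    have h1 : Y.T (w, o) = Y.T (w, o') := Prod.ext (ho.2.trans ho'.2.symm) h
    have h2 := ok.bij.injOn ho.1 ho'.1 h1
    exact (Prod.ext_iff.1 h2).2
  have himS : ∀ w w' : W, (fun t => (Y.T (w, t)).2) '' (I3_s Y w w') ⊆ {o | (w', o) ∈ Y.S \ Y.B} := by
    rintro w w' _ ⟨o, ho, rfl⟩
    have h1 := hTS _ ho.1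
    have h2 : (w', (Y.T (w, o)).2) = Y.T (w, o) := Prod.ext ho.2.symm rfl
    simp only [mem_setOf_eq]
    rw [h2]
    exact h1
  have himM : ∀ w w' : W, MeasurableSet ((fun t => (Y.T (w, t)).2) '' (I3_s Y w w')) := by
    intro w w'
    refine (hmeas w w').image_of_continuousOn_injOn ?_ (hinj w w')
    intro o ho
    exact (hder w w' o ho).continuousWithinAt
  -- integrability of g on measurable subsets of the components
  have hint : ∀ w' ∈ Y.C, ∀ s : Set ℝ, MeasurableSet s → s ⊆ {o | (w', o) ∈ Y.S} →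
      IntegrableOn (fun o => g (w', o)) s := by
    intro w' hw' s hs hsS
    rw [I3_S Y hw'] at hsS
    have hfin : volume s ≠ ⊤ := by
      refine ne_top_of_le_ne_top ?_ (measure_mono hsS)
      simp
    refine Measure.integrableOn_of_bounded hfin (hm w' hw').aestronglyMeasurable (M := K) ?_
    refine (ae_restrict_iff' hs).2 (Eventually.of_forall fun o ho => ?_)
    rw [Real.norm_eq_abs]
    refine hK (w', o) ?_
    have := hsS ho
    rw [← I3_S Y hw'] at this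
    exact this
  -- one piece
  have hpiece : ∀ w w' : W, ∫ o in I3_s Y w w', g (Y.T (w, o)) =
      ∫ o in (fun t => (Y.T (w, t)).2) '' (I3_s Y w w'), g (w', o) := by
    intro w w'
    rw [integral_image_eq_integral_abs_deriv_smul (hmeas w w') (hder w w') (hinj w w')]
    refine setIntegral_congr_fun (hmeas w w') fun o ho => ?_
    have h2 : (w', (Y.T (w, o)).2) = Y.T (w, o) := Prod.ext ho.2.symm rfl
    simp only [he (w, o) ho.1, one_smul, h2]
  have hpieceI : ∀ w : W, ∀ w' ∈ Y.C, IntegrableOn (fun o => g (Y.T (w, o))) (I3_s Y w w') := by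
    intro w w' hw'
    have h1 := (integrableOn_image_iff_integrableOn_abs_deriv_smul (hmeas w w') (hder w w')
      (hinj w w') (fun o => g (w', o))).1
      (hint w' hw' _ (himM w w') ((himS w w').trans fun o ho => ho.1))
    refine h1.congr_fun (fun o ho => ?_) (hmeas w w')
    have h2 : (w', (Y.T (w, o)).2) = Y.T (w, o) := Prod.ext ho.2.symm rfl
    simp only [he (w, o) ho.1, one_smul, h2]
  -- left side
  have hL : ∀ w ∈ Y.C, ∫ o in (Y.a w)..(Y.b w), g (Y.T (w, o)) =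
      ∑ w' ∈ Y.C, ∫ o in I3_s Y w w', g (Y.T (w, o)) := by
    intro w hw
    rw [I3_drop Y ok hw ok.finA]
    have h1 : {o : ℝ | (w, o) ∈ Y.S \ Y.A} = ⋃ w' ∈ Y.C, I3_s Y w w' := by
      ext o
      simp only [mem_iUnion, exists_prop]
      constructor
      · intro ho
        exact ⟨(Y.T (w, o)).1, (hTS _ ho).1.1, ho, rfl⟩
      · rintro ⟨w', -, ho⟩
        exact ho.1
    rw [h1]
    refine integral_biUnion_finset Y.C (fun w' _ => hmeas w w') ?_ (fun w' hw' => hpieceI w w' hw')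
    intro w₁ _ w₂ _ hne
    refine Set.disjoint_left.2 ?_
    rintro o ho ho'
    exact hne (ho.2.symm.trans ho'.2)
  -- right side
  have hR : ∀ w' ∈ Y.C, ∫ o in (Y.a w')..(Y.b w'), g (w', o) =
      ∑ w ∈ Y.C, ∫ o in (fun t => (Y.T (w, t)).2) '' (I3_s Y w w'), g (w', o) := by
    intro w' hw'
    rw [I3_drop Y ok hw' ok.finB]
    have h1 : {o : ℝ | (w', o) ∈ Y.S \ Y.B} =
        ⋃ w ∈ Y.C, (fun t => (Y.T (w, t)).2) '' (I3_s Y w w') := by
      refine Subset.antisymm ?_ ?_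
      · intro o ho
        obtain ⟨x, hx, hxo⟩ := ok.bij.surjOn ho
        simp only [mem_iUnion, exists_prop]
        refine ⟨x.1, hx.1.1, x.2, ⟨hx, ?_⟩, ?_⟩
        · simp [hxo]
        · simp [hxo]
      · refine iUnion₂_subset fun w _ => himS w w'
    rw [h1]
    refine integral_biUnion_finset Y.C (fun w _ => himM w w') ?_
      (fun w _ => hint w' hw' _ (himM w w') ((himS w w').trans fun o ho => ho.1))
    intro w₁ _ w₂ _ hne
    refine Set.disjoint_left.2 ?_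
    rintro _ ⟨o, ho, rfl⟩ ⟨o', ho', h⟩
    have h1 : Y.T (w₂, o') = Y.T (w₁, o) := Prod.ext (ho'.2.trans ho.2.symm) h
    have h2 := ok.bij.injOn ho'.1 ho.1 h1
    exact hne (Prod.ext_iff.1 h2).1.symm
  calc ∑ w ∈ Y.C, ∫ o in (Y.a w)..(Y.b w), g (Y.T (w, o))
      = ∑ w ∈ Y.C, ∑ w' ∈ Y.C, ∫ o in I3_s Y w w', g (Y.T (w, o)) := Finset.sum_congr rfl hL
    _ = ∑ w ∈ Y.C, ∑ w' ∈ Y.C,
          ∫ o in (fun t => (Y.T (w, t)).2) '' (I3_s Y w w'), g (w', o) :=
        Finset.sum_congr rfl fun w _ => Finset.sum_congr rfl fun w' _ => hpiece w w'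
    _ = ∑ w' ∈ Y.C, ∑ w ∈ Y.C,
          ∫ o in (fun t => (Y.T (w, t)).2) '' (I3_s Y w w'), g (w', o) := Finset.sum_comm
    _ = ∑ w' ∈ Y.C, ∫ o in (Y.a w')..(Y.b w'), g (w', o) :=
        Finset.sum_congr rfl fun w' hw' => (hR w' hw').symm

end TMX
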