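import Pool.Agent.TMX.Defs

/-! # TMX: row I4 (skew products by a circle) -/

set_option autoImplicit false

open Set Filter Topology

namespace TMX

/-- [I4] a skew product by a circle over a minimal map. -/
theorem skew {Ω : Type} [TopologicalSpace Ω] [CompactSpace Ω] [T2Space Ω] (σ : Ω → Ω)
    (hσ : Continuous σ) (hmin : ∀ x : Ω, Dense (Set.range fun n : ℕ => σ^[n] x))
    (ℓ : ℝ) [Fact (0 < ℓ)] (φ : Ω → AddCircle ℓ) (hφ : Continuous φ) :
    (∀ z : Ω × AddCircle ℓ,
      Dense (Set.range fun n : ℕ => (fun z : Ω × AddCircle ℓ => (σ z.1, z.2 + φ z.1))^[n] z)) ∨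
    ∃ q : ℕ, 0 < q ∧ ∃ f : Ω → AddCircle ℓ, Continuous f ∧ ∀ x, f (σ x) = f x + q • φ x := by
  classical
  rcases isEmpty_or_nonempty Ω with hE | hne
  · left; intro z; exact (hE.false z.1).elim
  set S : Ω × AddCircle ℓ → Ω × AddCircle ℓ := fun z => (σ z.1, z.2 + φ z.1) with hS
  have hSc : Continuous S := by
    rw [hS]; exact (hσ.comp continuous_fst).prodMk (continuous_snd.add (hφ.comp continuous_fst))
  set F : Set (Set (Ω × AddCircle ℓ)) := {M | IsClosed M ∧ M.Nonempty ∧ MapsTo S M M} with hF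
  obtain ⟨M, hM⟩ := zorn_superset F (by
    intro c hc hchain
    rcases c.eq_empty_or_nonempty with rfl | hcne
    · exact ⟨univ, ⟨isClosed_univ, univ_nonempty, mapsTo_univ _ _⟩, by simp⟩
    · have : Nonempty c := hcne.to_subtype
      refine ⟨⋂₀ c, ⟨isClosed_sInter fun t ht => (hc ht).1, ?_, ?_⟩,
        fun s hs => sInter_subset_of_mem hs⟩
      · exact IsCompact.nonempty_sInter_of_directed_nonempty_isCompact_isClosed
          (fun s hs t ht => by
            rcases hchain.total hs ht with h | h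
            · exact ⟨s, hs, Subset.rfl, h⟩
            · exact ⟨t, ht, h, Subset.rfl⟩) (fun U hU => (hc hU).2.1) (fun U hU => (hc hU).1.isCompact)
          (fun U hU => (hc hU).1)
      · intro z hz t ht; exact (hc ht).2.2 (hz t ht))
  obtain ⟨⟨hMc, hMn, hMS⟩, hMmin⟩ := hM
  -- orbit closures
  have horb : ∀ z, closure (range fun n : ℕ => S^[n] z) ∈ F := by
    intro z
    refine ⟨isClosed_closure, (range_nonempty _).closure, ?_⟩
    apply MapsTo.closure _ hSc
    rintro _ ⟨n, rfl⟩
    exact ⟨n + 1, Function.iterate_succ_apply' S n z⟩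
  -- the projection of `M`
  have hfst : ∀ (n : ℕ) (z : Ω × AddCircle ℓ), (S^[n] z).1 = σ^[n] z.1 := by
    intro n z
    induction n with
    | zero => rfl
    | succ n ih => rw [Function.iterate_succ_apply', Function.iterate_succ_apply', ← ih]
  have hMit : ∀ (n : ℕ), ∀ z ∈ M, S^[n] z ∈ M := fun n z hz => hMS.iterate n hz
  have hproj : ∀ x : Ω, ∃ v, (x, v) ∈ M := by
    have h1 : IsClosed (Prod.fst '' M) := (hMc.isCompact.image continuous_fst).isClosed
    obtain ⟨z, hz⟩ := hMn
    have h2 : Dense (Prod.fst '' M) := (hmin z.1).mono (by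
      rintro _ ⟨n, rfl⟩
      exact ⟨_, hMit n z hz, hfst n z⟩)
    intro x
    have : x ∈ Prod.fst '' M := by rw [← h1.closure_eq]; exact h2 x
    obtain ⟨z', hz', rfl⟩ := this
    exact ⟨z'.2, hz'⟩
  -- translates
  have htr : ∀ u : AddCircle ℓ, (∃ z ∈ M, (z.1, z.2 + u) ∈ M) → ∀ z ∈ M, (z.1, z.2 + u) ∈ M := by
    rintro u ⟨z, hz, hzu⟩
    have : M ∩ {z | (z.1, z.2 + u) ∈ M} ∈ F := by
      refine ⟨hMc.inter (hMc.preimage ?_), ⟨z, hz, hzu⟩, ?_⟩
      · exact continuous_fst.prodMk (continuous_snd.add continuous_const)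
      · rintro y ⟨hy, hyu⟩
        refine ⟨hMS hy, ?_⟩
        have := hMS hyu
        simp only [hS] at this
        simp only [hS, Set.mem_ofPred_eq]
        rw [add_right_comm]; exact this
    intro y hy
    exact (hMmin this inter_subset_left hy).2
  set H : AddSubgroup (AddCircle ℓ) :=
    { carrier := {u | ∀ z ∈ M, (z.1, z.2 + u) ∈ M ∧ (z.1, z.2 - u) ∈ M}
      add_mem' := by
        intro u v hu hv z hz
        refine ⟨?_, ?_⟩
        · have := (hv _ (hu z hz).1).1
          simp only at this; rw [← add_assoc]; exact this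
        · have := (hv _ (hu z hz).2).2
          simp only at this; rw [← sub_sub]; exact this
      zero_mem' := by intro z hz; simp only [add_zero, sub_zero]; exact ⟨hz, hz⟩
      neg_mem' := by
        intro u hu z hz
        refine ⟨?_, ?_⟩
        · rw [← sub_eq_add_neg]; exact (hu z hz).2
        · rw [sub_neg_eq_add]; exact (hu z hz).1 } with hH
  have hHclosed : IsClosed (H : Set (AddCircle ℓ)) := by
    have : (H : Set (AddCircle ℓ)) = ⋂ z ∈ M, ({u | (z.1, z.2 + u) ∈ M} ∩ {u | (z.1, z.2 - u) ∈ M}) := by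
      ext u; simp only [mem_iInter]; rfl
    rw [this]
    refine isClosed_biInter fun z _ => (hMc.preimage ?_).inter (hMc.preimage ?_)
    · exact continuous_const.prodMk (continuous_const.add continuous_id)
    · exact continuous_const.prodMk (continuous_const.sub continuous_id)
  have hdiff : ∀ (x : Ω) (v v' : AddCircle ℓ), (x, v) ∈ M → (x, v') ∈ M → v' - v ∈ H := by
    intro x v v' hv hv' z hz
    refine ⟨htr _ ⟨(x, v), hv, by simpa using hv'⟩ z hz, ?_⟩
    rw [sub_eq_add_neg]
    exact htr _ ⟨(x, v'), hv', by simpa using hv⟩ z hz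
  -- the preimage of `H` in the line
  set H' : AddSubgroup ℝ := H.comap (QuotientAddGroup.mk' (AddSubgroup.zmultiples ℓ)) with hH'
  have hmem' : ∀ r : ℝ, r ∈ H' ↔ ((r : ℝ) : AddCircle ℓ) ∈ H := fun r => Iff.rfl
  have hH'closed : IsClosed (H' : Set ℝ) := hHclosed.preimage (AddCircle.continuous_mk' ℓ)
  rcases AddSubgroup.dense_or_cyclic H' with hd | ⟨a, ha⟩
  · left
    have htop : ∀ u : AddCircle ℓ, u ∈ H := by
      intro u
      obtain ⟨r, rfl⟩ := QuotientAddGroup.mk_surjective u
      rw [← hmem']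
      have : r ∈ (H' : Set ℝ) := by rw [← hH'closed.closure_eq]; exact hd r
      exact this
    have hMu : ∀ z, z ∈ M := by
      rintro ⟨x, v⟩
      obtain ⟨v₀, hv₀⟩ := hproj x
      have := (htop (v - v₀) _ hv₀).1
      simpa using this
    intro z y
    exact hMmin (horb z) (fun y _ => hMu y) (hMu y)
  · right
    have hℓ : (ℓ : ℝ) ∈ H' := by rw [hmem', AddCircle.coe_period]; exact H.zero_mem
    rw [ha, AddSubgroup.mem_closure_singleton] at hℓ
    obtain ⟨k, hk⟩ := hℓ
    have hk0 : k ≠ 0 := by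
      rintro rfl
      have : (0 : ℝ) < ℓ := Fact.out
      rw [zero_smul] at hk; linarith
    have hkill : ∀ u ∈ H, k.natAbs • u = 0 := by
      intro u hu
      obtain ⟨r, rfl⟩ := QuotientAddGroup.mk_surjective u
      have hr : r ∈ H' := hu
      rw [ha, AddSubgroup.mem_closure_singleton] at hr
      obtain ⟨m, hm⟩ := hr
      have h1 : k • ((r : ℝ) : AddCircle ℓ) = 0 := by
        rw [← AddCircle.coe_zsmul, ← hm, smul_comm, hk, AddCircle.coe_zsmul, AddCircle.coe_period,
          smul_zero]
      rcases Int.natAbs_eq k with h | h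
      · rw [h] at h1; rw [natCast_zsmul] at h1; exact h1
      · rw [h, neg_smul, natCast_zsmul, neg_eq_zero] at h1; exact h1
    refine ⟨k.natAbs, Int.natAbs_pos.mpr hk0, ?_⟩
    choose v hv using hproj
    have hval : ∀ (x : Ω) (w : AddCircle ℓ), (x, w) ∈ M → k.natAbs • w = k.natAbs • v x := by
      intro x w hw
      have := hkill _ (hdiff x (v x) w (hv x) hw)
      rwa [smul_sub, sub_eq_zero] at this
    refine ⟨fun x => k.natAbs • v x, ?_, ?_⟩
    · rw [continuous_iff_isClosed]
      intro C hC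
      have : (fun x => k.natAbs • v x) ⁻¹' C = Prod.fst '' (M ∩ {z | k.natAbs • z.2 ∈ C}) := by
        ext x
        constructor
        · intro hx
          exact ⟨(x, v x), ⟨hv x, hx⟩, rfl⟩
        · rintro ⟨⟨x', w⟩, ⟨h1, h2⟩, rfl⟩
          simp only [Set.mem_ofPred_eq] at h2
          rw [hval x' w h1] at h2; exact h2
      rw [this]
      have h3 : IsClosed (M ∩ {z : Ω × AddCircle ℓ | k.natAbs • z.2 ∈ C}) :=
        hMc.inter (hC.preimage ((continuous_nsmul _).comp continuous_snd))
      exact (h3.isCompact.image continuous_fst).isClosed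
    · intro x
      have h1 := hMS (hv x)
      simp only [hS] at h1
      have h2 := hval _ _ h1
      simp only
      rw [← h2, smul_add]

end TMX
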