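import Pool.Agent.TMX.Ger
import Pool.Agent.TMX.I1

/-!
-/

set_option autoImplicit false

open Set Filter Topology

namespace TMX.Ger

open TMX

variable {W : Type} {Y : Sys W}

/-- left end points of the pieces left of `x` -/
def Le (Y : Sys W) (x : W × ℝ) : Set ℝ := {α | α < x.2 ∧ (α = Y.a x.1 ∨ (x.1, α) ∈ Y.A)}

theorem Le_fin (P : Pre Y) (x : W × ℝ) : (Le Y x).Finite := by
  apply ((Set.finite_singleton (Y.a x.1)).union (P.finA.image Prod.snd)).subset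
  rintro α ⟨_, h | h⟩
  · exact Or.inl h
  · exact Or.inr ⟨_, h, rfl⟩

theorem Le_max (P : Pre Y) {x : W × ℝ} (hx : x ∈ Y.S) : sSup (Le Y x) < x.2 := by
  have h := Set.Nonempty.csSup_mem (s := Le Y x) ⟨Y.a x.1, hx.2.1, Or.inl rfl⟩ (Le_fin P x)
  exact h.1

theorem lt_fst (x : W × ℝ) : (Y.lt x).1 = x.1 := rfl
theorem lt_snd (x : W × ℝ) : (Y.lt x).2 = sSup (Le Y x) := rfl

theorem lt_sep1 (P : Pre Y) {x y : W × ℝ} (hx : x ∈ Y.S \ Y.A) (hy : y ∈ Y.S \ Y.A)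
    (h : Y.lt x = Y.lt y) :
    x.1 = y.1 ∧ ∀ o : ℝ, x.2 ≤ o → o ≤ y.2 → (x.1, o) ∈ Y.S \ Y.A := by
  have h1 : x.1 = y.1 := by
    have : (Y.lt x).1 = (Y.lt y).1 := by rw [h]
    exact this
  refine ⟨h1, ?_⟩
  intro o hxo hoy
  refine ⟨⟨hx.1.1, lt_of_lt_of_le hx.1.2.1 hxo, ?_⟩, ?_⟩
  · have := hy.1.2.2
    rw [← h1] at this
    exact lt_of_le_of_lt hoy this
  · intro hA
    have h2 : x.2 ≠ o := by
      intro h2
      apply hx.2
      rw [← h2] at hA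
      exact hA
    have h3 : o ≠ y.2 := by
      intro h3
      apply hy.2
      rw [h3, h1] at hA
      exact hA
    have h4 : o ≤ sSup (Le Y y) := by
      apply le_csSup (Le_fin P y).bddAbove
      exact ⟨lt_of_le_of_ne hoy h3, Or.inr (by rw [← h1]; exact hA)⟩
    have h5 := Le_max P hx.1
    have h6 : sSup (Le Y x) = sSup (Le Y y) := by
      have : (Y.lt x).2 = (Y.lt y).2 := by rw [h]
      exact this
    have h7 := lt_of_le_of_ne hxo h2
    linarith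

/-- segment form -/
theorem lt_sep (P : Pre Y) {x : W × ℝ} {s τ : ℝ} (hs : Sn s) (hx : x ∈ Y.S \ Y.A)
    (hy : sh x (s * τ) ∈ Y.S \ Y.A) (h : Y.lt x = Y.lt (sh x (s * τ))) :
    ∀ t : ℝ, 0 ≤ t → t ≤ τ → sh x (s * t) ∈ Y.S \ Y.A := by
  intro t h0 h1
  rcases hs with rfl | rfl
  · exact (lt_sep1 P hx hy h).2 _ (by linarith) (by rw [sh_snd]; linarith)
  · exact (lt_sep1 P hy hx h.symm).2 (x.2 + -1 * t) (by rw [sh_snd]; linarith) (by linarith)

theorem lt_eq1 {x y : W × ℝ} (hx : x ∈ Y.S) (h1 : x.1 = y.1) (hxy : x.2 ≤ y.2)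
    (h : ∀ o : ℝ, x.2 ≤ o → o < y.2 → (x.1, o) ∉ Y.A) : Y.lt x = Y.lt y := by
  have h2 : Le Y x = Le Y y := by
    ext α
    constructor
    · rintro ⟨h3, h4⟩
      exact ⟨by linarith, by rw [← h1]; exact h4⟩
    · rintro ⟨h3, h4⟩
      rw [← h1] at h4
      refine ⟨?_, h4⟩
      by_contra hcon
      push Not at hcon
      rcases h4 with h4 | h4
      · have := hx.2.1
        linarith
      · exact h α hcon h3 h4
  exact Prod.ext h1 (by rw [lt_snd, lt_snd, h2])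

theorem lt_eq {x : W × ℝ} {s τ : ℝ} (hs : Sn s) (hτ : 0 ≤ τ)
    (h : ∀ t : ℝ, 0 ≤ t → t ≤ τ → sh x (s * t) ∈ Y.S \ Y.A) :
    Y.lt (sh x (s * τ)) = Y.lt x := by
  have hx : x ∈ Y.S \ Y.A := by
    have := h 0 le_rfl hτ
    rwa [mul_zero, sh_zero] at this
  have hy := h τ hτ le_rfl
  rcases hs with rfl | rfl
  · refine (lt_eq1 (y := sh x (1 * τ)) hx.1 rfl (by rw [sh_snd]; linarith) ?_).symm
    intro o h1 h2
    rw [sh_snd] at h2
    have h3 := (h (o - x.2) (by linarith) (by linarith)).2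
    have h4 : sh x (1 * (o - x.2)) = (x.1, o) := Prod.ext rfl (by rw [sh_snd]; ring)
    rwa [h4] at h3
  · refine lt_eq1 (x := sh x (-1 * τ)) hy.1 rfl (by rw [sh_snd]; linarith) ?_
    intro o h1 h2
    rw [sh_snd] at h1
    have h3 := (h (x.2 - o) (by linarith) (by linarith)).2
    have h4 : sh x (-1 * (x.2 - o)) = (x.1, o) := Prod.ext rfl (by rw [sh_snd]; ring)
    rw [h4] at h3
    exact h3

theorem lt_loc (P : Pre Y) {x : W × ℝ} (hx : x ∈ Y.S \ Y.A) :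
    ∃ δ > 0, ∀ t : ℝ, |t| < δ → Y.lt (sh x t) = Y.lt x := by
  obtain ⟨e, he, δ, hδ, h⟩ := P.loc x hx
  refine ⟨δ, hδ, ?_⟩
  intro t ht
  rcases le_total 0 t with h0 | h0
  · rw [abs_of_nonneg h0] at ht
    have := lt_eq (x := x) (s := 1) (τ := t) (Or.inl rfl) h0 (fun u hu0 hut => (h (1 * u) (by
      rw [one_mul, abs_of_nonneg hu0]; linarith)).1)
    rwa [one_mul] at this
  · rw [abs_of_nonpos h0] at ht
    have := lt_eq (x := x) (s := -1) (τ := -t) (Or.inr rfl) (by linarith) (fun u hu0 hut =>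
      (h (-1 * u) (by rw [neg_one_mul, abs_neg, abs_of_nonneg hu0]; linarith)).1)
    rwa [neg_one_mul, neg_neg] at this

/-- the points with the code `ω` up to time `M` -/
def Cy (Y : Sys W) (ω : ℕ → W × ℝ) (M : ℕ) : Set (W × ℝ) :=
  {x | x ∈ Y.S ∧ ∀ k < M, Y.T^[k] x ∉ Y.A ∧ Y.lt (Y.T^[k] x) = ω k}

/-- cylinders are convex and the iterates are affine on them -/
theorem cyl_aff (P : Pre Y) {ω : ℕ → W × ℝ} {M : ℕ} {x : W × ℝ} {s τ : ℝ} (hs : Sn s)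
    (hτ : 0 ≤ τ) (hx : x ∈ Cy Y ω M) (hy : sh x (s * τ) ∈ Cy Y ω M) {n : ℕ} (hn : n ≤ M) :
    ∃ e : ℝ, Sn e ∧ ∀ t : ℝ, 0 ≤ t → t ≤ τ → Y.T^[n] (sh x (s * t)) = sh (Y.T^[n] x) (e * t) ∧
      ∀ k < n, Y.T^[k] (sh x (s * t)) ∉ Y.A ∧ Y.lt (Y.T^[k] (sh x (s * t))) = ω k := by
  induction n with
  | zero => exact ⟨s, hs, fun t _ _ => ⟨rfl, fun k hk => absurd hk (by omega)⟩⟩
  | succ n ih =>
    obtain ⟨e, he, h1⟩ := ih (by omega)
    have h2 : Y.T^[n] x ∈ Y.S \ Y.A :=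
      ⟨iter_mem P hx.1 fun k hk => (hx.2 k (by omega)).1, (hx.2 n (by omega)).1⟩
    have h3 : Y.T^[n] (sh x (s * τ)) ∈ Y.S \ Y.A :=
      ⟨iter_mem P hy.1 fun k hk => (hy.2 k (by omega)).1, (hy.2 n (by omega)).1⟩
    have h3' := h3
    rw [(h1 τ hτ le_rfl).1] at h3
    have h4 : Y.lt (Y.T^[n] x) = Y.lt (sh (Y.T^[n] x) (e * τ)) := by
      rw [← (h1 τ hτ le_rfl).1, (hx.2 n (by omega)).2, (hy.2 n (by omega)).2]
    have h5 := lt_sep P he h2 h3 h4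
    obtain ⟨z, f, hf, h6⟩ := seg P he (I := Icc 0 τ) isPreconnected_Icc ⟨0, le_rfl, hτ⟩
      (fun t ht => h5 t ht.1 ht.2)
    have h7 : z = Y.T (Y.T^[n] x) := by
      have := h6 0 ⟨le_rfl, hτ⟩
      rw [mul_zero, sh_zero, mul_zero, sh_zero] at this
      exact this.symm
    refine ⟨f, hf, ?_⟩
    intro t h0 ht
    obtain ⟨h8, h9⟩ := h1 t h0 ht
    refine ⟨?_, ?_⟩
    · rw [Function.iterate_succ_apply', h8, h6 t ⟨h0, ht⟩, h7, Function.iterate_succ_apply']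
    · intro k hk
      rcases Nat.lt_succ_iff_lt_or_eq.1 hk with hk | rfl
      · exact h9 k hk
      · refine ⟨?_, ?_⟩
        · rw [h8]
          exact (h5 t h0 ht).2
        · rw [h8, lt_eq he h0 (fun u hu0 hut => h5 u hu0 (by linarith)), (hx.2 k (by omega)).2]

theorem Cy_mono {ω : ℕ → W × ℝ} {M N : ℕ} (h : M ≤ N) : Cy Y ω N ⊆ Cy Y ω M :=
  fun _ hx => ⟨hx.1, fun k hk => hx.2 k (by omega)⟩

/-- convexity -/
theorem Cy_conv (P : Pre Y) {ω : ℕ → W × ℝ} {M : ℕ} {x : W × ℝ} {s t1 t2 t : ℝ} (hs : Sn s)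
    (h1 : sh x (s * t1) ∈ Cy Y ω M) (h2 : sh x (s * t2) ∈ Cy Y ω M) (h1t : t1 ≤ t)
    (ht2 : t ≤ t2) : sh x (s * t) ∈ Cy Y ω M := by
  have e1 : sh x (s * t2) = sh (sh x (s * t1)) (s * (t2 - t1)) := by
    rw [sh_sh]; congr 1; ring
  have e2 : sh x (s * t) = sh (sh x (s * t1)) (s * (t - t1)) := by
    rw [sh_sh]; congr 1; ring
  rw [e1] at h2
  obtain ⟨e, he, h3⟩ := cyl_aff P hs (by linarith) h1 h2 le_rfl
  have h4 := (h3 (t - t1) (by linarith) (by linarith)).2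
  rw [e2]
  refine ⟨⟨h1.1.1, ?_, ?_⟩, h4⟩
  · have k1 := h1.1.2.1
    have k2 := h2.1.2.1
    simp only [sh_fst, sh_snd] at k1 k2 ⊢
    rcases hs with rfl | rfl <;> linarith
  · have k1 := h1.1.2.2
    have k2 := h2.1.2.2
    simp only [sh_fst, sh_snd] at k1 k2 ⊢
    rcases hs with rfl | rfl <;> linarith

/-- every element of the subshift is eventually the code of an infinite orbit -/
theorem om_orbit (ok : Y.Ok) {ω : ℕ → W × ℝ} (hω : ω ∈ Y.Om) :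
    ∃ m : ℕ, ∃ z ∈ Y.S, (∀ n : ℕ, Y.T^[n] z ∉ Y.A) ∧
      ∀ k : ℕ, Y.lt (Y.T^[k] z) = ω (m + k) := by
  have P := Pre.of ok
  have hne : ∀ M, (Cy Y ω M).Nonempty := by
    intro M
    obtain ⟨x, hx, h⟩ := hω M
    exact ⟨x, hx, h⟩
  set w := (ω 0).1 with hw
  have hfst : ∀ M, ∀ x ∈ Cy Y ω (M + 1), x.1 = w := by
    intro M x hx
    have := (hx.2 0 (by omega)).2
    rw [hw, ← this]
    rfl
  -- a point in the closure of all cylinders
  obtain ⟨o, ho⟩ : ∃ o : ℝ, ∀ M, o ∈ closure {u | (w, u) ∈ Cy Y ω (M + 1)} := by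
    have h1 := IsCompact.nonempty_iInter_of_sequence_nonempty_isCompact_isClosed
      (fun M => closure {u | (w, u) ∈ Cy Y ω (M + 1)}) ?_ ?_ ?_ ?_
    · obtain ⟨o, ho⟩ := h1
      exact ⟨o, fun M => Set.mem_iInter.1 ho M⟩
    · intro M
      exact closure_mono fun u hu => Cy_mono (by omega) hu
    · intro M
      obtain ⟨x, hx⟩ := hne (M + 1)
      refine ⟨x.2, subset_closure ?_⟩
      have : (w, x.2) = x := Prod.ext (hfst M x hx).symm rfl
      change (w, x.2) ∈ Cy Y ω (M + 1)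
      rw [this]
      exact hx
    · apply (isCompact_Icc (a := Y.a w) (b := Y.b w)).of_isClosed_subset isClosed_closure
      apply closure_minimal _ isClosed_Icc
      intro u hu
      exact ⟨hu.1.2.1.le, hu.1.2.2.le⟩
    · intro M
      exact isClosed_closure
  set z : W × ℝ := (w, o) with hz
  have hcl : ∀ M, ∀ ε > 0, ∃ t : ℝ, |t| < ε ∧ sh z t ∈ Cy Y ω (M + 1) := by
    intro M ε hε
    obtain ⟨u, hu, hd⟩ := Metric.mem_closure_iff.1 (ho M) ε hε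
    refine ⟨u - o, by rw [← Real.dist_eq, dist_comm]; exact hd, ?_⟩
    have : sh z (u - o) = (w, u) := Prod.ext rfl (by rw [sh_snd]; ring)
    rw [this]
    exact hu
  by_cases hall : ∀ M, z ∈ Cy Y ω (M + 1)
  · refine ⟨0, z, (hall 0).1, fun n => ((hall n).2 n (by omega)).1, fun k => ?_⟩
    rw [zero_add]
    exact ((hall k).2 k (by omega)).2
  push Not at hall
  obtain ⟨M0, hM0⟩ := hall
  -- the side
  obtain ⟨s, hs, t0, ht0, h0⟩ : ∃ s : ℝ, Sn s ∧ ∃ t0 > 0, sh z (s * t0) ∈ Cy Y ω (M0 + 1) := by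
    obtain ⟨t, _, ht⟩ := hcl M0 1 one_pos
    rcases lt_trichotomy t 0 with h | h | h
    · exact ⟨-1, Or.inr rfl, -t, by linarith, by rwa [neg_one_mul, neg_neg]⟩
    · rw [h, sh_zero] at ht
      exact absurd ht hM0
    · exact ⟨1, Or.inl rfl, t, h, by rwa [one_mul]⟩
  have hside : ∀ M, M0 ≤ M → ∀ t : ℝ, sh z t ∈ Cy Y ω (M + 1) → 0 < s * t := by
    intro M hM t ht
    by_contra hcon
    push Not at hcon
    have h1 : sh z (s * (s * t)) ∈ Cy Y ω (M0 + 1) := by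
      rw [hs.mm]
      exact Cy_mono (by omega) ht
    have h2 := Cy_conv P hs h1 h0 hcon ht0.le
    rw [mul_zero, sh_zero] at h2
    exact hM0 h2
  have hin : ∀ M, ∃ δ > 0, ∀ t : ℝ, 0 < t → t < δ → sh z (s * t) ∈ Cy Y ω (M + 1) := by
    have : ∀ M, M0 ≤ M → ∃ δ > 0, ∀ t : ℝ, 0 < t → t < δ → sh z (s * t) ∈ Cy Y ω (M + 1) := by
      intro M hM
      obtain ⟨u, _, hu⟩ := hcl M 1 one_pos
      have hu0 := hside M hM u hu
      refine ⟨s * u, hu0, ?_⟩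
      intro t ht htu
      obtain ⟨v, hv, hv'⟩ := hcl M t ht
      have hv0 := hside M hM v hv'
      have e1 : sh z (s * (s * u)) ∈ Cy Y ω (M + 1) := by rw [hs.mm]; exact hu
      have e2 : sh z (s * (s * v)) ∈ Cy Y ω (M + 1) := by rw [hs.mm]; exact hv'
      refine Cy_conv P hs e2 e1 ?_ htu.le
      rw [← hs.abs] at hv
      exact (le_of_lt (lt_of_le_of_lt (le_abs_self _) hv))
    intro M
    obtain ⟨δ, hδ, h⟩ := this (max M M0) (le_max_right _ _)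
    refine ⟨δ, hδ, fun t ht htd => Cy_mono ?_ (h t ht htd)⟩
    have := le_max_left M M0
    omega
  have hdir : Dir Y z s := by
    obtain ⟨δ, hδ, h⟩ := hin 0
    exact ⟨hs, δ, hδ, fun t ht htd => (h t ht htd).1⟩
  obtain ⟨X, σ, hX0, hσ0, G⟩ := exists_GS P hdir
  obtain ⟨m, hm⟩ : ∃ m, ∀ k, m ≤ k → X k ∈ Y.S \ Y.A := by
    by_cases hall : ∀ k, X k ∈ Y.S \ Y.A
    · exact ⟨0, fun k _ => hall k⟩
    · push Not at hall
      obtain ⟨n, hn⟩ := hall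
      exact ⟨n + 2, fun k hk => G.evgood ok hn hk⟩
  have hit : ∀ k, Y.T^[k] (X m) = X (m + k) :=
    fun k => (G.iter P fun j _ => hm _ (by omega)).symm
  refine ⟨m, X m, (hm m le_rfl).1, fun n => by rw [hit]; exact (hm _ (by omega)).2, ?_⟩
  intro k
  rw [hit]
  obtain ⟨δ1, hδ1, h1⟩ := lt_loc P (hm (m + k) (by omega))
  obtain ⟨δ2, hδ2, h2⟩ := G.step (m + k)
  obtain ⟨δ3, hδ3, h3⟩ := hin (m + k)
  have hp : 0 < min δ1 (min δ2 δ3) := lt_min hδ1 (lt_min hδ2 hδ3)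
  have a1 : min δ1 (min δ2 δ3) ≤ δ1 := min_le_left _ _
  have a2 : min δ1 (min δ2 δ3) ≤ δ2 := le_trans (min_le_right _ _) (min_le_left _ _)
  have a3 : min δ1 (min δ2 δ3) ≤ δ3 := le_trans (min_le_right _ _) (min_le_right _ _)
  set t := min δ1 (min δ2 δ3) / 2 with ht
  have ht0 : 0 < t := by linarith
  have k1 := h1 (σ (m + k) * t) (by
    rw [(G.dir _).1.abs, abs_of_pos ht0]; linarith)
  have k2 := (h2 t ht0 (by linarith)).2
  have k3 := ((h3 t ht0 (by linarith)).2 (m + k) (by omega)).2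
  rw [hX0, hσ0] at k2
  rw [← k1, ← k2, k3]

theorem cyl_open (P : Pre Y) {y : W × ℝ} (hy : y ∈ Y.S) {N : ℕ} (h : ∀ k < N, Y.T^[k] y ∉ Y.A) :
    ∃ δ > 0, ∀ t : ℝ, |t| < δ → ∀ k < N, Y.lt (Y.T^[k] (sh y t)) = Y.lt (Y.T^[k] y) := by
  induction N with
  | zero => exact ⟨1, one_pos, fun t _ k hk => absurd hk (by omega)⟩
  | succ N ih =>
    obtain ⟨δ1, hδ1, h1⟩ := ih fun k hk => h k (by omega)
    obtain ⟨e, he, δ2, hδ2, h2⟩ := loc_iter P hy (n := N) fun k hk => h k (by omega)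
    obtain ⟨δ3, hδ3, h3⟩ := lt_loc P (x := Y.T^[N] y)
      ⟨iter_mem P hy fun k hk => h k (by omega), h N (by omega)⟩
    have a1 : min δ1 (min δ2 δ3) ≤ δ1 := min_le_left _ _
    have a2 : min δ1 (min δ2 δ3) ≤ δ2 := le_trans (min_le_right _ _) (min_le_left _ _)
    have a3 : min δ1 (min δ2 δ3) ≤ δ3 := le_trans (min_le_right _ _) (min_le_right _ _)
    refine ⟨min δ1 (min δ2 δ3), lt_min hδ1 (lt_min hδ2 hδ3), ?_⟩
    intro t ht k hk
    rcases Nat.lt_succ_iff_lt_or_eq.1 hk with hk | rfl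
    · exact h1 t (by linarith) k hk
    · rw [(h2 t (by linarith)).2]
      exact h3 _ (by rw [he.abs]; linarith)

end TMX.Ger

namespace TMX

open TMX.Ger

/-- locally constant functions are functions of the letter -/
theorem lt_const {W : Type} (Y : Sys W) (ok : Y.Ok) (f : W × ℝ → ℝ)
    (hf : ∀ x ∈ Y.S \ Y.A, ∀ᶠ t in 𝓝 (0 : ℝ), f (x.1, x.2 + t) = f x)
    {x y : W × ℝ} (hx : x ∈ Y.S \ Y.A) (hy : y ∈ Y.S \ Y.A) (h : Y.lt x = Y.lt y) :
    f x = f y := by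
  have P := Pre.of ok
  have key : ∀ x y : W × ℝ, x ∈ Y.S \ Y.A → y ∈ Y.S \ Y.A → Y.lt x = Y.lt y → x.2 ≤ y.2 →
      f x = f y := by
    intro x y hx hy h hxy
    obtain ⟨h1, h2⟩ := lt_sep1 P hx hy h
    have h3 := (isPreconnected_Icc (a := x.2) (b := y.2)).induction₂
      (fun u v => f (x.1, u) = f (x.1, v)) (by
        intro u hu
        have h4 := hf (x.1, u) (h2 u hu.1 hu.2)
        obtain ⟨δ, hδ, h4⟩ := ev0.1 h4
        apply mem_nhdsWithin_of_mem_nhds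
        rw [Metric.mem_nhds_iff]
        refine ⟨δ, hδ, ?_⟩
        intro v hv
        rw [Metric.mem_ball, Real.dist_eq] at hv
        have h5 := h4 (v - u) hv
        have h6 : (x.1, u + (v - u)) = (x.1, v) := by rw [add_sub_cancel]
        change f (x.1, u) = f (x.1, v)
        rw [← h6]
        exact h5.symm) (fun a b c _ _ _ k1 k2 => k1.trans k2) (fun a b _ _ k => k.symm)
      (left_mem_Icc.2 hxy) (right_mem_Icc.2 hxy)
    have h4 : y = (x.1, y.2) := Prod.ext h1.symm rfl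
    rw [h4]
    exact h3
  rcases le_total x.2 y.2 with h1 | h1
  · exact key x y hx hy h h1
  · exact (key y x hy hx h.symm h1).symm

/-- the subshift is minimal -/
theorem om_min {W : Type} (Y : Sys W) (ok : Y.Ok) {ω η : ℕ → W × ℝ} (hω : ω ∈ Y.Om)
    (hη : η ∈ Y.Om) (N : ℕ) : ∃ n : ℕ, ∀ k < N, ω (n + k) = η k := by
  have P := Pre.of ok
  obtain ⟨m, z, hz, hzA, hzω⟩ := om_orbit ok hω
  obtain ⟨y, hy, h⟩ := hη N
  obtain ⟨δ, hδ, h1⟩ := cyl_open P hy (N := N) fun k hk => (h k hk).1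
  obtain ⟨n, h2, h3⟩ := dense Y ok z hz hzA y hy δ hδ
  refine ⟨m + n, ?_⟩
  intro k hk
  have h4 := h1 _ h3 k hk
  rw [sh_diff h2.symm, (h k hk).2, ← Function.iterate_add_apply, hzω] at h4
  rw [← h4]
  congr 1
  omega

end TMX
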