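import Pool.Agent.TMX.I1

/-! # TMX: row I5c (lengths of cylinders) -/

set_option autoImplicit false

open Set Filter Topology

namespace TMX

variable {W : Type}

/-- The letter is locally constant. -/
theorem Sys.lt_loc {Y : Sys W} (ok : Y.Ok) {x : W × ℝ} (hx : x ∈ Y.S \ Y.A) :
    ∀ᶠ t in 𝓝 (0 : ℝ), Y.lt (x.1, x.2 + t) = Y.lt x := by
  set P : Set ℝ := {α | α = Y.a x.1 ∨ (x.1, α) ∈ Y.A} with hP
  have hPf : P.Finite := by
    have h1 : ((fun α : ℝ => (x.1, α)) ⁻¹' Y.A).Finite :=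
      ok.finA.preimage (fun α _ β _ h => (Prod.mk.inj h).2)
    exact (Set.finite_singleton (Y.a x.1)).union h1
  have hxP : x.2 ∉ P := by
    rintro (h | h)
    · have := hx.1.2.1; rw [h] at this; exact lt_irrefl _ this
    · exact hx.2 h
  obtain ⟨δ, hδ, hb⟩ := Metric.isOpen_iff.mp hPf.isClosed.isOpen_compl x.2 hxP
  have hball : ∀ᶠ t in 𝓝 (0 : ℝ), |t| < δ := by
    filter_upwards [Metric.ball_mem_nhds (0 : ℝ) hδ] with t ht
    simpa [Real.dist_eq] using ht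
  filter_upwards [hball] with t ht
  unfold Sys.lt
  simp only [Prod.mk.injEq, true_and]
  congr 1
  ext α
  simp only [Set.mem_ofPred_eq]
  constructor
  · rintro ⟨h1, h2⟩
    refine ⟨?_, h2⟩
    by_contra hc
    have : α ∈ Metric.ball x.2 δ := by
      rw [Metric.mem_ball, Real.dist_eq, abs_lt]
      have := abs_lt.mp ht
      constructor <;> linarith
    exact hb this h2
  · rintro ⟨h1, h2⟩
    refine ⟨?_, h2⟩
    by_contra hc
    have : α ∈ Metric.ball x.2 δ := by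
      rw [Metric.mem_ball, Real.dist_eq, abs_lt]
      have := abs_lt.mp ht
      constructor <;> linarith
    exact hb this h2

/-- Locally constant on a connected set. -/
theorem const_of_loc {g : ℝ → ℝ} {I : Set ℝ} (hI : IsPreconnected I)
    (h : ∀ x ∈ I, ∀ᶠ t in 𝓝 x, g t = g x) {x y : ℝ} (hx : x ∈ I) (hy : y ∈ I) : g y = g x := by
  have := aff_ext (fun t => ((), g t)) hI (fun t₀ ht₀ => ⟨((), g t₀), 0, by
    filter_upwards [h t₀ ht₀] with t ht
    simp [ht]⟩) hx (y := ((), g x)) (e := 0) (by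
    filter_upwards [h x hx] with t ht
    simp [ht]) y hy
  simpa using this

/-- Integral of a function which is locally constant off a finite set. -/
theorem int_loc_const {V : AddSubgroup ℝ} {g : ℝ → ℝ} (hgV : ∀ x, ∀ v ∈ V, g x * v ∈ V) {F : Set ℝ}
    (hF : F.Finite) : ∀ a b : ℝ, a ≤ b → a ∈ V → b ∈ V → (∀ c ∈ F, c ∈ Ioo a b → c ∈ V) →
      (∀ x ∈ Ioo a b, x ∉ F → ∀ᶠ t in 𝓝 x, g t = g x) →
      IntervalIntegrable g MeasureTheory.volume a b ∧ ∫ x in a..b, g x ∈ V := by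
  induction F, hF using Set.Finite.induction_on with
  | empty =>
    intro a b hab ha hb _ h
    rcases hab.lt_or_eq with hlt | heq
    · have hm : (a + b) / 2 ∈ Ioo a b := ⟨by linarith, by linarith⟩
      have hc : ∀ x ∈ Ioo a b, g x = g ((a + b) / 2) := fun x hx =>
        const_of_loc isPreconnected_Ioo (fun x hx => h x hx (notMem_empty _)) hm hx
      have hae : ∀ᵐ x ∂MeasureTheory.volume, x ∈ uIoc a b → (fun _ => g ((a + b) / 2)) x = g x := by
        have : ∀ᵐ x : ℝ ∂MeasureTheory.volume, x ≠ b := by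
          simp [MeasureTheory.ae_iff]
        filter_upwards [this] with x hx hx'
        rw [uIoc_of_le hab] at hx'
        exact (hc x ⟨hx'.1, lt_of_le_of_ne hx'.2 hx⟩).symm
      refine ⟨?_, ?_⟩
      · have h0 : IntervalIntegrable (fun _ : ℝ => g ((a + b) / 2)) MeasureTheory.volume a b :=
          intervalIntegrable_const
        exact h0.congr_ae ((MeasureTheory.ae_restrict_iff' measurableSet_uIoc).mpr hae)
      · rw [← intervalIntegral.integral_congr_ae hae]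
        simp only [intervalIntegral.integral_const, smul_eq_mul]
        rw [mul_comm]
        exact hgV _ _ (V.sub_mem hb ha)
    · subst heq; simp [V.zero_mem]
  | @insert c F hcF hF ih =>
    intro a b hab ha hb hV h
    by_cases hc : c ∈ Ioo a b
    · have hcV : c ∈ V := hV c (mem_insert _ _) hc
      obtain ⟨h1, h2⟩ := ih a c hc.1.le ha hcV
        (fun d hd hd' => hV d (mem_insert_of_mem _ hd) ⟨hd'.1, hd'.2.trans hc.2⟩)
        (fun x hx hxF => h x ⟨hx.1, hx.2.trans hc.2⟩ (by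
          rintro (rfl | h')
          · exact lt_irrefl _ hx.2
          · exact hxF h'))
      obtain ⟨h3, h4⟩ := ih c b hc.2.le hcV hb
        (fun d hd hd' => hV d (mem_insert_of_mem _ hd) ⟨hc.1.trans hd'.1, hd'.2⟩)
        (fun x hx hxF => h x ⟨hc.1.trans hx.1, hx.2⟩ (by
          rintro (rfl | h')
          · exact lt_irrefl _ hx.1
          · exact hxF h'))
      refine ⟨h1.trans h3, ?_⟩
      rw [← intervalIntegral.integral_add_adjacent_intervals h1 h3]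
      exact V.add_mem h2 h4
    · exact ih a b hab ha hb (fun d hd hd' => hV d (mem_insert_of_mem _ hd) hd')
        (fun x hx hxF => h x hx (by
          rintro (rfl | h')
          · exact hc hx
          · exact hxF h'))

/-- Points that do not meet `A` before time `N` are regular. -/
theorem Sys.reg_of_notMem {Y : Sys W} (ok : Y.Ok) {x : W × ℝ} (hx : x ∈ Y.S) (N : ℕ)
    (h : ∀ k < N, Y.T^[k] x ∉ Y.A) : Y.T^[N] x ∈ Y.S ∧ ∀ k < N, Y.T^[k] x ∈ Y.S \ Y.A := by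
  induction N with
  | zero => exact ⟨hx, fun k hk => absurd hk (Nat.not_lt_zero k)⟩
  | succ N ih =>
    obtain ⟨h1, h2⟩ := ih fun k hk => h k (by omega)
    have h3 : Y.T^[N] x ∈ Y.S \ Y.A := ⟨h1, h N (by omega)⟩
    refine ⟨by rw [Function.iterate_succ_apply']; exact ok.mapsTo h3, fun k hk => ?_⟩
    rcases Nat.lt_succ_iff_lt_or_eq.mp hk with hk | rfl
    · exact h2 k hk
    · exact h3

theorem Sys.iter_injOn {Y : Sys W} (ok : Y.Ok) (N : ℕ) :
    InjOn Y.T^[N] {x | x ∈ Y.S ∧ ∀ k < N, Y.T^[k] x ∉ Y.A} := by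
  induction N with
  | zero => intro x _ y _ h; exact h
  | succ N ih =>
    intro x hx y hy h
    have h1 := (Sys.reg_of_notMem ok hx.1 (N + 1) hx.2).2 N (by omega)
    have h2 := (Sys.reg_of_notMem ok hy.1 (N + 1) hy.2).2 N (by omega)
    rw [Function.iterate_succ_apply', Function.iterate_succ_apply'] at h
    exact ih ⟨hx.1, fun k hk => hx.2 k (by omega)⟩ ⟨hy.1, fun k hk => hy.2 k (by omega)⟩
      (ok.bij.injOn h1 h2 h)

/-- The points that meet `A` before time `N` form a finite set. -/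
theorem Sys.hit_finite {Y : Sys W} (ok : Y.Ok) (N : ℕ) :
    {x | x ∈ Y.S ∧ ∃ k < N, Y.T^[k] x ∈ Y.A}.Finite := by
  have h : ∀ k : ℕ, {x | (x ∈ Y.S ∧ ∀ j < k, Y.T^[j] x ∉ Y.A) ∧ Y.T^[k] x ∈ Y.A}.Finite := by
    intro k
    apply Set.Finite.of_finite_image (f := Y.T^[k])
    · apply ok.finA.subset
      rintro _ ⟨x, hx, rfl⟩
      exact hx.2
    · exact (Sys.iter_injOn ok k).mono fun x hx => hx.1
  apply (Set.Finite.biUnion (Set.finite_lt_nat N) fun k _ => h k).subset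
  rintro x ⟨hx, hex⟩
  classical
  have hex' : ∃ k, Y.T^[k] x ∈ Y.A := by
    obtain ⟨k, _, hk⟩ := hex; exact ⟨k, hk⟩
  simp only [mem_iUnion]
  refine ⟨Nat.find hex', ?_, ⟨hx, fun j hj => Nat.find_min hex' hj⟩, Nat.find_spec hex'⟩
  obtain ⟨k, hk, hkA⟩ := hex
  exact lt_of_le_of_lt (Nat.find_min' hex' hkA) hk

/-- Pulling back coordinates in `V`. -/
theorem Sys.pull_V {Y : Sys W} (ok : Y.Ok) (V : AddSubgroup ℝ)
    (hVT : ∀ x ∈ Y.S \ Y.A, ∀ e : ℝ,
      (∀ᶠ t in 𝓝 (0 : ℝ), Y.T (x.1, x.2 + t) = ((Y.T x).1, (Y.T x).2 + e * t)) →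
      (Y.T x).2 - e * x.2 ∈ V) (k : ℕ) : ∀ x ∈ Y.S, (∀ j < k, Y.T^[j] x ∉ Y.A) →
      (Y.T^[k] x).2 ∈ V → x.2 ∈ V := by
  induction k with
  | zero => intro x _ _ h; exact h
  | succ k ih =>
    intro x hx hj h
    have hx' : x ∈ Y.S \ Y.A := ⟨hx, hj 0 (by omega)⟩
    have h1 : (Y.T x).2 ∈ V := by
      apply ih _ (ok.mapsTo hx') (fun j hj' => by
        rw [← Function.iterate_succ_apply]; exact hj (j + 1) (by omega))
      rw [← Function.iterate_succ_apply]; exact h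
    obtain ⟨e, he, hloc⟩ := ok.loc x hx'
    have h2 := hVT x hx' e (hloc.mono fun t ht => ht.2)
    have h3 := V.sub_mem h1 h2
    rcases he with he | he
    · rw [he] at h3; simpa using h3
    · rw [he] at h3
      have := V.neg_mem h3
      simpa using this

/-- Functions of the first `N` letters are locally constant. -/
theorem Sys.cyl_loc {Y : Sys W} (ok : Y.Ok) {β : Type} (N : ℕ) (g : W × ℝ → β)
    (hg : ∀ x ∈ Y.S, ∀ y ∈ Y.S, (∀ k < N, Y.T^[k] x ∉ Y.A ∧ Y.T^[k] y ∉ Y.A ∧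
      Y.lt (Y.T^[k] x) = Y.lt (Y.T^[k] y)) → (N = 0 → x.1 = y.1) → g x = g y)
    {x : W × ℝ} (hx : x ∈ Y.S) (h : ∀ k < N, Y.T^[k] x ∉ Y.A) :
    ∀ᶠ t in 𝓝 (0 : ℝ), g (x.1, x.2 + t) = g x := by
  obtain ⟨_, h2⟩ := Sys.reg_of_notMem ok hx N h
  have hk : ∀ k ∈ {k | k < N}, ∀ᶠ t in 𝓝 (0 : ℝ), Y.T^[k] (x.1, x.2 + t) ∈ Y.S \ Y.A ∧
      Y.lt (Y.T^[k] (x.1, x.2 + t)) = Y.lt (Y.T^[k] x) := by
    intro k hk
    obtain ⟨e, he, hev⟩ := Sys.iter_aff ok (k + 1) x fun j hj => h2 j (by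
      have : k < N := hk
      omega)
    obtain ⟨e', he', hev'⟩ := Sys.iter_aff ok k x fun j hj => h2 j (by
      have : k < N := hk
      omega)
    have ht : Tendsto (fun t : ℝ => e' * t) (𝓝 0) (𝓝 0) := by
      have := (by fun_prop : Continuous fun t : ℝ => e' * t).tendsto 0
      simpa using this
    filter_upwards [hev, hev', ht.eventually (Sys.lt_loc ok (h2 k hk))] with t h1 h3 h4
    refine ⟨h1.1 k (by omega), ?_⟩
    rw [h3.2]; exact h4
  have hall := (Filter.eventually_all_finite (Set.finite_lt_nat N)).mpr hk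
  filter_upwards [hall, Y.S_nhds hx] with t ht hS
  exact hg _ hS x hx (fun k hk => ⟨(ht k hk).1.2, h k hk, (ht k hk).2⟩) fun _ => rfl

/-- [I5c] lengths of cylinders. -/
theorem cyl_len (Y : Sys W) (ok : Y.Ok)
    (V : AddSubgroup ℝ) (hVa : ∀ w ∈ Y.C, Y.a w ∈ V ∧ Y.b w ∈ V) (hVA : ∀ x ∈ Y.A, x.2 ∈ V)
    (hVT : ∀ x ∈ Y.S \ Y.A, ∀ e : ℝ,
      (∀ᶠ t in 𝓝 (0 : ℝ), Y.T (x.1, x.2 + t) = ((Y.T x).1, (Y.T x).2 + e * t)) →
      (Y.T x).2 - e * x.2 ∈ V)
    (N : ℕ) (g : W × ℝ → ℤ)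
    (hg : ∀ x ∈ Y.S, ∀ y ∈ Y.S, (∀ k < N, Y.T^[k] x ∉ Y.A ∧ Y.T^[k] y ∉ Y.A ∧
      Y.lt (Y.T^[k] x) = Y.lt (Y.T^[k] y)) → (N = 0 → x.1 = y.1) → g x = g y) :
    ∑ w ∈ Y.C, ∫ o in (Y.a w)..(Y.b w), (g (w, o) : ℝ) ∈ V := by
  apply V.sum_mem
  intro w hw
  have hfin : {o : ℝ | (w, o) ∈ {x | x ∈ Y.S ∧ ∃ k < N, Y.T^[k] x ∈ Y.A}}.Finite :=
    (Sys.hit_finite ok N).preimage (fun α _ β _ h => (Prod.mk.inj h).2)
  refine (int_loc_const (V := V) (g := fun o => (g (w, o) : ℝ))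
    (fun x v hv => by rw [← zsmul_eq_mul]; exact V.zsmul_mem hv _) hfin
    (Y.a w) (Y.b w) (ok.hab w hw).le (hVa w hw).1 (hVa w hw).2 ?_ ?_).2
  · rintro c ⟨hS, k, hk, hkA⟩ _
    classical
    have hex : ∃ k, Y.T^[k] (w, c) ∈ Y.A := ⟨k, hkA⟩
    have h1 := Nat.find_spec hex
    exact Sys.pull_V ok V hVT (Nat.find hex) (w, c) hS (fun j hj => Nat.find_min hex hj) (hVA _ h1)
  · intro o ho hoF
    have hS : (w, o) ∈ Y.S := ⟨hw, ho.1, ho.2⟩
    have hnot : ∀ k < N, Y.T^[k] (w, o) ∉ Y.A := by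
      intro k hk hkA
      exact hoF ⟨hS, k, hk, hkA⟩
    have := Sys.cyl_loc ok N g hg hS hnot
    rw [← map_add_left_nhds_zero o, Filter.eventually_map]
    filter_upwards [this] with t ht
    exact congrArg (fun n : ℤ => (n : ℝ)) ht

end TMX
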