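import Pool.Agent.TMX.I5ab

/-!
-/

set_option autoImplicit false

open Set Filter Topology

namespace TMX

open TMX.Ger

/-- small cylinders -/
theorem cyl_small {W : Type} (Y : Sys W) (ok : Y.Ok) {y : W × ℝ} (hy : y ∈ Y.S) {ε : ℝ}
    (hε : 0 < ε) : ∃ N : ℕ, ∃ x ∈ Y.Inf, ∀ x' ∈ Y.Inf, (∀ k < N, Y.cd x' k = Y.cd x k) →
      x'.1 = y.1 ∧ |x'.2 - y.2| < ε := by
  have P := Pre.of ok
  -- a ball in the space
  set r := min ε (min (y.2 - Y.a y.1) (Y.b y.1 - y.2)) with hr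
  have hr0 : 0 < r := lt_min hε (lt_min (by linarith [hy.2.1]) (by linarith [hy.2.2]))
  have r1 : r ≤ ε := min_le_left _ _
  have r2 : r ≤ y.2 - Y.a y.1 := le_trans (min_le_right _ _) (min_le_left _ _)
  have r3 : r ≤ Y.b y.1 - y.2 := le_trans (min_le_right _ _) (min_le_right _ _)
  have hS : ∀ t : ℝ, |t| < r → sh y t ∈ Y.S := by
    intro t ht
    rw [abs_lt] at ht
    refine ⟨hy.1, ?_, ?_⟩
    · rw [sh_fst, sh_snd]; linarith
    · rw [sh_fst, sh_snd]; linarith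
  -- two preimages of `A`
  obtain ⟨p, hp, i, hpi, hpA, hp1, hp2⟩ := dense_back Y ok (sh y (-(r / 2)))
    (hS _ (by rw [abs_neg, abs_of_pos (by linarith)]; linarith)) (r / 4) (by linarith)
  obtain ⟨q, hq, j, hqj, hqA, hq1, hq2⟩ := dense_back Y ok (sh y (r / 2))
    (hS _ (by rw [abs_of_pos (by linarith)]; linarith)) (r / 4) (by linarith)
  rw [sh_fst] at hp1 hq1
  rw [sh_snd, abs_lt] at hp2 hq2
  -- an infinite orbit between them
  obtain ⟨β, hβ⟩ := B_ne ok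
  obtain ⟨n, hn1, hn2⟩ := dense Y ok β (ok.subB hβ) (ok.nc β hβ) y hy (r / 4) (by linarith)
  rw [abs_lt] at hn2
  set x := Y.T^[n] β with hx
  have hxS : x ∈ Y.S := iter_mem P (ok.subB hβ) fun k _ => ok.nc β hβ k
  have hxI : x ∈ Y.Inf := by
    refine ⟨hxS, fun k => ?_⟩
    rw [hx, ← Function.iterate_add_apply]
    exact ok.nc β hβ _
  refine ⟨max i j + 1, x, hxI, ?_⟩
  intro x' hx' hcd
  have h1 : x'.1 = y.1 := by
    have h2 := hcd 0 (by omega)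
    have h3 : (Y.cd x' 0).1 = (Y.cd x 0).1 := by rw [h2]
    exact h3.trans hn1
  refine ⟨h1, ?_⟩
  -- the cylinder
  have key : ∀ (z : W × ℝ) (m : ℕ) (s : ℝ), Sn s → m ≤ max i j → z.1 = y.1 → Y.T^[m] z ∈ Y.A →
      0 ≤ s * (x.2 - z.2) → s * (x'.2 - z.2) ≤ 0 → False := by
    intro z m s hs hm hz1 hzA h2 h3
    have hxC : x ∈ Cy Y (Y.cd x) (m + 1) := ⟨hxS, fun k _ => ⟨hxI.2 k, rfl⟩⟩
    have hxC' : x' ∈ Cy Y (Y.cd x) (m + 1) := ⟨hx'.1, fun k hk => ⟨hx'.2 k, hcd k (by omega)⟩⟩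
    have e1 : x = sh z (s * (s * (x.2 - z.2))) := by
      rw [hs.mm, sh_diff (by rw [hz1, hn1])]
    have e2 : x' = sh z (s * (s * (x'.2 - z.2))) := by
      rw [hs.mm, sh_diff (by rw [hz1, h1])]
    have h4 : sh z (s * (s * (x.2 - z.2))) ∈ Cy Y (Y.cd x) (m + 1) := e1 ▸ hxC
    have h5 : sh z (s * (s * (x'.2 - z.2))) ∈ Cy Y (Y.cd x) (m + 1) := e2 ▸ hxC'
    have h6 := Cy_conv P hs h5 h4 h3 h2
    rw [mul_zero, sh_zero] at h6
    exact (h6.2 m (by omega)).1 hzA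
  rw [abs_lt]
  constructor
  · by_contra hcon
    push Not at hcon
    exact key p i 1 (Or.inl rfl) (le_max_left _ _) hp1 hpA (by linarith) (by linarith)
  · by_contra hcon
    push Not at hcon
    exact key q j (-1) (Or.inr rfl) (le_max_right _ _) hq1 hqA (by linarith) (by linarith)

end TMX
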