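import Pool.Agent.TMX.I4

/-! # TMX: the topological part of row I5 (circle extensions of minimal one-sided subshifts) -/

set_option autoImplicit false

open Set Filter Topology

namespace TMX

/-- Circle extension of a minimal one-sided subshift: residues of Birkhoff sums or a
transfer function. -/
theorem subshift {Λ : Type} [Finite Λ] (Om : Set (ℕ → Λ))
    (hcl : ∀ ω : ℕ → Λ, (∀ N : ℕ, ∃ η ∈ Om, ∀ k < N, η k = ω k) → ω ∈ Om)
    (hsh : ∀ ω ∈ Om, (fun n => ω (n + 1)) ∈ Om)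
    (hmin : ∀ ω ∈ Om, ∀ η ∈ Om, ∀ N : ℕ, ∃ n : ℕ, ∀ k < N, ω (n + k) = η k)
    (F : Λ → ℝ) (ℓ : ℝ) (hℓ : 0 < ℓ) :
    (∀ ω ∈ Om, ∀ η ∈ Om, ∀ N : ℕ, ∀ τ ε : ℝ, 0 < ε → ∃ n : ℕ, (∀ k < N, ω (n + k) = η k) ∧
      ∃ k : ℤ, |∑ j ∈ Finset.range n, F (ω j) - τ - k * ℓ| < ε) ∨
    ∃ q : ℕ, 0 < q ∧ ∃ (G : (ℕ → Λ) → ℝ) (n : (ℕ → Λ) → ℤ),
      (∀ ω ∈ Om, G (fun k => ω (k + 1)) = G ω + q * F (ω 0) + ℓ * n ω) ∧
      (∀ ε > 0, ∃ N : ℕ, ∀ ω ∈ Om, ∀ η ∈ Om, (∀ k < N, ω k = η k) → |G ω - G η| < ε) ∧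
      (∃ N : ℕ, ∀ ω ∈ Om, ∀ η ∈ Om, (∀ k < N, ω k = η k) → n ω = n η) ∧
      ∃ B, ∀ ω ∈ Om, |G ω| ≤ B := by
  classical
  rcases Om.eq_empty_or_nonempty with rfl | ⟨ω₀, hω₀⟩
  · left; intro ω hω; exact absurd hω (notMem_empty _)
  let _ : TopologicalSpace Λ := ⊥
  have : DiscreteTopology Λ := ⟨rfl⟩
  have hOmc : IsClosed Om := by
    apply isClosed_of_closure_subset
    intro ω hω
    apply hcl
    intro N
    have hopen : IsOpen (⋂ k ∈ {k | k < N}, {η : ℕ → Λ | η k = ω k}) := by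
      apply (Set.finite_lt_nat N).isOpen_biInter
      intro k _
      have hc : Continuous fun η : ℕ → Λ => η k := continuous_apply k
      exact (isOpen_discrete ({ω k} : Set Λ)).preimage hc
    obtain ⟨η, hη, hηO⟩ := mem_closure_iff.mp hω _ hopen (by simp)
    refine ⟨η, hηO, fun k hk => ?_⟩
    simp only [mem_iInter] at hη
    exact hη k hk
  have : CompactSpace Om := isCompact_iff_compactSpace.mp hOmc.isCompact
  have hcoord : ∀ k : ℕ, Continuous fun ω : Om => ω.1 k := fun k =>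
    (continuous_apply k).comp continuous_subtype_val
  set σ : Om → Om := fun ω => ⟨fun n => ω.1 (n + 1), hsh _ ω.2⟩ with hσdef
  have hσ : Continuous σ := Continuous.subtype_mk (continuous_pi fun n => hcoord (n + 1)) _
  have hσit : ∀ (n : ℕ) (ω : Om) (k : ℕ), (σ^[n] ω).1 k = ω.1 (n + k) := by
    intro n
    induction n with
    | zero => intro ω k; simp
    | succ n ih =>
      intro ω k
      rw [Function.iterate_succ_apply', hσdef]
      change (σ^[n] ω).1 (k + 1) = _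
      rw [ih, show n + (k + 1) = n + 1 + k by omega]
  have hfact : Fact (0 < ℓ) := ⟨hℓ⟩
  set φ : Om → AddCircle ℓ := fun ω => ((F (ω.1 0) : ℝ) : AddCircle ℓ) with hφdef
  have hφ : Continuous φ := (continuous_of_discreteTopology :
    Continuous (fun a : Λ => ((F a : ℝ) : AddCircle ℓ))).comp (hcoord 0)
  -- uniform continuity in terms of prefixes
  have unif : ∀ (X : Type) [PseudoMetricSpace X] (h : Om → X), Continuous h → ∀ ε > 0,
      ∃ N : ℕ, ∀ ω η : Om, (∀ k < N, ω.1 k = η.1 k) → dist (h ω) (h η) < ε := by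
    intro X _ h hc ε hε
    by_contra hcon
    push Not at hcon
    set K : ℕ → Set (Om × Om) := fun N =>
      {z | (∀ k < N, z.1.1 k = z.2.1 k) ∧ ε ≤ dist (h z.1) (h z.2)} with hK
    have hKc : ∀ N, IsClosed (K N) := by
      intro N
      have : K N = (⋂ k ∈ {k | k < N}, {z : Om × Om | z.1.1 k = z.2.1 k}) ∩
          {z | ε ≤ dist (h z.1) (h z.2)} := by
        ext z; simp only [hK, mem_inter_iff, mem_iInter, Set.mem_ofPred_eq]
      rw [this]
      apply IsClosed.inter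
      · apply isClosed_biInter
        intro k _
        exact isClosed_eq ((hcoord k).comp continuous_fst) ((hcoord k).comp continuous_snd)
      · exact isClosed_le continuous_const
          ((hc.comp continuous_fst).dist (hc.comp continuous_snd))
    obtain ⟨z, hz⟩ := IsCompact.nonempty_iInter_of_sequence_nonempty_isCompact_isClosed K
      (fun N z hz => ⟨fun k hk => hz.1 k (by omega), hz.2⟩)
      (fun N => by
        obtain ⟨ω, η, h1, h2⟩ := hcon N
        exact ⟨(ω, η), h1, h2⟩) (hKc 0).isCompact hKc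
    simp only [mem_iInter] at hz
    have heq : z.1 = z.2 := by
      apply Subtype.ext
      funext k
      exact (hz (k + 1)).1 k (by omega)
    have := (hz 0).2
    rw [heq, dist_self] at this
    linarith
  have hminσ : ∀ ω : Om, Dense (Set.range fun n : ℕ => σ^[n] ω) := by
    intro ω η
    choose m hm using fun N => hmin ω.1 ω.2 η.1 η.2 N
    have hlim : Tendsto (fun N => σ^[m N] ω) atTop (𝓝 η) := by
      rw [tendsto_subtype_rng, tendsto_pi_nhds]
      intro k
      apply tendsto_const_nhds.congr'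
      filter_upwards [eventually_gt_atTop k] with N hN
      rw [hσit]; exact (hm N k hN).symm
    exact mem_closure_of_tendsto hlim (Eventually.of_forall fun N => ⟨m N, rfl⟩)
  rcases skew σ hσ hminσ ℓ φ hφ with hA | ⟨q, hq, f, hf, hfeq⟩
  · left
    intro ω hω η hη N τ ε hε
    set U : Set (Om × AddCircle ℓ) := (⋂ k ∈ {k | k < N}, {z | z.1.1 k = η k}) ∩
      {z | ‖z.2 - (τ : AddCircle ℓ)‖ < ε} with hU
    have hUo : IsOpen U := by
      apply IsOpen.inter
      · apply (Set.finite_lt_nat N).isOpen_biInter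
        intro k _
        exact (isOpen_discrete {η k}).preimage ((hcoord k).comp continuous_fst)
      · exact isOpen_lt (continuous_snd.sub continuous_const).norm continuous_const
    have hUn : U.Nonempty := ⟨(⟨η, hη⟩, (τ : AddCircle ℓ)), by simp, by simpa using hε⟩
    obtain ⟨z, hz, n, rfl⟩ := (hA (⟨ω, hω⟩, 0)).inter_open_nonempty U hUo hUn
    have hit : ∀ n : ℕ, (fun z : Om × AddCircle ℓ => (σ z.1, z.2 + φ z.1))^[n] (⟨ω, hω⟩, 0) =
        (σ^[n] ⟨ω, hω⟩, ((∑ j ∈ Finset.range n, F (ω j) : ℝ) : AddCircle ℓ)) := by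
      intro n
      induction n with
      | zero => simp
      | succ n ih =>
        rw [Function.iterate_succ_apply', ih, Function.iterate_succ_apply', Finset.sum_range_succ]
        simp only [Prod.mk.injEq, true_and, hφdef, hσit, add_zero]
        rw [AddCircle.coe_add]
    simp only at hz
    rw [hit] at hz
    obtain ⟨h1, h2⟩ := hz
    simp only [mem_iInter] at h1
    refine ⟨n, fun k hk => ?_, ?_⟩
    · have := h1 k hk
      simp only [Set.mem_ofPred_eq, hσit] at this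
      exact this
    · simp only [Set.mem_ofPred_eq] at h2
      rw [← AddCircle.coe_sub, AddCircle.norm_eq] at h2
      exact ⟨_, h2⟩
  · right
    refine ⟨q, hq, ?_⟩
    obtain ⟨N₀, hN₀⟩ := unif _ f hf (ℓ / 4) (by linarith)
    set pre : Om → (Fin N₀ → Λ) := fun ω i => ω.1 i with hpre
    have hprec : Continuous pre := continuous_pi fun i => hcoord i
    set Cc : (Fin N₀ → Λ) → Om := fun p => if h : ∃ η : Om, pre η = p then h.choose else ⟨ω₀, hω₀⟩
      with hCc
    have hCpre : ∀ ω : Om, pre (Cc (pre ω)) = pre ω := by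
      intro ω
      have h : ∃ η : Om, pre η = pre ω := ⟨ω, rfl⟩
      simp only [hCc, dif_pos h]
      exact h.choose_spec
    have hclose : ∀ ω : Om, dist (f ω) (f (Cc (pre ω))) < ℓ / 4 := by
      intro ω
      apply hN₀
      intro k hk
      have := congrFun (hCpre ω) ⟨k, hk⟩
      exact this.symm
    set s : AddCircle ℓ → ℝ := fun u => ((AddCircle.equivIco ℓ (-ℓ / 2) u : ℝ)) with hs
    have hsu : ∀ u : AddCircle ℓ, ((s u : ℝ) : AddCircle ℓ) = u := fun u => AddCircle.coe_equivIco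
    set G₀ : Om → ℝ := fun ω => s (f (Cc (pre ω))) + s (f ω - f (Cc (pre ω))) with hG₀
    have hG₀f : ∀ ω, ((G₀ ω : ℝ) : AddCircle ℓ) = f ω := by
      intro ω
      simp only [hG₀]
      rw [AddCircle.coe_add, hsu, hsu]; abel
    have hcd : Continuous fun ω : Om => f (Cc (pre ω)) :=
      (continuous_of_discreteTopology : Continuous fun p : Fin N₀ → Λ => f (Cc p)).comp hprec
    have hG₀c : Continuous G₀ := by
      apply Continuous.add
      · exact (continuous_of_discreteTopology :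
          Continuous fun p : Fin N₀ → Λ => s (f (Cc p))).comp hprec
      · rw [continuous_iff_continuousAt]
        intro ω
        have hne : f ω - f (Cc (pre ω)) ≠ ((-ℓ / 2 : ℝ) : AddCircle ℓ) := by
          intro h
          have h1 := hclose ω
          rw [dist_eq_norm, h] at h1
          have h2 : ((-ℓ / 2 : ℝ) : AddCircle ℓ) = -((ℓ / 2 : ℝ) : AddCircle ℓ) := by
            rw [← AddCircle.coe_neg]; congr 1; ring
          rw [h2, norm_neg, AddCircle.norm_half_period_eq, abs_of_pos hℓ] at h1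
          linarith
        have h3 : ContinuousAt s (f ω - f (Cc (pre ω))) :=
          continuous_subtype_val.continuousAt.comp (AddCircle.continuousAt_equivIco ℓ _ hne)
        exact ContinuousAt.comp (f := fun ω : Om => f ω - f (Cc (pre ω))) h3
          (hf.sub hcd).continuousAt
    have hn : ∀ ω : Om, ∃ n : ℤ, G₀ (σ ω) = G₀ ω + q * F (ω.1 0) + ℓ * n := by
      intro ω
      have h1 : ((G₀ (σ ω) - G₀ ω - q * F (ω.1 0) : ℝ) : AddCircle ℓ) = 0 := by
        rw [AddCircle.coe_sub, AddCircle.coe_sub, hG₀f, hG₀f, hfeq]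
        have : ((q * F (ω.1 0) : ℝ) : AddCircle ℓ) = q • φ ω := by
          rw [hφdef, ← nsmul_eq_mul]; exact AddCircle.coe_nsmul ℓ
        rw [this]; abel
      obtain ⟨n, hn⟩ := AddCircle.coe_eq_zero_iff ℓ |>.mp h1
      refine ⟨n, ?_⟩
      rw [zsmul_eq_mul] at hn; linarith
    choose n₀ hn₀ using hn
    refine ⟨fun ω => if h : ω ∈ Om then G₀ ⟨ω, h⟩ else 0,
      fun ω => if h : ω ∈ Om then n₀ ⟨ω, h⟩ else 0, ?_, ?_, ?_, ?_⟩
    · intro ω hω
      simp only [dif_pos hω, dif_pos (hsh ω hω)]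
      exact hn₀ ⟨ω, hω⟩
    · intro ε hε
      obtain ⟨N, hN⟩ := unif _ G₀ hG₀c ε hε
      refine ⟨N, fun ω hω η hη h => ?_⟩
      simp only [dif_pos hω, dif_pos hη]
      exact hN ⟨ω, hω⟩ ⟨η, hη⟩ h
    · have hcont : Continuous fun ω : Om => G₀ (σ ω) - G₀ ω - q * F (ω.1 0) :=
        ((hG₀c.comp hσ).sub hG₀c).sub (continuous_const.mul ((continuous_of_discreteTopology :
          Continuous F).comp (hcoord 0)))
      obtain ⟨N, hN⟩ := unif _ _ hcont ℓ hℓ
      refine ⟨N, fun ω hω η hη h => ?_⟩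
      simp only [dif_pos hω, dif_pos hη]
      have := hN ⟨ω, hω⟩ ⟨η, hη⟩ h
      rw [Real.dist_eq, hn₀ ⟨ω, hω⟩, hn₀ ⟨η, hη⟩] at this
      have e : G₀ ⟨ω, hω⟩ + q * F ((⟨ω, hω⟩ : Om).1 0) + ℓ * (n₀ ⟨ω, hω⟩ : ℝ) - G₀ ⟨ω, hω⟩ -
          q * F ((⟨ω, hω⟩ : Om).1 0) - (G₀ ⟨η, hη⟩ + q * F ((⟨η, hη⟩ : Om).1 0) +
          ℓ * (n₀ ⟨η, hη⟩ : ℝ) - G₀ ⟨η, hη⟩ - q * F ((⟨η, hη⟩ : Om).1 0)) =
          ℓ * ((n₀ ⟨ω, hω⟩ - n₀ ⟨η, hη⟩ : ℤ) : ℝ) := by push_cast; ring
      rw [e, abs_mul, abs_of_pos hℓ] at this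
      have h1 : |((n₀ ⟨ω, hω⟩ - n₀ ⟨η, hη⟩ : ℤ) : ℝ)| < 1 := by
        by_contra hc
        push Not at hc
        nlinarith
      rw [← Int.cast_abs] at h1
      have h2 : |n₀ ⟨ω, hω⟩ - n₀ ⟨η, hη⟩| < 1 := by exact_mod_cast h1
      have h3 := Int.abs_lt_one_iff.mp h2
      omega
    · obtain ⟨B, hB⟩ := isCompact_univ.exists_bound_of_continuousOn hG₀c.continuousOn
      refine ⟨B, fun ω hω => ?_⟩
      simp only [dif_pos hω]
      exact hB ⟨ω, hω⟩ (mem_univ _)

end TMX
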