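import Pool.Agent.TMX.I3
import Pool.Agent.TMX.I5ab
import Pool.Agent.TMX.I5c
import Pool.Agent.TMX.I5d
import Pool.Agent.TMX.I5t

/-! # TMX: row I5 (residues) -/

set_option autoImplicit false

open Set Filter Topology

namespace TMX

variable {W : Type}

/-- The set of letters. -/
def Sys.Lam (Y : Sys W) : Set (W × ℝ) := {a | ∃ z ∈ Y.S, Y.lt z = a}

theorem Sys.lt_spec {Y : Sys W} (ok : Y.Ok) {z : W × ℝ} (hz : z ∈ Y.S) :
    (Y.lt z).2 = Y.a z.1 ∨ (z.1, (Y.lt z).2) ∈ Y.A := by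
  set P : Set ℝ := {α | α < z.2 ∧ (α = Y.a z.1 ∨ (z.1, α) ∈ Y.A)} with hP
  have hPf : P.Finite := by
    have h1 : ((fun α : ℝ => (z.1, α)) ⁻¹' Y.A).Finite :=
      ok.finA.preimage (fun α _ β _ h => (Prod.mk.inj h).2)
    exact ((Set.finite_singleton (Y.a z.1)).union h1).subset fun α hα => hα.2
  have hne : P.Nonempty := ⟨Y.a z.1, hz.2.1, Or.inl rfl⟩
  exact (hne.csSup_mem hPf).2

theorem Sys.Lam_finite {Y : Sys W} (ok : Y.Ok) : Y.Lam.Finite := by
  apply (((Y.C.finite_toSet).image fun w => (w, Y.a w)).union ok.finA).subset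
  rintro _ ⟨z, hz, rfl⟩
  rcases Sys.lt_spec ok hz with h | h
  · left
    exact ⟨z.1, hz.1, Prod.ext rfl h.symm⟩
  · right
    exact h

/-- [I5] residues: the main abstract theorem. -/
theorem residues (Y : Sys W) (ok : Y.Ok) (f : W × ℝ → ℝ)
    (hf : ∀ x ∈ Y.S \ Y.A, ∀ᶠ t in 𝓝 (0 : ℝ), f (x.1, x.2 + t) = f x)
    (V : AddSubgroup ℝ) (hVa : ∀ w ∈ Y.C, Y.a w ∈ V ∧ Y.b w ∈ V) (hVA : ∀ x ∈ Y.A, x.2 ∈ V)
    (hVT : ∀ x ∈ Y.S \ Y.A, ∀ e : ℝ,
      (∀ᶠ t in 𝓝 (0 : ℝ), Y.T (x.1, x.2 + t) = ((Y.T x).1, (Y.T x).2 + e * t)) →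
      (Y.T x).2 - e * x.2 ∈ V)
    (ℓ : ℝ) (hℓ : 0 < ℓ)
    (hint : ∀ q : ℕ, 0 < q → ∀ v ∈ V,
      (q : ℝ) * ∑ w ∈ Y.C, ∫ o in (Y.a w)..(Y.b w), f (w, o) ≠ ℓ * v)
    (x : W × ℝ) (hx : x ∈ Y.S) (hinf : ∀ n : ℕ, Y.T^[n] x ∉ Y.A)
    (y : W × ℝ) (hy : y ∈ Y.S) (τ : ℝ) (ε : ℝ) (hε : 0 < ε) :
    ∃ n : ℕ, (Y.T^[n] x).1 = y.1 ∧ |(Y.T^[n] x).2 - y.2| < ε ∧
      ∃ k : ℤ, |∑ j ∈ Finset.range n, f (Y.T^[j] x) - τ - k * ℓ| < ε := by
  classical
  have hfinΛ : Finite Y.Lam := (Sys.Lam_finite ok).to_subtype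
  set a₀ : Y.Lam := ⟨Y.lt x, x, hx, rfl⟩ with ha₀
  set Om : Set (ℕ → Y.Lam) := {ω | (fun n => (ω n).1) ∈ Y.Om} with hOm
  set code : W × ℝ → ℕ → Y.Lam := fun z k => if h : Y.cd z k ∈ Y.Lam then ⟨_, h⟩ else a₀ with hcode
  have hcodeS : ∀ (z : W × ℝ) (k : ℕ), Y.T^[k] z ∈ Y.S → (code z k).1 = Y.cd z k := by
    intro z k h
    have h1 : Y.cd z k ∈ Y.Lam := ⟨_, h, rfl⟩
    simp only [hcode, dif_pos h1]
  have hInf : ∀ z ∈ Y.Inf, ∀ n : ℕ, Y.T^[n] z ∈ Y.S \ Y.A := fun z hz => Sys.inf_mem ok hz.1 hz.2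
  have hcodeI : ∀ z ∈ Y.Inf, ∀ k : ℕ, (code z k).1 = Y.cd z k := fun z hz k =>
    hcodeS z k (hInf z hz k).1
  have hcodeOm : ∀ z ∈ Y.Inf, code z ∈ Om := by
    intro z hz N
    exact ⟨z, hz.1, fun k _ => ⟨hz.2 k, (hcodeI z hz k).symm⟩⟩
  have hcodeT : ∀ z : W × ℝ, code (Y.T z) = fun k => code z (k + 1) := fun z => rfl
  have hInfT : ∀ z ∈ Y.Inf, Y.T z ∈ Y.Inf := fun z hz =>
    ⟨(hInf z hz 1).1, fun n => hz.2 (n + 1)⟩
  -- the cocycle as a function of the letter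
  set F : Y.Lam → ℝ := fun a => if h : ∃ z ∈ Y.S \ Y.A, Y.lt z = a.1 then f h.choose else 0 with hF
  have hFf : ∀ z ∈ Y.S \ Y.A, ∀ a : Y.Lam, a.1 = Y.lt z → F a = f z := by
    intro z hz a ha
    have h : ∃ z ∈ Y.S \ Y.A, Y.lt z = a.1 := ⟨z, hz, ha.symm⟩
    simp only [hF, dif_pos h]
    exact lt_const Y ok f hf h.choose_spec.1 hz (h.choose_spec.2.trans ha)
  have hxI : x ∈ Y.Inf := ⟨hx, hinf⟩
  rcases subshift Om (by
      intro ω h N
      obtain ⟨η, hη, h1⟩ := h N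
      obtain ⟨z, hz, h2⟩ := hη N
      exact ⟨z, hz, fun k hk => ⟨(h2 k hk).1, (h2 k hk).2.trans
        (congrArg Subtype.val (h1 k hk))⟩⟩)
    (by
      intro ω hω N
      obtain ⟨z, hz, h⟩ := hω (N + 1)
      refine ⟨Y.T z, ok.mapsTo ⟨hz, (h 0 (by omega)).1⟩, fun k hk => h (k + 1) (by omega)⟩)
    (by
      intro ω hω η hη N
      obtain ⟨n, hn⟩ := om_min Y ok hω hη N
      exact ⟨n, fun k hk => Subtype.ext (hn k hk)⟩) F ℓ hℓ with hA | ⟨q, hq, G, nn, hG, hGu, hnu, hGb⟩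
  · obtain ⟨N, x₁, hx₁, hsmall⟩ := cyl_small Y ok hy hε
    obtain ⟨n, h1, k, hk⟩ := hA (code x) (hcodeOm x hxI) (code x₁) (hcodeOm x₁ hx₁) N τ ε hε
    have hI : Y.T^[n] x ∈ Y.Inf :=
      ⟨(hInf x hxI n).1, fun m => by rw [← Function.iterate_add_apply]; exact hinf _⟩
    have h2 := hsmall (Y.T^[n] x) hI (fun j hj => by
      have := congrArg Subtype.val (h1 j hj)
      rw [hcodeI x hxI, hcodeI x₁ hx₁] at this
      rw [← this]
      unfold Sys.cd
      rw [← Function.iterate_add_apply, Nat.add_comm])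
    refine ⟨n, h2.1, h2.2, k, ?_⟩
    have h3 : ∑ j ∈ Finset.range n, F (code x j) = ∑ j ∈ Finset.range n, f (Y.T^[j] x) := by
      apply Finset.sum_congr rfl
      intro j _
      exact hFf _ (hInf x hxI j) _ (hcodeI x hxI j)
    rw [← h3]; exact hk
  · exfalso
    obtain ⟨B, hB⟩ := hGb
    obtain ⟨N, hN⟩ := hnu
    set g : W × ℝ → ℝ := fun z => if z ∈ Y.Inf then G (code z) else 0 with hg
    set Φ : ((ℕ → Y.Lam) → Prop) → ℤ := fun P => if h : ∃ ω, P ω then nn h.choose else 0 with hΦ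
    set n' : W × ℝ → ℤ := fun z => Φ fun ω => ω ∈ Om ∧ ∀ k < N, (ω k).1 = Y.cd z k with hn'
    have hn'I : ∀ z ∈ Y.Inf, n' z = nn (code z) := by
      intro z hz
      have h : ∃ ω, ω ∈ Om ∧ ∀ k < N, (ω k).1 = Y.cd z k :=
        ⟨code z, hcodeOm z hz, fun k _ => hcodeI z hz k⟩
      simp only [hn', hΦ, dif_pos h]
      apply hN _ h.choose_spec.1 _ (hcodeOm z hz)
      intro k hk
      apply Subtype.ext
      rw [h.choose_spec.2 k hk, hcodeI z hz]
    have hn'g : ∀ z ∈ Y.S, ∀ z' ∈ Y.S, (∀ k < N, Y.T^[k] z ∉ Y.A ∧ Y.T^[k] z' ∉ Y.A ∧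
        Y.lt (Y.T^[k] z) = Y.lt (Y.T^[k] z')) → (N = 0 → z.1 = z'.1) → n' z = n' z' := by
      intro z _ z' _ h _
      have : (fun ω : ℕ → Y.Lam => ω ∈ Om ∧ ∀ k < N, (ω k).1 = Y.cd z k) =
          fun ω : ℕ → Y.Lam => ω ∈ Om ∧ ∀ k < N, (ω k).1 = Y.cd z' k := by
        funext ω
        apply propext
        constructor
        · rintro ⟨h1, h2⟩
          exact ⟨h1, fun k hk => by rw [h2 k hk]; exact (h k hk).2.2⟩
        · rintro ⟨h1, h2⟩
          exact ⟨h1, fun k hk => by rw [h2 k hk]; exact (h k hk).2.2.symm⟩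
      simp only [hn', this]
    -- the cohomological equation on `Inf`
    have hcoh : ∀ z ∈ Y.Inf, g (Y.T z) = g z + q * f z + ℓ * n' z := by
      intro z hz
      have h1 := hG (code z) (hcodeOm z hz)
      rw [← hcodeT, hFf z (hInf z hz 0) _ (hcodeI z hz 0), ← hn'I z hz] at h1
      simp only [hg, if_pos hz, if_pos (hInfT z hz)]
      exact h1
    -- `Inf` has countable complement
    have hcount : ∀ w ∈ Y.C, {o : ℝ | (w, o) ∈ Y.S ∧ (w, o) ∉ Y.Inf}.Countable := by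
      intro w _
      have h1 : (⋃ M : ℕ, {o : ℝ | (w, o) ∈ {z | z ∈ Y.S ∧ ∃ k < M, Y.T^[k] z ∈ Y.A}}).Countable := by
        apply countable_iUnion
        intro M
        exact ((Sys.hit_finite ok M).preimage (fun α _ β _ h => (Prod.mk.inj h).2)).countable
      apply h1.mono
      rintro o ⟨hS, hI⟩
      have : ∃ k : ℕ, Y.T^[k] (w, o) ∈ Y.A := by
        by_contra hc
        push Not at hc
        exact hI ⟨hS, hc⟩
      obtain ⟨k, hk⟩ := this
      exact mem_iUnion.mpr ⟨k + 1, hS, k, by omega, hk⟩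
    have hIoo : ∀ w ∈ Y.C, {o : ℝ | (w, o) ∈ Y.Inf} =
        Ioo (Y.a w) (Y.b w) \ {o : ℝ | (w, o) ∈ Y.S ∧ (w, o) ∉ Y.Inf} := by
      intro w hw
      ext o
      simp only [Set.mem_sdiff, mem_Ioo, Set.mem_ofPred_eq]
      constructor
      · intro h
        exact ⟨⟨h.1.2.1, h.1.2.2⟩, fun h' => h'.2 h⟩
      · rintro ⟨⟨h1, h2⟩, h3⟩
        by_contra hc
        exact h3 ⟨⟨hw, h1, h2⟩, hc⟩
    have hmeasI : ∀ w ∈ Y.C, MeasurableSet {o : ℝ | (w, o) ∈ Y.Inf} := by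
      intro w hw
      rw [hIoo w hw]
      exact measurableSet_Ioo.diff (hcount w hw).measurableSet
    have hcontI : ∀ w ∈ Y.C, ContinuousOn (fun o : ℝ => G (code (w, o))) {o : ℝ | (w, o) ∈ Y.Inf} := by
      intro w hw o ho
      rw [ContinuousWithinAt, Metric.tendsto_nhds]
      intro δ hδ
      obtain ⟨M, hM⟩ := hGu δ hδ
      have h1 := Sys.cyl_loc ok M (fun z => fun k : Fin M => Y.cd z k)
        (fun z _ z' _ h _ => by funext k; exact (h k k.2).2.2) ho.1 (fun k _ => ho.2 k)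
      have h2 : ∀ᶠ o' in 𝓝 o, (fun k : Fin M => Y.cd (w, o') k) = fun k : Fin M => Y.cd (w, o) k := by
        rw [← map_add_left_nhds_zero o, Filter.eventually_map]
        exact h1
      filter_upwards [mem_nhdsWithin_of_mem_nhds h2, self_mem_nhdsWithin] with o' ho' hoI
      rw [Real.dist_eq]
      apply hM _ (hcodeOm _ hoI) _ (hcodeOm _ ho)
      intro k hk
      apply Subtype.ext
      rw [hcodeI _ hoI, hcodeI _ ho]
      exact congrFun ho' ⟨k, hk⟩
    have hgm : ∀ w ∈ Y.C, Measurable fun o : ℝ => g (w, o) := by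
      intro w hw
      have : (fun o : ℝ => g (w, o)) = Set.piecewise {o : ℝ | (w, o) ∈ Y.Inf}
          (fun o : ℝ => G (code (w, o))) (fun _ => 0) := by
        funext o
        simp only [hg, Set.piecewise, Set.mem_ofPred_eq]
      rw [this]
      exact (hcontI w hw).measurable_piecewise continuousOn_const (hmeasI w hw)
    have hgB : ∀ z, |g z| ≤ max B 0 := by
      intro z
      by_cases hz : z ∈ Y.Inf
      · simp only [hg, if_pos hz]; exact (hB _ (hcodeOm z hz)).trans (le_max_left _ _)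
      · simp only [hg, if_neg hz, abs_zero]; exact le_max_right _ _
    have hpres := pres Y ok g hgm (max B 0) (fun z _ => hgB z)
    have hlen := cyl_len Y ok V hVa hVA hVT N n' hn'g
    -- integrability
    have hgi : ∀ w ∈ Y.C, IntervalIntegrable (fun o => g (w, o)) MeasureTheory.volume
        (Y.a w) (Y.b w) := by
      intro w hw
      rw [intervalIntegrable_iff_integrableOn_Ioc_of_le (ok.hab w hw).le]
      exact MeasureTheory.Measure.integrableOn_of_bounded (M := max B 0) measure_Ioc_lt_top.ne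
        (hgm w hw).aestronglyMeasurable (Eventually.of_forall fun o => by
          rw [Real.norm_eq_abs]; exact hgB _)
    have htr : ∀ (h : W × ℝ → ℝ) (w : W) (o : ℝ),
        (∀ᶠ t in 𝓝 (0 : ℝ), h (w, o + t) = h (w, o)) → ∀ᶠ o' in 𝓝 o, h (w, o') = h (w, o) := by
      intro h w o hh
      rw [← map_add_left_nhds_zero o, Filter.eventually_map]
      exact hh
    have hfi : ∀ w ∈ Y.C, IntervalIntegrable (fun o => f (w, o)) MeasureTheory.volume
        (Y.a w) (Y.b w) := by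
      intro w hw
      have hfin : {o : ℝ | (w, o) ∈ Y.A}.Finite :=
        ok.finA.preimage (fun α _ β _ h => (Prod.mk.inj h).2)
      refine (int_loc_const (V := ⊤) (g := fun o => f (w, o)) (fun _ _ _ => AddSubgroup.mem_top _)
        hfin (Y.a w) (Y.b w) (ok.hab w hw).le (AddSubgroup.mem_top _) (AddSubgroup.mem_top _)
        (fun _ _ _ => AddSubgroup.mem_top _) ?_).1
      intro o ho hoA
      exact htr f w o (hf (w, o) ⟨⟨hw, ho.1, ho.2⟩, hoA⟩)
    have hni : ∀ w ∈ Y.C, IntervalIntegrable (fun o => (n' (w, o) : ℝ)) MeasureTheory.volume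
        (Y.a w) (Y.b w) := by
      intro w hw
      have hfin : {o : ℝ | (w, o) ∈ {x | x ∈ Y.S ∧ ∃ k < N, Y.T^[k] x ∈ Y.A}}.Finite :=
        (Sys.hit_finite ok N).preimage (fun α _ β _ h => (Prod.mk.inj h).2)
      refine (int_loc_const (V := ⊤) (g := fun o => (n' (w, o) : ℝ))
        (fun _ _ _ => AddSubgroup.mem_top _) hfin (Y.a w) (Y.b w) (ok.hab w hw).le
        (AddSubgroup.mem_top _) (AddSubgroup.mem_top _) (fun _ _ _ => AddSubgroup.mem_top _) ?_).1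
      intro o ho hoF
      have hS : (w, o) ∈ Y.S := ⟨hw, ho.1, ho.2⟩
      refine htr (fun z => (n' z : ℝ)) w o ?_
      filter_upwards [Sys.cyl_loc ok N n' hn'g hS (fun k hk hkA => hoF ⟨hS, k, hk, hkA⟩)] with t ht
      exact congrArg (fun n : ℤ => (n : ℝ)) ht
    have hpiece : ∀ w ∈ Y.C, ∫ o in (Y.a w)..(Y.b w), g (Y.T (w, o)) =
        (∫ o in (Y.a w)..(Y.b w), g (w, o)) + q * (∫ o in (Y.a w)..(Y.b w), f (w, o)) +
          ℓ * ∫ o in (Y.a w)..(Y.b w), (n' (w, o) : ℝ) := by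
      intro w hw
      have hae : ∀ᵐ o ∂MeasureTheory.volume, o ∈ uIoc (Y.a w) (Y.b w) →
          g (Y.T (w, o)) = g (w, o) + q * f (w, o) + ℓ * n' (w, o) := by
        have h1 : ∀ᵐ o : ℝ ∂MeasureTheory.volume, o ≠ Y.b w := by
          simp [MeasureTheory.ae_iff]
        have h2 : ∀ᵐ o : ℝ ∂MeasureTheory.volume, o ∉ {o : ℝ | (w, o) ∈ Y.S ∧ (w, o) ∉ Y.Inf} :=
          (hcount w hw).ae_notMem _
        filter_upwards [h1, h2] with o h1 h2 h3
        rw [uIoc_of_le (ok.hab w hw).le] at h3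
        have hS : (w, o) ∈ Y.S := ⟨hw, h3.1, lt_of_le_of_ne h3.2 h1⟩
        have hI : (w, o) ∈ Y.Inf := by
          by_contra hc; exact h2 ⟨hS, hc⟩
        exact hcoh _ hI
      rw [intervalIntegral.integral_congr_ae hae,
        intervalIntegral.integral_add ((hgi w hw).add ((hfi w hw).const_mul _))
          ((hni w hw).const_mul _),
        intervalIntegral.integral_add (hgi w hw) ((hfi w hw).const_mul _),
        intervalIntegral.integral_const_mul, intervalIntegral.integral_const_mul]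
    rw [Finset.sum_congr rfl hpiece, Finset.sum_add_distrib, Finset.sum_add_distrib,
      ← Finset.mul_sum, ← Finset.mul_sum] at hpres
    apply hint q hq _ (V.neg_mem hlen)
    linarith

end TMX
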