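import Pool.Agent.TMX.Basic

/-! # TMX, row I6: integrals of piecewise constant functions -/

set_option autoImplicit false

open Set Filter Topology MeasureTheory

namespace TMX

private lemma I6_const {a b : ℝ} {g : ℝ → ℝ}
    (hg : ∀ x ∈ Ioo a b, ∀ᶠ t in 𝓝 x, g t = g x) {x y : ℝ} (hx : x ∈ Ioo a b)
    (hy : y ∈ Ioo a b) : g x = g y := by
  refine isPreconnected_Ioo.induction₂' (fun u v => g u = g v) ?_ ?_ hx hy
  · intro u hu
    refine eventually_nhdsWithin_of_eventually_nhds ?_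
    filter_upwards [hg u hu] with t ht
    exact ⟨ht.symm, ht⟩
  · intro u v w _ _ _ h1 h2
    exact h1.trans h2

private lemma I6_one (V : AddSubgroup ℝ) (K : Set ℝ) (hKV : ∀ k ∈ K, ∀ v ∈ V, k * v ∈ V)
    (g : ℝ → ℝ) : ∀ (n : ℕ) (F : Finset ℝ), F.card = n → ∀ a b : ℝ, a < b → a ∈ V → b ∈ V →
      (∀ x ∈ F, a < x ∧ x < b ∧ x ∈ V) →
      (∀ x, a < x → x < b → x ∉ F → g x ∈ K ∧ ∀ᶠ t in 𝓝 x, g t = g x) →
      IntervalIntegrable g volume a b ∧ ∫ o in a..b, g o ∈ V := by
  intro n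
  induction n using Nat.strong_induction_on with
  | _ n ih =>
    intro F hF a b hab ha hb hFV hg
    rcases F.eq_empty_or_nonempty with rfl | ⟨c, hc⟩
    · -- constant
      obtain ⟨m, hm⟩ := exists_between hab
      have h1 : ∀ x ∈ Ioo a b, g x = g m := by
        intro x hx
        exact I6_const (fun u hu => (hg u hu.1 hu.2 (by simp)).2) hx ⟨hm.1, hm.2⟩
      have h2 : ∀ᵐ x ∂volume, x ∈ Set.uIoc a b → g x = g m := by
        have h0 : ∀ᵐ x : ℝ ∂volume, x ≠ b := by
          have : volume ({b} : Set ℝ) = 0 := by simp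
          exact (measure_eq_zero_iff_ae_notMem.1 this).mono fun x hx h => hx (by simp [h])
        filter_upwards [h0] with x hx hxm
        rw [uIoc_of_le hab.le] at hxm
        exact h1 x ⟨hxm.1, lt_of_le_of_ne hxm.2 hx⟩
      have h3 : ∫ o in a..b, g o = g m * (b - a) := by
        rw [intervalIntegral.integral_congr_ae h2]
        simp [mul_comm]
      refine ⟨?_, ?_⟩
      · have hc : IntervalIntegrable (fun _ : ℝ => g m) volume a b := intervalIntegrable_const
        refine hc.congr_ae ?_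
        refine (ae_restrict_iff' measurableSet_uIoc).2 ?_
        filter_upwards [h2] with x hx hxm
        exact (hx hxm).symm
      · rw [h3]
        exact hKV _ (hg m hm.1 hm.2 (by simp)).1 _ (V.sub_mem hb ha)
    · obtain ⟨hac, hcb, hcV⟩ := hFV c hc
      have hlt1 : (F.filter (· < c)).card < n := by
        rw [← hF]
        refine Finset.card_lt_card ?_
        refine (Finset.filter_ssubset).2 ⟨c, hc, by simp⟩
      have hlt2 : (F.filter (c < ·)).card < n := by
        rw [← hF]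
        refine Finset.card_lt_card ?_
        refine (Finset.filter_ssubset).2 ⟨c, hc, by simp⟩
      have h1 := ih _ hlt1 (F.filter (· < c)) rfl a c hac ha hcV
        (fun x hx => by
          have hx' := Finset.mem_filter.1 hx
          exact ⟨(hFV x hx'.1).1, hx'.2, (hFV x hx'.1).2.2⟩)
        (fun x hax hxc hxF => hg x hax (hxc.trans hcb) fun h => hxF (Finset.mem_filter.2 ⟨h, hxc⟩))
      have h2 := ih _ hlt2 (F.filter (c < ·)) rfl c b hcb hcV hb
        (fun x hx => by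
          have hx' := Finset.mem_filter.1 hx
          exact ⟨hx'.2, (hFV x hx'.1).2.1, (hFV x hx'.1).2.2⟩)
        (fun x hcx hxb hxF => hg x (hac.trans hcx) hxb fun h => hxF (Finset.mem_filter.2 ⟨h, hcx⟩))
      refine ⟨h1.1.trans h2.1, ?_⟩
      rw [← intervalIntegral.integral_add_adjacent_intervals h1.1 h2.1]
      exact V.add_mem h1.2 h2.2

/-- [I6] integrals of piecewise constant functions. -/
theorem int_pc {W : Type} (Y : Sys W) (ok : Y.Ok) (V : AddSubgroup ℝ) (K : Set ℝ)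
    (hKV : ∀ k ∈ K, ∀ v ∈ V, k * v ∈ V) (hVa : ∀ w ∈ Y.C, Y.a w ∈ V ∧ Y.b w ∈ V)
    (hVA : ∀ x ∈ Y.A, x.2 ∈ V) (g : W × ℝ → ℝ)
    (hg : ∀ x ∈ Y.S \ Y.A, ∀ᶠ t in 𝓝 (0 : ℝ), g (x.1, x.2 + t) = g x)
    (hgK : ∀ x ∈ Y.S \ Y.A, g x ∈ K) :
    ∑ w ∈ Y.C, ∫ o in (Y.a w)..(Y.b w), g (w, o) ∈ V := by
  classical
  refine V.sum_mem fun w hw => ?_
  have hfin : {o : ℝ | (w, o) ∈ Y.A}.Finite := by
    refine (ok.finA.image Prod.snd).subset ?_
    intro o ho
    exact ⟨(w, o), ho, rfl⟩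
  refine (I6_one V K hKV (fun o => g (w, o)) _ hfin.toFinset rfl (Y.a w) (Y.b w) (ok.hab w hw)
    (hVa w hw).1 (hVa w hw).2 ?_ ?_).2
  · intro x hx
    have hx' : (w, x) ∈ Y.A := by simpa using hx
    have h2 := ok.subA hx'
    exact ⟨h2.2.1, h2.2.2, hVA _ hx'⟩
  · intro x hax hxb hxF
    have hx' : (w, x) ∈ Y.S \ Y.A := ⟨⟨hw, hax, hxb⟩, by simpa using hxF⟩
    refine ⟨hgK _ hx', ?_⟩
    have h2 : Tendsto (fun t : ℝ => t - x) (𝓝 x) (𝓝 0) := by
      have := (continuous_sub_right x).tendsto x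
      simpa using this
    filter_upwards [h2.eventually (hg _ hx')] with t ht
    have h4 : ((w, x).1, (w, x).2 + (t - x)) = (w, t) := by simp
    rw [h4] at ht
    exact ht

end TMX
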