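import Pool.Agent.BIL.C1
import Pool.Agent.TMX.Basic
import Pool.Agent.TMX.F1
import Pool.Agent.TMX.F2b
import Pool.Agent.TMX.G4

/-! # TMX [M1]: from plane paths to the flow -/

set_option autoImplicit false

open Set Filter Topology MeasureTheory

namespace TMX

theorem M1_dir_norm (a : BIL.Ang) : ‖BIL.dir a‖ = 1 := by
  unfold BIL.dir; exact Circle.norm_coe _

theorem M1_ang_dir (a : BIL.Ang) : BIL.ang (BIL.dir a) = a := by
  have h := BIL.c1_dir_ang (BIL.dir a)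
  rw [M1_dir_norm, Complex.ofReal_one, one_mul] at h
  unfold BIL.dir at h
  have h2 := Circle.ext h
  exact AddCircle.injective_toCircle (Real.two_pi_pos).ne' h2

theorem M1_dir_ang {w : ℂ} (hw : ‖w‖ = 1) : BIL.dir (BIL.ang w) = w := by
  have h := BIL.c1_dir_ang w
  rwa [hw, Complex.ofReal_one, one_mul] at h

theorem M1_dir_cont : Continuous BIL.dir := by
  unfold BIL.dir
  exact continuous_subtype_val.comp AddCircle.continuous_toCircle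

theorem M1_ang_cont {w : ℂ} (hw : w ≠ 0) : ContinuousAt BIL.ang w :=
  Complex.continuousAt_arg_coe_angle hw

theorem M1_Ro_open (θ : ℝ) : IsOpen (Ro θ) := by
  have h : Ro θ = {x : ℂ | 0 < x.re} ∩ {x | x.re < 1} ∩ {x | 0 < x.im} ∩ {x | x.im < bb θ} := by
    ext x; simp only [Ro, mem_ofPred_eq, mem_inter_iff]; tauto
  rw [h]
  exact (((isOpen_lt continuous_const Complex.continuous_re).inter
    (isOpen_lt Complex.continuous_re continuous_const)).inter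
    (isOpen_lt continuous_const Complex.continuous_im)).inter
    (isOpen_lt Complex.continuous_im continuous_const)

/-- The plane version of a set of phase points. -/
def M1_lift (θ : ℝ) (p : Par) (U : Set (ℂ × BIL.Ang)) : Set (ℂ × ℂ) :=
  {z | z.1 ∈ Ro θ ∧ z.1 ∉ Q p ∧ z.2 ≠ 0 ∧ (z.1, BIL.ang z.2) ∈ U}

theorem M1_lift_open (θ : ℝ) (p : Par) {U : Set (ℂ × BIL.Ang)} (hU : IsOpen U) :
    IsOpen (M1_lift θ p U) := by
  rw [isOpen_iff_mem_nhds]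
  rintro z ⟨h1, h2, h3, h4⟩
  have e1 : ∀ᶠ y in 𝓝 z, y.1 ∈ Ro θ :=
    continuous_fst.continuousAt.eventually ((M1_Ro_open θ).mem_nhds h1)
  have e2 : ∀ᶠ y in 𝓝 z, y.1 ∉ Q p :=
    continuous_fst.continuousAt.eventually ((Q_isClosed p).isOpen_compl.mem_nhds h2)
  have e3 : ∀ᶠ y in 𝓝 z, y.2 ≠ 0 :=
    continuous_snd.continuousAt.eventually (isOpen_ne.mem_nhds h3)
  have hc : ContinuousAt (fun y : ℂ × ℂ => (y.1, BIL.ang y.2)) z :=
    continuous_fst.continuousAt.prodMk ((M1_ang_cont h3).comp continuous_snd.continuousAt)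
  have e4 : ∀ᶠ y in 𝓝 z, (y.1, BIL.ang y.2) ∈ U := hc.eventually (hU.mem_nhds h4)
  filter_upwards [e1, e2, e3, e4] with y y1 y2 y3 y4
  exact ⟨y1, y2, y3, y4⟩

theorem M1_lift_ne {θ : ℝ} (hθ : |θ - Real.pi / 4| < 1 / 100) {p : Par} (hp : p ∈ Pi0)
    {U : Set (ℂ × BIL.Ang)} (hU : IsOpen U) (hne : (U ∩ Tb θ p ×ˢ univ).Nonempty) :
    ∃ z ∈ M1_lift θ p U, z.1 ∈ Ro θ ∧ z.1 ∉ Q p ∧ ‖z.2‖ = 1 := by
  obtain ⟨⟨x, a⟩, hxU, hx, -⟩ := hne
  have hcl := (table_closure hθ hp).2.1 hx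
  have ho : IsOpen {y : ℂ | (y, a) ∈ U} := hU.preimage (by fun_prop)
  obtain ⟨y, hy, hy1, hy2⟩ := mem_closure_iff.mp hcl _ ho hxU
  refine ⟨(y, BIL.dir a), ⟨hy1, hy2, ?_, ?_⟩, hy1, hy2, M1_dir_norm a⟩
  · intro h
    have := M1_dir_norm a
    change BIL.dir a = 0 at h
    rw [h, norm_zero] at this
    exact zero_ne_one this
  · change (y, BIL.ang (BIL.dir a)) ∈ U
    rw [M1_ang_dir]; exact hy

theorem M1_pos {θ : ℝ} (hθ : |θ - Real.pi / 4| < 1 / 100) {p : Par} (hp : p ∈ Pi0)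
    {O : Set (ℂ × BIL.Ang)} (hO : IsOpen O) (hne : O.Nonempty) (hsub : O ⊆ Tb θ p ×ˢ univ) :
    0 < BIL.liou (Tb θ p) O := by
  have hc : IsCompact (Tb θ p ×ˢ (univ : Set BIL.Ang)) :=
    (polygon hθ hp).compact.prod isCompact_univ
  unfold BIL.liou
  rw [ProbabilityTheory.cond_apply hc.isClosed.measurableSet]
  apply ENNReal.mul_pos
  · exact ENNReal.inv_ne_zero.mpr hc.measure_lt_top.ne
  · rw [inter_eq_self_of_subset_right hsub]
    exact (hO.measure_pos _ hne).ne'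

/-- [M1] from plane paths to the flow. -/
theorem topmix_of_visits {θ : ℝ} (hθ : |θ - Real.pi / 4| < 1 / 100) {p : Par} (hp : p ∈ Pi0)
    (h : ∀ U V : Set (ℂ × ℂ), IsOpen U → IsOpen V →
      (∃ z ∈ U, z.1 ∈ Ro θ ∧ z.1 ∉ Q p ∧ ‖z.2‖ = 1) →
      (∃ z ∈ V, z.1 ∈ Ro θ ∧ z.1 ∉ Q p ∧ ‖z.2‖ = 1) →
      ∃ T : ℝ, ∀ t ≥ T, ∃ z ∈ U, ‖z.2‖ = 1 ∧ Fre θ p z.1 ∧ Visit θ p z V t) :
    TopMix (Tb θ p) (sa θ p) (sb θ p) := by
  intro φ hφ U V hU hV hUne hVne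
  obtain ⟨T, hT⟩ := h _ _ (M1_lift_open θ p hU) (M1_lift_open θ p hV) (M1_lift_ne hθ hp hU hUne)
    (M1_lift_ne hθ hp hV hVne)
  refine ⟨T, fun t ht => ?_⟩
  obtain ⟨z, hzU, hz1, hzF, l, hl⟩ := hT t ht
  have hVo := M1_lift_open θ p hV
  have hvo := visit_open hθ hp (Or.inr hzF) hVo hl
  have hcont : ContinuousAt (fun g : ℂ × BIL.Ang => (((p, (g.1, BIL.dir g.2)), t) :
      (Par × (ℂ × ℂ)) × ℝ)) (z.1, BIL.ang z.2) := by
    have : Continuous (fun g : ℂ × BIL.Ang => (((p, (g.1, BIL.dir g.2)), t) :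
      (Par × (ℂ × ℂ)) × ℝ)) :=
      (continuous_const.prodMk (continuous_fst.prodMk (M1_dir_cont.comp continuous_snd))).prodMk
        continuous_const
    exact this.continuousAt
  have hval : (fun g : ℂ × BIL.Ang => (((p, (g.1, BIL.dir g.2)), t) :
      (Par × (ℂ × ℂ)) × ℝ)) (z.1, BIL.ang z.2) = ((p, z), t) := by
    change (((p, (z.1, BIL.dir (BIL.ang z.2))), t) : (Par × (ℂ × ℂ)) × ℝ) = ((p, z), t)
    rw [M1_dir_ang hz1]
  have e1 : ∀ᶠ g : ℂ × BIL.Ang in 𝓝 (z.1, BIL.ang z.2),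
      VisitL θ p l (g.1, BIL.dir g.2) (M1_lift θ p V) t := by
    have h0 := hcont.eventually (hval ▸ hvo)
    filter_upwards [h0] with g hg
    exact hg (Or.inr hzF)
  have e2 : ∀ᶠ g : ℂ × BIL.Ang in 𝓝 (z.1, BIL.ang z.2), g ∈ U := hU.mem_nhds hzU.2.2.2
  have e3 : ∀ᶠ g : ℂ × BIL.Ang in 𝓝 (z.1, BIL.ang z.2), g.1 ∈ Ro θ :=
    continuous_fst.continuousAt.eventually ((M1_Ro_open θ).mem_nhds hzU.1)
  have e4 : ∀ᶠ g : ℂ × BIL.Ang in 𝓝 (z.1, BIL.ang z.2), g.1 ∉ Q p :=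
    ((Q_isClosed p).isOpen_compl.preimage continuous_fst).mem_nhds hzU.2.1
  obtain ⟨O, hOsub, hOo, hzO⟩ := eventually_nhds_iff.mp (e1.and (e2.and (e3.and e4)))
  obtain ⟨hint, -, hfre⟩ := table_closure hθ hp
  have hOP : O ⊆ Tb θ p ×ˢ univ := by
    intro g hg
    refine ⟨?_, mem_univ _⟩
    obtain ⟨-, -, g3, g4⟩ := hOsub g hg
    apply interior_subset
    rw [hint]; exact ⟨g3, g4⟩
  refine lt_of_lt_of_le (M1_pos hθ hp hOo ⟨_, hzO⟩ hOP) (measure_mono_ae ?_)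
  filter_upwards [hφ.zero, hφ.orbit] with g g0 gorb hgO
  obtain ⟨g1, g2, g3, g4⟩ := hOsub g hgO
  refine ⟨g2, ?_⟩
  have hf := follow hθ hp gorb (z := (g.1, BIL.dir g.2)) (by simp only [g0]) (by simp only [g0])
    g3 (hfre _ g3 g4) (V := M1_lift θ p V) (fun y hy => hy.1) (t := t) ⟨l, g1⟩
  have h5 := hf.2.2.2
  change ((φ t g).1, BIL.ang (BIL.dir (φ t g).2)) ∈ V at h5
  rw [M1_ang_dir] at h5
  exact h5

end TMX
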