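import Pool.Agent.TMX.Basic

/-!
-/

set_option autoImplicit false

open Set Filter Topology

namespace TMX

private theorem S1_fin4 : ∀ i j : Fin 4, j = i ∨ j = i + 1 ∨ j = i + 2 ∨ j = i + 3 := by decide

private theorem S1_fin4' : ∀ i : Fin 4, i + 1 + 1 = i + 2 ∧ i + 2 + 1 = i + 3 ∧ i + 3 + 1 = i ∧
    i + 1 ≠ i ∧ i + 2 ≠ i ∧ i + 3 ≠ i ∧ i + 2 ≠ i + 1 ∧ i + 3 ≠ i + 1 ∧ i + 1 + 2 = i + 3 := by
  decide

/-- the facing vertex of a direction -/
theorem facing {p : Par} {w : ℂ} (hw : ∀ j, dot w (nu p j) ≠ 0) :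
    ∃ i : Fin 4, 0 < dot w (nu p i) ∧ 0 < dot w (nu p (i + 1)) ∧
      dot w (nu p (i + 2)) < 0 ∧ dot w (nu p (i + 3)) < 0 := by
  have h2 : dot w (nu p 2) = -dot w (nu p 0) := dot_add_two p w 0
  have h3 : dot w (nu p 3) = -dot w (nu p 1) := dot_add_two p w 1
  rcases lt_or_gt_of_ne (hw 0) with h0 | h0 <;> rcases lt_or_gt_of_ne (hw 1) with h1 | h1
  · refine ⟨2, ?_, ?_, ?_, ?_⟩
    · linarith
    · change 0 < dot w (nu p 3)
      linarith
    · change dot w (nu p 0) < 0
      exact h0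
    · change dot w (nu p 1) < 0
      exact h1
  · refine ⟨1, h1, ?_, ?_, ?_⟩
    · change 0 < dot w (nu p 2)
      linarith
    · change dot w (nu p 3) < 0
      linarith
    · change dot w (nu p 0) < 0
      exact h0
  · refine ⟨3, ?_, ?_, ?_, ?_⟩
    · linarith
    · change 0 < dot w (nu p 0)
      exact h0
    · change dot w (nu p 1) < 0
      exact h1
    · change dot w (nu p 2) < 0
      linarith
  · refine ⟨0, h0, h1, ?_, ?_⟩
    · change dot w (nu p 2) < 0
      linarith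
    · change dot w (nu p 3) < 0
      linarith

private theorem S1_dot (w v : ℂ) (t o : ℝ) :
    dot (((t : ℂ) + (o : ℂ) * Complex.I) * w) v = t * dot w v + o * crs w v := by
  simp only [dot, crs, Complex.mul_re, Complex.add_re, Complex.add_im, Complex.mul_im,
    Complex.ofReal_re, Complex.ofReal_im, Complex.I_re, Complex.I_im]
  ring

private theorem S1_crs (w v : ℂ) (t o : ℝ) :
    crs v (((t : ℂ) + (o : ℂ) * Complex.I) * w) = -(t * crs w v) + o * dot w v := by
  simp only [dot, crs, Complex.mul_re, Complex.add_re, Complex.add_im, Complex.mul_im,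
    Complex.ofReal_re, Complex.ofReal_im, Complex.I_re, Complex.I_im]
  ring

private theorem S1_sq (p : Par) {w : ℂ} (hn : ‖w‖ = 1) (i : Fin 4) :
    dot w (nu p i) * dot w (nu p i) + dot w (nu p (i + 1)) * dot w (nu p (i + 1)) = 1 := by
  have := dot_sq_nu p i w
  rw [hn] at this
  nlinarith [this]

private theorem S1_vals (p : Par) (w : ℂ) (i : Fin 4) :
    crs w (nu p i) = -dot w (nu p (i + 1)) ∧ crs w (nu p (i + 1)) = dot w (nu p i) ∧
    crs w (nu p (i + 2)) = dot w (nu p (i + 1)) ∧ crs w (nu p (i + 3)) = -dot w (nu p i) ∧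
    dot w (nu p (i + 2)) = -dot w (nu p i) ∧ dot w (nu p (i + 3)) = -dot w (nu p (i + 1)) := by
  have e0 : crs w (nu p i) = -dot w (nu p (i + 1)) := by rw [dot_succ]; ring
  refine ⟨e0, crs_nu_succ p w i, ?_, ?_, dot_add_two p w i, ?_⟩
  · rw [nu_add_two, crs_neg_right, e0]; ring
  · rw [nu_add_three, crs_neg_right, crs_mul_I]
  · rw [dot_add_three, e0]

private theorem S1_vtx (p : Par) (w : ℂ) (i : Fin 4) :
    crs w (vtx p i) = p.2 (i + 1) * dot w (nu p i) - p.2 i * dot w (nu p (i + 1)) ∧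
    crs w (vtx p (i + 1)) = p.2 (i + 1) * dot w (nu p i) + p.2 (i + 2) * dot w (nu p (i + 1)) ∧
    crs w (vtx p (i + 2)) = p.2 (i + 2) * dot w (nu p (i + 1)) - p.2 (i + 3) * dot w (nu p i) ∧
    crs w (vtx p (i + 3)) =
      -(p.2 (i + 3) * dot w (nu p i)) - p.2 i * dot w (nu p (i + 1)) := by
  obtain ⟨v0, v1, v2, v3, _, _⟩ := S1_vals p w i
  obtain ⟨f1, f2, f3, _⟩ := S1_fin4' i
  refine ⟨?_, ?_, ?_, ?_⟩
  · rw [crs_vtx, v0, v1]; ring
  · rw [crs_vtx, f1, v1, v2]
  · rw [crs_vtx, f2, v2, v3]; ring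
  · rw [crs_vtx, f3, v3, v0]; ring

private theorem S1_dvtx (p : Par) (w : ℂ) (i : Fin 4) :
    dot w (vtx p i) = p.2 i * dot w (nu p i) + p.2 (i + 1) * dot w (nu p (i + 1)) ∧
    dot w (vtx p (i + 1)) =
      p.2 (i + 1) * dot w (nu p (i + 1)) - p.2 (i + 2) * dot w (nu p i) ∧
    dot w (vtx p (i + 3)) =
      p.2 i * dot w (nu p i) - p.2 (i + 3) * dot w (nu p (i + 1)) := by
  obtain ⟨_, _, _, _, v4, v5⟩ := S1_vals p w i
  obtain ⟨f1, f2, f3, _⟩ := S1_fin4' i
  refine ⟨?_, ?_, ?_⟩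
  · unfold vtx
    rw [dot_add_right, dot_mul_right, dot_mul_right]
  · unfold vtx
    rw [dot_add_right, dot_mul_right, dot_mul_right, f1, v4]; ring
  · unfold vtx
    rw [dot_add_right, dot_mul_right, dot_mul_right, f3, v5]; ring

private theorem S1_pos {p : Par} (hp : p ∈ Pi0) (i : Fin 4) :
    0 < p.2 i + p.2 (i + 2) ∧ 0 < p.2 (i + 1) + p.2 (i + 3) := by
  refine ⟨hp.2.2.1 i, ?_⟩
  have := hp.2.2.1 (i + 1)
  rwa [(S1_fin4' i).2.2.2.2.2.2.2.2] at this

private theorem S1_Q (p : Par) (w : ℂ) (i : Fin 4) (t o : ℝ) :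
    ((t : ℂ) + (o : ℂ) * Complex.I) * w ∈ Q p ↔
      t * dot w (nu p i) - o * dot w (nu p (i + 1)) ≤ p.2 i ∧
      t * dot w (nu p (i + 1)) + o * dot w (nu p i) ≤ p.2 (i + 1) ∧
      -(t * dot w (nu p i) - o * dot w (nu p (i + 1))) ≤ p.2 (i + 2) ∧
      -(t * dot w (nu p (i + 1)) + o * dot w (nu p i)) ≤ p.2 (i + 3) := by
  obtain ⟨v0, v1, v2, v3, v4, v5⟩ := S1_vals p w i
  constructor
  · intro h
    have a0 := h i
    have a1 := h (i + 1)
    have a2 := h (i + 2)
    have a3 := h (i + 3)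
    rw [S1_dot] at a0 a1 a2 a3
    rw [v0] at a0
    rw [v1] at a1
    rw [v2, v4] at a2
    rw [v3, v5] at a3
    refine ⟨by linarith, by linarith, by linarith, by linarith⟩
  · rintro ⟨a0, a1, a2, a3⟩ j
    rw [S1_dot]
    rcases S1_fin4 i j with rfl | rfl | rfl | rfl
    · rw [v0]; linarith
    · rw [v1]; linarith
    · rw [v2, v4]; linarith
    · rw [v3, v5]; linarith

private theorem S1_oa {p : Par} (hp : p ∈ Pi0) {w : ℂ} {i : Fin 4}
    (h0 : 0 < dot w (nu p i)) (h1 : 0 < dot w (nu p (i + 1))) :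
    oa p w = crs w (vtx p (i + 3)) ∧ ob p w = crs w (vtx p (i + 1)) ∧
    oa p w < crs w (vtx p i) ∧ crs w (vtx p i) < ob p w := by
  obtain ⟨c0, c1, c2, c3⟩ := S1_vtx p w i
  obtain ⟨g0, g1⟩ := S1_pos hp i
  have k1 := mul_pos g1 h0
  have k2 := mul_pos g0 h1
  have e1 : oa p w = crs w (vtx p (i + 3)) := by
    apply le_antisymm
    · exact Finset.inf'_le _ (Finset.mem_univ _)
    · apply Finset.le_inf'
      intro j _
      rcases S1_fin4 i j with rfl | rfl | rfl | rfl
      · rw [c0, c3]; linarith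
      · rw [c1, c3]; linarith
      · rw [c2, c3]; linarith
      · exact le_rfl
  have e2 : ob p w = crs w (vtx p (i + 1)) := by
    apply le_antisymm
    · apply Finset.sup'_le
      intro j _
      rcases S1_fin4 i j with rfl | rfl | rfl | rfl
      · rw [c0, c1]; linarith
      · exact le_rfl
      · rw [c1, c2]; linarith
      · rw [c1, c3]; linarith
    · exact Finset.le_sup' (fun j => crs w (vtx p j)) (Finset.mem_univ _)
  refine ⟨e1, e2, ?_, ?_⟩
  · rw [e1, c0, c3]; linarith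
  · rw [e2, c0, c1]; linarith

/-- the value of `be` -/
private theorem S1_be {p : Par} (hp : p ∈ Pi0) {w : ℂ} (hn : ‖w‖ = 1) {i : Fin 4}
    (h0 : 0 < dot w (nu p i)) (h1 : 0 < dot w (nu p (i + 1))) {o : ℝ} (ho : oa p w ≤ o)
    (ho' : o ≤ ob p w) :
    be p w o = min ((p.2 i + o * dot w (nu p (i + 1))) / dot w (nu p i))
      ((p.2 (i + 1) - o * dot w (nu p i)) / dot w (nu p (i + 1))) ∧ XX p w o ∈ Q p := by
  obtain ⟨c0, c1, c2, c3⟩ := S1_vtx p w i
  obtain ⟨g0, g1⟩ := S1_pos hp i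
  obtain ⟨e1, e2, _, _⟩ := S1_oa hp h0 h1
  have hsq := S1_sq p hn i
  rw [e1, c3] at ho
  rw [e2, c1] at ho'
  set α := dot w (nu p i) with hα
  set β := dot w (nu p (i + 1)) with hβ
  have ho2 : o * (α * α) + o * (β * β) = o := by linear_combination o * hsq
  set m := min ((p.2 i + o * β) / α) ((p.2 (i + 1) - o * α) / β) with hm
  have m1 : m * α ≤ p.2 i + o * β := by
    rw [← le_div_iff₀ h0]; exact min_le_left _ _
  have m2 : m * β ≤ p.2 (i + 1) - o * α := by
    rw [← le_div_iff₀ h1]; exact min_le_right _ _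
  have m3 : (o * β - p.2 (i + 2)) / α ≤ m := by
    apply le_min
    · apply div_le_div_of_nonneg_right _ h0.le
      linarith
    · rw [div_le_div_iff₀ h0 h1]
      nlinarith [ho2]
  have m4 : (-p.2 (i + 3) - o * α) / β ≤ m := by
    apply le_min
    · rw [div_le_div_iff₀ h1 h0]
      nlinarith [ho2]
    · apply div_le_div_of_nonneg_right _ h1.le
      linarith
  rw [div_le_iff₀ h0] at m3
  rw [div_le_iff₀ h1] at m4
  have hg : IsGreatest {t : ℝ | ((t : ℂ) + o * Complex.I) * w ∈ Q p} m := by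
    constructor
    · rw [Set.mem_ofPred_eq, S1_Q p w i]
      refine ⟨by linarith, by linarith, by linarith, by linarith⟩
    · intro t ht
      rw [Set.mem_ofPred_eq, S1_Q p w i] at ht
      apply le_min
      · rw [le_div_iff₀ h0]; linarith [ht.1]
      · rw [le_div_iff₀ h1]; linarith [ht.2.1]
  have hbe : be p w o = m := hg.csSup_eq
  refine ⟨hbe, ?_⟩
  unfold XX
  rw [hbe]
  exact hg.1

private theorem S1_XX {p : Par} {w : ℂ} (hn : ‖w‖ = 1) (o : ℝ) :
    crs w (XX p w o) = o ∧ dot w (XX p w o) = be p w o := by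
  have h1 : dot w w = 1 := by rw [dot_self, hn]; norm_num
  unfold XX
  constructor
  · rw [S1_crs, crs_self, h1]; ring
  · rw [dot_comm, S1_dot, crs_self, h1]; ring

private theorem S1_XX' {p : Par} {w x : ℂ} (hn : ‖w‖ = 1) (h : be p w (crs w x) = dot w x) :
    XX p w (crs w x) = x := by
  unfold XX
  rw [h]
  exact (decomp hn x).symm

/-- extreme offsets and the exit point -/
theorem exit_pt {p : Par} (hp : p ∈ Pi0) {w : ℂ} (hn : ‖w‖ = 1) {i : Fin 4}
    (h0 : 0 < dot w (nu p i)) (h1 : 0 < dot w (nu p (i + 1))) :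
    oa p w = crs w (vtx p (i + 3)) ∧ ob p w = crs w (vtx p (i + 1)) ∧
    oa p w < crs w (vtx p i) ∧ crs w (vtx p i) < ob p w ∧
    (∀ o, oa p w ≤ o → o ≤ ob p w → XX p w o ∈ Q p ∧ crs w (XX p w o) = o ∧
      dot w (XX p w o) = be p w o ∧ Out p (XX p w o) w ∧
      (o ≤ crs w (vtx p i) → dot (XX p w o) (nu p i) = p.2 i) ∧
      (crs w (vtx p i) ≤ o → dot (XX p w o) (nu p (i + 1)) = p.2 (i + 1))) ∧
    (∀ o, oa p w < o → o < crs w (vtx p i) → ∀ j, j ≠ i → dot (XX p w o) (nu p j) < p.2 j) ∧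
    (∀ o, crs w (vtx p i) < o → o < ob p w →
      ∀ j, j ≠ i + 1 → dot (XX p w o) (nu p j) < p.2 j) ∧
    XX p w (crs w (vtx p i)) = vtx p i ∧ XX p w (oa p w) = vtx p (i + 3) ∧
    XX p w (ob p w) = vtx p (i + 1) ∧
    ContinuousOn (fun o => XX p w o) (Icc (oa p w) (ob p w)) ∧
    ContinuousOn (fun o => be p w o) (Icc (oa p w) (ob p w)) := by
  obtain ⟨c0, c1, c2, c3⟩ := S1_vtx p w i
  obtain ⟨d0, d1, d3⟩ := S1_dvtx p w i
  obtain ⟨g0, g1⟩ := S1_pos hp i
  obtain ⟨e1, e2, e3, e4⟩ := S1_oa hp h0 h1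
  obtain ⟨v0, v1, v2, v3, v4, v5⟩ := S1_vals p w i
  have hsq := S1_sq p hn i
  have hbe : ∀ o, oa p w ≤ o → o ≤ ob p w → _ := fun o a b => S1_be hp hn h0 h1 a b
  set α := dot w (nu p i) with hα
  set β := dot w (nu p (i + 1)) with hβ
  have ho2 : ∀ o : ℝ, o * (α * α) + o * (β * β) = o := fun o => by
    linear_combination o * hsq
  -- which face
  have hL : ∀ o, oa p w ≤ o → o ≤ ob p w → o ≤ crs w (vtx p i) →
      be p w o = (p.2 i + o * β) / α := by
    intro o a b c
    rw [(hbe o a b).1]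
    apply min_eq_left
    rw [div_le_div_iff₀ h0 h1]
    rw [c0] at c
    nlinarith [ho2 o]
  have hR : ∀ o, oa p w ≤ o → o ≤ ob p w → crs w (vtx p i) ≤ o →
      be p w o = (p.2 (i + 1) - o * α) / β := by
    intro o a b c
    rw [(hbe o a b).1]
    apply min_eq_right
    rw [div_le_div_iff₀ h1 h0]
    rw [c0] at c
    nlinarith [ho2 o]
  have n0 : ∀ o, dot (XX p w o) (nu p i) = be p w o * α - o * β := by
    intro o
    unfold XX
    rw [S1_dot, v0]; ring
  have n1 : ∀ o, dot (XX p w o) (nu p (i + 1)) = be p w o * β + o * α := by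
    intro o
    unfold XX
    rw [S1_dot, v1]
  have n2 : ∀ o, dot (XX p w o) (nu p (i + 2)) = -(be p w o * α - o * β) := by
    intro o
    unfold XX
    rw [S1_dot, v2, v4]; ring
  have n3 : ∀ o, dot (XX p w o) (nu p (i + 3)) = -(be p w o * β + o * α) := by
    intro o
    unfold XX
    rw [S1_dot, v3, v5]; ring
  have l0 : ∀ o, oa p w ≤ o → o ≤ ob p w → o ≤ crs w (vtx p i) →
      dot (XX p w o) (nu p i) = p.2 i := by
    intro o a b c
    rw [n0, hL o a b c, div_mul_cancel₀ _ h0.ne']; ring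
  have l1 : ∀ o, oa p w ≤ o → o ≤ ob p w → crs w (vtx p i) ≤ o →
      dot (XX p w o) (nu p (i + 1)) = p.2 (i + 1) := by
    intro o a b c
    rw [n1, hR o a b c, div_mul_cancel₀ _ h1.ne']; ring
  refine ⟨e1, e2, e3, e4, ?_, ?_, ?_, ?_, ?_, ?_, ?_, ?_⟩
  · intro o a b
    refine ⟨(hbe o a b).2, (S1_XX hn o).1, (S1_XX hn o).2, ⟨(hbe o a b).2, ?_⟩, l0 o a b, l1 o a b⟩
    rcases le_total o (crs w (vtx p i)) with c | c
    · exact ⟨i, l0 o a b c, h0⟩
    · exact ⟨i + 1, l1 o a b c, h1⟩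
  · intro o a b j hj
    have b' : o ≤ ob p w := by linarith
    rcases S1_fin4 i j with rfl | rfl | rfl | rfl
    · exact absurd rfl hj
    · rw [n1, hL o a.le b' b.le]
      rw [c0] at b
      have k : (p.2 i + o * β) / α * β < p.2 (i + 1) - o * α := by
        rw [div_mul_eq_mul_div, div_lt_iff₀ h0]
        nlinarith [ho2 o]
      linarith
    · have := l0 o a.le b' b.le
      rw [n0] at this
      rw [n2, this]; linarith
    · rw [n3, hL o a.le b' b.le]
      rw [e1, c3] at a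
      have k : -(p.2 (i + 3)) - o * α < (p.2 i + o * β) / α * β := by
        rw [div_mul_eq_mul_div, lt_div_iff₀ h0]
        nlinarith [ho2 o]
      linarith
  · intro o a b j hj
    have a' : oa p w ≤ o := by linarith
    rcases S1_fin4 i j with rfl | rfl | rfl | rfl
    · rw [n0, hR o a' b.le a.le]
      rw [c0] at a
      have k : (p.2 (j + 1) - o * α) / β * α < p.2 j + o * β := by
        rw [div_mul_eq_mul_div, div_lt_iff₀ h1]
        nlinarith [ho2 o]
      linarith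
    · exact absurd rfl hj
    · rw [n2, hR o a' b.le a.le]
      rw [e2, c1] at b
      have k : -(p.2 (i + 2)) + o * β < (p.2 (i + 1) - o * α) / β * α := by
        rw [div_mul_eq_mul_div, lt_div_iff₀ h1]
        nlinarith [ho2 o]
      linarith
    · have := l1 o a' b.le a.le
      rw [n1] at this
      rw [n3, this]; linarith
  · apply S1_XX' hn
    rw [hL _ e3.le e4.le le_rfl, c0, d0, div_eq_iff h0.ne']
    linear_combination (-(p.2 i)) * hsq
  · rw [e1]
    apply S1_XX' hn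
    rw [← e1, hL _ le_rfl (by linarith) e3.le, e1, c3, d3, div_eq_iff h0.ne']
    linear_combination (-(p.2 i)) * hsq
  · rw [e2]
    apply S1_XX' hn
    rw [← e2, hR _ (by linarith) le_rfl e4.le, e2, c1, d1, div_eq_iff h1.ne']
    linear_combination (-(p.2 (i + 1))) * hsq
  · have hc : ContinuousOn (fun o : ℝ =>
        (((min ((p.2 i + o * β) / α) ((p.2 (i + 1) - o * α) / β) : ℝ) : ℂ) +
          (o : ℂ) * Complex.I) * w) (Icc (oa p w) (ob p w)) := by
      apply Continuous.continuousOn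
      fun_prop
    apply hc.congr
    intro o ho
    change XX p w o = _
    unfold XX
    rw [(hbe o ho.1 ho.2).1]
  · have hc : ContinuousOn (fun o : ℝ =>
        min ((p.2 i + o * β) / α) ((p.2 (i + 1) - o * α) / β)) (Icc (oa p w) (ob p w)) := by
      apply Continuous.continuousOn
      fun_prop
    apply hc.congr
    intro o ho
    exact (hbe o ho.1 ho.2).1

/-- the exit point is the only outgoing point -/
theorem out_unique {p : Par} (hp : p ∈ Pi0) {w x : ℂ} (hn : ‖w‖ = 1)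
    (hw : ∀ j, dot w (nu p j) ≠ 0) (h : Out p x w) :
    oa p w ≤ crs w x ∧ crs w x ≤ ob p w ∧ XX p w (crs w x) = x := by
  obtain ⟨i, h0, h1, h2, h3⟩ := facing hw
  obtain ⟨c0, c1, c2, c3⟩ := S1_vtx p w i
  obtain ⟨g0, g1⟩ := S1_pos hp i
  obtain ⟨e1, e2, e3, e4⟩ := S1_oa hp h0 h1
  obtain ⟨v0, v1, v2, v3, v4, v5⟩ := S1_vals p w i
  have hsq := S1_sq p hn i
  obtain ⟨hxQ, j, hj1, hj2⟩ := h
  have q0 := hxQ i
  have q1 := hxQ (i + 1)
  have q2 := hxQ (i + 2)
  have q3 := hxQ (i + 3)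
  have q2' : -dot x (nu p i) ≤ p.2 (i + 2) := by rw [← dot_add_two]; exact q2
  have q3' : -dot x (nu p (i + 1)) ≤ p.2 (i + 3) := by
    rw [← dot_add_two, (S1_fin4' i).2.2.2.2.2.2.2.2]; exact q3
  have hcr : crs w x = dot x (nu p (i + 1)) * dot w (nu p i) -
      dot x (nu p i) * dot w (nu p (i + 1)) := by
    conv_lhs => rw [basis_nu p i x]
    rw [crs_add_right, crs_mul_right, crs_mul_right, v0, v1]; ring
  have hdt : dot w x = dot x (nu p i) * dot w (nu p i) +
      dot x (nu p (i + 1)) * dot w (nu p (i + 1)) := by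
    conv_lhs => rw [basis_nu p i x]
    rw [dot_add_right, dot_mul_right, dot_mul_right]
  set α := dot w (nu p i) with hα
  set β := dot w (nu p (i + 1)) with hβ
  set u := dot x (nu p i) with hu
  set v := dot x (nu p (i + 1)) with hv
  have hlo : oa p w ≤ crs w x := by
    rw [e1, c3, hcr]
    nlinarith [mul_le_mul_of_nonneg_right q3' h0.le, mul_le_mul_of_nonneg_right q0 h1.le]
  have hhi : crs w x ≤ ob p w := by
    rw [e2, c1, hcr]
    nlinarith [mul_le_mul_of_nonneg_right q1 h0.le, mul_le_mul_of_nonneg_right q2' h1.le]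
  refine ⟨hlo, hhi, ?_⟩
  apply S1_XX' hn
  rw [(S1_be hp hn h0 h1 hlo hhi).1, ← hα, ← hβ]
  rcases S1_fin4 i j with rfl | rfl | rfl | rfl
  · rw [← hu] at hj1
    rw [min_eq_left, hcr, hdt, div_eq_iff h0.ne', ← hj1]
    · linear_combination (-u) * hsq
    · rw [div_le_div_iff₀ h0 h1, hcr, ← hj1]
      have k1 := mul_le_mul_of_nonneg_right q1 h0.le
      have k2 : (v * α - u * β) * (α * α) + (v * α - u * β) * (β * β) = v * α - u * β := by
        linear_combination (v * α - u * β) * hsq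
      linarith
  · rw [← hv] at hj1
    rw [min_eq_right, hcr, hdt, div_eq_iff h1.ne', ← hj1]
    · linear_combination (-v) * hsq
    · rw [div_le_div_iff₀ h1 h0, hcr, ← hj1]
      have k1 := mul_le_mul_of_nonneg_right q0 h1.le
      have k2 : (v * α - u * β) * (α * α) + (v * α - u * β) * (β * β) = v * α - u * β := by
        linear_combination (v * α - u * β) * hsq
      linarith
  · linarith
  · linarith

end TMX
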