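import Pool.Agent.TMX.A1
import Pool.Agent.TMX.A4
import Pool.Agent.TMX.Basic

set_option autoImplicit false

open Set Filter Topology

namespace TMX

namespace S2

theorem lat_add (θ : ℝ) (m m' : ℤ × ℤ) : lat θ (m + m') = lat θ m + lat θ m' := by
  apply Complex.ext <;> simp [lat] <;> ring

theorem lat_neg (θ : ℝ) (m : ℤ × ℤ) : lat θ (-m) = -lat θ m := by
  apply Complex.ext <;> simp [lat]

theorem cos_pos_of {θ : ℝ} (hθ : |θ - Real.pi / 4| < 1 / 100) : 0 < Real.cos θ := by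
  rw [abs_lt] at hθ
  have := Real.pi_gt_three
  exact Real.cos_pos_of_mem_Ioo ⟨by linarith [hθ.1], by linarith [hθ.2]⟩

theorem bb_pos_of {θ : ℝ} (hθ : |θ - Real.pi / 4| < 1 / 100) : 0 < bb θ := by
  rw [abs_lt] at hθ
  have := Real.pi_gt_three
  exact Real.tan_pos_of_pos_of_lt_pi_div_two (by linarith [hθ.1]) (by linarith [hθ.2])

/-- The length of the persistent cylinder is a lattice period. -/
theorem ell_zz {θ : ℝ} (hθ : |θ - Real.pi / 4| < 1 / 100) :
    (ell θ : ℂ) * zz θ = lat θ (1, 1) := by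
  have hc := (cos_pos_of hθ).ne'
  apply Complex.ext
  · simp only [Complex.mul_re, Complex.ofReal_re, Complex.ofReal_im, zero_mul, sub_zero, zz_re,
      ell, lat]
    field_simp; norm_num
  · simp only [Complex.mul_im, Complex.ofReal_re, Complex.ofReal_im, zero_mul, add_zero, zz_im,
      ell, lat, bb]
    rw [Real.tan_eq_sin_div_cos]
    field_simp; norm_num

theorem ell_zz_conj {θ : ℝ} (hθ : |θ - Real.pi / 4| < 1 / 100) :
    (ell θ : ℂ) * (starRingEnd ℂ) (zz θ) = lat θ (1, -1) := by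
  have h := congrArg (starRingEnd ℂ) (ell_zz hθ)
  rw [map_mul, Complex.conj_ofReal] at h
  rw [h]
  apply Complex.ext <;> simp [lat]

theorem one_le_ell {θ : ℝ} (hθ : |θ - Real.pi / 4| < 1 / 100) : 1 ≤ ell θ := by
  unfold ell
  rw [le_div_iff₀ (cos_pos_of hθ)]
  linarith [Real.cos_le_one θ]

/-- For a special direction the flight of length `ell θ` is a lattice translation. -/
theorem spc_lat {θ : ℝ} (hθ : |θ - Real.pi / 4| < 1 / 100) {w : ℂ} (hw : Spc θ w) :
    ∃ m : ℤ × ℤ, (ell θ : ℂ) * w = lat θ m := by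
  rcases hw with h | h | h | h
  · exact ⟨(1, 1), by rw [h]; exact ell_zz hθ⟩
  · exact ⟨-(1, 1), by rw [h, lat_neg, ← ell_zz hθ]; ring⟩
  · exact ⟨(1, -1), by rw [h]; exact ell_zz_conj hθ⟩
  · exact ⟨-(1, -1), by rw [h, lat_neg, ← ell_zz_conj hθ]; ring⟩

/-- The hole contains a ball. -/
theorem ball_in_Q {p : Par} (hp : p ∈ Pi0) :
    ∃ q0 : ℂ, ∃ δ : ℝ, 0 < δ ∧ ∀ q : ℂ, ‖q - q0‖ < δ → q ∈ Q p := by
  have h0 := hp.2.2.1 0
  have h1 := hp.2.2.1 1
  have e2 : (0 : Fin 4) + 2 = 2 := rfl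
  have e3 : (1 : Fin 4) + 2 = 3 := rfl
  rw [e2] at h0
  rw [e3] at h1
  refine ⟨((1 / 2 : ℝ) : ℂ) * (vtx p 0 + vtx p 2), min ((p.2 0 + p.2 2) / 2) ((p.2 1 + p.2 3) / 2),
    lt_min (by linarith) (by linarith), ?_⟩
  intro q hq
  have hq0 := lt_of_lt_of_le hq (min_le_left _ _)
  have hq1 := lt_of_lt_of_le hq (min_le_right _ _)
  set q0 : ℂ := ((1 / 2 : ℝ) : ℂ) * (vtx p 0 + vtx p 2) with hq0d
  have key : ∀ j, dot q (nu p j) ≤ dot q0 (nu p j) + ‖q - q0‖ := by
    intro j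
    have e : dot q (nu p j) = dot q0 (nu p j) + dot (q - q0) (nu p j) := by
      rw [dot_sub_left]; ring
    have h2 := abs_dot_le (q - q0) (nu p j)
    rw [nu_norm, mul_one] at h2
    have h3 := le_abs_self (dot (q - q0) (nu p j))
    linarith
  have d0 : dot q0 (nu p 0) = (p.2 0 - p.2 2) / 2 := by
    have a := dot_vtx_self p 0
    have b : dot (vtx p 2) (nu p 0) = -p.2 2 := dot_vtx_two p 2
    rw [hq0d, dot_mul_left, dot_add_left, a, b]; ring
  have d1 : dot q0 (nu p 1) = (p.2 1 - p.2 3) / 2 := by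
    have a : dot (vtx p 0) (nu p 1) = p.2 1 := dot_vtx_succ p 0
    have b : dot (vtx p 2) (nu p 1) = -p.2 3 := dot_vtx_three p 2
    rw [hq0d, dot_mul_left, dot_add_left, a, b]; ring
  have d2 : dot q0 (nu p 2) = (p.2 2 - p.2 0) / 2 := by
    have a : dot (vtx p 0) (nu p 2) = -p.2 0 := dot_vtx_two p 0
    have b := dot_vtx_self p 2
    rw [hq0d, dot_mul_left, dot_add_left, a, b]; ring
  have d3 : dot q0 (nu p 3) = (p.2 3 - p.2 1) / 2 := by
    have a : dot (vtx p 0) (nu p 3) = -p.2 1 := dot_vtx_three p 0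
    have b : dot (vtx p 2) (nu p 3) = p.2 3 := dot_vtx_succ p 2
    rw [hq0d, dot_mul_left, dot_add_left, a, b]; ring
  have k0 := key 0
  have k1 := key 1
  have k2 := key 2
  have k3 := key 3
  rw [d0] at k0
  rw [d1] at k1
  rw [d2] at k2
  rw [d3] at k3
  intro j
  fin_cases j
  · change dot q (nu p 0) ≤ p.2 0; linarith
  · change dot q (nu p 1) ≤ p.2 1; linarith
  · change dot q (nu p 2) ≤ p.2 2; linarith
  · change dot q (nu p 3) ≤ p.2 3; linarith

/-- The offsets of the lattice vectors are dense. -/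
theorem crs_lat_dense {θ : ℝ} {w : ℂ} (hirr : ∀ m : ℤ × ℤ, m ≠ 0 → crs w (lat θ m) ≠ 0)
    (r ε : ℝ) (hε : 0 < ε) : ∃ m : ℤ × ℤ, |crs w (lat θ m) - r| < ε := by
  let f : ℤ × ℤ →+ ℝ :=
    { toFun := fun m => crs w (lat θ m)
      map_zero' := by simp [lat, crs]
      map_add' := by intro m m'; change crs w (lat θ (m + m')) = _; rw [lat_add, crs_add_right] }
  have hf : ∀ m, f m = crs w (lat θ m) := fun m => rfl
  rcases AddSubgroup.dense_or_cyclic f.range with hd | ⟨a, ha⟩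
  · have hd' : Dense (f.range : Set ℝ) := hd
    obtain ⟨y, hy, hyr⟩ := Metric.dense_iff.mp hd' r ε hε
    obtain ⟨m, hm⟩ := hyr
    refine ⟨m, ?_⟩
    rw [← hf, hm]
    rw [Metric.mem_ball, Real.dist_eq] at hy
    exact hy
  · exfalso
    have h1 : f (1, 0) ∈ AddSubgroup.closure {a} := by rw [← ha]; exact ⟨_, rfl⟩
    have h2 : f (0, 1) ∈ AddSubgroup.closure {a} := by rw [← ha]; exact ⟨_, rfl⟩
    rw [AddSubgroup.mem_closure_singleton] at h1 h2
    obtain ⟨k, hk⟩ := h1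
    obtain ⟨l, hl⟩ := h2
    have hzero : crs w (lat θ (l, -k)) = 0 := by
      rw [← hf]
      have e : ((l, -k) : ℤ × ℤ) = l • ((1, 0) : ℤ × ℤ) + (-k) • ((0, 1) : ℤ × ℤ) := by
        ext <;> simp
      rw [e, map_add, map_zsmul, map_zsmul, ← hk, ← hl, smul_smul, smul_smul, ← add_smul]
      have : l * k + -k * l = 0 := by ring
      rw [this, zero_smul]
    have hlk : ((l, -k) : ℤ × ℤ) = 0 := by
      by_contra hne
      exact hirr _ hne hzero
    have hk0 : k = 0 := by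
      have := congrArg Prod.snd hlk
      simpa using this
    rw [hk0, zero_smul] at hk
    exact hirr (1, 0) (by simp) (by rw [← hf, ← hk])

/-- Lattice vectors of bounded length are finitely many. -/
theorem lat_finite {θ : ℝ} (hb : 0 < bb θ) (K : ℝ) : {m : ℤ × ℤ | ‖lat θ m‖ ≤ K}.Finite := by
  obtain ⟨N, hN⟩ := exists_nat_ge (K / 2)
  obtain ⟨M, hM⟩ := exists_nat_ge (K / (2 * bb θ))
  apply (Set.Finite.prod (Set.finite_Icc (-(N : ℤ)) N) (Set.finite_Icc (-(M : ℤ)) M)).subset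
  intro m hm
  have hm' : ‖lat θ m‖ ≤ K := hm
  have h1 := (Complex.abs_re_le_norm (lat θ m)).trans hm'
  have h2 := (Complex.abs_im_le_norm (lat θ m)).trans hm'
  change |2 * (m.1 : ℝ)| ≤ K at h1
  change |2 * bb θ * (m.2 : ℝ)| ≤ K at h2
  rw [abs_le] at h1 h2
  rw [div_le_iff₀ (by norm_num)] at hN
  rw [div_le_iff₀ (by positivity)] at hM
  refine ⟨⟨?_, ?_⟩, ⟨?_, ?_⟩⟩
  · have : (-(N : ℝ)) ≤ m.1 := by linarith [h1.1]
    exact_mod_cast this
  · have : (m.1 : ℝ) ≤ N := by linarith [h1.2]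
    exact_mod_cast this
  · have : (-(M : ℝ)) ≤ m.2 := by
      by_contra hlt
      push Not at hlt
      have := mul_lt_mul_of_pos_left hlt (show 0 < 2 * bb θ by positivity)
      nlinarith [h2.1]
    exact_mod_cast this
  · have : (m.2 : ℝ) ≤ M := by
      by_contra hlt
      push Not at hlt
      have := mul_lt_mul_of_pos_left hlt (show 0 < 2 * bb θ by positivity)
      nlinarith [h2.2]
    exact_mod_cast this

theorem norm_le_dot_crs {w : ℂ} (hn : ‖w‖ = 1) (x : ℂ) : ‖x‖ ≤ |dot w x| + |crs w x| := by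
  have h := dot_sq_add_crs_sq w x
  rw [hn] at h
  have h0 := abs_nonneg (dot w x)
  have h1 := abs_nonneg (crs w x)
  apply le_of_sq_le_sq _ (by positivity)
  have e1 := sq_abs (dot w x)
  have e2 := sq_abs (crs w x)
  nlinarith [mul_nonneg h0 h1]

/-- Lattice vectors with small offset, far away. -/
theorem lat_far {θ : ℝ} (hb : 0 < bb θ) {w : ℂ} (hn : ‖w‖ = 1)
    (hirr : ∀ m : ℤ × ℤ, m ≠ 0 → crs w (lat θ m) ≠ 0) (M ε : ℝ) (hε : 0 < ε) :
    ∃ m : ℤ × ℤ, |crs w (lat θ m)| < ε ∧ M < dot w (lat θ m) := by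
  -- the nonzero lattice vectors in a bounded region have offsets bounded below
  have hfin := lat_finite (θ := θ) hb (|M| + ε)
  obtain ⟨η, hη, hηm⟩ : ∃ η : ℝ, 0 < η ∧ ∀ m ∈ {m : ℤ × ℤ | ‖lat θ m‖ ≤ |M| + ε}, m ≠ 0 →
      η ≤ |crs w (lat θ m)| := by
    have : ∀ S : Set (ℤ × ℤ), S.Finite → ∃ η : ℝ, 0 < η ∧ ∀ m ∈ S, m ≠ 0 →
        η ≤ |crs w (lat θ m)| := by
      intro S hS
      induction S, hS using Set.Finite.induction_on with
      | empty => exact ⟨1, one_pos, fun m hm => absurd hm (Set.notMem_empty m)⟩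
      | @insert a S _ _ ih =>
        obtain ⟨η, hη, hS⟩ := ih
        by_cases ha : a = 0
        · refine ⟨η, hη, fun m hm hm0 => ?_⟩
          rcases hm with h | h
          · exact absurd (h.trans ha) hm0
          · exact hS m h hm0
        · refine ⟨min η |crs w (lat θ a)|, lt_min hη (abs_pos.mpr (hirr a ha)),
            fun m hm hm0 => ?_⟩
          rcases hm with h | h
          · rw [h]; exact min_le_right _ _
          · exact (min_le_left _ _).trans (hS m h hm0)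
    exact this _ hfin
  -- a nonzero vector with a smaller offset
  have hmin : 0 < min η ε := lt_min hη hε
  obtain ⟨m, hm⟩ := crs_lat_dense (w := w) (θ := θ) hirr (min η ε / 2) (min η ε / 2)
    (by linarith)
  rw [abs_lt] at hm
  have hmpos : 0 < crs w (lat θ m) := by linarith [hm.1]
  have hmlt : crs w (lat θ m) < min η ε := by linarith [hm.2]
  have hm0 : m ≠ 0 := by
    intro h
    rw [h] at hmpos
    simp [lat, crs] at hmpos
  have habs : |crs w (lat θ m)| < min η ε := by rw [abs_of_pos hmpos]; exact hmlt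
  have hbig : |M| < |dot w (lat θ m)| := by
    by_contra hle
    push Not at hle
    have h1 : ‖lat θ m‖ ≤ |M| + ε := by
      have := norm_le_dot_crs hn (lat θ m)
      have h2 := habs.trans_le (min_le_right η ε)
      linarith
    have := hηm m h1 hm0
    have h2 := habs.trans_le (min_le_left η ε)
    linarith
  rcases le_total 0 (dot w (lat θ m)) with h | h
  · refine ⟨m, habs.trans_le (min_le_right _ _), ?_⟩
    rw [abs_of_nonneg h] at hbig
    exact (le_abs_self M).trans_lt hbig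
  · refine ⟨-m, ?_, ?_⟩
    · rw [lat_neg, crs_neg_right, abs_neg]
      exact habs.trans_le (min_le_right _ _)
    · rw [lat_neg, dot_neg_right]
      rw [abs_of_nonpos h] at hbig
      exact (le_abs_self M).trans_lt hbig

/-- Reduction modulo the lattice. -/
theorem lat_reduce {θ : ℝ} (hb : 0 < bb θ) (z : ℂ) :
    ∃ m : ℤ × ℤ, ‖z + lat θ m‖ ≤ 2 + 2 * bb θ := by
  refine ⟨(-⌊z.re / 2⌋, -⌊z.im / (2 * bb θ)⌋), ?_⟩
  have h1 := Int.floor_le (z.re / 2)
  have h2 := Int.lt_floor_add_one (z.re / 2)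
  have h3 := Int.floor_le (z.im / (2 * bb θ))
  have h4 := Int.lt_floor_add_one (z.im / (2 * bb θ))
  rw [le_div_iff₀ (by norm_num)] at h1
  rw [div_lt_iff₀ (by norm_num)] at h2
  rw [le_div_iff₀ (by positivity)] at h3
  rw [div_lt_iff₀ (by positivity)] at h4
  have hre : |(z + lat θ (-⌊z.re / 2⌋, -⌊z.im / (2 * bb θ)⌋)).re| ≤ 2 := by
    simp only [Complex.add_re, lat, Int.cast_neg]
    rw [abs_le]; constructor <;> linarith
  have him : |(z + lat θ (-⌊z.re / 2⌋, -⌊z.im / (2 * bb θ)⌋)).im| ≤ 2 * bb θ := by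
    simp only [Complex.add_im, lat, Int.cast_neg]
    rw [abs_le]; constructor <;> nlinarith
  exact (Complex.norm_le_abs_re_add_abs_im _).trans (by linarith)

/-- Uniform recurrence modulo the lattice. -/
theorem lat_uniform {θ : ℝ} (hb : 0 < bb θ) {w : ℂ} (hn : ‖w‖ = 1)
    (hirr : ∀ m : ℤ × ℤ, m ≠ 0 → crs w (lat θ m) ≠ 0) (δ : ℝ) (hδ : 0 < δ) :
    ∃ L : ℝ, ∀ z : ℂ, ∃ m : ℤ × ℤ, |crs w (lat θ m + z)| < δ ∧ 1 ≤ dot w (lat θ m + z) ∧
      dot w (lat θ m + z) ≤ L := by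
  have hcomp : IsCompact (Metric.closedBall (0 : ℂ) (2 + 2 * bb θ)) := isCompact_closedBall _ _
  let U : ℤ × ℤ → Set ℂ := fun m => {z | |crs w (lat θ m + z)| < δ ∧ 1 < dot w (lat θ m + z)}
  have hUo : ∀ m, IsOpen (U m) := by
    intro m
    have h1 : IsOpen {z : ℂ | |crs w (lat θ m + z)| < δ} := by
      apply isOpen_lt _ continuous_const
      exact (continuous_crs.comp (by fun_prop : Continuous fun z : ℂ => (w, lat θ m + z))).abs
    have h2 : IsOpen {z : ℂ | 1 < dot w (lat θ m + z)} := by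
      apply isOpen_lt continuous_const
      exact continuous_dot.comp (by fun_prop : Continuous fun z : ℂ => (w, lat θ m + z))
    exact h1.inter h2
  have hcover : Metric.closedBall (0 : ℂ) (2 + 2 * bb θ) ⊆ ⋃ m, U m := by
    intro z _
    obtain ⟨m1, hm1⟩ := crs_lat_dense (w := w) (θ := θ) hirr (-crs w z) (δ / 2) (by linarith)
    obtain ⟨m2, hm2, hm2'⟩ := lat_far hb hn hirr (1 - dot w (lat θ m1) - dot w z) (δ / 2)
      (by linarith)
    rw [Set.mem_iUnion]
    refine ⟨m1 + m2, ?_, ?_⟩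
    · change |crs w (lat θ (m1 + m2) + z)| < δ
      rw [lat_add, crs_add_right, crs_add_right]
      rw [abs_lt] at hm1 hm2 ⊢
      constructor <;> linarith [hm1.1, hm1.2, hm2.1, hm2.2]
    · change 1 < dot w (lat θ (m1 + m2) + z)
      rw [lat_add, dot_add_right, dot_add_right]
      linarith
  obtain ⟨T, hT⟩ := hcomp.elim_finite_subcover U hUo hcover
  obtain ⟨K, hK⟩ : ∃ K : ℝ, ∀ m ∈ T, ‖lat θ m‖ ≤ K :=
    ⟨∑ m ∈ T, ‖lat θ m‖, fun m hm =>
      Finset.single_le_sum (f := fun m => ‖lat θ m‖) (fun _ _ => norm_nonneg _) hm⟩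
  refine ⟨K + (2 + 2 * bb θ), fun z => ?_⟩
  obtain ⟨m0, hm0⟩ := lat_reduce (θ := θ) hb z
  have hz : z + lat θ m0 ∈ Metric.closedBall (0 : ℂ) (2 + 2 * bb θ) := by
    rw [mem_closedBall_zero_iff]; exact hm0
  have hz' := hT hz
  rw [Set.mem_iUnion₂] at hz'
  obtain ⟨m, hm, hmU⟩ := hz'
  have e : lat θ (m + m0) + z = lat θ m + (z + lat θ m0) := by rw [lat_add]; ring
  refine ⟨m + m0, ?_, ?_, ?_⟩
  · rw [e]; exact hmU.1
  · rw [e]; exact le_of_lt hmU.2
  · rw [e]
    have h1 := (le_abs_self _).trans (abs_dot_le w (lat θ m + (z + lat θ m0)))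
    rw [hn, one_mul] at h1
    have h2 := norm_add_le (lat θ m) (z + lat θ m0)
    linarith [hK m hm]

end S2

open S2

/-- [S2] bounded flights. -/
theorem bounded {θ : ℝ} (hθ : |θ - Real.pi / 4| < 1 / 100) (hz : Transcendental ℚ (zz θ))
    {p : Par} (hp : p ∈ Pi0) {n : ℕ} (g : Gen θ p n) :
    ∃ L : ℝ, ∀ w ∈ DD θ n, ∀ x : ℂ, (Out p x w ∨ ¬ Spc θ w) →
      ∃ t : ℝ, 1 ≤ t ∧ t ≤ L ∧ ∃ c, x + t * w ∈ obs θ p c := by
  have hb := bb_pos_of hθ
  obtain ⟨q0, δ, hδ, hball⟩ := ball_in_Q hp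
  have key : ∀ w : ℂ, ∃ L : ℝ, w ∈ DD θ n → ∀ x : ℂ, (Out p x w ∨ ¬ Spc θ w) →
      ∃ t : ℝ, 1 ≤ t ∧ t ≤ L ∧ ∃ c, x + t * w ∈ obs θ p c := by
    intro w
    by_cases hw : w ∈ DD θ n
    swap
    · exact ⟨0, fun h => absurd h hw⟩
    have hn : ‖w‖ = 1 := (DD_ops hz g hw).1
    by_cases hs : Spc θ w
    · refine ⟨ell θ, fun _ x hx => ?_⟩
      have hout : Out p x w := by
        rcases hx with h | h
        · exact h
        · exact absurd hs h
      obtain ⟨m, hm⟩ := spc_lat hθ hs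
      refine ⟨ell θ, one_le_ell hθ, le_refl _, (1, m), ?_⟩
      change act 1 (x + (ell θ : ℂ) * w - lat θ m) ∈ Q p
      rw [act_one, hm, add_sub_cancel_right]
      exact hout.1
    · have hirr : ∀ m : ℤ × ℤ, m ≠ 0 → crs w (lat θ m) ≠ 0 := by
        intro m hm h
        exact hs (lat_special hz hw hm h).1
      obtain ⟨L, hL⟩ := lat_uniform hb hn hirr δ hδ
      refine ⟨L, fun _ x _ => ?_⟩
      obtain ⟨m, h1, h2, h3⟩ := hL (q0 - x)
      refine ⟨dot w (lat θ m + (q0 - x)), h2, h3, (1, m), ?_⟩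
      change act 1 (x + (dot w (lat θ m + (q0 - x)) : ℂ) * w - lat θ m) ∈ Q p
      rw [act_one]
      apply hball
      have hd := decomp hn (lat θ m + (q0 - x))
      have e : x + (dot w (lat θ m + (q0 - x)) : ℂ) * w - lat θ m - q0 =
          -((crs w (lat θ m + (q0 - x)) : ℂ) * (Complex.I * w)) := by
        linear_combination (-1 : ℂ) * hd
      rw [e, norm_neg, norm_mul, norm_mul, Complex.norm_I, hn, Complex.norm_real,
        Real.norm_eq_abs]
      simpa using h1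
  choose f hf using key
  obtain ⟨L, hL⟩ := ((DD_finite θ n).image f).bddAbove
  refine ⟨L, fun w hw x hx => ?_⟩
  obtain ⟨t, ht1, ht2, c, hc⟩ := hf w hw x hx
  exact ⟨t, ht1, ht2.trans (hL ⟨w, hw, rfl⟩), c, hc⟩

end TMX
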