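import Pool.Agent.TMX.Basic
import Pool.Agent.TMX.G1

set_option autoImplicit false

open Set Filter Topology

namespace TMX

namespace S3

/-- A point of the hole whose backward ray is outside the hole is on a side that faces the ray. -/
theorem arrive_side {p : Par} {y v : ℂ} (hy : y ∈ Q p) (hv : ∀ j, dot v (nu p j) ≠ 0)
    {t : ℝ} (ht : 0 < t) (hout : ∀ r : ℝ, 0 < r → r < t → y - (r : ℂ) * v ∉ Q p) :
    ∃ j, dot y (nu p j) = p.2 j ∧ dot v (nu p j) < 0 := by
  by_contra hcon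
  push Not at hcon
  have key : ∀ j : Fin 4, ∀ᶠ r : ℝ in 𝓝[>] (0 : ℝ), dot (y - (r : ℂ) * v) (nu p j) ≤ p.2 j := by
    intro j
    rcases lt_or_eq_of_le (hy j) with h | h
    · have hc : Tendsto (fun r : ℝ => dot (y - (r : ℂ) * v) (nu p j)) (𝓝[>] (0 : ℝ))
          (𝓝 (dot y (nu p j))) := by
        have h1 : Continuous fun r : ℝ => dot (y - (r : ℂ) * v) (nu p j) := by
          unfold dot; fun_prop
        have h2 := h1.tendsto 0
        simp only [Complex.ofReal_zero, zero_mul, sub_zero] at h2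
        exact h2.mono_left nhdsWithin_le_nhds
      filter_upwards [hc.eventually (gt_mem_nhds h)] with r hr
      exact hr.le
    · have h3 : 0 < dot v (nu p j) := lt_of_le_of_ne (hcon j h) (Ne.symm (hv j))
      filter_upwards [self_mem_nhdsWithin] with r hr
      rw [dot_sub_left, dot_mul_left, h]
      have : 0 < r := hr
      nlinarith [mul_pos this h3]
  have hall : ∀ᶠ r : ℝ in 𝓝[>] (0 : ℝ), ∀ j, dot (y - (r : ℂ) * v) (nu p j) ≤ p.2 j :=
    Filter.eventually_all.mpr key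
  have hlt : ∀ᶠ r in 𝓝[>] (0 : ℝ), r < t :=
    (gt_mem_nhds ht : ∀ᶠ r in 𝓝 (0 : ℝ), r < t).filter_mono nhdsWithin_le_nhds
  have hpos : ∀ᶠ r in 𝓝[>] (0 : ℝ), 0 < r := self_mem_nhdsWithin
  obtain ⟨r, hr1, hr2, hr3⟩ := (hall.and (hlt.and hpos)).exists
  exact hout r hr3 hr2 hr1

end S3

open S3

/-- [S3] the first touched copy: a good letter or a vertex. -/
theorem first_touch {θ : ℝ} (hθ : |θ - Real.pi / 4| < 1 / 100) {p : Par} (hp : p ∈ Pi0)
    {x w : ℂ} (hn : ‖w‖ = 1) (hw : ∀ d j, dot (act d w) (nu p j) ≠ 0)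
    (hs : Out p x w ∨ Fre θ p x) {L : ℝ} (hL : ∃ t : ℝ, 0 < t ∧ t ≤ L ∧ ∃ c, x + t * w ∈ obs θ p c) :
    (∃ a, Good θ p a (x, w) ∧ fl θ p a (x, w) ≤ L) ∨
    ∃ (c : Cp) (t : ℝ) (j : Fin 4), 0 < t ∧ t ≤ L ∧ FreeSeg θ p x w t ∧
      frm θ c (x + t * w) = vtx p j ∧
      ¬ (0 < dot (act c.1 w) (nu p j) ∧ 0 < dot (act c.1 w) (nu p (j + 1))) := by
  obtain ⟨tL, htL0, htL, cL, hcL⟩ := hL
  set H : Set ℝ := {t | 0 < t ∧ ∃ c, x + (t : ℂ) * w ∈ obs θ p c} with hH
  have hne : H.Nonempty := ⟨tL, htL0, cL, hcL⟩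
  have hbd : BddBelow H := ⟨0, fun t ht => ht.1.le⟩
  set τ := sInf H with hτ
  have hτ0 : 0 ≤ τ := le_csInf hne fun t ht => ht.1.le
  have hτL : τ ≤ L := (csInf_le hbd ⟨htL0, cL, hcL⟩).trans htL
  obtain ⟨t1, ht1, ht1'⟩ := exists_lt_of_csInf_lt hne (show sInf H < τ + 2 / 5 by linarith)
  obtain ⟨ht10, c, hc1⟩ := ht1
  have hτt1 : τ ≤ t1 := csInf_le hbd ⟨ht10, c, hc1⟩
  -- all near hits are hits of the copy c
  have hsame : ∀ t ∈ H, t < τ + 2 / 5 → x + (t : ℂ) * w ∈ obs θ p c := by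
    intro t ht htlt
    obtain ⟨ht0, c', hc'⟩ := ht
    have hτt : τ ≤ t := csInf_le hbd ⟨ht0, c', hc'⟩
    by_cases hcc : c = c'
    · rw [hcc]; exact hc'
    · exfalso
      have h1 := copies_dist hθ hp hcc hc1 hc'
      have h2 : x + (t1 : ℂ) * w - (x + (t : ℂ) * w) = ((t1 - t : ℝ) : ℂ) * w := by
        push_cast; ring
      rw [h2, norm_mul, hn, mul_one, Complex.norm_real, Real.norm_eq_abs] at h1
      have h3 : |t1 - t| < 2 / 5 := by
        rw [abs_lt]; constructor <;> linarith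
      linarith
  have hclosed : IsClosed {t : ℝ | x + (t : ℂ) * w ∈ obs θ p c} :=
    (obs_isClosed θ p c).preimage (by fun_prop : Continuous fun t : ℝ => x + (t : ℂ) * w)
  have hτc : x + (τ : ℂ) * w ∈ obs θ p c := by
    have : τ ∈ closure {t : ℝ | x + (t : ℂ) * w ∈ obs θ p c} := by
      rw [Metric.mem_closure_iff]
      intro ε hε
      obtain ⟨t, ht, htlt⟩ := exists_lt_of_csInf_lt hne
        (show sInf H < τ + min ε (2 / 5) by
          have : 0 < min ε (2 / 5) := lt_min hε (by norm_num)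
          linarith)
      have hτt : τ ≤ t := csInf_le hbd ht
      refine ⟨t, hsame t ht (by linarith [min_le_right ε (2 / 5 : ℝ)]), ?_⟩
      rw [dist_comm, Real.dist_eq, abs_of_nonneg (by linarith)]
      linarith [min_le_left ε (2 / 5 : ℝ)]
    rwa [hclosed.closure_eq] at this
  have hτpos : 0 < τ := by
    rcases lt_or_eq_of_le hτ0 with h | h
    · exact h
    · exfalso
      rw [← h] at hτc
      simp only [Complex.ofReal_zero, zero_mul, add_zero] at hτc
      rcases hs with hs | hs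
      · have hx0 : x ∈ obs θ p (1, (0, 0)) := by
          change frm θ (1, (0, 0)) x ∈ Q p
          rw [frm_one]; exact hs.1
        have hc0 : c = (1, (0, 0)) := by
          by_contra hne'
          have := copies_dist hθ hp hne' hτc hx0
          simp at this
          linarith
        rw [hc0] at hc1
        change frm θ (1, (0, 0)) (x + (t1 : ℂ) * w) ∈ Q p at hc1
        rw [frm_one] at hc1
        exact out_ray hs ht10 hc1
      · exact hs c hτc
  have hfree : FreeSeg θ p x w τ := by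
    intro s hs0 hsτ c' hc'
    exact absurd (csInf_le hbd ⟨hs0, c', hc'⟩) (not_le.mpr hsτ)
  set v := act c.1 w with hv
  set y := frm θ c (x + (τ : ℂ) * w) with hy
  have hyQ : y ∈ Q p := hτc
  have hout : ∀ r : ℝ, 0 < r → r < τ → y - (r : ℂ) * v ∉ Q p := by
    intro r hr0 hrτ hq
    apply hfree (τ - r) (by linarith) (by linarith) c
    change frm θ c (x + ((τ - r : ℝ) : ℂ) * w) ∈ Q p
    have : frm θ c (x + ((τ - r : ℝ) : ℂ) * w) = y - (r : ℂ) * v := by
      rw [hy, frm_ray, frm_ray, hv]; push_cast; ring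
    rw [this]; exact hq
  obtain ⟨j, hj1, hj2⟩ := arrive_side hyQ (fun j => hw c.1 j) hτpos hout
  by_cases hall : ∀ i, i ≠ j → dot y (nu p i) < p.2 i
  · left
    have hfl : fl θ p (c, j) (x, w) = τ := by
      have h1 : dot y (nu p j) = dot (frm θ c x) (nu p j) + τ * dot v (nu p j) := by
        rw [hy, frm_ray, dot_add_left, dot_mul_left]
      change (p.2 j - dot (frm θ c x) (nu p j)) / dot v (nu p j) = τ
      rw [div_eq_iff (ne_of_lt hj2)]
      linarith
    refine ⟨(c, j), ⟨hj2, ?_, ?_, ?_⟩, ?_⟩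
    · rw [hfl]; exact hτpos
    · rw [hfl]; exact hfree
    · intro i hi
      have : (nx θ p (c, j) (x, w)).1 = y := by
        simp only [nx]; rw [hfl]
      rw [this]; exact hall i hi
    · rw [hfl]; exact hτL
  · right
    push Not at hall
    obtain ⟨i, hij, hi⟩ := hall
    have hi' : dot y (nu p i) = p.2 i := le_antisymm (hyQ i) hi
    have hcase : i = j + 1 ∨ i = j + 2 ∨ i = j + 3 := by
      exact (by decide : ∀ i j : Fin 4, i ≠ j → i = j + 1 ∨ i = j + 2 ∨ i = j + 3) i j hij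
    rcases hcase with h | h | h
    · refine ⟨c, τ, j, hτpos, hτL, hfree, ?_, fun h => ?_⟩
      · change y = vtx p j
        rw [basis_nu p j y, hj1, ← h, hi', h]; rfl
      · exact absurd h.1 (not_lt.mpr hj2.le)
    · exfalso
      rw [h, dot_add_two, hj1] at hi'
      have := hp.2.2.1 j
      linarith
    · have e : j + 3 + 1 = j := (by decide : ∀ j : Fin 4, j + 3 + 1 = j) j
      refine ⟨c, τ, j + 3, hτpos, hτL, hfree, ?_, fun h => ?_⟩
      · change y = vtx p (j + 3)
        rw [h] at hi'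
        rw [basis_nu p (j + 3) y, hi', e, hj1, vtx, e]
      · rw [e] at h
        exact absurd h.2 (not_lt.mpr hj2.le)

end TMX
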