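import Pool.Agent.TMX.A3b
import Pool.Agent.TMX.A4
import Pool.Agent.TMX.Basic
import Pool.Agent.TMX.G1
import Pool.Agent.TMX.G2
import Pool.Agent.TMX.G3
import Pool.Agent.TMX.S1
import Pool.Agent.TMX.S2
import Pool.Agent.TMX.S3

/-! # TMX S10: one-sided limits of the section map at the end points of the components -/

set_option autoImplicit false

open Set Filter Topology

namespace TMX

private theorem S10_crs_nx {θ : ℝ} {p : Par} {a : Lt} {x w : ℂ}
    (h : dot (act a.1.1 w) (nu p a.2) ≠ 0) :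
    crs (nx θ p a (x, w)).2 (nx θ p a (x, w)).1 =
      -sdet a.1.1 * (crs w x - crs w (lat θ a.1.2)) +
        2 * p.2 a.2 * crs (refl p a.2 (act a.1.1 w)) (nu p a.2) := by
  have h1 : dot (nx θ p a (x, w)).1 (nu p a.2) = p.2 a.2 := dot_land (z := (x, w)) h
  have h2 : (nx θ p a (x, w)).2 = refl p a.2 (act a.1.1 w) := rfl
  rw [h2]
  have hX : (nx θ p a (x, w)).1 =
      frm θ a.1 x + ((fl θ p a (x, w) : ℝ) : ℂ) * act a.1.1 w := frm_ray θ a.1 x w _
  have h3 : refl p a.2 (nx θ p a (x, w)).1 =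
      (nx θ p a (x, w)).1 - ((2 * p.2 a.2 : ℝ) : ℂ) * nu p a.2 := by
    unfold refl; rw [h1]
  have h4 := crs_refl p a.2 (act a.1.1 w) (nx θ p a (x, w)).1
  rw [h3, crs_sub_right, crs_mul_right] at h4
  have h5 : crs (act a.1.1 w) (nx θ p a (x, w)).1 =
      sdet a.1.1 * (crs w x - crs w (lat θ a.1.2)) := by
    rw [hX, crs_add_right, crs_mul_right, crs_self]
    unfold frm
    rw [crs_act, crs_sub_right]; ring
  rw [h5] at h4
  linarith

private theorem S10_TT {θ : ℝ} (hθ : |θ - Real.pi / 4| < 1 / 100) {p : Par} (hp : p ∈ Pi0)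
    {a : Lt} {w : ℂ} {o : ℝ} (h : Good θ p a (XX p w o, w)) :
    TT θ p (w, o) = ((nx θ p a (XX p w o, w)).2,
      crs (nx θ p a (XX p w o, w)).2 (nx θ p a (XX p w o, w)).1) := by
  have h1 : ltr θ p (w, o) = a := by
    have hex : ∃ a, Good θ p a (XX p (w, o).1 (w, o).2, (w, o).1) := ⟨a, h⟩
    unfold ltr
    rw [dif_pos hex]
    exact good_unique hθ hp hex.choose_spec h
  unfold TT; rw [h1]

private theorem S10_vtx {p : Par} {s j : Fin 4}
    (h : ∀ i, i ≠ s → dot (vtx p j) (nu p i) < p.2 i) : False := by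
  by_cases hj : j = s
  · have h0 : ∀ j : Fin 4, j + 1 ≠ j := by decide
    have h1 : j + 1 ≠ s := by rw [← hj]; exact h0 j
    have := h _ h1
    rw [dot_vtx_succ] at this
    exact lt_irrefl _ this
  · have := h _ hj
    rw [dot_vtx_self] at this
    exact lt_irrefl _ this

private theorem S10_land {θ : ℝ} (hz : Transcendental ℚ (zz θ)) {p : Par} (hp : p ∈ Pi0)
    {n : ℕ} (g : Gen θ p n) {w : ℂ} (hw : w ∈ DD θ n) {a : Lt} {x : ℂ} (h : Good θ p a (x, w)) :
    ((nx θ p a (x, w)).2, crs (nx θ p a (x, w)).2 (nx θ p a (x, w)).1) ∈ SS θ p n := by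
  obtain ⟨-, -, -, hact, -, -⟩ := DD_ops hz g hw
  have hd : (nx θ p a (x, w)).2 ∈ DD θ n := by
    obtain ⟨-, -, -, -, h2, -⟩ := DD_ops hz g (hact a.1.1)
    exact h2 a.2
  obtain ⟨hn', -, -, -, -, hne'⟩ := DD_ops hz g hd
  obtain ⟨ho, -, -, -⟩ := nx_out hp h
  obtain ⟨i, h0, h1, -, -⟩ := facing hne'
  obtain ⟨-, -, -, -, -, -, -, -, e3, e4, -, -⟩ := exit_pt hp hn' h0 h1
  obtain ⟨u1, u2, u3⟩ := out_unique hp hn' hne' ho
  have hstrict := h.2.2.2
  refine ⟨hd, lt_of_le_of_ne u1 ?_, lt_of_le_of_ne u2 ?_⟩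
  · intro heq
    have heq' : oa p (nx θ p a (x, w)).2 = crs (nx θ p a (x, w)).2 (nx θ p a (x, w)).1 := heq
    rw [← heq', e3] at u3
    rw [← u3] at hstrict
    exact S10_vtx hstrict
  · intro heq
    have heq' : crs (nx θ p a (x, w)).2 (nx θ p a (x, w)).1 = ob p (nx θ p a (x, w)).2 := heq
    rw [heq', e4] at u3
    rw [← u3] at hstrict
    exact S10_vtx hstrict

private theorem S10_cfl (θ : ℝ) (p : Par) (a : Lt) (w : ℂ) :
    Continuous fun x : ℂ => fl θ p a (x, w) := by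
  have h1 : Continuous fun x : ℂ => dot (frm θ a.1 x) (nu p a.2) :=
    continuous_dot.comp ((continuous_frm θ a.1).prodMk continuous_const)
  have h2 : (fun x : ℂ => fl θ p a (x, w)) = fun x : ℂ =>
      (p.2 a.2 - dot (frm θ a.1 x) (nu p a.2)) / dot (act a.1.1 w) (nu p a.2) := rfl
  rw [h2]
  exact (continuous_const.sub h1).div_const _

private theorem S10_cnx (θ : ℝ) (p : Par) (a : Lt) (w : ℂ) :
    Continuous fun x : ℂ => (nx θ p a (x, w)).1 := by
  unfold nx
  exact (continuous_frm θ a.1).comp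
    (continuous_id.add ((Complex.continuous_ofReal.comp (S10_cfl θ p a w)).mul continuous_const))

private theorem S10_open {θ : ℝ} (hθ : |θ - Real.pi / 4| < 1 / 100) {p : Par} (hp : p ∈ Pi0)
    (F : Set Cp) : IsOpen {z : ℂ | ∀ c, c ∉ F → z ∉ obs θ p c} := by
  have h1 : IsClosed (⋃ c : {c : Cp // c ∉ F}, obs θ p c.1) := by
    apply LocallyFinite.isClosed_iUnion
    · intro x
      refine ⟨Metric.ball x (1 / 5), Metric.ball_mem_nhds x (by norm_num), ?_⟩
      apply Set.Subsingleton.finite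
      rintro ⟨c, hc⟩ ⟨y, hy1, hy2⟩ ⟨c', hc'⟩ ⟨y', hy1', hy2'⟩
      by_contra hne
      have hcc : c ≠ c' := fun h => hne (Subtype.ext h)
      have h3 := copies_dist hθ hp hcc hy1 hy1'
      have h4 : dist y x < 1 / 5 := hy2
      have h5 : dist y' x < 1 / 5 := hy2'
      have h6 := dist_triangle_right y y' x
      rw [dist_eq_norm y y'] at h6
      linarith
    · intro c; exact obs_isClosed θ p c.1
  have h2 : {z : ℂ | ∀ c, c ∉ F → z ∉ obs θ p c} =
      (⋃ c : {c : Cp // c ∉ F}, obs θ p c.1)ᶜ := by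
    ext z; simp
  rw [h2]; exact h1.isOpen_compl

/-- The case of a special direction: the flight goes to the same vertex of a translated copy. -/
private theorem S10_vert {θ : ℝ} (hθ : |θ - Real.pi / 4| < 1 / 100) {p : Par} (hp : p ∈ Pi0)
    {w : ℂ} (hn : ‖w‖ = 1) {k s : Fin 4} {σ : ℝ}
    (hks : σ = 1 ∧ s = k ∨ σ = -1 ∧ s = k + 1) (hs : dot w (nu p s) < 0) {m : ℤ × ℤ}
    {t : ℝ} (ht : 0 < t) (hm : (t : ℂ) * w = lat θ m) (hf : FreeSeg θ p (vtx p k) w t)
    (hvk : vtx p k ∈ Q p) :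
    ∀ᶠ x in 𝓝 (vtx p k), Out p x w → 0 < σ * (crs w x - crs w (vtx p k)) →
      Good θ p (((1 : Sg), m), s) (x, w) := by
  have hdv : dot (vtx p k) (nu p s) = p.2 s := by
    rcases hks with ⟨-, rfl⟩ | ⟨-, rfl⟩
    · exact dot_vtx_self p _
    · exact dot_vtx_succ p k
  have hflt : fl θ p (((1 : Sg), m), s) (vtx p k, w) = t := by
    simp only [fl, frm, act_one]
    rw [← hm, dot_sub_left, dot_mul_left, hdv, div_eq_iff hs.ne]
    ring
  have hnx0 : (nx θ p (((1 : Sg), m), s) (vtx p k, w)).1 = vtx p k := by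
    simp only [nx, hflt, frm, act_one]
    rw [← hm]; ring
  -- the compact segment and the other copies
  obtain ⟨δ, hδ, hsub⟩ : ∃ δ, 0 < δ ∧
      Metric.thickening δ ((fun u : ℝ => vtx p k + (u : ℂ) * w) '' Icc 0 t) ⊆
        {z : ℂ | ∀ c, c ∉ ({((1 : Sg), ((0 : ℤ), (0 : ℤ))), ((1 : Sg), m)} : Set Cp) →
          z ∉ obs θ p c} := by
    apply IsCompact.exists_thickening_subset_open
    · apply isCompact_Icc.image
      fun_prop
    · exact S10_open hθ hp _
    · rintro _ ⟨u, ⟨hu0, hu1⟩, rfl⟩ c hc hcc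
      simp only [Set.mem_insert_iff, Set.mem_singleton_iff, not_or] at hc
      have hcc' : vtx p k + (u : ℂ) * w ∈ obs θ p c := hcc
      rcases hu0.eq_or_lt with hu0 | hu0
      · have h1 : vtx p k ∈ obs θ p ((1 : Sg), ((0 : ℤ), (0 : ℤ))) := by
          change frm θ _ (vtx p k) ∈ Q p
          rw [frm_one]; exact hvk
        have h2 := copies_dist hθ hp hc.1 hcc' h1
        rw [← hu0] at h2
        norm_num at h2
      · rcases hu1.eq_or_lt with hu1 | hu1
        · have h1 : vtx p k + (u : ℂ) * w ∈ obs θ p ((1 : Sg), m) := by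
            change frm θ _ _ ∈ Q p
            rw [hu1, hm]
            simp only [frm, act_one, add_sub_cancel_right]
            exact hvk
          have h2 := copies_dist hθ hp hc.2 hcc' h1
          norm_num at h2
        · exact hf u hu0 hu1 c hcc'
  -- neighbourhood of the vertex
  have c1 : ∀ᶠ x in 𝓝 (vtx p k), ‖x - vtx p k‖ < δ / 2 := by
    have := Metric.ball_mem_nhds (vtx p k) (half_pos hδ)
    filter_upwards [this] with x hx
    rw [Metric.mem_ball, dist_eq_norm] at hx; exact hx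
  have c2 : ∀ᶠ x in 𝓝 (vtx p k), fl θ p (((1 : Sg), m), s) (x, w) < t + δ / 2 := by
    apply (S10_cfl θ p (((1 : Sg), m), s) w).continuousAt.eventually_lt continuousAt_const
    simp only [hflt]; linarith
  have c3 : ∀ᶠ x in 𝓝 (vtx p k), 0 < fl θ p (((1 : Sg), m), s) (x, w) := by
    apply continuousAt_const.eventually_lt (S10_cfl θ p (((1 : Sg), m), s) w).continuousAt
    simp only [hflt]; exact ht
  have cdot : ∀ j, Continuous fun x : ℂ =>
      dot (nx θ p (((1 : Sg), m), s) (x, w)).1 (nu p j) := fun j =>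
    continuous_dot.comp ((S10_cnx θ p _ w).prodMk continuous_const)
  have c4 : ∀ᶠ x in 𝓝 (vtx p k),
      dot (nx θ p (((1 : Sg), m), s) (x, w)).1 (nu p (k + 2)) < p.2 (k + 2) := by
    apply (cdot _).continuousAt.eventually_lt continuousAt_const
    simp only [hnx0, dot_vtx_two]
    have := hp.2.2.1 k; linarith
  have c5 : ∀ᶠ x in 𝓝 (vtx p k),
      dot (nx θ p (((1 : Sg), m), s) (x, w)).1 (nu p (k + 3)) < p.2 (k + 3) := by
    apply (cdot _).continuousAt.eventually_lt continuousAt_const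
    simp only [hnx0, dot_vtx_three]
    have h1 := hp.2.2.1 (k + 1)
    have e : k + 1 + 2 = k + 3 := by rw [add_assoc]; rfl
    rw [e] at h1; linarith
  filter_upwards [c1, c2, c3, c4, c5] with x c1 c2 c3 c4 c5 hout hρ
  have hland : dot (nx θ p (((1 : Sg), m), s) (x, w)).1 (nu p s) = p.2 s := by
    apply dot_land
    simp only [act_one]; exact hs.ne
  have hcrs : crs w (nx θ p (((1 : Sg), m), s) (x, w)).1 = crs w x := by
    simp only [nx, frm, act_one]
    rw [← hm, crs_sub_right, crs_add_right, crs_mul_right, crs_mul_right, crs_self]; ring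
  have hfl : fl θ p (((1 : Sg), m), s) (x, w) * dot w (nu p s) =
      p.2 s - dot (x - (t : ℂ) * w) (nu p s) := by
    simp only [fl, frm, act_one, hm]
    rw [div_mul_cancel₀ _ hs.ne]
  refine ⟨?_, c3, ?_, ?_⟩
  · simp only [act_one]; exact hs
  · intro u hu0 hu1 c hc
    have hc' : x + (u : ℂ) * w ∈ obs θ p c := hc
    by_cases e1 : c = ((1 : Sg), ((0 : ℤ), (0 : ℤ)))
    · rw [e1] at hc'
      have h1 : frm θ ((1 : Sg), ((0 : ℤ), (0 : ℤ))) (x + (u : ℂ) * w) ∈ Q p := hc'
      rw [frm_one] at h1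
      exact out_ray hout hu0 h1
    · by_cases e2 : c = ((1 : Sg), m)
      · rw [e2] at hc'
        have h1 : frm θ ((1 : Sg), m) (x + (u : ℂ) * w) ∈ Q p := hc'
        have h2 := h1 s
        simp only [frm, act_one] at h2
        rw [← hm, add_sub_right_comm, dot_add_left, dot_mul_left] at h2
        have h3 : (fl θ p (((1 : Sg), m), s) (x, w) - u) * dot w (nu p s) < 0 :=
          mul_neg_of_pos_of_neg (sub_pos.mpr hu1) hs
        rw [sub_mul, hfl] at h3
        linarith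
      · have hmem : x + (u : ℂ) * w ∈
            Metric.thickening δ ((fun u : ℝ => vtx p k + (u : ℂ) * w) '' Icc 0 t) := by
          rw [Metric.mem_thickening_iff]
          refine ⟨_, ⟨min u t, ⟨le_min hu0.le ht.le, min_le_right _ _⟩, rfl⟩, ?_⟩
          rw [dist_eq_norm]
          have e3 : x + (u : ℂ) * w - (vtx p k + ((min u t : ℝ) : ℂ) * w) =
              (x - vtx p k) + ((u - min u t : ℝ) : ℂ) * w := by push_cast; ring
          rw [e3]
          have h4 := norm_add_le (x - vtx p k) (((u - min u t : ℝ) : ℂ) * w)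
          rw [norm_mul, hn, Complex.norm_real, Real.norm_eq_abs] at h4
          have h5 : |u - min u t| < δ / 2 := by
            rw [abs_of_nonneg (sub_nonneg.mpr (min_le_left _ _))]
            rcases min_cases u t with ⟨h, -⟩ | ⟨h, -⟩
            · rw [h]; linarith
            · rw [h]; linarith
          linarith
        refine hsub hmem c ?_ hc'
        simp only [Set.mem_insert_iff, Set.mem_singleton_iff, not_or]
        exact ⟨e1, e2⟩
  · -- the landing point is in the open side `s`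
    have hb := basis_nu p k ((nx θ p (((1 : Sg), m), s) (x, w)).1 - vtx p k)
    have hc1 : crs w ((nx θ p (((1 : Sg), m), s) (x, w)).1 - vtx p k) =
        crs w x - crs w (vtx p k) := by rw [crs_sub_right, hcrs]
    rw [hb, crs_add_right, crs_mul_right, crs_mul_right, dot_sub_left, dot_sub_left,
      dot_vtx_self, dot_vtx_succ, crs_nu_succ] at hc1
    have hcd : crs w (nu p k) = -dot w (nu p (k + 1)) := by rw [dot_succ]; ring
    intro j hj
    have hjc : j = k ∨ j = k + 1 ∨ j = k + 2 ∨ j = k + 3 := by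
      clear * -
      revert j k; decide
    have hjs : j ≠ s := hj
    rcases hks with ⟨hσ, hsk⟩ | ⟨hσ, hsk⟩
    · rw [hσ, one_mul] at hρ
      rcases hjc with rfl | rfl | rfl | rfl
      · exact absurd hsk.symm hjs
      · rw [← hsk] at hc1 hρ ⊢
        rw [hland] at hc1
        nlinarith
      · exact c4
      · exact c5
    · rw [hσ] at hρ
      rcases hjc with rfl | rfl | rfl | rfl
      · rw [hcd, ← hsk, hland] at hc1
        nlinarith
      · exact absurd hsk.symm hjs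
      · exact c4
      · exact c5

theorem endpt {θ : ℝ} (hθ : |θ - Real.pi / 4| < 1 / 100) (hz : Transcendental ℚ (zz θ))
    {p : Par} (hp : p ∈ Pi0) {n : ℕ} (g : Gen θ p n) {w : ℂ} (hw : w ∈ DD θ n) (σ : ℝ) (o : ℝ)
    (hσ : σ = 1 ∧ o = oa p w ∨ σ = -1 ∧ o = ob p w) :
    ∃ y ∈ SS θ p n, ∃ e : ℝ, (e = 1 ∨ e = -1) ∧ ∀ᶠ t in 𝓝[>] (0 : ℝ),
      (w, o + σ * t) ∈ SS θ p n \ SA θ p n ∧ TT θ p (w, o + σ * t) = (y.1, y.2 + e * t) := by
  obtain ⟨hn, -, -, hact, hrefl, hne⟩ := DD_ops hz g hw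
  have hnea : ∀ d j, dot (act d w) (nu p j) ≠ 0 := fun d =>
    (DD_ops hz g (hact d)).2.2.2.2.2
  obtain ⟨i, h0, h1, h2, h3⟩ := facing hne
  obtain ⟨ea, eb, l1, l2, hX, -, -, -, Xa, Xb, hcX, -⟩ := exit_pt hp hn h0 h1
  obtain ⟨L, hL⟩ := bounded hθ hz hp g
  have hab : oa p w < ob p w := l1.trans l2
  have ht0 : Tendsto (fun t : ℝ => o + σ * t) (𝓝[>] (0 : ℝ)) (𝓝 o) := by
    have hc : Continuous fun t : ℝ => o + σ * t := by fun_prop
    have := hc.tendsto 0
    simp only [mul_zero, add_zero] at this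
    exact this.mono_left nhdsWithin_le_nhds
  have hpos : ∀ᶠ t in 𝓝[>] (0 : ℝ), 0 < t := self_mem_nhdsWithin
  obtain ⟨k, s, hks, hs, hXo, ho1, ho2, hIoo, hp1⟩ : ∃ k s : Fin 4,
      (σ = 1 ∧ s = k ∨ σ = -1 ∧ s = k + 1) ∧ dot w (nu p s) < 0 ∧ XX p w o = vtx p k ∧
      oa p w ≤ o ∧ o ≤ ob p w ∧
      (∀ᶠ t in 𝓝[>] (0 : ℝ), oa p w < o + σ * t ∧ o + σ * t < ob p w) ∧
      (s = k ∧ 0 < dot w (nu p (k + 1)) ∨ s = k + 1 ∧ 0 < dot w (nu p k)) := by
    rcases hσ with ⟨hσ, ho⟩ | ⟨hσ, ho⟩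
    · refine ⟨i + 3, i + 3, Or.inl ⟨hσ, rfl⟩, h3, ?_, ?_, ?_, ?_, ?_⟩
      · rw [ho, Xa]
      · rw [ho]
      · rw [ho]; exact hab.le
      · have := ht0.eventually_lt_const (u := ob p w) (by rw [ho]; exact hab)
        filter_upwards [this, hpos] with t ht htp
        refine ⟨?_, ht⟩
        rw [ho, hσ]; linarith
      · have e : i + 3 + 1 = i := by rw [add_assoc]; exact add_zero i
        rw [e]; exact Or.inl ⟨rfl, h0⟩
    · have e : i + 1 + 1 = i + 2 := by rw [add_assoc]; rfl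
      refine ⟨i + 1, i + 2, Or.inr ⟨hσ, e.symm⟩, h2, ?_, ?_, ?_, ?_, ?_⟩
      · rw [ho, Xb]
      · rw [ho]; exact hab.le
      · rw [ho]
      · have := ht0.eventually_const_lt (u := oa p w) (by rw [ho]; exact hab)
        filter_upwards [this, hpos] with t ht htp
        refine ⟨ht, ?_⟩
        rw [ho, hσ]; linarith
      · exact Or.inr ⟨e.symm, h1⟩
  have hout : Out p (vtx p k) w := by
    have := (hX o ho1 ho2).2.2.2.1
    rw [hXo] at this; exact this
  have hco : crs w (vtx p k) = o := by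
    have := (hX o ho1 ho2).2.1
    rw [hXo] at this; exact this
  have hXt : Tendsto (fun t : ℝ => XX p w (o + σ * t)) (𝓝[>] (0 : ℝ)) (𝓝 (vtx p k)) := by
    have h4 : Tendsto (fun t : ℝ => o + σ * t) (𝓝[>] (0 : ℝ)) (𝓝[Icc (oa p w) (ob p w)] o) := by
      rw [tendsto_nhdsWithin_iff]
      refine ⟨ht0, ?_⟩
      filter_upwards [hIoo] with t ht
      exact ⟨ht.1.le, ht.2.le⟩
    have h5 := (hcX o ⟨ho1, ho2⟩).tendsto.comp h4
    rw [hXo] at h5
    exact h5
  have hσc : σ = 1 ∨ σ = -1 := by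
    rcases hks with h | h
    · exact Or.inl h.1
    · exact Or.inr h.1
  -- it suffices to find the letter
  suffices hsuf : ∃ a : Lt, (∀ᶠ t in 𝓝[>] (0 : ℝ), Good θ p a (XX p w (o + σ * t), w)) ∧
      ((nx θ p a (vtx p k, w)).2,
        crs (nx θ p a (vtx p k, w)).2 (nx θ p a (vtx p k, w)).1) ∈ SS θ p n by
    obtain ⟨a, hga, hya⟩ := hsuf
    refine ⟨_, hya, -sdet a.1.1 * σ, ?_, ?_⟩
    · rcases sdet_cases a.1.1 with h | h <;> rcases hσc with h' | h' <;> rw [h, h'] <;> norm_num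
    · filter_upwards [hga, hIoo] with t hg hI
      have hne0 := hnea a.1.1 a.2
      refine ⟨⟨⟨hw, hI.1, hI.2⟩, fun hA => hA.2 a hg⟩, ?_⟩
      rw [S10_TT hθ hp hg]
      refine Prod.ext rfl ?_
      change crs (nx θ p a (XX p w (o + σ * t), w)).2 (nx θ p a (XX p w (o + σ * t), w)).1 =
        crs (nx θ p a (vtx p k, w)).2 (nx θ p a (vtx p k, w)).1 + -sdet a.1.1 * σ * t
      rw [S10_crs_nx hne0, S10_crs_nx hne0, (hX _ hI.1.le hI.2.le).2.1, hco]
      ring
  have hft := first_touch hθ hp (x := vtx p k) hn hnea (Or.inl hout) (L := L) (by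
    obtain ⟨t, t1, t2, c, hc⟩ := hL w hw (vtx p k) (Or.inl hout)
    exact ⟨t, by linarith, t2, c, hc⟩)
  rcases hft with ⟨a, ha, -⟩ | ⟨c, t, j, ht, -, hfree, hend, harr⟩
  · refine ⟨a, ?_, S10_land hz hp g hw ha⟩
    have hop := (good_open hθ hp (z := (vtx p k, w)) (Or.inl hout) ha).1
    have hT : Tendsto (fun t : ℝ => ((p, (XX p w (o + σ * t), w)) : Par × (ℂ × ℂ)))
        (𝓝[>] (0 : ℝ)) (𝓝 (p, (vtx p k, w))) :=
      tendsto_const_nhds.prodMk_nhds (hXt.prodMk_nhds tendsto_const_nhds)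
    filter_upwards [hT.eventually hop, hIoo] with t ht hI
    exact ht (Or.inl (hX _ hI.1.le hI.2.le).2.2.2.1)
  · have hns := nosc hθ hz hp g hw (i := k) (l := []) (c := c) (t := t) (j := j) (by
      rintro ⟨q1, q2⟩
      rcases hp1 with ⟨-, h⟩ | ⟨-, h⟩
      · exact lt_asymm q2 h
      · exact lt_asymm q1 h) trivial ht hend harr
    obtain ⟨-, hc1, hjk, -, hlat⟩ := hns
    refine ⟨((1, c.2), s), ?_, ?_⟩
    · have hv := S10_vert hθ hp hn hks hs ht hlat hfree hout.1
      filter_upwards [hXt.eventually hv, hIoo, hpos] with r hr hI hr0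
      obtain ⟨-, q1, -, q2, -⟩ := hX _ hI.1.le hI.2.le
      apply hr q2
      rw [q1, hco]
      rcases hσc with h | h
      · rw [h]; linarith
      · rw [h]; linarith
    · have hne0 : dot w (nu p s) ≠ 0 := hs.ne
      have hflt : fl θ p (((1 : Sg), c.2), s) (vtx p k, w) = t := by
        have hdv : dot (vtx p k) (nu p s) = p.2 s := by
          rcases hp1 with ⟨h, -⟩ | ⟨h, -⟩
          · rw [h]; exact dot_vtx_self p _
          · rw [h]; exact dot_vtx_succ p k
        simp only [fl, frm, act_one]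
        rw [← hlat, dot_sub_left, dot_mul_left, hdv, div_eq_iff hs.ne]
        ring
      have hnx1 : (nx θ p (((1 : Sg), c.2), s) (vtx p k, w)).1 = vtx p k := by
        simp only [nx, hflt, frm, act_one]
        rw [← hlat]; ring
      have hnx2 : (nx θ p (((1 : Sg), c.2), s) (vtx p k, w)).2 = refl p s w := by
        simp only [nx, act_one]
      rw [hnx1, hnx2]
      have hd : refl p s w ∈ DD θ n := hrefl s
      have hn' : ‖refl p s w‖ = 1 := by rw [norm_refl]; exact hn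
      have hfa : 0 < dot (refl p s w) (nu p k) ∧ 0 < dot (refl p s w) (nu p (k + 1)) := by
        rcases hp1 with ⟨h, h'⟩ | ⟨h, h'⟩
        · rw [h] at hs ⊢
          rw [dot_refl_nu, dot_refl_succ]
          exact ⟨by linarith, h'⟩
        · rw [h] at hs ⊢
          rw [dot_refl_nu, dot_refl_succ']
          exact ⟨h', by linarith⟩
      obtain ⟨-, -, q1, q2, -⟩ := exit_pt hp hn' hfa.1 hfa.2
      exact ⟨hd, q1, q2⟩

end TMX
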