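import Pool.Agent.TMX.A4
import Pool.Agent.TMX.Basic
import Pool.Agent.TMX.G2
import Pool.Agent.TMX.G3
import Pool.Agent.TMX.S1

/-! # TMX, connectivity: common lemmas for S11a, S11b, S11c -/

set_option autoImplicit false

open Set Filter Topology

namespace TMX

theorem fin_add_three_one (i : Fin 4) : i + 3 + 1 = i := by
  rw [add_assoc]; exact add_zero i

theorem fin_four_cases (i j : Fin 4) : j = i ∨ j = i + 1 ∨ j = i + 2 ∨ j = i + 3 := by
  revert i j; decide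

theorem vtx_mem {p : Par} (hp : p ∈ Pi0) (i : Fin 4) : vtx p i ∈ Q p := by
  intro j
  have hpos := hp.2.2.1
  rcases fin_four_cases i j with rfl | rfl | rfl | rfl
  · rw [dot_vtx_self]
  · rw [dot_vtx_succ]
  · rw [dot_vtx_two]; linarith [hpos i]
  · rw [dot_vtx_three]
    have h := hpos (i + 1)
    have e : i + 1 + 2 = i + 3 := by rw [add_assoc]; rfl
    rw [e] at h; linarith

/-- an interior point of the side `s` -/
noncomputable def midp (p : Par) (s : Fin 4) : ℂ :=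
  (p.2 s : ℂ) * nu p s + (((p.2 (s + 1) - p.2 (s + 3)) / 2 : ℝ) : ℂ) * nu p (s + 1)

theorem midp_self (p : Par) (s : Fin 4) : dot (midp p s) (nu p s) = p.2 s := by
  unfold midp; rw [dot_add_left, dot_mul_left, dot_mul_left, dot_nu_self, dot_nu_succ']; ring

theorem midp_succ (p : Par) (s : Fin 4) :
    dot (midp p s) (nu p (s + 1)) = (p.2 (s + 1) - p.2 (s + 3)) / 2 := by
  unfold midp; rw [dot_add_left, dot_mul_left, dot_mul_left, dot_nu_self, dot_nu_succ]; ring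

theorem midp_lt {p : Par} (hp : p ∈ Pi0) (s j : Fin 4) (hj : j ≠ s) :
    dot (midp p s) (nu p j) < p.2 j := by
  have hpos := hp.2.2.1
  have e : s + 1 + 2 = s + 3 := by rw [add_assoc]; rfl
  have h1 := hpos (s + 1)
  rw [e] at h1
  rcases fin_four_cases s j with rfl | rfl | rfl | rfl
  · exact absurd rfl hj
  · rw [midp_succ]; linarith
  · rw [dot_add_two, midp_self]; linarith [hpos s]
  · rw [← e, dot_add_two, midp_succ, e]; linarith

/-- point of the side `s` between `x` and the middle -/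
noncomputable def shp (p : Par) (s : Fin 4) (x : ℂ) (t : ℝ) : ℂ := x + (t : ℂ) * (midp p s - x)

theorem shp_self {p : Par} {s : Fin 4} {x : ℂ} (hx : dot x (nu p s) = p.2 s) (t : ℝ) :
    dot (shp p s x t) (nu p s) = p.2 s := by
  unfold shp; rw [dot_add_left, dot_mul_left, dot_sub_left, midp_self, hx]; ring

theorem shp_lt {p : Par} (hp : p ∈ Pi0) {s : Fin 4} {x : ℂ} (hxQ : x ∈ Q p) {t : ℝ} (h0 : 0 < t)
    (h1 : t ≤ 1) {j : Fin 4} (hj : j ≠ s) : dot (shp p s x t) (nu p j) < p.2 j := by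
  unfold shp
  rw [dot_add_left, dot_mul_left, dot_sub_left]
  have e1 := hxQ j
  have e2 := midp_lt hp s j hj
  nlinarith [mul_nonneg (sub_nonneg.mpr h1) (sub_nonneg.mpr e1), mul_pos h0 (sub_pos.mpr e2)]

theorem shp_mem {p : Par} (hp : p ∈ Pi0) {s : Fin 4} {x : ℂ} (hxQ : x ∈ Q p)
    (hx : dot x (nu p s) = p.2 s) {t : ℝ} (h0 : 0 < t)
    (h1 : t ≤ 1) : shp p s x t ∈ Q p := by
  intro j
  by_cases hj : j = s
  · rw [hj, shp_self hx]
  · exact (shp_lt hp hxQ h0 h1 hj).le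

section
variable {θ : ℝ} (hθ : |θ - Real.pi / 4| < 1 / 100) (hz : Transcendental ℚ (zz θ))
    {p : Par} (hp : p ∈ Pi0) {n : ℕ} (g : Gen θ p n) (D : Set ℂ)
    (hD : ∀ x ∈ SS θ p n \ SA θ p n, x.1 ∈ D ↔ (TT θ p x).1 ∈ D)

include hθ hz hp g hD

theorem cn_step0 {x w : ℂ} (hw : w ∈ DD θ n) (hx : Out p x w) (h1 : oa p w < crs w x)
    (h2 : crs w x < ob p w) {a : Lt} (ha : Good θ p a (x, w)) :
    w ∈ D ↔ refl p a.2 (act a.1.1 w) ∈ D := by
  obtain ⟨hn, _, _, _, _, hj⟩ := DD_ops hz g hw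
  have hX : XX p w (crs w x) = x := (out_unique hp hn hj hx).2.2
  have ha' : Good θ p a (XX p w (crs w x), w) := by rw [hX]; exact ha
  have hS : (w, crs w x) ∈ SS θ p n := ⟨hw, h1, h2⟩
  have hA : (w, crs w x) ∉ SA θ p n := fun h => h.2 a ha'
  have hex : ∃ a, Good θ p a (XX p (w, crs w x).1 (w, crs w x).2, (w, crs w x).1) := ⟨a, ha'⟩
  have hl : ltr θ p (w, crs w x) = a := by
    unfold ltr
    rw [dif_pos hex]
    exact good_unique hθ hp hex.choose_spec ha'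
  have h := hD _ ⟨hS, hA⟩
  have e : (TT θ p (w, crs w x)).1 = refl p a.2 (act a.1.1 w) := by
    unfold TT
    rw [hl]
    rfl
  rw [e] at h
  exact h

theorem cn_step {x w : ℂ} (hw : w ∈ DD θ n) (hx : Out p x w) {a : Lt} (ha : Good θ p a (x, w)) :
    w ∈ D ↔ refl p a.2 (act a.1.1 w) ∈ D := by
  obtain ⟨hn, _, _, _, _, hj⟩ := DD_ops hz g hw
  obtain ⟨h1, h2, hX⟩ := out_unique hp hn hj hx
  obtain ⟨i, f0, f1, f2, f3⟩ := facing hj
  obtain ⟨_, _, g1, g2, g3, _, _, _, _, _, gc, _⟩ := exit_pt hp hn f0 f1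
  have hlt : oa p w < ob p w := g1.trans g2
  have hgo := (good_open hθ hp (Or.inl hx) ha).1
  have hcont : Tendsto (fun o : ℝ => (p, (XX p w o, w)))
      (𝓝[Ioo (oa p w) (ob p w)] (crs w x)) (𝓝 (p, (x, w))) := by
    have c1 : Tendsto (fun o : ℝ => XX p w o) (𝓝[Ioo (oa p w) (ob p w)] (crs w x)) (𝓝 x) := by
      have := (gc (crs w x) ⟨h1, h2⟩).tendsto
      rw [hX] at this
      exact this.mono_left (nhdsWithin_mono _ Ioo_subset_Icc_self)
    exact tendsto_const_nhds.prodMk_nhds (c1.prodMk_nhds tendsto_const_nhds)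
  have hev := hcont.eventually hgo
  have hne : (𝓝[Ioo (oa p w) (ob p w)] (crs w x)).NeBot := by
    rw [← mem_closure_iff_nhdsWithin_neBot, closure_Ioo hlt.ne]
    exact ⟨h1, h2⟩
  obtain ⟨o, ho, hoI⟩ := (hev.and self_mem_nhdsWithin).exists
  obtain ⟨k1, k2, k3, k4, _, _⟩ := g3 o hoI.1.le hoI.2.le
  have hg := ho (Or.inl k4)
  have := cn_step0 hθ hz hp g D hD hw k4 (by rw [k2]; exact hoI.1) (by rw [k2]; exact hoI.2) hg
  exact this

theorem cn_rev {x v : ℂ} {s0 : Fin 4} (hv : v ∈ DD θ n) (hxQ : x ∈ Q p)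
    (hx : dot x (nu p s0) = p.2 s0) (hvs : 0 < dot v (nu p s0)) {a : Lt}
    (ha : Good θ p a (x, v)) : -(act a.1.1 v) ∈ D ↔ -(refl p s0 v) ∈ D := by
  have hout : Out p x v := ⟨hxQ, s0, hx, hvs⟩
  have hgo := (good_open hθ hp (Or.inl hout) ha).1
  have hcont : Tendsto (fun t : ℝ => (p, (shp p s0 x t, v))) (𝓝[>] (0 : ℝ)) (𝓝 (p, (x, v))) := by
    have c1 : Tendsto (fun t : ℝ => shp p s0 x t) (𝓝[>] (0 : ℝ)) (𝓝 x) := by
      have : Continuous fun t : ℝ => shp p s0 x t := by unfold shp; fun_prop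
      have h2 := this.tendsto 0
      have e : shp p s0 x 0 = x := by unfold shp; simp
      rw [e] at h2
      exact h2.mono_left nhdsWithin_le_nhds
    exact tendsto_const_nhds.prodMk_nhds (c1.prodMk_nhds tendsto_const_nhds)
  have hev := hcont.eventually hgo
  have h01 : ∀ᶠ t : ℝ in 𝓝[>] (0 : ℝ), t ∈ Ioc (0 : ℝ) 1 := Ioc_mem_nhdsGT one_pos
  obtain ⟨t, ht, ht0, ht1⟩ := (hev.and h01).exists
  have hQ := shp_mem hp hxQ hx ht0 ht1
  have hout' : Out p (shp p s0 x t) v := ⟨hQ, s0, shp_self hx t, hvs⟩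
  have hg : Good θ p a (shp p s0 x t, v) := ht (Or.inl hout')
  obtain ⟨r1, r2, r3⟩ := rev_leg (θ := θ) (p := p) (shp_self hx t)
    (fun j hj => shp_lt hp hxQ ht0 ht1 hj) hvs a.1 hg.2.1 hg.2.2.1
  obtain ⟨o1, o2, o3, o4⟩ := nx_out hp hg
  have hout2 : Out p (frm θ a.1 (shp p s0 x t + (fl θ p a (shp p s0 x t, v) : ℂ) * v))
      (-act a.1.1 v) := by
    refine ⟨o1.1, a.2, o2, ?_⟩
    rw [dot_neg_left]
    have := hg.1
    simp only at this
    linarith
  obtain ⟨_, _, _, dact, _, _⟩ := DD_ops hz g hv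
  obtain ⟨_, dneg, _, _, _, _⟩ := DD_ops hz g (dact a.1.1)
  have := cn_step hθ hz hp g D hD dneg hout2 r1
  rw [this]
  have e : refl p (inv a.1, s0).2 (act (inv a.1, s0).1.1 (-act a.1.1 v)) = -refl p s0 v := by
    change refl p s0 (act (inv a.1).1 (-act a.1.1 v)) = _
    rw [inv_fst, act_neg, act_self, refl_neg]
  rw [e]

end

end TMX
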