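import Pool.Agent.TMX.A3b
import Pool.Agent.TMX.A4
import Pool.Agent.TMX.S1
import Pool.Agent.TMX.S11
import Pool.Agent.TMX.S2
import Pool.Agent.TMX.S3

/-! # TMX S11a: `w` and `-w` are in the same class -/

set_option autoImplicit false

open Set Filter Topology

namespace TMX

/-- A ray from an outgoing state in a direction of `DD` that does not run into a vertex. -/
theorem cn_touch {θ : ℝ} (hθ : |θ - Real.pi / 4| < 1 / 100) (hz : Transcendental ℚ (zz θ))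
    {p : Par} (hp : p ∈ Pi0) {n : ℕ} (g : Gen θ p n) {w x : ℂ} (hw : w ∈ DD θ n)
    (hx : Out p x w) : (∃ a, Good θ p a (x, w)) ∨
    ∃ (c : Cp) (t : ℝ) (j : Fin 4), 0 < t ∧ FreeSeg θ p x w t ∧
      frm θ c (x + t * w) = vtx p j ∧
      ¬ (0 < dot (act c.1 w) (nu p j) ∧ 0 < dot (act c.1 w) (nu p (j + 1))) := by
  obtain ⟨hn, _, _, hd, _, _⟩ := DD_ops hz g hw
  obtain ⟨L, hL⟩ := bounded hθ hz hp g
  obtain ⟨t, t1, t2, c, hc⟩ := hL w hw x (Or.inl hx)
  rcases first_touch hθ hp hn (fun d j => (DD_ops hz g (hd d)).2.2.2.2.2 j)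
    (Or.inl hx) ⟨t, by linarith, t2, c, hc⟩ with ⟨a, ha, _⟩ | ⟨c, t, j, h1, _, h3, h4, h5⟩
  · exact Or.inl ⟨a, ha⟩
  · exact Or.inr ⟨c, t, j, h1, h3, h4, h5⟩

theorem conn_neg {θ : ℝ} (hθ : |θ - Real.pi / 4| < 1 / 100) (hz : Transcendental ℚ (zz θ))
    {p : Par} (hp : p ∈ Pi0) {n : ℕ} (g : Gen θ p n) (D : Set ℂ)
    (hD : ∀ x ∈ SS θ p n \ SA θ p n, x.1 ∈ D ↔ (TT θ p x).1 ∈ D) {w : ℂ} (hw : w ∈ DD θ n) :
    w ∈ D ↔ -w ∈ D := by
  obtain ⟨hn, _, _, _, hr, hj⟩ := DD_ops hz g hw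
  obtain ⟨i, f0, f1, f2, f3⟩ := facing hj
  have hv : -refl p i w ∈ DD θ n := (DD_ops hz g (hr i)).2.1
  have e31 : i + 3 + 1 = i := fin_add_three_one i
  have d0 : 0 < dot (-refl p i w) (nu p i) := by
    rw [dot_neg_left, dot_refl_nu]; linarith
  have d3 : 0 < dot (-refl p i w) (nu p (i + 3)) := by
    have e : i + 3 = i + 1 + 2 := by rw [add_assoc]; rfl
    rw [dot_neg_left, e, dot_add_two, dot_refl_succ]; linarith
  have q0 : dot (vtx p (i + 3)) (nu p i) = p.2 i := by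
    have := dot_vtx_succ p (i + 3)
    rw [e31] at this; exact this
  have q3 : dot (vtx p (i + 3)) (nu p (i + 3)) = p.2 (i + 3) := dot_vtx_self p _
  have hq := vtx_mem hp (i + 3)
  have hout : Out p (vtx p (i + 3)) (-refl p i w) := ⟨hq, i, q0, d0⟩
  rcases cn_touch hθ hz hp g hv hout with ⟨a, ha⟩ | ⟨c, t, j, h1, _, h3, h4⟩
  · have r0 := cn_rev hθ hz hp g D hD hv hq q0 d0 ha
    have r3 := cn_rev hθ hz hp g D hD hv hq q3 d3 ha
    have e0 : -refl p i (-refl p i w) = w := by rw [refl_neg, refl_refl, neg_neg]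
    have e3 : -refl p (i + 3) (-refl p i w) = -w := by
      have := refl_succ p (i + 3) (-refl p i w)
      rw [e31] at this
      rw [← this, refl_neg, refl_refl]
    rw [e0] at r0
    rw [e3] at r3
    exact r0.symm.trans r3
  · exfalso
    have hst : ¬ (dot (-refl p i w) (nu p (i + 3)) < 0 ∧
        dot (-refl p i w) (nu p (i + 3 + 1)) < 0) := fun h => by linarith [h.1]
    have hN := nosc hθ hz hp g hv hst (l := []) trivial (c := c) (t := t) h1 (j := j) h3 h4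
    obtain ⟨_, c1, hji, _, _⟩ := hN
    apply h4
    rw [c1, act_one, hji, e31]
    exact ⟨d3, d0⟩

end TMX
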