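import Pool.Agent.TMX.A3b
import Pool.Agent.TMX.A4
import Pool.Agent.TMX.G1
import Pool.Agent.TMX.G2
import Pool.Agent.TMX.G3
import Pool.Agent.TMX.S1
import Pool.Agent.TMX.S11a

/-! # TMX S11b: `w` and `refl p j w` are in the same class -/

set_option autoImplicit false

open Set Filter Topology

namespace TMX

theorem fl_shift {θ : ℝ} {p : Par} {a : Lt} {x w : ℂ} (h : dot (act a.1.1 w) (nu p a.2) ≠ 0)
    (s : ℝ) : fl θ p a (x + (s : ℂ) * w, w) = fl θ p a (x, w) - s := by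
  simp only [fl, frm_ray, dot_add_left, dot_mul_left]
  field_simp; ring

theorem nx_shift {θ : ℝ} {p : Par} {a : Lt} {x w : ℂ} (h : dot (act a.1.1 w) (nu p a.2) ≠ 0)
    (s : ℝ) : nx θ p a (x + (s : ℂ) * w, w) = nx θ p a (x, w) := by
  simp only [nx, fl_shift h]
  have : x + (s : ℂ) * w + ((fl θ p a (x, w) - s : ℝ) : ℂ) * w =
      x + (fl θ p a (x, w) : ℂ) * w := by
    push_cast; ring
  rw [this]

/-- start later on the ray -/
theorem good_shift {θ : ℝ} {p : Par} {a : Lt} {x w : ℂ} (h : Good θ p a (x, w)) {s : ℝ}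
    (h0 : 0 ≤ s) (h1 : s < fl θ p a (x, w)) : Good θ p a (x + (s : ℂ) * w, w) := by
  obtain ⟨g1, g2, g3, g4⟩ := h
  have g1' : dot (act a.1.1 w) (nu p a.2) < 0 := g1
  refine ⟨g1, ?_, ?_, ?_⟩
  · rw [fl_shift g1'.ne]; linarith
  · rw [fl_shift g1'.ne]
    intro r r0 r1 c
    have e : x + (s : ℂ) * w + (r : ℂ) * w = x + ((s + r : ℝ) : ℂ) * w := by push_cast; ring
    change x + (s : ℂ) * w + (r : ℂ) * w ∉ obs θ p c
    rw [e]
    exact g3 (s + r) (by linarith) (by linarith) c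
  · intro j hj
    rw [nx_shift g1'.ne]
    exact g4 j hj

/-- start earlier on the ray -/
theorem good_unshift {θ : ℝ} {p : Par} {a : Lt} {x w : ℂ} {s : ℝ} (h0 : 0 ≤ s)
    (h : Good θ p a (x + (s : ℂ) * w, w))
    (hf : ∀ r : ℝ, 0 < r → r ≤ s → ∀ c, x + (r : ℂ) * w ∉ obs θ p c) : Good θ p a (x, w) := by
  obtain ⟨g1, g2, g3, g4⟩ := h
  have g1' : dot (act a.1.1 w) (nu p a.2) < 0 := g1
  rw [fl_shift g1'.ne] at g2 g3
  refine ⟨g1, by linarith, ?_, ?_⟩
  · intro r r0 r1 c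
    rcases le_or_gt r s with hr | hr
    · exact hf r r0 hr c
    · have := g3 (r - s) (by linarith) (by linarith) c
      have e : x + (s : ℂ) * w + ((r - s : ℝ) : ℂ) * w = x + (r : ℂ) * w := by push_cast; ring
      change x + (s : ℂ) * w + ((r - s : ℝ) : ℂ) * w ∉ obs θ p c at this
      rw [e] at this
      exact this
  · intro j hj
    rw [nx_shift g1'.ne] at g4
    exact g4 j hj

/-- a good leg from a point of the hole stays good for nearby starting points outside, if the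
ray misses the hole -/
theorem graze {θ : ℝ} (hθ : |θ - Real.pi / 4| < 1 / 100) {p : Par} (hp : p ∈ Pi0) {e v N : ℂ}
    (he : e ∈ Q p) (hv : ‖v‖ = 1) (hN : ‖N‖ = 1)
    (hmiss : ∀ ε : ℝ, 0 < ε → ∀ s : ℝ, e + (ε : ℂ) * N + (s : ℂ) * v ∉ Q p) {a : Lt}
    (ha : Good θ p a (e, v)) :
    ∀ᶠ ε : ℝ in 𝓝[>] (0 : ℝ), Good θ p a (e + (ε : ℂ) * N, v) ∧ Fre θ p (e + (ε : ℂ) * N) := by
  have hpos : 0 < fl θ p a (e, v) := ha.2.1
  obtain ⟨s0, hs0, hs1, hs2⟩ : ∃ s0 : ℝ, 0 < s0 ∧ s0 < fl θ p a (e, v) ∧ s0 ≤ 1 / 10 := by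
    refine ⟨min (1 / 10) (fl θ p a (e, v) / 2), lt_min (by norm_num) (by linarith), ?_,
      min_le_left _ _⟩
    have := min_le_right (1 / 10) (fl θ p a (e, v) / 2)
    linarith
  have hfree : Fre θ p (e + (s0 : ℂ) * v) := ha.2.2.1 s0 hs0 hs1
  have hg := good_shift ha hs0.le hs1
  have hgo := (good_open hθ hp (z := (e + (s0 : ℂ) * v, v)) (Or.inr hfree) hg).1
  have hcont : Tendsto (fun ε : ℝ => (p, (e + (s0 : ℂ) * v + (ε : ℂ) * N, v))) (𝓝[>] (0 : ℝ))
      (𝓝 (p, (e + (s0 : ℂ) * v, v))) := by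
    have : Continuous fun ε : ℝ => (p, (e + (s0 : ℂ) * v + (ε : ℂ) * N, v)) := by fun_prop
    have h2 := this.tendsto 0
    have e0 : e + (s0 : ℂ) * v + ((0 : ℝ) : ℂ) * N = e + (s0 : ℂ) * v := by simp
    simp only [e0] at h2
    exact h2.mono_left nhdsWithin_le_nhds
  have hev := hcont.eventually hgo
  have h01 : ∀ᶠ t : ℝ in 𝓝[>] (0 : ℝ), t ∈ Ioc (0 : ℝ) (1 / 10) := Ioc_mem_nhdsGT (by norm_num)
  filter_upwards [hev, h01] with ε h1 h2
  have hg2 : Good θ p a (e + (s0 : ℂ) * v + (ε : ℂ) * N, v) := h1 (Or.inr hfree)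
  have hs : ∀ r : ℝ, 0 ≤ r → r ≤ s0 → ∀ c, e + (ε : ℂ) * N + (r : ℂ) * v ∉ obs θ p c := by
    intro r r0 r1 c hc
    by_cases hc1 : c = (1, (0, 0))
    · rw [hc1] at hc
      have : e + (ε : ℂ) * N + (r : ℂ) * v ∈ Q p := by
        have h3 : frm θ (1, (0, 0)) (e + (ε : ℂ) * N + (r : ℂ) * v) ∈ Q p := hc
        rw [frm_one] at h3
        exact h3
      exact hmiss ε h2.1 r this
    · have he' : e ∈ obs θ p (1, (0, 0)) := by
        change frm θ (1, (0, 0)) e ∈ Q p
        rw [frm_one]; exact he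
      have hd := copies_dist hθ hp hc1 hc he'
      have hn : ‖e + (ε : ℂ) * N + (r : ℂ) * v - e‖ ≤ ε + r := by
        have e1 : e + (ε : ℂ) * N + (r : ℂ) * v - e = (ε : ℂ) * N + (r : ℂ) * v := by ring
        rw [e1]
        refine (norm_add_le _ _).trans ?_
        rw [norm_mul, norm_mul, hv, hN, Complex.norm_real, Complex.norm_real,
          Real.norm_of_nonneg r0, Real.norm_of_nonneg h2.1.le, mul_one, mul_one]
      have := h2.2
      linarith
  refine ⟨?_, ?_⟩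
  · apply good_unshift hs0.le _ (fun r r0 r1 c => hs r r0.le r1 c)
    have e1 : e + (ε : ℂ) * N + (s0 : ℂ) * v = e + (s0 : ℂ) * v + (ε : ℂ) * N := by ring
    rw [e1]
    exact hg2
  · intro c
    have := hs 0 le_rfl hs0.le c
    simpa using this

/-- two legs from a free point in opposite directions form one leg -/
theorem glue {θ : ℝ} {p : Par} {x w : ℂ} (hx : Fre θ p x) {a b : Lt}
    (ha : Good θ p a (x, w)) (hb : Good θ p b (x, -w)) :
    Good θ p (cmp (inv b.1) a.1, a.2) ((nx θ p b (x, -w)).1, act b.1.1 w) ∧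
    (act (cmp (inv b.1) a.1).1 (act b.1.1 w)) = act a.1.1 w := by
  have ha1 : dot (act a.1.1 w) (nu p a.2) < 0 := ha.1
  have ea : act (cmp (inv b.1) a.1).1 (act b.1.1 w) = act a.1.1 w := by
    change act ((inv b.1).1 * a.1.1) (act b.1.1 w) = _
    rw [inv_fst, act_act, mul_comm b.1.1 a.1.1, mul_assoc, sg_mul_self, mul_one]
  refine ⟨?_, ea⟩
  obtain ⟨tb, htb⟩ : ∃ tb, tb = fl θ p b (x, -w) := ⟨_, rfl⟩
  have hb2 : 0 < tb := by rw [htb]; exact hb.2.1
  have ey : (nx θ p b (x, -w)).1 = frm θ b.1 (x + ((-tb : ℝ) : ℂ) * w) := by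
    simp only [nx]
    rw [← htb]
    have : x + (tb : ℂ) * -w = x + ((-tb : ℝ) : ℂ) * w := by push_cast; ring
    rw [this]
  have ef : frm θ (cmp (inv b.1) a.1) (nx θ p b (x, -w)).1 =
      frm θ a.1 (x + ((-tb : ℝ) : ℂ) * w) := by
    rw [ey, ← frm_frm, frm_inv]
  have efl : fl θ p (cmp (inv b.1) a.1, a.2) ((nx θ p b (x, -w)).1, act b.1.1 w) =
      fl θ p a (x, w) + tb := by
    have := fl_shift (θ := θ) (x := x) ha1.ne (-tb)
    rw [sub_neg_eq_add] at this
    rw [← this]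
    simp only [fl, ef, ea]
  have enx : (nx θ p (cmp (inv b.1) a.1, a.2) ((nx θ p b (x, -w)).1, act b.1.1 w)).1 =
      (nx θ p a (x, w)).1 := by
    have h1 : (nx θ p (cmp (inv b.1) a.1, a.2) ((nx θ p b (x, -w)).1, act b.1.1 w)).1 =
      frm θ (cmp (inv b.1) a.1) ((nx θ p b (x, -w)).1 +
        ((fl θ p a (x, w) + tb : ℝ) : ℂ) * act b.1.1 w) := by
      rw [← efl]; rfl
    rw [h1, frm_ray, ef, ea, ← frm_ray]
    have : x + ((-tb : ℝ) : ℂ) * w + ((fl θ p a (x, w) + tb : ℝ) : ℂ) * w =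
        x + (fl θ p a (x, w) : ℂ) * w := by push_cast; ring
    rw [this]
    rfl
  refine ⟨?_, ?_, ?_, ?_⟩
  · change dot (act (cmp (inv b.1) a.1).1 (act b.1.1 w)) (nu p a.2) < 0
    rw [ea]; exact ha1
  · rw [efl]
    have := ha.2.1
    linarith
  · rw [efl]
    change FreeSeg θ p (nx θ p b (x, -w)).1 (act b.1.1 w) (fl θ p a (x, w) + tb)
    rw [ey, freeSeg_frm]
    intro s s0 s1 c
    have e1 : x + ((-tb : ℝ) : ℂ) * w + (s : ℂ) * w = x + ((s - tb : ℝ) : ℂ) * w := by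
      push_cast; ring
    rw [e1]
    rcases lt_trichotomy s tb with h | h | h
    · have := hb.2.2.1 (tb - s) (by linarith) (by rw [← htb]; linarith) c
      have e2 : x + ((tb - s : ℝ) : ℂ) * -w = x + ((s - tb : ℝ) : ℂ) * w := by push_cast; ring
      change x + ((tb - s : ℝ) : ℂ) * -w ∉ obs θ p c at this
      rw [e2] at this
      exact this
    · rw [h, sub_self]
      have := hx c
      simpa using this
    · exact ha.2.2.1 (s - tb) (by linarith) (by linarith) c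
  · intro j hj
    rw [enx]
    exact ha.2.2.2 j hj

theorem conn_refl {θ : ℝ} (hθ : |θ - Real.pi / 4| < 1 / 100) (hz : Transcendental ℚ (zz θ))
    {p : Par} (hp : p ∈ Pi0) {n : ℕ} (g : Gen θ p n) (D : Set ℂ)
    (hD : ∀ x ∈ SS θ p n \ SA θ p n, x.1 ∈ D ↔ (TT θ p x).1 ∈ D) {w : ℂ} (hw : w ∈ DD θ n)
    (hs : ¬ Spc θ w) : ∃ j, w ∈ D ↔ refl p j w ∈ D := by
  obtain ⟨hn, hneg, _, hact, hr, hj⟩ := DD_ops hz g hw
  obtain ⟨i, f0, f1, f2, f3⟩ := facing hj
  have e31 : i + 3 + 1 = i := fin_add_three_one i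
  have q0 : dot (vtx p (i + 3)) (nu p i) = p.2 i := by
    have := dot_vtx_succ p (i + 3)
    rw [e31] at this; exact this
  have q3 : dot (vtx p (i + 3)) (nu p (i + 3)) = p.2 (i + 3) := dot_vtx_self p _
  have hq := vtx_mem hp (i + 3)
  have hsn : ¬ Spc θ (-w) := by
    intro h
    apply hs
    unfold Spc at h ⊢
    rcases h with h | h | h | h
    · right; left; rw [← h, neg_neg]
    · left; exact neg_inj.mp h
    · right; right; right; rw [← h, neg_neg]
    · right; right; left; exact neg_inj.mp h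
  have d3 : 0 < dot (-w) (nu p (i + 3)) := by rw [dot_neg_left]; linarith
  have d0 : dot (-w) (nu p i) < 0 := by rw [dot_neg_left]; linarith
  have hout : Out p (vtx p (i + 3)) w := ⟨hq, i, q0, f0⟩
  have hout' : Out p (vtx p (i + 3)) (-w) := ⟨hq, i + 3, q3, d3⟩
  obtain ⟨a, ha⟩ : ∃ a, Good θ p a (vtx p (i + 3), w) := by
    rcases cn_touch hθ hz hp g hw hout with h | ⟨c, t, j, h1, _, h3, h4⟩
    · exact h
    · exfalso
      have hst : ¬ (dot w (nu p (i + 3)) < 0 ∧ dot w (nu p (i + 3 + 1)) < 0) := by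
        rw [e31]; exact fun h => by linarith [h.2]
      exact hs (nosc hθ hz hp g hw hst (l := []) trivial (c := c) (t := t) h1 (j := j) h3
        h4).2.2.2.1
  obtain ⟨b, hb⟩ : ∃ b, Good θ p b (vtx p (i + 3), -w) := by
    rcases cn_touch hθ hz hp g hneg hout' with h | ⟨c, t, j, h1, _, h3, h4⟩
    · exact h
    · exfalso
      have hst : ¬ (dot (-w) (nu p (i + 3)) < 0 ∧ dot (-w) (nu p (i + 3 + 1)) < 0) :=
        fun h => by linarith [h.1]
      exact hsn (nosc hθ hz hp g hneg hst (l := []) trivial (c := c) (t := t) h1 (j := j) h3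
        h4).2.2.2.1
  -- the first two relations
  have r1 := cn_step hθ hz hp g D hD hw hout ha
  have r2 := cn_rev hθ hz hp g D hD hneg hq q3 d3 hb
  rw [act_neg, neg_neg, refl_neg, neg_neg] at r2
  -- the lines on the other side
  have hcr : ∀ y ∈ Q p, crs w (vtx p (i + 3)) ≤ crs w y := by
    intro y hy
    have hb1 := basis_nu p (i + 3) (y - vtx p (i + 3))
    rw [e31] at hb1
    have h1 : crs w (y - vtx p (i + 3)) =
        dot (y - vtx p (i + 3)) (nu p (i + 3)) * crs w (nu p (i + 3)) +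
        dot (y - vtx p (i + 3)) (nu p i) * crs w (nu p i) := by
      conv_lhs => rw [hb1]
      rw [crs_add_right, crs_mul_right, crs_mul_right]
    have h2 : crs w (nu p (i + 3)) = dot w (nu p (i + 2)) := by
      have := crs_nu_succ p w (i + 2)
      have e : i + 2 + 1 = i + 3 := by rw [add_assoc]; rfl
      rw [e] at this; exact this
    have h3 : crs w (nu p i) = dot w (nu p (i + 3)) := by
      have := crs_nu_succ p w (i + 3)
      rw [e31] at this; exact this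
    have h4 := hy (i + 3)
    have h5 := hy i
    rw [crs_sub_right, h2, h3, dot_sub_left, dot_sub_left, q3, q0] at h1
    nlinarith [mul_nonneg (sub_nonneg.mpr h4) (neg_nonneg.mpr f2.le),
      mul_nonneg (sub_nonneg.mpr h5) (neg_nonneg.mpr f3.le)]
  have hNn : ‖-(Complex.I * w)‖ = 1 := by rw [norm_neg, norm_mul, Complex.norm_I, hn, one_mul]
  have hww : dot w w = 1 := by rw [dot_self, hn]; norm_num
  have hmiss : ∀ ε : ℝ, 0 < ε → ∀ s : ℝ,
      vtx p (i + 3) + (ε : ℂ) * -(Complex.I * w) + (s : ℂ) * w ∉ Q p := by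
    intro ε hε s hQ
    have := hcr _ hQ
    rw [crs_add_right, crs_add_right, crs_mul_right, crs_mul_right, crs_self, crs_neg_right,
      crs_mul_I, hww] at this
    linarith
  have hmiss' : ∀ ε : ℝ, 0 < ε → ∀ s : ℝ,
      vtx p (i + 3) + (ε : ℂ) * -(Complex.I * w) + (s : ℂ) * -w ∉ Q p := by
    intro ε hε s
    have := hmiss ε hε (-s)
    have e : ((-s : ℝ) : ℂ) * w = (s : ℂ) * -w := by push_cast; ring
    rw [e] at this
    exact this
  have hga := graze hθ hp hq hn hNn hmiss ha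
  have hgb := graze hθ hp hq (by rw [norm_neg]; exact hn) hNn hmiss' hb
  obtain ⟨ε, ⟨k1, k2⟩, k3, _⟩ := (hga.and hgb).exists
  obtain ⟨l1, l2⟩ := glue k2 k1 k3
  obtain ⟨o1, o2, _, _⟩ := nx_out hp k3
  have hout3 : Out p (nx θ p b (vtx p (i + 3) + (ε : ℂ) * -(Complex.I * w), -w)).1
      (act b.1.1 w) := by
    refine ⟨o1.1, b.2, o2, ?_⟩
    have := k3.1
    simp only [act_neg, dot_neg_left] at this
    linarith
  have r3 := cn_step hθ hz hp g D hD (hact b.1.1) hout3 l1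
  simp only [l2] at r3
  exact ⟨i + 3, r1.trans (r3.symm.trans r2)⟩

end TMX
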