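import Pool.Agent.TMX.A1
import Pool.Agent.TMX.A4
import Pool.Agent.TMX.G1
import Pool.Agent.TMX.G2
import Pool.Agent.TMX.S1
import Pool.Agent.TMX.S11a
import Pool.Agent.TMX.S3

/-! # TMX S11c: `w` and `act d w` are in the same class -/

set_option autoImplicit false

open Set Filter Topology

namespace TMX

/-- exit from the hole -/
theorem exitQ {p : Par} {y v : ℂ} (hy : y ∈ Q p) (hv : ∀ j, dot v (nu p j) ≠ 0) :
    ∃ s : ℝ, 0 ≤ s ∧ Out p (y + (s : ℂ) * v) v := by
  obtain ⟨i, f0, f1, f2, f3⟩ := facing hv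
  have key : ∀ s : ℝ, 0 ≤ s → s * dot v (nu p i) ≤ p.2 i - dot y (nu p i) →
      s * dot v (nu p (i + 1)) ≤ p.2 (i + 1) - dot y (nu p (i + 1)) →
      y + (s : ℂ) * v ∈ Q p := by
    intro s s0 h0 h1 j
    rw [dot_add_left, dot_mul_left]
    rcases fin_four_cases i j with rfl | rfl | rfl | rfl
    · linarith
    · linarith
    · have := hy (i + 2)
      nlinarith [mul_nonneg s0 (neg_nonneg.mpr f2.le)]
    · have := hy (i + 3)
      nlinarith [mul_nonneg s0 (neg_nonneg.mpr f3.le)]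
  have a0 : 0 ≤ (p.2 i - dot y (nu p i)) / dot v (nu p i) :=
    div_nonneg (sub_nonneg.mpr (hy i)) f0.le
  have a1 : 0 ≤ (p.2 (i + 1) - dot y (nu p (i + 1))) / dot v (nu p (i + 1)) :=
    div_nonneg (sub_nonneg.mpr (hy (i + 1))) f1.le
  rcases le_total ((p.2 i - dot y (nu p i)) / dot v (nu p i))
    ((p.2 (i + 1) - dot y (nu p (i + 1))) / dot v (nu p (i + 1))) with h | h
  · refine ⟨_, a0, key _ a0 ?_ ?_, i, ?_, f0⟩
    · rw [div_mul_cancel₀ _ f0.ne']
    · calc _ ≤ (p.2 (i + 1) - dot y (nu p (i + 1))) / dot v (nu p (i + 1)) *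
            dot v (nu p (i + 1)) := mul_le_mul_of_nonneg_right h f1.le
        _ = _ := div_mul_cancel₀ _ f1.ne'
    · rw [dot_add_left, dot_mul_left, div_mul_cancel₀ _ f0.ne']; ring
  · refine ⟨_, a1, key _ a1 ?_ ?_, i + 1, ?_, f1⟩
    · calc _ ≤ (p.2 i - dot y (nu p i)) / dot v (nu p i) *
            dot v (nu p i) := mul_le_mul_of_nonneg_right h f0.le
        _ = _ := div_mul_cancel₀ _ f0.ne'
    · rw [div_mul_cancel₀ _ f1.ne']
    · rw [dot_add_left, dot_mul_left, div_mul_cancel₀ _ f1.ne']; ring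

theorem crs_lat (θ : ℝ) (w : ℂ) (m : ℤ × ℤ) :
    crs w (lat θ m) = (m.2 : ℝ) * (w.re * (2 * bb θ)) - (m.1 : ℝ) * (w.im * 2) := by
  unfold crs lat; ring

/-- density of the offsets of the lattice -/
theorem lat_dense {θ : ℝ} (hz : Transcendental ℚ (zz θ)) {n : ℕ} {w : ℂ} (hw : w ∈ DD θ n)
    (hs : ¬ Spc θ w) (β ε : ℝ) (hε : 0 < ε) : ∃ m : ℤ × ℤ, |crs w (lat θ m) - β| < ε := by
  have hinj : ∀ m : ℤ × ℤ, crs w (lat θ m) = 0 → m = 0 := by
    intro m hm
    by_contra hne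
    exact hs (lat_special hz hw hne hm).1
  let G : AddSubgroup ℝ :=
    { carrier := {r | ∃ m : ℤ × ℤ, r = crs w (lat θ m)}
      add_mem' := by
        rintro a b ⟨m, rfl⟩ ⟨m', rfl⟩
        exact ⟨m + m', by simp only [crs_lat, Prod.fst_add, Prod.snd_add, Int.cast_add]; ring⟩
      zero_mem' := ⟨0, by simp [crs_lat]⟩
      neg_mem' := by
        rintro a ⟨m, rfl⟩
        exact ⟨-m, by simp only [crs_lat, Prod.fst_neg, Prod.snd_neg, Int.cast_neg]; ring⟩ }
  have hd : Dense (G : Set ℝ) := by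
    rcases G.dense_or_cyclic with h | ⟨a, ha⟩
    · exact h
    · exfalso
      have m1 : crs w (lat θ (1, 0)) ∈ G := ⟨_, rfl⟩
      have m2 : crs w (lat θ (0, 1)) ∈ G := ⟨_, rfl⟩
      rw [ha, AddSubgroup.mem_closure_singleton] at m1 m2
      obtain ⟨k, hk⟩ := m1
      obtain ⟨l, hl⟩ := m2
      have h3 : crs w (lat θ (-l, k)) = 0 := by
        simp only [crs_lat, zsmul_eq_mul] at hk hl ⊢
        push_cast at hk hl ⊢
        linear_combination (-(k : ℝ)) * hl + (l : ℝ) * hk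
      have h4 := hinj _ h3
      have h5 : l = 0 ∧ k = 0 := by
        have h6 := congrArg Prod.fst h4
        have h7 := congrArg Prod.snd h4
        simp only [Prod.fst_zero, Prod.snd_zero] at h6 h7
        exact ⟨by omega, h7⟩
      rw [h5.2, zero_smul] at hk
      have := hinj _ hk.symm
      simp at this
  obtain ⟨r, hr1, hr2⟩ := Metric.dense_iff.mp hd β ε hε
  obtain ⟨m, hm⟩ := hr2
  refine ⟨m, ?_⟩
  rw [Metric.mem_ball, Real.dist_eq] at hr1
  rw [← hm]; exact hr1

section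
variable {θ : ℝ} (hθ : |θ - Real.pi / 4| < 1 / 100) (hz : Transcendental ℚ (zz θ))
    {p : Par} (hp : p ∈ Pi0) {n : ℕ} (g : Gen θ p n) (D : Set ℂ)
    (hD : ∀ x ∈ SS θ p n \ SA θ p n, x.1 ∈ D ↔ (TT θ p x).1 ∈ D)
    (h2 : ∀ w ∈ DD θ n, ∀ j, w ∈ D ↔ refl p j w ∈ D)

include hθ hz hp g hD h2

/-- copies on a line without vertices have the same class -/
theorem cn_line {w : ℂ} (hw : w ∈ DD θ n) {x : ℂ}
    (hgen : ∀ (c : Cp) (j : Fin 4) (s : ℝ), frm θ c (x + (s : ℂ) * w) ≠ vtx p j) (N : ℕ) :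
    ∀ (c c' : Cp) (s s' : ℝ), s ≤ s' → s' - s < (N + 1 : ℝ) * (2 / 5) →
      x + (s : ℂ) * w ∈ obs θ p c → x + (s' : ℂ) * w ∈ obs θ p c' →
      (act c.1 w ∈ D ↔ act c'.1 w ∈ D) := by
  obtain ⟨hn, _, _, hact, _, _⟩ := DD_ops hz g hw
  have hdist : ∀ s s' : ℝ, s ≤ s' →
      ‖x + (s : ℂ) * w - (x + (s' : ℂ) * w)‖ = s' - s := by
    intro s s' h
    have : x + (s : ℂ) * w - (x + (s' : ℂ) * w) = ((s - s' : ℝ) : ℂ) * w := by push_cast; ring
    rw [this, norm_mul, hn, mul_one, Complex.norm_real, Real.norm_eq_abs, abs_sub_comm,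
      abs_of_nonneg (by linarith)]
  have hclose : ∀ (c c' : Cp) (s s' : ℝ), s ≤ s' → s' - s < 2 / 5 →
      x + (s : ℂ) * w ∈ obs θ p c → x + (s' : ℂ) * w ∈ obs θ p c' → c = c' := by
    intro c c' s s' h1 h3 hc hc'
    by_contra hne
    have := copies_dist hθ hp hne hc hc'
    rw [hdist s s' h1] at this
    linarith
  induction N with
  | zero =>
    intro c c' s s' h1 h3 hc hc'
    have := hclose c c' s s' h1 (by simpa using h3) hc hc'
    rw [this]
  | succ N ih =>
    intro c c' s s' h1 h3 hc hc'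
    -- exit from c
    obtain ⟨_, _, _, _, _, hj⟩ := DD_ops hz g (hact c.1)
    obtain ⟨r, r0, hout⟩ := exitQ hc hj
    rw [← frm_ray] at hout
    have e1 : x + (s : ℂ) * w + (r : ℂ) * w = x + ((s + r : ℝ) : ℂ) * w := by push_cast; ring
    rw [e1] at hout
    have hex : x + ((s + r : ℝ) : ℂ) * w ∈ obs θ p c := hout.1
    rcases le_or_gt s' (s + r) with hle | hlt
    · -- the point s' is in c
      have hQ : x + (s' : ℂ) * w ∈ obs θ p c := by
        intro j
        have i1 := hc j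
        have i2 := hex j
        rw [frm_ray, dot_add_left, dot_mul_left] at i1 i2 ⊢
        rcases le_total 0 (dot (act c.1 w) (nu p j)) with h | h
        · nlinarith [mul_nonneg (sub_nonneg.mpr hle) h]
        · nlinarith [mul_nonneg (sub_nonneg.mpr h1) (neg_nonneg.mpr h)]
      have := hclose c c' s' s' le_rfl (by norm_num) hQ hc'
      rw [this]
    · have hpt : x + (s' : ℂ) * w = x + ((s + r : ℝ) : ℂ) * w + ((s' - (s + r) : ℝ) : ℂ) * w := by
        push_cast; ring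
      have hL : ∃ t : ℝ, 0 < t ∧ t ≤ s' - (s + r) ∧ ∃ c₁,
          frm θ c (x + ((s + r : ℝ) : ℂ) * w) + (t : ℂ) * act c.1 w ∈ obs θ p c₁ := by
        refine ⟨s' - (s + r), by linarith, le_rfl, cmp (inv c) c', ?_⟩
        rw [← frm_ray, ← hpt, obs_frm]
        have : cmp c (cmp (inv c) c') = c' := by
          obtain ⟨⟨c1, c2⟩, c3, c4⟩ := c
          obtain ⟨⟨d1, d2⟩, d3, d4⟩ := c'
          rcases Int.units_eq_one_or c1 with rfl | rfl <;>
          rcases Int.units_eq_one_or c2 with rfl | rfl <;>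
          simp [cmp, inv]
        rw [this]; exact hc'
      rcases first_touch hθ hp (by rw [norm_act]; exact hn)
        (fun d j => (DD_ops hz g ((DD_ops hz g (hact c.1)).2.2.2.1 d)).2.2.2.2.2 j)
        (Or.inl hout) hL with ⟨a, ha, hfl⟩ | ⟨c₁, t, j, _, _, _, hv, _⟩
      · -- next copy
        have st := cn_step hθ hz hp g D hD (hact c.1) hout ha
        have hwa : act a.1.1 (act c.1 w) ∈ DD θ n := (DD_ops hz g (hact c.1)).2.2.2.1 _
        rw [← h2 _ hwa a.2, act_act] at st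
        have hland := (nx_out hp ha).1.1
        have hpos : 0 < fl θ p a (frm θ c (x + ((s + r : ℝ) : ℂ) * w), act c.1 w) := ha.2.1
        obtain ⟨t, ht⟩ : ∃ t, t = fl θ p a (frm θ c (x + ((s + r : ℝ) : ℂ) * w), act c.1 w) :=
          ⟨_, rfl⟩
        have hland2 : x + ((s + r + t : ℝ) : ℂ) * w ∈ obs θ p (cmp c a.1) := by
          rw [← obs_frm]
          have e2 : x + ((s + r + t : ℝ) : ℂ) * w =
              x + ((s + r : ℝ) : ℂ) * w + (t : ℂ) * w := by push_cast; ring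
          rw [e2, frm_ray, ht]
          exact hland
        rw [← ht] at hfl hpos
        have hne : cmp c a.1 ≠ c := by
          intro he
          rw [he] at hland2
          have h5 : frm θ c (x + ((s + r + t : ℝ) : ℂ) * w) ∈ Q p := hland2
          have e2 : x + ((s + r + t : ℝ) : ℂ) * w =
              x + ((s + r : ℝ) : ℂ) * w + (t : ℂ) * w := by push_cast; ring
          rw [e2, frm_ray] at h5
          exact out_ray hout hpos h5
        have hfar := copies_dist hθ hp hne.symm hc hland2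
        rw [hdist s (s + r + t) (by linarith)] at hfar
        have := ih (cmp c a.1) c' (s + r + t) s' (by linarith) (by push_cast at h3; linarith)
          hland2 hc'
        have ec : (cmp c a.1).1 = a.1.1 * c.1 := mul_comm _ _
        rw [ec] at this
        exact st.trans this
      · exfalso
        rw [← frm_ray, frm_frm] at hv
        have e3 : x + ((s + r : ℝ) : ℂ) * w + (t : ℂ) * w =
            x + ((s + r + t : ℝ) : ℂ) * w := by push_cast; ring
        rw [e3] at hv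
        exact hgen _ _ _ hv

end

/-- the centre of the hole -/
noncomputable def cent (p : Par) : ℂ :=
  (((p.2 0 - p.2 2) / 2 : ℝ) : ℂ) * nu p 0 + (((p.2 1 - p.2 3) / 2 : ℝ) : ℂ) * nu p (0 + 1)

theorem ball_Q (p : Par) {ρ : ℝ} (h0 : ρ ≤ (p.2 0 + p.2 2) / 2) (h1 : ρ ≤ (p.2 1 + p.2 3) / 2)
    {y : ℂ} (hy : ‖y - cent p‖ ≤ ρ) : y ∈ Q p := by
  have c0 : dot (cent p) (nu p 0) = (p.2 0 - p.2 2) / 2 := by
    unfold cent; rw [dot_add_left, dot_mul_left, dot_mul_left, dot_nu_self, dot_nu_succ']; ring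
  have c1 : dot (cent p) (nu p 1) = (p.2 1 - p.2 3) / 2 := by
    have : dot (cent p) (nu p (0 + 1)) = (p.2 1 - p.2 3) / 2 := by
      unfold cent; rw [dot_add_left, dot_mul_left, dot_mul_left, dot_nu_self, dot_nu_succ]; ring
    exact this
  have c2 : dot (cent p) (nu p 2) = (p.2 2 - p.2 0) / 2 := by
    have : dot (cent p) (nu p (0 + 2)) = (p.2 2 - p.2 0) / 2 := by
      rw [dot_add_two, c0]; ring
    exact this
  have c3 : dot (cent p) (nu p 3) = (p.2 3 - p.2 1) / 2 := by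
    have : dot (cent p) (nu p (1 + 2)) = (p.2 3 - p.2 1) / 2 := by
      rw [dot_add_two, c1]; ring
    exact this
  have key : ∀ j, dot y (nu p j) ≤ dot (cent p) (nu p j) + ρ := by
    intro j
    have h := abs_dot_le (y - cent p) (nu p j)
    rw [nu_norm, mul_one, dot_sub_left] at h
    have := le_abs_self (dot y (nu p j) - dot (cent p) (nu p j))
    linarith
  intro j
  have hj := key j
  have e : ∀ j : Fin 4, j = 0 ∨ j = 1 ∨ j = 2 ∨ j = 3 := by decide
  rcases e j with rfl | rfl | rfl | rfl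
  · linarith
  · linarith
  · linarith
  · linarith

theorem conn_act {θ : ℝ} (hθ : |θ - Real.pi / 4| < 1 / 100) (hz : Transcendental ℚ (zz θ))
    {p : Par} (hp : p ∈ Pi0) {n : ℕ} (g : Gen θ p n) (D : Set ℂ)
    (hD : ∀ x ∈ SS θ p n \ SA θ p n, x.1 ∈ D ↔ (TT θ p x).1 ∈ D)
    (h2 : ∀ w ∈ DD θ n, ∀ j, w ∈ D ↔ refl p j w ∈ D) {w : ℂ} (hw : w ∈ DD θ n)
    (hs : ¬ Spc θ w) (d : Sg) : w ∈ D ↔ act d w ∈ D := by
  obtain ⟨hn, _, _, _, _, _⟩ := DD_ops hz g hw
  have hww : dot w w = 1 := by rw [dot_self, hn]; norm_num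
  have hpos := hp.2.2.1
  obtain ⟨ρ, hρ, r0, r1⟩ : ∃ ρ : ℝ, 0 < ρ ∧ ρ ≤ (p.2 0 + p.2 2) / 2 ∧ ρ ≤ (p.2 1 + p.2 3) / 2 := by
    have a0 : 0 < (p.2 0 + p.2 2) / 2 := half_pos (hpos 0)
    have a1 : 0 < (p.2 1 + p.2 3) / 2 := half_pos (hpos 1)
    exact ⟨min _ _, lt_min a0 a1, min_le_left _ _, min_le_right _ _⟩
  obtain ⟨m, hm⟩ := lat_dense hz hw hs (crs w (cent p) - crs w (act d (cent p))) ρ hρ
  obtain ⟨δ, hδ⟩ : ∃ δ, δ = crs w (act d (cent p) + lat θ m - cent p) := ⟨_, rfl⟩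
  obtain ⟨s', hs'⟩ : ∃ s', s' = dot w (act d (cent p) + lat θ m - cent p) := ⟨_, rfl⟩
  have hδρ : |δ| < ρ := by
    have : δ = crs w (lat θ m) - (crs w (cent p) - crs w (act d (cent p))) := by
      rw [hδ, crs_sub_right, crs_add_right]; ring
    rw [this]; exact hm
  have hdec := decomp hn (act d (cent p) + lat θ m - cent p)
  rw [← hδ, ← hs'] at hdec
  -- generic offset
  have hcount : (Set.range fun c : Cp × Fin 4 =>
      crs w (frm θ (inv c.1) (vtx p c.2)) - crs w (cent p)).Countable := Set.countable_range _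
  obtain ⟨η, hη, η0, η1⟩ := (hcount.dense_compl ℝ).exists_between (sub_pos.mpr hδρ)
  have hgen : ∀ (c : Cp) (j : Fin 4) (s : ℝ),
      frm θ c (cent p + (η : ℂ) * (Complex.I * w) + (s : ℂ) * w) ≠ vtx p j := by
    intro c j s he
    apply hη
    refine ⟨(c, j), ?_⟩
    simp only
    rw [← he, frm_inv, crs_add_right, crs_add_right, crs_mul_right, crs_mul_right, crs_self,
      crs_mul_I, hww]
    ring
  have nI : ‖Complex.I * w‖ = 1 := by rw [norm_mul, Complex.norm_I, hn, one_mul]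
  have P0 : cent p + (η : ℂ) * (Complex.I * w) + ((0 : ℝ) : ℂ) * w ∈ obs θ p (1, (0, 0)) := by
    change frm θ (1, (0, 0)) _ ∈ Q p
    rw [frm_one]
    apply ball_Q p r0 r1
    have : cent p + (η : ℂ) * (Complex.I * w) + ((0 : ℝ) : ℂ) * w - cent p =
        (η : ℂ) * (Complex.I * w) := by push_cast; ring
    rw [this, norm_mul, nI, mul_one, Complex.norm_real, Real.norm_of_nonneg η0.le]
    have := abs_nonneg δ
    linarith
  have P1 : cent p + (η : ℂ) * (Complex.I * w) + (s' : ℂ) * w ∈ obs θ p (d, m) := by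
    change act d (cent p + (η : ℂ) * (Complex.I * w) + (s' : ℂ) * w - lat θ m) ∈ Q p
    apply ball_Q p r0 r1
    have e1 : cent p + (η : ℂ) * (Complex.I * w) + (s' : ℂ) * w - lat θ m =
        act d (cent p) + ((η - δ : ℝ) : ℂ) * (Complex.I * w) := by
      push_cast
      linear_combination (-1 : ℂ) * hdec
    rw [e1, act_add, act_self, add_sub_cancel_left, norm_act, norm_mul, nI, mul_one,
      Complex.norm_real, Real.norm_eq_abs]
    have h3 := abs_sub η δ
    rw [abs_of_pos η0] at h3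
    linarith
  rcases le_total 0 s' with h | h
  · obtain ⟨N, hN⟩ := exists_nat_gt ((s' - 0) / (2 / 5))
    rw [div_lt_iff₀ (by norm_num)] at hN
    have := cn_line hθ hz hp g D hD h2 hw hgen N (1, (0, 0)) (d, m) 0 s' h (by linarith) P0 P1
    rw [act_one] at this
    exact this
  · obtain ⟨N, hN⟩ := exists_nat_gt ((0 - s') / (2 / 5))
    rw [div_lt_iff₀ (by norm_num)] at hN
    have := cn_line hθ hz hp g D hD h2 hw hgen N (d, m) (1, (0, 0)) s' 0 h (by linarith) P1 P0
    rw [act_one] at this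
    exact this.symm

end TMX
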