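import Pool.Agent.TMX.A4
import Pool.Agent.TMX.Basic
import Pool.Agent.TMX.G1
import Pool.Agent.TMX.S1
import Pool.Agent.TMX.S2
import Pool.Agent.TMX.S3

set_option autoImplicit false

open Set Filter Topology

namespace TMX

namespace S4

theorem bb_pos_of {θ : ℝ} (hθ : |θ - Real.pi / 4| < 1 / 100) : 0 < bb θ := by
  rw [abs_lt] at hθ
  have := Real.pi_gt_three
  exact Real.tan_pos_of_pos_of_lt_pi_div_two (by linarith [hθ.1]) (by linarith [hθ.2])

/-- Lattice vectors of bounded length are finitely many. -/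
theorem lat_finite {θ : ℝ} (hb : 0 < bb θ) (K : ℝ) : {m : ℤ × ℤ | ‖lat θ m‖ ≤ K}.Finite := by
  obtain ⟨N, hN⟩ := exists_nat_ge (K / 2)
  obtain ⟨M, hM⟩ := exists_nat_ge (K / (2 * bb θ))
  apply (Set.Finite.prod (Set.finite_Icc (-(N : ℤ)) N) (Set.finite_Icc (-(M : ℤ)) M)).subset
  intro m hm
  have hm' : ‖lat θ m‖ ≤ K := hm
  have h1 := (Complex.abs_re_le_norm (lat θ m)).trans hm'
  have h2 := (Complex.abs_im_le_norm (lat θ m)).trans hm'
  change |2 * (m.1 : ℝ)| ≤ K at h1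
  change |2 * bb θ * (m.2 : ℝ)| ≤ K at h2
  rw [abs_le] at h1 h2
  rw [div_le_iff₀ (by norm_num)] at hN
  rw [div_le_iff₀ (by positivity)] at hM
  refine ⟨⟨?_, ?_⟩, ⟨?_, ?_⟩⟩
  · have : (-(N : ℝ)) ≤ m.1 := by linarith [h1.1]
    exact_mod_cast this
  · have : (m.1 : ℝ) ≤ N := by linarith [h1.2]
    exact_mod_cast this
  · have : (-(M : ℝ)) ≤ m.2 := by
      by_contra hlt
      push Not at hlt
      have := mul_lt_mul_of_pos_left hlt (show 0 < 2 * bb θ by positivity)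
      nlinarith [h2.1]
    exact_mod_cast this
  · have : (m.2 : ℝ) ≤ M := by
      by_contra hlt
      push Not at hlt
      have := mul_lt_mul_of_pos_left hlt (show 0 < 2 * bb θ by positivity)
      nlinarith [h2.2]
    exact_mod_cast this

theorem norm_le_one_of_box {x : ℂ} (h1 : |x.re - 1 / 4| < 1 / 50) (h2 : |x.im - 1 / 2| < 1 / 50) :
    ‖x‖ ≤ 1 := by
  rw [abs_lt] at h1 h2
  have h3 : |x.re| ≤ 3 / 10 := by rw [abs_le]; constructor <;> linarith
  have h4 : |x.im| ≤ 6 / 10 := by rw [abs_le]; constructor <;> linarith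
  exact (Complex.norm_le_abs_re_add_abs_im x).trans (by linarith)

end S4

open S4

/-- [S4] -/
theorem finA {θ : ℝ} (hθ : |θ - Real.pi / 4| < 1 / 100) (hz : Transcendental ℚ (zz θ))
    {p : Par} (hp : p ∈ Pi0) {n : ℕ} (g : Gen θ p n) : (SA θ p n).Finite := by
  have hb := S4.bb_pos_of hθ
  obtain ⟨L, hL⟩ := bounded hθ hz hp g
  have hF : ((DD θ n) ×ˢ ((Set.univ : Set Sg) ×ˢ ({m : ℤ × ℤ | ‖lat θ m‖ ≤ L + 2} ×ˢ
      (Set.univ : Set (Fin 4))))).Finite :=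
    (DD_finite θ n).prod ((Set.toFinite _).prod ((S4.lat_finite hb (L + 2)).prod
      (Set.toFinite _)))
  apply (hF.image fun q : ℂ × (Sg × ((ℤ × ℤ) × Fin 4)) =>
    (q.1, crs q.1 (frm θ (inv (q.2.1, q.2.2.1)) (vtx p q.2.2.2)))).subset
  rintro ⟨w, o⟩ ⟨⟨hw, ho1, ho2⟩, hgood⟩
  change w ∈ DD θ n at hw
  change oa p w < o at ho1
  change o < ob p w at ho2
  change ∀ a, ¬ Good θ p a (XX p w o, w) at hgood
  obtain ⟨hn, -, -, hact, -, hne⟩ := DD_ops hz g hw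
  have hne' : ∀ d j, dot (act d w) (nu p j) ≠ 0 := fun d j =>
    (DD_ops hz g (hact d)).2.2.2.2.2 j
  obtain ⟨i, hi0, hi1, -, -⟩ := facing hne
  obtain ⟨-, -, -, -, hpt, -⟩ := exit_pt hp hn hi0 hi1
  obtain ⟨hXQ, hXo, -, hXout, -, -⟩ := hpt o ho1.le ho2.le
  obtain ⟨t, ht1, htL, c0, hc0⟩ := hL w hw (XX p w o) (Or.inl hXout)
  rcases first_touch hθ hp hn hne' (Or.inl hXout)
    ⟨t, by linarith, htL, c0, hc0⟩ with ⟨a, ha, -⟩ | ⟨c, s, j, hs0, hsL, -, hv, -⟩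
  · exact absurd ha (hgood a)
  · refine ⟨(w, (c.1, (c.2, j))), ⟨hw, ⟨Set.mem_univ _, ⟨?_, Set.mem_univ _⟩⟩⟩, ?_⟩
    · change ‖lat θ c.2‖ ≤ L + 2
      have h1 : ‖XX p w o‖ ≤ 1 := by
        obtain ⟨h1, h2⟩ := box hp hXQ
        exact S4.norm_le_one_of_box h1 h2
      have h2 : ‖vtx p j‖ ≤ 1 := S4.norm_le_one_of_box (hp.2.2.2 j).1 (hp.2.2.2 j).2
      have h3 : ‖XX p w o + (s : ℂ) * w - lat θ c.2‖ = ‖vtx p j‖ := by
        rw [← hv]; unfold frm; rw [norm_act]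
      have h4 : ‖XX p w o + (s : ℂ) * w‖ ≤ 1 + s := by
        apply (norm_add_le _ _).trans
        rw [norm_mul, hn, Complex.norm_real, Real.norm_eq_abs, abs_of_pos hs0, mul_one]
        linarith
      have h5 : lat θ c.2 = (XX p w o + (s : ℂ) * w) - (XX p w o + (s : ℂ) * w - lat θ c.2) := by
        ring
      rw [h5]
      apply (norm_sub_le _ _).trans
      rw [h3]; linarith
    · change (w, crs w (frm θ (inv (c.1, c.2)) (vtx p j))) = (w, o)
      have e : ((c.1, c.2) : Cp) = c := rfl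
      rw [e, ← hv, frm_inv, crs_add_right, crs_mul_right, crs_self, mul_zero, add_zero, hXo]

end TMX
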