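import Pool.Agent.TMX.A4
import Pool.Agent.TMX.Basic
import Pool.Agent.TMX.G2
import Pool.Agent.TMX.G3
import Pool.Agent.TMX.S1

/-! # TMX [S5]: the section map is a local isometry -/

set_option autoImplicit false

open Set Filter Topology

namespace TMX

namespace S5

/-- The letter of a point of `SS \ SA` is good. -/
theorem ltr_good {θ : ℝ} {p : Par} {n : ℕ} {x : ℂ × ℝ} (hx : x ∈ SS θ p n \ SA θ p n) :
    Good θ p (ltr θ p x) (XX p x.1 x.2, x.1) := by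
  have h : ∃ a, Good θ p a (XX p x.1 x.2, x.1) := by
    by_contra hne
    push Not at hne
    exact hx.2 ⟨hx.1, hne⟩
  have e : ltr θ p x = h.choose := by
    unfold ltr; rw [dif_pos h]
  rw [e]; exact h.choose_spec

/-- A good letter of a point of `SS` is the letter of the point. -/
theorem ltr_eq {θ : ℝ} (hθ : |θ - Real.pi / 4| < 1 / 100) {p : Par} (hp : p ∈ Pi0) {n : ℕ}
    {x : ℂ × ℝ} (hx : x ∈ SS θ p n) {a : Lt} (ha : Good θ p a (XX p x.1 x.2, x.1)) :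
    x ∈ SS θ p n \ SA θ p n ∧ ltr θ p x = a := by
  have h1 : x ∈ SS θ p n \ SA θ p n := ⟨hx, fun h => h.2 a ha⟩
  exact ⟨h1, good_unique hθ hp (ltr_good h1) ha⟩

/-- Direction of the image. -/
theorem TT_fst {θ : ℝ} {p : Par} (x : ℂ × ℝ) :
    (TT θ p x).1 = refl p (ltr θ p x).2 (act (ltr θ p x).1.1 x.1) := rfl

theorem vtx_two_sides {p : Par} {x : ℂ} {s j : Fin 4}
    (h : ∀ i, i ≠ s → dot x (nu p i) < p.2 i) (hx : x = vtx p j) : False := by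
  subst hx
  have hne : j ≠ j + 1 := by
    intro hj
    have e : ∀ i : Fin 4, i ≠ i + 1 := by decide
    exact e j hj
  by_cases hs : j = s
  · have h1 := h (j + 1) (fun e => hne (hs.trans e.symm))
    rw [dot_vtx_succ] at h1
    exact lt_irrefl _ h1
  · have h1 := h j hs
    rw [dot_vtx_self] at h1
    exact lt_irrefl _ h1

theorem TT_main {θ : ℝ} (hz : Transcendental ℚ (zz θ))
    {p : Par} (hp : p ∈ Pi0) {n : ℕ} (g : Gen θ p n) {x : ℂ × ℝ}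
    (hx : x ∈ SS θ p n \ SA θ p n) :
    TT θ p x ∈ SS θ p n ∧
    (TT θ p x).2 = -sdet (ltr θ p x).1.1 * (x.2 - crs x.1 (lat θ (ltr θ p x).1.2)) +
      2 * p.2 (ltr θ p x).2 * crs (TT θ p x).1 (nu p (ltr θ p x).2) ∧
    nx θ p (ltr θ p x) (XX p x.1 x.2, x.1) = (XX p (TT θ p x).1 (TT θ p x).2, (TT θ p x).1) ∧
    fl θ p (ltr θ p x) (XX p x.1 x.2, x.1) =
      be p (TT θ p x).1 (TT θ p x).2 - be p x.1 x.2 + ff θ p x := by
  have hg := ltr_good hx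
  obtain ⟨hout, hland, hdir, hnorm⟩ := nx_out hp hg
  obtain ⟨hw1, -, -, hact, -, hw0⟩ := DD_ops hz g hx.1.1
  obtain ⟨-, -, -, -, hrefl, -⟩ := DD_ops hz g (hact (ltr θ p x).1.1)
  have hw' : (TT θ p x).1 ∈ DD θ n := hrefl _
  obtain ⟨hn', -, -, -, -, hw0'⟩ := DD_ops hz g hw'
  -- the exit point of the image
  have hout' : Out p (nx θ p (ltr θ p x) (XX p x.1 x.2, x.1)).1 (TT θ p x).1 := hout
  obtain ⟨ho1, ho2, hXX⟩ := out_unique hp hn' hw0' hout'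
  have e2 : (TT θ p x).2 = crs (TT θ p x).1 (nx θ p (ltr θ p x) (XX p x.1 x.2, x.1)).1 := rfl
  rw [← e2] at ho1 ho2 hXX
  -- facing vertices
  obtain ⟨i, hi0, hi1, -, -⟩ := facing hw0
  obtain ⟨i', hi0', hi1', -, -⟩ := facing hw0'
  obtain ⟨-, -, -, -, hE, -, -, -, -, -, -, -⟩ := exit_pt hp hw1 hi0 hi1
  obtain ⟨-, -, -, -, hE', -, -, -, hEa', hEb', -, -⟩ := exit_pt hp hn' hi0' hi1'
  obtain ⟨-, hc, hd, -, -, -⟩ := hE x.2 hx.1.2.1.le hx.1.2.2.le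
  obtain ⟨-, hc', hd', -, -, -⟩ := hE' (TT θ p x).2 ho1 ho2
  have hopen : ∀ j, j ≠ (ltr θ p x).2 →
      dot (nx θ p (ltr θ p x) (XX p x.1 x.2, x.1)).1 (nu p j) < p.2 j := hg.2.2.2
  have hlt1 : oa p (TT θ p x).1 < (TT θ p x).2 := by
    rcases ho1.lt_or_eq with h | h
    · exact h
    · exfalso
      rw [← h, hEa'] at hXX
      exact vtx_two_sides hopen hXX.symm
  have hlt2 : (TT θ p x).2 < ob p (TT θ p x).1 := by
    rcases ho2.lt_or_eq with h | h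
    · exact h
    · exfalso
      rw [h, hEb'] at hXX
      exact vtx_two_sides hopen hXX.symm
  have hnx1 : (nx θ p (ltr θ p x) (XX p x.1 x.2, x.1)).1 =
      act (ltr θ p x).1.1 (XX p x.1 x.2 + (fl θ p (ltr θ p x) (XX p x.1 x.2, x.1) : ℂ) * x.1 -
        lat θ (ltr θ p x).1.2) := rfl
  have hww : dot x.1 x.1 = 1 := by rw [dot_self, hw1]; norm_num
  -- abbreviations
  have hdw : dot (act (ltr θ p x).1.1 x.1) (nu p (ltr θ p x).2) =
      -dot (TT θ p x).1 (nu p (ltr θ p x).2) := by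
    rw [TT_fst, dot_refl_nu, neg_neg]
  have hrx : refl p (ltr θ p x).2 (nx θ p (ltr θ p x) (XX p x.1 x.2, x.1)).1 =
      (nx θ p (ltr θ p x) (XX p x.1 x.2, x.1)).1 -
        ((2 * p.2 (ltr θ p x).2 : ℝ) : ℂ) * nu p (ltr θ p x).2 := by
    unfold refl; rw [hland]
  refine ⟨⟨hw', hlt1, hlt2⟩, ?_, ?_, ?_⟩
  · have h1 : crs (TT θ p x).1 (nx θ p (ltr θ p x) (XX p x.1 x.2, x.1)).1 =
        -crs (act (ltr θ p x).1.1 x.1)
          (refl p (ltr θ p x).2 (nx θ p (ltr θ p x) (XX p x.1 x.2, x.1)).1) := by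
      rw [← crs_refl p (ltr θ p x).2, refl_refl]; rfl
    have h2 : crs (act (ltr θ p x).1.1 x.1) (nx θ p (ltr θ p x) (XX p x.1 x.2, x.1)).1 =
        sdet (ltr θ p x).1.1 * (x.2 - crs x.1 (lat θ (ltr θ p x).1.2)) := by
      rw [hnx1, crs_act, crs_sub_right, crs_add_right, crs_mul_right, crs_self, hc]; ring
    have h3 : crs (act (ltr θ p x).1.1 x.1) (nu p (ltr θ p x).2) =
        crs (TT θ p x).1 (nu p (ltr θ p x).2) := by
      rw [TT_fst, refl_crs_nu]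
    rw [e2, h1, hrx, crs_sub_right, crs_mul_right, h2, h3]; ring
  · rw [hXX]; rfl
  · have h1 : dot (TT θ p x).1 (nx θ p (ltr θ p x) (XX p x.1 x.2, x.1)).1 =
        dot (act (ltr θ p x).1.1 x.1)
          (refl p (ltr θ p x).2 (nx θ p (ltr θ p x) (XX p x.1 x.2, x.1)).1) := by
      rw [TT_fst, dot_refl_left]
    have h2 : dot (act (ltr θ p x).1.1 x.1) (nx θ p (ltr θ p x) (XX p x.1 x.2, x.1)).1 =
        be p x.1 x.2 + fl θ p (ltr θ p x) (XX p x.1 x.2, x.1) -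
          dot x.1 (lat θ (ltr θ p x).1.2) := by
      rw [hnx1, dot_act, dot_sub_right, dot_add_right, dot_mul_right, hww, hd]; ring
    rw [hXX] at hd'
    rw [hrx, dot_sub_right, dot_mul_right, h2, hdw, hd'] at h1
    unfold ff
    rw [dot_comm (lat θ (ltr θ p x).1.2) x.1, dot_comm (nu p (ltr θ p x).2) (TT θ p x).1]
    linarith

end S5

open S5 in
/-- [S5] the section map is a local isometry. -/
theorem TT_loc {θ : ℝ} (hθ : |θ - Real.pi / 4| < 1 / 100) (hz : Transcendental ℚ (zz θ))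
    {p : Par} (hp : p ∈ Pi0) {n : ℕ} (g : Gen θ p n) {x : ℂ × ℝ} (hx : x ∈ SS θ p n \ SA θ p n) :
    TT θ p x ∈ SS θ p n ∧
    (∀ᶠ t in 𝓝 (0 : ℝ), (x.1, x.2 + t) ∈ SS θ p n \ SA θ p n ∧
      ltr θ p (x.1, x.2 + t) = ltr θ p x ∧
      TT θ p (x.1, x.2 + t) = ((TT θ p x).1, (TT θ p x).2 - sdet (ltr θ p x).1.1 * t)) ∧
    (TT θ p x).2 = -sdet (ltr θ p x).1.1 * (x.2 - crs x.1 (lat θ (ltr θ p x).1.2)) +
      2 * p.2 (ltr θ p x).2 * crs (TT θ p x).1 (nu p (ltr θ p x).2) ∧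
    (TT θ p x).1 = refl p (ltr θ p x).2 (act (ltr θ p x).1.1 x.1) ∧
    nx θ p (ltr θ p x) (XX p x.1 x.2, x.1) = (XX p (TT θ p x).1 (TT θ p x).2, (TT θ p x).1) ∧
    fl θ p (ltr θ p x) (XX p x.1 x.2, x.1) =
      be p (TT θ p x).1 (TT θ p x).2 - be p x.1 x.2 + ff θ p x := by
  obtain ⟨hS, hf2, hnx, hfl⟩ := TT_main hz hp g hx
  refine ⟨hS, ?_, hf2, TT_fst x, hnx, hfl⟩
  have hg := ltr_good hx
  obtain ⟨hw1, -, -, -, -, hw0⟩ := DD_ops hz g hx.1.1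
  obtain ⟨i, hi0, hi1, -, -⟩ := facing hw0
  obtain ⟨-, -, -, -, hE, -, -, -, -, -, hcont, -⟩ := exit_pt hp hw1 hi0 hi1
  obtain ⟨-, -, -, hout, -, -⟩ := hE x.2 hx.1.2.1.le hx.1.2.2.le
  have hcat : ContinuousAt (fun o => XX p x.1 o) x.2 :=
    hcont.continuousAt (Icc_mem_nhds hx.1.2.1 hx.1.2.2)
  have hadd : Tendsto (fun t : ℝ => x.2 + t) (𝓝 0) (𝓝 x.2) := by
    have : Tendsto (fun t : ℝ => x.2 + t) (𝓝 0) (𝓝 (x.2 + 0)) :=
      (continuous_const.add continuous_id).tendsto 0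
    simpa using this
  have hXt : Tendsto (fun t : ℝ => XX p x.1 (x.2 + t)) (𝓝 0) (𝓝 (XX p x.1 x.2)) :=
    hcat.tendsto.comp hadd
  have hq : Tendsto (fun t : ℝ => (p, (XX p x.1 (x.2 + t), x.1))) (𝓝 0)
      (𝓝 (p, (XX p x.1 x.2, x.1))) := by
    exact tendsto_const_nhds.prodMk_nhds (hXt.prodMk_nhds tendsto_const_nhds)
  obtain ⟨hop, -, -⟩ := good_open hθ hp (z := (XX p x.1 x.2, x.1)) (Or.inl hout) hg
  have hev := hq.eventually hop
  have hI : ∀ᶠ t in 𝓝 (0 : ℝ), x.2 + t ∈ Ioo (oa p x.1) (ob p x.1) :=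
    hadd.eventually (Ioo_mem_nhds hx.1.2.1 hx.1.2.2)
  filter_upwards [hev, hI] with t ht hIt
  obtain ⟨-, -, -, houtt, -, -⟩ := hE (x.2 + t) hIt.1.le hIt.2.le
  have hgt : Good θ p (ltr θ p x) (XX p x.1 (x.2 + t), x.1) := ht (Or.inl houtt)
  have hSt : ((x.1, x.2 + t) : ℂ × ℝ) ∈ SS θ p n := ⟨hx.1.1, hIt.1, hIt.2⟩
  obtain ⟨hSA, hl⟩ := ltr_eq hθ hp hSt hgt
  refine ⟨hSA, hl, ?_⟩
  obtain ⟨-, hf2t, -, -⟩ := TT_main hz hp g hSA
  have h1 : (TT θ p (x.1, x.2 + t)).1 = (TT θ p x).1 := by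
    rw [TT_fst, TT_fst, hl]
  apply Prod.ext
  · exact h1
  · rw [hf2t, h1, hl]
    change _ = (TT θ p x).2 - sdet (ltr θ p x).1.1 * t
    rw [hf2]
    ring

end TMX
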