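import Pool.Agent.TMX.A4
import Pool.Agent.TMX.Basic
import Pool.Agent.TMX.G2
import Pool.Agent.TMX.S1
import Pool.Agent.TMX.S5

/-! # TMX: injectivity of the section map -/

set_option autoImplicit false

open Set Filter Topology

namespace TMX

private theorem S6_good {θ : ℝ} {p : Par} {n : ℕ} {x : ℂ × ℝ} (hx : x ∈ SS θ p n \ SA θ p n) :
    Good θ p (ltr θ p x) (XX p x.1 x.2, x.1) := by
  have h : ∃ a, Good θ p a (XX p x.1 x.2, x.1) := by
    by_contra hcon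
    apply hx.2
    exact ⟨hx.1, fun a ha => hcon ⟨a, ha⟩⟩
  unfold ltr
  rw [dif_pos h]
  exact h.choose_spec

/-- The reversed leg in the frame of the landing point. -/
private theorem S6_back {θ : ℝ} {p : Par} {a : Lt} {X w : ℂ} (hX : X ∈ Q p)
    (h : Good θ p a (X, w)) :
    FreeSeg θ p (nx θ p a (X, w)).1 (-act a.1.1 w) (fl θ p a (X, w)) ∧
      (nx θ p a (X, w)).1 + (fl θ p a (X, w) : ℂ) * (-act a.1.1 w) ∈ obs θ p (inv a.1) ∧
      (nx θ p a (X, w)).1 + (fl θ p a (X, w) : ℂ) * (-act a.1.1 w) = frm θ a.1 X := by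
  obtain ⟨-, h2, h3, -⟩ := h
  have e : ∀ s : ℝ, (nx θ p a (X, w)).1 + (s : ℂ) * (-act a.1.1 w) =
      frm θ a.1 (X + ((fl θ p a (X, w) - s : ℝ) : ℂ) * w) := by
    intro s
    simp only [nx]
    rw [frm_ray, frm_ray]
    push_cast
    ring
  have e0 : (nx θ p a (X, w)).1 + (fl θ p a (X, w) : ℂ) * (-act a.1.1 w) = frm θ a.1 X := by
    rw [e, sub_self]
    simp
  refine ⟨?_, ?_, e0⟩
  · intro s h0 h1 c
    rw [e]
    exact (fre_frm θ p a.1 _).mpr
      (fun c' => h3 (fl θ p a (X, w) - s) (by linarith) (by linarith) c') c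
  · rw [e0]
    change frm θ (inv a.1) (frm θ a.1 X) ∈ Q p
    rw [frm_inv]
    exact hX

private theorem S6_inv_inj {c c' : Cp} (h : inv c = inv c') : c = c' := by
  rw [← inv_inv c, h, inv_inv]

private theorem S6_XX {p : Par} {w : ℂ} (hw : ‖w‖ = 1) (o : ℝ) : crs w (XX p w o) = o := by
  have h : w.re * w.re + w.im * w.im = 1 := by
    have := dot_self w
    rw [hw] at this
    simpa [dot] using this
  unfold XX
  simp only [crs, Complex.mul_re, Complex.add_re, Complex.add_im, Complex.mul_im,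
      Complex.ofReal_re, Complex.ofReal_im, Complex.I_re, Complex.I_im]
  linear_combination o * h

/-- [S6] injectivity. -/
theorem TT_inj {θ : ℝ} (hθ : |θ - Real.pi / 4| < 1 / 100) (hz : Transcendental ℚ (zz θ))
    {p : Par} (hp : p ∈ Pi0) {n : ℕ} (g : Gen θ p n) :
    InjOn (TT θ p) (SS θ p n \ SA θ p n) := by
  intro x hx y hy hxy
  have key : ∀ x ∈ SS θ p n \ SA θ p n, ‖x.1‖ = 1 ∧ XX p x.1 x.2 ∈ Q p := by
    intro x hx
    obtain ⟨hn, -, -, -, -, hd⟩ := DD_ops hz g hx.1.1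
    obtain ⟨i, h0, h1, -, -⟩ := facing hd
    obtain ⟨-, -, -, -, h5, -⟩ := exit_pt hp hn h0 h1
    exact ⟨hn, (h5 x.2 hx.1.2.1.le hx.1.2.2.le).1⟩
  obtain ⟨hnx, hQx⟩ := key x hx
  obtain ⟨hny, hQy⟩ := key y hy
  have gx := S6_good hx
  have gy := S6_good hy
  obtain ⟨-, -, -, hx4, hx5, -⟩ := TT_loc hθ hz hp g hx
  obtain ⟨-, -, -, hy4, hy5, -⟩ := TT_loc hθ hz hp g hy
  have hnn : nx θ p (ltr θ p x) (XX p x.1 x.2, x.1) = nx θ p (ltr θ p y) (XX p y.1 y.2, y.1) := by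
    rw [hx5, hy5, hxy]
  obtain ⟨bx1, bx2, bx3⟩ := S6_back hQx gx
  obtain ⟨by1, by2, by3⟩ := S6_back hQy gy
  generalize ltr θ p x = a at *
  generalize ltr θ p y = a' at *
  -- the sides are equal
  have hs : a.2 = a'.2 := by
    by_contra hne
    have h1 := gy.2.2.2 a.2 hne
    rw [← hnn, dot_land (ne_of_lt gx.1)] at h1
    exact lt_irrefl _ h1
  -- the incoming directions are equal
  have hv : act a.1.1 x.1 = act a'.1.1 y.1 := by
    have h1 := congrArg Prod.snd hnn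
    simp only [nx] at h1
    rw [hs] at h1
    rw [← refl_refl p a'.2 (act a.1.1 x.1), h1, refl_refl]
  rw [← hnn, ← hv] at by1 by2 by3
  obtain ⟨ht, hc⟩ := touch_unique hθ hp gx.2.1 gy.2.1 bx1 by1 bx2 by2
  have hc' : a.1 = a'.1 := S6_inv_inj hc
  have hw : x.1 = y.1 := by
    rw [← act_self a.1.1 x.1, hv, hc', act_self]
  have hX : XX p x.1 x.2 = XX p y.1 y.2 := by
    have h1 : frm θ a.1 (XX p x.1 x.2) = frm θ a.1 (XX p y.1 y.2) := by
      rw [← bx3, ht, by3, hc']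
    rw [← frm_inv θ a.1 (XX p x.1 x.2), h1, frm_inv]
  apply Prod.ext hw
  rw [← S6_XX (p := p) hnx x.2, ← S6_XX (p := p) hny y.2, hX, hw]

end TMX
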