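import Pool.Agent.TMX.A4
import Pool.Agent.TMX.Basic
import Pool.Agent.TMX.G2
import Pool.Agent.TMX.S1
import Pool.Agent.TMX.S2
import Pool.Agent.TMX.S3

/-! # TMX, S7: the points that are not in the image of the section map -/

set_option autoImplicit false

open Set Filter Topology

namespace TMX

/-- the facing vertex of a direction of `DD` -/
private theorem s7_face {θ : ℝ} (hz : Transcendental ℚ (zz θ)) {p : Par} {n : ℕ} (g : Gen θ p n) {w : ℂ}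
    (hw : w ∈ DD θ n) : ∃ i : Fin 4, 0 < dot w (nu p i) ∧ 0 < dot w (nu p (i + 1)) := by
  obtain ⟨i, h0, h1, -, -⟩ := facing (DD_ops hz g hw).2.2.2.2.2
  exact ⟨i, h0, h1⟩

/-- a point of an open side is not a vertex -/
private theorem s7_not_vtx {p : Par} {Z : ℂ} {s : Fin 4} (hj : ∀ j, j ≠ s → dot Z (nu p j) < p.2 j) (k : Fin 4) :
    Z ≠ vtx p k := by
  intro h
  by_cases hk : k = s
  · have h2 : ∀ k : Fin 4, k + 1 ≠ k := by decide
    have h1 : k + 1 ≠ s := by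
      rw [← hk]
      exact h2 k
    have := hj (k + 1) h1
    rw [h, dot_vtx_succ] at this
    exact lt_irrefl _ this
  · have := hj k hk
    rw [h, dot_vtx_self] at this
    exact lt_irrefl _ this

/-- the image of a state that is given by a position and a letter -/
private theorem s7_TT {θ : ℝ} (hθ : |θ - Real.pi / 4| < 1 / 100) {p : Par} (hp : p ∈ Pi0) {a : Lt} {x : ℂ × ℝ}
    (h : Good θ p a (XX p x.1 x.2, x.1)) : ltr θ p x = a ∧
    TT θ p x = ((nx θ p a (XX p x.1 x.2, x.1)).2, crs (nx θ p a (XX p x.1 x.2, x.1)).2 (nx θ p a (XX p x.1 x.2, x.1)).1) := by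
  have h1 : ltr θ p x = a := by
    unfold ltr
    have h2 : ∃ a, Good θ p a (XX p x.1 x.2, x.1) := ⟨a, h⟩
    rw [dif_pos h2]
    exact good_unique hθ hp h2.choose_spec h
  refine ⟨h1, ?_⟩
  unfold TT
  rw [h1]

/-- [S7] points that are not in the image: facing vertices and landing points of rays from
extreme vertices. -/
theorem SB_cases {θ : ℝ} (hθ : |θ - Real.pi / 4| < 1 / 100) (hz : Transcendental ℚ (zz θ))
    {p : Par} (hp : p ∈ Pi0) {n : ℕ} (g : Gen θ p n) {y : ℂ × ℝ} (hy : y ∈ SB θ p n) :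
    (∃ i : Fin 4, 0 < dot y.1 (nu p i) ∧ 0 < dot y.1 (nu p (i + 1)) ∧ y.2 = crs y.1 (vtx p i)) ∨
    ∃ (i : Fin 4) (w : ℂ) (a : Lt), w ∈ DD θ n ∧
      ¬ (dot w (nu p i) < 0 ∧ dot w (nu p (i + 1)) < 0) ∧
      ¬ (0 < dot w (nu p i) ∧ 0 < dot w (nu p (i + 1))) ∧
      Good θ p a (vtx p i, w) ∧ nx θ p a (vtx p i, w) = (XX p y.1 y.2, y.1) := by
  obtain ⟨⟨hyD, hya, hyb⟩, hyT⟩ := hy
  obtain ⟨i, h0, h1⟩ := s7_face hz g hyD
  have hops := DD_ops hz g hyD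
  obtain ⟨e1, e2, e3, e4, e5, e6, e7, e8, e9, e10, -, -⟩ := exit_pt hp hops.1 h0 h1
  rcases eq_or_ne y.2 (crs y.1 (vtx p i)) with hne | hne
  · exact Or.inl ⟨i, h0, h1, hne⟩
  right
  obtain ⟨f1, f2, f3, f4, f5, f6⟩ := e5 y.2 hya.le hyb.le
  -- the open side
  obtain ⟨s, hX1, hXj, hws⟩ : ∃ s : Fin 4, dot (XX p y.1 y.2) (nu p s) = p.2 s ∧
      (∀ j, j ≠ s → dot (XX p y.1 y.2) (nu p j) < p.2 j) ∧ 0 < dot y.1 (nu p s) := by
    rcases lt_or_gt_of_ne hne with h | h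
    · exact ⟨i, f5 h.le, e6 y.2 hya h, h0⟩
    · exact ⟨i + 1, f6 h.le, e7 y.2 h hyb, h1⟩
  obtain ⟨X, hX⟩ : ∃ X, X = XX p y.1 y.2 := ⟨_, rfl⟩
  rw [← hX] at f1 f2 hX1 hXj
  obtain ⟨v, hv⟩ : ∃ v, v = -refl p s y.1 := ⟨_, rfl⟩
  have hvD : v ∈ DD θ n := by
    rw [hv]
    exact (DD_ops hz g (hops.2.2.2.2.1 s)).2.1
  have hvops := DD_ops hz g hvD
  have hvs : 0 < dot v (nu p s) := by
    rw [hv, dot_neg_left, dot_refl_nu, neg_neg]
    exact hws
  have hout : Out p X v := ⟨f1, s, hX1, hvs⟩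
  have hback : -refl p s v = y.1 := by
    rw [hv, refl_neg, refl_refl, neg_neg]
  obtain ⟨L, hL⟩ := bounded hθ hz hp g
  obtain ⟨t₀, ht1, htL, c₀, hc₀⟩ := hL v hvD X (Or.inl hout)
  have hft := first_touch hθ hp (x := X) (w := v) hvops.1
    (fun d j => (DD_ops hz g (hvops.2.2.2.1 d)).2.2.2.2.2 j) (Or.inl hout) (L := L) ⟨t₀, by linarith, htL, c₀, hc₀⟩
  -- a preimage gives a contradiction
  have hpre : ∀ (c : Cp) (t : ℝ), 0 < t → FreeSeg θ p X v t → ∀ u : ℂ, u = -act c.1 v →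
      oa p u < crs u (frm θ c (X + (t : ℂ) * v)) → crs u (frm θ c (X + (t : ℂ) * v)) < ob p u →
      XX p u (crs u (frm θ c (X + (t : ℂ) * v))) = frm θ c (X + (t : ℂ) * v) → False := by
    intro c t ht hf u hu ha hb hXX
    obtain ⟨r1, r2, r3⟩ := rev_leg hX1 hXj hvs c ht hf
    have huD : u ∈ DD θ n := by
      rw [hu]
      exact (DD_ops hz g (hvops.2.2.2.1 c.1)).2.1
    rw [← hu] at r1 r3
    obtain ⟨x', hx'⟩ : ∃ x' : ℂ × ℝ, x' = (u, crs u (frm θ c (X + (t : ℂ) * v))) := ⟨_, rfl⟩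
    have hx1 : XX p x'.1 x'.2 = frm θ c (X + (t : ℂ) * v) := by rw [hx']; exact hXX
    have hx2 : x'.1 = u := by rw [hx']
    have hG : Good θ p (inv c, s) (XX p x'.1 x'.2, x'.1) := by
      rw [hx1, hx2]
      exact r1
    have hS : x' ∈ SS θ p n := by
      rw [hx']
      exact ⟨huD, ha, hb⟩
    have hA : x' ∉ SA θ p n := fun h => h.2 _ hG
    have hT := (s7_TT hθ hp hG).2
    apply hyT
    refine ⟨x', ⟨hS, hA⟩, ?_⟩
    rw [hT, hx1, hx2, r3, hback]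
    show (y.1, crs y.1 X) = y
    rw [f2]
  rcases hft with ⟨a, ha, -⟩ | ⟨c, t, j, ht, -, hf, hvt, harr⟩
  · exfalso
    obtain ⟨g1, g2, g3, g4⟩ := id ha
    have hno := nx_out hp ha
    have hZ : (nx θ p a (X, v)).1 = frm θ a.1 (X + (fl θ p a (X, v) : ℂ) * v) := rfl
    rw [hZ] at g4 hno
    obtain ⟨Z, hZ'⟩ : ∃ Z, Z = frm θ a.1 (X + (fl θ p a (X, v) : ℂ) * v) := ⟨_, rfl⟩
    rw [← hZ'] at g4 hno
    obtain ⟨u, hu⟩ : ∃ u, u = -act a.1.1 v := ⟨_, rfl⟩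
    have huD : u ∈ DD θ n := by
      rw [hu]
      exact (DD_ops hz g (hvops.2.2.2.1 a.1.1)).2.1
    have huops := DD_ops hz g huD
    have hus : 0 < dot u (nu p a.2) := by
      rw [hu, dot_neg_left]
      have : dot (act a.1.1 v) (nu p a.2) < 0 := g1
      linarith
    have hZout : Out p Z u := ⟨hno.1.1, a.2, hno.2.1, hus⟩
    obtain ⟨k1, k2, k3⟩ := out_unique hp huops.1 huops.2.2.2.2.2 hZout
    obtain ⟨i', h0', h1'⟩ := s7_face hz g huD
    obtain ⟨-, -, -, -, -, -, -, -, e9', e10', -, -⟩ := exit_pt hp huops.1 h0' h1'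
    have k4 : oa p u < crs u Z := by
      refine lt_of_le_of_ne k1 fun h => ?_
      rw [← h, e9'] at k3
      exact s7_not_vtx g4 (i' + 3) k3.symm
    have k5 : crs u Z < ob p u := by
      refine lt_of_le_of_ne k2 fun h => ?_
      rw [h, e10'] at k3
      exact s7_not_vtx g4 (i' + 1) k3.symm
    have g2' : 0 < fl θ p a (X, v) := g2
    refine hpre a.1 (fl θ p a (X, v)) g2' g3 u hu ?_ ?_ ?_
    · rw [← hZ']; exact k4
    · rw [← hZ']; exact k5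
    · rw [← hZ']; exact k3
  · obtain ⟨u, hu⟩ : ∃ u, u = -act c.1 v := ⟨_, rfl⟩
    have huD : u ∈ DD θ n := by
      rw [hu]
      exact (DD_ops hz g (hvops.2.2.2.1 c.1)).2.1
    have huops := DD_ops hz g huD
    obtain ⟨r1, r2, r3⟩ := rev_leg hX1 hXj hvs c ht hf
    rw [← hu, hvt] at r1 r3
    refine ⟨j, u, (inv c, s), huD, ?_, ?_, r1, ?_⟩
    · rintro ⟨h2, h3⟩
      rw [hu, dot_neg_left] at h2 h3
      exact harr ⟨by linarith, by linarith⟩
    · rintro ⟨h2, h3⟩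
      obtain ⟨-, -, e3', e4', -, -, -, e8', -, -, -, -⟩ := exit_pt hp huops.1 h2 h3
      exact hpre c t ht hf u hu (by rw [hvt]; exact e3') (by rw [hvt]; exact e4') (by rw [hvt]; exact e8')
    · rw [r3, hback, hX]

theorem finB {θ : ℝ} (hθ : |θ - Real.pi / 4| < 1 / 100) (hz : Transcendental ℚ (zz θ))
    {p : Par} (hp : p ∈ Pi0) {n : ℕ} (g : Gen θ p n) : (SB θ p n).Finite := by
  classical
  obtain ⟨F, hF⟩ : ∃ F : Fin 4 × ℂ → ℂ × ℝ, F = fun q => if h : ∃ a, Good θ p a (vtx p q.1, q.2) then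
      ((nx θ p h.choose (vtx p q.1, q.2)).2, crs (nx θ p h.choose (vtx p q.1, q.2)).2 (nx θ p h.choose (vtx p q.1, q.2)).1)
      else (0, 0) := ⟨_, rfl⟩
  have hD : (DD θ n).Finite := DD_finite θ n
  have hfin : ((fun q : Fin 4 × ℂ => ((q.2, crs q.2 (vtx p q.1)) : ℂ × ℝ)) '' (univ ×ˢ DD θ n) ∪
      F '' (univ ×ˢ DD θ n)).Finite :=
    ((finite_univ.prod hD).image _).union ((finite_univ.prod hD).image _)
  refine hfin.subset fun y hy => ?_
  have hyS := hy.1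
  rcases SB_cases hθ hz hp g hy with ⟨i, h0, h1, h2⟩ | ⟨i, w, a, hw, -, -, ha, hnx⟩
  · left
    refine ⟨(i, y.1), ⟨mem_univ _, hyS.1⟩, ?_⟩
    show (y.1, crs y.1 (vtx p i)) = y
    rw [← h2]
  · right
    refine ⟨(i, w), ⟨mem_univ _, hw⟩, ?_⟩
    rw [hF]
    have h : ∃ a, Good θ p a (vtx p i, w) := ⟨a, ha⟩
    have hch : h.choose = a := good_unique hθ hp h.choose_spec ha
    show (if h : ∃ a, Good θ p a (vtx p i, w) then
      ((nx θ p h.choose (vtx p i, w)).2, crs (nx θ p h.choose (vtx p i, w)).2 (nx θ p h.choose (vtx p i, w)).1)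
      else (0, 0)) = y
    rw [dif_pos h, hch, hnx]
    obtain ⟨i', h0', h1'⟩ := s7_face hz g hyS.1
    have hops := DD_ops hz g hyS.1
    obtain ⟨-, -, -, -, e5, -⟩ := exit_pt hp hops.1 h0' h1'
    obtain ⟨-, f2, -⟩ := e5 y.2 hyS.2.1.le hyS.2.2.le
    show (y.1, crs y.1 (XX p y.1 y.2)) = y
    rw [f2]

end TMX
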