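import Pool.Agent.TMX.Basic
import Pool.Agent.TMX.S5

set_option autoImplicit false

open Set Filter Topology

namespace TMX

/-- the letter of a state outside `SA` is good -/
theorem s8_good {θ : ℝ} {p : Par} {n : ℕ} {x : ℂ × ℝ} (hx : x ∈ SS θ p n) (hA : x ∉ SA θ p n) :
    Good θ p (ltr θ p x) (XX p x.1 x.2, x.1) := by
  have h : ∃ a, Good θ p a (XX p x.1 x.2, x.1) := by
    by_contra hne
    exact hA ⟨hx, fun a ha => hne ⟨a, ha⟩⟩
  unfold ltr
  rw [dif_pos h]
  exact h.choose_spec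

/-- [S8] finite orbits of the section are paths. -/
theorem iter_run {θ : ℝ} (hθ : |θ - Real.pi / 4| < 1 / 100) (hz : Transcendental ℚ (zz θ))
    {p : Par} (hp : p ∈ Pi0) {n : ℕ} (g : Gen θ p n) {x : ℂ × ℝ} (hx : x ∈ SS θ p n) (m : ℕ)
    (hm : ∀ k < m, (TT θ p)^[k] x ∉ SA θ p n) :
    ∃ l : List Lt, l.length = m ∧ GoodL θ p l (XX p x.1 x.2, x.1) ∧
      run θ p l (XX p x.1 x.2, x.1) =
        (XX p ((TT θ p)^[m] x).1 ((TT θ p)^[m] x).2, ((TT θ p)^[m] x).1) ∧
      (TT θ p)^[m] x ∈ SS θ p n ∧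
      tim θ p l (XX p x.1 x.2, x.1) =
        be p ((TT θ p)^[m] x).1 ((TT θ p)^[m] x).2 - be p x.1 x.2 +
          ∑ k ∈ Finset.range m, ff θ p ((TT θ p)^[k] x) := by
  induction m generalizing x with
  | zero =>
    refine ⟨[], rfl, trivial, rfl, hx, ?_⟩
    rw [Function.iterate_zero, id_eq, Finset.range_zero, Finset.sum_empty, sub_self, add_zero]
    rfl
  | succ m ih =>
    have h0 : x ∉ SA θ p n := by
      have := hm 0 (Nat.succ_pos m)
      rwa [Function.iterate_zero, id_eq] at this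
    obtain ⟨h1, -, -, -, hnx, hfl⟩ := TT_loc hθ hz hp g ⟨hx, h0⟩
    obtain ⟨l, hl, hgl, hrun, hmem, htim⟩ := ih h1 (fun k hk => by
      have := hm (k + 1) (by omega)
      rwa [Function.iterate_succ_apply] at this)
    refine ⟨ltr θ p x :: l, by rw [List.length_cons, hl], ⟨s8_good hx h0, ?_⟩, ?_, ?_, ?_⟩
    · rw [hnx]
      exact hgl
    · change run θ p l (nx θ p (ltr θ p x) (XX p x.1 x.2, x.1)) = _
      rw [hnx, hrun, Function.iterate_succ_apply]
    · rw [Function.iterate_succ_apply]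
      exact hmem
    · change fl θ p (ltr θ p x) (XX p x.1 x.2, x.1) + tim θ p l (nx θ p (ltr θ p x) (XX p x.1 x.2, x.1)) = _
      rw [hnx, htim, hfl, Finset.sum_range_succ', Function.iterate_zero, id_eq, Function.iterate_succ_apply]
      simp only [Function.iterate_succ_apply]
      ring

end TMX
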