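import Pool.Agent.TMX.A3b
import Pool.Agent.TMX.A4
import Pool.Agent.TMX.Basic
import Pool.Agent.TMX.G2
import Pool.Agent.TMX.S1
import Pool.Agent.TMX.S2
import Pool.Agent.TMX.S3
import Pool.Agent.TMX.S7
import Pool.Agent.TMX.S8

/-! # TMX [S9]: no connections; the exceptional set is not empty -/

set_option autoImplicit false

open Set Filter Topology

namespace TMX

/-- A vertex is on two sides. -/
theorem s9_vtx_two (p : Par) (k b : Fin 4) {x : ℂ} (hx : x = vtx p k)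
    (h : ∀ j, j ≠ b → dot x (nu p j) < p.2 j) : False := by
  subst hx
  by_cases hb : k = b
  · have hne : k + 1 ≠ b := by
      rw [← hb]
      have e : ∀ k : Fin 4, k + 1 ≠ k := by decide
      exact e k
    have := h (k + 1) hne
    rw [dot_vtx_succ] at this
    exact lt_irrefl _ this
  · have := h k hb
    rw [dot_vtx_self] at this
    exact lt_irrefl _ this

/-- A state of the exceptional set runs into a vertex. -/
theorem s9_SA {θ : ℝ} (hθ : |θ - Real.pi / 4| < 1 / 100) (hz : Transcendental ℚ (zz θ))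
    {p : Par} (hp : p ∈ Pi0) {n : ℕ} (g : Gen θ p n) {z : ℂ × ℝ} (h : z ∈ SA θ p n) :
    ∃ (c : Cp) (t : ℝ) (j : Fin 4), 0 < t ∧
      frm θ c (XX p z.1 z.2 + t * z.1) = vtx p j ∧
      ¬ (0 < dot (act c.1 z.1) (nu p j) ∧ 0 < dot (act c.1 z.1) (nu p (j + 1))) := by
  obtain ⟨hS, hA⟩ := h
  obtain ⟨hD, h1, h2⟩ := hS
  obtain ⟨hn, -, -, hact, -, hne⟩ := DD_ops hz g hD
  obtain ⟨i, hi0, hi1, -, -⟩ := facing hne
  obtain ⟨-, -, -, -, hX, -⟩ := exit_pt hp hn hi0 hi1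
  obtain ⟨hXQ, -, -, hout, -, -⟩ := hX z.2 h1.le h2.le
  obtain ⟨L, hL⟩ := bounded hθ hz hp g
  obtain ⟨t, ht1, htL, c, hc⟩ := hL z.1 hD (XX p z.1 z.2) (Or.inl hout)
  have hne' : ∀ d j, dot (act d z.1) (nu p j) ≠ 0 := fun d j =>
    (DD_ops hz g (hact d)).2.2.2.2.2 j
  rcases first_touch hθ hp hn hne' (Or.inl hout)
    (L := L) ⟨t, by linarith, htL, c, hc⟩ with ⟨a, ha, -⟩ | ⟨c', t', j, ht', -, -, he, hr⟩
  · exact absurd ha (hA a)
  · exact ⟨c', t', j, ht', he, hr⟩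

theorem SB_nc {θ : ℝ} (hθ : |θ - Real.pi / 4| < 1 / 100) (hz : Transcendental ℚ (zz θ))
    {p : Par} (hp : p ∈ Pi0) {n : ℕ} (g : Gen θ p n) {y : ℂ × ℝ} (hy : y ∈ SB θ p n) (m : ℕ) :
    (TT θ p)^[m] y ∉ SA θ p n := by
  classical
  intro hm0
  have hex : ∃ m, (TT θ p)^[m] y ∈ SA θ p n := ⟨m, hm0⟩
  obtain ⟨m, hm, hmin⟩ : ∃ m, (TT θ p)^[m] y ∈ SA θ p n ∧
      ∀ k < m, (TT θ p)^[k] y ∉ SA θ p n :=
    ⟨Nat.find hex, Nat.find_spec hex, fun k hk => Nat.find_min hex hk⟩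
  have hyS : y ∈ SS θ p n := hy.1
  obtain ⟨l, -, hgl, hrun, -, -⟩ := iter_run hθ hz hp g hyS m hmin
  obtain ⟨c, t, j, ht, hend, harr⟩ := s9_SA hθ hz hp g hm
  have hend' : frm θ c ((run θ p l (XX p y.1 y.2, y.1)).1 +
      t * (run θ p l (XX p y.1 y.2, y.1)).2) = vtx p j := by
    rw [hrun]; exact hend
  have harr' : ¬ (0 < dot (act c.1 (run θ p l (XX p y.1 y.2, y.1)).2) (nu p j) ∧
      0 < dot (act c.1 (run θ p l (XX p y.1 y.2, y.1)).2) (nu p (j + 1))) := by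
    rw [hrun]; exact harr
  obtain ⟨hn, -, -, -, -, hne⟩ := DD_ops hz g hyS.1
  rcases SB_cases hθ hz hp g hy with ⟨i, h0, h1, hy2⟩ | ⟨i, w, a, hw, hs, -, hga, hnx⟩
  · have hX : XX p y.1 y.2 = vtx p i := by
      rw [hy2]
      exact (exit_pt hp hn h0 h1).2.2.2.2.2.2.2.1
    rw [hX] at hgl hend' harr'
    obtain ⟨hl, hc1, hji, -, -⟩ := nosc hθ hz hp g hyS.1
      (i := i) (fun h => absurd h.1 (not_lt.mpr h0.le)) hgl ht hend' harr'
    subst hl
    apply harr'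
    rw [hc1, hji]
    simp only [run, act_one]
    exact ⟨h0, h1⟩
  · have hgl' : GoodL θ p (a :: l) (vtx p i, w) := by
      refine ⟨hga, ?_⟩
      rw [hnx]; exact hgl
    have hrun' : run θ p (a :: l) (vtx p i, w) = run θ p l (XX p y.1 y.2, y.1) := by
      simp only [run]; rw [hnx]
    obtain ⟨hl, -⟩ := nosc hθ hz hp g hw (i := i) hs hgl' ht
      (by rw [hrun']; exact hend') (by rw [hrun']; exact harr')
    exact absurd hl (by simp)

theorem neA {θ : ℝ} (hθ : |θ - Real.pi / 4| < 1 / 100) (hz : Transcendental ℚ (zz θ))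
    {p : Par} (hp : p ∈ Pi0) {n : ℕ} (g : Gen θ p n) : (SA θ p n).Nonempty := by
  have hw : zz θ ∈ DD θ n := by
    left
    rw [Complex.mul_conj, Complex.normSq_eq_norm_sq, zz_norm]
    norm_num
  set w := zz θ with hwdef
  obtain ⟨hn, -, -, hact, -, hne⟩ := DD_ops hz g hw
  obtain ⟨i, h0, h1, -, -⟩ := facing hne
  obtain ⟨-, -, hlo, hhi, hX, -, -, hXi, -⟩ := exit_pt hp hn h0 h1
  have hvQ : vtx p i ∈ Q p := by
    have := (hX _ hlo.le hhi.le).1
    rwa [hXi] at this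
  set y : ℂ × ℝ := (w, crs w (vtx p i)) with hydef
  have hyS : y ∈ SS θ p n := ⟨hw, hlo, hhi⟩
  by_cases hyA : y ∈ SA θ p n
  · exact ⟨y, hyA⟩
  -- a good letter from the facing vertex
  obtain ⟨a, ha⟩ : ∃ a, Good θ p a (vtx p i, w) := by
    by_contra hno
    apply hyA
    refine ⟨hyS, fun a ha => hno ⟨a, ?_⟩⟩
    rw [← hXi]; exact ha
  obtain ⟨hd, hfl, hfree, hside⟩ := ha
  set t := fl θ p a (vtx p i, w) with htdef
  set x' := (nx θ p a (vtx p i, w)).1 with hx'def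
  have hx' : x' = frm θ a.1 (vtx p i + t * w) := rfl
  set v := -act a.1.1 w with hvdef
  have hvD : v ∈ DD θ n := (DD_ops hz g (hact a.1.1)).2.1
  obtain ⟨hvn, -, -, -, -, hvne⟩ := DD_ops hz g hvD
  have hland : dot x' (nu p a.2) = p.2 a.2 := dot_land (ne_of_lt hd)
  have hx'Q : x' ∈ Q p := by
    intro j
    by_cases hj : j = a.2
    · rw [hj, hland]
    · exact (hside j hj).le
  have hout : Out p x' v := by
    refine ⟨hx'Q, a.2, hland, ?_⟩
    rw [hvdef, dot_neg_left]; linarith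
  obtain ⟨hv1, hv2, hvX⟩ := out_unique hp hvn hvne hout
  obtain ⟨i', hi0, hi1, -, -⟩ := facing hvne
  obtain ⟨-, -, -, -, -, -, -, -, hXa, hXb, -⟩ := exit_pt hp hvn hi0 hi1
  have hlt1 : oa p v < crs v x' := by
    refine lt_of_le_of_ne hv1 fun h => ?_
    rw [← h, hXa] at hvX
    exact s9_vtx_two p _ a.2 hvX.symm hside
  have hlt2 : crs v x' < ob p v := by
    refine lt_of_le_of_ne hv2 fun h => ?_
    rw [h, hXb] at hvX
    exact s9_vtx_two p _ a.2 hvX.symm hside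
  have hback : ∀ s : ℝ, x' + (s : ℂ) * v = frm θ a.1 (vtx p i + ((t - s : ℝ) : ℂ) * w) := by
    intro s
    rw [hx', hvdef, frm_ray, frm_ray]
    push_cast; ring
  have hfree' : FreeSeg θ p x' v t := by
    intro s hs0 hs1
    have := hfree (t - s) (by linarith) (by linarith)
    have h2 : Fre θ p (frm θ a.1 (vtx p i + ((t - s : ℝ) : ℂ) * w)) :=
      (fre_frm θ p a.1 _).mpr this
    rw [← hback] at h2
    exact h2
  have hend : frm θ (inv a.1) (x' + (t : ℂ) * v) = vtx p i := by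
    rw [hback, frm_inv]
    push_cast; ring
  refine ⟨(v, crs v x'), ⟨hvD, hlt1, hlt2⟩, ?_⟩
  intro b hb
  have hb' : Good θ p b (x', v) := by
    have : XX p v (crs v x') = x' := hvX
    change Good θ p b (XX p v (crs v x'), v) at hb
    rwa [this] at hb
  obtain ⟨hbd, hbfl, hbfree, hbside⟩ := hb'
  have hbQ : (nx θ p b (x', v)).1 ∈ Q p := by
    intro j
    by_cases hj : j = b.2
    · rw [hj, dot_land (ne_of_lt hbd)]
    · exact (hbside j hj).le
  obtain ⟨htt, hcc⟩ := touch_unique hθ hp hfl hbfl hfree' hbfree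
    (c := inv a.1) (c' := b.1)
    (by change frm θ (inv a.1) _ ∈ Q p; rw [hend]; exact hvQ) hbQ
  have hbx : (nx θ p b (x', v)).1 = vtx p i := by
    have : (nx θ p b (x', v)).1 = frm θ b.1 (x' + (fl θ p b (x', v) : ℂ) * v) := rfl
    rw [this, ← htt, ← hcc]
    exact hend
  exact s9_vtx_two p i b.2 hbx hbside

end TMX
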