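import Pool.Agent.TMX.A4

/-! # TMX: the system of the section -/

set_option autoImplicit false

open Set Filter Topology

namespace TMX

/-- The system of the section. -/
noncomputable def sys (θ : ℝ) (p : Par) (n : ℕ) : Sys ℂ where
  C := (DD_finite θ n).toFinset
  a := oa p
  b := ob p
  A := SA θ p n
  B := SB θ p n
  T := TT θ p

end TMX
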