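import Pool.Agent.TMX.A4
import Pool.Agent.TMX.Basic
import Pool.Agent.TMX.S1
import Pool.Agent.TMX.S10
import Pool.Agent.TMX.S11a
import Pool.Agent.TMX.S11b
import Pool.Agent.TMX.S11c
import Pool.Agent.TMX.S4
import Pool.Agent.TMX.S5
import Pool.Agent.TMX.S6
import Pool.Agent.TMX.S7
import Pool.Agent.TMX.S9
import Pool.Agent.TMX.SysDef

/-! # TMX: connectivity of the section and the properties of the system -/

set_option autoImplicit false

open Set Filter Topology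

namespace TMX

/-- a power of `zz θ` is never one -/
theorem s11d_pow {θ : ℝ} (hz : Transcendental ℚ (zz θ)) {N : ℕ} (hN : N ≠ 0) : zz θ ^ N ≠ 1 := by
  intro h
  apply hz
  have h1 : IsIntegral ℚ (zz θ ^ N) := by rw [h]; exact isIntegral_one
  exact (IsIntegral.of_pow (Nat.pos_of_ne_zero hN) h1).isAlgebraic

theorem s11d_zc (θ : ℝ) : zz θ * (starRingEnd ℂ) (zz θ) = 1 := by
  rw [Complex.mul_conj, Complex.normSq_eq_norm_sq, zz_norm]; norm_num

theorem s11d_root {p : Par} {n : ℕ} {θ : ℝ} (g : Gen θ p n) : IsPrimitiveRoot (nu p 0 ^ 2) (2 ^ n) := by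
  obtain ⟨k, hk, hp⟩ := g.tilt
  have h1 : IsCoprime k ((2 ^ n : ℕ) : ℤ) := by
    push_cast
    apply IsCoprime.pow_right
    rw [Int.isCoprime_iff_gcd_eq_one]
    rcases hk with ⟨m, rfl⟩
    have : Int.gcd (2 * m + 1) 2 = 1 := by
      rw [add_comm, Int.gcd_add_mul_left_left]
      simp
    exact this
  have h2 := Complex.isPrimitiveRoot_exp_of_isCoprime k (2 ^ n) (by positivity) h1
  have h3 : nu p 0 ^ 2 = Complex.exp (2 * Real.pi * Complex.I * (k / ((2 ^ n : ℕ) : ℂ))) := by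
    unfold nu
    rw [hp, Fin.val_zero, pow_zero, mul_one, ← Complex.exp_nat_mul]
    congr 1
    push_cast
    ring
  rw [h3]
  exact h2

/-- special directions among `u e` -/
theorem s11d_spc {θ : ℝ} (hz : Transcendental ℚ (zz θ)) {n : ℕ} {e u : ℂ}
    (he : e = zz θ ∨ e = (starRingEnd ℂ) (zz θ)) (hu : u ^ 2 ^ n = 1) (h : Spc θ (u * e)) :
    u = 1 ∨ u = -1 := by
  have hc := s11d_zc θ
  set z := zz θ
  set z' := (starRingEnd ℂ) z
  have hz0 : z ≠ 0 := left_ne_zero_of_mul_eq_one hc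
  have hz0' : z' ≠ 0 := right_ne_zero_of_mul_eq_one hc
  have hN : 2 * 2 ^ n ≠ 0 := by positivity
  -- `u z = s z'` is impossible
  have key : ∀ s : ℂ, s ^ 2 = 1 → u * z ≠ s * z' := by
    intro s hs h1
    have h2 : u * z ^ 2 = s := by
      calc u * z ^ 2 = (u * z) * z := by ring
        _ = s * (z * z') := by rw [h1]; ring
        _ = s := by rw [hc, mul_one]
    have h3 : z ^ (2 * 2 ^ n * 2) = 1 := by
      have h4 : (u * z ^ 2) ^ (2 ^ n * 2) = s ^ (2 ^ n * 2) := by rw [h2]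
      rw [mul_pow, pow_mul u, hu, one_pow, one_mul, mul_comm (2 ^ n) 2, pow_mul s, hs, one_pow,
        ← pow_mul] at h4
      rw [← h4]; ring
    exact s11d_pow hz (by positivity) h3
  have key' : ∀ s : ℂ, s ^ 2 = 1 → u * z' ≠ s * z := by
    intro s hs h1
    have h2 : s * z ^ 2 = u := by
      calc s * z ^ 2 = (s * z) * z := by ring
        _ = u * (z * z') := by rw [← h1]; ring
        _ = u := by rw [hc, mul_one]
    have h3 : z ^ (2 * 2 ^ n * 2) = 1 := by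
      have h4 : (s * z ^ 2) ^ (2 ^ n * 2) = u ^ (2 ^ n * 2) := by rw [h2]
      rw [mul_pow, mul_comm (2 ^ n) 2, pow_mul s, hs, one_pow, one_mul, mul_comm 2 (2 ^ n),
        pow_mul u, hu, one_pow, ← pow_mul] at h4
      rw [← h4]; ring
    exact s11d_pow hz (by positivity) h3
  rcases he with rfl | rfl
  · rcases h with h | h | h | h
    · exact Or.inl (mul_right_cancel₀ hz0 (by rw [h, one_mul]))
    · exact Or.inr (mul_right_cancel₀ hz0 (by rw [h]; ring))
    · exact absurd (by rw [h, one_mul]) (key 1 (by norm_num))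
    · exact absurd (by rw [h]; ring) (key (-1) (by norm_num))
  · rcases h with h | h | h | h
    · exact absurd (by rw [h, one_mul]) (key' 1 (by norm_num))
    · exact absurd (by rw [h]; ring) (key' (-1) (by norm_num))
    · exact Or.inl (mul_right_cancel₀ hz0' (by rw [h, one_mul]))
    · exact Or.inr (mul_right_cancel₀ hz0' (by rw [h]; ring))

theorem s11d_mem {θ : ℝ} {n : ℕ} {e u : ℂ}
    (he : e = zz θ ∨ e = (starRingEnd ℂ) (zz θ)) (hu : u ^ 2 ^ n = 1) : u * e ∈ DD θ n := by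
  have hc := s11d_zc θ
  rcases he with rfl | rfl
  · left
    rw [mul_assoc, hc, mul_one, hu]
  · right
    rw [mul_assoc, mul_comm _ (zz θ), hc, mul_one, hu]

theorem s11d_of_mem {θ : ℝ} {n : ℕ} {w : ℂ} (hw : w ∈ DD θ n) :
    ∃ e u : ℂ, (e = zz θ ∨ e = (starRingEnd ℂ) (zz θ)) ∧ u ^ 2 ^ n = 1 ∧ w = u * e := by
  have hc := s11d_zc θ
  rcases hw with h | h
  · exact ⟨zz θ, w * (starRingEnd ℂ) (zz θ), Or.inl rfl, h, by
      rw [mul_assoc, mul_comm _ (zz θ), hc, mul_one]⟩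
  · exact ⟨(starRingEnd ℂ) (zz θ), w * zz θ, Or.inr rfl, h, by rw [mul_assoc, hc, mul_one]⟩

theorem s11d_act_conj (w : ℂ) : act (1, -1) w = (starRingEnd ℂ) w := by
  apply Complex.ext <;> simp [act]

/-- [S11d] connectivity from S11a-c. -/
theorem conn {θ : ℝ} (hθ : |θ - Real.pi / 4| < 1 / 100) (hz : Transcendental ℚ (zz θ))
    {p : Par} (hp : p ∈ Pi0) {n : ℕ} (g : Gen θ p n) (D : Set ℂ)
    (hD : ∀ x ∈ SS θ p n \ SA θ p n, x.1 ∈ D ↔ (TT θ p x).1 ∈ D) (h : ∃ w ∈ DD θ n, w ∈ D) :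
    ∀ w ∈ DD θ n, w ∈ D := by
  have hneg : ∀ w ∈ DD θ n, w ∈ D ↔ -w ∈ D := fun w hw => conn_neg hθ hz hp g D hD hw
  have hrefl : ∀ w ∈ DD θ n, ∀ j, refl p j w ∈ DD θ n := fun w hw =>
    (DD_ops hz g hw).2.2.2.2.1
  have hact : ∀ w ∈ DD θ n, ∀ d, act d w ∈ DD θ n := fun w hw => (DD_ops hz g hw).2.2.2.1
  have hroot := s11d_root g
  set ζ : ℂ := nu p 0 ^ 2 with hζ
  have hn2 : 2 ^ n = 2 * 2 ^ (n - 1) := by
    rw [← pow_succ']; congr 1; have := g.two; omega
  have hn4 : 2 ^ (n - 1) = 2 * 2 ^ (n - 2) := by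
    rw [← pow_succ']; congr 1; have := g.two; omega
  have hpos : 0 < 2 ^ (n - 2) := by positivity
  have hζ1 : ζ ^ 2 ^ n = 1 := hroot.pow_eq_one
  -- powers of `ζ` equal to `± 1`
  have hpm : ∀ j : ℕ, 0 < j → j < 2 ^ (n - 1) → ζ ^ j ≠ 1 ∧ ζ ^ j ≠ -1 := by
    intro j h0 h1
    have h2 : ζ ^ (2 * j) ≠ 1 := hroot.pow_ne_one_of_pos_of_lt (by omega) (by omega)
    refine ⟨fun h3 => h2 ?_, fun h3 => h2 ?_⟩
    · rw [mul_comm, pow_mul, h3, one_pow]
    · rw [mul_comm, pow_mul, h3]; norm_num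
  have hhalf : ζ ^ 2 ^ (n - 1) = -1 := by
    have h1 : ζ ^ 2 ^ (n - 1) * ζ ^ 2 ^ (n - 1) = 1 := by
      rw [← pow_add, ← two_mul, ← hn2, hζ1]
    rcases mul_self_eq_one_iff.1 h1 with h2 | h2
    · exact absurd h2 (hroot.pow_ne_one_of_pos_of_lt (by positivity) (by omega))
    · exact h2
  -- all reflections
  have hch : ∀ w ∈ DD θ n, ∀ j, refl p j w ∈ D ↔ refl p 0 w ∈ D := by
    intro w hw j
    have h1 : ∀ i : Fin 4, refl p (i + 1) w ∈ D ↔ refl p i w ∈ D := fun i => by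
      rw [refl_succ]; exact (hneg _ (hrefl w hw i)).symm
    have e1 := h1 0
    have e2 := h1 1
    have e3 := h1 2
    fin_cases j
    · exact Iff.rfl
    · exact e1
    · exact e2.trans e1
    · exact e3.trans (e2.trans e1)
  have hns : ∀ w ∈ DD θ n, ¬ Spc θ w → ∀ j, w ∈ D ↔ refl p j w ∈ D := by
    intro w hw hs j
    obtain ⟨i, hi⟩ := conn_refl hθ hz hp g D hD hw hs
    rw [hi, hch w hw i, hch w hw j]
  have hr0 : ∀ w : ℂ, refl p 0 w = -(ζ * (starRingEnd ℂ) w) := fun w => by rw [refl_eq]; ring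
  have hζn : ζ ≠ 1 ∧ ζ ≠ -1 := by
    have := hpm 1 one_pos (by omega)
    rwa [pow_one] at this
  have h2 : ∀ w ∈ DD θ n, ∀ j, w ∈ D ↔ refl p j w ∈ D := by
    intro w hw j
    by_cases hs : Spc θ w
    · have h3 : ¬ Spc θ (refl p 0 w) := by
        intro h4
        rw [hr0] at h4
        have h5 : ∃ e s : ℂ, (e = zz θ ∨ e = (starRingEnd ℂ) (zz θ)) ∧ (s = 1 ∨ s = -1) ∧
            (starRingEnd ℂ) w = s * e := by
          rcases hs with hs | hs | hs | hs
          · exact ⟨_, 1, Or.inr rfl, Or.inl rfl, by rw [hs, one_mul]⟩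
          · exact ⟨_, -1, Or.inr rfl, Or.inr rfl, by rw [hs]; simp⟩
          · exact ⟨_, 1, Or.inl rfl, Or.inl rfl, by rw [hs]; simp⟩
          · exact ⟨_, -1, Or.inl rfl, Or.inr rfl, by rw [hs]; simp⟩
        obtain ⟨e, s, he, hs1, hw1⟩ := h5
        have h6 : -(ζ * (starRingEnd ℂ) w) = (-(ζ * s)) * e := by rw [hw1]; ring
        rw [h6] at h4
        have hn0 : 2 ^ n ≠ 0 := by positivity
        have hev : Even (2 ^ n) := (Nat.even_pow.2 ⟨even_two, by have := g.two; omega⟩)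
        have h7 : (-(ζ * s)) ^ 2 ^ n = 1 := by
          rw [hev.neg_pow, mul_pow, hζ1, one_mul]
          rcases hs1 with rfl | rfl
          · rw [one_pow]
          · exact hev.neg_one_pow
        rcases s11d_spc hz he h7 h4 with h8 | h8 <;> rcases hs1 with rfl | rfl
        · exact hζn.2 (by linear_combination -h8)
        · exact hζn.1 (by linear_combination h8)
        · exact hζn.1 (by linear_combination -h8)
        · exact hζn.2 (by linear_combination h8)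
      have h4 := hns _ (hrefl w hw 0) h3 0
      rw [refl_refl] at h4
      rw [← h4, hch w hw j]
    · exact hns w hw hs j
  have hconj : ∀ w ∈ DD θ n, ¬ Spc θ w → (w ∈ D ↔ (starRingEnd ℂ) w ∈ D) := by
    intro w hw hs
    have h3 := conn_act hθ hz hp g D hD h2 hw hs (1, -1)
    rwa [s11d_act_conj] at h3
  have hconjm : ∀ w ∈ DD θ n, (starRingEnd ℂ) w ∈ DD θ n := by
    intro w hw
    have h3 := hact w hw (1, -1)
    rwa [s11d_act_conj] at h3
  have hstep : ∀ w ∈ DD θ n, ¬ Spc θ w → (w ∈ D ↔ ζ * w ∈ D) := by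
    intro w hw hs
    have h3 := h2 _ (hconjm w hw) 0
    rw [hr0, Complex.conj_conj] at h3
    have h4 : -(ζ * w) ∈ DD θ n := by
      have h5 := hrefl _ (hconjm w hw) 0
      rwa [hr0, Complex.conj_conj] at h5
    have h5 := hneg _ h4
    rw [neg_neg] at h5
    rw [hconj w hw hs, h3, h5]
  -- the half circle
  have hcirc : ∀ e : ℂ, (e = zz θ ∨ e = (starRingEnd ℂ) (zz θ)) → ∀ u : ℂ, u ^ 2 ^ n = 1 →
      (u * e ∈ D ↔ e ∈ D) := by
    intro e he
    have hzp : ∀ j : ℕ, (ζ ^ j) ^ 2 ^ n = 1 := fun j => by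
      rw [← pow_mul, mul_comm, pow_mul, hζ1, one_pow]
    have h3 : ∀ j : ℕ, 0 < j → j < 2 ^ (n - 1) → (ζ ^ j * e ∈ D ↔ ζ ^ (j + 1) * e ∈ D) := by
      intro j h0 h1
      have h4 : ¬ Spc θ (ζ ^ j * e) := by
        intro h5
        rcases s11d_spc hz he (hzp j) h5 with h6 | h6
        · exact (hpm j h0 h1).1 h6
        · exact (hpm j h0 h1).2 h6
      rw [hstep _ (s11d_mem he (hzp j)) h4, pow_succ', mul_assoc]
    have h4 : ∀ j : ℕ, j < 2 ^ (n - 1) → (ζ ^ (j + 1) * e ∈ D ↔ ζ * e ∈ D) := by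
      intro j
      induction j with
      | zero => intro _; rw [zero_add, pow_one]
      | succ j ih =>
        intro h5
        rw [← h3 (j + 1) (by omega) h5]
        exact ih (by omega)
    have he1 : e ∈ DD θ n := by
      have := s11d_mem (θ := θ) (n := n) (e := e) (u := 1) he (one_pow _)
      rwa [one_mul] at this
    have h5 : ζ * e ∈ D ↔ e ∈ D := by
      have h6 := h4 (2 ^ (n - 1) - 1) (by omega)
      rw [Nat.sub_add_cancel (by omega), hhalf, neg_one_mul, ← hneg e he1] at h6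
      exact h6.symm
    have h6 : ∀ j : ℕ, j ≤ 2 ^ (n - 1) → (ζ ^ j * e ∈ D ↔ e ∈ D) := by
      intro j hj
      rcases Nat.eq_zero_or_pos j with rfl | h0
      · rw [pow_zero, one_mul]
      · have h7 := h4 (j - 1) (by omega)
        rw [Nat.sub_add_cancel h0] at h7
        exact h7.trans h5
    intro u hu
    obtain ⟨i, hi, rfl⟩ := hroot.eq_pow_of_pow_eq_one hu
    rcases le_or_gt i (2 ^ (n - 1)) with h7 | h7
    · exact h6 i h7
    · obtain ⟨m, rfl⟩ : ∃ m, i = 2 ^ (n - 1) + m := ⟨i - 2 ^ (n - 1), by omega⟩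
      have h8 : m ≤ 2 ^ (n - 1) := by omega
      rw [pow_add, hhalf, mul_assoc, neg_one_mul, ← hneg _ (s11d_mem he (hzp m))]
      exact h6 m h8
  -- the two circles
  have hlink : zz θ ∈ D ↔ (starRingEnd ℂ) (zz θ) ∈ D := by
    have h3 := s11d_mem (θ := θ) (n := n) (e := zz θ) (Or.inl rfl) hζ1
    have h4 : ¬ Spc θ (ζ * zz θ) := by
      intro h5
      rcases s11d_spc hz (Or.inl rfl) hζ1 h5 with h6 | h6
      · exact hζn.1 h6
      · exact hζn.2 h6
    have h5 := hconj _ h3 h4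
    rw [map_mul] at h5
    have h6 : ((starRingEnd ℂ) ζ) ^ 2 ^ n = 1 := by rw [← map_pow, hζ1, map_one]
    rw [hcirc _ (Or.inl rfl) _ hζ1, hcirc _ (Or.inr rfl) _ h6] at h5
    exact h5
  have hall : ∀ w ∈ DD θ n, (w ∈ D ↔ zz θ ∈ D) := by
    intro w hw
    obtain ⟨e, u, he, hu, rfl⟩ := s11d_of_mem hw
    rw [hcirc e he u hu]
    rcases he with rfl | rfl
    · exact Iff.rfl
    · exact hlink.symm
  obtain ⟨w₀, hw₀, hw₀D⟩ := h
  intro w hw
  rw [hall w hw, ← hall w₀ hw₀]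
  exact hw₀D

/-- the space of the system -/
theorem s11d_S (θ : ℝ) (p : Par) (n : ℕ) : (sys θ p n).S = SS θ p n := by
  ext x
  simp [Sys.S, sys, SS]

theorem sys_ok {θ : ℝ} (hθ : |θ - Real.pi / 4| < 1 / 100) (hz : Transcendental ℚ (zz θ))
    {p : Par} (hp : p ∈ Pi0) {n : ℕ} (g : Gen θ p n) : (sys θ p n).Ok := by
  have hC : ∀ w, w ∈ (sys θ p n).C ↔ w ∈ DD θ n := fun w => by simp [sys]
  have hS := s11d_S θ p n
  constructor
  · intro w hw
    rw [hC] at hw
    obtain ⟨h1, -, -, -, -, h2⟩ := DD_ops hz g hw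
    obtain ⟨i, h3, h4, -, -⟩ := facing h2
    obtain ⟨-, -, h5, h6, -⟩ := exit_pt hp h1 h3 h4
    exact h5.trans h6
  · exact finA hθ hz hp g
  · exact finB hθ hz hp g
  · intro x hx
    rw [hS]
    exact hx.1
  · intro x hx
    rw [hS]
    exact hx.1
  · rw [hS]
    refine ⟨?_, TT_inj hθ hz hp g, ?_⟩
    · intro x hx
      exact ⟨(TT_loc hθ hz hp g hx).1, fun h => h.2 ⟨x, hx, rfl⟩⟩
    · intro y hy
      by_contra h
      exact hy.2 ⟨hy.1, h⟩
  · intro x hx
    rw [hS] at hx ⊢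
    obtain ⟨-, h1, -⟩ := TT_loc hθ hz hp g hx
    refine ⟨-sdet (ltr θ p x).1.1, ?_, ?_⟩
    · rcases sdet_cases (ltr θ p x).1.1 with h | h <;> rw [h]
      · exact Or.inr rfl
      · exact Or.inl (by norm_num)
    · filter_upwards [h1] with t ht
      refine ⟨ht.1, ?_⟩
      have h2 := ht.2.2
      change TT θ p (x.1, x.2 + t) = ((TT θ p x).1, (TT θ p x).2 + -sdet (ltr θ p x).1.1 * t)
      rw [h2]
      congr 1
      ring
  · intro w hw
    rw [hC] at hw
    rw [hS]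
    obtain ⟨y, hy, e, he, h1⟩ := endpt hθ hz hp g hw 1 (oa p w) (Or.inl ⟨rfl, rfl⟩)
    refine ⟨y, hy, e, he, ?_⟩
    filter_upwards [h1] with t ht
    rw [one_mul] at ht
    exact ht
  · intro w hw
    rw [hC] at hw
    rw [hS]
    obtain ⟨y, hy, e, he, h1⟩ := endpt hθ hz hp g hw (-1) (ob p w) (Or.inr ⟨rfl, rfl⟩)
    refine ⟨y, hy, e, he, ?_⟩
    filter_upwards [h1] with t ht
    rw [neg_one_mul, ← sub_eq_add_neg] at ht
    exact ht
  · intro y hy m
    exact SB_nc hθ hz hp g hy m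
  · intro D hD h w hw
    rw [hS] at hD
    rw [hC] at hw
    obtain ⟨w₀, hw₀, h₀⟩ := h
    exact conn hθ hz hp g D hD ⟨w₀, (hC w₀).1 hw₀, h₀⟩ w hw
  · exact neA hθ hz hp g

end TMX
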