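import Pool.Agent.TMX.A4
import Pool.Agent.TMX.Basic
import Pool.Agent.TMX.S1
import Pool.Agent.TMX.S2
import Pool.Agent.TMX.S3

/-! # TMX, row S12: the numbers of the section are in `VV` -/

set_option autoImplicit false

open Set Filter Topology

namespace TMX

/-- Complex numbers with real and imaginary part in `KK`. -/
def inVV_CK (θ : ℝ) (z : ℂ) : Prop := z.re ∈ KK θ ∧ z.im ∈ KK θ

theorem inVV_cos (θ : ℝ) : Real.cos θ ∈ KK θ :=
  Subfield.subset_closure (Or.inl (Or.inl (by simp)))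

theorem inVV_sin (θ : ℝ) : Real.sin θ ∈ KK θ :=
  Subfield.subset_closure (Or.inl (Or.inl (by simp)))

theorem inVV_dcos (θ : ℝ) (k : ℤ) (n : ℕ) : Real.cos (Real.pi * k / 2 ^ n) ∈ KK θ :=
  Subfield.subset_closure (Or.inl (Or.inr ⟨(k, n), rfl⟩))

theorem inVV_dsin (θ : ℝ) (k : ℤ) (n : ℕ) : Real.sin (Real.pi * k / 2 ^ n) ∈ KK θ :=
  Subfield.subset_closure (Or.inr ⟨(k, n), rfl⟩)

theorem inVV_mul {θ : ℝ} {x y : ℂ} (hx : inVV_CK θ x) (hy : inVV_CK θ y) :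
    inVV_CK θ (x * y) := by
  constructor
  · rw [Complex.mul_re]
    exact (KK θ).sub_mem ((KK θ).mul_mem hx.1 hy.1) ((KK θ).mul_mem hx.2 hy.2)
  · rw [Complex.mul_im]
    exact (KK θ).add_mem ((KK θ).mul_mem hx.1 hy.2) ((KK θ).mul_mem hx.2 hy.1)

theorem inVV_conj {θ : ℝ} {x : ℂ} (hx : inVV_CK θ x) : inVV_CK θ ((starRingEnd ℂ) x) := by
  constructor
  · rw [Complex.conj_re]; exact hx.1
  · rw [Complex.conj_im]; exact (KK θ).neg_mem hx.2

theorem inVV_one (θ : ℝ) : inVV_CK θ 1 := by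
  constructor
  · rw [Complex.one_re]; exact (KK θ).one_mem
  · rw [Complex.one_im]; exact (KK θ).zero_mem

theorem inVV_I (θ : ℝ) : inVV_CK θ Complex.I := by
  constructor
  · rw [Complex.I_re]; exact (KK θ).zero_mem
  · rw [Complex.I_im]; exact (KK θ).one_mem

theorem inVV_pow {θ : ℝ} {x : ℂ} (hx : inVV_CK θ x) (k : ℕ) : inVV_CK θ (x ^ k) := by
  induction k with
  | zero => rw [pow_zero]; exact inVV_one θ
  | succ k ih => rw [pow_succ]; exact inVV_mul ih hx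

theorem inVV_zz (θ : ℝ) : inVV_CK θ (zz θ) := by
  constructor
  · rw [zz_re]; exact inVV_cos θ
  · rw [zz_im]; exact inVV_sin θ

theorem inVV_root (θ : ℝ) {n : ℕ} {u : ℂ} (hu : u ^ 2 ^ n = 1) : inVV_CK θ u := by
  have hne : (2 ^ n : ℕ) ≠ 0 := by positivity
  have : NeZero (2 ^ n : ℕ) := ⟨hne⟩
  obtain ⟨i, -, hi⟩ := (Complex.isPrimitiveRoot_exp (2 ^ n) hne).eq_pow_of_pow_eq_one hu
  rw [← hi]
  apply inVV_pow
  have e : (2 * (Real.pi : ℂ) * Complex.I / ((2 ^ n : ℕ) : ℂ)) =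
      ((Real.pi * ((2 : ℤ) : ℝ) / 2 ^ n : ℝ) : ℂ) * Complex.I := by
    push_cast; ring
  constructor
  · rw [e, Complex.exp_ofReal_mul_I_re]; exact inVV_dcos θ 2 n
  · rw [e, Complex.exp_ofReal_mul_I_im]; exact inVV_dsin θ 2 n

theorem inVV_DD {θ : ℝ} {n : ℕ} {w : ℂ} (hw : w ∈ DD θ n) : inVV_CK θ w := by
  have hz : zz θ * (starRingEnd ℂ) (zz θ) = 1 := by
    rw [Complex.mul_conj, Complex.normSq_eq_norm_sq, zz_norm]; norm_num
  rcases hw with h | h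
  · have e : w = w * (starRingEnd ℂ) (zz θ) * zz θ := by linear_combination (-w) * hz
    rw [e]; exact inVV_mul (inVV_root θ h) (inVV_zz θ)
  · have e : w = w * zz θ * (starRingEnd ℂ) (zz θ) := by linear_combination (-w) * hz
    rw [e]; exact inVV_mul (inVV_root θ h) (inVV_conj (inVV_zz θ))

theorem inVV_nu {θ : ℝ} {p : Par} {n : ℕ} (g : Gen θ p n) (j : Fin 4) : inVV_CK θ (nu p j) := by
  obtain ⟨k, -, hk⟩ := g.tilt
  unfold nu
  apply inVV_mul _ (inVV_pow (inVV_I θ) _)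
  constructor
  · rw [Complex.exp_ofReal_mul_I_re, hk]; exact inVV_dcos θ k n
  · rw [Complex.exp_ofReal_mul_I_im, hk]; exact inVV_dsin θ k n

theorem inVV_lat (θ : ℝ) (m : ℤ × ℤ) : inVV_CK θ (lat θ m) := by
  have h2 : (2 : ℝ) ∈ KK θ := by
    exact ofNat_mem (KK θ) 2
  have hb : bb θ ∈ KK θ := by
    unfold bb; rw [Real.tan_eq_sin_div_cos]; exact (KK θ).div_mem (inVV_sin θ) (inVV_cos θ)
  constructor
  · exact (KK θ).mul_mem h2 ((KK θ).intCast_mem _)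
  · exact (KK θ).mul_mem ((KK θ).mul_mem h2 hb) ((KK θ).intCast_mem _)

theorem inVV_dot {θ : ℝ} {x y : ℂ} (hx : inVV_CK θ x) (hy : inVV_CK θ y) : dot x y ∈ KK θ :=
  (KK θ).add_mem ((KK θ).mul_mem hx.1 hy.1) ((KK θ).mul_mem hx.2 hy.2)

theorem inVV_crs {θ : ℝ} {x y : ℂ} (hx : inVV_CK θ x) (hy : inVV_CK θ y) : crs x y ∈ KK θ :=
  (KK θ).sub_mem ((KK θ).mul_mem hx.1 hy.2) ((KK θ).mul_mem hx.2 hy.1)

theorem inVV_K {θ : ℝ} (p : Par) {c : ℝ} (hc : c ∈ KK θ) : c ∈ VV θ p :=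
  ⟨c, hc, fun _ => 0, fun _ => (KK θ).zero_mem, by simp⟩

theorem inVV_add {θ : ℝ} {p : Par} {u v : ℝ} (hu : u ∈ VV θ p) (hv : v ∈ VV θ p) :
    u + v ∈ VV θ p := by
  obtain ⟨c, hc, d, hd, rfl⟩ := hu
  obtain ⟨c', hc', d', hd', rfl⟩ := hv
  refine ⟨c + c', (KK θ).add_mem hc hc', fun j => d j + d' j,
    fun j => (KK θ).add_mem (hd j) (hd' j), ?_⟩
  simp only [add_mul, Finset.sum_add_distrib]; ring

theorem inVV_smul {θ : ℝ} {p : Par} {k v : ℝ} (hk : k ∈ KK θ) (hv : v ∈ VV θ p) :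
    k * v ∈ VV θ p := by
  obtain ⟨c, hc, d, hd, rfl⟩ := hv
  refine ⟨k * c, (KK θ).mul_mem hk hc, fun j => k * d j, fun j => (KK θ).mul_mem hk (hd j), ?_⟩
  rw [mul_add, Finset.mul_sum]
  congr 1
  apply Finset.sum_congr rfl; intro j _; ring

theorem inVV_h {θ : ℝ} (p : Par) (j : Fin 4) : p.2 j ∈ VV θ p := by
  refine ⟨0, (KK θ).zero_mem, fun i => if i = j then 1 else 0, ?_, ?_⟩
  · intro i
    change (if i = j then (1 : ℝ) else 0) ∈ KK θ
    split_ifs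
    · exact (KK θ).one_mem
    · exact (KK θ).zero_mem
  · simp

theorem inVV_vtx {θ : ℝ} {p : Par} {n : ℕ} (g : Gen θ p n) {w : ℂ} (hw : inVV_CK θ w)
    (j : Fin 4) : crs w (vtx p j) ∈ VV θ p := by
  rw [crs_vtx]
  apply inVV_add
  · rw [mul_comm]; exact inVV_smul (inVV_crs hw (inVV_nu g j)) (inVV_h p j)
  · rw [mul_comm]; exact inVV_smul (inVV_crs hw (inVV_nu g (j + 1))) (inVV_h p (j + 1))

theorem inVV_act {θ : ℝ} {w : ℂ} (hw : inVV_CK θ w) (d : Sg) : inVV_CK θ (act d w) := by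
  constructor
  · exact (KK θ).mul_mem ((KK θ).intCast_mem _) hw.1
  · exact (KK θ).mul_mem ((KK θ).intCast_mem _) hw.2

/-- [S12] the numbers of the section are in `VV`. -/
theorem inVV {θ : ℝ} (hθ : |θ - Real.pi / 4| < 1 / 100) (hz : Transcendental ℚ (zz θ))
    {p : Par} (hp : p ∈ Pi0) {n : ℕ} (g : Gen θ p n) :
    (∀ w ∈ DD θ n, oa p w ∈ VV θ p ∧ ob p w ∈ VV θ p) ∧
    (∀ x ∈ SA θ p n, x.2 ∈ VV θ p) ∧
    (∀ w ∈ DD θ n, ∀ j, dot w (nu p j) ∈ KK θ ∧ crs w (nu p j) ∈ KK θ) ∧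
    (∀ w ∈ DD θ n, ∀ m, dot (lat θ m) w ∈ KK θ ∧ crs w (lat θ m) ∈ KK θ) ∧
    ell θ ∈ KK θ := by
  refine ⟨?_, ?_, ?_, ?_, ?_⟩
  · intro w hw
    have hc := inVV_DD hw
    constructor
    · obtain ⟨j, -, hj⟩ := Finset.exists_mem_eq_inf' (⟨0, Finset.mem_univ _⟩ :
        (Finset.univ : Finset (Fin 4)).Nonempty) fun j => crs w (vtx p j)
      unfold oa; rw [hj]; exact inVV_vtx g hc j
    · obtain ⟨j, -, hj⟩ := Finset.exists_mem_eq_sup' (⟨0, Finset.mem_univ _⟩ :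
        (Finset.univ : Finset (Fin 4)).Nonempty) fun j => crs w (vtx p j)
      unfold ob; rw [hj]; exact inVV_vtx g hc j
  · rintro ⟨w, o⟩ ⟨⟨hw, ho1, ho2⟩, hno⟩
    change w ∈ DD θ n at hw
    change oa p w < o at ho1
    change o < ob p w at ho2
    change o ∈ VV θ p
    have hc := inVV_DD hw
    obtain ⟨hn, -, -, hact, -, hdot⟩ := DD_ops hz g hw
    have hdot' : ∀ d j, dot (act d w) (nu p j) ≠ 0 := by
      intro d j
      exact (DD_ops hz g (hact d)).2.2.2.2.2 j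
    obtain ⟨i, f0, f1, -, -⟩ := facing hdot
    have hex := (exit_pt hp hn f0 f1).2.2.2.2.1 o ho1.le ho2.le
    obtain ⟨-, hcrs, -, hout, -, -⟩ := hex
    obtain ⟨L, hL⟩ := bounded hθ hz hp g
    obtain ⟨t, ht1, ht2, c, hct⟩ := hL w hw (XX p w o) (Or.inl hout)
    rcases first_touch hθ hp hn hdot' (Or.inl hout)
      ⟨t, by linarith, ht2, c, hct⟩ with ⟨a, ha, -⟩ | ⟨c, t, j, -, -, -, he, -⟩
    · exact absurd ha (hno a)
    · have e1 : o = crs w (XX p w o + (t : ℂ) * w) := by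
        rw [crs_add_right, crs_mul_right, crs_self, hcrs]; ring
      have e2 : XX p w o + (t : ℂ) * w = act c.1 (vtx p j) + lat θ c.2 := by
        rw [← he, frm, act_self]; ring
      have e3 : crs w (act c.1 (vtx p j)) = sdet c.1 * crs (act c.1 w) (vtx p j) := by
        rw [← crs_act, act_self]
      rw [e1, e2, crs_add_right, e3]
      apply inVV_add
      · apply inVV_smul _ (inVV_vtx g (inVV_act hc c.1) j)
        exact (KK θ).mul_mem ((KK θ).intCast_mem _) ((KK θ).intCast_mem _)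
      · exact inVV_K p (inVV_crs hc (inVV_lat θ c.2))
  · intro w hw j
    exact ⟨inVV_dot (inVV_DD hw) (inVV_nu g j), inVV_crs (inVV_DD hw) (inVV_nu g j)⟩
  · intro w hw m
    exact ⟨inVV_dot (inVV_lat θ m) (inVV_DD hw), inVV_crs (inVV_DD hw) (inVV_lat θ m)⟩
  · unfold ell
    have h2 : (2 : ℝ) ∈ KK θ := by
      exact ofNat_mem (KK θ) 2
    exact (KK θ).div_mem h2 (inVV_cos θ)

end TMX
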