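import Pool.Agent.TMX.A4
import Pool.Agent.TMX.Basic

set_option autoImplicit false

open Set Filter Topology

namespace TMX

/-- [S13a] mean of the squares. -/
theorem DD_sum {θ : ℝ} (hz : Transcendental ℚ (zz θ)) {p : Par} {n : ℕ} (g : Gen θ p n)
    (j : Fin 4) : ∑ w ∈ (DD_finite θ n).toFinset, (max 0 (dot w (nu p j))) ^ 2 =
      ((DD_finite θ n).toFinset.card : ℝ) / 4 := by
  set S := (DD_finite θ n).toFinset with hS
  set f : ℂ → ℝ := fun w => (max 0 (dot w (nu p j))) ^ 2 with hf
  have mem : ∀ w, w ∈ S ↔ w ∈ DD θ n := fun w => by rw [hS, Set.Finite.mem_toFinset]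
  have hneg : ∑ w ∈ S, f (-w) = ∑ w ∈ S, f w := by
    refine Finset.sum_nbij' (fun w => -w) (fun w => -w) ?_ ?_ ?_ ?_ ?_
    · intro w hw
      rw [mem] at hw ⊢
      exact (DD_ops hz g hw).2.1
    · intro w hw
      rw [mem] at hw ⊢
      exact (DD_ops hz g hw).2.1
    · intro w _
      exact neg_neg w
    · intro w _
      exact neg_neg w
    · intro w _
      rfl
  have hI : ∑ w ∈ S, f (Complex.I * w) = ∑ w ∈ S, f w := by
    refine Finset.sum_nbij' (fun w => Complex.I * w) (fun w => -(Complex.I * w)) ?_ ?_ ?_ ?_ ?_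
    · intro w hw
      rw [mem] at hw ⊢
      exact (DD_ops hz g hw).2.2.1
    · intro w hw
      rw [mem] at hw ⊢
      exact (DD_ops hz g ((DD_ops hz g hw).2.2.1)).2.1
    · intro w _

      rw [← mul_assoc, Complex.I_mul_I]; ring
    · intro w _

      rw [mul_neg, ← mul_assoc, Complex.I_mul_I]; ring
    · intro w _
      rfl
  have hInegaux : ∑ w ∈ S, f (-(Complex.I * w)) = ∑ w ∈ S, f (-w) := by
    refine Finset.sum_nbij' (fun w => Complex.I * w) (fun w => -(Complex.I * w)) ?_ ?_ ?_ ?_ ?_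
    · intro w hw
      rw [mem] at hw ⊢
      exact (DD_ops hz g hw).2.2.1
    · intro w hw
      rw [mem] at hw ⊢
      exact (DD_ops hz g ((DD_ops hz g hw).2.2.1)).2.1
    · intro w _

      rw [← mul_assoc, Complex.I_mul_I]; ring
    · intro w _

      rw [mul_neg, ← mul_assoc, Complex.I_mul_I]; ring
    · intro w _
      rfl
  have hmax : ∀ a : ℝ, (max 0 a) ^ 2 + (max 0 (-a)) ^ 2 = a ^ 2 := by
    intro a
    rcases le_total 0 a with h | h
    · rw [max_eq_right h, max_eq_left (by linarith : -a ≤ 0)]; ring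
    · rw [max_eq_left h, max_eq_right (by linarith : 0 ≤ -a)]; ring
  have hpt : ∀ w ∈ S, f w + f (-w) + f (Complex.I * w) + f (-(Complex.I * w)) = 1 := by
    intro w hw
    rw [mem] at hw
    have hn := (DD_ops hz g hw).1
    have h1 := hmax (dot w (nu p j))
    have h2 := hmax (dot (Complex.I * w) (nu p j))
    have h3 := dot_sq_add_crs_sq w (nu p j)
    rw [hn, nu_norm] at h3
    rw [dot_I_mul] at h2
    have e : f w + f (-w) + f (Complex.I * w) + f (-(Complex.I * w)) =
        (max 0 (dot w (nu p j))) ^ 2 + (max 0 (-dot w (nu p j))) ^ 2 +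
          (max 0 (crs w (nu p j))) ^ 2 + (max 0 (-crs w (nu p j))) ^ 2 := by
      rw [hf]
      simp only [dot_neg_left, dot_I_mul]
    rw [e]
    linarith
  have hsum : ∑ w ∈ S, (f w + f (-w) + f (Complex.I * w) + f (-(Complex.I * w))) =
      ∑ w ∈ S, (1 : ℝ) := Finset.sum_congr rfl hpt
  rw [Finset.sum_add_distrib, Finset.sum_add_distrib, Finset.sum_add_distrib, hInegaux, hneg, hI,
    Finset.sum_const, nsmul_eq_mul, mul_one] at hsum
  change ∑ w ∈ S, f w = (S.card : ℝ) / 4
  linarith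

end TMX
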