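import Pool.Agent.TMX.A4
import Pool.Agent.TMX.Basic
import Pool.Agent.TMX.G2
import Pool.Agent.TMX.I3
import Pool.Agent.TMX.S1
import Pool.Agent.TMX.S11d
import Pool.Agent.TMX.S13a
import Pool.Agent.TMX.S4
import Pool.Agent.TMX.S5
import Pool.Agent.TMX.SysDef

/-! # TMX S13b: the integral of the second part of the flight time -/

set_option autoImplicit false

open Set Filter Topology MeasureTheory

namespace TMX

namespace S13b

/-- The letter of a state that is not in `SA` is good. -/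
theorem good_ltr {θ : ℝ} {p : Par} {n : ℕ} {x : ℂ × ℝ} (hx : x ∈ SS θ p n \ SA θ p n) :
    Good θ p (ltr θ p x) (XX p x.1 x.2, x.1) := by
  have h : ∃ a, Good θ p a (XX p x.1 x.2, x.1) := by
    by_contra hno
    push Not at hno
    exact hx.2 ⟨hx.1, hno⟩
  have e : ltr θ p x = h.choose := by
    unfold ltr
    rw [dif_pos h]
  rw [e]
  exact h.choose_spec

open Classical in
/-- The facing index. -/
noncomputable def fi (p : Par) (w : ℂ) : Fin 4 :=
  if h : ∀ j, dot w (nu p j) ≠ 0 then (facing (p := p) (w := w) h).choose else 0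

theorem fi_spec {p : Par} {w : ℂ} (h : ∀ j, dot w (nu p j) ≠ 0) :
    0 < dot w (nu p (fi p w)) ∧ 0 < dot w (nu p (fi p w + 1)) ∧
      dot w (nu p (fi p w + 2)) < 0 ∧ dot w (nu p (fi p w + 3)) < 0 := by
  have e : fi p w = (facing (p := p) (w := w) h).choose := by
    unfold fi
    rw [dif_pos h]
  rw [e]
  exact (facing (p := p) (w := w) h).choose_spec

open Classical in
/-- The function of the landing state. -/
noncomputable def gg (p : Par) (y : ℂ × ℝ) : ℝ :=
  if y.2 < crs y.1 (vtx p (fi p y.1)) then 2 * p.2 (fi p y.1) * dot (nu p (fi p y.1)) y.1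
  else 2 * p.2 (fi p y.1 + 1) * dot (nu p (fi p y.1 + 1)) y.1

theorem gg_meas (p : Par) (w : ℂ) : Measurable fun o : ℝ => gg p (w, o) := by
  unfold gg
  dsimp only
  refine Measurable.ite ?_ measurable_const measurable_const
  exact measurableSet_Iio (a := crs w (vtx p (fi p w)))

theorem gg_bound (p : Par) {y : ℂ × ℝ} (hy : ‖y.1‖ = 1) : |gg p y| ≤ 2 * ∑ j, |p.2 j| := by
  have h : ∀ i : Fin 4, |2 * p.2 i * dot (nu p i) y.1| ≤ 2 * ∑ j, |p.2 j| := by
    intro i
    rw [abs_mul, abs_mul, abs_two]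
    have h1 : |dot (nu p i) y.1| ≤ 1 := by
      have := abs_dot_le (nu p i) y.1
      rw [nu_norm, hy] at this
      linarith
    have h2 : |p.2 i| ≤ ∑ j, |p.2 j| :=
      Finset.single_le_sum (f := fun j => |p.2 j|) (fun j _ => abs_nonneg _) (Finset.mem_univ i)
    have h3 : 0 ≤ |p.2 i| := abs_nonneg _
    have h4 : 0 ≤ |dot (nu p i) y.1| := abs_nonneg _
    nlinarith
  unfold gg
  split
  · exact h _
  · exact h _

theorem key {θ : ℝ} (hθ : |θ - Real.pi / 4| < 1 / 100) (hz : Transcendental ℚ (zz θ))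
    {p : Par} (hp : p ∈ Pi0) {n : ℕ} (g : Gen θ p n) {x : ℂ × ℝ} (hx : x ∈ SS θ p n \ SA θ p n) :
    2 * p.2 (ltr θ p x).2 * dot (nu p (ltr θ p x).2) (TT θ p x).1 = gg p (TT θ p x) := by
  have hG := good_ltr hx
  obtain ⟨hS, -, -, -, hnx, -⟩ := TT_loc hθ hz hp g hx
  obtain ⟨-, ho, -, -⟩ := nx_out hp hG
  obtain ⟨-, -, -, hj⟩ := hG
  rw [hnx] at ho hj
  dsimp only at ho hj
  obtain ⟨hn, -, -, -, -, hne⟩ := DD_ops hz g hS.1
  have hf := fi_spec hne
  set y := TT θ p x with hy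
  set s := (ltr θ p x).2 with hs
  set i := fi p y.1 with hi
  obtain ⟨e0, e1, e2, e3, e4, e5, e6, e7, -⟩ := exit_pt hp hn hf.1 hf.2.1
  obtain ⟨-, -, -, -, f1, f2⟩ := e4 y.2 hS.2.1.le hS.2.2.le
  unfold gg
  rw [← hi]
  by_cases h : y.2 < crs y.1 (vtx p i)
  · rw [if_pos h]
    have : s = i := by
      by_contra hne'
      have := e5 y.2 hS.2.1 h s hne'
      linarith
    rw [this]
  · rw [if_neg h]
    push Not at h
    have : s = i + 1 := by
      by_contra hne'
      have h1 := f2 h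
      have h2 := hj (i + 1) (fun h => hne' h.symm)
      linarith
    rw [this]

theorem int_gg {θ : ℝ} (hz : Transcendental ℚ (zz θ))
    {p : Par} (hp : p ∈ Pi0) {n : ℕ} (g : Gen θ p n) {w : ℂ} (hw : w ∈ DD θ n) :
    ∫ o in (oa p w)..(ob p w), gg p (w, o) =
      ∑ j : Fin 4, 2 * p.2 j * (p.2 (j + 3) + p.2 (j + 1)) * (max 0 (dot w (nu p j))) ^ 2 := by
  obtain ⟨hn, -, -, -, -, hne⟩ := DD_ops hz g hw
  have hf := fi_spec hne
  set i := fi p w with hi
  obtain ⟨e0, e1, e2, e3, -⟩ := exit_pt hp hn hf.1 hf.2.1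
  have hI : ∀ a b : ℝ, IntervalIntegrable (fun o => gg p (w, o)) volume a b := by
    intro a b
    apply (intervalIntegrable_const (c := 2 * ∑ j, |p.2 j|)).mono_fun
    · exact (gg_meas p w).aestronglyMeasurable
    · refine Filter.Eventually.of_forall fun o => ?_
      have h0 : 0 ≤ 2 * ∑ j, |p.2 j| := by positivity
      change |gg p (w, o)| ≤ abs (2 * ∑ j, |p.2 j|)
      rw [abs_of_nonneg h0]
      exact gg_bound p (y := (w, o)) hn
  rw [← intervalIntegral.integral_add_adjacent_intervals (hI _ (crs w (vtx p i))) (hI _ _)]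
  have i1 : ∫ o in (oa p w)..(crs w (vtx p i)), gg p (w, o) =
      ∫ o in (oa p w)..(crs w (vtx p i)), 2 * p.2 i * dot (nu p i) w := by
    apply intervalIntegral.integral_congr_Ioo_of_le e2.le
    intro o ho
    unfold gg
    dsimp only
    rw [← hi, if_pos ho.2]
  have i2 : ∫ o in (crs w (vtx p i))..(ob p w), gg p (w, o) =
      ∫ o in (crs w (vtx p i))..(ob p w), 2 * p.2 (i + 1) * dot (nu p (i + 1)) w := by
    apply intervalIntegral.integral_congr_Ioo_of_le e3.le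
    intro o ho
    unfold gg
    dsimp only
    rw [← hi, if_neg (not_lt.mpr ho.1.le)]
  rw [i1, i2, intervalIntegral.integral_const, intervalIntegral.integral_const, e0, e1]
  have d1 : crs w (vtx p i) - crs w (vtx p (i + 3)) =
      (p.2 (i + 3) + p.2 (i + 1)) * dot w (nu p i) := by
    have h1 := crs_vtx_sub p w (i + 3)
    have a1 : i + 3 + 1 = i := by rw [add_assoc]; exact add_zero i
    have a2 : i + 3 + 2 = i + 1 := by rw [add_assoc]; rfl
    rw [a1, a2] at h1
    exact h1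
  have d2 : crs w (vtx p (i + 1)) - crs w (vtx p i) =
      (p.2 i + p.2 (i + 2)) * dot w (nu p (i + 1)) := crs_vtx_sub p w i
  rw [d1, d2, smul_eq_mul, smul_eq_mul, dot_comm (nu p i) w, dot_comm (nu p (i + 1)) w]
  have m0 : max 0 (dot w (nu p i)) = dot w (nu p i) := max_eq_right hf.1.le
  have m1 : max 0 (dot w (nu p (i + 1))) = dot w (nu p (i + 1)) := max_eq_right hf.2.1.le
  have m2 : max 0 (dot w (nu p (i + 2))) = 0 := max_eq_left hf.2.2.1.le
  have m3 : max 0 (dot w (nu p (i + 3))) = 0 := max_eq_left hf.2.2.2.le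
  clear_value i
  have e : ∀ i : Fin 4, i = 0 ∨ i = 1 ∨ i = 2 ∨ i = 3 := by decide
  have r4 : (1 : Fin 4) + 3 = 0 := rfl
  have r5 : (2 : Fin 4) + 3 = 1 := rfl
  have r6 : (3 : Fin 4) + 3 = 2 := rfl
  have r7 : (1 : Fin 4) + 1 = 2 := rfl
  have r8 : (2 : Fin 4) + 1 = 3 := rfl
  have r9 : (3 : Fin 4) + 1 = 0 := rfl
  have r10 : (1 : Fin 4) + 2 = 3 := rfl
  have r11 : (2 : Fin 4) + 2 = 0 := rfl
  have r12 : (3 : Fin 4) + 2 = 1 := rfl
  rw [Fin.sum_univ_four]
  rcases e i with rfl | rfl | rfl | rfl <;>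
    simp only [zero_add, r4, r5, r6, r7, r8, r9, r10, r11, r12] at m0 m1 m2 m3 ⊢ <;>
    rw [m0, m1, m2, m3] <;> ring

end S13b

open S13b in
/-- [S13b] the integral of the second part of `ff` (uses `pres` for `sys θ p n`). -/
theorem int_hit {θ : ℝ} (hθ : |θ - Real.pi / 4| < 1 / 100) (hz : Transcendental ℚ (zz θ))
    {p : Par} (hp : p ∈ Pi0) {n : ℕ} (g : Gen θ p n) :
    ∑ w ∈ (DD_finite θ n).toFinset, ∫ o in (oa p w)..(ob p w),
      2 * p.2 (ltr θ p (w, o)).2 * dot (nu p (ltr θ p (w, o)).2) (TT θ p (w, o)).1 =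
      ((DD_finite θ n).toFinset.card : ℝ) * ((p.2 0 + p.2 2) * (p.2 1 + p.2 3)) := by
  have hpres := pres (sys θ p n) (sys_ok hθ hz hp g) (gg p)
    (fun w _ => gg_meas p w) (2 * ∑ j, |p.2 j|) (by
      intro x hx
      have hx1 : x.1 ∈ DD θ n := (DD_finite θ n).mem_toFinset.mp hx.1
      exact gg_bound p (DD_ops hz g hx1).1)
  have h1 : ∀ w ∈ (DD_finite θ n).toFinset, ∫ o in (oa p w)..(ob p w),
      2 * p.2 (ltr θ p (w, o)).2 * dot (nu p (ltr θ p (w, o)).2) (TT θ p (w, o)).1 =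
      ∫ o in (oa p w)..(ob p w), gg p (TT θ p (w, o)) := by
    intro w hw
    have hw' : w ∈ DD θ n := (DD_finite θ n).mem_toFinset.mp hw
    have hle : oa p w ≤ ob p w := by
      obtain ⟨hn, -, -, -, -, hne⟩ := DD_ops hz g hw'
      have hf := fi_spec hne
      obtain ⟨e0, e1, e2, e3, -⟩ := exit_pt hp hn hf.1 hf.2.1
      exact (e2.trans e3).le
    apply intervalIntegral.integral_congr_ae
    have hfin : {o : ℝ | (w, o) ∈ SA θ p n}.Finite := by
      have := finA hθ hz hp g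
      exact this.preimage (f := fun o : ℝ => (w, o)) (fun a _ b _ hab => (Prod.mk.inj hab).2)
    have hnull : volume ({o : ℝ | (w, o) ∈ SA θ p n} ∪ {ob p w}) = 0 :=
      (hfin.union (Set.finite_singleton _)).measure_zero volume
    have hae : ∀ᵐ o : ℝ, o ∉ ({o : ℝ | (w, o) ∈ SA θ p n} ∪ {ob p w}) := by
      rw [ae_iff]
      have hse : {a : ℝ | ¬ a ∉ ({o : ℝ | (w, o) ∈ SA θ p n} ∪ {ob p w})} =
          ({o : ℝ | (w, o) ∈ SA θ p n} ∪ {ob p w}) := by
        ext a
        exact not_not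
      rw [hse]
      exact hnull
    filter_upwards [hae] with o ho hoI
    rw [uIoc_of_le hle] at hoI
    have hA : (w, o) ∉ SA θ p n := fun h => ho (Or.inl h)
    have hb : o ≠ ob p w := fun h => ho (Or.inr h)
    exact key hθ hz hp g ⟨⟨hw', hoI.1, lt_of_le_of_ne hoI.2 hb⟩, hA⟩
  rw [Finset.sum_congr rfl h1]
  change ∑ w ∈ (DD_finite θ n).toFinset, ∫ o in (oa p w)..(ob p w), gg p (TT θ p (w, o)) =
    ∑ w ∈ (DD_finite θ n).toFinset, ∫ o in (oa p w)..(ob p w), gg p (w, o) at hpres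
  rw [hpres]
  rw [Finset.sum_congr rfl fun w hw => int_gg hz hp g ((DD_finite θ n).mem_toFinset.mp hw)]
  rw [Finset.sum_comm]
  simp_rw [← Finset.mul_sum]
  simp_rw [DD_sum hz g]
  rw [Fin.sum_univ_four]
  have r4 : (1 : Fin 4) + 3 = 0 := rfl
  have r5 : (2 : Fin 4) + 3 = 1 := rfl
  have r6 : (3 : Fin 4) + 3 = 2 := rfl
  have r7 : (1 : Fin 4) + 1 = 2 := rfl
  have r8 : (2 : Fin 4) + 1 = 3 := rfl
  have r9 : (3 : Fin 4) + 1 = 0 := rfl
  simp only [zero_add, r4, r5, r6, r7, r8, r9]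
  ring

end TMX
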