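import Pool.Agent.TMX.A4
import Pool.Agent.TMX.Basic
import Pool.Agent.TMX.I6
import Pool.Agent.TMX.S11d
import Pool.Agent.TMX.S12
import Pool.Agent.TMX.S13b
import Pool.Agent.TMX.S4
import Pool.Agent.TMX.S5
import Pool.Agent.TMX.SysDef

/-! # TMX: the integral of the constant part of the flight time -/

set_option autoImplicit false

open Set Filter Topology MeasureTheory

namespace TMX

/-- a function that is locally constant off a finite set is integrable -/
theorem s13c_int {g : ℝ → ℝ} (A : Finset ℝ) : ∀ a b : ℝ, a ≤ b →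
    (∀ x ∈ Ioo a b, x ∉ A → ∀ᶠ t in 𝓝 x, g t = g x) → IntervalIntegrable g volume a b := by
  induction A using Finset.induction_on with
  | empty =>
    intro a b hab h
    rcases eq_or_lt_of_le hab with rfl | hlt
    · exact IntervalIntegrable.refl
    · have hc : ∀ x ∈ Ioo a b, g x = g ((a + b) / 2) := by
        have hm : (a + b) / 2 ∈ Ioo a b := ⟨by linarith, by linarith⟩
        intro x hx
        exact eq_of_germ_isConstant_on (f := g) (s := Ioo a b)
          (fun y hy => ⟨g y, h y hy (Finset.notMem_empty y)⟩) isPreconnected_Ioo hx hm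
      rw [intervalIntegrable_iff_integrableOn_Ioo_of_le hab]
      have h2 : IntegrableOn (fun _ : ℝ => g ((a + b) / 2)) (Ioo a b) volume :=
        integrableOn_const (by simp)
      exact h2.congr_fun (fun x hx => (hc x hx).symm) measurableSet_Ioo
  | insert α A _ ih =>
    intro a b hab h
    by_cases hα : α ∈ Ioo a b
    · have h1 : IntervalIntegrable g volume a α := by
        refine ih a α hα.1.le fun x hx hxA => h x ⟨hx.1, hx.2.trans hα.2⟩ ?_
        rw [Finset.mem_insert]
        rintro (h2 | h2)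
        · exact hx.2.ne h2
        · exact hxA h2
      have h2 : IntervalIntegrable g volume α b := by
        refine ih α b hα.2.le fun x hx hxA => h x ⟨hα.1.trans hx.1, hx.2⟩ ?_
        rw [Finset.mem_insert]
        rintro (h2 | h2)
        · exact hx.1.ne' h2
        · exact hxA h2
      exact h1.trans h2
    · refine ih a b hab fun x hx hxA => h x hx ?_
      rw [Finset.mem_insert]
      rintro (h2 | h2)
      · exact hα (h2 ▸ hx)
      · exact hxA h2

/-- the additive group `VV` -/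
def s13c_V (θ : ℝ) (p : Par) : AddSubgroup ℝ where
  carrier := VV θ p
  add_mem' := by
    rintro x y ⟨c, hc, d, hd, rfl⟩ ⟨c', hc', d', hd', rfl⟩
    refine ⟨c + c', add_mem hc hc', fun j => d j + d' j, fun j => add_mem (hd j) (hd' j), ?_⟩
    simp only [add_mul, Finset.sum_add_distrib]
    ring
  zero_mem' := ⟨0, zero_mem _, fun _ => 0, fun _ => zero_mem _, by simp⟩
  neg_mem' := by
    rintro x ⟨c, hc, d, hd, rfl⟩
    refine ⟨-c, neg_mem hc, fun j => -d j, fun j => neg_mem (hd j), ?_⟩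
    simp only [neg_mul, Finset.sum_neg_distrib]
    ring

theorem s13c_mul {θ : ℝ} {p : Par} {k v : ℝ} (hk : k ∈ KK θ) (hv : v ∈ VV θ p) :
    k * v ∈ VV θ p := by
  obtain ⟨c, hc, d, hd, rfl⟩ := hv
  refine ⟨k * c, mul_mem hk hc, fun j => k * d j, fun j => mul_mem hk (hd j), ?_⟩
  rw [mul_add, Finset.mul_sum]
  congr 1
  exact Finset.sum_congr rfl fun j _ => by ring

/-- [S13c] the integral of `ff` (uses `int_pc`, S12, S13b). -/
theorem int_ff {θ : ℝ} (hθ : |θ - Real.pi / 4| < 1 / 100) (hz : Transcendental ℚ (zz θ))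
    {p : Par} (hp : p ∈ Pi0) {n : ℕ} (g : Gen θ p n) :
    ∃ v ∈ VV θ p, ∑ w ∈ (DD_finite θ n).toFinset, ∫ o in (oa p w)..(ob p w), ff θ p (w, o) =
      v - ((DD_finite θ n).toFinset.card : ℝ) * ((p.2 0 + p.2 2) * (p.2 1 + p.2 3)) := by
  obtain ⟨hV1, hV2, -, hV4, -⟩ := inVV hθ hz hp g
  have hC : ∀ w, w ∈ (sys θ p n).C ↔ w ∈ DD θ n := fun w => by simp [sys]
  have hS : (sys θ p n).S = SS θ p n := by
    ext x
    simp [Sys.S, sys, SS]
  have ok := sys_ok hθ hz hp g
  set g₁ : ℂ × ℝ → ℝ := fun x => dot (lat θ (ltr θ p x).1.2) x.1 with hg₁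
  set g₂ : ℂ × ℝ → ℝ := fun x =>
    2 * p.2 (ltr θ p x).2 * dot (nu p (ltr θ p x).2) (TT θ p x).1 with hg₂
  have hloc : ∀ x ∈ SS θ p n \ SA θ p n, ∀ᶠ t in 𝓝 (0 : ℝ),
      g₁ (x.1, x.2 + t) = g₁ x ∧ g₂ (x.1, x.2 + t) = g₂ x := by
    intro x hx
    obtain ⟨-, h1, -⟩ := TT_loc hθ hz hp g hx
    filter_upwards [h1] with t ht
    obtain ⟨-, h2, h3⟩ := ht
    simp only [hg₁, hg₂, h2, h3, and_self]
  have hint : ∀ w ∈ DD θ n, ∀ h : ℂ × ℝ → ℝ, (∀ x ∈ SS θ p n \ SA θ p n, ∀ᶠ t in 𝓝 (0 : ℝ),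
      h (x.1, x.2 + t) = h x) → IntervalIntegrable (fun o => h (w, o)) volume (oa p w) (ob p w) := by
    intro w hw h hh
    have hfin : ((SA θ p n).image Prod.snd).Finite := (finA hθ hz hp g).image _
    refine s13c_int hfin.toFinset _ _ (ok.hab w ((hC w).2 hw)).le fun o ho hoA => ?_
    have hx : (w, o) ∈ SS θ p n \ SA θ p n := by
      refine ⟨⟨hw, ho.1, ho.2⟩, fun hA => hoA ?_⟩
      rw [Set.Finite.mem_toFinset]
      exact ⟨(w, o), hA, rfl⟩
    have h1 := hh _ hx
    have h2 : Tendsto (fun t : ℝ => t - o) (𝓝 o) (𝓝 0) := by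
      have : Tendsto (fun t : ℝ => t - o) (𝓝 o) (𝓝 (o - o)) := tendsto_id.sub_const o
      rwa [sub_self] at this
    filter_upwards [h2.eventually h1] with t ht
    have h3 : o + (t - o) = t := by ring
    simpa only [h3] using ht
  have hi1 : ∀ w ∈ DD θ n, IntervalIntegrable (fun o => g₁ (w, o)) volume (oa p w) (ob p w) :=
    fun w hw => hint w hw g₁ fun x hx => (hloc x hx).mono fun _ h => h.1
  have hi2 : ∀ w ∈ DD θ n, IntervalIntegrable (fun o => g₂ (w, o)) volume (oa p w) (ob p w) :=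
    fun w hw => hint w hw g₂ fun x hx => (hloc x hx).mono fun _ h => h.2
  refine ⟨∑ w ∈ (DD_finite θ n).toFinset, ∫ o in (oa p w)..(ob p w), g₁ (w, o), ?_, ?_⟩
  · have h1 := int_pc (sys θ p n) ok (s13c_V θ p) (KK θ : Set ℝ)
      (fun k hk v hv => s13c_mul hk hv) (fun w hw => hV1 w ((hC w).1 hw)) hV2 g₁
      (by
        rw [hS]
        exact fun x hx => (hloc x hx).mono fun _ h => h.1)
      (by
        rw [hS]
        exact fun x hx => (hV4 x.1 hx.1.1 _).1)
    exact h1
  · rw [← int_hit hθ hz hp g, ← Finset.sum_sub_distrib]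
    refine Finset.sum_congr rfl fun w hw => ?_
    rw [Set.Finite.mem_toFinset] at hw
    exact intervalIntegral.integral_sub (hi1 w hw) (hi2 w hw)

end TMX
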