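import Pool.Agent.TMX.A4
import Pool.Agent.TMX.Basic
import Pool.Agent.TMX.G1
import Pool.Agent.TMX.G4
import Pool.Agent.TMX.S1
import Pool.Agent.TMX.S2
import Pool.Agent.TMX.S3

/-! # TMX [S14]: aiming -/

set_option autoImplicit false

open Set Filter Topology

namespace TMX

/-- being in no copy is an open condition -/
theorem s14_fre_open {θ : ℝ} (hθ : |θ - Real.pi / 4| < 1 / 100) {p : Par} (hp : p ∈ Pi0) :
    IsOpen {x | Fre θ p x} := by
  rw [isOpen_iff_mem_nhds]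
  intro x hx
  by_cases h : ∃ c, ∃ y ∈ Metric.ball x (1 / 5), y ∈ obs θ p c
  · obtain ⟨c, y, hy, hyc⟩ := h
    have h1 : (obs θ p c)ᶜ ∈ 𝓝 x := (obs_isClosed θ p c).isOpen_compl.mem_nhds (hx c)
    have h2 : Metric.ball x (1 / 5) ∈ 𝓝 x := Metric.ball_mem_nhds x (by norm_num)
    filter_upwards [h1, h2] with z hz1 hz2
    intro c' hc'
    by_cases hcc : c = c'
    · subst hcc; exact hz1 hc'
    · have h3 := copies_dist hθ hp hcc hyc hc'
      have h4 : ‖y - z‖ < 2 / 5 := by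
        rw [← dist_eq_norm]
        have h5 := dist_triangle y x z
        rw [Metric.mem_ball] at hy hz2
        rw [dist_comm] at hz2
        linarith
      linarith
  · push Not at h
    filter_upwards [Metric.ball_mem_nhds x (by norm_num : (0 : ℝ) < 1 / 5)] with z hz
    intro c hc
    exact h c z hz hc

theorem s14_fin (k : Fin 4) : k + 1 ≠ k := by revert k; decide

theorem s14_spc_neg {θ : ℝ} {v : ℂ} (h : Spc θ (-v)) : Spc θ v := by
  rcases h with h | h | h | h
  · exact Or.inr (Or.inl (by rw [← h, neg_neg]))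
  · exact Or.inl (by rw [neg_inj] at h; exact h)
  · exact Or.inr (Or.inr (Or.inr (by rw [← h, neg_neg])))
  · exact Or.inr (Or.inr (Or.inl (by rw [neg_inj] at h; exact h)))

/-- the case of a good backward letter -/
theorem s14_good {θ : ℝ} (hθ : |θ - Real.pi / 4| < 1 / 100) (hz : Transcendental ℚ (zz θ))
    {p : Par} (hp : p ∈ Pi0) {n : ℕ} (g : Gen θ p n) {v x : ℂ} (hv : v ∈ DD θ n)
    (hx : Fre θ p x) {V : Set (ℂ × ℂ)} (hV : IsOpen V) (hxV : (x, v) ∈ V)
    {a : Lt} (ha : Good θ p a (x, -v)) :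
    ∃ y ∈ SS θ p n, ∃ τ ε : ℝ, 0 < ε ∧ ∀ y' ∈ SS θ p n, y'.1 = y.1 → |y'.2 - y.2| < ε →
      VisitL θ p [] (XX p y'.1 y'.2, y'.1) V τ := by
  obtain ⟨hn, -, -, hact, -, -⟩ := DD_ops hz g hv
  have hwD : act a.1.1 v ∈ DD θ n := hact a.1.1
  obtain ⟨hnw, -, -, -, -, hw0⟩ := DD_ops hz g hwD
  obtain ⟨hneg, hτ, hfree, hj⟩ := ha
  have hland : dot (nx θ p a (x, -v)).1 (nu p a.2) = p.2 a.2 := dot_land hneg.ne
  set τ := fl θ p a (x, -v) with hτd
  have hy0 : (nx θ p a (x, -v)).1 = frm θ a.1 (x + (τ : ℂ) * (-v)) := rfl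
  rw [hy0] at hland
  simp only [hy0] at hj
  change dot (act a.1.1 (-v)) (nu p a.2) < 0 at hneg
  rw [act_neg, dot_neg_left] at hneg
  change FreeSeg θ p x (-v) τ at hfree
  set w := act a.1.1 v with hwd
  set y0 := frm θ a.1 (x + (τ : ℂ) * (-v)) with hy0d
  have hq : y0 ∈ Q p := by
    intro j
    by_cases h : j = a.2
    · rw [h]; exact hland.le
    · exact (hj j h).le
  have hout : Out p y0 w := ⟨hq, a.2, hland, by linarith⟩
  have hvtx : ∀ k, y0 ≠ vtx p k := by
    intro k hk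
    have e1 : k = a.2 := by
      by_contra h
      have := hj k h
      rw [hk, dot_vtx_self] at this
      exact lt_irrefl _ this
    have e2 : k + 1 = a.2 := by
      by_contra h
      have := hj (k + 1) h
      rw [hk, dot_vtx_succ] at this
      exact lt_irrefl _ this
    exact s14_fin k (e2.trans e1.symm)
  obtain ⟨i, f1, f2, -, -⟩ := facing hw0
  obtain ⟨-, -, -, -, hex, -, -, -, hXa, hXb, hcX, -⟩ := exit_pt hp hnw f1 f2
  obtain ⟨u1, u2, u3⟩ := out_unique hp hnw hw0 hout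
  have s1 : oa p w < crs w y0 := by
    refine lt_of_le_of_ne u1 (fun h => hvtx (i + 3) ?_)
    rw [← u3, ← h]; exact hXa
  have s2 : crs w y0 < ob p w := by
    refine lt_of_le_of_ne u2 (fun h => hvtx (i + 1) ?_)
    rw [← u3, h]; exact hXb
  have ray : ∀ s : ℝ, y0 + (s : ℂ) * w = frm θ a.1 (x + ((τ - s : ℝ) : ℂ) * (-v)) := by
    intro s
    rw [hy0d, hwd, ← frm_ray]
    congr 1
    push_cast
    ring
  have hvis : VisitL θ p [] (y0, w) V τ := by
    refine ⟨trivial, hτ, ?_, ?_⟩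
    · intro s h0 h1
      change Fre θ p (y0 + (s : ℂ) * w)
      change s ≤ τ - 0 at h1
      rw [ray s, fre_frm]
      rcases lt_or_eq_of_le (show s ≤ τ by linarith) with h | h
      · exact hfree (τ - s) (by linarith) (by linarith)
      · rw [h, sub_self, Complex.ofReal_zero, zero_mul, add_zero]; exact hx
    · refine ⟨inv a.1, ?_⟩
      change (frm θ (inv a.1) (y0 + ((τ - 0 : ℝ) : ℂ) * w), act (inv a.1).1 w) ∈ V
      rw [ray (τ - 0), sub_zero, sub_self, Complex.ofReal_zero, zero_mul, add_zero, frm_inv,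
        inv_fst, hwd, act_self]
      exact hxV
  have hop := visit_open hθ hp (l := []) (z := (y0, w)) (Or.inl hout) hV hvis
  have hca : ContinuousAt (fun o => XX p w o) (crs w y0) :=
    hcX.continuousAt (Icc_mem_nhds s1 s2)
  have hcb : Tendsto (fun o : ℝ => (((p, (XX p w o, w)), τ) : (Par × (ℂ × ℂ)) × ℝ))
      (𝓝 (crs w y0)) (𝓝 ((p, (y0, w)), τ)) := by
    have h1 : Tendsto (fun o => XX p w o) (𝓝 (crs w y0)) (𝓝 y0) := by
      have := hca.tendsto
      rwa [u3] at this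
    exact (tendsto_const_nhds.prodMk_nhds (h1.prodMk_nhds tendsto_const_nhds)).prodMk_nhds
      tendsto_const_nhds
  have hev := hcb.eventually hop
  rw [Metric.eventually_nhds_iff] at hev
  obtain ⟨ε, hε, hev⟩ := hev
  refine ⟨(w, crs w y0), ⟨hwD, s1, s2⟩, τ, ε, hε, ?_⟩
  rintro ⟨w', o'⟩ ⟨hw', ho1, ho2⟩ he hlt
  change w' = w at he
  change |o' - crs w y0| < ε at hlt
  change oa p w' < o' at ho1
  change o' < ob p w' at ho2
  rw [he] at ho1 ho2
  change VisitL θ p [] (XX p w' o', w') V τ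
  rw [he]
  exact hev (y := o') (by rw [Real.dist_eq]; exact hlt)
    (Or.inl (hex o' ho1.le ho2.le).2.2.2.1)

/-- [S14] near every plane phase point there is a state of the section whose flight passes there. -/
theorem aim {θ : ℝ} (hθ : |θ - Real.pi / 4| < 1 / 100) (hz : Transcendental ℚ (zz θ))
    {p : Par} (hp : p ∈ Pi0) {n : ℕ} (g : Gen θ p n) {v x : ℂ} (hv : v ∈ DD θ n)
    (hs : ¬ Spc θ v) (hx : Fre θ p x) {V : Set (ℂ × ℂ)} (hV : IsOpen V) (hxV : (x, v) ∈ V) :
    ∃ y ∈ SS θ p n, ∃ τ ε : ℝ, 0 < ε ∧ ∀ y' ∈ SS θ p n, y'.1 = y.1 → |y'.2 - y.2| < ε →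
      VisitL θ p [] (XX p y'.1 y'.2, y'.1) V τ := by
  obtain ⟨hn, hnv, -, -, -, -⟩ := DD_ops hz g hv
  have hvv : crs v (Complex.I * v) = 1 := by
    rw [crs_mul_I, dot_self, hn]; norm_num
  -- good offsets
  set Bad : Set ℝ := Set.range fun q : Cp × Fin 4 =>
    crs v (frm θ (inv q.1) (vtx p q.2)) - crs v x with hBad
  have hcount : Bad.Countable := Set.countable_range _
  have hdense : Dense Badᶜ := hcount.dense_compl ℝ
  have hc : Continuous fun η : ℝ => x + (η : ℂ) * (Complex.I * v) := by fun_prop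
  have hO : IsOpen {η : ℝ | x + (η : ℂ) * (Complex.I * v) ∈ {x | Fre θ p x} ∧
      (x + (η : ℂ) * (Complex.I * v), v) ∈ V} := by
    refine ((s14_fre_open hθ hp).preimage hc).inter (hV.preimage ?_)
    exact hc.prodMk continuous_const
  obtain ⟨η, ⟨hη1, hη2⟩, hη3⟩ := hdense.inter_open_nonempty _ hO
    ⟨0, by simpa using hx, by simpa using hxV⟩
  set x' := x + (η : ℂ) * (Complex.I * v) with hx'
  obtain ⟨L, hL⟩ := bounded hθ hz hp g
  obtain ⟨t, ht1, ht2, c, hcc⟩ := hL (-v) hnv x' (Or.inr fun h => hs (s14_spc_neg h))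
  have hw : ∀ d j, dot (act d (-v)) (nu p j) ≠ 0 := by
    intro d j
    obtain ⟨-, -, -, hd, -, -⟩ := DD_ops hz g hnv
    exact (DD_ops hz g (hd d)).2.2.2.2.2 j
  rcases first_touch hθ hp (x := x') (w := -v) (by rw [norm_neg, hn]) hw (Or.inr hη1)
    ⟨t, by linarith, ht2, c, hcc⟩ with ⟨a, ha, -⟩ | ⟨c, t, j, ht0, htL, hfr, hv1, hv2⟩
  · exact s14_good hθ hz hp g hv hη1 hV hη2 ha
  · exfalso
    apply hη3
    refine ⟨(c, j), ?_⟩
    change crs v (frm θ (inv c) (vtx p j)) - crs v x = η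
    rw [← hv1, frm_inv, crs_add_right, crs_mul_right, crs_neg_right, crs_self, hx',
      crs_add_right, crs_mul_right, hvv]
    ring

end TMX
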