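import Pool.Agent.TMX.A4
import Pool.Agent.TMX.Basic
import Pool.Agent.TMX.C1
import Pool.Agent.TMX.I1
import Pool.Agent.TMX.I5
import Pool.Agent.TMX.S1
import Pool.Agent.TMX.S11d
import Pool.Agent.TMX.S12
import Pool.Agent.TMX.S13c
import Pool.Agent.TMX.S14
import Pool.Agent.TMX.S5
import Pool.Agent.TMX.S8
import Pool.Agent.TMX.S9
import Pool.Agent.TMX.SysDef

/-! # TMX [S15]: visits of the separatrices -/

set_option autoImplicit false

open Set Filter Topology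

namespace TMX

theorem s15_fin (k : Fin 4) : k + 1 ≠ k := by revert k; decide

theorem s15_good {θ : ℝ} {p : Par} {n : ℕ} {x : ℂ × ℝ} (hx : x ∈ SS θ p n \ SA θ p n) :
    Good θ p (ltr θ p x) (XX p x.1 x.2, x.1) := by
  have h : ∃ a, Good θ p a (XX p x.1 x.2, x.1) := by
    by_contra hcon
    push Not at hcon
    exact hx.2 ⟨hx.1, hcon⟩
  unfold ltr
  rw [dif_pos h]
  exact h.choose_spec

theorem s15_zz (θ : ℝ) (n : ℕ) : zz θ ∈ DD θ n := by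
  left
  rw [Complex.mul_conj, Complex.normSq_eq_norm_sq, zz_norm]
  norm_num

/-- facing vertex states -/
theorem s15_vtx {θ : ℝ} (hθ : |θ - Real.pi / 4| < 1 / 100) (hz : Transcendental ℚ (zz θ))
    {p : Par} (hp : p ∈ Pi0) {n : ℕ} (g : Gen θ p n) {w : ℂ} (hw : w ∈ DD θ n) {i : Fin 4}
    (h0 : 0 < dot w (nu p i)) (h1 : 0 < dot w (nu p (i + 1))) :
    (w, crs w (vtx p i)) ∈ SS θ p n ∧ XX p w (crs w (vtx p i)) = vtx p i ∧
      ∀ m : ℕ, (TT θ p)^[m] (w, crs w (vtx p i)) ∉ SA θ p n := by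
  obtain ⟨hn, -, -, -, -, -⟩ := DD_ops hz g hw
  obtain ⟨-, -, s1, s2, -, -, -, hX, -, -, -, -⟩ := exit_pt hp hn h0 h1
  have hSS : (w, crs w (vtx p i)) ∈ SS θ p n := ⟨hw, s1, s2⟩
  refine ⟨hSS, hX, fun m => ?_⟩
  refine SB_nc hθ hz hp g ⟨hSS, ?_⟩ m
  rintro ⟨x, hx, hxe⟩
  obtain ⟨-, -, -, -, hnx, -⟩ := TT_loc hθ hz hp g hx
  have hgood := s15_good hx
  rw [hxe] at hnx
  have hj := hgood.2.2.2
  rw [hnx] at hj
  change ∀ j, j ≠ (ltr θ p x).2 → dot (XX p w (crs w (vtx p i))) (nu p j) < p.2 j at hj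
  rw [hX] at hj
  have e1 : i = (ltr θ p x).2 := by
    by_contra h
    have := hj i h
    rw [dot_vtx_self] at this
    exact lt_irrefl _ this
  have e2 : i + 1 = (ltr θ p x).2 := by
    by_contra h
    have := hj (i + 1) h
    rw [dot_vtx_succ] at this
    exact lt_irrefl _ this
  exact s15_fin i (e2.trans e1.symm)

/-! ## the group `VV` -/

theorem s15_VV_add {θ : ℝ} {p : Par} {a b : ℝ} (ha : a ∈ VV θ p) (hb : b ∈ VV θ p) :
    a + b ∈ VV θ p := by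
  obtain ⟨c, hc, d, hd, rfl⟩ := ha
  obtain ⟨c', hc', d', hd', rfl⟩ := hb
  refine ⟨c + c', add_mem hc hc', fun j => d j + d' j, fun j => add_mem (hd j) (hd' j), ?_⟩
  simp only [add_mul, Finset.sum_add_distrib]; ring

theorem s15_VV_mul {θ : ℝ} {p : Par} {k a : ℝ} (hk : k ∈ KK θ) (ha : a ∈ VV θ p) :
    k * a ∈ VV θ p := by
  obtain ⟨c, hc, d, hd, rfl⟩ := ha
  refine ⟨k * c, mul_mem hk hc, fun j => k * d j, fun j => mul_mem hk (hd j), ?_⟩
  rw [mul_add, Finset.mul_sum]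
  congr 1
  refine Finset.sum_congr rfl fun j _ => ?_
  ring

theorem s15_VV_K {θ : ℝ} {p : Par} {k : ℝ} (hk : k ∈ KK θ) : k ∈ VV θ p :=
  ⟨k, hk, fun _ => 0, fun _ => zero_mem _, by simp⟩

theorem s15_VV_h {θ : ℝ} {p : Par} {k : ℝ} (hk : k ∈ KK θ) (j : Fin 4) : k * p.2 j ∈ VV θ p := by
  refine ⟨0, zero_mem _, fun i => if i = j then k else 0, fun i => ?_, ?_⟩
  · dsimp only
    split_ifs
    · exact hk
    · exact zero_mem _
  · simp

/-- `VV` as a subgroup. -/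
def s15_V (θ : ℝ) (p : Par) : AddSubgroup ℝ where
  carrier := VV θ p
  add_mem' := s15_VV_add
  zero_mem' := s15_VV_K (zero_mem _)
  neg_mem' := by
    intro x hx
    have h := s15_VV_mul (k := -1) (neg_mem (one_mem (KK θ))) hx
    rw [neg_one_mul] at h
    exact h

theorem s15_sdet (θ : ℝ) (d : Sg) : sdet d ∈ KK θ := by
  rcases sdet_cases d with h | h
  · rw [h]; exact one_mem _
  · rw [h]; exact neg_mem (one_mem _)

theorem s15_hf {θ : ℝ} (hθ : |θ - Real.pi / 4| < 1 / 100) (hz : Transcendental ℚ (zz θ))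
    {p : Par} (hp : p ∈ Pi0) {n : ℕ} (g : Gen θ p n) {x : ℂ × ℝ} (hx : x ∈ SS θ p n \ SA θ p n) :
    ∀ᶠ t in 𝓝 (0 : ℝ), ff θ p (x.1, x.2 + t) = ff θ p x := by
  obtain ⟨-, h, -, -, -, -⟩ := TT_loc hθ hz hp g hx
  filter_upwards [h] with t ht
  unfold ff
  rw [ht.2.1, ht.2.2]

theorem s15_hVT {θ : ℝ} (hθ : |θ - Real.pi / 4| < 1 / 100) (hz : Transcendental ℚ (zz θ))
    {p : Par} (hp : p ∈ Pi0) {n : ℕ} (g : Gen θ p n) {x : ℂ × ℝ} (hx : x ∈ SS θ p n \ SA θ p n)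
    (e : ℝ) (he : ∀ᶠ t in 𝓝 (0 : ℝ), TT θ p (x.1, x.2 + t) =
      ((TT θ p x).1, (TT θ p x).2 + e * t)) : (TT θ p x).2 - e * x.2 ∈ VV θ p := by
  obtain ⟨hT, h, hT2, -, -, -⟩ := TT_loc hθ hz hp g hx
  obtain ⟨-, -, v3, v4, -⟩ := inVV hθ hz hp g
  have hev := (he.and h)
  rw [Metric.eventually_nhds_iff] at hev
  obtain ⟨δ, hδ, hev⟩ := hev
  have h1 := hev (y := δ / 2) (by rw [Real.dist_eq, sub_zero, abs_of_pos (by linarith)]; linarith)
  obtain ⟨a1, -, -, a2⟩ := h1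
  rw [a1] at a2
  have a3 := congrArg Prod.snd a2
  dsimp only at a3
  have a4 : e = -sdet (ltr θ p x).1.1 := by
    have hne : δ / 2 ≠ 0 := by linarith
    apply mul_right_cancel₀ hne
    linarith
  have e1 : (TT θ p x).2 - e * x.2 = sdet (ltr θ p x).1.1 * crs x.1 (lat θ (ltr θ p x).1.2) +
      (2 * crs (TT θ p x).1 (nu p (ltr θ p x).2)) * p.2 (ltr θ p x).2 := by
    rw [a4]; linear_combination hT2
  rw [e1]
  refine s15_VV_add (s15_VV_K (mul_mem (s15_sdet θ _) (v4 _ hx.1.1 _).2)) (s15_VV_h ?_ _)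
  exact mul_mem (by exact_mod_cast natCast_mem (KK θ) 2) (v3 _ hT.1 _).2

theorem s15_cos {θ : ℝ} (hθ : |θ - Real.pi / 4| < 1 / 100) : 0 < ell θ := by
  have h2 : Real.sqrt 2 ^ 2 = 2 := Real.sq_sqrt (by norm_num)
  have h0 : 0 ≤ Real.sqrt 2 := Real.sqrt_nonneg 2
  have hlo : 1.414 < Real.sqrt 2 := by nlinarith
  have hc : |Real.cos θ - Real.cos (Real.pi / 4)| ≤ |θ - Real.pi / 4| :=
    Real.abs_cos_sub_cos_le θ (Real.pi / 4)
  rw [Real.cos_pi_div_four, abs_le] at hc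
  unfold ell
  apply div_pos (by norm_num)
  linarith

theorem s15_hint {θ : ℝ} (hθ : |θ - Real.pi / 4| < 1 / 100) (hz : Transcendental ℚ (zz θ))
    {p : Par} (hp : p ∈ Pi0) {n : ℕ} (g : Gen θ p n) (q : ℕ) (hq : 0 < q) (v : ℝ)
    (hv : v ∈ VV θ p) :
    (q : ℝ) * ∑ w ∈ (DD_finite θ n).toFinset, ∫ o in (oa p w)..(ob p w), ff θ p (w, o) ≠
      ell θ * v := by
  obtain ⟨v0, hv0, hint⟩ := int_ff hθ hz hp g
  obtain ⟨-, -, -, -, hell⟩ := inVV hθ hz hp g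
  rw [hint]
  intro heq
  apply g.quad
  set N := (DD_finite θ n).toFinset.card with hN
  have hNpos : 0 < N := Finset.card_pos.mpr ⟨zz θ, (Set.Finite.mem_toFinset _).mpr (s15_zz θ n)⟩
  have hNr : (0 : ℝ) < N := by exact_mod_cast hNpos
  have hqr : (0 : ℝ) < q := by exact_mod_cast hq
  have e1 : (p.2 0 + p.2 2) * (p.2 1 + p.2 3) =
      ((q : ℝ) * N)⁻¹ * ((q : ℝ) * v0 + ((-1) * (ell θ * v))) := by
    rw [← heq]; field_simp; ring
  rw [e1]
  refine s15_VV_mul (inv_mem (mul_mem (natCast_mem _ _) (natCast_mem _ _)))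
    (s15_VV_add (s15_VV_mul (natCast_mem _ _) hv0)
      (s15_VV_mul (neg_mem (one_mem _)) (s15_VV_mul hell hv)))

theorem s15_visit_append {θ : ℝ} {p : Par} {l : List Lt} {z z' : ℂ × ℂ} {V : Set (ℂ × ℂ)} {t : ℝ}
    (hl : GoodL θ p l z) (hr : run θ p l z = z') (h : VisitL θ p [] z' V t) :
    VisitL θ p l z V (tim θ p l z + t) := by
  obtain ⟨-, h1, h2, h3⟩ := h
  change 0 < t at h1
  change ∀ s : ℝ, 0 < s → s ≤ t - 0 → Fre θ p (z'.1 + s * z'.2) at h2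
  refine ⟨hl, by linarith, ?_, ?_⟩
  · intro s h0 hs
    rw [hr]
    exact h2 s h0 (by linarith)
  · obtain ⟨c, hc⟩ := h3
    refine ⟨c, ?_⟩
    change (frm θ c (z'.1 + ((t - 0 : ℝ) : ℂ) * z'.2), act c.1 z'.2) ∈ V at hc
    rw [hr]
    have : tim θ p l z + t - tim θ p l z = t - 0 := by ring
    rw [this]
    exact hc

theorem s15_sd {θ : ℝ} {p : Par} {n : ℕ} {x : ℂ × ℝ}
    (hx : x ∈ (sys θ p n).S \ (sys θ p n).A) : x ∈ SS θ p n \ SA θ p n :=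
  ⟨⟨(Set.Finite.mem_toFinset _).mp hx.1.1, hx.1.2⟩, hx.2⟩

theorem visits_gen {θ : ℝ} (hθ : |θ - Real.pi / 4| < 1 / 100) (hz : Transcendental ℚ (zz θ))
    {p : Par} (hp : p ∈ Pi0) {n : ℕ} (g : Gen θ p n) {v x : ℂ} (hv : v ∈ DD θ n)
    (hs : ¬ Spc θ v) (hx : Fre θ p x) {V : Set (ℂ × ℂ)} (hV : IsOpen V) (hxV : (x, v) ∈ V)
    (τ ε : ℝ) (hε : 0 < ε) :
    (∃ t, ∃ k : ℤ, Visit θ p (sepp θ p) V t ∧ |t - τ - k * ell θ| < ε) ∧
    ∃ t, Visit θ p (sepm θ p) V t := by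
  obtain ⟨y, hy, τa, εa, hεa, haim⟩ := aim hθ hz hp g hv hs hx hV hxV
  have ok := sys_ok hθ hz hp g
  obtain ⟨-, -, -, -, m1, m2, q2, q3⟩ := sep_out hθ hp
  obtain ⟨-, hzn, -, hza, hzr, -⟩ := DD_ops hz g (s15_zz θ n)
  obtain ⟨hyn, -, -, -, -, hy0⟩ := DD_ops hz g hy.1
  obtain ⟨i, f1, f2, -, -⟩ := facing hy0
  obtain ⟨-, -, -, -, -, -, -, -, -, -, -, hcb⟩ := exit_pt hp hyn f1 f2
  have hbe : ContinuousAt (fun o => be p y.1 o) y.2 := hcb.continuousAt (Icc_mem_nhds hy.2.1 hy.2.2)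
  constructor
  · -- the first separatrix
    have hwD : (sepp θ p).2 ∈ DD θ n := by
      have h1 := hza dp
      exact (DD_ops hz g h1).2.2.2.2.1 3
    obtain ⟨hS, hX, hinf⟩ := s15_vtx hθ hz hp g hwD (i := 2) q2 q3
    set w := (sepp θ p).2 with hw
    set x0 : ℂ × ℝ := (w, crs w (vtx p 2)) with hx0
    rw [Metric.continuousAt_iff] at hbe
    obtain ⟨δ, hδ, hbe⟩ := hbe (ε / 2) (by linarith)
    obtain ⟨m, r1, r2, k, r3⟩ := residues (sys θ p n) ok (ff θ p)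
      (fun x hx => s15_hf hθ hz hp g (s15_sd hx)) (s15_V θ p)
      (fun w hw => (inVV hθ hz hp g).1 w ((Set.Finite.mem_toFinset _).mp hw))
      (fun x hx => (inVV hθ hz hp g).2.1 x hx)
      (fun x hx e he => s15_hVT hθ hz hp g (s15_sd hx) e he) (ell θ) (s15_cos hθ)
      (fun q hq v hv => s15_hint hθ hz hp g q hq v hv) x0
      ⟨(Set.Finite.mem_toFinset _).mpr hS.1, hS.2⟩ hinf y
      ⟨(Set.Finite.mem_toFinset _).mpr hy.1, hy.2⟩ (τ - τa + be p x0.1 x0.2 - be p y.1 y.2)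
      (min (min εa δ) (ε / 2)) (lt_min (lt_min hεa hδ) (by linarith))
    change ((TT θ p)^[m] x0).1 = y.1 at r1
    change |((TT θ p)^[m] x0).2 - y.2| < _ at r2
    change |∑ j ∈ Finset.range m, ff θ p ((TT θ p)^[j] x0) - _ - _| < _ at r3
    obtain ⟨l, -, hgl, hrun, hSm, htim⟩ := iter_run hθ hz hp g hS m (fun k _ => hinf k)
    have ha := haim _ hSm r1 (lt_of_lt_of_le r2 ((min_le_left _ _).trans (min_le_left _ _)))
    have hvis := s15_visit_append hgl hrun ha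
    have e1 : (XX p x0.1 x0.2, x0.1) = sepp θ p := by
      change (XX p w (crs w (vtx p 2)), w) = sepp θ p
      rw [hX]; rfl
    rw [e1] at hvis htim
    refine ⟨_, k, ⟨l, hvis⟩, ?_⟩
    rw [htim]
    have hb : |be p ((TT θ p)^[m] x0).1 ((TT θ p)^[m] x0).2 - be p y.1 y.2| < ε / 2 := by
      rw [r1]
      have := hbe (x := ((TT θ p)^[m] x0).2) (by
        rw [Real.dist_eq]
        exact lt_of_lt_of_le r2 ((min_le_left _ _).trans (min_le_right _ _)))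
      rwa [Real.dist_eq] at this
    have h3 := lt_of_lt_of_le r3 (min_le_right _ _)
    rw [abs_lt] at hb h3 ⊢
    constructor <;> linarith [hb.1, hb.2, h3.1, h3.2]
  · have hwD : (sepm θ p).2 ∈ DD θ n := (DD_ops hz g (hzr 1)).2.1
    obtain ⟨hS, hX, hinf⟩ := s15_vtx hθ hz hp g hwD (i := 1) m1 m2
    set w := (sepm θ p).2 with hw
    set x0 : ℂ × ℝ := (w, crs w (vtx p 1)) with hx0
    obtain ⟨m, r1, r2⟩ := dense (sys θ p n) ok x0
      ⟨(Set.Finite.mem_toFinset _).mpr hS.1, hS.2⟩ hinf y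
      ⟨(Set.Finite.mem_toFinset _).mpr hy.1, hy.2⟩ εa hεa
    change ((TT θ p)^[m] x0).1 = y.1 at r1
    change |((TT θ p)^[m] x0).2 - y.2| < _ at r2
    obtain ⟨l, -, hgl, hrun, hSm, htim⟩ := iter_run hθ hz hp g hS m (fun k _ => hinf k)
    have ha := haim _ hSm r1 r2
    have hvis := s15_visit_append hgl hrun ha
    have e1 : (XX p x0.1 x0.2, x0.1) = sepm θ p := by
      change (XX p w (crs w (vtx p 1)), w) = sepm θ p
      rw [hX]; rfl
    rw [e1] at hvis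
    exact ⟨_, l, hvis⟩

end TMX
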