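import Pool.Agent.TMX.A5
import Pool.Agent.TMX.A6
import Pool.Agent.TMX.Basic
import Pool.Agent.TMX.C1
import Pool.Agent.TMX.F1
import Pool.Agent.TMX.G4
import Pool.Agent.TMX.S15

/-! # TMX [O1]: Baire category -/

set_option autoImplicit false

open Set Filter Topology

namespace TMX

theorem O1_nu_cont (j : Fin 4) : Continuous fun p : Par => nu p j := by
  unfold nu; fun_prop

theorem O1_coord_cont (j : Fin 4) : Continuous fun p : Par => p.2 j :=
  (continuous_apply j).comp continuous_snd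

theorem O1_vtx_cont (j : Fin 4) : Continuous fun p : Par => vtx p j := by
  unfold vtx
  exact ((Complex.continuous_ofReal.comp (O1_coord_cont j)).mul (O1_nu_cont j)).add
    ((Complex.continuous_ofReal.comp (O1_coord_cont (j + 1))).mul (O1_nu_cont (j + 1)))

theorem O1_refl_cont (j : Fin 4) (w : ℂ) : Continuous fun p : Par => refl p j w := by
  unfold refl
  have h : Continuous fun p : Par => dot w (nu p j) :=
    continuous_dot.comp (continuous_const.prodMk (O1_nu_cont j))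
  exact continuous_const.sub ((Complex.continuous_ofReal.comp (continuous_const.mul h)).mul
    (O1_nu_cont j))

theorem O1_sepp_cont (θ : ℝ) : Continuous fun p : Par => sepp θ p := by
  unfold sepp; exact (O1_vtx_cont 2).prodMk (O1_refl_cont 3 _)

theorem O1_sepm_cont (θ : ℝ) : Continuous fun p : Par => sepm θ p := by
  unfold sepm; exact (O1_vtx_cont 1).prodMk (O1_refl_cont 1 _).neg

theorem O1_Pi0_open : IsOpen Pi0 := by
  have e : Pi0 = {p : Par | 1 / 10 < p.1} ∩ ({p | p.1 < 3 / 10} ∩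
      ((⋂ j, {p | 0 < p.2 j + p.2 (j + 2)}) ∩
        ⋂ j, ({p | |(vtx p j).re - 1 / 4| < 1 / 50} ∩ {p | |(vtx p j).im - 1 / 2| < 1 / 50}))) := by
    ext p
    simp only [Pi0, mem_ofPred_eq, mem_inter_iff, mem_iInter]
  rw [e]
  refine (isOpen_lt continuous_const continuous_fst).inter
    ((isOpen_lt continuous_fst continuous_const).inter (IsOpen.inter ?_ ?_))
  · apply isOpen_iInter_of_finite; intro j
    exact isOpen_lt continuous_const ((O1_coord_cont j).add (O1_coord_cont (j + 2)))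
  · apply isOpen_iInter_of_finite; intro j
    have h := O1_vtx_cont j
    exact (isOpen_lt ((Complex.continuous_re.comp h).sub continuous_const).abs
      continuous_const).inter
      (isOpen_lt ((Complex.continuous_im.comp h).sub continuous_const).abs continuous_const)

theorem O1_notQ_open (x : ℂ) : IsOpen {p : Par | x ∉ Q p} := by
  have e : {p : Par | x ∉ Q p} = ⋃ j, {p : Par | p.2 j < dot x (nu p j)} := by
    ext p
    simp only [Q, mem_ofPred_eq, mem_iUnion, not_forall, not_le]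
  rw [e]
  apply isOpen_iUnion; intro j
  exact isOpen_lt (O1_coord_cont j) (continuous_dot.comp (continuous_const.prodMk (O1_nu_cont j)))

theorem O1_mono {θ : ℝ} {p : Par} {z : ℂ × ℂ} {V W : Set (ℂ × ℂ)} (h : V ⊆ W) {t : ℝ}
    (hv : Visit θ p z V t) : Visit θ p z W t := by
  obtain ⟨l, h1, h2, h3, c, h4⟩ := hv
  exact ⟨l, h1, h2, h3, c, h h4⟩

/-- Parameters for which both separatrices visit `V`, one of them at a given time modulo `ell`. -/
def O1_A (θ : ℝ) (V : Set (ℂ × ℂ)) (τ ε : ℝ) : Set Par :=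
  {p | p ∈ Pi0 ∧ (∃ t, ∃ k : ℤ, Visit θ p (sepp θ p) V t ∧ |t - τ - k * ell θ| < ε) ∧
    ∃ t, Visit θ p (sepm θ p) V t}

/-- Parameters for which `V` contains a phase point of the table. -/
def O1_E (θ : ℝ) (V : Set (ℂ × ℂ)) : Set Par :=
  {p | p ∈ Pi0 ∧ ∃ x v : ℂ, x ∈ Ro θ ∧ x ∉ Q p ∧ ‖v‖ = 1 ∧ (x, v) ∈ V}

theorem O1_visit {θ : ℝ} (hθ : |θ - Real.pi / 4| < 1 / 100) {p : Par} (hp : p ∈ Pi0)
    {s : Par → ℂ × ℂ} (hs : Continuous s) (ho : ∀ q ∈ Pi0, Out q (s q).1 (s q).2)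
    {V : Set (ℂ × ℂ)} (hV : IsOpen V) {t : ℝ} (h : Visit θ p (s p) V t) :
    ∀ᶠ q in 𝓝 p, Visit θ q (s q) V t := by
  obtain ⟨l, hl⟩ := h
  have hvo := visit_open hθ hp (Or.inl (ho p hp)) hV hl
  have hc : ContinuousAt (fun q : Par => (((q, s q), t) : (Par × (ℂ × ℂ)) × ℝ)) p :=
    (((continuous_id.prodMk hs).prodMk continuous_const)).continuousAt
  have h0 := hc.eventually hvo
  filter_upwards [h0, O1_Pi0_open.mem_nhds hp] with q hq hqp
  exact ⟨l, hq (Or.inl (ho q hqp))⟩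

theorem O1_A_open {θ : ℝ} (hθ : |θ - Real.pi / 4| < 1 / 100) {V : Set (ℂ × ℂ)} (hV : IsOpen V)
    (τ ε : ℝ) : IsOpen (O1_A θ V τ ε) := by
  rw [isOpen_iff_mem_nhds]
  rintro p ⟨hp, ⟨t, k, h1, h2⟩, t', h3⟩
  have e1 := O1_visit hθ hp (O1_sepp_cont θ) (fun q hq => (sep_out hθ hq).2.1) hV h1
  have e2 := O1_visit hθ hp (O1_sepm_cont θ) (fun q hq => (sep_out hθ hq).1) hV h3
  filter_upwards [e1, e2, O1_Pi0_open.mem_nhds hp] with q q1 q2 q3
  exact ⟨q3, ⟨t, k, q1, h2⟩, t', q2⟩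

theorem O1_dense {θ : ℝ} (hθ : |θ - Real.pi / 4| < 1 / 100) (hz : Transcendental ℚ (zz θ))
    {V : Set (ℂ × ℂ)} (hV : IsOpen V) {τ ε : ℝ} (hε : 0 < ε) :
    O1_E θ V ⊆ closure (O1_A θ V τ ε) := by
  rintro p ⟨hp, x, v, hx, hxQ, hv, hxv⟩
  rw [mem_closure_iff_nhds]
  intro N hN
  have hVx : IsOpen {w : ℂ | (x, w) ∈ V} := hV.preimage (by fun_prop)
  obtain ⟨δ, hδ, hball⟩ := Metric.isOpen_iff.mp hVx v hxv
  obtain ⟨n₀, hn₀⟩ := DD_dense θ hv hδ
  have hN' : N ∩ {q : Par | x ∉ Q q} ∈ 𝓝 p := inter_mem hN ((O1_notQ_open x).mem_nhds hxQ)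
  obtain ⟨q, ⟨hqN, hqx⟩, hqP, n, hn, g⟩ := gen_dense θ hp hN' n₀
  obtain ⟨w, hw, hws, hwv⟩ := hn₀ n hn
  have hxw : (x, w) ∈ V := hball (by rw [Metric.mem_ball, dist_eq_norm]; exact hwv)
  have hF : Fre θ q x := (table_closure hθ hqP).2.2 x hx hqx
  exact ⟨q, hqN, hqP, visits_gen hθ hz hqP g hw hws hF hV hxw τ ε hε⟩

/-- [O1] -/
theorem residual_visits {θ : ℝ} (hθ : |θ - Real.pi / 4| < 1 / 100)
    (hz : Transcendental ℚ (zz θ)) :
    ∃ G ∈ residual Par, ∀ p ∈ G, p ∈ Pi0 → ∀ x v : ℂ, x ∈ Ro θ → x ∉ Q p → ‖v‖ = 1 →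
      ∀ V : Set (ℂ × ℂ), IsOpen V → (x, v) ∈ V →
      (∀ τ ε : ℝ, 0 < ε → ∃ t, ∃ k : ℤ, Visit θ p (sepp θ p) V t ∧ |t - τ - k * ell θ| < ε) ∧
      ∃ t, Visit θ p (sepm θ p) V t := by
  let B := TopologicalSpace.countableBasis (ℂ × ℂ)
  have hB : B.Countable := TopologicalSpace.countable_countableBasis _
  have hBo : ∀ V ∈ B, IsOpen V := fun V hV => TopologicalSpace.isOpen_of_mem_countableBasis hV
  let F : Set (ℂ × ℂ) → ℚ × ℕ → Set Par := fun V q =>
    O1_A θ V q.1 (1 / ((q.2 : ℝ) + 1)) ∪ (closure (O1_E θ V))ᶜ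
  have hF : ∀ V ∈ B, ∀ q, F V q ∈ residual Par := by
    intro V hV q
    have hpos : (0 : ℝ) < 1 / ((q.2 : ℝ) + 1) := by positivity
    apply residual_of_dense_open
    · exact (O1_A_open hθ (hBo V hV) _ _).union isClosed_closure.isOpen_compl
    · intro p
      by_cases hp : p ∈ closure (O1_E θ V)
      · have h1 : closure (O1_E θ V) ⊆ closure (O1_A θ V q.1 (1 / ((q.2 : ℝ) + 1))) :=
          closure_minimal (O1_dense hθ hz (hBo V hV) hpos) isClosed_closure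
        exact closure_mono subset_union_left (h1 hp)
      · exact subset_closure (Or.inr hp)
  refine ⟨⋂ V ∈ B, ⋂ q, F V q, ?_, ?_⟩
  · rw [countable_bInter_mem hB]
    intro V hV
    rw [countable_iInter_mem]
    exact hF V hV
  · intro p hpG hp x v hx hxQ hv V hV hxV
    obtain ⟨V₀, hV₀, hxV₀, hsub⟩ :=
      (TopologicalSpace.isBasis_countableBasis (ℂ × ℂ)).exists_subset_of_mem_open hxV hV
    have hE : p ∈ O1_E θ V₀ := ⟨hp, x, v, hx, hxQ, hv, hxV₀⟩
    have hA : ∀ q : ℚ × ℕ, p ∈ O1_A θ V₀ q.1 (1 / ((q.2 : ℝ) + 1)) := by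
      intro q
      have h1 := mem_iInter.mp (mem_iInter₂.mp hpG V₀ hV₀) q
      rcases h1 with h1 | h1
      · exact h1
      · exact absurd (subset_closure hE) h1
    refine ⟨fun τ ε hε => ?_, ?_⟩
    · obtain ⟨N, hN⟩ := exists_nat_one_div_lt (half_pos hε)
      obtain ⟨r, hr1, hr2⟩ := exists_rat_btwn (show τ < τ + ε / 2 by linarith)
      obtain ⟨-, ⟨t, k, h1, h2⟩, -⟩ := hA (r, N)
      refine ⟨t, k, O1_mono hsub h1, ?_⟩
      simp only at h2
      rw [abs_lt] at h2 ⊢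
      constructor <;> linarith
    · obtain ⟨-, -, t, h3⟩ := hA (0, 0)
      exact ⟨t, O1_mono hsub h3⟩

end TMX
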