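import Pool.Agent.TMX.Basic
import Pool.Agent.TMX.C3
import Pool.Agent.TMX.F1
import Pool.Agent.TMX.M1
import Pool.Agent.TMX.O1

set_option autoImplicit false

open Set Filter Topology

namespace TMX

theorem continuous_nu (j : Fin 4) : Continuous fun p : Par => nu p j := by
  unfold nu; fun_prop

theorem continuous_vtx (j : Fin 4) : Continuous fun p : Par => vtx p j := by
  unfold vtx
  have h := continuous_nu
  fun_prop (disch := exact h _)

theorem isOpen_Pi0 : IsOpen Pi0 := by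
  have h : Pi0 = {p : Par | 1 / 10 < p.1} ∩ ({p : Par | p.1 < 3 / 10} ∩
      ((⋂ j : Fin 4, {p : Par | 0 < p.2 j + p.2 (j + 2)}) ∩
        (⋂ j : Fin 4, ({p : Par | |(vtx p j).re - 1 / 4| < 1 / 50} ∩
          {p : Par | |(vtx p j).im - 1 / 2| < 1 / 50})))) := by
    ext p; simp [Pi0]
  rw [h]
  refine IsOpen.inter (isOpen_lt (by fun_prop) (by fun_prop)) (IsOpen.inter
    (isOpen_lt (by fun_prop) (by fun_prop)) (IsOpen.inter (isOpen_iInter_of_finite fun j =>
      isOpen_lt (by fun_prop) (by fun_prop)) (isOpen_iInter_of_finite fun j => IsOpen.inter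
        (isOpen_lt ?_ (by fun_prop)) (isOpen_lt ?_ (by fun_prop)))))
  · exact ((Complex.continuous_re.comp (continuous_vtx j)).sub continuous_const).abs
  · exact ((Complex.continuous_im.comp (continuous_vtx j)).sub continuous_const).abs

theorem Pi0_nonempty : Pi0.Nonempty := by
  let c : ℂ := ⟨1 / 4, 1 / 2⟩
  let p0 : Par := (1 / 5, fun _ => 0)
  let p : Par := (1 / 5, fun j => dot c (nu p0 j) + 1 / 200)
  have hnu : ∀ j, nu p j = nu p0 j := fun j => rfl
  have hv : ∀ j, vtx p j = c + (1 / 200 : ℝ) * (nu p j + nu p (j + 1)) := by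
    intro j
    have h := basis_nu p j c
    conv_rhs => rw [h]
    simp only [vtx]
    change ((dot c (nu p0 j) + 1 / 200 : ℝ) : ℂ) * nu p j +
      ((dot c (nu p0 (j + 1)) + 1 / 200 : ℝ) : ℂ) * nu p (j + 1) = _
    rw [hnu, hnu]; push_cast; ring
  have hd : ∀ j, ‖((1 / 200 : ℝ) : ℂ) * (nu p j + nu p (j + 1))‖ < 1 / 50 := by
    intro j
    rw [norm_mul, Complex.norm_real]
    have := norm_add_le (nu p j) (nu p (j + 1))
    rw [nu_norm, nu_norm] at this
    rw [Real.norm_eq_abs, abs_of_pos (by norm_num)]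
    linarith
  refine ⟨p, ?_, ?_, ?_, ?_⟩
  · change (1 : ℝ) / 10 < 1 / 5; norm_num
  · change (1 : ℝ) / 5 < 3 / 10; norm_num
  · intro j
    change 0 < dot c (nu p0 j) + 1 / 200 + (dot c (nu p0 (j + 2)) + 1 / 200)
    rw [dot_add_two]; linarith
  · intro j
    have h1 := Complex.abs_re_le_norm (((1 / 200 : ℝ) : ℂ) * (nu p j + nu p (j + 1)))
    have h2 := Complex.abs_im_le_norm (((1 / 200 : ℝ) : ℂ) * (nu p j + nu p (j + 1)))
    rw [hv, Complex.add_re, Complex.add_im]
    change |1 / 4 + _ - 1 / 4| < _ ∧ |1 / 2 + _ - 1 / 2| < _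
    rw [add_sub_cancel_left, add_sub_cancel_left]
    exact ⟨lt_of_le_of_lt h1 (hd j), lt_of_le_of_lt h2 (hd j)⟩

theorem residual_irrational : {p : Par | Irrational (p.1 / Real.pi)} ∈ residual Par := by
  have h : {p : Par | Irrational (p.1 / Real.pi)} =
      ⋂ q : ℚ, {p : Par | p.1 ≠ q * Real.pi} := by
    ext p
    rw [Set.mem_iInter]
    change Irrational _ ↔ ∀ q : ℚ, p.1 ≠ q * Real.pi
    constructor
    · intro h q hq
      apply h
      exact ⟨q, by rw [hq]; field_simp⟩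
    · rintro h ⟨q, hq⟩
      apply h q
      rw [hq]; field_simp
  rw [h]
  refine countable_iInter_mem.2 fun q => residual_of_dense_open ?_ ?_
  · exact isOpen_ne_fun (by fun_prop) (by fun_prop)
  · have : Dense ((Prod.fst : Par → ℝ) ⁻¹' {(q * Real.pi : ℝ)}ᶜ) :=
      (dense_compl_singleton (q * Real.pi : ℝ)).preimage isOpenMap_fst
    exact this

/-- [M2] main theorem. -/
theorem main {θ : ℝ} (hθ : |θ - Real.pi / 4| < 1 / 100) (hz : Transcendental ℚ (zz θ)) :
    IsOpen Pi0 ∧ Pi0.Nonempty ∧ ∃ G ∈ residual Par, ∀ p ∈ G, p ∈ Pi0 →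
      Irrational (p.1 / Real.pi) ∧
      BIL.IsPolygon (Tb θ p) (sa θ p) (sb θ p) ∧ TopMix (Tb θ p) (sa θ p) (sb θ p) := by
  obtain ⟨G, hG, h⟩ := residual_visits hθ hz
  refine ⟨isOpen_Pi0, Pi0_nonempty, G ∩ {p : Par | Irrational (p.1 / Real.pi)},
    Filter.inter_mem hG residual_irrational, ?_⟩
  rintro p ⟨hpG, hirr⟩ hp
  refine ⟨hirr, polygon hθ hp, topmix_of_visits hθ hp ?_⟩
  rintro U V hU hV ⟨z, hzU, hz1, hz2, hz3⟩ ⟨y, hyV, hy1, hy2, hy3⟩
  apply criterion hθ hp hU hV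
  · have hr : IsOpen (rev U) := hU.preimage (by fun_prop : Continuous fun z : ℂ × ℂ => (z.1, -z.2))
    have hm : (z.1, -z.2) ∈ rev U := by
      change (z.1, - -z.2) ∈ U
      rw [neg_neg]; exact hzU
    exact (h p hpG hp z.1 (-z.2) hz1 hz2 (by rw [norm_neg]; exact hz3) (rev U) hr hm).2
  · exact (h p hpG hp y.1 y.2 hy1 hy2 hy3 V hV hyV).1

theorem exists_theta : ∃ θ : ℝ, |θ - Real.pi / 4| < 1 / 100 ∧ Transcendental ℚ (zz θ) := by
  by_contra hcon
  push Not at hcon
  have hc : ({x : ℂ | IsAlgebraic ℚ x} : Set ℂ).Countable := Algebraic.countable ℚ ℂ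
  have hsub : zz '' (Ioo (Real.pi / 4) (Real.pi / 4 + 1 / 100)) ⊆ {x : ℂ | IsAlgebraic ℚ x} := by
    rintro _ ⟨θ, ⟨h1, h2⟩, rfl⟩
    have := hcon θ (by rw [abs_lt]; constructor <;> linarith)
    rw [Transcendental, not_not] at this
    exact this
  have hinj : InjOn zz (Ioo (Real.pi / 4) (Real.pi / 4 + 1 / 100)) := by
    intro a ha b hb hab
    have h1 : Real.cos a = Real.cos b := by rw [← zz_re, ← zz_re, hab]
    have hpi := Real.pi_gt_three
    exact Real.injOn_cos ⟨by linarith [ha.1], by linarith [ha.2]⟩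
      ⟨by linarith [hb.1], by linarith [hb.2]⟩ h1
  have hcount : (Ioo (Real.pi / 4) (Real.pi / 4 + 1 / 100)).Countable :=
    (Set.countable_of_injective_of_countable_image hinj (hc.mono hsub))
  have := Cardinal.Real.Ioo_countable_iff.mp hcount
  linarith

end TMX
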