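import Pool.Agent.TMX.Basic
import Pool.Agent.TMX.G1

set_option autoImplicit false

open Set Filter Topology

namespace TMX

private theorem Q1_cs {θ : ℝ} (hθ : |θ - Real.pi / 4| < 1 / 100) :
    0.69 < Real.cos θ ∧ Real.cos θ < 0.72 ∧ 0.69 < Real.sin θ ∧ Real.sin θ < 0.72 := by
  have h1 := (Real.abs_cos_sub_cos_le θ (Real.pi / 4)).trans_lt hθ
  have h2 := (Real.abs_sin_sub_sin_le θ (Real.pi / 4)).trans_lt hθ
  rw [Real.cos_pi_div_four, abs_lt] at h1
  rw [Real.sin_pi_div_four, abs_lt] at h2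
  have h3 : (1.41 : ℝ) < Real.sqrt 2 := by
    rw [Real.lt_sqrt (by norm_num)]
    norm_num
  have h4 : Real.sqrt 2 < (1.42 : ℝ) := by
    rw [Real.sqrt_lt' (by norm_num)]
    norm_num
  refine ⟨?_, ?_, ?_, ?_⟩ <;> linarith [h1.1, h1.2, h2.1, h2.2]

private theorem Q1_ang {θ : ℝ} (hθ : |θ - Real.pi / 4| < 1 / 100) {p : Par} (hp : p ∈ Pi0) :
    0 < dot (zz θ) (nu p 1) ∧ 0 < crs (zz θ) (nu p 1) ∧ 0 < dot (act dp (zz θ)) (nu p 2) ∧
      0 < crs (act dp (zz θ)) (nu p 2) := by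
  obtain ⟨hp1, hp2, -, -⟩ := hp
  rw [abs_lt] at hθ
  have hpi := Real.pi_gt_three
  have s1 : 0 < Real.sin (θ - p.1) :=
    Real.sin_pos_of_pos_of_lt_pi (by linarith) (by linarith)
  have s2 : 0 < Real.cos (θ - p.1) :=
    Real.cos_pos_of_mem_Ioo ⟨by linarith, by linarith⟩
  have s3 : 0 < Real.sin (θ + p.1) :=
    Real.sin_pos_of_pos_of_lt_pi (by linarith) (by linarith)
  have s4 : 0 < Real.cos (θ + p.1) :=
    Real.cos_pos_of_mem_Ioo ⟨by linarith, by linarith⟩
  rw [Real.sin_sub] at s1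
  rw [Real.cos_sub] at s2
  rw [Real.sin_add] at s3
  rw [Real.cos_add] at s4
  have e1 : nu p 1 = Complex.I * nu p 0 := nu_succ p 0
  have e2 : nu p 2 = -nu p 0 := by
    have := nu_add_two p 0
    rwa [zero_add] at this
  have a1 : (act dp (zz θ)).re = -Real.cos θ := by simp [act, dp, zz_re]
  have a2 : (act dp (zz θ)).im = Real.sin θ := by simp [act, dp, zz_im]
  refine ⟨?_, ?_, ?_, ?_⟩
  · rw [e1, dot_mul_I]
    unfold crs
    rw [zz_re, zz_im, nu_re_zero, nu_im_zero]
    linarith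
  · rw [e1, crs_mul_I]
    unfold dot
    rw [zz_re, zz_im, nu_re_zero, nu_im_zero]
    linarith
  · rw [e2, dot_neg_right]
    unfold dot
    rw [a1, a2, nu_re_zero, nu_im_zero]
    linarith
  · rw [e2, crs_neg_right]
    unfold crs
    rw [a1, a2, nu_re_zero, nu_im_zero]
    linarith

private theorem Q1_max {p : Par} {z : ℂ} {j : Fin 4} (h1 : 0 < crs z (nu p j))
    (h2 : 0 < dot z (nu p j)) {X : ℂ} (hX : X ∈ Q p) : crs z X ≤ crs z (vtx p j) := by
  have e : crs z X = dot X (nu p j) * crs z (nu p j) +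
      dot X (nu p (j + 1)) * crs z (nu p (j + 1)) := by
    conv_lhs => rw [basis_nu p j X]
    rw [crs_add_right, crs_mul_right, crs_mul_right]
  rw [e, crs_vtx, crs_nu_succ]
  have b1 := hX j
  have b2 := hX (j + 1)
  have c1 := mul_le_mul_of_nonneg_right b1 h1.le
  have c2 := mul_le_mul_of_nonneg_right b2 h2.le
  linarith

private theorem Q1_prod {C S r i : ℝ} (h1 : 0.69 < C) (h2 : C < 0.72) (h3 : 0.69 < S)
    (h4 : S < 0.72) (hr : |r - 1 / 4| < 1 / 50) (hi : |i - 1 / 2| < 1 / 50) :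
    0.33 < C * i ∧ C * i < 0.375 ∧ 0.158 < S * r ∧ S * r < 0.195 := by
  rw [abs_lt] at hr hi
  obtain ⟨r1, r2⟩ := hr
  obtain ⟨i1, i2⟩ := hi
  have a1 : 0.69 * 0.48 ≤ C * i := mul_le_mul h1.le (by linarith) (by norm_num) (by linarith)
  have a2 : C * i ≤ 0.72 * 0.52 := mul_le_mul h2.le (by linarith) (by linarith) (by norm_num)
  have a3 : 0.69 * 0.23 ≤ S * r := mul_le_mul h3.le (by linarith) (by norm_num) (by linarith)
  have a4 : S * r ≤ 0.72 * 0.27 := mul_le_mul h4.le (by linarith) (by linarith) (by norm_num)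
  norm_num at a1 a2 a3 a4
  refine ⟨?_, ?_, ?_, ?_⟩ <;> linarith

private theorem Q1_decomp {z : ℂ} (hz : ‖z‖ = 1) (v n : ℂ) :
    dot v n = dot z v * dot z n + crs z v * crs z n := by
  have h : z.re * z.re + z.im * z.im = 1 := by
    have := dot_self z
    rw [hz] at this
    simpa [dot] using this
  unfold dot crs
  linear_combination (-(v.re * n.re + v.im * n.im)) * h

private theorem Q1_dp (θ : ℝ) (X : ℂ) :
    crs (zz θ) (act dp X) = -crs (act dp (zz θ)) X := by
  simp [crs, act, dp]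
  ring

private theorem Q1_strip {θ : ℝ} (hθ : |θ - Real.pi / 4| < 1 / 100) {p : Par} (hp : p ∈ Pi0)
    {c : Cp} {P : ℂ} (hP : P ∈ obs θ p c) :
    crs (zz θ) P ≤ crs (zz θ) (vtx p 1) ∨ -crs (act dp (zz θ)) (vtx p 2) ≤ crs (zz θ) P := by
  obtain ⟨C1, C2, S1, S2⟩ := Q1_cs hθ
  obtain ⟨g1, g2, g3, g4⟩ := Q1_ang hθ hp
  have hbox := box hp hP
  have hq1 := hp.2.2.2 1
  have hq2 := hp.2.2.2 2
  have hX : frm θ c P ∈ Q p := hP
  have hcos : Real.cos θ ≠ 0 := by linarith
  have hb : bb θ * Real.cos θ = Real.sin θ := Real.tan_mul_cos hcos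
  obtain ⟨d, m1, m2⟩ := c
  -- coordinates
  have hPe : P = lat θ (m1, m2) + act d (frm θ (d, (m1, m2)) P) := by
    unfold frm
    rw [act_self]
    ring
  generalize hXX : frm θ (d, (m1, m2)) P = X at hPe hX hbox
  have hlat : crs (zz θ) (lat θ (m1, m2)) = 2 * Real.sin θ * ((m2 - m1 : ℤ) : ℝ) := by
    simp only [crs, lat, zz_re, zz_im]
    push_cast
    linear_combination (2 * (m2 : ℝ)) * hb
  have hO : crs (zz θ) P = 2 * Real.sin θ * ((m2 - m1 : ℤ) : ℝ) + crs (zz θ) (act d X) := by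
    rw [hPe, crs_add_right, hlat]
  have hact : crs (zz θ) (act d X) = ((d.2 : ℤ) : ℝ) * (Real.cos θ * X.im) -
      ((d.1 : ℤ) : ℝ) * (Real.sin θ * X.re) := by
    simp only [crs, act, zz_re, zz_im]
    ring
  have ho1 : crs (zz θ) (vtx p 1) = Real.cos θ * (vtx p 1).im - Real.sin θ * (vtx p 1).re := by
    simp only [crs, zz_re, zz_im]
  have ho2 : -crs (act dp (zz θ)) (vtx p 2) =
      Real.cos θ * (vtx p 2).im + Real.sin θ * (vtx p 2).re := by
    simp [crs, act, dp, zz_re, zz_im]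
    ring
  obtain ⟨x1, x2, x3, x4⟩ := Q1_prod C1 C2 S1 S2 hbox.1 hbox.2
  obtain ⟨y1, y2, y3, y4⟩ := Q1_prod C1 C2 S1 S2 hq1.1 hq1.2
  obtain ⟨z1, z2, z3, z4⟩ := Q1_prod C1 C2 S1 S2 hq2.1 hq2.2
  have hd := sg_cases d
  rcases lt_trichotomy (m2 - m1) 0 with hK | hK | hK
  · left
    have hK' : ((m2 - m1 : ℤ) : ℝ) ≤ -1 := by exact_mod_cast Int.le_sub_one_of_lt hK
    have hm : 2 * Real.sin θ * ((m2 - m1 : ℤ) : ℝ) ≤ -1.38 := by nlinarith
    rw [hO, hact, ho1]
    generalize 2 * Real.sin θ * ((m2 - m1 : ℤ) : ℝ) = kt at hm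
    rcases hd with ⟨h1 | h1, h2 | h2⟩ <;> rw [h1, h2] <;> push_cast <;> linarith
  · rw [hK, Int.cast_zero, mul_zero, zero_add] at hO
    rcases hd with ⟨h1 | h1, h2 | h2⟩
    · left
      have e : act d X = X := by
        apply Complex.ext <;> simp [act, h1, h2]
      rw [hO, e]
      exact Q1_max g2 g1 hX
    · left
      rw [hO, hact, ho1, h1, h2]
      push_cast
      linarith
    · right
      have e : d = dp := Prod.ext h1 h2
      rw [hO, e, Q1_dp]
      exact neg_le_neg (Q1_max g4 g3 hX)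
    · left
      rw [hO, hact, ho1, h1, h2]
      push_cast
      linarith
  · right
    have hK' : (1 : ℝ) ≤ ((m2 - m1 : ℤ) : ℝ) := by exact_mod_cast hK
    have hm : 1.38 ≤ 2 * Real.sin θ * ((m2 - m1 : ℤ) : ℝ) := by nlinarith
    rw [hO, hact, ho2]
    generalize 2 * Real.sin θ * ((m2 - m1 : ℤ) : ℝ) = kt at hm
    rcases hd with ⟨h1 | h1, h2 | h2⟩ <;> rw [h1, h2] <;> push_cast <;> linarith

/-- [Q1] all crossings of the cylinder that start and end close to the two vertices. -/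
theorem crossing_unif {θ : ℝ} (hθ : |θ - Real.pi / 4| < 1 / 100) {p : Par} (hp : p ∈ Pi0) :
    ∃ ε₀ : ℝ, 0 < ε₀ ∧ ∃ m₀ : ℕ, 0 < m₀ ∧ ∀ m ≥ m₀, ∀ u v : ℝ, 0 < u → u ≤ ε₀ / m → 0 < v →
      v ≤ ε₀ / m → ∀ x y w : ℂ, x = vtx p 1 + (u : ℂ) * (vtx p 0 - vtx p 1) →
      y = lat θ ((m : ℤ), (m : ℤ)) + act dp (vtx p 2 + (v : ℂ) * (vtx p 3 - vtx p 2)) →
      w = (y - x) / (‖y - x‖ : ℂ) →
      Good θ p ((dp, ((m : ℤ), (m : ℤ))), 3) (x, w) ∧
      fl θ p ((dp, ((m : ℤ), (m : ℤ))), 3) (x, w) = ‖y - x‖ ∧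
      nx θ p ((dp, ((m : ℤ), (m : ℤ))), 3) (x, w) =
        (vtx p 2 + (v : ℂ) * (vtx p 3 - vtx p 2), refl p 3 (act dp w)) := by
  refine ⟨1 / 20, by norm_num, 1, one_pos, ?_⟩
  intro m hm u v hu hu' hv hv' x y w hx hy hw
  obtain ⟨C1, C2, S1, S2⟩ := Q1_cs hθ
  obtain ⟨g1, g2, g3, g4⟩ := Q1_ang hθ hp
  have hm1 : (1 : ℝ) ≤ m := by exact_mod_cast hm
  have hm0 : (0 : ℝ) < m := by linarith
  have hum : u * m ≤ 1 / 20 := by rwa [le_div_iff₀ hm0] at hu'
  have hvm : v * m ≤ 1 / 20 := by rwa [le_div_iff₀ hm0] at hv'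
  have hu1 : u ≤ 1 / 20 := (le_mul_of_one_le_right hu.le hm1).trans hum
  have hv1 : v ≤ 1 / 20 := (le_mul_of_one_le_right hv.le hm1).trans hvm
  have hcos : Real.cos θ ≠ 0 := by linarith
  have hb : bb θ * Real.cos θ = Real.sin θ := Real.tan_mul_cos hcos
  have hbe : bb θ = Real.sin θ / Real.cos θ := eq_div_of_mul_eq hcos hb
  have hb1 : bb θ ≤ 1.05 := by
    rw [hbe, div_le_iff₀ (by linarith)]
    linarith
  have hb9 : 0.9 ≤ bb θ := by
    rw [hbe, le_div_iff₀ (by linarith)]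
    linarith
  have hb0 : 0 < bb θ := by linarith
  have hbm1 : bb θ * m ≤ 1.05 * m := mul_le_mul_of_nonneg_right hb1 hm0.le
  have hbm9 : 0.9 * m ≤ bb θ * m := mul_le_mul_of_nonneg_right hb9 hm0.le
  have hs02 := hp.2.2.1 0
  have hs13 := hp.2.2.1 1
  have hq0 := hp.2.2.2 0
  have hq1 := hp.2.2.2 1
  have hq2 := hp.2.2.2 2
  have hq3 := hp.2.2.2 3
  simp only [abs_lt] at hq0 hq1 hq2 hq3
  have hs02' : 0 < p.2 0 + p.2 2 := by simpa using hs02
  have hs13' : 0 < p.2 1 + p.2 3 := by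
    have : (1 : Fin 4) + 2 = 3 := rfl
    rwa [this] at hs13
  set X' : ℂ := vtx p 2 + (v : ℂ) * (vtx p 3 - vtx p 2) with hX'
  -- scalar products of the vertices
  have d00 : dot (vtx p 0) (nu p 0) = p.2 0 := dot_vtx_self p 0
  have d01 : dot (vtx p 0) (nu p 1) = p.2 1 := dot_vtx_succ p 0
  have d02 : dot (vtx p 0) (nu p 2) = -p.2 0 := dot_vtx_two p 0
  have d03 : dot (vtx p 0) (nu p 3) = -p.2 1 := dot_vtx_three p 0
  have d11 : dot (vtx p 1) (nu p 1) = p.2 1 := dot_vtx_self p 1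
  have d12 : dot (vtx p 1) (nu p 2) = p.2 2 := dot_vtx_succ p 1
  have d13 : dot (vtx p 1) (nu p 3) = -p.2 1 := dot_vtx_two p 1
  have d10 : dot (vtx p 1) (nu p 0) = -p.2 2 := dot_vtx_three p 1
  have d22 : dot (vtx p 2) (nu p 2) = p.2 2 := dot_vtx_self p 2
  have d23 : dot (vtx p 2) (nu p 3) = p.2 3 := dot_vtx_succ p 2
  have d20 : dot (vtx p 2) (nu p 0) = -p.2 2 := dot_vtx_two p 2
  have d21 : dot (vtx p 2) (nu p 1) = -p.2 3 := dot_vtx_three p 2
  have d33 : dot (vtx p 3) (nu p 3) = p.2 3 := dot_vtx_self p 3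
  have d30 : dot (vtx p 3) (nu p 0) = p.2 0 := dot_vtx_succ p 3
  have d31 : dot (vtx p 3) (nu p 1) = -p.2 3 := dot_vtx_two p 3
  have d32 : dot (vtx p 3) (nu p 2) = -p.2 0 := dot_vtx_three p 3
  have hxd : ∀ j, dot x (nu p j) = dot (vtx p 1) (nu p j) +
      u * (dot (vtx p 0) (nu p j) - dot (vtx p 1) (nu p j)) := by
    intro j
    rw [hx, dot_add_left, dot_mul_left, dot_sub_left]
  have hXd : ∀ j, dot X' (nu p j) = dot (vtx p 2) (nu p j) +
      v * (dot (vtx p 3) (nu p j) - dot (vtx p 2) (nu p j)) := by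
    intro j
    rw [hX', dot_add_left, dot_mul_left, dot_sub_left]
  have e4 : ∀ i : Fin 4, i = 0 ∨ i = 1 ∨ i = 2 ∨ i = 3 := by decide
  have hx1 : dot x (nu p 1) = p.2 1 := by
    rw [hxd, d11, d01]
    ring
  have pu1 : 0 < (1 - u) * (p.2 0 + p.2 2) := mul_pos (by linarith) hs02'
  have pu2 : 0 < u * (p.2 0 + p.2 2) := mul_pos hu hs02'
  have pv1 : 0 < (1 - v) * (p.2 0 + p.2 2) := mul_pos (by linarith) hs02'
  have pv2 : 0 < v * (p.2 0 + p.2 2) := mul_pos hv hs02'
  have hxQ : x ∈ Q p := by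
    intro j
    rcases e4 j with rfl | rfl | rfl | rfl
    · rw [hxd, d10, d00]
      linarith
    · exact hx1.le
    · rw [hxd, d12, d02]
      linarith
    · rw [hxd, d13, d03]
      linarith
  have hX3 : dot X' (nu p 3) = p.2 3 := by
    rw [hXd, d23, d33]
    ring
  have hXlt : ∀ j, j ≠ 3 → dot X' (nu p j) < p.2 j := by
    intro j hj
    rcases e4 j with rfl | rfl | rfl | rfl
    · rw [hXd, d20, d30]
      linarith
    · rw [hXd, d21, d31]
      linarith
    · rw [hXd, d22, d32]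
      linarith
    · exact absurd rfl hj
  have hXQ : X' ∈ Q p := by
    intro j
    by_cases hj : j = 3
    · rw [hj]
      exact hX3.le
    · exact (hXlt j hj).le
  -- offsets
  have hxre : x.re = (vtx p 1).re + u * ((vtx p 0).re - (vtx p 1).re) := by
    rw [hx]
    simp
  have hxim : x.im = (vtx p 1).im + u * ((vtx p 0).im - (vtx p 1).im) := by
    rw [hx]
    simp
  have hXre : X'.re = (vtx p 2).re + v * ((vtx p 3).re - (vtx p 2).re) := by
    rw [hX']
    simp
  have hXim : X'.im = (vtx p 2).im + v * ((vtx p 3).im - (vtx p 2).im) := by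
    rw [hX']
    simp
  have bx := box hp hxQ
  have bX := box hp hXQ
  have hyre : y.re = 2 * m - X'.re := by
    rw [hy]
    simp [lat, act, dp]
    ring
  have hyim : y.im = 2 * bb θ * m + X'.im := by
    rw [hy]
    simp [lat, act, dp]
  set o1 : ℝ := crs (zz θ) (vtx p 1) with ho1
  set o2 : ℝ := -crs (act dp (zz θ)) (vtx p 2) with ho2
  have ho1' : o1 = Real.cos θ * (vtx p 1).im - Real.sin θ * (vtx p 1).re := by
    simp only [ho1, crs, zz_re, zz_im]
  have ho2' : o2 = Real.cos θ * (vtx p 2).im + Real.sin θ * (vtx p 2).re := by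
    simp [ho2, crs, act, dp, zz_re, zz_im]
    ring
  have hOx : crs (zz θ) x = o1 - u * (Real.cos θ * ((vtx p 1).im - (vtx p 0).im) -
      Real.sin θ * ((vtx p 1).re - (vtx p 0).re)) := by
    rw [ho1']
    simp only [crs, zz_re, zz_im, hxre, hxim]
    ring
  have hOy : crs (zz θ) y = o2 + v * (Real.cos θ * ((vtx p 3).im - (vtx p 2).im) +
      Real.sin θ * ((vtx p 3).re - (vtx p 2).re)) := by
    rw [ho2']
    simp only [crs, zz_re, zz_im, hyre, hyim, hXre, hXim]
    linear_combination (2 * (m : ℝ)) * hb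
  have hOx1 : crs (zz θ) x ≤ o1 := Q1_max g2 g1 hxQ
  have hOy1 : o2 ≤ crs (zz θ) y := by
    have e : crs (zz θ) y = crs (zz θ) (act dp X') := by
      rw [hy, crs_add_right]
      have : crs (zz θ) (lat θ ((m : ℤ), (m : ℤ))) = 0 := by
        simp only [crs, lat, zz_re, zz_im]
        push_cast
        linear_combination (2 * (m : ℝ)) * hb
      rw [this, zero_add]
    rw [e, Q1_dp]
    exact neg_le_neg (Q1_max g4 g3 hXQ)
  have hdx : Real.cos θ * ((vtx p 1).im - (vtx p 0).im) -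
      Real.sin θ * ((vtx p 1).re - (vtx p 0).re) ≤ 1 / 10 := by
    have t1 : Real.cos θ * ((vtx p 1).im - (vtx p 0).im) ≤ Real.cos θ * (1 / 25) :=
      mul_le_mul_of_nonneg_left (by linarith [hq0.2.1, hq1.2.2]) (by linarith)
    have t2 : Real.sin θ * (-(1 / 25)) ≤ Real.sin θ * ((vtx p 1).re - (vtx p 0).re) :=
      mul_le_mul_of_nonneg_left (by linarith [hq0.1.2, hq1.1.1]) (by linarith)
    linarith
  have hdy : Real.cos θ * ((vtx p 3).im - (vtx p 2).im) +
      Real.sin θ * ((vtx p 3).re - (vtx p 2).re) ≤ 1 / 10 := by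
    have t1 : Real.cos θ * ((vtx p 3).im - (vtx p 2).im) ≤ Real.cos θ * (1 / 25) :=
      mul_le_mul_of_nonneg_left (by linarith [hq2.2.1, hq3.2.2]) (by linarith)
    have t2 : Real.sin θ * ((vtx p 3).re - (vtx p 2).re) ≤ Real.sin θ * (1 / 25) :=
      mul_le_mul_of_nonneg_left (by linarith [hq2.1.1, hq3.1.2]) (by linarith)
    linarith
  have ho12 : 1 / 5 ≤ o2 - o1 := by
    have t1 : Real.cos θ * (-(1 / 25)) ≤ Real.cos θ * ((vtx p 2).im - (vtx p 1).im) :=
      mul_le_mul_of_nonneg_left (by linarith [hq1.2.2, hq2.2.1]) (by linarith)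
    have t2 : Real.sin θ * 0.46 ≤ Real.sin θ * ((vtx p 2).re + (vtx p 1).re) :=
      mul_le_mul_of_nonneg_left (by linarith [hq1.1.1, hq2.1.1]) (by linarith)
    rw [ho1', ho2']
    linarith
  -- the distance
  set D : ℝ := ‖y - x‖ with hD
  have hcrsD : 1 / 5 ≤ crs (zz θ) (y - x) := by
    rw [crs_sub_right]
    linarith
  have hD0 : 0 < D := by
    rw [hD, norm_pos_iff]
    intro h0
    rw [h0] at hcrsD
    simp [crs] at hcrsD
    linarith
  have hDw : (D : ℂ) * w = y - x := by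
    rw [hw]
    have : (D : ℂ) ≠ 0 := by exact_mod_cast hD0.ne'
    field_simp
  have hwn : ‖w‖ = 1 := by
    have h1 := congrArg norm hDw
    rw [norm_mul, Complex.norm_real, Real.norm_eq_abs, abs_of_pos hD0, ← hD] at h1
    exact mul_left_cancel₀ hD0.ne' (by rw [h1, mul_one])
  rw [abs_lt, abs_lt] at bx bX
  have hD5 : D ≤ 5 * m := by
    have h1 := Complex.norm_le_abs_re_add_abs_im (y - x)
    rw [Complex.sub_re, Complex.sub_im, hyre, hyim] at h1
    have h2 : |2 * (m : ℝ) - X'.re - x.re| ≤ 2 * m := by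
      rw [abs_le]
      constructor <;> linarith [bx.1.1, bx.1.2, bX.1.1, bX.1.2]
    have h3 : |2 * bb θ * (m : ℝ) + X'.im - x.im| ≤ 2.1 * m + 0.04 := by
      rw [abs_le]
      constructor <;> linarith [bx.2.1, bx.2.2, bX.2.1, bX.2.2]
    linarith
  have hk : D * crs (zz θ) w = crs (zz θ) (y - x) := by
    rw [← hDw, crs_mul_right]
  have hk0 : 0 < crs (zz θ) w := (mul_pos_iff_of_pos_left hD0).1 (by rw [hk]; linarith)
  have ha : D * dot (zz θ) w = dot (zz θ) (y - x) := by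
    rw [← hDw, dot_mul_right]
  have ha0 : 0 < dot (zz θ) w := by
    have h1 : 0 < dot (zz θ) (y - x) := by
      simp only [dot, zz_re, zz_im, Complex.sub_re, Complex.sub_im, hyre, hyim]
      have t1 : 0 < Real.cos θ * (2 * (m : ℝ) - X'.re - x.re) :=
        mul_pos (by linarith) (by linarith [bx.1.2, bX.1.2])
      have t2 : 0 < Real.sin θ * (2 * bb θ * (m : ℝ) + X'.im - x.im) := by
        refine mul_pos (by linarith) ?_
        linarith [bx.2.1, bx.2.2, bX.2.1, bX.2.2]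
      linarith
    exact (mul_pos_iff_of_pos_left hD0).1 (by rw [ha]; exact h1)
  have hw1 : 0 < dot w (nu p 1) := by
    rw [Q1_decomp (zz_norm θ) w (nu p 1)]
    exact add_pos (mul_pos ha0 g1) (mul_pos hk0 g2)
  have hw3 : dot (act dp w) (nu p 3) < 0 := by
    have hun : ‖act dp (zz θ)‖ = 1 := by rw [norm_act, zz_norm]
    rw [Q1_decomp hun (act dp w) (nu p 3), dot_act, crs_act]
    have e1 : dot (act dp (zz θ)) (nu p 3) = -crs (act dp (zz θ)) (nu p 2) := dot_succ p _ 2
    have e2 : crs (act dp (zz θ)) (nu p 3) = dot (act dp (zz θ)) (nu p 2) := crs_nu_succ p _ 2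
    have e3 : sdet dp = -1 := by simp [sdet, dp]
    rw [e1, e2, e3]
    have t1 := mul_pos ha0 g4
    have t2 := mul_pos hk0 g3
    linarith
  -- the end point
  have hfy : frm θ (dp, ((m : ℤ), (m : ℤ))) y = X' := by
    unfold frm
    rw [hy]
    simp only [add_sub_cancel_left]
    rw [act_self]
  have hray : ∀ s : ℝ, frm θ (dp, ((m : ℤ), (m : ℤ))) (x + (s : ℂ) * w) =
      X' + ((s - D : ℝ) : ℂ) * act dp w := by
    intro s
    have e : x + (s : ℂ) * w = y + ((s - D : ℝ) : ℂ) * w := by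
      push_cast
      linear_combination hDw
    rw [e, frm_ray, hfy]
  have hfl : fl θ p ((dp, ((m : ℤ), (m : ℤ))), 3) (x, w) = D := by
    unfold fl
    have e := congrArg (fun t => dot t (nu p 3)) (hray 0)
    simp only [Complex.ofReal_zero, zero_mul, add_zero] at e
    rw [dot_add_left, dot_mul_left, hX3] at e
    show (p.2 3 - dot (frm θ (dp, ((m : ℤ), (m : ℤ))) x) (nu p 3)) / dot (act dp w) (nu p 3) = D
    rw [e, div_eq_iff hw3.ne]
    ring
  have hnx : nx θ p ((dp, ((m : ℤ), (m : ℤ))), 3) (x, w) = (X', refl p 3 (act dp w)) := by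
    unfold nx
    rw [hfl]
    show (frm θ (dp, ((m : ℤ), (m : ℤ))) (x + (D : ℂ) * w), refl p 3 (act dp w)) = _
    rw [hray D, sub_self, Complex.ofReal_zero, zero_mul, add_zero]
  refine ⟨⟨hw3, ?_, ?_, ?_⟩, hfl, hnx⟩
  · rw [hfl]
    exact hD0
  · rw [hfl]
    intro s hs0 hsD c' hc'
    change x + (s : ℂ) * w ∈ obs θ p c' at hc'
    by_cases h1 : s < 2 / 5
    · by_cases hcc : c' = (1, (0, 0))
      · rw [hcc] at hc'
        have hq : x + (s : ℂ) * w ∈ Q p := by
          have : frm θ (1, (0, 0)) (x + (s : ℂ) * w) ∈ Q p := hc'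
          rwa [frm_one] at this
        exact out_ray ⟨hxQ, 1, hx1, hw1⟩ hs0 hq
      · have hx0 : x ∈ obs θ p (1, (0, 0)) := by
          show frm θ (1, (0, 0)) x ∈ Q p
          rw [frm_one]
          exact hxQ
        have h2 := copies_dist hθ hp hcc hc' hx0
        rw [add_sub_cancel_left, norm_mul, hwn, mul_one, Complex.norm_real, Real.norm_eq_abs,
          abs_of_pos hs0] at h2
        linarith
    · by_cases h2 : D - s < 2 / 5
      · by_cases hcc : c' = (dp, ((m : ℤ), (m : ℤ)))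
        · rw [hcc] at hc'
          have hq : frm θ (dp, ((m : ℤ), (m : ℤ))) (x + (s : ℂ) * w) ∈ Q p := hc'
          have h3 := hq 3
          rw [hray, dot_add_left, dot_mul_left, hX3] at h3
          have h4 : 0 < (s - D) * dot (act dp w) (nu p 3) :=
            mul_pos_of_neg_of_neg (by linarith) hw3
          linarith
        · have hy0 : y ∈ obs θ p (dp, ((m : ℤ), (m : ℤ))) := by
            show frm θ (dp, ((m : ℤ), (m : ℤ))) y ∈ Q p
            rw [hfy]
            exact hXQ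
          have h3 := copies_dist hθ hp hcc hc' hy0
          have e : x + (s : ℂ) * w - y = ((s - D : ℝ) : ℂ) * w := by
            push_cast
            linear_combination hDw
          rw [e, norm_mul, hwn, mul_one, Complex.norm_real, Real.norm_eq_abs,
            abs_of_neg (by linarith)] at h3
          linarith
      · push Not at h1 h2
        have hst := Q1_strip hθ hp hc'
        have hP : crs (zz θ) (x + (s : ℂ) * w) = crs (zz θ) x + s * crs (zz θ) w := by
          rw [crs_add_right, crs_mul_right]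
        have hP2 : crs (zz θ) x + D * crs (zz θ) w = crs (zz θ) y := by
          rw [hk, crs_sub_right]
          ring
        -- slope
        have hslope : 1 / 25 ≤ m * crs (zz θ) w := by
          have t1 : 1 / 5 ≤ D * crs (zz θ) w := by rw [hk]; exact hcrsD
          have t2 := mul_le_mul_of_nonneg_right hD5 hk0.le
          linarith
        rcases hst with hst | hst
        · rw [hP] at hst
          have h3 : m * (s * crs (zz θ) w) ≤ m * (u * (1 / 10)) := by
            refine mul_le_mul_of_nonneg_left ?_ hm0.le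
            have : u * (Real.cos θ * ((vtx p 1).im - (vtx p 0).im) -
              Real.sin θ * ((vtx p 1).re - (vtx p 0).re)) ≤ u * (1 / 10) :=
              mul_le_mul_of_nonneg_left hdx hu.le
            linarith
          have h4 : 2 / 5 * (1 / 25) ≤ s * (m * crs (zz θ) w) :=
            mul_le_mul h1 hslope (by norm_num) (by linarith)
          linarith
        · rw [hP] at hst
          have h3 : m * ((D - s) * crs (zz θ) w) ≤ m * (v * (1 / 10)) := by
            refine mul_le_mul_of_nonneg_left ?_ hm0.le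
            have : v * (Real.cos θ * ((vtx p 3).im - (vtx p 2).im) +
              Real.sin θ * ((vtx p 3).re - (vtx p 2).re)) ≤ v * (1 / 10) :=
              mul_le_mul_of_nonneg_left hdy hv.le
            linarith
          have h4 : 2 / 5 * (1 / 25) ≤ (D - s) * (m * crs (zz θ) w) :=
            mul_le_mul h2 hslope (by norm_num) (by linarith)
          linarith
  · intro j hj
    rw [hnx]
    exact hXlt j hj

end TMX
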