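import Pool.Agent.TMX.Basic

/-! # TMX: the reversed orbit -/

set_option autoImplicit false

open Set Filter Topology

namespace TMX

namespace Q4

/-- Half turn. -/
noncomputable def hp : BIL.Ang := ((Real.pi : ℝ) : BIL.Ang)

theorem dir_hp (θ : BIL.Ang) : BIL.dir (θ + hp) = -BIL.dir θ := by
  unfold BIL.dir hp
  rw [AddCircle.toCircle_add, Circle.coe_mul, AddCircle.toCircle_apply_mk]
  have : 2 * Real.pi / (2 * Real.pi) * Real.pi = Real.pi := by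
    field_simp
  rw [this, Circle.coe_exp, Complex.exp_pi_mul_I]
  ring

theorem hp_add : hp + hp = 0 := by
  unfold hp
  rw [← AddCircle.coe_add]
  have : Real.pi + Real.pi = 2 * Real.pi := by ring
  rw [this]
  exact AddCircle.coe_period _

theorem neg_hp : -hp = hp := by
  rw [neg_eq_iff_add_eq_zero]
  exact hp_add

variable {n : ℕ} {P : Set ℂ} {a b : Fin n → ℂ} {γ : ℝ → ℂ × BIL.Ang}

theorem exists_inc (h : BIL.IsOrbit P a b γ) (t : ℝ) :
    ∃ α : BIL.Ang, (∀ s < t, (∀ τ ∈ Ico s t, (γ τ).1 ∉ frontier P) → (γ s).2 = α) ∧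
      ((γ t).1 ∉ frontier P → α = (γ t).2) ∧
      ((γ t).1 ∈ frontier P → ∃ i, (γ t).1 ∈ openSegment ℝ (a i) (b i) ∧
        (∀ j, j ≠ i → (γ t).1 ∉ segment ℝ (a j) (b j)) ∧
        α = (2 : ℕ) • BIL.ang (b i - a i) - (γ t).2) := by
  by_cases hf : (γ t).1 ∈ frontier P
  · obtain ⟨i, hi, hj, ε, hε, hr⟩ := h.refl t hf
    refine ⟨(2 : ℕ) • BIL.ang (b i - a i) - (γ t).2, ?_, fun hn => absurd hf hn,
      fun _ => ⟨i, hi, hj, rfl⟩⟩
    intro s hs hfree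
    have hu1 : s ≤ max s (t - ε / 2) := le_max_left _ _
    have hu2 : max s (t - ε / 2) < t := max_lt hs (by linarith)
    have hu3 : t - ε < max s (t - ε / 2) := lt_of_lt_of_le (by linarith) (le_max_right _ _)
    have h1 := (h.free s (max s (t - ε / 2)) hu1 fun τ hτ =>
      hfree τ ⟨hτ.1.le, lt_of_le_of_lt hτ.2 hu2⟩).1
    have h2 := hr (max s (t - ε / 2)) ⟨hu3, hu2⟩
    rw [h2, ← h1]
    abel
  · refine ⟨(γ t).2, ?_, fun _ => rfl, fun hn => absurd hn hf⟩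
    intro s hs hfree
    refine (h.free s t hs.le fun τ hτ => ?_).1.symm
    rcases eq_or_lt_of_le hτ.2 with h1 | h1
    · rw [h1]; exact hf
    · exact hfree τ ⟨hτ.1.le, h1⟩

theorem exists_gap (h : BIL.IsOrbit P a b γ) (τ : ℝ) :
    ∃ ε > 0, ∀ s ∈ Ioo τ (τ + ε), (γ s).1 ∉ frontier P := by
  have hF : ({τ' | τ' ∈ Icc τ (τ + 1) ∧ (γ τ').1 ∈ frontier P} \ {τ}).Finite :=
    (h.finite τ (τ + 1)).subset sdiff_subset
  have hn : ({τ' | τ' ∈ Icc τ (τ + 1) ∧ (γ τ').1 ∈ frontier P} \ {τ})ᶜ ∈ 𝓝 τ :=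
    hF.isClosed.isOpen_compl.mem_nhds fun hc => hc.2 rfl
  obtain ⟨ε, hε, hb⟩ := Metric.mem_nhds_iff.1 hn
  refine ⟨min ε 1, lt_min hε one_pos, fun s hs hc => ?_⟩
  have h1 : s < τ + ε := lt_of_lt_of_le hs.2 (by linarith [min_le_left ε 1])
  have h2 : s < τ + 1 := lt_of_lt_of_le hs.2 (by linarith [min_le_right ε 1])
  have h3 : s ∈ Metric.ball τ ε := by
    rw [Metric.mem_ball, Real.dist_eq, abs_lt]
    constructor
    · linarith [hs.1]
    · linarith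
  exact hb h3 ⟨⟨⟨hs.1.le, h2.le⟩, hc⟩, fun hc' => by
    rw [mem_singleton_iff] at hc'
    linarith [hs.1]⟩

/-- Until the next time on the frontier the motion is rectilinear (closed version). -/
theorem pos_of_Ico (h : BIL.IsOrbit P a b γ) {s t : ℝ} (hst : s < t)
    (hf : ∀ τ ∈ Ico s t, (γ τ).1 ∉ frontier P) :
    (γ t).1 = (γ s).1 + (t - s) * BIL.dir (γ s).2 := by
  have h1 : Tendsto (fun u => (γ u).1) (𝓝[<] t) (𝓝 (γ t).1) :=
    (h.cont.tendsto t).mono_left nhdsWithin_le_nhds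
  have h2 : Tendsto (fun u : ℝ => (γ s).1 + ((u : ℂ) - s) * BIL.dir (γ s).2) (𝓝[<] t)
      (𝓝 ((γ s).1 + ((t : ℂ) - s) * BIL.dir (γ s).2)) := by
    have hc : Continuous fun u : ℝ => (γ s).1 + ((u : ℂ) - s) * BIL.dir (γ s).2 := by fun_prop
    exact (hc.tendsto t).mono_left nhdsWithin_le_nhds
  have h3 : (fun u => (γ u).1) =ᶠ[𝓝[<] t]
      fun u : ℝ => (γ s).1 + ((u : ℂ) - s) * BIL.dir (γ s).2 := by
    filter_upwards [Ioo_mem_nhdsLT hst] with u hu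
    exact (h.free s u hu.1.le fun τ hτ => hf τ ⟨hτ.1.le, lt_of_le_of_lt hτ.2 hu.2⟩).2
  exact tendsto_nhds_unique h1 (h2.congr' h3.symm)

end Q4

open Q4 in
theorem rev_orbit {n : ℕ} {P : Set ℂ} {a b : Fin n → ℂ} {γ : ℝ → ℂ × BIL.Ang}
    (h : BIL.IsOrbit P a b γ) : ∃ γ' : ℝ → ℂ × BIL.Ang, BIL.IsOrbit P a b γ' ∧
      (∀ t, (γ' t).1 = (γ (-t)).1) ∧
      ∀ t, (γ (-t)).1 ∉ frontier P → BIL.dir (γ' t).2 = -BIL.dir (γ (-t)).2 := by
  choose α hα1 hα2 hα3 using exists_inc h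
  refine ⟨fun t => ((γ (-t)).1, α (-t) + hp), ?_, fun t => rfl, fun t ht => ?_⟩
  · refine ⟨fun t => h.mem (-t), h.cont.comp continuous_neg, ?_, ?_, ?_⟩
    · intro s t
      refine ((h.finite (-t) (-s)).image Neg.neg).subset ?_
      rintro τ ⟨hτ, hτ'⟩
      exact ⟨-τ, ⟨⟨neg_le_neg hτ.2, neg_le_neg hτ.1⟩, hτ'⟩, neg_neg τ⟩
    · intro s t hst hf
      rcases eq_or_lt_of_le hst with rfl | hlt
      · simp
      have hlt' : -t < -s := neg_lt_neg hlt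
      have hf' : ∀ τ ∈ Ico (-t) (-s), (γ τ).1 ∉ frontier P := by
        intro τ hτ
        have := hf (-τ) ⟨by linarith [hτ.2], by linarith [hτ.1]⟩
        simpa using this
      have e1 : (γ (-t)).2 = α (-s) := hα1 (-s) (-t) hlt' hf'
      have e2 : α (-t) = (γ (-t)).2 := hα2 (-t) (hf' (-t) ⟨le_rfl, hlt'⟩)
      have e3 := pos_of_Ico h hlt' hf'
      refine ⟨?_, ?_⟩
      · show α (-t) + hp = α (-s) + hp
        rw [e2, e1]
      · show (γ (-t)).1 = (γ (-s)).1 + (t - s) * BIL.dir (α (-s) + hp)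
        rw [dir_hp, e3, e1]
        push_cast
        ring
    · intro τ hτ
      have hτ' : (γ (-τ)).1 ∈ frontier P := hτ
      obtain ⟨i, hi, hj, hαi⟩ := hα3 (-τ) hτ'
      obtain ⟨ε, hε, hg⟩ := exists_gap h (-τ)
      refine ⟨i, hi, hj, ε, hε, fun s hs => ?_⟩
      have hs1 : -τ < -s := neg_lt_neg hs.2
      have hs2 : -s < -τ + ε := by linarith [hs.1]
      have e1 : α (-s) = (γ (-s)).2 := hα2 (-s) (hg (-s) ⟨hs1, hs2⟩)
      have e2 : (γ (-s)).2 = (γ (-τ)).2 := (h.free (-τ) (-s) hs1.le fun u hu =>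
        hg u ⟨hu.1, lt_of_le_of_lt hu.2 hs2⟩).1
      show α (-τ) + hp = (2 : ℕ) • BIL.ang (b i - a i) - (α (-s) + hp)
      rw [hαi, e1, e2, sub_add_eq_sub_sub, sub_eq_add_neg _ hp, neg_hp]
  · show BIL.dir (α (-t) + hp) = -BIL.dir (γ (-t)).2
    rw [dir_hp, hα2 (-t) ht]

end TMX
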