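import Pool.Agent.BIL.L1c
import Pool.Agent.TMX.Basic
import Pool.Agent.TMX.F1
import Pool.Agent.TMX.F2b
import Pool.Agent.TMX.Q4

/-! # TMX [Q5]: from boxes of plane phase points to the flow -/

set_option autoImplicit false

open MeasureTheory Set Filter Topology

namespace TMX

theorem q5_dir_coe (x : ℝ) : BIL.dir ((x : ℝ) : BIL.Ang) = Complex.exp (x * Complex.I) := by
  unfold BIL.dir
  rw [AddCircle.toCircle_apply_mk, Circle.coe_exp]
  have hpi : (2 * Real.pi) ≠ 0 := (Real.two_pi_pos).ne'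
  rw [div_self hpi, one_mul]

theorem q5_ang_dir (u : BIL.Ang) : BIL.ang (BIL.dir u) = u := by
  obtain ⟨x, rfl⟩ := QuotientAddGroup.mk_surjective u
  change BIL.ang (BIL.dir ((x : ℝ) : BIL.Ang)) = ((x : ℝ) : BIL.Ang)
  rw [q5_dir_coe]
  have h : Complex.exp (x * Complex.I) =
      Complex.cos x + Complex.sin x * Complex.I := Complex.exp_mul_I _
  rw [h]
  have h2 := Complex.arg_cos_add_sin_mul_I_coe_angle (x : Real.Angle)
  rw [Real.Angle.cos_coe, Real.Angle.sin_coe, Complex.ofReal_cos, Complex.ofReal_sin] at h2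
  exact h2

theorem q5_dir_norm (u : BIL.Ang) : ‖BIL.dir u‖ = 1 := by
  unfold BIL.dir
  exact Circle.norm_coe _

theorem q5_Ro_open (θ : ℝ) : IsOpen (Ro θ) := by
  have : Ro θ = ({x : ℂ | 0 < x.re} ∩ {x : ℂ | x.re < 1}) ∩
      ({x : ℂ | 0 < x.im} ∩ {x : ℂ | x.im < bb θ}) := by
    ext x; simp only [Ro, mem_ofPred_eq, mem_inter_iff]; tauto
  rw [this]
  exact ((isOpen_lt continuous_const Complex.continuous_re).inter
    (isOpen_lt Complex.continuous_re continuous_const)).inter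
    ((isOpen_lt continuous_const Complex.continuous_im).inter
    (isOpen_lt Complex.continuous_im continuous_const))

/-- The plane form of an open set of the phase space. -/
def q5_lift (θ : ℝ) (p : Par) (U : Set (ℂ × BIL.Ang)) : Set (ℂ × ℂ) :=
  {z | (z.1 ∈ Ro θ ∧ z.1 ∉ Q p) ∧ z.2 ≠ 0 ∧ (z.1, BIL.ang z.2) ∈ U}

theorem q5_lift_open (θ : ℝ) (p : Par) {U : Set (ℂ × BIL.Ang)} (hU : IsOpen U) :
    IsOpen (q5_lift θ p U) := by
  rw [isOpen_iff_eventually]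
  rintro z ⟨⟨h1, h2⟩, h3, h4⟩
  have e1 : ∀ᶠ z' : ℂ × ℂ in 𝓝 z, z'.1 ∈ Ro θ :=
    continuous_fst.continuousAt.eventually ((q5_Ro_open θ).mem_nhds h1)
  have e2 : ∀ᶠ z' : ℂ × ℂ in 𝓝 z, z'.1 ∈ (Q p)ᶜ :=
    continuous_fst.continuousAt.eventually ((Q_isClosed p).isOpen_compl.mem_nhds h2)
  have e3 : ∀ᶠ z' : ℂ × ℂ in 𝓝 z, z'.2 ≠ 0 :=
    continuous_snd.continuousAt.eventually (isOpen_ne.mem_nhds h3)
  have hc : ContinuousAt (fun z' : ℂ × ℂ => (z'.1, BIL.ang z'.2)) z := by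
    apply ContinuousAt.prodMk continuous_fst.continuousAt
    exact ContinuousAt.comp (f := fun z' : ℂ × ℂ => z'.2) (g := BIL.ang)
      (Complex.continuousAt_arg_coe_angle h3) continuous_snd.continuousAt
  have e4 : ∀ᶠ z' : ℂ × ℂ in 𝓝 z, (z'.1, BIL.ang z'.2) ∈ U := hc.eventually (hU.mem_nhds h4)
  filter_upwards [e1, e2, e3, e4] with z' a1 a2 a3 a4
  exact ⟨⟨a1, a2⟩, a3, a4⟩

theorem q5_lift_ne {θ : ℝ} (hθ : |θ - Real.pi / 4| < 1 / 100) {p : Par} (hp : p ∈ Pi0)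
    {U : Set (ℂ × BIL.Ang)} (hU : IsOpen U) (hne : (U ∩ Tb θ p ×ˢ univ).Nonempty) :
    ∃ z ∈ q5_lift θ p U, z.1 ∈ Ro θ ∧ z.1 ∉ Q p ∧ ‖z.2‖ = 1 := by
  obtain ⟨⟨x, α⟩, hxU, hxP, -⟩ := hne
  obtain ⟨-, hcl, -⟩ := table_closure hθ hp
  have hx := hcl hxP
  have hV : {y : ℂ | (y, α) ∈ U} ∈ 𝓝 x := by
    have hc : Continuous fun y : ℂ => (y, α) := by fun_prop
    exact (hU.preimage hc).mem_nhds hxU
  obtain ⟨y, hyU, hy1, hy2⟩ := mem_closure_iff_nhds.mp hx _ hV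
  refine ⟨(y, BIL.dir α), ⟨⟨hy1, hy2⟩, ?_, ?_⟩, hy1, hy2, q5_dir_norm α⟩
  · intro h
    have := q5_dir_norm α
    rw [show BIL.dir α = 0 from h] at this
    norm_num at this
  · change (y, BIL.ang (BIL.dir α)) ∈ U
    rw [q5_ang_dir]; exact hyU

theorem q5_mem {θ : ℝ} {p : Par} {U : Set (ℂ × BIL.Ang)} {g : ℂ × BIL.Ang}
    (h : (g.1, BIL.dir g.2) ∈ q5_lift θ p U) : g ∈ U := by
  obtain ⟨-, -, h3⟩ := h
  simp only [q5_ang_dir] at h3
  exact h3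

theorem q5_frontier {θ : ℝ} (hθ : |θ - Real.pi / 4| < 1 / 100) {p : Par} (hp : p ∈ Pi0) {x : ℂ}
    (h1 : x ∈ Ro θ) (h2 : x ∉ Q p) : x ∉ frontier (Tb θ p) ∧ x ∈ Tb θ p := by
  obtain ⟨hint, -, -⟩ := table_closure hθ hp
  have hx : x ∈ interior (Tb θ p) := by rw [hint]; exact ⟨h1, h2⟩
  exact ⟨fun h => h.2 hx, interior_subset hx⟩

/-- One orbit. -/
theorem q5_orbit {θ : ℝ} (hθ : |θ - Real.pi / 4| < 1 / 100) {p : Par} (hp : p ∈ Pi0)
    {γ : ℝ → ℂ × BIL.Ang} (hγ : BIL.IsOrbit (Tb θ p) (sa θ p) (sb θ p) γ)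
    {U V : Set (ℂ × BIL.Ang)} {y w : ℂ} (h0 : (γ 0).1 = y) (h1 : BIL.dir (γ 0).2 = w)
    (hy : y ∈ Ro θ) (hf : Fre θ p y) {t₁ t₂ : ℝ}
    (hU : Visit θ p (y, -w) (rev (q5_lift θ p U)) t₁)
    (hV : Visit θ p (y, w) (q5_lift θ p V) t₂) : γ (-t₁) ∈ U ∧ γ t₂ ∈ V := by
  have hyQ : y ∉ Q p := by
    intro h
    apply hf (1, (0, 0))
    change frm θ (1, (0, 0)) y ∈ Q p
    rw [frm_one]; exact h
  constructor
  · obtain ⟨γ', hγ', hpos, hdir⟩ := rev_orbit hγ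
    have a0 : (γ' 0).1 = y := by rw [hpos]; simpa using h0
    have a1 : BIL.dir (γ' 0).2 = -w := by
      rw [hdir 0, neg_zero, h1]
      rw [neg_zero, h0]
      exact (q5_frontier hθ hp hy hyQ).1
    have hR : ∀ z ∈ rev (q5_lift θ p U), z.1 ∈ Ro θ := fun z hz => hz.1.1
    have key := follow (z := (y, -w)) hθ hp hγ' a0 a1 hy hf hR hU
    have key' : ((γ' t₁).1, -BIL.dir (γ' t₁).2) ∈ q5_lift θ p U := key
    have hin : (γ (-t₁)).1 ∈ Ro θ ∧ (γ (-t₁)).1 ∉ Q p := by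
      rw [← hpos]; exact key'.1
    rw [hpos, hdir t₁ (q5_frontier hθ hp hin.1 hin.2).1, neg_neg] at key'
    exact q5_mem key'
  · have hR : ∀ z ∈ q5_lift θ p V, z.1 ∈ Ro θ := fun z hz => hz.1.1
    exact q5_mem (follow (z := (y, w)) hθ hp hγ h0 h1 hy hf hR hV)

/-- The area of a tilted rectangle. -/
theorem q5_area (θ : ℝ) (y : ℂ) {r δ : ℝ} (hr : 0 < r) (hδ : 0 < δ) :
    volume {x : ℂ | |dot (zz θ) (x - y)| < r ∧ |crs (zz θ) (x - y)| < δ} =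
      ENNReal.ofReal (4 * r * δ) := by
  have hrot : MeasurePreserving (fun x : ℂ => rotation (Circle.exp (-θ)) (x - y)) volume volume :=
    (rotation (Circle.exp (-θ))).measurePreserving.comp (measurePreserving_sub_right volume y)
  have hf : MeasurePreserving (fun x : ℂ =>
      Complex.measurableEquivRealProd (rotation (Circle.exp (-θ)) (x - y))) volume volume :=
    Complex.volume_preserving_equiv_real_prod.comp hrot
  have hre : ∀ x : ℂ, (rotation (Circle.exp (-θ)) (x - y)).re = dot (zz θ) (x - y) ∧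
      (rotation (Circle.exp (-θ)) (x - y)).im = crs (zz θ) (x - y) := by
    intro x
    rw [rotation_apply, Circle.coe_exp]
    have e : Complex.exp (((-θ : ℝ) : ℂ) * Complex.I) = ⟨Real.cos θ, -Real.sin θ⟩ := by
      apply Complex.ext
      · rw [Complex.exp_ofReal_mul_I_re, Real.cos_neg]
      · rw [Complex.exp_ofReal_mul_I_im, Real.sin_neg]
    rw [e]
    simp only [dot, crs, zz_re, zz_im, Complex.mul_re, Complex.mul_im]
    constructor <;> ring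
  have hset : {x : ℂ | |dot (zz θ) (x - y)| < r ∧ |crs (zz θ) (x - y)| < δ} =
      (fun x : ℂ => Complex.measurableEquivRealProd (rotation (Circle.exp (-θ)) (x - y))) ⁻¹'
        (Ioo (-r) r ×ˢ Ioo (-δ) δ) := by
    ext x
    obtain ⟨h1, h2⟩ := hre x
    simp only [mem_ofPred_eq, mem_preimage, mem_prod, mem_Ioo, abs_lt,
      Complex.measurableEquivRealProd_apply, h1, h2]
  rw [hset, hf.measure_preimage (measurableSet_Ioo.prod measurableSet_Ioo).nullMeasurableSet,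
    Measure.volume_eq_prod, Measure.prod_prod, Real.volume_Ioo, Real.volume_Ioo,
    ← ENNReal.ofReal_mul (by linarith)]
  congr 1
  ring

/-- Arcs. -/
theorem q5_arc (α : ℝ) {δ : ℝ} (h0 : 0 < δ) (h1 : δ < 1) :
    ENNReal.ofReal δ ≤ volume {u : BIL.Ang | ∃ α' : ℝ, |α' - α| < δ ∧ u = (α' : BIL.Ang)} := by
  have hsub : Metric.closedBall ((α : ℝ) : BIL.Ang) (δ / 2) ⊆
      {u : BIL.Ang | ∃ α' : ℝ, |α' - α| < δ ∧ u = (α' : BIL.Ang)} := by
    intro u hu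
    obtain ⟨x, rfl⟩ := QuotientAddGroup.mk_surjective u
    change ((x : ℝ) : BIL.Ang) ∈ Metric.closedBall ((α : ℝ) : BIL.Ang) (δ / 2) at hu
    rw [Metric.mem_closedBall, dist_eq_norm, ← AddCircle.coe_sub, AddCircle.norm_eq] at hu
    refine ⟨x - round ((2 * Real.pi)⁻¹ * (x - α)) * (2 * Real.pi), ?_, ?_⟩
    · have e : x - round ((2 * Real.pi)⁻¹ * (x - α)) * (2 * Real.pi) - α =
          x - α - round ((2 * Real.pi)⁻¹ * (x - α)) * (2 * Real.pi) := by ring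
      rw [e]
      linarith
    · change ((x : ℝ) : BIL.Ang) = _
      rw [AddCircle.coe_sub, eq_comm, sub_eq_self, ← zsmul_eq_mul, AddCircle.coe_zsmul,
        AddCircle.coe_period, smul_zero]
  refine le_trans ?_ (measure_mono hsub)
  rw [AddCircle.volume_closedBall]
  apply ENNReal.ofReal_le_ofReal
  rw [le_min_iff]
  have := Real.pi_gt_three
  constructor <;> linarith

theorem topmixq_of_boxes {θ : ℝ} (hθ : |θ - Real.pi / 4| < 1 / 100) {p : Par} (hp : p ∈ Pi0)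
    (h : ∀ U V : Set (ℂ × ℂ), IsOpen U → IsOpen V →
      (∃ z ∈ U, z.1 ∈ Ro θ ∧ z.1 ∉ Q p ∧ ‖z.2‖ = 1) →
      (∃ z ∈ V, z.1 ∈ Ro θ ∧ z.1 ∉ Q p ∧ ‖z.2‖ = 1) →
      ∃ T c : ℝ, 0 < T ∧ 0 < c ∧ ∀ t ≥ T, ∃ (y : ℂ) (α r δ₁ δ₂ t₁ t₂ : ℝ), 0 < r ∧ 0 < δ₁ ∧ 0 < δ₂ ∧
        δ₂ < 1 ∧ 0 < t₁ ∧ 0 < t₂ ∧ t₁ + t₂ = t ∧ c / t ^ 3 ≤ r * δ₁ * δ₂ ∧
        ∀ (y' w : ℂ) (α' : ℝ), |dot (zz θ) (y' - y)| < r → |crs (zz θ) (y' - y)| < δ₁ →
          |α' - α| < δ₂ → w = Complex.exp (α' * Complex.I) →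
          y' ∈ Ro θ ∧ Fre θ p y' ∧ Visit θ p (y', -w) (rev U) t₁ ∧ Visit θ p (y', w) V t₂) :
    TopMixQ (Tb θ p) (sa θ p) (sb θ p) := by
  intro φ hφ U V hU hV hUne hVne
  have hP : BIL.IsPolygon (Tb θ p) (sa θ p) (sb θ p) := polygon hθ hp
  obtain ⟨-, -, hM0, hMT⟩ := BIL.vol_ne hP
  set M : ENNReal := (volume : Measure (ℂ × BIL.Ang)) (Tb θ p ×ˢ univ) with hM
  obtain ⟨T, c, hT, hc, hbox⟩ := h (q5_lift θ p U) (q5_lift θ p V) (q5_lift_open θ p hU)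
    (q5_lift_open θ p hV) (q5_lift_ne hθ hp hU hUne) (q5_lift_ne hθ hp hV hVne)
  have hMr : 0 < M.toReal := ENNReal.toReal_pos hM0 hMT
  refine ⟨T, 4 * c / M.toReal, hT, by positivity, fun t ht => ?_⟩
  have ht0 : 0 < t := lt_of_lt_of_le hT ht
  obtain ⟨y, α, r, δ₁, δ₂, t₁, t₂, hr, h1, h2, h21, ht1, ht2, htt, hcle, hB⟩ := hbox t ht
  -- the box
  set R : Set ℂ := {x : ℂ | |dot (zz θ) (x - y)| < r ∧ |crs (zz θ) (x - y)| < δ₁} with hR
  set J : Set BIL.Ang := {u : BIL.Ang | ∃ α' : ℝ, |α' - α| < δ₂ ∧ u = (α' : BIL.Ang)} with hJ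
  have hsub : R ×ˢ J ⊆ Tb θ p ×ˢ univ := by
    rintro ⟨x, u⟩ ⟨⟨hx1, hx2⟩, α', hα, -⟩
    obtain ⟨b1, b2, -, -⟩ := hB x _ α' hx1 hx2 hα rfl
    refine ⟨(q5_frontier hθ hp b1 fun hq => b2 (1, (0, 0)) ?_).2, mem_univ _⟩
    change frm θ (1, (0, 0)) x ∈ Q p
    rw [frm_one]; exact hq
  have hvol : ENNReal.ofReal (4 * r * δ₁) * ENNReal.ofReal δ₂ ≤
      (volume : Measure (ℂ × BIL.Ang)) (R ×ˢ J) := by
    rw [Measure.volume_eq_prod, Measure.prod_prod, q5_area θ y hr h1]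
    exact mul_le_mul_right (q5_arc α h2 h21) _
  have hliou : ENNReal.ofReal (4 * c / M.toReal / t ^ 3) ≤ BIL.liou (Tb θ p) (R ×ˢ J) := by
    unfold BIL.liou
    rw [ProbabilityTheory.cond, Measure.smul_apply, smul_eq_mul]
    have e1 : ((volume : Measure (ℂ × BIL.Ang)).restrict (Tb θ p ×ˢ univ)) (R ×ˢ J) =
        (volume : Measure (ℂ × BIL.Ang)) (R ×ˢ J) := by
      apply Measure.restrict_eq_self
      exact hsub
    rw [e1, ← hM]
    calc ENNReal.ofReal (4 * c / M.toReal / t ^ 3)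
        ≤ ENNReal.ofReal ((M⁻¹).toReal * (4 * r * δ₁ * δ₂)) := by
          apply ENNReal.ofReal_le_ofReal
          rw [ENNReal.toReal_inv]
          have e2 : 4 * c / M.toReal / t ^ 3 = (M.toReal)⁻¹ * (4 * (c / t ^ 3)) := by
            field_simp
          rw [e2]
          apply mul_le_mul_of_nonneg_left _ (by positivity)
          linarith
      _ = M⁻¹ * (ENNReal.ofReal (4 * r * δ₁) * ENNReal.ofReal δ₂) := by
          rw [ENNReal.ofReal_mul ENNReal.toReal_nonneg,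
            ENNReal.ofReal_toReal (ENNReal.inv_ne_top.2 hM0),
            ENNReal.ofReal_mul (by positivity)]
      _ ≤ M⁻¹ * (volume : Measure (ℂ × BIL.Ang)) (R ×ˢ J) := by gcongr
  -- almost every point of the box
  have hae : ∀ᵐ z ∂(BIL.liou (Tb θ p)), z ∈ R ×ˢ J → φ (-t₁) z ∈ U ∧ φ t₂ z ∈ V := by
    filter_upwards [hφ.orbit, hφ.zero] with z hz hz0
    rintro ⟨⟨hx1, hx2⟩, α', hα, hu⟩
    obtain ⟨b1, b2, b3, b4⟩ := hB z.1 _ α' hx1 hx2 hα rfl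
    refine q5_orbit (γ := fun t => φ t z) hθ hp hz (y := z.1)
      (w := Complex.exp (α' * Complex.I)) (by rw [hz0]) ?_ b1 b2 b3 b4
    rw [hz0, hu, q5_dir_coe]
  have hE : MeasurableSet (U ∩ (φ t) ⁻¹' V) :=
    hU.measurableSet.inter ((hφ.mp t).measurable hV.measurableSet)
  rw [← (hφ.mp (-t₁)).measure_preimage hE.nullMeasurableSet]
  refine le_trans hliou (measure_mono_ae ?_)
  filter_upwards [hae, hφ.add t (-t₁)] with z hz hz2 hzB
  obtain ⟨k1, k2⟩ := hz hzB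
  refine ⟨k1, ?_⟩
  change φ t (φ (-t₁) z) ∈ V
  rw [← hz2]
  have e : t + -t₁ = t₂ := by linarith
  rw [e]; exact k2

end TMX
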