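import Pool.Agent.TMX.A1
import Pool.Agent.TMX.A2
import Pool.Agent.TMX.A3a
import Pool.Agent.TMX.A3b
import Pool.Agent.TMX.A4
import Pool.Agent.TMX.A5
import Pool.Agent.TMX.A6
import Pool.Agent.TMX.C1
import Pool.Agent.TMX.C2
import Pool.Agent.TMX.C3
import Pool.Agent.TMX.F1
import Pool.Agent.TMX.F2a
import Pool.Agent.TMX.F2b
import Pool.Agent.TMX.G1
import Pool.Agent.TMX.G2
import Pool.Agent.TMX.G3
import Pool.Agent.TMX.G4
import Pool.Agent.TMX.G5
import Pool.Agent.TMX.I1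
import Pool.Agent.TMX.I3
import Pool.Agent.TMX.I4
import Pool.Agent.TMX.I5
import Pool.Agent.TMX.I5ab
import Pool.Agent.TMX.I5c
import Pool.Agent.TMX.I5d
import Pool.Agent.TMX.I6
import Pool.Agent.TMX.M1
import Pool.Agent.TMX.M2
import Pool.Agent.TMX.O1
import Pool.Agent.TMX.Q1
import Pool.Agent.TMX.Q2
import Pool.Agent.TMX.Q3
import Pool.Agent.TMX.Q4
import Pool.Agent.TMX.Q5
import Pool.Agent.TMX.S1
import Pool.Agent.TMX.S10
import Pool.Agent.TMX.S11a
import Pool.Agent.TMX.S11b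
import Pool.Agent.TMX.S11c
import Pool.Agent.TMX.S11d
import Pool.Agent.TMX.S12
import Pool.Agent.TMX.S13a
import Pool.Agent.TMX.S13b
import Pool.Agent.TMX.S13c
import Pool.Agent.TMX.S14
import Pool.Agent.TMX.S15
import Pool.Agent.TMX.S2
import Pool.Agent.TMX.S3
import Pool.Agent.TMX.S4
import Pool.Agent.TMX.S5
import Pool.Agent.TMX.S6
import Pool.Agent.TMX.S7
import Pool.Agent.TMX.S8
import Pool.Agent.TMX.S9
import Pool.Agent.TMX.SysDef
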