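import Pool.Agent.TMX.Basic

/-! # TMX [A1]: directions of `DD` parallel to a lattice vector -/

set_option autoImplicit false

open Set Filter Topology

namespace TMX

private theorem A1_quad {F : Type} [Field F] [Algebra F ℂ] {z A B C : ℂ}
    (hz : Transcendental F z) (hA : IsAlgebraic F A)
    (hB : IsAlgebraic F B) (hC : IsAlgebraic F C) (h : A * z ^ 4 + B * z ^ 2 + C = 0) :
    A = 0 ∧ B = 0 := by
  by_contra hne
  apply hz
  have hA' : A ∈ algebraicClosure F ℂ := mem_algebraicClosure_iff.mpr hA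
  have hB' : B ∈ algebraicClosure F ℂ := mem_algebraicClosure_iff.mpr hB
  have hC' : C ∈ algebraicClosure F ℂ := mem_algebraicClosure_iff.mpr hC
  have hK : IsAlgebraic (algebraicClosure F ℂ) z := by
    refine ⟨Polynomial.C (⟨A, hA'⟩ : algebraicClosure F ℂ) * Polynomial.X ^ 4 +
      Polynomial.C (⟨B, hB'⟩ : algebraicClosure F ℂ) * Polynomial.X ^ 2 +
      Polynomial.C (⟨C, hC'⟩ : algebraicClosure F ℂ), ?_, ?_⟩
    · intro h0
      apply hne
      have h4 := congrArg (fun q => Polynomial.coeff q 4) h0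
      have h2 := congrArg (fun q => Polynomial.coeff q 2) h0
      simp [Polynomial.coeff_X_pow] at h4 h2
      exact ⟨congrArg Subtype.val h4, congrArg Subtype.val h2⟩
    · simp only [map_add, map_mul, map_pow, Polynomial.aeval_C, Polynomial.aeval_X]
      exact h
  exact hK.restrictScalars F

private theorem A1_alg_root {n : ℕ} {u : ℂ} (h : u ^ 2 ^ n = 1) : IsAlgebraic ℚ u := by
  have h1 : IsIntegral ℚ u := by
    apply IsIntegral.of_pow (n := 2 ^ n) (by positivity)
    rw [h]; exact isIntegral_one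
  exact h1.isAlgebraic

private theorem A1_int (k : ℤ) : IsAlgebraic ℚ (k : ℂ) := by
  have := isAlgebraic_algebraMap (R := ℚ) (A := ℂ) (k : ℚ)
  simpa using this

private theorem A1_key1 {z z' u u' a b : ℂ} (hzz : z * z' = 1) (hcu : u * u' = 1)
    (h : b * ((u * z + u' * z') * (z - z')) = a * ((u * z - u' * z') * (z + z'))) :
    ((b - a) * u ^ 2) * z ^ 4 + ((a + b) * (1 - u ^ 2)) * z ^ 2 + (a - b) = 0 := by
  linear_combination (u * z ^ 2) * h +
    (b * (u ^ 2 * z ^ 2 - z ^ 2 * (u * u') + (u * u') * (z * z' + 1)) -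
      a * (-u ^ 2 * z ^ 2 + z ^ 2 * (u * u') + (u * u') * (z * z' + 1))) * hzz +
    (b * (-z ^ 2 + 1) - a * (z ^ 2 + 1)) * hcu

private theorem A1_key2 {z z' u u' a b : ℂ} (hzz : z * z' = 1) (hcu : u * u' = 1)
    (h : b * ((u * z' + u' * z) * (z - z')) = a * ((u * z' - u' * z) * (z + z'))) :
    (b + a) * z ^ 4 + ((b - a) * (u ^ 2 - 1)) * z ^ 2 + (-(a + b) * u ^ 2) = 0 := by
  linear_combination (u * z ^ 2) * h +
    (b * (-u ^ 2 * z ^ 2 + u ^ 2 * (z * z' + 1) + z ^ 2 * (u * u')) -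
      a * (-u ^ 2 * z ^ 2 - u ^ 2 * (z * z' + 1) + z ^ 2 * (u * u'))) * hzz +
    (b * (-z ^ 4 + z ^ 2) - a * (z ^ 4 + z ^ 2)) * hcu

/-- [A1] a direction of `DD` parallel to a lattice vector is special. -/
theorem lat_special {θ : ℝ} (hz : Transcendental ℚ (zz θ)) {n : ℕ} {w : ℂ} (hw : w ∈ DD θ n)
    {m : ℤ × ℤ} (hm : m ≠ 0) (h : crs w (lat θ m) = 0) :
    Spc θ w ∧ (m.1 = m.2 ∨ m.1 = -m.2) := by
  have hzz : zz θ * (starRingEnd ℂ) (zz θ) = 1 := by
    rw [Complex.mul_conj, Complex.normSq_eq_norm_sq, zz_norm]; norm_num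
  have hzre : (zz θ + (starRingEnd ℂ) (zz θ)) = 2 * (Real.cos θ : ℂ) := by
    rw [Complex.add_conj, zz_re]; push_cast; ring
  have hzim : (zz θ - (starRingEnd ℂ) (zz θ)) = 2 * (Real.sin θ : ℂ) * Complex.I := by
    rw [Complex.sub_conj, zz_im]; push_cast; ring
  have hcos : Real.cos θ ≠ 0 := by
    intro hc
    apply hz
    have h1 : zz θ ^ 2 = -1 := by
      rw [hc] at hzre
      have h2 : (starRingEnd ℂ) (zz θ) = -zz θ := by
        have : zz θ + (starRingEnd ℂ) (zz θ) = 0 := by rw [hzre]; simp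
        linear_combination this
      rw [h2] at hzz; linear_combination (-1 : ℂ) * hzz
    have h2 : IsIntegral ℚ (zz θ) := by
      apply IsIntegral.of_pow (n := 2) (by norm_num)
      rw [h1]; exact isIntegral_one.neg
    exact h2.isAlgebraic
  -- the real equation
  have hreal : w.re * Real.sin θ * m.2 = w.im * Real.cos θ * m.1 := by
    have h1 : w.re * (2 * bb θ * (m.2 : ℝ)) - w.im * (2 * (m.1 : ℝ)) = 0 := h
    have h2 : bb θ * Real.cos θ = Real.sin θ := by
      unfold bb; rw [Real.tan_eq_sin_div_cos]; field_simp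
    rw [← h2]; linear_combination (Real.cos θ / 2) * h1
  have hwre : w + (starRingEnd ℂ) w = 2 * (w.re : ℂ) := by
    rw [Complex.add_conj]; push_cast; ring
  have hwim : w - (starRingEnd ℂ) w = 2 * (w.im : ℂ) * Complex.I := by
    rw [Complex.sub_conj]; push_cast; ring
  have hcx : (m.2 : ℂ) * ((w + (starRingEnd ℂ) w) * (zz θ - (starRingEnd ℂ) (zz θ))) =
      (m.1 : ℂ) * ((w - (starRingEnd ℂ) w) * (zz θ + (starRingEnd ℂ) (zz θ))) := by
    rw [hwre, hwim, hzre, hzim]
    have h1 : (w.re : ℂ) * (Real.sin θ : ℂ) * (m.2 : ℂ) =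
        (w.im : ℂ) * (Real.cos θ : ℂ) * (m.1 : ℂ) := by
      have := congrArg (fun r : ℝ => (r : ℂ)) hreal
      push_cast at this ⊢
      exact this
    linear_combination (4 * Complex.I) * h1
  have hm' : ¬ (m.1 = 0 ∧ m.2 = 0) := by
    rintro ⟨h1, h2⟩; exact hm (Prod.ext h1 h2)
  have hmain : ∀ u : ℂ, u ^ 2 ^ n = 1 → (starRingEnd ℂ) u = u⁻¹ ∧ u ≠ 0 := by
    intro u hu
    have h1 : ‖u‖ = 1 := Complex.norm_eq_one_of_pow_eq_one hu (by positivity)
    have h2 : u * (starRingEnd ℂ) u = 1 := by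
      rw [Complex.mul_conj, Complex.normSq_eq_norm_sq, h1]; norm_num
    exact ⟨eq_inv_of_mul_eq_one_right h2, fun h0 => by rw [h0] at h2; simp at h2⟩
  rcases hw with hw | hw
  · -- `w = u z`
    obtain ⟨u, hu⟩ : ∃ u, u = w * (starRingEnd ℂ) (zz θ) := ⟨_, rfl⟩
    rw [← hu] at hw
    have hwu : w = u * zz θ := by rw [hu]; linear_combination (-w) * hzz
    obtain ⟨hc1, hu0⟩ := hmain u hw
    have hcu : u * u⁻¹ = 1 := mul_inv_cancel₀ hu0
    have hcw : (starRingEnd ℂ) w = u⁻¹ * (starRingEnd ℂ) (zz θ) := by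
      rw [hwu, map_mul, hc1]
    rw [hcw, hwu] at hcx
    have key := A1_key1 hzz hcu hcx
    have e1 : (m.2 : ℂ) - m.1 = ((m.2 - m.1 : ℤ) : ℂ) := by push_cast; ring
    have e2 : (m.1 : ℂ) + m.2 = ((m.1 + m.2 : ℤ) : ℂ) := by push_cast; ring
    have e3 : (m.1 : ℂ) - m.2 = ((m.1 - m.2 : ℤ) : ℂ) := by push_cast; ring
    rw [e1, e2, e3] at key
    have hua := A1_alg_root hw
    obtain ⟨k1, k2⟩ := A1_quad hz ((A1_int _).mul (hua.pow 2))
      ((A1_int _).mul ((isAlgebraic_one).sub (hua.pow 2))) (A1_int _) key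
    have hm12 : m.1 = m.2 := by
      rcases mul_eq_zero.mp k1 with k | k
      · have : m.2 - m.1 = 0 := by exact_mod_cast k
        omega
      · exact absurd k (pow_ne_zero 2 hu0)
    refine ⟨?_, Or.inl hm12⟩
    have hu1 : 1 - u ^ 2 = 0 := by
      rcases mul_eq_zero.mp k2 with k | k
      · have : m.1 + m.2 = 0 := by exact_mod_cast k
        exact absurd ⟨by omega, by omega⟩ hm'
      · exact k
    have hu2 : (u - 1) * (u + 1) = 0 := by linear_combination (-1 : ℂ) * hu1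
    rcases mul_eq_zero.mp hu2 with k | k
    · left; rw [hwu, sub_eq_zero.mp k, one_mul]
    · right; left; rw [hwu, eq_neg_of_add_eq_zero_left k]; ring
  · -- `w = u z'`
    obtain ⟨u, hu⟩ : ∃ u, u = w * zz θ := ⟨_, rfl⟩
    rw [← hu] at hw
    have hwu : w = u * (starRingEnd ℂ) (zz θ) := by rw [hu]; linear_combination (-w) * hzz
    obtain ⟨hc1, hu0⟩ := hmain u hw
    have hcu : u * u⁻¹ = 1 := mul_inv_cancel₀ hu0
    have hcw : (starRingEnd ℂ) w = u⁻¹ * zz θ := by
      rw [hwu, map_mul, hc1, Complex.conj_conj]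
    rw [hcw, hwu] at hcx
    have key := A1_key2 hzz hcu hcx
    have e1 : (m.2 : ℂ) + m.1 = ((m.2 + m.1 : ℤ) : ℂ) := by push_cast; ring
    have e2 : (m.2 : ℂ) - m.1 = ((m.2 - m.1 : ℤ) : ℂ) := by push_cast; ring
    have e3 : -((m.1 : ℂ) + m.2) = ((-(m.1 + m.2) : ℤ) : ℂ) := by push_cast; ring
    rw [e1, e2, e3] at key
    have hua := A1_alg_root hw
    obtain ⟨k1, k2⟩ := A1_quad hz (A1_int _)
      ((A1_int _).mul ((hua.pow 2).sub (isAlgebraic_one))) ((A1_int _).mul (hua.pow 2)) key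
    have hm12 : m.1 = -m.2 := by
      have : m.2 + m.1 = 0 := by exact_mod_cast k1
      omega
    refine ⟨?_, Or.inr hm12⟩
    have hu1 : u ^ 2 - 1 = 0 := by
      rcases mul_eq_zero.mp k2 with k | k
      · have : m.2 - m.1 = 0 := by exact_mod_cast k
        exact absurd ⟨by omega, by omega⟩ hm'
      · exact k
    have hu2 : (u - 1) * (u + 1) = 0 := by linear_combination hu1
    rcases mul_eq_zero.mp hu2 with k | k
    · right; right; left; rw [hwu, sub_eq_zero.mp k, one_mul]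
    · right; right; right; rw [hwu, eq_neg_of_add_eq_zero_left k]; ring

end TMX
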