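import Pool.Agent.TMX.Table

/-!
# MP_613dd8_an [TMX]: auxiliary definitions
-/

set_option autoImplicit false

open Set Filter Topology

namespace TMX

noncomputable section

/-! ## The plane -/

/-- Cross product of two vectors of the plane. -/
def crs (x y : ℂ) : ℝ := x.re * y.im - x.im * y.re

/-- Reflection of a vector in the side `j`. -/
def refl (p : Par) (j : Fin 4) (w : ℂ) : ℂ := w - (2 * dot w (nu p j) : ℝ) * nu p j

/-! ## Unfolding -/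

/-- The four linear maps `x + iy ↦ ± x ± iy`. -/
abbrev Sg : Type := ℤˣ × ℤˣ

def act (d : Sg) (x : ℂ) : ℂ := ⟨((d.1 : ℤ) : ℝ) * x.re, ((d.2 : ℤ) : ℝ) * x.im⟩

/-- The determinant of `act d`. -/
def sdet (d : Sg) : ℝ := ((d.1 : ℤ) : ℝ) * ((d.2 : ℤ) : ℝ)

/-- The lattice `2ℤ + 2bℤ i`. -/
def lat (θ : ℝ) (m : ℤ × ℤ) : ℂ := ⟨2 * (m.1 : ℝ), 2 * bb θ * (m.2 : ℝ)⟩

/-- Copies of the hole in the unfolded plane. -/
abbrev Cp : Type := Sg × (ℤ × ℤ)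

/-- Coordinates in the frame of the copy `c`. -/
def frm (θ : ℝ) (c : Cp) (y : ℂ) : ℂ := act c.1 (y - lat θ c.2)

/-- The copy `c` of the hole. -/
def obs (θ : ℝ) (p : Par) (c : Cp) : Set ℂ := {y | frm θ c y ∈ Q p}

/-- `(x, w)` is an outgoing state of the hole `Q p`. -/
def Out (p : Par) (x w : ℂ) : Prop := x ∈ Q p ∧ ∃ j, dot x (nu p j) = p.2 j ∧ 0 < dot w (nu p j)

/-- `x` is in no copy of the hole. -/
def Fre (θ : ℝ) (p : Par) (x : ℂ) : Prop := ∀ c, x ∉ obs θ p c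

/-- The points `x + s w`, `0 < s < t`, are in no copy of the hole. -/
def FreeSeg (θ : ℝ) (p : Par) (x w : ℂ) (t : ℝ) : Prop :=
  ∀ s : ℝ, 0 < s → s < t → ∀ c, x + s * w ∉ obs θ p c

/-! ## Paths: a letter is a copy and a side of it -/

abbrev Lt : Type := Cp × Fin 4

/-- Flight time from the state `z = (position, direction)` to the line of the side `a`. -/
def fl (θ : ℝ) (p : Par) (a : Lt) (z : ℂ × ℂ) : ℝ :=
  (p.2 a.2 - dot (frm θ a.1 z.1) (nu p a.2)) / dot (act a.1.1 z.2) (nu p a.2)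

/-- The next state, in the frame of the copy that is hit. -/
def nx (θ : ℝ) (p : Par) (a : Lt) (z : ℂ × ℂ) : ℂ × ℂ :=
  (frm θ a.1 (z.1 + fl θ p a z * z.2), refl p a.2 (act a.1.1 z.2))

/-- The first obstacle on the way of `z` is the open side `a`. -/
def Good (θ : ℝ) (p : Par) (a : Lt) (z : ℂ × ℂ) : Prop :=
  dot (act a.1.1 z.2) (nu p a.2) < 0 ∧ 0 < fl θ p a z ∧ FreeSeg θ p z.1 z.2 (fl θ p a z) ∧
    ∀ j, j ≠ a.2 → dot (nx θ p a z).1 (nu p j) < p.2 j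

/-- State after the word `l`. -/
def run (θ : ℝ) (p : Par) : List Lt → ℂ × ℂ → ℂ × ℂ
  | [], z => z
  | a :: l, z => run θ p l (nx θ p a z)

/-- Duration of the word `l`. -/
def tim (θ : ℝ) (p : Par) : List Lt → ℂ × ℂ → ℝ
  | [], _ => 0
  | a :: l, z => fl θ p a z + tim θ p l (nx θ p a z)

/-- The path of `z` follows the word `l`. -/
def GoodL (θ : ℝ) (p : Par) : List Lt → ℂ × ℂ → Prop
  | [], _ => True
  | a :: l, z => Good θ p a z ∧ GoodL θ p l (nx θ p a z)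

/-- The path of `z` follows `l`, then moves freely and is in `V` (after folding) at time `t`. -/
def VisitL (θ : ℝ) (p : Par) (l : List Lt) (z : ℂ × ℂ) (V : Set (ℂ × ℂ)) (t : ℝ) : Prop :=
  GoodL θ p l z ∧ tim θ p l z < t ∧
    (∀ s : ℝ, 0 < s → s ≤ t - tim θ p l z → Fre θ p ((run θ p l z).1 + s * (run θ p l z).2)) ∧
    ∃ c : Cp, (frm θ c ((run θ p l z).1 + (t - tim θ p l z : ℝ) * (run θ p l z).2),
      act c.1 (run θ p l z).2) ∈ V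

def Visit (θ : ℝ) (p : Par) (z : ℂ × ℂ) (V : Set (ℂ × ℂ)) (t : ℝ) : Prop :=
  ∃ l, VisitL θ p l z V t

/-- Time reversal of a set of phase points. -/
def rev (U : Set (ℂ × ℂ)) : Set (ℂ × ℂ) := {z | (z.1, -z.2) ∈ U}

/-- The length of the persistent cylinder. -/
def ell (θ : ℝ) : ℝ := 2 / Real.cos θ

/-- `x + iy ↦ -x + iy`. -/
def dp : Sg := (-1, 1)

/-- The two separatrices of the persistent cylinder. -/
def sepm (θ : ℝ) (p : Par) : ℂ × ℂ := (vtx p 1, -refl p 1 (zz θ))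
def sepp (θ : ℝ) (p : Par) : ℂ × ℂ := (vtx p 2, refl p 3 (act dp (zz θ)))

/-! ## The table -/

/-- The open rectangle. -/
def Ro (θ : ℝ) : Set ℂ := {x | 0 < x.re ∧ x.re < 1 ∧ 0 < x.im ∧ x.im < bb θ}

/-- The phase point `g` of the table is the folded plane state `z = (position, direction)`; the
cell is the one that the ray enters. -/
def Rel (θ : ℝ) (g : ℂ × BIL.Ang) (z : ℂ × ℂ) : Prop :=
  ∃ c : Cp, g.1 = frm θ c z.1 ∧ BIL.dir g.2 = act c.1 z.2 ∧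
    ∀ᶠ s : ℝ in 𝓝[>] (0 : ℝ), frm θ c (z.1 + s * z.2) ∈ Rc θ

/-- Topological mixing of the billiard flows of a polygon (measure theoretic form). -/
def TopMix {n : ℕ} (P : Set ℂ) (a b : Fin n → ℂ) : Prop :=
  ∀ φ : ℝ → ℂ × BIL.Ang → ℂ × BIL.Ang, BIL.IsBilliardFlow P a b φ →
    ∀ U V : Set (ℂ × BIL.Ang), IsOpen U → IsOpen V →
      (U ∩ P ×ˢ univ).Nonempty → (V ∩ P ×ˢ univ).Nonempty →
      ∃ T : ℝ, ∀ t ≥ T, 0 < BIL.liou P (U ∩ (φ t) ⁻¹' V)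

/-! ## Interval exchanges with flips on finitely many components -/

/-- Data of an interval exchange with flips. -/
structure Sys (W : Type) where
  C : Finset W
  a : W → ℝ
  b : W → ℝ
  A : Set (W × ℝ)
  B : Set (W × ℝ)
  T : W × ℝ → W × ℝ

/-- The space of the system. -/
def Sys.S {W : Type} (Y : Sys W) : Set (W × ℝ) := {x | x.1 ∈ Y.C ∧ Y.a x.1 < x.2 ∧ x.2 < Y.b x.1}

structure Sys.Ok {W : Type} (Y : Sys W) : Prop where
  hab : ∀ w ∈ Y.C, Y.a w < Y.b w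
  finA : Y.A.Finite
  finB : Y.B.Finite
  subA : Y.A ⊆ Y.S
  subB : Y.B ⊆ Y.S
  bij : BijOn Y.T (Y.S \ Y.A) (Y.S \ Y.B)
  loc : ∀ x ∈ Y.S \ Y.A, ∃ e : ℝ, (e = 1 ∨ e = -1) ∧ ∀ᶠ t in 𝓝 (0 : ℝ),
    (x.1, x.2 + t) ∈ Y.S \ Y.A ∧ Y.T (x.1, x.2 + t) = ((Y.T x).1, (Y.T x).2 + e * t)
  enda : ∀ w ∈ Y.C, ∃ y ∈ Y.S, ∃ e : ℝ, (e = 1 ∨ e = -1) ∧ ∀ᶠ t in 𝓝[>] (0 : ℝ),
    (w, Y.a w + t) ∈ Y.S \ Y.A ∧ Y.T (w, Y.a w + t) = (y.1, y.2 + e * t)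
  endb : ∀ w ∈ Y.C, ∃ y ∈ Y.S, ∃ e : ℝ, (e = 1 ∨ e = -1) ∧ ∀ᶠ t in 𝓝[>] (0 : ℝ),
    (w, Y.b w - t) ∈ Y.S \ Y.A ∧ Y.T (w, Y.b w - t) = (y.1, y.2 + e * t)
  nc : ∀ y ∈ Y.B, ∀ n : ℕ, Y.T^[n] y ∉ Y.A
  conn : ∀ D : Set W, (∀ x ∈ Y.S \ Y.A, x.1 ∈ D ↔ (Y.T x).1 ∈ D) → (∃ w ∈ Y.C, w ∈ D) →
    ∀ w ∈ Y.C, w ∈ D
  neA : Y.A.Nonempty

/-! Coding of a system -/

/-- Points with an infinite forward orbit. -/
def Sys.Inf {W : Type} (Y : Sys W) : Set (W × ℝ) := {x | x ∈ Y.S ∧ ∀ n : ℕ, Y.T^[n] x ∉ Y.A}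

/-- Letter of a point: the left end point of its piece. -/
def Sys.lt {W : Type} (Y : Sys W) (x : W × ℝ) : W × ℝ :=
  (x.1, sSup {α | α < x.2 ∧ (α = Y.a x.1 ∨ (x.1, α) ∈ Y.A)})

/-- Itinerary. -/
def Sys.cd {W : Type} (Y : Sys W) (x : W × ℝ) (n : ℕ) : W × ℝ := Y.lt (Y.T^[n] x)

/-- The subshift. -/
def Sys.Om {W : Type} (Y : Sys W) : Set (ℕ → W × ℝ) :=
  {ω | ∀ N : ℕ, ∃ x ∈ Y.S, ∀ k < N, Y.T^[k] x ∉ Y.A ∧ Y.lt (Y.T^[k] x) = ω k}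

/-! ## The section of the billiard in finitely many directions -/

/-- The directions `u z`, `u z̄` with `u ^ (2 ^ n) = 1`. -/
def DD (θ : ℝ) (n : ℕ) : Set ℂ :=
  {w | (w * (starRingEnd ℂ) (zz θ)) ^ (2 ^ n) = 1 ∨ (w * zz θ) ^ (2 ^ n) = 1}

/-- Extreme offsets of the hole in the direction `w`. -/
def oa (p : Par) (w : ℂ) : ℝ := Finset.univ.inf' ⟨0, Finset.mem_univ _⟩ fun j => crs w (vtx p j)
def ob (p : Par) (w : ℂ) : ℝ := Finset.univ.sup' ⟨0, Finset.mem_univ _⟩ fun j => crs w (vtx p j)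

/-- The exit point of the line `crs w x = o` from the hole: `X = (be + o i) w`. -/
def be (p : Par) (w : ℂ) (o : ℝ) : ℝ := sSup {t : ℝ | ((t : ℂ) + o * Complex.I) * w ∈ Q p}
def XX (p : Par) (w : ℂ) (o : ℝ) : ℂ := ((be p w o : ℂ) + o * Complex.I) * w

open Classical in
/-- The letter of the first side hit (junk value if there is none). -/
def ltr (θ : ℝ) (p : Par) (x : ℂ × ℝ) : Lt :=
  if h : ∃ a, Good θ p a (XX p x.1 x.2, x.1) then h.choose else ((1, 0), 0)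

/-- The section map. -/
def TT (θ : ℝ) (p : Par) (x : ℂ × ℝ) : ℂ × ℝ :=
  ((nx θ p (ltr θ p x) (XX p x.1 x.2, x.1)).2,
    crs (nx θ p (ltr θ p x) (XX p x.1 x.2, x.1)).2 (nx θ p (ltr θ p x) (XX p x.1 x.2, x.1)).1)

/-- The space of the section. -/
def SS (θ : ℝ) (p : Par) (n : ℕ) : Set (ℂ × ℝ) :=
  {x | x.1 ∈ DD θ n ∧ oa p x.1 < x.2 ∧ x.2 < ob p x.1}

/-- States that run into a vertex. -/
def SA (θ : ℝ) (p : Par) (n : ℕ) : Set (ℂ × ℝ) :=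
  {x | x ∈ SS θ p n ∧ ∀ a, ¬ Good θ p a (XX p x.1 x.2, x.1)}

def SB (θ : ℝ) (p : Par) (n : ℕ) : Set (ℂ × ℝ) :=
  SS θ p n \ TT θ p '' (SS θ p n \ SA θ p n)

/-- The part of the flight time that is constant on the pieces. -/
def ff (θ : ℝ) (p : Par) (x : ℂ × ℝ) : ℝ :=
  dot (lat θ (ltr θ p x).1.2) x.1 -
    2 * p.2 (ltr θ p x).2 * dot (nu p (ltr θ p x).2) (TT θ p x).1

/-- Special directions. -/
def Spc (θ : ℝ) (w : ℂ) : Prop :=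
  w = zz θ ∨ w = -zz θ ∨ w = (starRingEnd ℂ) (zz θ) ∨ w = -(starRingEnd ℂ) (zz θ)

/-! ## Generic parameters -/

/-- A countable field of constants. -/
def KK (θ : ℝ) : Subfield ℝ :=
  Subfield.closure ({Real.cos θ, Real.sin θ} ∪
    Set.range (fun k : ℤ × ℕ => Real.cos (Real.pi * k.1 / 2 ^ k.2)) ∪
    Set.range (fun k : ℤ × ℕ => Real.sin (Real.pi * k.1 / 2 ^ k.2)))

/-- The `KK`-span of `1` and the support numbers. -/
def VV (θ : ℝ) (p : Par) : Set ℝ :=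
  {v | ∃ c : ℝ, c ∈ KK θ ∧ ∃ d : Fin 4 → ℝ, (∀ j, d j ∈ KK θ) ∧ v = c + ∑ j, d j * p.2 j}

/-- Generic parameters with a dyadic tilt of order `2 ^ n`. -/
structure Gen (θ : ℝ) (p : Par) (n : ℕ) : Prop where
  two : 2 ≤ n
  tilt : ∃ k : ℤ, Odd k ∧ p.1 = Real.pi * k / 2 ^ n
  lin : ∀ c : ℝ, c ∈ KK θ → ∀ d : Fin 4 → ℝ, (∀ j, d j ∈ KK θ) → c + ∑ j, d j * p.2 j = 0 →
    c = 0 ∧ ∀ j, d j = 0
  quad : (p.2 0 + p.2 2) * (p.2 1 + p.2 3) ∉ VV θ p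

end

end TMX
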