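import Pool.Agent.TMX.Defs

/-!
-/

set_option autoImplicit false

open Set Filter Topology

namespace TMX.Ger

open TMX

variable {W : Type}

/-- shift of a point -/
def sh (x : W × ℝ) (t : ℝ) : W × ℝ := (x.1, x.2 + t)

theorem sh_fst (x : W × ℝ) (t : ℝ) : (sh x t).1 = x.1 := rfl
theorem sh_snd (x : W × ℝ) (t : ℝ) : (sh x t).2 = x.2 + t := rfl
theorem sh_zero (x : W × ℝ) : sh x 0 = x := by unfold sh; simp
theorem sh_sh (x : W × ℝ) (t u : ℝ) : sh (sh x t) u = sh x (t + u) := by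
  unfold sh; simp only [Prod.mk.injEq, true_and]; ring
theorem sh_inj {x : W × ℝ} {t u : ℝ} (h : sh x t = sh x u) : t = u := by
  have := congrArg Prod.snd h
  simp only [sh_snd] at this
  linarith
theorem sh_ext {x y : W × ℝ} {t u : ℝ} (h1 : x.1 = y.1) (h2 : x.2 + t = y.2 + u) :
    sh x t = sh y u := Prod.ext h1 h2
theorem sh_diff {x y : W × ℝ} (h : x.1 = y.1) : sh x (y.2 - x.2) = y :=
  Prod.ext h (by simp [sh])

/-- signs -/
def Sn (s : ℝ) : Prop := s = 1 ∨ s = -1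

theorem Sn.sq {s : ℝ} (h : Sn s) : s * s = 1 := by rcases h with rfl | rfl <;> norm_num
theorem Sn.mul {s e : ℝ} (h : Sn s) (h' : Sn e) : Sn (e * s) := by
  rcases h with rfl | rfl <;> rcases h' with rfl | rfl <;> simp [Sn]
theorem Sn.abs {s : ℝ} (h : Sn s) (t : ℝ) : |s * t| = |t| := by
  rcases h with rfl | rfl <;> simp
theorem Sn.mm {s : ℝ} (h : Sn s) (t : ℝ) : s * (s * t) = t := by
  rw [← mul_assoc, h.sq, one_mul]

/-- two distinct points determine the germ -/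
theorem two {x y : W × ℝ} {s e u v : ℝ} (huv : u ≠ v) (h1 : sh x (s * u) = sh y (e * u))
    (h2 : sh x (s * v) = sh y (e * v)) : x = y ∧ s = e := by
  have a1 := congrArg Prod.snd h1
  have a2 := congrArg Prod.snd h2
  simp only [sh_snd] at a1 a2
  have h3 : (s - e) * (u - v) = 0 := by linarith
  have h4 : s - e = 0 := by
    rcases mul_eq_zero.1 h3 with h | h
    · exact h
    · exact absurd (sub_eq_zero.1 h) huv
  have h5 : s = e := by linarith
  have h0 : (sh x (s * u)).1 = (sh y (e * u)).1 := congrArg Prod.fst h1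
  refine ⟨Prod.ext h0 ?_, h5⟩
  rw [h5] at a1
  linarith

/-- the local assumptions -/
structure Pre (Y : Sys W) : Prop where
  hab : ∀ w ∈ Y.C, Y.a w < Y.b w
  finA : Y.A.Finite
  finB : Y.B.Finite
  subA : Y.A ⊆ Y.S
  subB : Y.B ⊆ Y.S
  bij : BijOn Y.T (Y.S \ Y.A) (Y.S \ Y.B)
  loc : ∀ x ∈ Y.S \ Y.A, ∃ e : ℝ, Sn e ∧ ∃ δ > 0, ∀ t : ℝ, |t| < δ →
    sh x t ∈ Y.S \ Y.A ∧ Y.T (sh x t) = sh (Y.T x) (e * t)

variable {Y : Sys W}

theorem ev0 {p : ℝ → Prop} : (∀ᶠ t in 𝓝 (0 : ℝ), p t) ↔ ∃ δ > 0, ∀ t : ℝ, |t| < δ → p t := by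
  rw [Metric.eventually_nhds_iff]
  simp only [Real.dist_eq, sub_zero]

theorem ev1 {p : ℝ → Prop} : (∀ᶠ t in 𝓝[>] (0 : ℝ), p t) ↔
    ∃ δ > 0, ∀ t : ℝ, 0 < t → t < δ → p t := by
  rw [eventually_nhdsWithin_iff, ev0]
  constructor
  · rintro ⟨δ, hδ, h⟩
    exact ⟨δ, hδ, fun t h1 h2 => h t (by rw [abs_of_pos h1]; exact h2) h1⟩
  · rintro ⟨δ, hδ, h⟩
    exact ⟨δ, hδ, fun t h1 h2 => h t h2 (lt_of_le_of_lt (le_abs_self t) h1)⟩

theorem Pre.of (ok : Y.Ok) : Pre Y where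
  hab := ok.hab
  finA := ok.finA
  finB := ok.finB
  subA := ok.subA
  subB := ok.subB
  bij := ok.bij
  loc := by
    intro x hx
    obtain ⟨e, he, h⟩ := ok.loc x hx
    obtain ⟨δ, hδ, h'⟩ := ev0.1 h
    exact ⟨e, he, δ, hδ, h'⟩

/-- the germ of the side `s` at `x` is in the space -/
def Dir (Y : Sys W) (x : W × ℝ) (s : ℝ) : Prop :=
  Sn s ∧ ∃ δ > 0, ∀ t : ℝ, 0 < t → t < δ → sh x (s * t) ∈ Y.S

/-- the germ `(x, s)` is mapped to the germ `(y, e)` -/
def Gm (Y : Sys W) (x : W × ℝ) (s : ℝ) (y : W × ℝ) (e : ℝ) : Prop :=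
  ∃ δ > 0, ∀ t : ℝ, 0 < t → t < δ →
    sh x (s * t) ∈ Y.S \ Y.A ∧ Y.T (sh x (s * t)) = sh y (e * t)

/-- affine maps on segments -/
theorem seg (P : Pre Y) {x : W × ℝ} {s : ℝ} (hs : Sn s) {I : Set ℝ} (hI : IsPreconnected I)
    (hne : I.Nonempty) (h : ∀ t ∈ I, sh x (s * t) ∈ Y.S \ Y.A) :
    ∃ y : W × ℝ, ∃ e : ℝ, Sn e ∧ ∀ t ∈ I, Y.T (sh x (s * t)) = sh y (e * t) := by
  have L : ∀ t ∈ I, ∃ y : W × ℝ, ∃ e : ℝ, Sn e ∧ ∃ δ > 0, ∀ u : ℝ, |u - t| < δ →
      Y.T (sh x (s * u)) = sh y (e * u) := by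
    intro t ht
    obtain ⟨e, he, δ, hδ, hl⟩ := P.loc _ (h t ht)
    refine ⟨sh (Y.T (sh x (s * t))) (-(e * s * t)), e * s, hs.mul he, δ, hδ, ?_⟩
    intro u hu
    have h1 := (hl (s * (u - t)) (by rw [hs.abs]; exact hu)).2
    have e1 : s * t + s * (u - t) = s * u := by ring
    have e2 : -(e * s * t) + e * s * u = e * (s * (u - t)) := by ring
    rw [sh_sh, e1] at h1
    rw [h1, sh_sh, e2]
  obtain ⟨t0, ht0⟩ := hne
  obtain ⟨y, e, he, δ0, hδ0, h0⟩ := L t0 ht0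
  refine ⟨y, e, he, ?_⟩
  let U : Set ℝ := {t | ∀ᶠ u in 𝓝 t, Y.T (sh x (s * u)) = sh y (e * u)}
  have hUo : IsOpen U := isOpen_setOfPred_eventually_nhds
  have hIU : I ⊆ U := by
    apply hI.subset_of_closure_inter_subset hUo
    · refine ⟨t0, ht0, ?_⟩
      change ∀ᶠ u in 𝓝 t0, _
      rw [Metric.eventually_nhds_iff]
      exact ⟨δ0, hδ0, fun u hu => h0 u hu⟩
    · rintro t ⟨htc, htI⟩
      obtain ⟨y1, e1, he1, δ1, hδ1, h1⟩ := L t htI
      obtain ⟨u, huU, hu⟩ := Metric.mem_closure_iff.1 htc δ1 hδ1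
      have huU' : ∀ᶠ v in 𝓝 u, Y.T (sh x (s * v)) = sh y (e * v) := huU
      rw [Metric.eventually_nhds_iff] at huU'
      obtain ⟨δ2, hδ2, h2⟩ := huU'
      rw [dist_comm, Real.dist_eq] at hu
      set η := min (δ2 / 2) ((δ1 - |u - t|) / 2) with hη
      have hηp : 0 < η := lt_min (by linarith) (by linarith)
      have hη1 : η < δ2 := lt_of_le_of_lt (min_le_left _ _) (by linarith)
      have hη2 : |u - t| + η < δ1 := by
        have := min_le_right (δ2 / 2) ((δ1 - |u - t|) / 2)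
        rw [← hη] at this
        linarith
      have k1 : sh y1 (e1 * u) = sh y (e * u) := by
        rw [← h1 u (by linarith), h2 (by simpa using hδ2)]
      have k2 : sh y1 (e1 * (u + η)) = sh y (e * (u + η)) := by
        rw [← h1 (u + η) ?_, h2 ?_]
        · rw [Real.dist_eq]
          have : u + η - u = η := by ring
          rw [this, abs_of_pos hηp]
          exact hη1
        · have : u + η - t = (u - t) + η := by ring
          rw [this]
          refine lt_of_le_of_lt (abs_add_le _ _) ?_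
          rw [abs_of_pos hηp]
          exact hη2
      obtain ⟨ey, ee⟩ := two (by linarith : u ≠ u + η) k1 k2
      change ∀ᶠ v in 𝓝 t, _
      rw [Metric.eventually_nhds_iff]
      refine ⟨δ1, hδ1, fun v hv => ?_⟩
      rw [h1 v hv, ey, ee]
  intro t ht
  have := (hIU ht).self_of_nhds
  exact this

theorem avoid {A : Set (W × ℝ)} (hA : A.Finite) (x : W × ℝ) {s : ℝ} (hs : Sn s) :
    ∃ δ > 0, ∀ t : ℝ, 0 < t → t < δ → sh x (s * t) ∉ A := by
  have hF : ((fun α : W × ℝ => |α.2 - x.2|) '' A \ {0}).Finite :=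
    (hA.image _).subset sdiff_subset
  have ho := hF.isClosed.isOpen_compl
  obtain ⟨δ, hδ, h⟩ := Metric.isOpen_iff.1 ho 0 (by simp)
  refine ⟨δ, hδ, ?_⟩
  intro t ht htδ hA'
  have h1 : t ∈ Metric.ball (0 : ℝ) δ := by
    rw [Metric.mem_ball, Real.dist_eq, sub_zero, abs_of_pos ht]; exact htδ
  apply h h1
  refine ⟨⟨_, hA', ?_⟩, ht.ne'⟩
  simp only [sh_snd]
  have : x.2 + s * t - x.2 = s * t := by ring
  rw [this, hs.abs, abs_of_pos ht]

theorem Dir.of_mem {x : W × ℝ} (hx : x ∈ Y.S) {s : ℝ} (hs : Sn s) : Dir Y x s := by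
  refine ⟨hs, min (x.2 - Y.a x.1) (Y.b x.1 - x.2), lt_min (by linarith [hx.2.1])
    (by linarith [hx.2.2]), ?_⟩
  intro t ht hδ
  have h1 := lt_of_lt_of_le hδ (min_le_left _ _)
  have h2 := lt_of_lt_of_le hδ (min_le_right _ _)
  have h3 := hx.1
  refine ⟨h3, ?_, ?_⟩
  · rw [sh_fst, sh_snd]
    rcases hs with rfl | rfl <;> linarith
  · rw [sh_fst, sh_snd]
    rcases hs with rfl | rfl <;> linarith

theorem germ_next (P : Pre Y) {x : W × ℝ} {s : ℝ} (hd : Dir Y x s) :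
    ∃ y : W × ℝ, ∃ e : ℝ, Dir Y y e ∧ Gm Y x s y e := by
  obtain ⟨hs, δ1, hδ1, h1⟩ := hd
  obtain ⟨δ2, hδ2, h2⟩ := avoid P.finA x hs
  set δ := min δ1 δ2 with hδ
  have hδp : 0 < δ := lt_min hδ1 hδ2
  have hin : ∀ t : ℝ, 0 < t → t < δ → sh x (s * t) ∈ Y.S \ Y.A := fun t ht htd =>
    ⟨h1 t ht (lt_of_lt_of_le htd (min_le_left _ _)),
      h2 t ht (lt_of_lt_of_le htd (min_le_right _ _))⟩
  obtain ⟨y, e, he, h⟩ := seg P hs (I := Ioo 0 δ) isPreconnected_Ioo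
    (nonempty_Ioo.2 hδp) (fun t ht => hin t ht.1 ht.2)
  refine ⟨y, e, ⟨he, δ, hδp, ?_⟩, δ, hδp, fun t ht htd => ⟨hin t ht htd, h t ⟨ht, htd⟩⟩⟩
  intro t ht htd
  rw [← h t ⟨ht, htd⟩]
  exact (P.bij.mapsTo (hin t ht htd)).1

theorem Gm.unique {x y z : W × ℝ} {s e f : ℝ} (h1 : Gm Y x s y e) (h2 : Gm Y x s z f) :
    y = z ∧ e = f := by
  obtain ⟨δ1, hδ1, h1⟩ := h1
  obtain ⟨δ2, hδ2, h2⟩ := h2
  have hp : 0 < min δ1 δ2 := lt_min hδ1 hδ2
  have a1 := min_le_left δ1 δ2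
  have a2 := min_le_right δ1 δ2
  have k : ∀ t : ℝ, 0 < t → t < min δ1 δ2 → sh y (e * t) = sh z (f * t) := by
    intro t ht htd
    rw [← (h1 t ht (lt_of_lt_of_le htd a1)).2, ← (h2 t ht (lt_of_lt_of_le htd a2)).2]
  exact two (u := min δ1 δ2 / 2) (v := min δ1 δ2 / 3) (by
    intro h
    linarith) (k _ (by linarith) (by linarith)) (k _ (by linarith) (by linarith))

theorem Gm.of_mem (P : Pre Y) {x : W × ℝ} (hx : x ∈ Y.S \ Y.A) {s : ℝ} (hs : Sn s) :
    ∃ e : ℝ, Sn e ∧ Gm Y x s (Y.T x) e := by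
  obtain ⟨e, he, δ, hδ, h⟩ := P.loc x hx
  refine ⟨e * s, hs.mul he, δ, hδ, ?_⟩
  intro t ht htd
  have h1 := h (s * t) (by rw [hs.abs, abs_of_pos ht]; exact htd)
  refine ⟨h1.1, ?_⟩
  rw [h1.2, mul_assoc]

theorem Gm.good (P : Pre Y) {x y : W × ℝ} {s e : ℝ} (hs : Sn s) (h : Gm Y x s y e)
    (hx : x ∈ Y.S \ Y.A) : y = Y.T x := by
  obtain ⟨f, _, hf⟩ := Gm.of_mem P hx hs
  exact (h.unique hf).1

/-- a bad base is mapped to a base outside the image -/
theorem Gm.bad (P : Pre Y) {x y : W × ℝ} {s e : ℝ} (he : Sn e) (h : Gm Y x s y e)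
    (hx : x ∉ Y.S \ Y.A) : y ∉ Y.S \ Y.B := by
  intro hy
  obtain ⟨u, hu, hTu⟩ := P.bij.surjOn hy
  obtain ⟨f, hf, δ1, hδ1, h1⟩ := P.loc u hu
  obtain ⟨δ2, hδ2, h2⟩ := h
  have hp : 0 < min δ1 δ2 := lt_min hδ1 hδ2
  have a1 := min_le_left δ1 δ2
  have a2 := min_le_right δ1 δ2
  have k : ∀ t : ℝ, 0 < t → t < min δ1 δ2 → sh u ((f * e) * t) = sh x (s * t) := by
    intro t ht htd
    obtain ⟨b1, b2⟩ := h1 ((f * e) * t) (by
      rw [(he.mul hf).abs, abs_of_pos ht]; linarith)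
    obtain ⟨c1, c2⟩ := h2 t ht (by linarith)
    apply P.bij.injOn b1 c1
    rw [b2, c2, hTu]
    congr 1
    rw [mul_assoc, hf.mm]
  obtain ⟨k1, _⟩ := two (u := min δ1 δ2 / 2) (v := min δ1 δ2 / 3) (by
    intro h
    linarith) (k _ (by linarith) (by linarith)) (k _ (by linarith) (by linarith))
  exact hx (k1 ▸ hu)

theorem Dir.cases {x : W × ℝ} {s : ℝ} (hd : Dir Y x s) :
    x ∈ Y.S ∨ (x.1 ∈ Y.C ∧ s = 1 ∧ x.2 = Y.a x.1) ∨ (x.1 ∈ Y.C ∧ s = -1 ∧ x.2 = Y.b x.1) := by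
  obtain ⟨hs, δ, hδ, h⟩ := hd
  have hC : x.1 ∈ Y.C := (h (δ / 2) (by linarith) (by linarith)).1
  have ha : ∀ t : ℝ, 0 < t → t < δ → Y.a x.1 < x.2 + s * t := fun t h1 h2 => (h t h1 h2).2.1
  have hb : ∀ t : ℝ, 0 < t → t < δ → x.2 + s * t < Y.b x.1 := fun t h1 h2 => (h t h1 h2).2.2
  rcases lt_trichotomy (Y.a x.1) x.2 with h1 | h1 | h1
  · rcases lt_trichotomy x.2 (Y.b x.1) with h2 | h2 | h2
    · exact Or.inl ⟨hC, h1, h2⟩
    · right; right
      refine ⟨hC, ?_, h2⟩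
      rcases hs with rfl | rfl
      · have := hb (δ / 2) (by linarith) (by linarith)
        linarith
      · rfl
    · exfalso
      have := hb (min (δ / 2) ((x.2 - Y.b x.1) / 2)) (lt_min (by linarith) (by linarith))
        (lt_of_le_of_lt (min_le_left _ _) (by linarith))
      have h3 := min_le_right (δ / 2) ((x.2 - Y.b x.1) / 2)
      have h4 : 0 < min (δ / 2) ((x.2 - Y.b x.1) / 2) := lt_min (by linarith) (by linarith)
      rcases hs with rfl | rfl <;> linarith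
  · right; left
    refine ⟨hC, ?_, h1.symm⟩
    rcases hs with rfl | rfl
    · rfl
    · have := ha (δ / 2) (by linarith) (by linarith)
      linarith
  · exfalso
    have := ha (min (δ / 2) ((Y.a x.1 - x.2) / 2)) (lt_min (by linarith) (by linarith))
      (lt_of_le_of_lt (min_le_left _ _) (by linarith))
    have h3 := min_le_right (δ / 2) ((Y.a x.1 - x.2) / 2)
    have h4 : 0 < min (δ / 2) ((Y.a x.1 - x.2) / 2) := lt_min (by linarith) (by linarith)
    rcases hs with rfl | rfl <;> linarith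

/-- end points are mapped into the space -/
theorem Gm.end (ok : Y.Ok) {x y : W × ℝ} {s e : ℝ} (hd : Dir Y x s) (h : Gm Y x s y e)
    (hx : x ∉ Y.S) : y ∈ Y.S := by
  rcases hd.cases with h1 | ⟨hC, rfl, h1⟩ | ⟨hC, rfl, h1⟩
  · exact absurd h1 hx
  · obtain ⟨z, hz, f, _, h2⟩ := ok.enda x.1 hC
    obtain ⟨δ, hδ, h2⟩ := ev1.1 h2
    have h3 : Gm Y x 1 z f := by
      refine ⟨δ, hδ, fun t ht htd => ?_⟩
      have := h2 t ht htd
      rw [← h1] at this
      rw [one_mul]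
      exact this
    rw [(h.unique h3).1]
    exact hz
  · obtain ⟨z, hz, f, _, h2⟩ := ok.endb x.1 hC
    obtain ⟨δ, hδ, h2⟩ := ev1.1 h2
    have h3 : Gm Y x (-1) z f := by
      refine ⟨δ, hδ, fun t ht htd => ?_⟩
      have := h2 t ht htd
      rw [← h1, sub_eq_add_neg] at this
      rw [neg_one_mul]
      exact this
    rw [(h.unique h3).1]
    exact hz

/-! ## Iterates -/

theorem iter_mem (P : Pre Y) {x : W × ℝ} (hx : x ∈ Y.S) {n : ℕ} (h : ∀ k < n, Y.T^[k] x ∉ Y.A) :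
    Y.T^[n] x ∈ Y.S := by
  induction n with
  | zero => exact hx
  | succ n ih =>
    rw [Function.iterate_succ_apply']
    exact (P.bij.mapsTo ⟨ih fun k hk => h k (by omega), h n (by omega)⟩).1

theorem loc_iter (P : Pre Y) {x : W × ℝ} (hx : x ∈ Y.S) {n : ℕ}
    (h : ∀ k < n, Y.T^[k] x ∉ Y.A) :
    ∃ e : ℝ, Sn e ∧ ∃ δ > 0, ∀ t : ℝ, |t| < δ →
      (∀ k < n, Y.T^[k] (sh x t) ∈ Y.S \ Y.A) ∧ Y.T^[n] (sh x t) = sh (Y.T^[n] x) (e * t) := by
  induction n with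
  | zero =>
    refine ⟨1, Or.inl rfl, 1, one_pos, fun t _ => ⟨fun k hk => absurd hk (by omega), ?_⟩⟩
    rw [one_mul]
    rfl
  | succ n ih =>
    obtain ⟨e, he, δ, hδ, h1⟩ := ih fun k hk => h k (by omega)
    have hm : Y.T^[n] x ∈ Y.S \ Y.A := ⟨iter_mem P hx fun k hk => h k (by omega), h n (by omega)⟩
    obtain ⟨f, hf, δ', hδ', h2⟩ := P.loc _ hm
    refine ⟨f * e, he.mul hf, min δ δ', lt_min hδ hδ', ?_⟩
    intro t ht
    obtain ⟨h3, h4⟩ := h1 t (lt_of_lt_of_le ht (min_le_left _ _))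
    obtain ⟨h5, h6⟩ := h2 (e * t) (by rw [he.abs]; exact lt_of_lt_of_le ht (min_le_right _ _))
    refine ⟨?_, ?_⟩
    · intro k hk
      rcases Nat.lt_succ_iff_lt_or_eq.1 hk with hk | rfl
      · exact h3 k hk
      · rw [h4]; exact h5
    · rw [Function.iterate_succ_apply', h4, h6, Function.iterate_succ_apply', mul_assoc]

/-! ## Sequences of germs -/

/-- a sequence of germs -/
structure GS (Y : Sys W) (X : ℕ → W × ℝ) (σ : ℕ → ℝ) : Prop where
  dir : ∀ n, Dir Y (X n) (σ n)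
  gm : ∀ n, Gm Y (X n) (σ n) (X (n + 1)) (σ (n + 1))

theorem exists_GS (P : Pre Y) {x : W × ℝ} {s : ℝ} (hd : Dir Y x s) :
    ∃ X : ℕ → W × ℝ, ∃ σ : ℕ → ℝ, X 0 = x ∧ σ 0 = s ∧ GS Y X σ := by
  have h1 : ∀ p : {p : (W × ℝ) × ℝ // Dir Y p.1 p.2}, ∃ q : {p : (W × ℝ) × ℝ // Dir Y p.1 p.2},
      Gm Y p.1.1 p.1.2 q.1.1 q.1.2 := by
    intro p
    obtain ⟨y, e, h2, h3⟩ := germ_next P p.2
    exact ⟨⟨(y, e), h2⟩, h3⟩
  choose g hg using h1
  refine ⟨fun n => (g^[n] ⟨(x, s), hd⟩).1.1, fun n => (g^[n] ⟨(x, s), hd⟩).1.2, rfl, rfl, ?_, ?_⟩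
  · intro n
    exact (g^[n] ⟨(x, s), hd⟩).2
  · intro n
    simp only [Function.iterate_succ_apply']
    exact hg _

variable {X : ℕ → W × ℝ} {σ : ℕ → ℝ}

theorem GS.step (G : GS Y X σ) (n : ℕ) : ∃ δ > 0, ∀ t : ℝ, 0 < t → t < δ →
    (∀ k < n, Y.T^[k] (sh (X 0) (σ 0 * t)) ∈ Y.S \ Y.A) ∧
      Y.T^[n] (sh (X 0) (σ 0 * t)) = sh (X n) (σ n * t) := by
  induction n with
  | zero => exact ⟨1, one_pos, fun t _ _ => ⟨fun k hk => absurd hk (by omega), rfl⟩⟩
  | succ n ih =>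
    obtain ⟨δ, hδ, h1⟩ := ih
    obtain ⟨δ', hδ', h2⟩ := G.gm n
    refine ⟨min δ δ', lt_min hδ hδ', ?_⟩
    intro t ht htd
    obtain ⟨h3, h4⟩ := h1 t ht (lt_of_lt_of_le htd (min_le_left _ _))
    obtain ⟨h5, h6⟩ := h2 t ht (lt_of_lt_of_le htd (min_le_right _ _))
    refine ⟨?_, ?_⟩
    · intro k hk
      rcases Nat.lt_succ_iff_lt_or_eq.1 hk with hk | rfl
      · exact h3 k hk
      · rw [h4]; exact h5
    · rw [Function.iterate_succ_apply', h4, h6]

theorem GS.next (P : Pre Y) (G : GS Y X σ) {n : ℕ} (h : X n ∈ Y.S \ Y.A) :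
    X (n + 1) = Y.T (X n) := (G.gm n).good P (G.dir n).1 h

theorem GS.iter (P : Pre Y) (G : GS Y X σ) {n m : ℕ} (h : ∀ k < m, X (n + k) ∈ Y.S \ Y.A) :
    X (n + m) = Y.T^[m] (X n) := by
  induction m with
  | zero => rfl
  | succ m ih =>
    rw [Function.iterate_succ_apply', ← ih fun k hk => h k (by omega), ← add_assoc]
    exact G.next P (h m (by omega))

/-- after a base in `B` all bases are good -/
theorem GS.stay (ok : Y.Ok) (G : GS Y X σ) {n : ℕ} (h : X n ∈ Y.B) (m : ℕ) :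
    X (n + m) ∈ Y.S \ Y.A ∧ X (n + m) = Y.T^[m] (X n) := by
  induction m with
  | zero => exact ⟨⟨ok.subB h, ok.nc _ h 0⟩, rfl⟩
  | succ m ih =>
    have h1 := G.next (Pre.of ok) ih.1
    have h2 : X (n + (m + 1)) = Y.T^[m + 1] (X n) := by
      rw [← add_assoc, h1, ih.2, Function.iterate_succ_apply']
    refine ⟨⟨?_, ?_⟩, h2⟩
    · rw [← add_assoc, h1]
      exact (ok.bij.mapsTo ih.1).1
    · rw [h2]
      exact ok.nc _ h _

/-- after a bad base there are at most two bad bases -/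
theorem GS.evgood (ok : Y.Ok) (G : GS Y X σ) {n : ℕ} (h : X n ∉ Y.S \ Y.A) {m : ℕ}
    (hm : n + 2 ≤ m) : X m ∈ Y.S \ Y.A := by
  have P := Pre.of ok
  have h1 : X (n + 1) ∉ Y.S \ Y.B := (G.gm n).bad P (G.dir (n + 1)).1 h
  by_cases h2 : X (n + 1) ∈ Y.S
  · have h3 : X (n + 1) ∈ Y.B := by
      by_contra h4
      exact h1 ⟨h2, h4⟩
    have h4 := (G.stay ok h3 (m - (n + 1))).1
    rwa [Nat.add_sub_cancel' (by omega)] at h4
  · have h3 : X (n + 2) ∈ Y.S := (G.gm (n + 1)).end ok (G.dir (n + 1)) h2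
    have h4 : X (n + 2) ∉ Y.S \ Y.B :=
      (G.gm (n + 1)).bad P (G.dir (n + 2)).1 fun h => h2 h.1
    have h5 : X (n + 2) ∈ Y.B := by
      by_contra h6
      exact h4 ⟨h3, h6⟩
    have h6 := (G.stay ok h5 (m - (n + 2))).1
    rwa [Nat.add_sub_cancel' (by omega)] at h6

/-! ## No periodic points -/

theorem noper (ok : Y.Ok) {x : W × ℝ} (hx : x ∈ Y.S) (hinf : ∀ n : ℕ, Y.T^[n] x ∉ Y.A) {p : ℕ}
    (hp : 0 < p) (hper : Y.T^[p] x = x) : False := by
  have P := Pre.of ok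
  -- the map `T ^ (2 p)` is the identity near `x`
  obtain ⟨e, he, δ1, hδ1, h1⟩ := loc_iter P hx (n := p) fun k _ => hinf k
  obtain ⟨δ2, hδ2, h2⟩ : ∃ δ > 0, ∀ t : ℝ, |t| < δ →
      (∀ k < p + p, Y.T^[k] (sh x t) ∈ Y.S \ Y.A) := by
    obtain ⟨f, hf, δ, hδ, h⟩ := loc_iter P hx (n := p + p) fun k _ => hinf k
    exact ⟨δ, hδ, fun t ht => (h t ht).1⟩
  set q := p + p with hq
  have hPer : ∀ t : ℝ, |t| < min δ1 δ2 → sh x t ∈ Y.S ∧ (∀ k < q, Y.T^[k] (sh x t) ∉ Y.A) ∧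
      Y.T^[q] (sh x t) = sh x t := by
    intro t ht
    have ht1 := lt_of_lt_of_le ht (min_le_left _ _)
    have ht2 := lt_of_lt_of_le ht (min_le_right _ _)
    refine ⟨(h2 t ht2 0 (by omega)).1, fun k hk => (h2 t ht2 k hk).2, ?_⟩
    rw [hq, Function.iterate_add_apply, (h1 t ht1).2, hper, (h1 (e * t) (by
      rw [he.abs]; exact ht1)).2, hper, he.mm]
  set Q : W × ℝ → Prop := fun z => z ∈ Y.S ∧ (∀ k < q, Y.T^[k] z ∉ Y.A) ∧ Y.T^[q] z = z with hQ
  set Bad : Set ℝ := {t | 0 < t ∧ ¬ Q (sh x t)} with hBad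
  have hne : Bad.Nonempty := by
    refine ⟨Y.b x.1 - x.2, by linarith [hx.2.2], ?_⟩
    intro h
    have := h.1.2.2
    rw [sh_fst, sh_snd] at this
    linarith
  have hbd : BddBelow Bad := ⟨0, fun t ht => ht.1.le⟩
  set ρ := sInf Bad with hρ
  have hρp : 0 < ρ := by
    have h3 : min δ1 δ2 ≤ ρ := by
      apply le_csInf hne
      intro t ht
      by_contra hlt
      push Not at hlt
      exact ht.2 (hPer t (by rw [abs_of_pos ht.1]; exact hlt))
    exact lt_of_lt_of_le (lt_min hδ1 hδ2) h3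
  have hgood : ∀ t : ℝ, 0 < t → t < ρ → Q (sh x t) := by
    intro t ht htρ
    by_contra hn
    exact notMem_of_lt_csInf htρ hbd ⟨ht, hn⟩
  set γ := sh x ρ with hγ
  have hγs : ∀ t : ℝ, 0 < t → t < ρ → Q (sh γ ((-1) * t)) := by
    intro t ht htρ
    rw [hγ, sh_sh]
    have : ρ + -1 * t = ρ - t := by ring
    rw [this]
    exact hgood _ (by linarith) (by linarith)
  have hdir : Dir Y γ (-1) := ⟨Or.inr rfl, ρ, hρp, fun t ht htρ => (hγs t ht htρ).1⟩
  obtain ⟨X, σ, hX0, hσ0, G⟩ := exists_GS P hdir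
  have hperX : ∀ n, X (n + q) = X n := by
    intro n
    obtain ⟨δ3, hδ3, h3⟩ := G.step (n + q)
    obtain ⟨δ4, hδ4, h4⟩ := G.step n
    have hm : 0 < min ρ (min δ3 δ4) := lt_min hρp (lt_min hδ3 hδ4)
    have a1 : min ρ (min δ3 δ4) ≤ ρ := min_le_left _ _
    have a2 : min ρ (min δ3 δ4) ≤ δ3 := le_trans (min_le_right _ _) (min_le_left _ _)
    have a3 : min ρ (min δ3 δ4) ≤ δ4 := le_trans (min_le_right _ _) (min_le_right _ _)
    have k : ∀ t : ℝ, 0 < t → t < min ρ (min δ3 δ4) →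
        sh (X (n + q)) (σ (n + q) * t) = sh (X n) (σ n * t) := by
      intro t ht htm
      rw [← (h3 t ht (by linarith)).2, ← (h4 t ht (by linarith)).2,
        Function.iterate_add_apply, hX0, hσ0, (hγs t ht (by linarith)).2.2]
    exact (two (u := min ρ (min δ3 δ4) / 2) (v := min ρ (min δ3 δ4) / 3) (by
      intro h
      linarith) (k _ (by linarith) (by linarith)) (k _ (by linarith) (by linarith))).1
  by_cases hall : ∀ n, X n ∈ Y.S \ Y.A
  · have hXn : ∀ n, Y.T^[n] γ = X n := by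
      intro n
      have := G.iter P (n := 0) (m := n) fun k _ => by rw [zero_add]; exact hall k
      rw [zero_add, hX0] at this
      exact this.symm
    have hγS : γ ∈ Y.S := by
      have := (hall 0).1
      rwa [hX0] at this
    have hγA : ∀ n, Y.T^[n] γ ∉ Y.A := fun n => by rw [hXn]; exact (hall n).2
    obtain ⟨f, hf, δ3, hδ3, h3⟩ := loc_iter P hγS (n := q) fun k _ => hγA k
    have hm : 0 < min ρ δ3 := lt_min hρp hδ3
    have a1 : min ρ δ3 ≤ ρ := min_le_left _ _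
    have a2 : min ρ δ3 ≤ δ3 := min_le_right _ _
    have k : ∀ t : ℝ, 0 < t → t < min ρ δ3 →
        sh (Y.T^[q] γ) ((-f) * t) = sh γ ((-1) * t) := by
      intro t ht htm
      have h4 := (h3 ((-1) * t) (by
        rw [abs_mul, abs_neg, abs_one, one_mul, abs_of_pos ht]; linarith)).2
      rw [(hγs t ht (by linarith)).2.2] at h4
      rw [h4]
      congr 1
      ring
    obtain ⟨k1, k2⟩ := two (u := min ρ δ3 / 2) (v := min ρ δ3 / 3) (by
      intro h
      linarith) (k _ (by linarith) (by linarith)) (k _ (by linarith) (by linarith))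
    have hf1 : f = 1 := by linarith
    have hge : ρ + δ3 ≤ ρ := by
      conv_rhs => rw [hρ]
      apply le_csInf hne
      intro t ht
      by_contra hlt
      push Not at hlt
      have h5 : ρ ≤ t := csInf_le hbd ht
      have h6 := h3 (t - ρ) (by rw [abs_of_nonneg (by linarith)]; linarith)
      have h7 : sh γ (t - ρ) = sh x t := by
        rw [hγ, sh_sh]
        congr 1
        ring
      rw [h7, k1, hf1, one_mul, h7] at h6
      apply ht.2
      refine ⟨?_, fun k hk => (h6.1 k hk).2, h6.2⟩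
      have := (h6.1 0 (by omega)).1
      exact this
    linarith
  · push Not at hall
    obtain ⟨n, hn⟩ := hall
    have h5 := G.evgood ok hn (m := n + q + q) (by omega)
    rw [hperX, hperX] at h5
    exact hn h5

/-! ## The reversed system -/

/-- the inverse system -/
noncomputable def rv [Nonempty W] (Y : Sys W) : Sys W where
  C := Y.C
  a := Y.a
  b := Y.b
  A := Y.B
  B := Y.A
  T := Function.invFunOn Y.T (Y.S \ Y.A)

theorem rv_S [Nonempty W] : (rv Y).S = Y.S := rfl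
theorem rv_A [Nonempty W] : (rv Y).A = Y.B := rfl
theorem rv_B [Nonempty W] : (rv Y).B = Y.A := rfl

theorem rv_mem [Nonempty W] (P : Pre Y) {y : W × ℝ} (hy : y ∈ Y.S \ Y.B) :
    (rv Y).T y ∈ Y.S \ Y.A ∧ Y.T ((rv Y).T y) = y := by
  have h : ∃ x ∈ Y.S \ Y.A, Y.T x = y := P.bij.surjOn hy
  exact ⟨Function.invFunOn_mem h, Function.invFunOn_eq h⟩

theorem rv_inv [Nonempty W] (P : Pre Y) {x : W × ℝ} (hx : x ∈ Y.S \ Y.A) :
    (rv Y).T (Y.T x) = x := by
  have h1 := rv_mem P (P.bij.mapsTo hx)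
  exact P.bij.injOn h1.1 hx h1.2

theorem rv_pre [Nonempty W] (P : Pre Y) : Pre (rv Y) where
  hab := P.hab
  finA := P.finB
  finB := P.finA
  subA := P.subB
  subB := P.subA
  bij := by
    refine ⟨?_, ?_, ?_⟩
    · intro y hy
      exact (rv_mem P hy).1
    · intro y hy z hz h
      rw [← (rv_mem P hy).2, ← (rv_mem P hz).2, h]
    · intro x hx
      exact ⟨Y.T x, P.bij.mapsTo hx, rv_inv P hx⟩
  loc := by
    intro y hy
    obtain ⟨h1, h2⟩ := rv_mem P hy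
    obtain ⟨e, he, δ, hδ, h⟩ := P.loc _ h1
    refine ⟨e, he, δ, hδ, ?_⟩
    intro t ht
    obtain ⟨h3, h4⟩ := h (e * t) (by rw [he.abs]; exact ht)
    rw [h2, he.mm] at h4
    refine ⟨?_, ?_⟩
    · rw [← h4]
      exact P.bij.mapsTo h3
    · rw [← h4, rv_inv P h3]

/-- iterates of the inverse -/
theorem rv_iter [Nonempty W] (P : Pre Y) {y : W × ℝ} (hy : y ∈ Y.S) {n : ℕ}
    (h : ∀ k < n, (rv Y).T^[k] y ∉ Y.B) :
    (rv Y).T^[n] y ∈ Y.S ∧ (∀ k < n, Y.T^[k] ((rv Y).T^[n] y) ∉ Y.A) ∧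
      ∀ k ≤ n, Y.T^[k] ((rv Y).T^[n] y) = (rv Y).T^[n - k] y := by
  induction n with
  | zero =>
    refine ⟨hy, fun k hk => absurd hk (by omega), fun k hk => ?_⟩
    obtain rfl : k = 0 := by omega
    rfl
  | succ n ih =>
    obtain ⟨h1, h2, h3⟩ := ih fun k hk => h k (by omega)
    obtain ⟨h4, h5⟩ := rv_mem P ⟨h1, h n (by omega)⟩
    rw [Function.iterate_succ_apply']
    refine ⟨h4.1, ?_, ?_⟩
    · intro k hk
      rcases k with _ | k
      · exact h4.2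
      · rw [Function.iterate_succ_apply, h5]
        exact h2 k (by omega)
    · intro k hk
      rcases k with _ | k
      · rw [Nat.sub_zero, Function.iterate_succ_apply']
        rfl
      · have e1 : n + 1 - (k + 1) = n - k := by omega
        rw [Function.iterate_succ_apply, h5, h3 k (by omega), e1]

theorem B_ne (ok : Y.Ok) : ∃ y, y ∈ Y.B := by
  obtain ⟨α, hα⟩ := ok.neA
  have hC := (ok.subA hα).1
  obtain ⟨y, hy, e, he, h⟩ := ok.enda _ hC
  obtain ⟨δ, hδ, h⟩ := ev1.1 h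
  refine ⟨y, ?_⟩
  by_contra hn
  have h1 : Gm Y (α.1, Y.a α.1) 1 y e := by
    refine ⟨δ, hδ, fun t ht htd => ?_⟩
    rw [one_mul]
    exact h t ht htd
  apply h1.bad (Pre.of ok) he _ ⟨hy, hn⟩
  intro h2
  exact lt_irrefl _ h2.1.2.1

theorem rv_end [Nonempty W] (ok : Y.Ok) {x y : W × ℝ} {s e : ℝ}
    (hd : Dir Y y e) (h : Gm (rv Y) x s y e) (hx : x ∉ Y.S) : y ∈ Y.S := by
  by_contra hy
  obtain ⟨z, f, hz, h1⟩ := germ_next (Pre.of ok) hd
  have h2 := h1.end ok hd hy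
  obtain ⟨δ1, hδ1, h1⟩ := h1
  obtain ⟨δ2, hδ2, h3⟩ := h
  have hp : 0 < min δ1 δ2 := lt_min hδ1 hδ2
  have a1 := min_le_left δ1 δ2
  have a2 := min_le_right δ1 δ2
  have k : ∀ t : ℝ, 0 < t → t < min δ1 δ2 → sh z (f * t) = sh x (s * t) := by
    intro t ht htd
    obtain ⟨b1, b2⟩ := h1 t ht (by linarith)
    obtain ⟨c1, c2⟩ := h3 t ht (by linarith)
    rw [← b2, ← c2]
    exact (rv_mem (Pre.of ok) c1).2
  obtain ⟨k1, _⟩ := two (u := min δ1 δ2 / 2) (v := min δ1 δ2 / 3) (by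
    intro h
    linarith) (k _ (by linarith) (by linarith)) (k _ (by linarith) (by linarith))
  exact hx (k1 ▸ h2)

theorem rv_ok [Nonempty W] (ok : Y.Ok) : (rv Y).Ok := by
  have P := Pre.of ok
  have P' := rv_pre P
  refine ⟨P'.hab, P'.finA, P'.finB, P'.subA, P'.subB, P'.bij, ?_, ?_, ?_, ?_, ?_, B_ne ok⟩
  · intro x hx
    obtain ⟨e, he, δ, hδ, h⟩ := P'.loc x hx
    exact ⟨e, he, ev0.2 ⟨δ, hδ, h⟩⟩
  · intro w hw
    have hd : Dir (rv Y) (w, Y.a w) 1 := by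
      have h1 := ok.hab w hw
      refine ⟨Or.inl rfl, Y.b w - Y.a w, by linarith, fun t ht htd => ⟨hw, ?_, ?_⟩⟩
      · change Y.a w < Y.a w + 1 * t
        linarith
      · change Y.a w + 1 * t < Y.b w
        linarith
    obtain ⟨y, e, h1, h2⟩ := germ_next P' hd
    have h3 : y ∈ Y.S := rv_end ok h1 h2 fun h => lt_irrefl _ h.2.1
    refine ⟨y, h3, e, h1.1, ev1.2 ?_⟩
    obtain ⟨δ, hδ, h2⟩ := h2
    refine ⟨δ, hδ, fun t ht htd => ?_⟩
    have := h2 t ht htd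
    rw [one_mul] at this
    exact this
  · intro w hw
    have hd : Dir (rv Y) (w, Y.b w) (-1) := by
      have h1 := ok.hab w hw
      refine ⟨Or.inr rfl, Y.b w - Y.a w, by linarith, fun t ht htd => ⟨hw, ?_, ?_⟩⟩
      · change Y.a w < Y.b w + -1 * t
        linarith
      · change Y.b w + -1 * t < Y.b w
        linarith
    obtain ⟨y, e, h1, h2⟩ := germ_next P' hd
    have h3 : y ∈ Y.S := rv_end ok h1 h2 fun h => lt_irrefl _ h.2.2
    refine ⟨y, h3, e, h1.1, ev1.2 ?_⟩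
    obtain ⟨δ, hδ, h2⟩ := h2
    refine ⟨δ, hδ, fun t ht htd => ?_⟩
    have := h2 t ht htd
    rw [neg_one_mul] at this
    rw [sub_eq_add_neg]
    exact this
  · intro y hy
    have hyS := ok.subA hy
    have : ∀ n, ∀ k < n, (rv Y).T^[k] y ∉ Y.B := by
      intro n
      induction n with
      | zero => exact fun k hk => absurd hk (by omega)
      | succ n ih =>
        intro k hk
        rcases Nat.lt_succ_iff_lt_or_eq.1 hk with hk | rfl
        · exact ih k hk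
        · intro hB
          have h1 := (rv_iter P hyS ih).2.2 k le_rfl
          rw [Nat.sub_self] at h1
          apply ok.nc _ hB k
          rw [h1]
          exact hy
    exact fun n => this (n + 1) n (by omega)
  · intro D hD hne
    refine ok.conn D ?_ hne
    intro x hx
    have h1 := hD (Y.T x) (P.bij.mapsTo hx)
    rw [rv_inv P hx] at h1
    exact h1.symm

end TMX.Ger
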