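import Pool.Agent.TMX.Defs

/-! # TMX: germs and the inverse of an interval exchange with flips (tools for the rows I1, I2, I5) -/

set_option autoImplicit false

open Set Filter Topology

namespace TMX

/-! ## Locally affine maps -/

theorem aff_uniq {W : Type} {y y' : W × ℝ} {e e' t₀ : ℝ}
    (h : ∀ᶠ t in 𝓝 t₀, (y.1, y.2 + e * t) = (y'.1, y'.2 + e' * t)) : y = y' ∧ e = e' := by
  obtain ⟨δ, hδ, h⟩ := Metric.eventually_nhds_iff.mp h
  have h0 := h (y := t₀) (by simpa using hδ)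
  have h1 := h (y := t₀ + δ / 2) (by rw [Real.dist_eq]; rw [abs_of_pos] <;> linarith)
  simp only [Prod.mk.injEq] at h0 h1
  have he : e = e' := by
    have : (e - e') * (δ / 2) = 0 := by linarith [h0.2, h1.2]
    rcases mul_eq_zero.mp this with h | h <;> linarith
  refine ⟨Prod.ext h0.1 ?_, he⟩
  subst he; linarith [h0.2]

/-- A locally affine map on a connected set is affine. -/
theorem aff_ext {W : Type} (φ : ℝ → W × ℝ) {I : Set ℝ} (hI : IsPreconnected I)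
    (h : ∀ t₀ ∈ I, ∃ (y : W × ℝ) (e : ℝ), ∀ᶠ t in 𝓝 t₀, φ t = (y.1, y.2 + e * t))
    {t₀ : ℝ} (ht : t₀ ∈ I) {y : W × ℝ} {e : ℝ} (h0 : ∀ᶠ t in 𝓝 t₀, φ t = (y.1, y.2 + e * t)) :
    ∀ t ∈ I, φ t = (y.1, y.2 + e * t) := by
  set u : Set ℝ := {t | ∀ᶠ s in 𝓝 t, φ s = (y.1, y.2 + e * s)} with hu
  set v : Set ℝ := {t | ∃ (y' : W × ℝ) (e' : ℝ), ¬ (y' = y ∧ e' = e) ∧
    ∀ᶠ s in 𝓝 t, φ s = (y'.1, y'.2 + e' * s)} with hv
  have huo : IsOpen u := by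
    rw [isOpen_iff_mem_nhds]
    intro t ht
    exact (eventually_eventually_nhds.mpr ht)
  have hvo : IsOpen v := by
    rw [isOpen_iff_mem_nhds]
    rintro t ⟨y', e', hne, ht⟩
    filter_upwards [eventually_eventually_nhds.mpr ht] with s hs using ⟨y', e', hne, hs⟩
  have hcov : I ⊆ u ∪ v := by
    intro t ht
    obtain ⟨y', e', h'⟩ := h t ht
    by_cases hc : y' = y ∧ e' = e
    · obtain ⟨rfl, rfl⟩ := hc; exact Or.inl h'
    · exact Or.inr ⟨y', e', hc, h'⟩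
  intro t ht'
  rcases hcov ht' with h1 | h1
  · exact h1.self_of_nhds
  · exfalso
    obtain ⟨s, _, hs1, y', e', hne, hs2⟩ := hI u v huo hvo hcov ⟨t₀, ht, h0⟩ ⟨t, ht', h1⟩
    apply hne
    apply aff_uniq (t₀ := s)
    filter_upwards [hs1, hs2] with r h1 h2
    rw [← h1, ← h2]

/-! ## Germs -/

/-- The points of the germ `g = (base, direction)`. -/
def gpt {W : Type} (g : (W × ℝ) × ℝ) (t : ℝ) : W × ℝ := (g.1.1, g.1.2 + g.2 * t)

theorem gpt_zero {W : Type} (g : (W × ℝ) × ℝ) : gpt g 0 = g.1 := by simp [gpt]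

theorem gpt_uniq {W : Type} {g g' : (W × ℝ) × ℝ} (h : ∃ᶠ t in 𝓝[>] (0 : ℝ), gpt g t = gpt g' t) :
    g = g' := by
  obtain ⟨t₁, h1, ht1⟩ := (h.and_eventually self_mem_nhdsWithin).exists
  obtain ⟨t₂, h2, ht2⟩ := (h.and_eventually (Ioo_mem_nhdsGT ht1)).exists
  simp only [gpt, Prod.mk.injEq] at h1 h2
  have he : g.2 = g'.2 := by
    have h3 : (g.2 - g'.2) * (t₁ - t₂) = 0 := by linarith [h1.2, h2.2]
    rcases mul_eq_zero.mp h3 with h | h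
    · linarith
    · exact absurd h (by have := ht2.2; linarith)
  refine Prod.ext (Prod.ext h1.1 ?_) he
  rw [he] at h1; linarith [h1.2]

theorem gpt_uniq' {W : Type} {g g' : (W × ℝ) × ℝ} (h : ∀ᶠ t in 𝓝[>] (0 : ℝ), gpt g t = gpt g' t) :
    g = g' := gpt_uniq h.frequently

variable {W : Type}

/-- `g` is a germ of the space. -/
def Sys.Gm (Y : Sys W) (g : (W × ℝ) × ℝ) : Prop :=
  (g.2 = 1 ∨ g.2 = -1) ∧ ∀ᶠ t in 𝓝[>] (0 : ℝ), gpt g t ∈ Y.S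

theorem Sys.S_nhds (Y : Sys W) {x : W × ℝ} (hx : x ∈ Y.S) :
    ∀ᶠ t in 𝓝 (0 : ℝ), (x.1, x.2 + t) ∈ Y.S := by
  obtain ⟨hC, h1, h2⟩ := hx
  have : Tendsto (fun t : ℝ => x.2 + t) (𝓝 0) (𝓝 x.2) := by
    have := (by fun_prop : Continuous fun t : ℝ => x.2 + t).tendsto 0
    simpa using this
  filter_upwards [this.eventually (lt_mem_nhds h1), this.eventually (gt_mem_nhds h2)] with t h1 h2
  exact ⟨hC, h1, h2⟩

theorem tendsto_mul_zero (s : ℝ) : Tendsto (fun t : ℝ => s * t) (𝓝[>] 0) (𝓝 0) := by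
  have := (by fun_prop : Continuous fun t : ℝ => s * t).tendsto 0
  simp only [mul_zero] at this
  exact this.mono_left nhdsWithin_le_nhds

theorem Sys.gm_of_mem (Y : Sys W) {x : W × ℝ} (hx : x ∈ Y.S) {s : ℝ} (hs : s = 1 ∨ s = -1) :
    Y.Gm (x, s) := by
  refine ⟨hs, ?_⟩
  exact (tendsto_mul_zero s).eventually (Y.S_nhds hx)

/-- A germ avoids a finite set. -/
theorem gpt_finite {g : (W × ℝ) × ℝ} (hg : g.2 = 1 ∨ g.2 = -1) {F : Set (W × ℝ)} (hF : F.Finite) :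
    ∀ᶠ t in 𝓝[>] (0 : ℝ), gpt g t ∉ F := by
  have hinj : Function.Injective (gpt g) := by
    intro t t' h
    simp only [gpt, Prod.mk.injEq] at h
    rcases hg with hg | hg <;> rw [hg] at h <;> linarith [h.2]
  have hfin : (gpt g ⁻¹' F \ {0}).Finite := (hF.preimage hinj.injOn).subset sdiff_subset
  have h1 : (gpt g ⁻¹' F \ {0})ᶜ ∈ 𝓝 (0 : ℝ) := hfin.isClosed.isOpen_compl.mem_nhds (by simp)
  filter_upwards [mem_nhdsWithin_of_mem_nhds h1, self_mem_nhdsWithin] with t ht1 ht2 ht3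
  exact ht1 ⟨ht3, ne_of_gt ht2⟩

/-- The form of `loc` used here. -/
def Sys.Loc (Y : Sys W) : Prop := ∀ x ∈ Y.S \ Y.A, ∃ e : ℝ, (e = 1 ∨ e = -1) ∧
  ∀ᶠ t in 𝓝 (0 : ℝ), (x.1, x.2 + t) ∈ Y.S \ Y.A ∧ Y.T (x.1, x.2 + t) = ((Y.T x).1, (Y.T x).2 + e * t)

theorem Sys.Loc.line {Y : Sys W} (hl : Y.Loc) {g : (W × ℝ) × ℝ} (hg : g.2 = 1 ∨ g.2 = -1) {t₀ : ℝ}
    (h : gpt g t₀ ∈ Y.S \ Y.A) : ∃ (y : W × ℝ) (e : ℝ), (e = 1 ∨ e = -1) ∧
      (Y.T (gpt g t₀) = (y.1, y.2 + e * t₀)) ∧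
      ∀ᶠ t in 𝓝 t₀, gpt g t ∈ Y.S \ Y.A ∧ Y.T (gpt g t) = (y.1, y.2 + e * t) := by
  obtain ⟨e, he, hloc⟩ := hl _ h
  refine ⟨((Y.T (gpt g t₀)).1, (Y.T (gpt g t₀)).2 - e * g.2 * t₀), e * g.2, ?_, ?_, ?_⟩
  · rcases hg with hg | hg <;> rcases he with he | he <;> rw [hg, he] <;> norm_num
  · simp
  · have ht : Tendsto (fun t : ℝ => g.2 * (t - t₀)) (𝓝 t₀) (𝓝 0) := by
      have := (by fun_prop : Continuous fun t : ℝ => g.2 * (t - t₀)).tendsto t₀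
      simpa using this
    filter_upwards [ht.eventually hloc] with t ht
    have e1 : ((gpt g t₀).1, (gpt g t₀).2 + g.2 * (t - t₀)) = gpt g t := by
      simp only [gpt, Prod.mk.injEq, true_and]; ring
    rw [e1] at ht
    refine ⟨ht.1, ?_⟩
    rw [ht.2]; simp only [Prod.mk.injEq, true_and]; ring

theorem Sys.germ_next' {Y : Sys W} (hfin : Y.A.Finite) (hmap : MapsTo Y.T (Y.S \ Y.A) Y.S)
    (hl : Y.Loc) {g : (W × ℝ) × ℝ} (hg : Y.Gm g) : ∃ g', Y.Gm g' ∧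
      ∀ᶠ t in 𝓝[>] (0 : ℝ), gpt g t ∈ Y.S \ Y.A ∧ Y.T (gpt g t) = gpt g' t := by
  have h1 : ∀ᶠ t in 𝓝[>] (0 : ℝ), gpt g t ∈ Y.S \ Y.A := by
    filter_upwards [hg.2, gpt_finite hg.1 hfin] with t h1 h2 using ⟨h1, h2⟩
  obtain ⟨δ, hδ, hsub⟩ := mem_nhdsGT_iff_exists_Ioo_subset.mp h1
  have hδ' : (0 : ℝ) < δ := hδ
  have hm : δ / 2 ∈ Ioo 0 δ := ⟨by linarith, by linarith⟩
  obtain ⟨y, e, he, _, hye⟩ := hl.line hg.1 (hsub hm)
  have hall := aff_ext (fun t => Y.T (gpt g t)) isPreconnected_Ioo (I := Ioo 0 δ)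
    (fun t₀ ht₀ => by
      obtain ⟨y', e', _, _, h'⟩ := hl.line hg.1 (hsub ht₀)
      exact ⟨y', e', h'.mono fun t ht => ht.2⟩) hm (hye.mono fun t ht => ht.2)
  have hev : ∀ᶠ t in 𝓝[>] (0 : ℝ), gpt g t ∈ Y.S \ Y.A ∧ Y.T (gpt g t) = gpt (y, e) t := by
    filter_upwards [Ioo_mem_nhdsGT hδ'] with t ht
    exact ⟨hsub ht, hall t ht⟩
  refine ⟨(y, e), ⟨he, ?_⟩, hev⟩
  filter_upwards [hev] with t ht
  rw [← ht.2]; exact hmap ht.1

theorem Sys.Ok.mapsTo {Y : Sys W} (ok : Y.Ok) : MapsTo Y.T (Y.S \ Y.A) Y.S :=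
  fun _ hx => (ok.bij.mapsTo hx).1

theorem Sys.germ_next {Y : Sys W} (ok : Y.Ok) {g : (W × ℝ) × ℝ} (hg : Y.Gm g) : ∃ g', Y.Gm g' ∧
      ∀ᶠ t in 𝓝[>] (0 : ℝ), gpt g t ∈ Y.S \ Y.A ∧ Y.T (gpt g t) = gpt g' t :=
  Sys.germ_next' ok.finA ok.mapsTo ok.loc hg

open Classical in
/-- The action of the map on germs. -/
noncomputable def Sys.GT (Y : Sys W) (g : (W × ℝ) × ℝ) : (W × ℝ) × ℝ :=
  if h : ∃ g', Y.Gm g' ∧ ∀ᶠ t in 𝓝[>] (0 : ℝ), gpt g t ∈ Y.S \ Y.A ∧ Y.T (gpt g t) = gpt g' t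
  then h.choose else g

theorem Sys.GT_spec {Y : Sys W} (ok : Y.Ok) {g : (W × ℝ) × ℝ} (hg : Y.Gm g) : Y.Gm (Y.GT g) ∧
      ∀ᶠ t in 𝓝[>] (0 : ℝ), gpt g t ∈ Y.S \ Y.A ∧ Y.T (gpt g t) = gpt (Y.GT g) t := by
  have h := Sys.germ_next ok hg
  unfold Sys.GT; rw [dif_pos h]; exact h.choose_spec

theorem Sys.GT_eq {Y : Sys W} (ok : Y.Ok) {g g' : (W × ℝ) × ℝ} (hg : Y.Gm g)
    (h : ∃ᶠ t in 𝓝[>] (0 : ℝ), Y.T (gpt g t) = gpt g' t) : Y.GT g = g' := by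
  apply gpt_uniq
  apply (h.and_eventually (Sys.GT_spec ok hg).2).mono
  rintro t ⟨h1, h2⟩
  rw [← h1, h2.2]

theorem Sys.GT_iter {Y : Sys W} (ok : Y.Ok) {g : (W × ℝ) × ℝ} (hg : Y.Gm g) (n : ℕ) :
    Y.Gm (Y.GT^[n] g) ∧ ∀ᶠ t in 𝓝[>] (0 : ℝ), (∀ k < n, Y.T^[k] (gpt g t) ∈ Y.S \ Y.A) ∧
      Y.T^[n] (gpt g t) = gpt (Y.GT^[n] g) t := by
  induction n with
  | zero => exact ⟨hg, Eventually.of_forall fun t => ⟨fun k hk => absurd hk (Nat.not_lt_zero k), rfl⟩⟩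
  | succ n ih =>
    obtain ⟨ih1, ih2⟩ := ih
    obtain ⟨h1, h2⟩ := Sys.GT_spec ok ih1
    rw [Function.iterate_succ_apply']
    refine ⟨h1, ?_⟩
    filter_upwards [ih2, h2] with t ha hb
    refine ⟨fun k hk => ?_, ?_⟩
    · rcases Nat.lt_succ_iff_lt_or_eq.mp hk with hk | rfl
      · exact ha.1 k hk
      · rw [ha.2]; exact hb.1
    · rw [Function.iterate_succ_apply', ha.2, hb.2]

/-- Regular base. -/
theorem Sys.GT_reg {Y : Sys W} (ok : Y.Ok) {g : (W × ℝ) × ℝ} (hg : Y.Gm g) (hb : g.1 ∈ Y.S \ Y.A) :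
    (Y.GT g).1 = Y.T g.1 := by
  obtain ⟨e, he, hloc⟩ := ok.loc _ hb
  have : Y.GT g = (Y.T g.1, e * g.2) := by
    apply Sys.GT_eq ok hg
    apply Eventually.frequently
    filter_upwards [(tendsto_mul_zero g.2).eventually hloc] with t ht
    have := ht.2
    simp only [gpt] at this ⊢
    rw [this]; simp only [Prod.mk.injEq, true_and]; ring
  rw [this]

/-- A singular base has a singular image. -/
theorem Sys.GT_sing {Y : Sys W} (ok : Y.Ok) {g : (W × ℝ) × ℝ} (hg : Y.Gm g)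
    (hb : g.1 ∉ Y.S \ Y.A) : (Y.GT g).1 ∉ Y.S \ Y.B := by
  intro hy
  obtain ⟨x', hx', hxy⟩ := ok.bij.surjOn hy
  obtain ⟨e, he, hloc⟩ := ok.loc _ hx'
  obtain ⟨h1, h2⟩ := Sys.GT_spec ok hg
  have he2 : e * e = 1 := by rcases he with he | he <;> rw [he] <;> norm_num
  have : g = (x', e * (Y.GT g).2) := by
    apply gpt_uniq'
    filter_upwards [h2, (tendsto_mul_zero (e * (Y.GT g).2)).eventually hloc] with t ha hb'
    apply ok.bij.injOn ha.1 hb'.1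
    rw [ha.2]
    have := hb'.2
    simp only [gpt] at this ⊢
    rw [this, hxy]
    simp only [Prod.mk.injEq, true_and]
    linear_combination (-(Y.GT g).2 * t) * he2
  apply hb; rw [this]; exact hx'

/-- Germs whose base is not in the space. -/
theorem Sys.gm_end {Y : Sys W} {g : (W × ℝ) × ℝ} (hg : Y.Gm g) (hb : g.1 ∉ Y.S) :
    g.1.1 ∈ Y.C ∧ ((g.2 = 1 ∧ g.1.2 = Y.a g.1.1) ∨ (g.2 = -1 ∧ g.1.2 = Y.b g.1.1)) := by
  obtain ⟨hs, h⟩ := hg
  obtain ⟨t0, ht0⟩ := h.exists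
  have hC : g.1.1 ∈ Y.C := ht0.1
  refine ⟨hC, ?_⟩
  have ht : Tendsto (fun t : ℝ => g.1.2 + g.2 * t) (𝓝[>] 0) (𝓝 g.1.2) := by
    have := (tendsto_mul_zero g.2).const_add g.1.2
    simpa using this
  have h1 : Y.a g.1.1 ≤ g.1.2 := ge_of_tendsto ht (h.mono fun t ht => ht.2.1.le)
  have h2 : g.1.2 ≤ Y.b g.1.1 := le_of_tendsto ht (h.mono fun t ht => ht.2.2.le)
  obtain ⟨t, ⟨_, ht1, ht2⟩, htpos⟩ := (h.and self_mem_nhdsWithin).exists
  have htpos' : (0 : ℝ) < t := htpos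
  simp only [gpt] at ht1 ht2
  rcases h1.lt_or_eq with h1 | h1
  · rcases h2.lt_or_eq with h2 | h2
    · exact absurd ⟨hC, h1, h2⟩ hb
    · right
      refine ⟨?_, h2⟩
      rcases hs with hs | hs
      · exfalso; rw [hs] at ht2; linarith
      · exact hs
  · left
    refine ⟨?_, h1.symm⟩
    rcases hs with hs | hs
    · exact hs
    · exfalso; rw [hs] at ht1; linarith

/-- The image of a germ whose base is an end point has a base in the space. -/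
theorem Sys.GT_end {Y : Sys W} (ok : Y.Ok) {g : (W × ℝ) × ℝ} (hg : Y.Gm g) (hb : g.1 ∉ Y.S) :
    (Y.GT g).1 ∈ Y.S := by
  obtain ⟨hC, h⟩ := Sys.gm_end hg hb
  rcases h with ⟨hs, ho⟩ | ⟨hs, ho⟩
  · obtain ⟨y, hy, e, he, hev⟩ := ok.enda _ hC
    have : Y.GT g = (y, e) := by
      apply Sys.GT_eq ok hg
      apply Eventually.frequently
      filter_upwards [hev] with t ht
      simp only [gpt, hs, ho, one_mul]; exact ht.2
    rw [this]; exact hy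
  · obtain ⟨y, hy, e, he, hev⟩ := ok.endb _ hC
    have : Y.GT g = (y, e) := by
      apply Sys.GT_eq ok hg
      apply Eventually.frequently
      filter_upwards [hev] with t ht
      have e1 : Y.b g.1.1 + -1 * t = Y.b g.1.1 - t := by ring
      simp only [gpt, hs, ho, e1]; exact ht.2
    rw [this]; exact hy

theorem Sys.notMem_cases {Y : Sys W} {x : W × ℝ} (h : x ∉ Y.S \ Y.B) : x ∉ Y.S ∨ x ∈ Y.B := by
  by_cases hx : x ∈ Y.S
  · right; by_contra hB; exact h ⟨hx, hB⟩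
  · exact Or.inl hx

/-- After a base in `B` the bases are regular for ever. -/
theorem Sys.GT_B {Y : Sys W} (ok : Y.Ok) {g : (W × ℝ) × ℝ} (hg : Y.Gm g) (hb : g.1 ∈ Y.B) (n : ℕ) :
    (Y.GT^[n] g).1 = Y.T^[n] g.1 ∧ (Y.GT^[n] g).1 ∈ Y.S \ Y.A := by
  induction n with
  | zero => exact ⟨rfl, ok.subB hb, ok.nc _ hb 0⟩
  | succ n ih =>
    obtain ⟨ih1, ih2⟩ := ih
    have h1 := Sys.GT_reg ok (Sys.GT_iter ok hg n).1 ih2
    rw [Function.iterate_succ_apply', Function.iterate_succ_apply', h1, ih1]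
    rw [ih1] at ih2
    refine ⟨rfl, (ok.mapsTo ih2), ?_⟩
    rw [← Function.iterate_succ_apply' Y.T n g.1]
    exact ok.nc _ hb (n + 1)

/-- Some image (at most the second) of a germ with a singular base has its base in `B`. -/
theorem Sys.GT_sing_B {Y : Sys W} (ok : Y.Ok) {g : (W × ℝ) × ℝ} (hg : Y.Gm g)
    (hb : g.1 ∉ Y.S \ Y.A) : (Y.GT g).1 ∈ Y.B ∨ ((Y.GT g).1 ∉ Y.S ∧ (Y.GT^[2] g).1 ∈ Y.B) := by
  have hg1 := (Sys.GT_spec ok hg).1
  rcases Sys.notMem_cases (Sys.GT_sing ok hg hb) with h | h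
  · right
    refine ⟨h, ?_⟩
    have h1 : (Y.GT (Y.GT g)).1 ∉ Y.S \ Y.B := Sys.GT_sing ok hg1 fun h' => h h'.1
    have h2 : (Y.GT (Y.GT g)).1 ∈ Y.S := Sys.GT_end ok hg1 h
    rcases Sys.notMem_cases h1 with h3 | h3
    · exact absurd h2 h3
    · exact h3
  · exact Or.inl h

theorem Sys.GT_sing_reg {Y : Sys W} (ok : Y.Ok) {g : (W × ℝ) × ℝ} (hg : Y.Gm g)
    (hb : g.1 ∉ Y.S \ Y.A) (n : ℕ) (hn : 2 ≤ n) : (Y.GT^[n] g).1 ∈ Y.S \ Y.A := by
  rcases Sys.GT_sing_B ok hg hb with h | ⟨_, h⟩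
  · have := (Sys.GT_B ok (Sys.GT_spec ok hg).1 h (n - 1)).2
    have e : Y.GT^[n] g = Y.GT^[n - 1] (Y.GT g) := by
      rw [← Function.iterate_succ_apply]; congr 1; omega
    rw [e]; exact this
  · have := (Sys.GT_B ok (Sys.GT_iter ok hg 2).1 h (n - 2)).2
    have e : Y.GT^[n] g = Y.GT^[n - 2] (Y.GT^[2] g) := by
      rw [← Function.iterate_add_apply]; congr 1; omega
    rw [e]; exact this

/-! ## The inverse system -/

open Classical in
/-- The inverse system. -/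
noncomputable def Sys.inv (Y : Sys W) : Sys W where
  C := Y.C
  a := Y.a
  b := Y.b
  A := Y.B
  B := Y.A
  T := fun y => if h : ∃ x, x ∈ Y.S \ Y.A ∧ Y.T x = y then h.choose else y

theorem Sys.inv_S (Y : Sys W) : Y.inv.S = Y.S := rfl

theorem Sys.T_inv {Y : Sys W} (ok : Y.Ok) {y : W × ℝ} (hy : y ∈ Y.S \ Y.B) :
    Y.inv.T y ∈ Y.S \ Y.A ∧ Y.T (Y.inv.T y) = y := by
  have h : ∃ x, x ∈ Y.S \ Y.A ∧ Y.T x = y := by
    obtain ⟨x, hx, hxy⟩ := ok.bij.surjOn hy; exact ⟨x, hx, hxy⟩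
  have e : Y.inv.T y = h.choose := by
    simp only [Sys.inv]
    rw [dif_pos h]
  rw [e]; exact h.choose_spec

theorem Sys.inv_T {Y : Sys W} (ok : Y.Ok) {x : W × ℝ} (hx : x ∈ Y.S \ Y.A) :
    Y.inv.T (Y.T x) = x := by
  obtain ⟨h1, h2⟩ := Sys.T_inv ok (ok.bij.mapsTo hx)
  exact ok.bij.injOn h1 hx h2

theorem Sys.inv_loc {Y : Sys W} (ok : Y.Ok) : Y.inv.Loc := by
  intro y hy
  obtain ⟨h1, h2⟩ := Sys.T_inv ok hy
  obtain ⟨e, he, hloc⟩ := ok.loc _ h1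
  have he2 : e * e = 1 := by rcases he with he | he <;> rw [he] <;> norm_num
  refine ⟨e, he, ?_⟩
  have ht : Tendsto (fun t : ℝ => e * t) (𝓝 0) (𝓝 0) := by
    have := (by fun_prop : Continuous fun t : ℝ => e * t).tendsto 0
    simpa using this
  filter_upwards [ht.eventually hloc] with t h
  obtain ⟨h3, h4⟩ := h
  rw [h2] at h4
  have e1 : (y.1, y.2 + e * (e * t)) = (y.1, y.2 + t) := by
    simp only [Prod.mk.injEq, true_and]; linear_combination t * he2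
  rw [e1] at h4
  rw [← h4]
  exact ⟨ok.bij.mapsTo h3, Sys.inv_T ok h3⟩

theorem Sys.inv_iter {Y : Sys W} (ok : Y.Ok) {y : W × ℝ} (hy : y ∈ Y.S) (n : ℕ)
    (hn : ∀ k < n, Y.inv.T^[k] y ∉ Y.B) : Y.inv.T^[n] y ∈ Y.S ∧ Y.T^[n] (Y.inv.T^[n] y) = y ∧
      (∀ k < n, Y.T^[k] (Y.inv.T^[n] y) ∈ Y.S \ Y.A) := by
  induction n with
  | zero => exact ⟨hy, rfl, fun k hk => absurd hk (Nat.not_lt_zero k)⟩
  | succ n ih =>
    obtain ⟨ih1, ih2, ih3⟩ := ih fun k hk => hn k (by omega)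
    obtain ⟨h1, h2⟩ := Sys.T_inv ok ⟨ih1, hn n (by omega)⟩
    rw [Function.iterate_succ_apply' Y.inv.T]
    refine ⟨h1.1, ?_, ?_⟩
    · rw [Function.iterate_succ_apply, h2, ih2]
    · intro k hk
      rcases k with _ | k
      · exact h1
      · rw [Function.iterate_succ_apply, h2]; exact ih3 k (by omega)

theorem Sys.Ok.inv {Y : Sys W} (ok : Y.Ok) : Y.inv.Ok := by
  have hend : ∀ g : (W × ℝ) × ℝ, Y.Gm g → g.1 ∉ Y.S → ∃ y ∈ Y.S, ∃ e : ℝ, (e = 1 ∨ e = -1) ∧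
      ∀ᶠ t in 𝓝[>] (0 : ℝ), gpt g t ∈ Y.S \ Y.B ∧ Y.inv.T (gpt g t) = (y.1, y.2 + e * t) := by
    intro g hg hb
    obtain ⟨g', hg', hev⟩ := Sys.germ_next' (Y := Y.inv) ok.finB
      (fun y hy => (Sys.T_inv ok hy).1.1) (Sys.inv_loc ok) (g := g) hg
    refine ⟨g'.1, ?_, g'.2, hg'.1, hev⟩
    by_contra hb'
    apply hb
    have : Y.GT g' = g := by
      apply Sys.GT_eq ok hg'
      apply Eventually.frequently
      filter_upwards [hev] with t ht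
      rw [← ht.2]; exact (Sys.T_inv ok ht.1).2
    rw [← this]
    exact Sys.GT_end ok hg' hb'
  refine
    { hab := ok.hab
      finA := ok.finB
      finB := ok.finA
      subA := ok.subB
      subB := ok.subA
      bij := ?_
      loc := Sys.inv_loc ok
      enda := ?_
      endb := ?_
      nc := ?_
      conn := ?_
      neA := ?_ }
  · refine ⟨fun y hy => (Sys.T_inv ok hy).1, ?_, ?_⟩
    · intro y hy y' hy' h
      rw [← (Sys.T_inv ok hy).2, ← (Sys.T_inv ok hy').2, h]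
    · intro x hx
      exact ⟨Y.T x, ok.bij.mapsTo hx, Sys.inv_T ok hx⟩
  · intro w hw
    have hab := ok.hab w hw
    obtain ⟨y, hy, e, he, h⟩ := hend ((w, Y.a w), 1) ⟨Or.inl rfl, by
      filter_upwards [Ioo_mem_nhdsGT (sub_pos.mpr hab)] with t ht
      refine ⟨hw, ?_, ?_⟩ <;> simp only [gpt, one_mul] <;> linarith [ht.1, ht.2]⟩
      (fun h => lt_irrefl _ h.2.1)
    refine ⟨y, hy, e, he, ?_⟩
    filter_upwards [h] with t ht
    simp only [gpt, one_mul] at ht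
    exact ht
  · intro w hw
    have hab := ok.hab w hw
    obtain ⟨y, hy, e, he, h⟩ := hend ((w, Y.b w), -1) ⟨Or.inr rfl, by
      filter_upwards [Ioo_mem_nhdsGT (sub_pos.mpr hab)] with t ht
      refine ⟨hw, ?_, ?_⟩ <;> simp only [gpt] <;> linarith [ht.1, ht.2]⟩
      (fun h => lt_irrefl _ h.2.2)
    refine ⟨y, hy, e, he, ?_⟩
    filter_upwards [h] with t ht
    have e1 : Y.b w + -1 * t = Y.b w - t := by ring
    simp only [gpt, e1] at ht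
    exact ht
  · intro y hy n
    have hy' : y ∈ Y.A := hy
    have key : ∀ n : ℕ, ∀ k ≤ n, Y.inv.T^[k] y ∉ Y.B := by
      intro n
      induction n with
      | zero =>
        intro k hk
        obtain rfl : k = 0 := by omega
        intro hB
        exact ok.nc _ hB 0 hy'
      | succ n ih =>
        intro k hk
        obtain ⟨h1, h2, h3⟩ := Sys.inv_iter ok (ok.subA hy') k fun j hj => ih j (by omega)
        intro hB
        apply ok.nc _ hB k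
        rw [h2]; exact hy'
    exact key n n le_rfl
  · intro D hD hne
    apply ok.conn D _ hne
    intro x hx
    have := hD (Y.T x) (ok.bij.mapsTo hx)
    rw [Sys.inv_T ok hx] at this
    exact this.symm
  · obtain ⟨x, hx⟩ := ok.neA
    have hg : Y.Gm (x, 1) := Y.gm_of_mem (ok.subA hx) (Or.inl rfl)
    rcases Sys.GT_sing_B ok hg (fun h => h.2 hx) with h | ⟨_, h⟩
    · exact ⟨_, h⟩
    · exact ⟨_, h⟩

end TMX
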