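import Pool.Agent.TMX.Basic
import Pool.Agent.TMX.F1
import Pool.Agent.TMX.M2
import Pool.Agent.TMX.O1
import Pool.Agent.TMX.Q3
import Pool.Agent.TMX.Q5

set_option autoImplicit false

open Set Filter Topology

namespace TMX

/-- [M3] main theorem, quantitative form. -/
theorem mainq {θ : ℝ} (hθ : |θ - Real.pi / 4| < 1 / 100) (hz : Transcendental ℚ (zz θ)) :
    IsOpen Pi0 ∧ Pi0.Nonempty ∧ ∃ G ∈ residual Par, ∀ p ∈ G, p ∈ Pi0 →
      Irrational (p.1 / Real.pi) ∧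
      BIL.IsPolygon (Tb θ p) (sa θ p) (sb θ p) ∧ TopMixQ (Tb θ p) (sa θ p) (sb θ p) := by
  obtain ⟨G, hG, h⟩ := residual_visits hθ hz
  refine ⟨isOpen_Pi0, Pi0_nonempty, G ∩ {p : Par | Irrational (p.1 / Real.pi)},
    Filter.inter_mem hG residual_irrational, ?_⟩
  rintro p ⟨hpG, hirr⟩ hp
  refine ⟨hirr, polygon hθ hp, topmixq_of_boxes hθ hp ?_⟩
  rintro U V hU hV ⟨z, hzU, hz1, hz2, hz3⟩ ⟨y, hyV, hy1, hy2, hy3⟩
  apply criterion_q hθ hp hU hV
  · have hr : IsOpen (rev U) := hU.preimage (by fun_prop : Continuous fun z : ℂ × ℂ => (z.1, -z.2))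
    have hm : (z.1, -z.2) ∈ rev U := by
      change (z.1, - -z.2) ∈ U
      rw [neg_neg]; exact hzU
    exact (h p hpG hp z.1 (-z.2) hz1 hz2 (by rw [norm_neg]; exact hz3) (rev U) hr hm).2
  · exact (h p hpG hp y.1 y.2 hy1 hy2 hy3 V hV hyV).1

end TMX
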