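import Mathlib
import Pool.Agent.BIL.Defs

/-!
# MP_613dd8_an [TMX]: the table and quantitative topological mixing

The table `Tb θ p` is the rectangle `[0,1] × [0, tan θ]` minus the interior of the small rectangle
`Q p`, which is tilted by the angle `p.1` and has the four support numbers `p.2 j`.
-/

set_option autoImplicit false

open Set Filter Topology

namespace TMX

noncomputable section

/-- Scalar product of two vectors of the plane. -/
def dot (x y : ℂ) : ℝ := x.re * y.re + x.im * y.im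

/-- The direction of the persistent cylinder. -/
def zz (θ : ℝ) : ℂ := Complex.exp (θ * Complex.I)

/-- Height of the outer rectangle. -/
def bb (θ : ℝ) : ℝ := Real.tan θ

/-- Parameters of the hole: tilt and the four support numbers. -/
abbrev Par : Type := ℝ × (Fin 4 → ℝ)

/-- Outer normals of the hole. -/
def nu (p : Par) (j : Fin 4) : ℂ := Complex.exp (p.1 * Complex.I) * Complex.I ^ (j : ℕ)

/-- The hole (closed rectangle). -/
def Q (p : Par) : Set ℂ := {x | ∀ j, dot x (nu p j) ≤ p.2 j}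

/-- The vertex between the sides `j` and `j + 1`. -/
def vtx (p : Par) (j : Fin 4) : ℂ := p.2 j * nu p j + p.2 (j + 1) * nu p (j + 1)

/-- The open set of parameters. -/
def Pi0 : Set Par :=
  {p | 1 / 10 < p.1 ∧ p.1 < 3 / 10 ∧ (∀ j, 0 < p.2 j + p.2 (j + 2)) ∧
    ∀ j, |(vtx p j).re - 1 / 4| < 1 / 50 ∧ |(vtx p j).im - 1 / 2| < 1 / 50}

/-- The closed rectangle `[0,1] × [0,b]`. -/
def Rc (θ : ℝ) : Set ℂ := {x | 0 ≤ x.re ∧ x.re ≤ 1 ∧ 0 ≤ x.im ∧ x.im ≤ bb θ}

/-- The table. -/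
def Tb (θ : ℝ) (p : Par) : Set ℂ := {x | x ∈ Rc θ ∧ ∃ j, p.2 j ≤ dot x (nu p j)}

/-- The corners of the outer rectangle. -/
def cor (θ : ℝ) : Fin 4 → ℂ := ![0, 1, 1 + bb θ * Complex.I, bb θ * Complex.I]

/-- Initial and final points of the eight sides. -/
def sa (θ : ℝ) (p : Par) : Fin 8 → ℂ :=
  ![cor θ 0, cor θ 1, cor θ 2, cor θ 3, vtx p 3, vtx p 0, vtx p 1, vtx p 2]
def sb (θ : ℝ) (p : Par) : Fin 8 → ℂ :=
  ![cor θ 1, cor θ 2, cor θ 3, cor θ 0, vtx p 0, vtx p 1, vtx p 2, vtx p 3]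

/-- Topological mixing with a quantitative lower bound. -/
def TopMixQ {n : ℕ} (P : Set ℂ) (a b : Fin n → ℂ) : Prop :=
  ∀ φ : ℝ → ℂ × BIL.Ang → ℂ × BIL.Ang, BIL.IsBilliardFlow P a b φ →
    ∀ U V : Set (ℂ × BIL.Ang), IsOpen U → IsOpen V →
      (U ∩ P ×ˢ univ).Nonempty → (V ∩ P ×ˢ univ).Nonempty →
      ∃ T c : ℝ, 0 < T ∧ 0 < c ∧ ∀ t ≥ T,
        ENNReal.ofReal (c / t ^ 3) ≤ BIL.liou P (U ∩ (φ t) ⁻¹' V)

end

end TMX
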